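import Pool.Agent.FHE.Defs

/-! ALB (~100 lines): algebra of `bx`, `bxp`. All by induction on the box `c`, generalizing the
function. `bx_cons` from `bx_mul`, `bx_conj`, `bx_comp`. `bx_eq_bxp`: induction, `(a :: s).sum`. -/

open MeasureTheory Filter Topology
open scoped ComplexConjugate

namespace FHE

variable {Y : Type*}

theorem bx_mul (S : Y → Y) (c : List (ℕ × ℕ)) (f g : Y → ℂ) :
    bx S c (fun v => f v * g v) = fun v => bx S c f v * bx S c g v := by
  induction c generalizing f g with
  | nil => rfl
  | cons a t ih =>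
    simp only [bx]
    rw [← ih]
    congr 1
    funext v
    simp only [map_mul]
    ring

theorem bx_conj (S : Y → Y) (c : List (ℕ × ℕ)) (f : Y → ℂ) :
    bx S c (fun v => conj (f v)) = fun v => conj (bx S c f v) := by
  induction c generalizing f with
  | nil => rfl
  | cons a t ih =>
    simp only [bx]
    rw [← ih]
    congr 1
    funext v
    simp only [map_mul]

theorem bx_comp (S : Y → Y) (c : List (ℕ × ℕ)) (a : ℕ) (f : Y → ℂ) :
    bx S c (fun v => f (S^[a] v)) = fun v => bx S c f (S^[a] v) := by
  induction c generalizing f with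
  | nil => rfl
  | cons b t ih =>
    simp only [bx]
    rw [← ih]
    congr 1
    funext v
    rw [← Function.iterate_add_apply, ← Function.iterate_add_apply,
      ← Function.iterate_add_apply, ← Function.iterate_add_apply, add_comm a, add_comm a]

theorem bx_cons (S : Y → Y) (a b : ℕ) (c : List (ℕ × ℕ)) (f : Y → ℂ) (v : Y) :
    bx S ((a, b) :: c) f v = bx S c f (S^[a] v) * conj (bx S c f (S^[b] v)) := by
  simp only [bx]
  rw [bx_mul S c (fun v => f (S^[a] v)) (fun v => conj (f (S^[b] v))),
    bx_conj S c (fun v => f (S^[b] v)), bx_comp, bx_comp]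

theorem bx_bd [MeasurableSpace Y] {S : Y → Y} (hS : Measurable S) (c : List (ℕ × ℕ)) {f : Y → ℂ}
    (hf : Bd f) : Bd (bx S c f) := by
  induction c generalizing f with
  | nil => exact hf
  | cons a t ih =>
    simp only [bx]
    apply ih
    refine ⟨?_, ?_⟩
    · exact (hf.meas.comp (hS.iterate _)).mul
        (Complex.continuous_conj.measurable.comp (hf.meas.comp (hS.iterate _)))
    · intro v
      rw [norm_mul, RCLike.norm_conj]
      have h1 := hf.le (S^[a.1] v)
      have h2 := hf.le (S^[a.2] v)
      calc _ ≤ 1 * 1 := mul_le_mul h1 h2 (norm_nonneg _) zero_le_one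
        _ = 1 := one_mul 1

theorem bxp_mul (c : List (ℕ × ℕ)) (Ψ Φ : List ℕ → ℂ) :
    bxp c (fun s => Ψ s * Φ s) = bxp c Ψ * bxp c Φ := by
  induction c generalizing Ψ Φ with
  | nil => rfl
  | cons a t ih =>
    simp only [bxp]
    rw [← ih]
    congr 1
    funext s
    simp only [map_mul]
    ring

theorem bxp_conj (c : List (ℕ × ℕ)) (Ψ : List ℕ → ℂ) :
    bxp c (fun s => conj (Ψ s)) = conj (bxp c Ψ) := by
  induction c generalizing Ψ with
  | nil => rfl
  | cons a t ih =>
    simp only [bxp]
    rw [← ih]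
    congr 1
    funext s
    simp only [map_mul]

theorem bxp_norm_le (c : List (ℕ × ℕ)) (Ψ : List ℕ → ℂ) (h : ∀ s, ‖Ψ s‖ ≤ 1) :
    ‖bxp c Ψ‖ ≤ 1 := by
  induction c generalizing Ψ with
  | nil => exact h []
  | cons a t ih =>
    simp only [bxp]
    apply ih
    intro s
    rw [norm_mul, RCLike.norm_conj]
    calc _ ≤ 1 * 1 := mul_le_mul (h _) (h _) (norm_nonneg _) zero_le_one
      _ = 1 := one_mul 1

theorem bxp_norm_eq (c : List (ℕ × ℕ)) (Ψ : List ℕ → ℂ) (h : ∀ s, ‖Ψ s‖ = 1) :
    ‖bxp c Ψ‖ = 1 := by
  induction c generalizing Ψ with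
  | nil => exact h []
  | cons a t ih =>
    simp only [bxp]
    apply ih
    intro s
    rw [norm_mul, RCLike.norm_conj, h, h, one_mul]

theorem bxp_meas {X : Type*} [MeasurableSpace X] (c : List (ℕ × ℕ)) (Ψ : List ℕ → X → ℂ)
    (h : ∀ s, Measurable (Ψ s)) : Measurable fun x => bxp c (fun s => Ψ s x) := by
  induction c generalizing Ψ with
  | nil => exact h []
  | cons a t ih =>
    simp only [bxp]
    exact ih (fun s x => Ψ (a.1 :: s) x * conj (Ψ (a.2 :: s) x)) fun s =>
      (h _).mul (Complex.continuous_conj.measurable.comp (h _))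

theorem bx_eq_bxp (S : Y → Y) (c : List (ℕ × ℕ)) (f : Y → ℂ) (v : Y) :
    bx S c f v = bxp c (fun s => f (S^[s.sum] v)) := by
  induction c generalizing f with
  | nil => rfl
  | cons a t ih =>
    simp only [bx, bxp]
    rw [ih]
    congr 1
    funext s
    rw [List.sum_cons, List.sum_cons, Function.iterate_add_apply, Function.iterate_add_apply]

/-- `f (S^(p |s|) v)` boxed is the box product for `S^p`. -/
theorem bx_pow_eq_bxp (S : Y → Y) (p : ℕ) (c : List (ℕ × ℕ)) (f : Y → ℂ) (v : Y) :
    bx (S^[p]) c f v = bxp c (fun s => f (S^[p * s.sum] v)) := by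
  rw [bx_eq_bxp]
  congr 1
  funext s
  rw [Function.iterate_mul]

/-- A box product as an ordinary product of functions along multiples of `p`. -/
theorem bx_list [MeasurableSpace Y] {S : Y → Y} (hS : Measurable S) (c : List (ℕ × ℕ))
    {f : Y → ℂ} (hf : Bd f) : ∃ L : List ((Y → ℂ) × ℕ), L.length = 2 ^ c.length ∧
      (∀ gc ∈ L, Bd gc.1) ∧ ∀ (p : ℕ) (v : Y), bx (S^[p]) c f v =
        (L.map fun gc => gc.1 (S^[p * gc.2] v)).prod := by
  induction c with
  | nil =>
    refine ⟨[(f, 0)], by simp, ?_, ?_⟩
    · intro gc hgc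
      rw [List.mem_singleton] at hgc
      rw [hgc]
      exact hf
    · intro p v
      simp [bx]
  | cons a t ih =>
    obtain ⟨L, h1, h2, h3⟩ := ih
    refine ⟨L.map (fun gc => (gc.1, gc.2 + a.1)) ++
      L.map (fun gc => (fun v => conj (gc.1 v), gc.2 + a.2)), ?_, ?_, ?_⟩
    · rw [List.length_append, List.length_map, List.length_map, h1, List.length_cons, pow_succ]
      ring
    · intro gc hgc
      rw [List.mem_append, List.mem_map, List.mem_map] at hgc
      rcases hgc with ⟨b, hb, rfl⟩ | ⟨b, hb, rfl⟩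
      · exact h2 b hb
      · refine ⟨Complex.continuous_conj.measurable.comp (h2 b hb).meas, fun v => ?_⟩
        change ‖conj (b.1 v)‖ ≤ 1
        rw [RCLike.norm_conj]
        exact (h2 b hb).le v
    · intro p v
      obtain ⟨a1, a2⟩ := a
      rw [bx_cons, h3, h3, List.map_append, List.prod_append, List.map_map, List.map_map]
      have e1 : (L.map fun gc => gc.1 (S^[p * gc.2] ((S^[p])^[a1] v))).prod =
          (L.map ((fun gc : (Y → ℂ) × ℕ => gc.1 (S^[p * gc.2] v)) ∘
            fun gc : (Y → ℂ) × ℕ => (gc.1, gc.2 + (a1, a2).1))).prod := by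
        congr 1
        apply List.map_congr_left
        intro gc _
        simp only [Function.comp]
        rw [← Function.iterate_mul, ← Function.iterate_add_apply, mul_add]
      have e2 : conj (L.map fun gc => gc.1 (S^[p * gc.2] ((S^[p])^[a2] v))).prod =
          (L.map ((fun gc : (Y → ℂ) × ℕ => gc.1 (S^[p * gc.2] v)) ∘
            fun gc : (Y → ℂ) × ℕ => ((fun v => conj (gc.1 v) : Y → ℂ),
              gc.2 + (a1, a2).2))).prod := by
        rw [map_list_prod, List.map_map]
        congr 1
        apply List.map_congr_left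
        intro gc _
        simp only [Function.comp]
        rw [← Function.iterate_mul, ← Function.iterate_add_apply, mul_add]
      rw [e1, e2]

end FHE
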