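import Pool.Agent.FHE.Defs

/-! ALD (~80 lines): algebra of `dl`, `dls`. Proofs: `dl_mul`, `dl_conj`, `dl_comp` by induction on
`h` (generalize `f`), `der` is multiplicative and commutes with `∘ S^[a]`
(`Function.iterate_add_apply`, `Nat.add_comm`). `dl_cons` from `dl_mul`, `dl_conj`, `dl_comp`;
`dl_eq` by induction from `dl_cons`. -/

open MeasureTheory Filter Topology
open scoped ComplexConjugate

namespace FHE

variable {Y : Type*}

theorem dl_mul (S : Y → Y) (h : List ℕ) (f g : Y → ℂ) :
    dl S h (fun v => f v * g v) = fun v => dl S h f v * dl S h g v := by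
  induction h generalizing f g with
  | nil => rfl
  | cons a t ih =>
    have h1 : der S a (fun v => f v * g v) = fun v => der S a f v * der S a g v := by
      funext v
      simp only [der, map_mul]
      ring
    change dl S t (der S a (fun v => f v * g v)) = _
    rw [h1, ih]
    rfl

theorem dl_conj (S : Y → Y) (h : List ℕ) (f : Y → ℂ) :
    dl S h (fun v => conj (f v)) = fun v => conj (dl S h f v) := by
  induction h generalizing f with
  | nil => rfl
  | cons a t ih =>
    have h1 : der S a (fun v => conj (f v)) = fun v => conj (der S a f v) := by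
      funext v
      simp only [der, map_mul]
    change dl S t (der S a (fun v => conj (f v))) = _
    rw [h1, ih]
    rfl

theorem dl_comp (S : Y → Y) (h : List ℕ) (a : ℕ) (f : Y → ℂ) :
    dl S h (fun v => f (S^[a] v)) = fun v => dl S h f (S^[a] v) := by
  induction h generalizing f with
  | nil => rfl
  | cons b t ih =>
    have h1 : der S b (fun v => f (S^[a] v)) = fun v => der S b f (S^[a] v) := by
      funext v
      simp only [der]
      rw [← Function.iterate_add_apply, ← Function.iterate_add_apply, Nat.add_comm]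
    change dl S t (der S b (fun v => f (S^[a] v))) = _
    rw [h1, ih]
    rfl

theorem dl_cons (S : Y → Y) (a : ℕ) (h : List ℕ) (f : Y → ℂ) (v : Y) :
    dl S (a :: h) f v = dl S h f v * conj (dl S h f (S^[a] v)) := by
  have h1 : dl S (a :: h) f = dl S h (fun v => f v * (fun v => conj (f (S^[a] v))) v) := rfl
  rw [h1, dl_mul]
  have h2 : dl S h (fun v => conj (f (S^[a] v))) = fun v => conj (dl S h f (S^[a] v)) := by
    rw [dl_conj S h (fun v => f (S^[a] v)), dl_comp]
  rw [h2]

theorem dl_eq (S : Y → Y) (h : List ℕ) (f : Y → ℂ) (v : Y) :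
    dl S h f v = f v * dls S h f v := by
  induction h with
  | nil => simp [dl, dls]
  | cons a t ih =>
    rw [dl_cons]
    change _ = f v * (dls S t f v * conj (dl S t f (S^[a] v)))
    rw [ih]
    ring

theorem ALD_comp_bd [MeasurableSpace Y] {S : Y → Y} (hS : Measurable S) (a : ℕ) {f : Y → ℂ}
    (hf : Bd f) : Bd (fun v => conj (f (S^[a] v))) := by
  refine ⟨?_, fun v => ?_⟩
  · exact Complex.continuous_conj.measurable.comp (hf.meas.comp (hS.iterate a))
  · rw [RCLike.norm_conj]
    exact hf.le _

theorem ALD_mul_bd [MeasurableSpace Y] {f g : Y → ℂ} (hf : Bd f) (hg : Bd g) :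
    Bd (fun v => f v * g v) := by
  refine ⟨hf.meas.mul hg.meas, fun v => ?_⟩
  rw [norm_mul]
  exact mul_le_one₀ (hf.le v) (norm_nonneg _) (hg.le v)

theorem dl_bd [MeasurableSpace Y] {S : Y → Y} (hS : Measurable S) (h : List ℕ) {f : Y → ℂ}
    (hf : Bd f) : Bd (dl S h f) := by
  induction h generalizing f with
  | nil => exact hf
  | cons a t ih => exact ih (ALD_mul_bd hf (ALD_comp_bd hS a hf))

theorem dls_bd [MeasurableSpace Y] {S : Y → Y} (hS : Measurable S) (h : List ℕ) {f : Y → ℂ}
    (hf : Bd f) : Bd (dls S h f) := by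
  induction h with
  | nil => exact ⟨measurable_const, fun v => by simp [dls]⟩
  | cons a t ih => exact ALD_mul_bd ih (ALD_comp_bd hS a (dl_bd hS t hf))

/-- along a factor map -/
theorem dl_factor {X : Type*} [MeasurableSpace X] {ρ : Measure X} {T : X → X}
    (hT : MeasurePreserving T ρ ρ) {S : Y → Y} {q : X → Y} (hq : ∀ᵐ ω ∂ρ, q (T ω) = S (q ω))
    (h : List ℕ) (f : Y → ℂ) :
    ∀ᵐ ω ∂ρ, dl T h (fun ω => f (q ω)) ω = dl S h f (q ω) := by
  have hq' : ∀ a : ℕ, ∀ᵐ ω ∂ρ, q (T^[a] ω) = S^[a] (q ω) := by
    intro a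
    induction a with
    | zero => exact Eventually.of_forall fun ω => rfl
    | succ a ih =>
      have h1 : ∀ᵐ ω ∂ρ, q (T (T^[a] ω)) = S (q (T^[a] ω)) :=
        (hT.iterate a).quasiMeasurePreserving.ae hq
      filter_upwards [ih, h1] with ω h2 h3
      rw [Function.iterate_succ_apply', Function.iterate_succ_apply', h3, h2]
  induction h with
  | nil => exact Eventually.of_forall fun ω => rfl
  | cons a t ih =>
    have h1 : ∀ᵐ ω ∂ρ, dl T t (fun ω => f (q ω)) (T^[a] ω) = dl S t f (q (T^[a] ω)) :=
      (hT.iterate a).quasiMeasurePreserving.ae ih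
    filter_upwards [ih, h1, hq' a] with ω h2 h3 h4
    rw [dl_cons, dl_cons, h2, h3, h4]

end FHE
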