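import Pool.Agent.FHE.ALD
import Pool.Agent.FHE.ALB

/-! ALN (~80 lines): norms of integrals of boxes and of derivatives. Induction on the box. For the
first pair `(a, b)`, `a ≤ b`: `f (S^a v) conj f (S^b v) = (der S (b - a) f) (S^a v)`, and
`∫ bx S c (F ∘ S^[a]) = ∫ (bx S c F) ∘ S^[a] = ∫ bx S c F` (`bx_comp`, invariance of `μ`). For
`a > b` take the complex conjugate (`bx_conj`). `int_dl_pow`: `dl (S^[p]) h f = dl S (p h) f`. -/

open MeasureTheory Filter Topology
open scoped ComplexConjugate

namespace FHE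

variable {Y : Type*} [MeasurableSpace Y]

theorem ALN_pairfun_meas {S : Y → Y} (hS : Measurable S) (a b : ℕ) {f : Y → ℂ}
    (hf : Measurable f) : Measurable fun v => f (S^[a] v) * conj (f (S^[b] v)) :=
  (hf.comp (hS.iterate a)).mul
    (Complex.continuous_conj.measurable.comp (hf.comp (hS.iterate b)))

theorem ALN_bx_meas {S : Y → Y} (hS : Measurable S) (c : List (ℕ × ℕ)) {f : Y → ℂ}
    (hf : Measurable f) : Measurable (bx S c f) := by
  induction c generalizing f with
  | nil => exact hf
  | cons p t ih => exact ih (ALN_pairfun_meas hS p.1 p.2 hf)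

theorem ALN_dl_meas {S : Y → Y} (hS : Measurable S) (h : List ℕ) {f : Y → ℂ}
    (hf : Measurable f) : Measurable (dl S h f) := by
  induction h generalizing f with
  | nil => exact hf
  | cons a t ih =>
    exact ih (f := der S a f) (hf.mul
      (Complex.continuous_conj.measurable.comp (hf.comp (hS.iterate a))))

theorem ALN_shift {S : Y → Y} {μ : Measure Y} (hS : MeasurePreserving S μ μ) (a : ℕ)
    {F : Y → ℂ} (hF : Measurable F) : ∫ v, F (S^[a] v) ∂μ = ∫ v, F v ∂μ := by
  have h := hS.iterate a
  have h1 : ∫ y, F y ∂(Measure.map (S^[a]) μ) = ∫ v, F (S^[a] v) ∂μ :=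
    integral_map h.measurable.aemeasurable hF.aestronglyMeasurable
  rw [h.map_eq] at h1
  exact h1.symm

/-- the pair of shifts `(a, b)` as one shift, up to complex conjugation -/
theorem ALN_der (S : Y → Y) (a b : ℕ) (f : Y → ℂ) :
    ∃ m : ℕ, (fun v => f (S^[a] v) * conj (f (S^[b] v))) = (fun v => der S (df (a, b)) f (S^[m] v)) ∨
      (fun v => f (S^[a] v) * conj (f (S^[b] v))) =
        (fun v => conj (der S (df (a, b)) f (S^[m] v))) := by
  rcases le_total a b with h | h
  · refine ⟨a, Or.inl ?_⟩
    obtain ⟨k, rfl⟩ := Nat.exists_eq_add_of_le h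
    have hk : df (a, a + k) = k := by simp [df]
    funext v
    rw [hk]
    simp only [der]
    rw [← Function.iterate_add_apply, Nat.add_comm k a]
  · refine ⟨b, Or.inr ?_⟩
    obtain ⟨k, rfl⟩ := Nat.exists_eq_add_of_le h
    have hk : df (b + k, b) = k := by simp [df]
    funext v
    rw [hk]
    simp only [der, map_mul, Complex.conj_conj]
    rw [← Function.iterate_add_apply, Nat.add_comm k b, mul_comm]

theorem norm_int_bx {S : Y → Y} {μ : Measure Y} (hS : MeasurePreserving S μ μ)
    (c : List (ℕ × ℕ)) {f : Y → ℂ} (hf : Measurable f) :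
    ‖∫ v, bx S c f v ∂μ‖ = ‖∫ v, dl S (c.map df) f v ∂μ‖ := by
  induction c generalizing f with
  | nil => rfl
  | cons p t ih =>
    obtain ⟨a, b⟩ := p
    have hder : Measurable (der S (df (a, b)) f) :=
      hf.mul (Complex.continuous_conj.measurable.comp (hf.comp (hS.measurable.iterate _)))
    change ‖∫ v, bx S t (fun v => f (S^[a] v) * conj (f (S^[b] v))) v ∂μ‖ =
      ‖∫ v, dl S (t.map df) (der S (df (a, b)) f) v ∂μ‖
    rw [← ih hder]
    obtain ⟨m, h | h⟩ := ALN_der S a b f
    · rw [h, bx_comp, ALN_shift hS m (ALN_bx_meas hS.measurable t hder)]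
    · rw [h, bx_conj S t (fun v => der S (df (a, b)) f (S^[m] v)), bx_comp, integral_conj,
        RCLike.norm_conj, ALN_shift hS m (ALN_bx_meas hS.measurable t hder)]

/-- with two more shifts (the last coordinate of a box) -/
theorem norm_int_bx_pair {S : Y → Y} {μ : Measure Y} (hS : MeasurePreserving S μ μ)
    (c : List (ℕ × ℕ)) (m m' : ℕ) {f : Y → ℂ} (hf : Measurable f) :
    ‖∫ v, bx S ((m, m') :: c) f v ∂μ‖ =
      ‖∫ v, dl S (c.map df) f (S^[m] v) * conj (dl S (c.map df) f (S^[m'] v)) ∂μ‖ := by
  rw [norm_int_bx hS _ hf]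
  have hD : Measurable (dl S (c.map df) f) := ALN_dl_meas hS.measurable _ hf
  have hder : Measurable (der S (df (m, m')) (dl S (c.map df) f)) :=
    hD.mul (Complex.continuous_conj.measurable.comp (hD.comp (hS.measurable.iterate _)))
  have h1 : ∀ v, dl S (((m, m') :: c).map df) f v =
      der S (df (m, m')) (dl S (c.map df) f) v := by
    intro v
    rw [List.map_cons, dl_cons]
    rfl
  simp_rw [h1]
  obtain ⟨k, h | h⟩ := ALN_der S m m' (dl S (c.map df) f)
  · rw [h, ALN_shift hS k hder]
  · rw [h, integral_conj, RCLike.norm_conj, ALN_shift hS k hder]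

theorem dl_pow (S : Y → Y) (p : ℕ) (h : List ℕ) (f : Y → ℂ) :
    dl (S^[p]) h f = dl S (h.map fun a => p * a) f := by
  induction h generalizing f with
  | nil => rfl
  | cons a t ih =>
    have h1 : der (S^[p]) a f = der S (p * a) f := by
      funext v
      simp only [der]
      rw [← Function.iterate_mul]
    change dl (S^[p]) t (der (S^[p]) a f) = dl S (t.map fun a => p * a) (der S (p * a) f)
    rw [h1, ih]

end FHE
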