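import Pool.Agent.FHE.Defs

/-! AVA (~130 lines): elementary facts on the averages `av`, `sm`. All by induction on `d`
(generalizing `Q`). `av_pow`: convexity of `x ^ n` at each level. `av_mx`: write
`range (p * H)` as `r + p h`, `r < p`, `h < H`, at each level;
swap the averages over `h` and over the remaining `r`. -/

open MeasureTheory Filter Topology
open scoped ComplexConjugate

namespace FHE

private theorem ava_succ {E : Type*} [AddCommMonoid E] [Module ℝ E] (H d : ℕ) (Q : List ℕ → E) :
    av H (d + 1) Q = (H : ℝ)⁻¹ • ∑ a ∈ Finset.range H, av H d (fun t => Q (a :: t)) := rfl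

private theorem ava_succ' (H d : ℕ) (Q : List ℕ → ℝ) :
    av H (d + 1) Q = (H : ℝ)⁻¹ * ∑ a ∈ Finset.range H, av H d (fun t => Q (a :: t)) := rfl

private theorem ava_sm_succ (H d : ℕ) (Q : List ℕ → ℝ) :
    sm H (d + 1) Q = ∑ a ∈ Finset.range H, sm H d (fun t => Q (a :: t)) := rfl

private theorem ava_inv_nonneg (H : ℕ) : (0 : ℝ) ≤ (H : ℝ)⁻¹ := by positivity

theorem av_mono (H d : ℕ) {Q Q' : List ℕ → ℝ}
    (h : ∀ t, t.length = d → (∀ a ∈ t, a < H) → Q t ≤ Q' t) : av H d Q ≤ av H d Q' := by
  induction d generalizing Q Q' with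
  | zero => exact h [] rfl (by simp)
  | succ d ih =>
    rw [ava_succ', ava_succ']
    refine mul_le_mul_of_nonneg_left ?_ (ava_inv_nonneg H)
    refine Finset.sum_le_sum fun a ha => ih fun t ht htH => h (a :: t) (by simp [ht]) ?_
    intro b hb
    rcases List.mem_cons.1 hb with rfl | hb
    · exact Finset.mem_range.1 ha
    · exact htH b hb

theorem av_congr {E : Type*} [AddCommMonoid E] [Module ℝ E] (H d : ℕ) {Q Q' : List ℕ → E}
    (h : ∀ t, t.length = d → Q t = Q' t) : av H d Q = av H d Q' := by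
  induction d generalizing Q Q' with
  | zero => exact h [] rfl
  | succ d ih =>
    rw [ava_succ, ava_succ]
    congr 1
    exact Finset.sum_congr rfl fun a _ => ih fun t ht => h (a :: t) (by simp [ht])

theorem av_nonneg (H d : ℕ) {Q : List ℕ → ℝ} (h : ∀ t, t.length = d → 0 ≤ Q t) :
    0 ≤ av H d Q := by
  induction d generalizing Q with
  | zero => exact h [] rfl
  | succ d ih =>
    rw [ava_succ']
    exact mul_nonneg (ava_inv_nonneg H)
      (Finset.sum_nonneg fun a _ => ih fun t ht => h (a :: t) (by simp [ht]))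

theorem av_add (H d : ℕ) (Q Q' : List ℕ → ℝ) :
    av H d (fun t => Q t + Q' t) = av H d Q + av H d Q' := by
  induction d generalizing Q Q' with
  | zero => rfl
  | succ d ih =>
    rw [ava_succ', ava_succ', ava_succ', ← mul_add, ← Finset.sum_add_distrib]
    congr 1
    exact Finset.sum_congr rfl fun a _ => ih _ _

theorem av_mul_left (H d : ℕ) (c : ℝ) (Q : List ℕ → ℝ) :
    av H d (fun t => c * Q t) = c * av H d Q := by
  induction d generalizing Q with
  | zero => rfl
  | succ d ih =>
    rw [ava_succ', ava_succ']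
    have h1 : ∑ a ∈ Finset.range H, av H d (fun t => c * Q (a :: t)) =
        c * ∑ a ∈ Finset.range H, av H d (fun t => Q (a :: t)) := by
      rw [Finset.mul_sum]
      exact Finset.sum_congr rfl fun a _ => ih _
    rw [h1]
    ring

private theorem ava_const_le {H : ℕ} (hH : 1 ≤ H) (c : ℝ) :
    (H : ℝ)⁻¹ * ∑ _a ∈ Finset.range H, c = c := by
  have h0 : (H : ℝ) ≠ 0 := by
    have : (1 : ℝ) ≤ (H : ℝ) := by exact_mod_cast hH
    linarith
  rw [Finset.sum_const, Finset.card_range, nsmul_eq_mul, ← mul_assoc, inv_mul_cancel₀ h0, one_mul]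

theorem av_const {H : ℕ} (hH : 1 ≤ H) (d : ℕ) (c : ℝ) : av H d (fun _ => c) = c := by
  induction d with
  | zero => rfl
  | succ d ih =>
    rw [ava_succ', ih]
    exact ava_const_le hH c

theorem norm_av_le (H d : ℕ) (Q : List ℕ → ℂ) : ‖av H d Q‖ ≤ av H d (fun t => ‖Q t‖) := by
  induction d generalizing Q with
  | zero => exact le_rfl
  | succ d ih =>
    rw [ava_succ, ava_succ', norm_smul]
    have h1 : ‖(H : ℝ)⁻¹‖ = (H : ℝ)⁻¹ := Real.norm_of_nonneg (ava_inv_nonneg H)
    rw [h1]
    refine mul_le_mul_of_nonneg_left ?_ (ava_inv_nonneg H)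
    exact (norm_sum_le _ _).trans (Finset.sum_le_sum fun a _ => ih _)

/-- some value is at least as large as the average -/
theorem exists_av_le {H : ℕ} (hH : 1 ≤ H) (d : ℕ) (Q : List ℕ → ℝ) :
    ∃ t, t.length = d ∧ (∀ a ∈ t, a < H) ∧ av H d Q ≤ Q t := by
  by_contra hcon
  push Not at hcon
  induction d generalizing Q with
  | zero => exact absurd (hcon [] rfl (by simp)) (lt_irrefl _)
  | succ d ih =>
    have h1 : ∃ a ∈ Finset.range H, av H (d + 1) Q ≤ av H d (fun t => Q (a :: t)) := by
      by_contra h2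
      push Not at h2
      have h3 : ∑ a ∈ Finset.range H, av H d (fun t => Q (a :: t)) <
          ∑ _a ∈ Finset.range H, av H (d + 1) Q :=
        Finset.sum_lt_sum_of_nonempty (Finset.nonempty_range_iff.2 (by omega)) h2
      have h4 : (0 : ℝ) < (H : ℝ)⁻¹ := by
        have : (0 : ℝ) < (H : ℝ) := by exact_mod_cast hH
        positivity
      have h5 := mul_lt_mul_of_pos_left h3 h4
      rw [ava_const_le hH, ← ava_succ'] at h5
      exact lt_irrefl _ h5
    obtain ⟨a, ha, h1⟩ := h1
    refine ih (fun t => Q (a :: t)) ?_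
    intro t ht htH
    have h2 := hcon (a :: t) (by simp [ht]) (by
      intro b hb
      rcases List.mem_cons.1 hb with rfl | hb
      · exact Finset.mem_range.1 ha
      · exact htH b hb)
    exact h2.trans_le h1

theorem av_pow {H : ℕ} (hH : 1 ≤ H) (d n : ℕ) {Q : List ℕ → ℝ} (h : ∀ t, 0 ≤ Q t) :
    av H d Q ^ n ≤ av H d (fun t => Q t ^ n) := by
  induction d generalizing Q with
  | zero => exact le_rfl
  | succ d ih =>
    rw [ava_succ', ava_succ']
    have h0 : (H : ℝ) ≠ 0 := by
      have : (1 : ℝ) ≤ (H : ℝ) := by exact_mod_cast hH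
      linarith
    have h1 := Real.pow_arith_mean_le_arith_mean_pow (Finset.range H) (fun _ => (H : ℝ)⁻¹)
      (fun a => av H d (fun t => Q (a :: t))) (fun _ _ => ava_inv_nonneg H)
      (by rw [Finset.sum_const, Finset.card_range, nsmul_eq_mul, mul_inv_cancel₀ h0])
      (fun a _ => av_nonneg H d fun t _ => h (a :: t)) n
    rw [Finset.mul_sum]
    refine h1.trans ?_
    rw [Finset.mul_sum]
    exact Finset.sum_le_sum fun a _ =>
      mul_le_mul_of_nonneg_left (ih fun t => h (a :: t)) (ava_inv_nonneg H)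

/-- integration of an average -/
theorem av_integral {X : Type*} [MeasurableSpace X] (m : Measure X) (H d : ℕ)
    (Q : List ℕ → X → ℂ) (h : ∀ t, t.length = d → Integrable (Q t) m) :
    ∫ x, av H d (fun t => Q t x) ∂m = av H d (fun t => ∫ x, Q t x ∂m) := by
  have key : ∀ (d : ℕ) (Q : List ℕ → X → ℂ), (∀ t, t.length = d → Integrable (Q t) m) →
      Integrable (fun x => av H d (fun t => Q t x)) m ∧
      ∫ x, av H d (fun t => Q t x) ∂m = av H d (fun t => ∫ x, Q t x ∂m) := by
    intro d
    induction d with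
    | zero => exact fun Q h => ⟨h [] rfl, rfl⟩
    | succ d ih =>
      intro Q h
      have h1 : ∀ a ∈ Finset.range H, Integrable (fun x => av H d (fun t => Q (a :: t) x)) m :=
        fun a _ => (ih (fun t => Q (a :: t)) fun t ht => h (a :: t) (by simp [ht])).1
      refine ⟨?_, ?_⟩
      · exact (integrable_finsetSum _ h1).smul ((H : ℝ)⁻¹)
      · simp only [ava_succ]
        rw [integral_smul, integral_finsetSum _ h1]
        congr 1
        exact Finset.sum_congr rfl fun a _ =>
          (ih (fun t => Q (a :: t)) fun t ht => h (a :: t) (by simp [ht])).2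
  exact (key d Q h).2

/-- comparison of different ranges -/
theorem av_le_range {H H' : ℕ} (hH : 1 ≤ H) (hHH : H ≤ H') (d : ℕ) {Q : List ℕ → ℝ}
    (h : ∀ t, 0 ≤ Q t) : av H d Q ≤ ((H' : ℝ) / H) ^ d * av H' d Q := by
  induction d generalizing Q with
  | zero => simp [av]
  | succ d ih =>
    rw [ava_succ', ava_succ']
    have h0 : (0 : ℝ) < (H : ℝ) := by exact_mod_cast hH
    have h0' : (0 : ℝ) < (H' : ℝ) := by exact_mod_cast (hH.trans hHH)
    have h1 : ∑ a ∈ Finset.range H, av H d (fun t => Q (a :: t)) ≤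
        ∑ a ∈ Finset.range H, ((H' : ℝ) / H) ^ d * av H' d (fun t => Q (a :: t)) :=
      Finset.sum_le_sum fun a _ => ih fun t => h (a :: t)
    have h2 : ∑ a ∈ Finset.range H, ((H' : ℝ) / H) ^ d * av H' d (fun t => Q (a :: t)) ≤
        ∑ a ∈ Finset.range H', ((H' : ℝ) / H) ^ d * av H' d (fun t => Q (a :: t)) := by
      refine Finset.sum_le_sum_of_subset_of_nonneg (Finset.range_mono hHH) ?_
      intro a _ _
      exact mul_nonneg (by positivity) (av_nonneg H' d fun t _ => h (a :: t))
    rw [← Finset.mul_sum (Finset.range H')] at h2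
    calc (H : ℝ)⁻¹ * ∑ a ∈ Finset.range H, av H d (fun t => Q (a :: t))
        ≤ (H : ℝ)⁻¹ * (((H' : ℝ) / H) ^ d *
            ∑ a ∈ Finset.range H', av H' d (fun t => Q (a :: t))) :=
          mul_le_mul_of_nonneg_left (h1.trans h2) (ava_inv_nonneg H)
      _ = ((H' : ℝ) / H) ^ (d + 1) *
          ((H' : ℝ)⁻¹ * ∑ a ∈ Finset.range H', av H' d (fun t => Q (a :: t))) := by
          rw [pow_succ]
          field_simp

/-- lists with all entries divisible by `p` -/
theorem av_dilate {p H : ℕ} (hp : 1 ≤ p) (d : ℕ) {Q : List ℕ → ℝ} (h : ∀ t, 0 ≤ Q t) :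
    av H d (fun t => Q (t.map fun a => p * a)) ≤ (p : ℝ) ^ d * av (p * H) d Q := by
  induction d generalizing Q with
  | zero => simp [av]
  | succ d ih =>
    rw [ava_succ', ava_succ']
    have h0 : (0 : ℝ) < (p : ℝ) := by exact_mod_cast hp
    simp only [List.map_cons]
    have h1 : ∑ a ∈ Finset.range H, av H d (fun t => Q ((p * a) :: t.map fun a => p * a)) ≤
        ∑ a ∈ Finset.range H, (p : ℝ) ^ d * av (p * H) d (fun t => Q ((p * a) :: t)) :=
      Finset.sum_le_sum fun a _ => ih (Q := fun t => Q ((p * a) :: t)) fun t => h _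
    have h2 : ∑ a ∈ Finset.range H, (p : ℝ) ^ d * av (p * H) d (fun t => Q ((p * a) :: t)) ≤
        ∑ a ∈ Finset.range (p * H), (p : ℝ) ^ d * av (p * H) d (fun t => Q (a :: t)) := by
      have h3 : ∑ a ∈ Finset.range H, (p : ℝ) ^ d * av (p * H) d (fun t => Q ((p * a) :: t)) =
          ∑ b ∈ (Finset.range H).image (fun a => p * a),
            (p : ℝ) ^ d * av (p * H) d (fun t => Q (b :: t)) := by
        rw [Finset.sum_image]
        intro a _ b _ hab
        exact Nat.eq_of_mul_eq_mul_left hp hab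
      rw [h3]
      refine Finset.sum_le_sum_of_subset_of_nonneg ?_ ?_
      · intro b hb
        obtain ⟨a, ha, rfl⟩ := Finset.mem_image.1 hb
        exact Finset.mem_range.2 (Nat.mul_lt_mul_of_pos_left (Finset.mem_range.1 ha) hp)
      · intro a _ _
        exact mul_nonneg (by positivity) (av_nonneg _ d fun t _ => h (a :: t))
    rw [← Finset.mul_sum (Finset.range (p * H))] at h2
    calc (H : ℝ)⁻¹ * ∑ a ∈ Finset.range H, av H d (fun t => Q ((p * a) :: t.map fun a => p * a))
        ≤ (H : ℝ)⁻¹ * ((p : ℝ) ^ d *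
            ∑ a ∈ Finset.range (p * H), av (p * H) d (fun t => Q (a :: t))) :=
          mul_le_mul_of_nonneg_left (h1.trans h2) (ava_inv_nonneg H)
      _ = (p : ℝ) ^ (d + 1) * (((p * H : ℕ) : ℝ)⁻¹ *
            ∑ a ∈ Finset.range (p * H), av (p * H) d (fun t => Q (a :: t))) := by
          rw [pow_succ, Nat.cast_mul, mul_inv]
          field_simp

private theorem ava_smul (H d : ℕ) (c : ℝ) (Q : List ℕ → ℂ) :
    av H d (fun t => c • Q t) = c • av H d Q := by
  induction d generalizing Q with
  | zero => rfl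
  | succ d ih =>
    rw [ava_succ, ava_succ]
    have h1 : ∑ a ∈ Finset.range H, av H d (fun t => c • Q (a :: t)) =
        c • ∑ a ∈ Finset.range H, av H d (fun t => Q (a :: t)) := by
      rw [Finset.smul_sum]
      exact Finset.sum_congr rfl fun a _ => ih _
    rw [h1, smul_comm]

private theorem ava_sum {ι : Type*} (s : Finset ι) (H d : ℕ) (Q : ι → List ℕ → ℂ) :
    ∑ i ∈ s, av H d (Q i) = av H d (fun t => ∑ i ∈ s, Q i t) := by
  induction d generalizing Q with
  | zero => rfl
  | succ d ih =>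
    rw [ava_succ]
    simp only [ava_succ]
    rw [← Finset.smul_sum, Finset.sum_comm]
    congr 1
    exact Finset.sum_congr rfl fun a _ => ih _

private theorem ava_split {M : Type*} [AddCommMonoid M] (p H : ℕ) (hp : 1 ≤ p) (F : ℕ → M) :
    ∑ a ∈ Finset.range (p * H), F a =
      ∑ r ∈ Finset.range p, ∑ h ∈ Finset.range H, F (r + p * h) := by
  rw [← Finset.sum_product']
  symm
  refine Finset.sum_nbij' (fun x => x.1 + p * x.2) (fun a => (a % p, a / p)) ?_ ?_ ?_ ?_ ?_
  · rintro ⟨r, h⟩ hx
    simp only [Finset.mem_product, Finset.mem_range] at hx ⊢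
    calc r + p * h < p + p * h := by omega
      _ = p * (h + 1) := by ring
      _ ≤ p * H := Nat.mul_le_mul_left _ (by omega)
  · intro a ha
    simp only [Finset.mem_product, Finset.mem_range] at ha ⊢
    refine ⟨Nat.mod_lt _ hp, ?_⟩
    exact Nat.div_lt_of_lt_mul ha
  · rintro ⟨r, h⟩ hx
    simp only [Finset.mem_product, Finset.mem_range] at hx
    have h1 : (r + p * h) % p = r := by
      rw [Nat.add_mul_mod_self_left]
      exact Nat.mod_eq_of_lt hx.1
    have h2 : (r + p * h) / p = h := by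
      rw [Nat.add_mul_div_left _ _ (by omega), Nat.div_eq_of_lt hx.1, zero_add]
    simp only [h1, h2]
  · intro a _
    simp only
    exact Nat.mod_add_div a p
  · rintro ⟨r, h⟩ _
    rfl

/-- splitting into residues -/
theorem av_mx {p H : ℕ} (hp : 1 ≤ p) (d : ℕ) (Q : List ℕ → ℂ) :
    av (p * H) d Q = av p d (fun r => av H d (fun h => Q (mx p r h))) := by
  induction d generalizing Q with
  | zero => rfl
  | succ d ih =>
    rw [ava_succ, ava_split p H hp]
    rw [ava_succ]
    have h1 : ∀ r : ℕ, av p d (fun t => av H (d + 1) (fun h => Q (mx p (r :: t) h))) =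
        (H : ℝ)⁻¹ • ∑ h ∈ Finset.range H, av (p * H) d (fun t => Q ((r + p * h) :: t)) := by
      intro r
      have h2 : (fun t => av H (d + 1) (fun h => Q (mx p (r :: t) h))) =
          fun t => (H : ℝ)⁻¹ • ∑ h ∈ Finset.range H,
            av H d (fun s => Q ((r + p * h) :: mx p t s)) := by
        funext t
        rw [ava_succ]
        rfl
      rw [h2, ava_smul, ← ava_sum]
      congr 1
      exact Finset.sum_congr rfl fun h _ => (ih fun t => Q ((r + p * h) :: t)).symm
    simp only [h1]
    rw [← Finset.smul_sum, smul_smul, Nat.cast_mul, mul_inv]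

theorem av_eq_sm {H : ℕ} (d : ℕ) (Q : List ℕ → ℝ) :
    av H d Q = ((H : ℝ) ^ d)⁻¹ * sm H d Q := by
  induction d generalizing Q with
  | zero => simp [av, sm]
  | succ d ih =>
    rw [ava_succ', ava_sm_succ]
    simp only [ih]
    rw [← Finset.mul_sum, ← mul_assoc, pow_succ, mul_inv, mul_comm (H : ℝ)⁻¹]

theorem sm_mono (M d : ℕ) {Q Q' : List ℕ → ℝ} (h : ∀ t, t.length = d → Q t ≤ Q' t) :
    sm M d Q ≤ sm M d Q' := by
  induction d generalizing Q Q' with
  | zero => exact h [] rfl
  | succ d ih =>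
    rw [ava_sm_succ, ava_sm_succ]
    exact Finset.sum_le_sum fun a _ => ih fun t ht => h (a :: t) (by simp [ht])

private theorem ava_sm_nonneg (M d : ℕ) {Q : List ℕ → ℝ} (h : ∀ t, 0 ≤ Q t) :
    0 ≤ sm M d Q := by
  induction d generalizing Q with
  | zero => exact h []
  | succ d ih =>
    rw [ava_sm_succ]
    exact Finset.sum_nonneg fun a _ => ih fun t => h (a :: t)

/-- Cauchy-Schwarz -/
theorem sm_mul_le (M d : ℕ) (Q Q' : List ℕ → ℝ) :
    (sm M d (fun t => Q t * Q' t)) ^ 2 ≤ sm M d (fun t => Q t ^ 2) * sm M d (fun t => Q' t ^ 2) := by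
  induction d generalizing Q Q' with
  | zero =>
    change (Q [] * Q' []) ^ 2 ≤ Q [] ^ 2 * Q' [] ^ 2
    exact le_of_eq (by ring)
  | succ d ih =>
    rw [ava_sm_succ, ava_sm_succ, ava_sm_succ]
    refine Finset.sum_sq_le_sum_mul_sum_of_sq_le_mul _ ?_ ?_ ?_
    · intro a _
      exact ava_sm_nonneg M d fun t => sq_nonneg _
    · intro a _
      exact ava_sm_nonneg M d fun t => sq_nonneg _
    · intro a _
      exact ih _ _

end FHE
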