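import Pool.Agent.FHE.AVA

/-! AVB (~120 lines): the box averages `avb`. Induction. For one coordinate:
`∑_{a,b<H} u (df (a, b)) ≤ 2 H ∑_{h<H} u h` and `∑_{a,b<2H} u (df (a, b)) ≥ H ∑_{h<H} u h`
(the pairs `(b + h, b)`, `b < H`), for `u ≥ 0`. -/

open MeasureTheory Filter Topology
open scoped ComplexConjugate

namespace FHE

private theorem avb_cons (H : ℕ) (Hs : List ℕ) (Q : List (ℕ × ℕ) → ℝ) :
    avb (H :: Hs) Q = ((H : ℝ)⁻¹) ^ 2 *
      ∑ a ∈ Finset.range H, ∑ b ∈ Finset.range H, avb Hs (fun t => Q ((a, b) :: t)) := rfl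

private theorem avb_inv_nonneg (H : ℕ) : (0 : ℝ) ≤ ((H : ℝ)⁻¹) ^ 2 := by positivity

theorem avb_mono (Hs : List ℕ) {Q Q' : List (ℕ × ℕ) → ℝ}
    (h : ∀ c, List.Forall₂ (fun (x : ℕ × ℕ) (H : ℕ) => x.1 < H ∧ x.2 < H) c Hs → Q c ≤ Q' c) :
    avb Hs Q ≤ avb Hs Q' := by
  induction Hs generalizing Q Q' with
  | nil => exact h [] List.Forall₂.nil
  | cons H Hs ih =>
    rw [avb_cons, avb_cons]
    refine mul_le_mul_of_nonneg_left ?_ (avb_inv_nonneg H)
    refine Finset.sum_le_sum fun a ha => Finset.sum_le_sum fun b hb => ih fun c hc => ?_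
    exact h ((a, b) :: c)
      (List.Forall₂.cons ⟨Finset.mem_range.1 ha, Finset.mem_range.1 hb⟩ hc)

theorem avb_congr (Hs : List ℕ) {Q Q' : List (ℕ × ℕ) → ℝ}
    (h : ∀ c, c.length = Hs.length → Q c = Q' c) : avb Hs Q = avb Hs Q' := by
  induction Hs generalizing Q Q' with
  | nil => exact h [] rfl
  | cons H Hs ih =>
    rw [avb_cons, avb_cons]
    congr 1
    refine Finset.sum_congr rfl fun a _ => Finset.sum_congr rfl fun b _ => ih fun c hc => ?_
    exact h ((a, b) :: c) (by simp [hc])

theorem avb_nonneg (Hs : List ℕ) {Q : List (ℕ × ℕ) → ℝ}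
    (h : ∀ c, c.length = Hs.length → 0 ≤ Q c) : 0 ≤ avb Hs Q := by
  induction Hs generalizing Q with
  | nil => exact h [] rfl
  | cons H Hs ih =>
    rw [avb_cons]
    refine mul_nonneg (avb_inv_nonneg H) ?_
    refine Finset.sum_nonneg fun a _ => Finset.sum_nonneg fun b _ => ih fun c hc => ?_
    exact h ((a, b) :: c) (by simp [hc])

theorem avb_add (Hs : List ℕ) (Q Q' : List (ℕ × ℕ) → ℝ) :
    avb Hs (fun c => Q c + Q' c) = avb Hs Q + avb Hs Q' := by
  induction Hs generalizing Q Q' with
  | nil => rfl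
  | cons H Hs ih =>
    rw [avb_cons, avb_cons, avb_cons, ← mul_add, ← Finset.sum_add_distrib]
    congr 1
    refine Finset.sum_congr rfl fun a _ => ?_
    rw [← Finset.sum_add_distrib]
    exact Finset.sum_congr rfl fun b _ => ih _ _

theorem avb_mul_left (Hs : List ℕ) (k : ℝ) (Q : List (ℕ × ℕ) → ℝ) :
    avb Hs (fun c => k * Q c) = k * avb Hs Q := by
  induction Hs generalizing Q with
  | nil => rfl
  | cons H Hs ih =>
    rw [avb_cons, avb_cons]
    have h1 : ∑ a ∈ Finset.range H, ∑ b ∈ Finset.range H, avb Hs (fun c => k * Q ((a, b) :: c)) =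
        k * ∑ a ∈ Finset.range H, ∑ b ∈ Finset.range H, avb Hs (fun c => Q ((a, b) :: c)) := by
      rw [Finset.mul_sum]
      refine Finset.sum_congr rfl fun a _ => ?_
      rw [Finset.mul_sum]
      exact Finset.sum_congr rfl fun b _ => ih _
    rw [h1]
    ring

private theorem avb_const_le {H : ℕ} (hH : 1 ≤ H) (c : ℝ) :
    ((H : ℝ)⁻¹) ^ 2 * ∑ _a ∈ Finset.range H, ∑ _b ∈ Finset.range H, c = c := by
  have h0 : (0 : ℝ) < (H : ℝ) := by exact_mod_cast hH
  rw [Finset.sum_const, Finset.sum_const, Finset.card_range, nsmul_eq_mul, nsmul_eq_mul]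
  field_simp

theorem avb_const (Hs : List ℕ) (hHs : ∀ H ∈ Hs, 1 ≤ H) (k : ℝ) : avb Hs (fun _ => k) = k := by
  induction Hs with
  | nil => rfl
  | cons H Hs ih =>
    rw [avb_cons, ih fun H' hH' => hHs H' (List.mem_cons_of_mem _ hH')]
    exact avb_const_le (hHs H List.mem_cons_self) k

theorem avb_pow (Hs : List ℕ) (hHs : ∀ H ∈ Hs, 1 ≤ H) (n : ℕ) {Q : List (ℕ × ℕ) → ℝ}
    (h : ∀ c, 0 ≤ Q c) : avb Hs Q ^ n ≤ avb Hs (fun c => Q c ^ n) := by
  induction Hs generalizing Q with
  | nil => exact le_rfl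
  | cons H Hs ih =>
    have hH : 1 ≤ H := hHs H List.mem_cons_self
    have h0 : (0 : ℝ) < (H : ℝ) := by exact_mod_cast hH
    have hHs' : ∀ H' ∈ Hs, 1 ≤ H' := fun H' hH' => hHs H' (List.mem_cons_of_mem _ hH')
    rw [avb_cons, avb_cons, ← Finset.sum_product', ← Finset.sum_product']
    have hw : ∑ _x ∈ Finset.range H ×ˢ Finset.range H, ((H : ℝ)⁻¹) ^ 2 = 1 := by
      rw [Finset.sum_const, Finset.card_product, Finset.card_range, nsmul_eq_mul, Nat.cast_mul]
      field_simp
    have h1 := Real.pow_arith_mean_le_arith_mean_pow (Finset.range H ×ˢ Finset.range H)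
      (fun _ => ((H : ℝ)⁻¹) ^ 2)
      (fun a : ℕ × ℕ => avb Hs (fun t => Q ((a.1, a.2) :: t))) (fun _ _ => avb_inv_nonneg H)
      hw (fun a _ => avb_nonneg Hs fun t _ => h (a :: t)) n
    rw [Finset.mul_sum]
    refine h1.trans ?_
    rw [Finset.mul_sum]
    exact Finset.sum_le_sum fun a _ =>
      mul_le_mul_of_nonneg_left (ih hHs' fun t => h (a :: t)) (avb_inv_nonneg H)

theorem avb_sum {ι : Type*} (s : Finset ι) (Hs : List ℕ) (Q : ι → List (ℕ × ℕ) → ℝ) :
    ∑ i ∈ s, avb Hs (Q i) = avb Hs (fun c => ∑ i ∈ s, Q i c) := by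
  induction Hs generalizing Q with
  | nil => rfl
  | cons H Hs ih =>
    rw [avb_cons]
    simp only [avb_cons]
    rw [← Finset.mul_sum, Finset.sum_comm]
    congr 1
    refine Finset.sum_congr rfl fun a _ => ?_
    rw [Finset.sum_comm]
    exact Finset.sum_congr rfl fun b _ => ih _

theorem avb_le_range {H H' : ℕ} (hH : 1 ≤ H) (hHH : H ≤ H') (d : ℕ) {Q : List (ℕ × ℕ) → ℝ}
    (h : ∀ c, 0 ≤ Q c) :
    avb (List.replicate d H) Q ≤ ((H' : ℝ) / H) ^ (2 * d) * avb (List.replicate d H') Q := by
  induction d generalizing Q with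
  | zero => simp [avb]
  | succ d ih =>
    rw [List.replicate_succ, List.replicate_succ, avb_cons, avb_cons, ← Finset.sum_product',
      ← Finset.sum_product']
    have h0 : (0 : ℝ) < (H : ℝ) := by exact_mod_cast hH
    have h0' : (0 : ℝ) < (H' : ℝ) := by exact_mod_cast (hH.trans hHH)
    have h1 : ∑ x ∈ Finset.range H ×ˢ Finset.range H,
        avb (List.replicate d H) (fun t => Q ((x.1, x.2) :: t)) ≤
        ∑ x ∈ Finset.range H ×ˢ Finset.range H, ((H' : ℝ) / H) ^ (2 * d) *
          avb (List.replicate d H') (fun t => Q ((x.1, x.2) :: t)) :=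
      Finset.sum_le_sum fun a _ => ih fun t => h (a :: t)
    have h2 : ∑ x ∈ Finset.range H ×ˢ Finset.range H, ((H' : ℝ) / H) ^ (2 * d) *
          avb (List.replicate d H') (fun t => Q ((x.1, x.2) :: t)) ≤
        ∑ x ∈ Finset.range H' ×ˢ Finset.range H', ((H' : ℝ) / H) ^ (2 * d) *
          avb (List.replicate d H') (fun t => Q ((x.1, x.2) :: t)) := by
      refine Finset.sum_le_sum_of_subset_of_nonneg
        (Finset.product_subset_product (Finset.range_mono hHH) (Finset.range_mono hHH)) ?_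
      intro a _ _
      exact mul_nonneg (by positivity) (avb_nonneg _ fun t _ => h (a :: t))
    rw [← Finset.mul_sum (Finset.range H' ×ˢ Finset.range H')] at h2
    refine (mul_le_mul_of_nonneg_left (h1.trans h2) (avb_inv_nonneg H)).trans (le_of_eq ?_)
    have h3 : ((H' : ℝ) / H) ^ (2 * (d + 1)) = ((H' : ℝ) / H) ^ (2 * d) * ((H' : ℝ) / H) ^ 2 := by
      rw [← pow_add]
      congr 1
    rw [h3]
    field_simp

private theorem avb_df_one {H : ℕ} (u : ℕ → ℝ) (hu : ∀ h, 0 ≤ u h) :
    ∑ a ∈ Finset.range H, ∑ b ∈ Finset.range H, u (df (a, b)) ≤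
      2 * H * ∑ h ∈ Finset.range H, u h := by
  have h1 : ∀ a ∈ Finset.range H, ∑ b ∈ Finset.range H, u (df (a, b)) ≤
      2 * ∑ h ∈ Finset.range H, u h := by
    intro a ha
    rw [Finset.mem_range] at ha
    have h2 : ∑ b ∈ Finset.range H, u (df (a, b)) ≤
        ∑ b ∈ Finset.range H, ((if b ≤ a then u (a - b) else 0) +
          (if a ≤ b then u (b - a) else 0)) := by
      refine Finset.sum_le_sum fun b _ => ?_
      rcases le_total b a with hab | hab
      · have e : df (a, b) = a - b := by simp [df, Nat.sub_eq_zero_of_le hab]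
        rw [e, if_pos hab]
        have : (0 : ℝ) ≤ if a ≤ b then u (b - a) else 0 := by
          split_ifs
          · exact hu _
          · exact le_rfl
        linarith
      · have e : df (a, b) = b - a := by simp [df, Nat.sub_eq_zero_of_le hab]
        rw [e, if_pos hab]
        have : (0 : ℝ) ≤ if b ≤ a then u (a - b) else 0 := by
          split_ifs
          · exact hu _
          · exact le_rfl
        linarith
    rw [Finset.sum_add_distrib, ← Finset.sum_filter, ← Finset.sum_filter] at h2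
    have h3 : ∑ b ∈ (Finset.range H).filter (fun b => b ≤ a), u (a - b) ≤
        ∑ h ∈ Finset.range H, u h := by
      have e : ∑ b ∈ (Finset.range H).filter (fun b => b ≤ a), u (a - b) =
          ∑ h ∈ ((Finset.range H).filter (fun b => b ≤ a)).image (fun b => a - b), u h := by
        rw [Finset.sum_image]
        intro x hx y hy hxy
        simp only [Finset.coe_filter, Finset.mem_range, Set.mem_ofPred_eq] at hx hy
        simp only at hxy
        omega
      rw [e]
      refine Finset.sum_le_sum_of_subset_of_nonneg ?_ fun x _ _ => hu x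
      intro h hh
      obtain ⟨b, hb, rfl⟩ := Finset.mem_image.1 hh
      simp only [Finset.mem_filter, Finset.mem_range] at hb ⊢
      omega
    have h4 : ∑ b ∈ (Finset.range H).filter (fun b => a ≤ b), u (b - a) ≤
        ∑ h ∈ Finset.range H, u h := by
      have e : ∑ b ∈ (Finset.range H).filter (fun b => a ≤ b), u (b - a) =
          ∑ h ∈ ((Finset.range H).filter (fun b => a ≤ b)).image (fun b => b - a), u h := by
        rw [Finset.sum_image]
        intro x hx y hy hxy
        simp only [Finset.coe_filter, Finset.mem_range, Set.mem_ofPred_eq] at hx hy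
        simp only at hxy
        omega
      rw [e]
      refine Finset.sum_le_sum_of_subset_of_nonneg ?_ fun x _ _ => hu x
      intro h hh
      obtain ⟨b, hb, rfl⟩ := Finset.mem_image.1 hh
      simp only [Finset.mem_filter, Finset.mem_range] at hb ⊢
      omega
    linarith
  refine (Finset.sum_le_sum h1).trans (le_of_eq ?_)
  rw [Finset.sum_const, Finset.card_range, nsmul_eq_mul]
  ring

private theorem avb_df_two {H : ℕ} (u : ℕ → ℝ) (hu : ∀ h, 0 ≤ u h) :
    H * ∑ h ∈ Finset.range H, u h ≤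
      ∑ a ∈ Finset.range (2 * H), ∑ b ∈ Finset.range (2 * H), u (df (a, b)) := by
  rw [Finset.sum_comm]
  have h1 : ∀ b ∈ Finset.range H, ∑ h ∈ Finset.range H, u h ≤
      ∑ a ∈ Finset.range (2 * H), u (df (a, b)) := by
    intro b hb
    rw [Finset.mem_range] at hb
    have e : ∑ h ∈ Finset.range H, u h =
        ∑ a ∈ (Finset.range H).image (fun h => b + h), u (df (a, b)) := by
      rw [Finset.sum_image]
      · refine Finset.sum_congr rfl fun h _ => ?_
        have : df (b + h, b) = h := by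
          simp [df]
        rw [this]
      · intro x _ y _ hxy
        simp only at hxy
        omega
    rw [e]
    refine Finset.sum_le_sum_of_subset_of_nonneg ?_ fun x _ _ => hu _
    intro a ha
    obtain ⟨h, hh, rfl⟩ := Finset.mem_image.1 ha
    rw [Finset.mem_range] at hh ⊢
    omega
  have h2 : ∑ b ∈ Finset.range H, ∑ a ∈ Finset.range (2 * H), u (df (a, b)) ≤
      ∑ b ∈ Finset.range (2 * H), ∑ a ∈ Finset.range (2 * H), u (df (a, b)) :=
    Finset.sum_le_sum_of_subset_of_nonneg (Finset.range_mono (by omega))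
      fun b _ _ => Finset.sum_nonneg fun a _ => hu _
  refine le_trans (le_of_eq ?_) ((Finset.sum_le_sum h1).trans h2)
  rw [Finset.sum_const, Finset.card_range, nsmul_eq_mul]

theorem avb_df_le {H : ℕ} (hH : 1 ≤ H) (d : ℕ) {Q : List ℕ → ℝ} (h : ∀ t, 0 ≤ Q t) :
    avb (List.replicate d H) (fun c => Q (c.map df)) ≤ 2 ^ d * av H d Q := by
  induction d generalizing Q with
  | zero => simp [avb, av]
  | succ d ih =>
    have h0 : (0 : ℝ) < (H : ℝ) := by exact_mod_cast hH
    rw [List.replicate_succ, avb_cons]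
    simp only [List.map_cons]
    have h1 : ∑ a ∈ Finset.range H, ∑ b ∈ Finset.range H,
        avb (List.replicate d H) (fun c => Q (df (a, b) :: c.map df)) ≤
        ∑ a ∈ Finset.range H, ∑ b ∈ Finset.range H,
          2 ^ d * av H d (fun t => Q (df (a, b) :: t)) :=
      Finset.sum_le_sum fun a _ => Finset.sum_le_sum fun b _ =>
        ih (Q := fun t => Q (df (a, b) :: t)) fun t => h _
    have h2 := avb_df_one (H := H) (fun k => 2 ^ d * av H d (fun t => Q (k :: t)))
      (fun k => mul_nonneg (by positivity) (av_nonneg H d fun t _ => h _))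
    refine (mul_le_mul_of_nonneg_left (h1.trans h2) (avb_inv_nonneg H)).trans (le_of_eq ?_)
    rw [← Finset.mul_sum]
    have h3 : av H (d + 1) Q = (H : ℝ)⁻¹ * ∑ a ∈ Finset.range H, av H d (fun t => Q (a :: t)) :=
      rfl
    rw [h3]
    generalize ∑ a ∈ Finset.range H, av H d (fun t => Q (a :: t)) = S
    field_simp
    ring

theorem av_le_avb_df {H : ℕ} (hH : 1 ≤ H) (d : ℕ) {Q : List ℕ → ℝ} (h : ∀ t, 0 ≤ Q t) :
    av H d Q ≤ 4 ^ d * avb (List.replicate d (2 * H)) (fun c => Q (c.map df)) := by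
  induction d generalizing Q with
  | zero => simp [avb, av]
  | succ d ih =>
    have h0 : (0 : ℝ) < (H : ℝ) := by exact_mod_cast hH
    rw [List.replicate_succ, avb_cons]
    simp only [List.map_cons]
    have h1 : ∑ a ∈ Finset.range (2 * H), ∑ b ∈ Finset.range (2 * H),
        av H d (fun t => Q (df (a, b) :: t)) ≤
        ∑ a ∈ Finset.range (2 * H), ∑ b ∈ Finset.range (2 * H),
        4 ^ d * avb (List.replicate d (2 * H)) (fun c => Q (df (a, b) :: c.map df)) :=
      Finset.sum_le_sum fun a _ => Finset.sum_le_sum fun b _ =>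
        ih (Q := fun t => Q (df (a, b) :: t)) fun t => h _
    have h2 := avb_df_two (H := H) (fun k => av H d (fun t => Q (k :: t)))
      (fun k => av_nonneg H d fun t _ => h _)
    simp only [← Finset.mul_sum] at h1
    have h3 : av H (d + 1) Q = (H : ℝ)⁻¹ * ∑ a ∈ Finset.range H, av H d (fun t => Q (a :: t)) :=
      rfl
    rw [h3]
    have h4 := h2.trans h1
    have h5 := mul_le_mul_of_nonneg_left h4 (avb_inv_nonneg H)
    refine le_trans (le_of_eq ?_) (h5.trans (le_of_eq ?_))
    · field_simp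
    · push_cast
      generalize ∑ a ∈ Finset.range (2 * H), ∑ b ∈ Finset.range (2 * H),
        avb (List.replicate d (2 * H)) (fun c => Q (df (a, b) :: c.map df)) = S
      field_simp
      ring

end FHE
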