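import Pool.Agent.FHE.Defs

/-! AZA (~80 lines): Azuma's inequality in exponential form. Induction on `n`: by convexity, for
`|y| ≤ 2`, `exp (l y) ≤ cosh (2 l) + (y / 2) sinh (2 l)` (`y` is a convex combination of `±2`), and
`cosh (2 l) ≤ exp (2 l²)` (`Real.cosh_le_exp_half_sq`). Multiply by `exp (l ∑_{i<n} N_i)`, integrate and use
the hypothesis. -/

open MeasureTheory Filter Topology
open scoped ComplexConjugate

namespace FHE

private theorem aza_pt (l y : ℝ) (hy : |y| ≤ 2) :
    Real.exp (l * y) ≤ Real.cosh (2 * l) + y / 2 * Real.sinh (2 * l) := by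
  obtain ⟨h1, h2⟩ := abs_le.mp hy
  have hc := convexOn_exp.2 (Set.mem_univ (2 * l)) (Set.mem_univ (-(2 * l)))
    (show 0 ≤ (2 + y) / 4 by linarith) (show 0 ≤ (2 - y) / 4 by linarith) (by ring)
  simp only [smul_eq_mul] at hc
  have e1 : (2 + y) / 4 * (2 * l) + (2 - y) / 4 * -(2 * l) = l * y := by ring
  rw [e1] at hc
  refine hc.trans (le_of_eq ?_)
  rw [Real.cosh_eq, Real.sinh_eq]
  ring

theorem azuma {X : Type*} [MeasurableSpace X] {ρ : Measure X} [IsProbabilityMeasure ρ]
    {N : ℕ → X → ℝ} (hm : ∀ j, Measurable (N j)) (hb : ∀ j ω, |N j ω| ≤ 2) (l : ℝ)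
    (h : ∀ j, ∫ ω, Real.exp (l * ∑ i ∈ Finset.range j, N i ω) * N j ω ∂ρ = 0) (n : ℕ) :
    ∫ ω, Real.exp (l * ∑ i ∈ Finset.range n, N i ω) ∂ρ ≤ Real.exp (2 * l ^ 2 * n) := by
  have hmS : ∀ j, Measurable (fun ω => Real.exp (l * ∑ i ∈ Finset.range j, N i ω)) := fun j =>
    Real.measurable_exp.comp (measurable_const.mul (Finset.measurable_sum _ (fun i _ => hm i)))
  have hbd : ∀ j ω, Real.exp (l * ∑ i ∈ Finset.range j, N i ω) ≤ Real.exp (|l| * (2 * j)) := by
    intro j ω
    apply Real.exp_le_exp.mpr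
    have h1 : |∑ i ∈ Finset.range j, N i ω| ≤ 2 * j := by
      refine (Finset.abs_sum_le_sum_abs _ _).trans ((Finset.sum_le_sum (fun i _ => hb i ω)).trans ?_)
      rw [Finset.sum_const, Finset.card_range, nsmul_eq_mul, mul_comm]
    calc l * ∑ i ∈ Finset.range j, N i ω ≤ |l * ∑ i ∈ Finset.range j, N i ω| := le_abs_self _
      _ = |l| * |∑ i ∈ Finset.range j, N i ω| := abs_mul _ _
      _ ≤ |l| * (2 * j) := mul_le_mul_of_nonneg_left h1 (abs_nonneg _)
  have hi : ∀ j, Integrable (fun ω => Real.exp (l * ∑ i ∈ Finset.range j, N i ω)) ρ := fun j =>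
    Integrable.of_bound (hmS j).aestronglyMeasurable (Real.exp (|l| * (2 * j)))
      (Eventually.of_forall (fun ω => by
        rw [Real.norm_eq_abs, abs_of_pos (Real.exp_pos _)]; exact hbd j ω))
  have hi2 : ∀ j, Integrable (fun ω => Real.exp (l * ∑ i ∈ Finset.range j, N i ω) * N j ω) ρ :=
    fun j => Integrable.of_bound ((hmS j).mul (hm j)).aestronglyMeasurable
      (Real.exp (|l| * (2 * j)) * 2) (Eventually.of_forall (fun ω => by
        rw [norm_mul, Real.norm_eq_abs, Real.norm_eq_abs, abs_of_pos (Real.exp_pos _)]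
        exact mul_le_mul (hbd j ω) (hb j ω) (abs_nonneg _) (Real.exp_pos _).le))
  induction n with
  | zero => simp
  | succ n ih =>
    have h1 : ∀ ω, Real.exp (l * ∑ i ∈ Finset.range (n + 1), N i ω) ≤
        Real.cosh (2 * l) * Real.exp (l * ∑ i ∈ Finset.range n, N i ω) +
        Real.sinh (2 * l) / 2 * (Real.exp (l * ∑ i ∈ Finset.range n, N i ω) * N n ω) := by
      intro ω
      rw [Finset.sum_range_succ, mul_add, Real.exp_add]
      have h2 := aza_pt l (N n ω) (hb n ω)
      have h3 := Real.exp_pos (l * ∑ i ∈ Finset.range n, N i ω)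
      have h4 := mul_le_mul_of_nonneg_left h2 h3.le
      refine h4.trans (le_of_eq ?_)
      ring
    calc ∫ ω, Real.exp (l * ∑ i ∈ Finset.range (n + 1), N i ω) ∂ρ
        ≤ ∫ ω, (Real.cosh (2 * l) * Real.exp (l * ∑ i ∈ Finset.range n, N i ω) +
          Real.sinh (2 * l) / 2 * (Real.exp (l * ∑ i ∈ Finset.range n, N i ω) * N n ω)) ∂ρ :=
          integral_mono (hi (n + 1)) (((hi n).const_mul _).add ((hi2 n).const_mul _)) h1
      _ = Real.cosh (2 * l) * ∫ ω, Real.exp (l * ∑ i ∈ Finset.range n, N i ω) ∂ρ := by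
          rw [integral_add ((hi n).const_mul _) ((hi2 n).const_mul _), integral_const_mul,
            integral_const_mul, h n, mul_zero, add_zero]
      _ ≤ Real.exp ((2 * l) ^ 2 / 2) * Real.exp (2 * l ^ 2 * n) :=
          mul_le_mul (Real.cosh_le_exp_half_sq _) ih
            (integral_nonneg (fun ω => (Real.exp_pos _).le)) (Real.exp_pos _).le
      _ = Real.exp (2 * l ^ 2 * ((n + 1 : ℕ) : ℝ)) := by
          rw [← Real.exp_add]
          congr 1
          push_cast
          ring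

end FHE
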