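import Pool.Agent.FHE.AZA

/-! AZB (~120 lines): Azuma and a union bound over few patterns. `M j` plays the role of martingale
differences, `F j` of bounded functions which follow, at each point, one of the patterns `c z`.
Choose `u` of modulus one with `u * ∫ ∑ M_j F_j = ‖∫ ..‖`, `V := re (u ∑_j M_j F_j)`,
`W z := re (u ∑_j M_j c z j) = ∑ N_j`, `N_j := re (u c z j M_j)`, `|N_j| ≤ 2`. By `horth` (for the function
`exp (l W)` of the past) and `azuma`, `∫ exp (l W z) ≤ exp (2 l² n)`. At each `ω` some `z` has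
`V ≤ W z + 2 n ε`, so `exp (l (V - 2 n ε)) ≤ ∑_z exp (l W z)`; Jensen (`exp` convex,
`ConvexOn.map_integral_le`): `l (∫ V - 2 n ε) ≤ log (card Z) + 2 l² n ≤ l² n + 2 l² n`. -/

open MeasureTheory Filter Topology
open scoped ComplexConjugate

namespace FHE

theorem azb {X : Type*} [MeasurableSpace X] {ρ : Measure X} [IsProbabilityMeasure ρ]
    {M F : ℕ → X → ℂ} (hM : ∀ j, Measurable (M j)) (hM2 : ∀ j ω, ‖M j ω‖ ≤ 2)
    (hF : ∀ j, Bd (F j)) {n : ℕ} (hn : 1 ≤ n) {ι : Type*} (Z : Finset ι) (c : ι → ℕ → ℂ)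
    (hc : ∀ z ∈ Z, ∀ j, ‖c z j‖ ≤ 1) {l ε : ℝ} (hl : 0 < l) (hε : 0 ≤ ε)
    (hZ : (Z.card : ℝ) ≤ Real.exp (l ^ 2 * n))
    (hcov : ∀ ω, ∃ z ∈ Z, ∀ j < n, ‖F j ω - c z j‖ ≤ ε)
    (horth : ∀ j, ∀ w : ℕ → ℂ, ∫ ω, (Real.exp (∑ i ∈ Finset.range j, (w i * M i ω).re) : ℂ) *
      M j ω ∂ρ = 0) :
    ‖∫ ω, ∑ j ∈ Finset.range n, M j ω * F j ω ∂ρ‖ ≤ (3 * l + 2 * ε) * n := by
  classical
  set I := ∫ ω, ∑ j ∈ Finset.range n, M j ω * F j ω ∂ρ with hI
  obtain ⟨u, hu1, huI⟩ : ∃ u : ℂ, ‖u‖ = 1 ∧ u * I = (‖I‖ : ℂ) := by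
    by_cases h0 : I = 0
    · exact ⟨1, by simp, by simp [h0]⟩
    · refine ⟨conj I / ‖I‖, ?_, ?_⟩
      · rw [norm_div, RCLike.norm_conj, Complex.norm_real, norm_norm]
        exact div_self (norm_ne_zero_iff.mpr h0)
      · have h1 : (‖I‖ : ℂ) ≠ 0 := by exact_mod_cast norm_ne_zero_iff.mpr h0
        rw [div_mul_eq_mul_div, div_eq_iff h1, ← Complex.normSq_eq_conj_mul_self,
          Complex.normSq_eq_norm_sq]
        push_cast
        ring
  have hSm : Measurable (fun ω => ∑ j ∈ Finset.range n, M j ω * F j ω) :=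
    Finset.measurable_sum _ (fun j _ => (hM j).mul (hF j).1)
  have hSb : ∀ ω, ‖∑ j ∈ Finset.range n, M j ω * F j ω‖ ≤ 2 * n := by
    intro ω
    refine (norm_sum_le _ _).trans ?_
    have : ∀ j ∈ Finset.range n, ‖M j ω * F j ω‖ ≤ 2 := by
      intro j _
      rw [norm_mul]
      have h1 := hM2 j ω
      have h2 := (hF j).2 ω
      nlinarith [norm_nonneg (M j ω), norm_nonneg (F j ω)]
    refine (Finset.sum_le_sum this).trans ?_
    rw [Finset.sum_const, Finset.card_range, nsmul_eq_mul, mul_comm]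
  have hSi : Integrable (fun ω => ∑ j ∈ Finset.range n, M j ω * F j ω) ρ :=
    Integrable.of_bound hSm.aestronglyMeasurable (2 * n) (Eventually.of_forall hSb)
  set V : X → ℝ := fun ω => (u * ∑ j ∈ Finset.range n, M j ω * F j ω).re with hV
  have hVm : Measurable V := Complex.measurable_re.comp (measurable_const.mul hSm)
  have hVb : ∀ ω, |V ω| ≤ 2 * n := by
    intro ω
    refine (Complex.abs_re_le_norm _).trans ?_
    rw [norm_mul, hu1, one_mul]
    exact hSb ω
  have hVi : Integrable V ρ :=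
    Integrable.of_bound hVm.aestronglyMeasurable (2 * n) (Eventually.of_forall (fun ω => by
      rw [Real.norm_eq_abs]; exact hVb ω))
  have hVint : ∫ ω, V ω ∂ρ = ‖I‖ := by
    have h1 : ∫ ω, V ω ∂ρ = (∫ ω, u * ∑ j ∈ Finset.range n, M j ω * F j ω ∂ρ).re := by
      exact integral_re (hSi.const_mul u)
    rw [h1, integral_const_mul, ← hI, huI, Complex.ofReal_re]
  set N : ι → ℕ → X → ℝ := fun z j ω => (u * c z j * M j ω).re with hN
  have hNm : ∀ z j, Measurable (N z j) := fun z j =>
    Complex.measurable_re.comp (measurable_const.mul (hM j))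
  have hNb : ∀ z ∈ Z, ∀ j ω, |N z j ω| ≤ 2 := by
    intro z hz j ω
    refine (Complex.abs_re_le_norm _).trans ?_
    rw [norm_mul, norm_mul, hu1, one_mul]
    have h1 := hM2 j ω
    have h2 := hc z hz j
    nlinarith [norm_nonneg (M j ω), norm_nonneg (c z j)]
  have hWi : ∀ z ∈ Z, ∀ j, Integrable (fun ω => Real.exp (l * ∑ i ∈ Finset.range j, N z i ω)) ρ := by
    intro z hz j
    refine Integrable.of_bound (C := Real.exp (l * (2 * j))) ?_ (Eventually.of_forall (fun ω => ?_))
    · exact (Real.measurable_exp.comp (measurable_const.mul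
        (Finset.measurable_sum _ (fun i _ => hNm z i)))).aestronglyMeasurable
    · rw [Real.norm_eq_abs, abs_of_pos (Real.exp_pos _)]
      apply Real.exp_le_exp.mpr
      apply mul_le_mul_of_nonneg_left _ hl.le
      refine (Finset.sum_le_sum (fun i _ => (le_abs_self _).trans (hNb z hz i ω))).trans ?_
      rw [Finset.sum_const, Finset.card_range, nsmul_eq_mul, mul_comm]
  have hAz : ∀ z ∈ Z, ∫ ω, Real.exp (l * ∑ i ∈ Finset.range n, N z i ω) ∂ρ ≤
      Real.exp (2 * l ^ 2 * n) := by
    intro z hz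
    refine azuma (fun j => hNm z j) (hNb z hz) l (fun j => ?_) n
    have h1 := horth j (fun i => (l : ℂ) * (u * c z i))
    have h2 : ∀ ω, ∑ i ∈ Finset.range j, ((l : ℂ) * (u * c z i) * M i ω).re =
        l * ∑ i ∈ Finset.range j, N z i ω := by
      intro ω
      rw [Finset.mul_sum]
      apply Finset.sum_congr rfl
      intro i _
      simp only [hN]
      rw [mul_assoc, Complex.re_ofReal_mul]
    have h3 : ∀ ω, Real.exp (l * ∑ i ∈ Finset.range j, N z i ω) * N z j ω =
        (u * c z j * ((Real.exp (l * ∑ i ∈ Finset.range j, N z i ω) : ℂ) * M j ω)).re := by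
      intro ω
      simp only [hN]
      rw [mul_left_comm, Complex.re_ofReal_mul]
    simp only [h2] at h1
    have hint : Integrable (fun ω => (Real.exp (l * ∑ i ∈ Finset.range j, N z i ω) : ℂ) * M j ω) ρ := by
      refine Integrable.of_bound (C := Real.exp (l * (2 * j)) * 2) ?_
        (Eventually.of_forall (fun ω => ?_))
      · exact ((Complex.measurable_ofReal.comp (Real.measurable_exp.comp (measurable_const.mul
          (Finset.measurable_sum _ (fun i _ => hNm z i))))).mul (hM j)).aestronglyMeasurable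
      · rw [norm_mul, Complex.norm_real, Real.norm_eq_abs, abs_of_pos (Real.exp_pos _)]
        apply mul_le_mul _ (hM2 j ω) (norm_nonneg _) (Real.exp_pos _).le
        apply Real.exp_le_exp.mpr
        apply mul_le_mul_of_nonneg_left _ hl.le
        refine (Finset.sum_le_sum (fun i _ => (le_abs_self _).trans (hNb z hz i ω))).trans ?_
        rw [Finset.sum_const, Finset.card_range, nsmul_eq_mul, mul_comm]
    calc ∫ ω, Real.exp (l * ∑ i ∈ Finset.range j, N z i ω) * N z j ω ∂ρ
        = ∫ ω, (u * c z j * ((Real.exp (l * ∑ i ∈ Finset.range j, N z i ω) : ℂ) * M j ω)).re ∂ρ := by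
          exact integral_congr_ae (Eventually.of_forall h3)
      _ = (∫ ω, u * c z j * ((Real.exp (l * ∑ i ∈ Finset.range j, N z i ω) : ℂ) * M j ω) ∂ρ).re := by
          exact integral_re (hint.const_mul _)
      _ = 0 := by rw [integral_const_mul, h1, mul_zero, Complex.zero_re]
  have hpt : ∀ ω, Real.exp (l * (V ω - 2 * n * ε)) ≤
      ∑ z ∈ Z, Real.exp (l * ∑ i ∈ Finset.range n, N z i ω) := by
    intro ω
    obtain ⟨z, hz, hz2⟩ := hcov ω
    have h1 : V ω - ∑ i ∈ Finset.range n, N z i ω =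
        (∑ j ∈ Finset.range n, u * M j ω * (F j ω - c z j)).re := by
      simp only [hV, hN]
      rw [← Complex.re_sum, ← Complex.sub_re, Finset.mul_sum, ← Finset.sum_sub_distrib]
      congr 1
      apply Finset.sum_congr rfl
      intro j _
      ring
    have h2 : V ω - ∑ i ∈ Finset.range n, N z i ω ≤ 2 * n * ε := by
      rw [h1]
      refine (Complex.re_le_norm _).trans ((norm_sum_le _ _).trans ?_)
      have h3 : ∀ j ∈ Finset.range n, ‖u * M j ω * (F j ω - c z j)‖ ≤ 2 * ε := by
        intro j hj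
        rw [norm_mul, norm_mul, hu1, one_mul]
        exact mul_le_mul (hM2 j ω) (hz2 j (Finset.mem_range.mp hj)) (norm_nonneg _) (by norm_num)
      refine (Finset.sum_le_sum h3).trans (le_of_eq ?_)
      rw [Finset.sum_const, Finset.card_range, nsmul_eq_mul]
      ring
    calc Real.exp (l * (V ω - 2 * n * ε)) ≤ Real.exp (l * ∑ i ∈ Finset.range n, N z i ω) := by
          apply Real.exp_le_exp.mpr
          apply mul_le_mul_of_nonneg_left _ hl.le
          linarith
      _ ≤ _ := Finset.single_le_sum (f := fun z => Real.exp (l * ∑ i ∈ Finset.range n, N z i ω))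
          (fun z _ => (Real.exp_pos _).le) hz
  have hGi : Integrable (fun ω => l * (V ω - 2 * n * ε)) ρ :=
    (hVi.sub (integrable_const _)).const_mul l
  have hGm : Measurable (fun ω => l * (V ω - 2 * n * ε)) :=
    measurable_const.mul (hVm.sub measurable_const)
  have hEi : Integrable (fun ω => Real.exp (l * (V ω - 2 * n * ε))) ρ := by
    refine Integrable.of_bound (C := Real.exp (l * (2 * n))) ?_ (Eventually.of_forall (fun ω => ?_))
    · exact (Real.measurable_exp.comp hGm).aestronglyMeasurable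
    · rw [Real.norm_eq_abs, abs_of_pos (Real.exp_pos _)]
      apply Real.exp_le_exp.mpr
      apply mul_le_mul_of_nonneg_left _ hl.le
      have h1 := le_abs_self (V ω)
      have h2 := hVb ω
      have h3 : (0 : ℝ) ≤ 2 * n * ε := by positivity
      linarith
  have hJ : Real.exp (∫ ω, l * (V ω - 2 * n * ε) ∂ρ) ≤
      ∫ ω, Real.exp (l * (V ω - 2 * n * ε)) ∂ρ :=
    convexOn_exp.map_integral_le Real.continuous_exp.continuousOn isClosed_univ
      (Eventually.of_forall (fun _ => Set.mem_univ _)) hGi hEi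
  have hsum : ∫ ω, Real.exp (l * (V ω - 2 * n * ε)) ∂ρ ≤ Real.exp (3 * l ^ 2 * n) := by
    calc ∫ ω, Real.exp (l * (V ω - 2 * n * ε)) ∂ρ
        ≤ ∫ ω, ∑ z ∈ Z, Real.exp (l * ∑ i ∈ Finset.range n, N z i ω) ∂ρ :=
          integral_mono hEi (integrable_finsetSum _ (fun z hz => hWi z hz n)) hpt
      _ = ∑ z ∈ Z, ∫ ω, Real.exp (l * ∑ i ∈ Finset.range n, N z i ω) ∂ρ :=
          integral_finsetSum _ (fun z hz => hWi z hz n)
      _ ≤ ∑ _z ∈ Z, Real.exp (2 * l ^ 2 * n) := Finset.sum_le_sum hAz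
      _ = Z.card * Real.exp (2 * l ^ 2 * n) := by rw [Finset.sum_const, nsmul_eq_mul]
      _ ≤ Real.exp (l ^ 2 * n) * Real.exp (2 * l ^ 2 * n) :=
          mul_le_mul_of_nonneg_right hZ (Real.exp_pos _).le
      _ = Real.exp (3 * l ^ 2 * n) := by
          rw [← Real.exp_add]
          congr 1
          ring
  have hfin := Real.exp_le_exp.mp (hJ.trans hsum)
  rw [integral_const_mul, integral_sub hVi (integrable_const _), hVint, integral_const] at hfin
  simp only [probReal_univ, smul_eq_mul, one_mul] at hfin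
  have h4 : l * (‖I‖ - 2 * n * ε) ≤ l * (3 * l * n) := by
    refine hfin.trans (le_of_eq ?_)
    ring
  have h5 := le_of_mul_le_mul_left h4 hl
  linarith

end FHE
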