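import Pool.Agent.FHE.Defs

/-! AZC (~150 lines): properties of the predictions `u j` (conditional expectations).
`u_orth`: for bounded `w` measurable for the past. `u_meas`: `u j` is strongly measurable for the comap;
`u_norm`: a.e. bound (`ae_bdd_condExp_of_ae_bdd`). `u_mono`: `comap (past j) ≤ comap (past (j+1))`, so `u j` is
the projection of `u k` (`j ≤ k`): `∫ u_k conj u_j = ∫ ‖u_j‖²`, hence
`∫ ‖u_k - u_j‖² = ∫ ‖u_k‖² - ∫ ‖u_j‖²`. -/

open MeasureTheory Filter Topology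
open scoped ComplexConjugate

namespace FHE

variable {Y : Type} [MeasurableSpace Y] {S : Y → Y} {μ : Measure Y} {g : ℕ → ℂ}

private theorem azc_pm (s : Sys S μ g) (j : ℕ) : Measurable (s.past j) :=
  measurable_pi_lambda _ fun i => s.mx.comp (s.mTs.iterate _)

private theorem azc_le (s : Sys S μ g) (j : ℕ) :
    MeasurableSpace.comap (s.past j) inferInstance ≤ s.mΩ := (azc_pm s j).comap_le

private theorem azc_mono (s : Sys S μ g) {j k : ℕ} (hjk : j ≤ k) :
    MeasurableSpace.comap (s.past j) (inferInstance : MeasurableSpace (Fin j → ℂ)) ≤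
      MeasurableSpace.comap (s.past k) (inferInstance : MeasurableSpace (Fin k → ℂ)) := by
  have h : s.past j = (fun (v : Fin k → ℂ) (i : Fin j) => v (Fin.castLE hjk i)) ∘ s.past k := by
    funext ω i
    rfl
  rw [h, ← MeasurableSpace.comap_comp]
  refine MeasurableSpace.comap_mono ?_
  exact (measurable_pi_lambda _ fun _ => measurable_pi_apply _).comap_le

private theorem azc_intx (s : Sys S μ g) : Integrable s.x s.ρ :=
  Integrable.of_bound s.mx.aestronglyMeasurable 1 (Eventually.of_forall fun ω => (s.nx ω).le)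

theorem past_meas (s : Sys S μ g) (j : ℕ) : Measurable (s.past j) := azc_pm s j

theorem u_meas (s : Sys S μ g) (j : ℕ) :
    StronglyMeasurable[MeasurableSpace.comap (s.past j) inferInstance] (s.u j) :=
  stronglyMeasurable_condExp

theorem u_norm (s : Sys S μ g) (j : ℕ) : ∀ᵐ ω ∂s.ρ, ‖s.u j ω‖ ≤ 1 :=
  ae_bdd_norm_condExp_of_ae_bdd_norm (Eventually.of_forall fun ω => (s.nx ω).le)

theorem u_orth (s : Sys S μ g) (j : ℕ) {w : s.Ω → ℂ}
    (hw : StronglyMeasurable[MeasurableSpace.comap (s.past j) inferInstance] w) {C : ℝ}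
    (hC : ∀ᵐ ω ∂s.ρ, ‖w ω‖ ≤ C) : ∫ ω, (s.x ω - s.u j ω) * w ω ∂s.ρ = 0 := by
  have hw' : AEStronglyMeasurable w s.ρ := (hw.mono (azc_le s j)).aestronglyMeasurable
  have hu : Integrable (s.u j) s.ρ := integrable_condExp
  have hxw : Integrable (fun ω => s.x ω * w ω) s.ρ := by
    refine Integrable.of_bound ((azc_intx s).aestronglyMeasurable.mul hw') C ?_
    filter_upwards [hC] with ω h
    rw [norm_mul, s.nx ω, one_mul]
    exact h
  have huw : Integrable (fun ω => s.u j ω * w ω) s.ρ := by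
    refine Integrable.of_bound (hu.aestronglyMeasurable.mul hw') C ?_
    filter_upwards [hC, u_norm s j] with ω h h'
    rw [norm_mul]
    calc ‖s.u j ω‖ * ‖w ω‖ ≤ 1 * ‖w ω‖ := by gcongr
      _ ≤ C := by rw [one_mul]; exact h
  have h1 : s.ρ[fun ω => s.x ω * w ω | MeasurableSpace.comap (s.past j) inferInstance]
      =ᵐ[s.ρ] fun ω => s.u j ω * w ω :=
    condExp_bilin_of_stronglyMeasurable_right (ContinuousLinearMap.mul ℝ ℂ) hw hxw (azc_intx s)
  have h2 : ∫ ω, s.u j ω * w ω ∂s.ρ = ∫ ω, s.x ω * w ω ∂s.ρ := by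
    rw [← integral_congr_ae h1, integral_condExp (azc_le s j)]
  simp only [sub_mul]
  rw [integral_sub hxw huw, h2, sub_self]

theorem u_diff (s : Sys S μ g) {j k : ℕ} (hjk : j ≤ k) :
    ∫ ω, ‖s.u k ω - s.u j ω‖ ^ 2 ∂s.ρ =
      (∫ ω, ‖s.u k ω‖ ^ 2 ∂s.ρ) - ∫ ω, ‖s.u j ω‖ ^ 2 ∂s.ρ := by
  have hj : AEStronglyMeasurable (s.u j) s.ρ :=
    ((u_meas s j).mono (azc_le s j)).aestronglyMeasurable
  have hk : AEStronglyMeasurable (s.u k) s.ρ :=
    ((u_meas s k).mono (azc_le s k)).aestronglyMeasurable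
  have hcj : StronglyMeasurable[MeasurableSpace.comap (s.past j) inferInstance]
      (fun ω => conj (s.u j ω)) := Complex.continuous_conj.comp_stronglyMeasurable (u_meas s j)
  have hbj : ∀ᵐ ω ∂s.ρ, ‖conj (s.u j ω)‖ ≤ 1 := by
    filter_upwards [u_norm s j] with ω h
    rw [RCLike.norm_conj]
    exact h
  have e1 := u_orth s j hcj hbj
  have e2 := u_orth s k (hcj.mono (azc_mono s hjk)) hbj
  have hcj' : AEStronglyMeasurable (fun ω => conj (s.u j ω)) s.ρ :=
    (hcj.mono (azc_le s j)).aestronglyMeasurable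
  have hi : ∀ l, Integrable (fun ω => (s.x ω - s.u l ω) * conj (s.u j ω)) s.ρ := by
    intro l
    have hl : AEStronglyMeasurable (s.u l) s.ρ :=
      ((u_meas s l).mono (azc_le s l)).aestronglyMeasurable
    refine Integrable.of_bound (((azc_intx s).aestronglyMeasurable.sub hl).mul hcj') 2 ?_
    filter_upwards [hbj, u_norm s l] with ω h h'
    rw [norm_mul]
    have h3 : ‖s.x ω - s.u l ω‖ ≤ 2 := by
      refine (norm_sub_le _ _).trans ?_
      rw [s.nx ω]
      linarith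
    nlinarith [norm_nonneg (s.x ω - s.u l ω), norm_nonneg (conj (s.u j ω))]
  have e3 : ∫ ω, (s.u k ω - s.u j ω) * conj (s.u j ω) ∂s.ρ = 0 := by
    have : ∀ ω, (s.u k ω - s.u j ω) * conj (s.u j ω) =
        (s.x ω - s.u j ω) * conj (s.u j ω) - (s.x ω - s.u k ω) * conj (s.u j ω) := by
      intro ω
      ring
    simp only [this]
    rw [integral_sub (hi j) (hi k), e1, e2, sub_self]
  have hie : Integrable (fun ω => (s.u k ω - s.u j ω) * conj (s.u j ω)) s.ρ := by
    have : (fun ω => (s.u k ω - s.u j ω) * conj (s.u j ω)) =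
        fun ω => (s.x ω - s.u j ω) * conj (s.u j ω) - (s.x ω - s.u k ω) * conj (s.u j ω) := by
      funext ω
      ring
    rw [this]
    exact (hi j).sub (hi k)
  have hsq : ∀ f : s.Ω → ℂ, AEStronglyMeasurable f s.ρ → (∀ᵐ ω ∂s.ρ, ‖f ω‖ ≤ 2) →
      Integrable (fun ω => ‖f ω‖ ^ 2) s.ρ := by
    intro f hf hb
    refine Integrable.of_bound (hf.norm.pow 2) 4 ?_
    filter_upwards [hb] with ω h
    rw [Real.norm_of_nonneg (by positivity)]
    nlinarith [norm_nonneg (f ω)]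
  have i1 := hsq (fun ω => s.u k ω - s.u j ω) (hk.sub hj) (by
    filter_upwards [u_norm s j, u_norm s k] with ω h h'
    exact (norm_sub_le _ _).trans (by linarith))
  have i2 := hsq (s.u j) hj (by
    filter_upwards [u_norm s j] with ω h
    linarith)
  have i3 := hsq (s.u k) hk (by
    filter_upwards [u_norm s k] with ω h
    linarith)
  have key : ∀ ω, ‖s.u k ω‖ ^ 2 = ‖s.u k ω - s.u j ω‖ ^ 2 + ‖s.u j ω‖ ^ 2 +
      2 * ((s.u k ω - s.u j ω) * conj (s.u j ω)).re := by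
    intro ω
    have h1 : ∀ a b : ℂ, ‖a‖ ^ 2 = ‖a - b‖ ^ 2 + ‖b‖ ^ 2 + 2 * ((a - b) * conj b).re := by
      intro a b
      rw [Complex.sq_norm, Complex.sq_norm, Complex.sq_norm]
      simp only [Complex.normSq_apply, Complex.sub_re, Complex.sub_im, Complex.mul_re,
        Complex.conj_re, Complex.conj_im]
      ring
    exact h1 _ _
  have hre : ∫ ω, ((s.u k ω - s.u j ω) * conj (s.u j ω)).re ∂s.ρ = 0 := by
    have := integral_re hie
    rw [e3] at this
    simpa using this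
  have hrei : Integrable (fun ω => 2 * ((s.u k ω - s.u j ω) * conj (s.u j ω)).re) s.ρ :=
    (hie.re).const_mul 2
  have : ∫ ω, ‖s.u k ω‖ ^ 2 ∂s.ρ = (∫ ω, ‖s.u k ω - s.u j ω‖ ^ 2 ∂s.ρ) +
      ∫ ω, ‖s.u j ω‖ ^ 2 ∂s.ρ := by
    simp only [key]
    have i12 : Integrable (fun ω => ‖s.u k ω - s.u j ω‖ ^ 2 + ‖s.u j ω‖ ^ 2) s.ρ := i1.add i2
    rw [integral_add i12 hrei, integral_add i1 i2, integral_const_mul, hre]
    ring
  rw [this]
  ring

/-- the norms of the predictions stabilise -/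
theorem u_stab (s : Sys S μ g) {ε : ℝ} (hε : 0 < ε) : ∃ J : ℕ, ∀ k ≥ J,
    ∫ ω, ‖s.u k ω - s.u J ω‖ ^ 2 ∂s.ρ ≤ ε := by
  set a : ℕ → ℝ := fun k => ∫ ω, ‖s.u k ω‖ ^ 2 ∂s.ρ with ha
  have hbd : ∀ k, a k ≤ 1 := by
    intro k
    have h1 : ∫ ω, ‖s.u k ω‖ ^ 2 ∂s.ρ ≤ ∫ _ω, (1 : ℝ) ∂s.ρ := by
      refine integral_mono_of_nonneg (Eventually.of_forall fun ω => by positivity)
        (integrable_const _) ?_
      filter_upwards [u_norm s k] with ω h
      have := norm_nonneg (s.u k ω)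
      show ‖s.u k ω‖ ^ 2 ≤ 1
      nlinarith
    simpa using h1
  have hbdd : BddAbove (Set.range a) := ⟨1, by rintro _ ⟨k, rfl⟩; exact hbd k⟩
  obtain ⟨J, hJ⟩ : ∃ J, (⨆ k, a k) - ε < a J := by
    have h0 : (⨆ k, a k) - ε < ⨆ k, a k := by linarith
    exact exists_lt_of_lt_ciSup h0
  refine ⟨J, fun k hk => ?_⟩
  rw [u_diff s hk]
  have h1 : a k ≤ ⨆ k, a k := le_ciSup hbdd k
  have h2 : (∫ ω, ‖s.u k ω‖ ^ 2 ∂s.ρ) - ∫ ω, ‖s.u J ω‖ ^ 2 ∂s.ρ = a k - a J := rfl
  rw [h2]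
  linarith

end FHE
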