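import Pool.Agent.FHE.AZB
import Pool.Agent.FHE.AZC

/-! AZD (~150 lines): zero entropy. Let `φ` be continuous, `‖φ‖ ≤ 1`. Given `ε > 0` take `l = ε`,
`η` from uniform continuity (`dist ≤ η → ‖φ - φ‖ ≤ ε`), `n` large from `ZE` (`η`, `δ = l²`): a finite set
`Z ⊂ Y`. Let `û j` be `u j` cut off to `0` where `‖u j‖ > 1` (equal a.e.), still measurable for the past.
Apply `azb` with `M j ω = x (T^j ω) - û j (T^j ω)`, `F j ω = conj (φ (S^[j] (pi 1 ω))) = conj (φ (pi 1 (T^j ω)))`,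
`c z j = conj (φ (S^[j] z))`. `horth`: shift by `T^-j`; for `i < j`, `M i ∘ T^-j` is a function of
`x ∘ T^-1, ..., x ∘ T^-j` (`u i ∘ T^(i-j)` depends on `x ∘ T^(i-j-1), ..., x ∘ T^-j`), so `u_orth` applies.
By invariance `∫ M j F j = ∫ (x - u j) conj (φ (pi 1))`. -/

open MeasureTheory Filter Topology
open scoped ComplexConjugate

namespace FHE

variable {Y : Type} [MetricSpace Y] [CompactSpace Y] [MeasurableSpace Y] [BorelSpace Y]
  {S : Y → Y} {μ : Measure Y} {g : ℕ → ℂ}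

private noncomputable def azdU (s : Sys S μ g) (j : ℕ) (ω : s.Ω) : ℂ :=
  open Classical in if ‖s.u j ω‖ ≤ 1 then s.u j ω else 0

omit [CompactSpace Y] [BorelSpace Y] in
private theorem azdU_meas (s : Sys S μ g) (j : ℕ) :
    Measurable[MeasurableSpace.comap (s.past j) inferInstance] (azdU s j) := by
  have h := (u_meas s j).measurable
  unfold azdU
  have hset : MeasurableSet[MeasurableSpace.comap (s.past j) inferInstance]
      {ω | ‖s.u j ω‖ ≤ 1} := by
    have h1 := h (Metric.isClosed_closedBall (x := (0 : ℂ)) (ε := 1)).measurableSet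
    have h2 : s.u j ⁻¹' Metric.closedBall 0 1 = {ω | ‖s.u j ω‖ ≤ 1} := by
      ext ω
      simp
    rw [h2] at h1
    exact h1
  exact Measurable.ite hset h measurable_const

omit [CompactSpace Y] [BorelSpace Y] in
private theorem azdU_meas' (s : Sys S μ g) (j : ℕ) : Measurable (azdU s j) :=
  (azdU_meas s j).mono (past_meas s j).comap_le le_rfl

omit [CompactSpace Y] [BorelSpace Y] in
private theorem azdU_norm (s : Sys S μ g) (j : ℕ) (ω : s.Ω) : ‖azdU s j ω‖ ≤ 1 := by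
  unfold azdU
  split_ifs with h
  · exact h
  · simp

omit [CompactSpace Y] [BorelSpace Y] in
private theorem azdU_ae (s : Sys S μ g) (j : ℕ) : azdU s j =ᵐ[s.ρ] s.u j := by
  filter_upwards [u_norm s j] with ω hω
  unfold azdU
  rw [if_pos hω]

omit [CompactSpace Y] [BorelSpace Y] in
private theorem azd_pi (s : Sys S μ g) (j : ℕ) (ω : s.Ω) :
    s.pi 1 ((s.T : s.Ω → s.Ω)^[j] ω) = S^[j] (s.pi 1 ω) := by
  induction j with
  | zero => rfl
  | succ j ih =>
    rw [Function.iterate_succ_apply', Function.iterate_succ_apply', s.piT, ih]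
    rfl

omit [CompactSpace Y] [BorelSpace Y] in
private theorem azd_shift (s : Sys S μ g) {i j : ℕ} (hij : i ≤ j) (ω : s.Ω) :
    (s.T : s.Ω → s.Ω)^[i] ((s.T.symm : s.Ω → s.Ω)^[j] ω) =
      (s.T.symm : s.Ω → s.Ω)^[j - i] ω := by
  obtain ⟨k, rfl⟩ := Nat.exists_eq_add_of_le hij
  rw [Function.iterate_add_apply, Nat.add_sub_cancel_left]
  exact (Function.RightInverse.iterate (s.T.apply_symm_apply) i) _

omit [CompactSpace Y] [BorelSpace Y] in
/-- backward shifts map the past to the past -/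
private theorem azd_past (s : Sys S μ g) {i j : ℕ} (hij : i ≤ j) :
    Measurable[MeasurableSpace.comap (s.past j) inferInstance,
      MeasurableSpace.comap (s.past i) inferInstance] ((s.T.symm : s.Ω → s.Ω)^[j - i]) := by
  rw [measurable_comap_iff]
  have hbase : Measurable[MeasurableSpace.comap (s.past j) inferInstance] (s.past j) :=
    comap_measurable _
  rw [@measurable_pi_iff]
  intro k
  have hk : (k : ℕ) + (j - i) < j := by
    have := k.2
    omega
  have h1 := (measurable_pi_apply (X := fun _ : Fin j => ℂ) ⟨(k : ℕ) + (j - i), hk⟩).comp hbase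
  have h2 : (fun ω => (s.past i ∘ (s.T.symm : s.Ω → s.Ω)^[j - i]) ω k) =
      (fun f : Fin j → ℂ => f ⟨(k : ℕ) + (j - i), hk⟩) ∘ s.past j := by
    funext ω
    simp only [Function.comp_apply, Sys.past]
    rw [← Function.iterate_add_apply]
    have h3 : (k : ℕ) + 1 + (j - i) = (k : ℕ) + (j - i) + 1 := by omega
    rw [h3]
  rw [h2]
  exact h1

omit [CompactSpace Y] [BorelSpace Y] in
private theorem azd_orth (s : Sys S μ g) (j : ℕ) (w : ℕ → ℂ) :
    ∫ ω, (Real.exp (∑ i ∈ Finset.range j, (w i * (s.x ((s.T : s.Ω → s.Ω)^[i] ω) -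
      azdU s i ((s.T : s.Ω → s.Ω)^[i] ω))).re) : ℂ) *
      (s.x ((s.T : s.Ω → s.Ω)^[j] ω) - azdU s j ((s.T : s.Ω → s.Ω)^[j] ω)) ∂s.ρ = 0 := by
  -- the function of the past
  obtain ⟨W, hW⟩ : ∃ W : s.Ω → ℂ, W = fun ω => (Real.exp (∑ i ∈ Finset.range j,
      (w i * (s.x ((s.T.symm : s.Ω → s.Ω)^[j - i] ω) -
        azdU s i ((s.T.symm : s.Ω → s.Ω)^[j - i] ω))).re) : ℂ) := ⟨_, rfl⟩
  have hWm : Measurable[MeasurableSpace.comap (s.past j) inferInstance] W := by
    rw [hW]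
    have h1 : Measurable[MeasurableSpace.comap (s.past j) inferInstance] fun ω : s.Ω =>
        (∑ i ∈ Finset.range j, (w i * (s.x ((s.T.symm : s.Ω → s.Ω)^[j - i] ω) -
        azdU s i ((s.T.symm : s.Ω → s.Ω)^[j - i] ω))).re) := by
      refine Finset.measurable_fun_sum _ fun i hi => ?_
      have hij : i < j := Finset.mem_range.1 hi
      have h2 : Measurable[MeasurableSpace.comap (s.past j) inferInstance] fun ω : s.Ω =>
          azdU s i ((s.T.symm : s.Ω → s.Ω)^[j - i] ω) :=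
        (azdU_meas s i).comp (azd_past s hij.le)
      have h3 : Measurable[MeasurableSpace.comap (s.past j) inferInstance] fun ω : s.Ω =>
          s.x ((s.T.symm : s.Ω → s.Ω)^[j - i] ω) := by
        have hbase : Measurable[MeasurableSpace.comap (s.past j) inferInstance] (s.past j) :=
          comap_measurable _
        have hk : j - i - 1 < j := by omega
        have h4 := (measurable_pi_apply (X := fun _ : Fin j => ℂ) ⟨j - i - 1, hk⟩).comp hbase
        have h5 : (fun ω : s.Ω => s.x ((s.T.symm : s.Ω → s.Ω)^[j - i] ω)) =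
            (fun f : Fin j → ℂ => f ⟨j - i - 1, hk⟩) ∘ s.past j := by
          funext ω
          simp only [Function.comp_apply, Sys.past]
          congr 2
          have : j - i = j - i - 1 + 1 := by omega
          rw [← this]
        rw [h5]
        exact h4
      exact Complex.measurable_re.comp ((h3.sub h2).const_mul (w i))
    exact Complex.measurable_ofReal.comp (Real.measurable_exp.comp h1)
  have hWm' : Measurable W := hWm.mono (past_meas s j).comap_le le_rfl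
  have hWb : ∀ ω, ‖W ω‖ ≤ Real.exp (∑ i ∈ Finset.range j, ‖w i‖ * 2) := by
    intro ω
    rw [hW]
    simp only
    rw [Complex.norm_real, Real.norm_of_nonneg (Real.exp_pos _).le]
    apply Real.exp_le_exp.2
    apply Finset.sum_le_sum
    intro i _
    refine (Complex.re_le_norm _).trans ?_
    rw [norm_mul]
    apply mul_le_mul_of_nonneg_left _ (norm_nonneg _)
    refine (norm_sub_le _ _).trans ?_
    have h1 := s.nx ((s.T.symm : s.Ω → s.Ω)^[j - i] ω)
    have h2 := azdU_norm s i ((s.T.symm : s.Ω → s.Ω)^[j - i] ω)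
    linarith
  have h0 := u_orth s j hWm.stronglyMeasurable (Eventually.of_forall hWb)
  have h1 : ∫ ω, (s.x ω - s.u j ω) * W ω ∂s.ρ = ∫ ω, (s.x ω - azdU s j ω) * W ω ∂s.ρ := by
    apply integral_congr_ae
    filter_upwards [azdU_ae s j] with ω hω
    rw [hω]
  rw [h1] at h0
  have hmp := s.mp.iterate j
  have hG : Measurable fun ω => (s.x ω - azdU s j ω) * W ω :=
    (s.mx.sub (azdU_meas' s j)).mul hWm'
  have h2 : ∫ ω, (s.x ω - azdU s j ω) * W ω ∂s.ρ =
      ∫ ω, (s.x ((s.T : s.Ω → s.Ω)^[j] ω) - azdU s j ((s.T : s.Ω → s.Ω)^[j] ω)) *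
        W ((s.T : s.Ω → s.Ω)^[j] ω) ∂s.ρ := by
    conv_lhs => rw [← hmp.map_eq]
    rw [integral_map hmp.measurable.aemeasurable hG.aestronglyMeasurable]
  rw [h2] at h0
  rw [← h0]
  apply integral_congr_ae
  refine Eventually.of_forall fun ω => ?_
  simp only
  rw [mul_comm, hW]
  simp only
  congr 3
  apply Finset.sum_congr rfl
  intro i hi
  have hij : i < j := Finset.mem_range.1 hi
  have h3 : (s.T.symm : s.Ω → s.Ω)^[j - i] ((s.T : s.Ω → s.Ω)^[j] ω) =
      (s.T : s.Ω → s.Ω)^[i] ω := by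
    rw [← azd_shift s hij.le]
    congr 1
    exact (Function.LeftInverse.iterate (s.T.symm_apply_apply) j) ω
  rw [h3]

theorem azd (s : Sys S μ g) (hZ : ZE S) (φ : C(Y, ℂ)) (hφ : ∀ v, ‖φ v‖ ≤ 1) :
    Tendsto (fun n : ℕ => (n : ℝ)⁻¹ * ‖∑ j ∈ Finset.range n,
      ∫ ω, (s.x ω - s.u j ω) * conj (φ (s.pi 1 ω)) ∂s.ρ‖) atTop (𝓝 0) := by
  rw [Metric.tendsto_atTop]
  intro ε' hε'
  obtain ⟨ε, hε⟩ : ∃ ε : ℝ, ε = ε' / 6 := ⟨_, rfl⟩
  have hε0 : 0 < ε := by rw [hε]; positivity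
  have huc : UniformContinuous φ := CompactSpace.uniformContinuous_of_continuous φ.continuous
  obtain ⟨η, hη, hηφ⟩ := Metric.uniformContinuous_iff.1 huc ε hε0
  obtain ⟨n₀, hn₀⟩ := hZ (η / 2) (by positivity) (ε ^ 2) (by positivity)
  refine ⟨max n₀ 1, fun n hn => ?_⟩
  have hn1 : 1 ≤ n := (le_max_right _ _).trans hn
  obtain ⟨Z, hZc, hZ2⟩ := hn₀ n ((le_max_left _ _).trans hn)
  have hTm : ∀ j, Measurable ((s.T : s.Ω → s.Ω)^[j]) := fun j => s.mT.iterate j
  have key := azb (ρ := s.ρ)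
    (M := fun j ω => s.x ((s.T : s.Ω → s.Ω)^[j] ω) - azdU s j ((s.T : s.Ω → s.Ω)^[j] ω))
    (F := fun j ω => conj (φ (s.pi 1 ((s.T : s.Ω → s.Ω)^[j] ω))))
    (fun j => (s.mx.comp (hTm j)).sub ((azdU_meas' s j).comp (hTm j)))
    (fun j ω => by
      refine (norm_sub_le _ _).trans ?_
      have h1 := s.nx ((s.T : s.Ω → s.Ω)^[j] ω)
      have h2 := azdU_norm s j ((s.T : s.Ω → s.Ω)^[j] ω)
      linarith)
    (fun j => ⟨Complex.continuous_conj.measurable.comp
        (φ.continuous.measurable.comp ((s.mpi 1).comp (hTm j))),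
      fun ω => by rw [RCLike.norm_conj]; exact hφ _⟩)
    hn1 Z (fun z j => conj (φ (S^[j] z)))
    (fun z _ j => by rw [RCLike.norm_conj]; exact hφ _) hε0 hε0.le hZc
    (fun ω => by
      obtain ⟨z, hz, hz2⟩ := hZ2 (s.pi 1 ω)
      refine ⟨z, hz, fun j hj => ?_⟩
      rw [← map_sub, RCLike.norm_conj, azd_pi, ← dist_eq_norm]
      exact (hηφ ((hz2 j hj).trans_lt (by linarith))).le)
    (fun j w => azd_orth s j w)
  have hterm : ∀ j, ∫ ω, (s.x ((s.T : s.Ω → s.Ω)^[j] ω) - azdU s j ((s.T : s.Ω → s.Ω)^[j] ω)) *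
      conj (φ (s.pi 1 ((s.T : s.Ω → s.Ω)^[j] ω))) ∂s.ρ =
      ∫ ω, (s.x ω - s.u j ω) * conj (φ (s.pi 1 ω)) ∂s.ρ := by
    intro j
    have hmp := s.mp.iterate j
    have hG : Measurable fun ω => (s.x ω - azdU s j ω) * conj (φ (s.pi 1 ω)) :=
      (s.mx.sub (azdU_meas' s j)).mul (Complex.continuous_conj.measurable.comp
        (φ.continuous.measurable.comp (s.mpi 1)))
    have h2 : ∫ ω, (s.x ω - azdU s j ω) * conj (φ (s.pi 1 ω)) ∂s.ρ =
        ∫ ω, (s.x ((s.T : s.Ω → s.Ω)^[j] ω) - azdU s j ((s.T : s.Ω → s.Ω)^[j] ω)) *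
          conj (φ (s.pi 1 ((s.T : s.Ω → s.Ω)^[j] ω))) ∂s.ρ := by
      conv_lhs => rw [← hmp.map_eq]
      rw [integral_map hmp.measurable.aemeasurable hG.aestronglyMeasurable]
    rw [← h2]
    apply integral_congr_ae
    filter_upwards [azdU_ae s j] with ω hω
    rw [hω]
  have hint : ∀ j, Integrable (fun ω => (s.x ((s.T : s.Ω → s.Ω)^[j] ω) -
      azdU s j ((s.T : s.Ω → s.Ω)^[j] ω)) *
      conj (φ (s.pi 1 ((s.T : s.Ω → s.Ω)^[j] ω)))) s.ρ := by
    intro j
    refine Integrable.of_bound (C := 2) ?_ (Eventually.of_forall fun ω => ?_)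
    · exact (((s.mx.comp (hTm j)).sub ((azdU_meas' s j).comp (hTm j))).mul
        (Complex.continuous_conj.measurable.comp
        (φ.continuous.measurable.comp ((s.mpi 1).comp (hTm j))))).aestronglyMeasurable
    · rw [norm_mul, RCLike.norm_conj]
      have h1 := s.nx ((s.T : s.Ω → s.Ω)^[j] ω)
      have h2 := azdU_norm s j ((s.T : s.Ω → s.Ω)^[j] ω)
      have h3 : ‖s.x ((s.T : s.Ω → s.Ω)^[j] ω) - azdU s j ((s.T : s.Ω → s.Ω)^[j] ω)‖ ≤ 2 := by
        refine (norm_sub_le _ _).trans ?_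
        linarith
      have h4 := hφ (s.pi 1 ((s.T : s.Ω → s.Ω)^[j] ω))
      calc _ ≤ 2 * 1 := mul_le_mul h3 h4 (norm_nonneg _) (by norm_num)
        _ = 2 := by norm_num
  rw [integral_finsetSum _ (fun j _ => hint j)] at key
  simp only [hterm] at key
  have hn0 : (0 : ℝ) < n := by exact_mod_cast hn1
  rw [Real.dist_eq, sub_zero, abs_of_nonneg (by positivity)]
  calc (n : ℝ)⁻¹ * ‖∑ j ∈ Finset.range n, ∫ ω, (s.x ω - s.u j ω) * conj (φ (s.pi 1 ω)) ∂s.ρ‖
      ≤ (n : ℝ)⁻¹ * ((3 * ε + 2 * ε) * n) :=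
        mul_le_mul_of_nonneg_left key (by positivity)
    _ = 5 * ε := by field_simp; ring
    _ < ε' := by rw [hε]; linarith

end FHE
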