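import Pool.Agent.FHE.AZD

/-! AZE (~100 lines): from continuous to bounded measurable functions: continuous functions are dense in
`L¹(μ)` (`MeasureTheory.Integrable.exists_hasCompactSupport_integral_sub_le` or `Lp` density; truncate to
norm `≤ 1`, e.g. compose with the retraction `z ↦ z / max 1 ‖z‖`), `‖x - u j‖ ≤ 2` a.e., law of `pi 1` is `μ`. -/

open MeasureTheory Filter Topology
open scoped ComplexConjugate

namespace FHE

variable {Y : Type} [MetricSpace Y] [CompactSpace Y] [MeasurableSpace Y] [BorelSpace Y]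
  {S : Y → Y} {μ : Measure Y} {g : ℕ → ℂ}

private theorem aze_retract (w z : ℂ) (hw : ‖w‖ ≤ 1) :
    ‖z / ((max 1 ‖z‖ : ℝ) : ℂ)‖ ≤ 1 ∧ ‖w - z / ((max 1 ‖z‖ : ℝ) : ℂ)‖ ≤ 2 * ‖w - z‖ := by
  have hpos : (0 : ℝ) < max 1 ‖z‖ := lt_of_lt_of_le one_pos (le_max_left _ _)
  have hn : ‖((max 1 ‖z‖ : ℝ) : ℂ)‖ = max 1 ‖z‖ := by
    rw [Complex.norm_real, Real.norm_of_nonneg hpos.le]
  refine ⟨?_, ?_⟩
  · rw [norm_div, hn, div_le_one hpos]
    exact le_max_right _ _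
  · by_cases h : ‖z‖ ≤ 1
    · rw [max_eq_left h]
      simp only [Complex.ofReal_one, div_one]
      linarith [norm_nonneg (w - z)]
    · push Not at h
      have hz : ‖z - z / ((max 1 ‖z‖ : ℝ) : ℂ)‖ = ‖z‖ - 1 := by
        rw [max_eq_right h.le]
        have hz0 : (‖z‖ : ℂ) ≠ 0 := by
          exact_mod_cast (by linarith : ‖z‖ ≠ 0)
        have : z - z / (‖z‖ : ℂ) = z * (((‖z‖ - 1 : ℝ) : ℂ) / (‖z‖ : ℂ)) := by
          push_cast
          field_simp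
        rw [this, norm_mul, norm_div, Complex.norm_real, Complex.norm_real, norm_norm,
          Real.norm_of_nonneg (by linarith : (0 : ℝ) ≤ ‖z‖ - 1)]
        have : ‖z‖ ≠ 0 := by linarith
        field_simp
      have h1 : ‖w - z / ((max 1 ‖z‖ : ℝ) : ℂ)‖ ≤ ‖w - z‖ + ‖z - z / ((max 1 ‖z‖ : ℝ) : ℂ)‖ := by
        have := norm_add_le (w - z) (z - z / ((max 1 ‖z‖ : ℝ) : ℂ))
        simpa using this
      have h2 : ‖z‖ - ‖w‖ ≤ ‖w - z‖ := by
        rw [norm_sub_rev]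
        exact norm_sub_norm_le z w
      rw [hz] at h1
      linarith

theorem aze (s : Sys S μ g) [IsProbabilityMeasure μ] (hZ : ZE S) {f : Y → ℂ} (hf : Bd f) :
    Tendsto (fun n : ℕ => (n : ℝ)⁻¹ * ‖∑ j ∈ Finset.range n,
      ∫ ω, (s.x ω - s.u j ω) * conj (f (s.pi 1 ω)) ∂s.ρ‖) atTop (𝓝 0) := by
  have hint : Integrable f μ :=
    (integrable_const (1 : ℝ)).mono' hf.meas.aestronglyMeasurable
      (Eventually.of_forall fun v => hf.le v)
  rw [Metric.tendsto_atTop]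
  intro ε hε
  obtain ⟨φ₀, hφ₀, hφi⟩ := hint.exists_boundedContinuous_integral_sub_le
    (show (0 : ℝ) < ε / 8 by positivity)
  have hcont : Continuous fun v => φ₀ v / ((max 1 ‖φ₀ v‖ : ℝ) : ℂ) := by
    refine φ₀.continuous.div ?_ ?_
    · exact Complex.continuous_ofReal.comp (continuous_const.max φ₀.continuous.norm)
    · intro v
      have hpos : (0 : ℝ) < max 1 ‖φ₀ v‖ := lt_of_lt_of_le one_pos (le_max_left _ _)
      exact_mod_cast hpos.ne'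
  set φ : C(Y, ℂ) := ⟨fun v => φ₀ v / ((max 1 ‖φ₀ v‖ : ℝ) : ℂ), hcont⟩ with hφ
  have hφv : ∀ v, φ v = φ₀ v / ((max 1 ‖φ₀ v‖ : ℝ) : ℂ) := fun v => rfl
  have hφ1 : ∀ v, ‖φ v‖ ≤ 1 := fun v => by
    rw [hφv]
    exact (aze_retract (f v) (φ₀ v) (hf.le v)).1
  have hφ2 : ∀ v, ‖f v - φ v‖ ≤ 2 * ‖f v - φ₀ v‖ := fun v => by
    rw [hφv]
    exact (aze_retract (f v) (φ₀ v) (hf.le v)).2
  have hfφ : Integrable (fun v => f v - φ v) μ := by
    refine hint.sub ?_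
    exact (integrable_const (1 : ℝ)).mono' hcont.aestronglyMeasurable
      (Eventually.of_forall fun v => hφ1 v)
  have hsmall : ∫ v, ‖f v - φ v‖ ∂μ ≤ ε / 4 := by
    calc ∫ v, ‖f v - φ v‖ ∂μ ≤ ∫ v, 2 * ‖f v - φ₀ v‖ ∂μ :=
          integral_mono hfφ.norm ((hint.sub hφi).norm.const_mul 2) hφ2
      _ = 2 * ∫ v, ‖f v - φ₀ v‖ ∂μ := integral_const_mul _ _
      _ ≤ ε / 4 := by linarith
  have hlaw := s.law 1 le_rfl
  have hdiff : ∀ j, ‖(∫ ω, (s.x ω - s.u j ω) * conj (f (s.pi 1 ω)) ∂s.ρ) -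
      ∫ ω, (s.x ω - s.u j ω) * conj (φ (s.pi 1 ω)) ∂s.ρ‖ ≤ ε / 2 := by
    intro j
    have hxu : AEStronglyMeasurable (fun ω => s.x ω - s.u j ω) s.ρ := by
      refine s.mx.aestronglyMeasurable.sub ?_
      exact ((u_meas s j).mono (past_meas s j).comap_le).aestronglyMeasurable
    have hxu2 : ∀ᵐ ω ∂s.ρ, ‖s.x ω - s.u j ω‖ ≤ 2 := by
      filter_upwards [u_norm s j] with ω hω
      calc ‖s.x ω - s.u j ω‖ ≤ ‖s.x ω‖ + ‖s.u j ω‖ := norm_sub_le _ _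
        _ ≤ 2 := by rw [s.nx]; linarith
    have hi : ∀ ψ : Y → ℂ, Measurable ψ → (∀ v, ‖ψ v‖ ≤ 1) →
        Integrable (fun ω => (s.x ω - s.u j ω) * conj (ψ (s.pi 1 ω))) s.ρ := by
      intro ψ hψ hψ1
      refine (integrable_const (2 : ℝ)).mono' (hxu.mul ?_) ?_
      · exact (Complex.continuous_conj.measurable.comp
          (hψ.comp (s.mpi 1))).aestronglyMeasurable
      · filter_upwards [hxu2] with ω hω
        rw [norm_mul, RCLike.norm_conj]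
        nlinarith [hψ1 (s.pi 1 ω), norm_nonneg (ψ (s.pi 1 ω)), norm_nonneg (s.x ω - s.u j ω)]
    rw [← integral_sub (hi f hf.meas hf.le) (hi φ hcont.measurable hφ1)]
    calc ‖∫ ω, ((s.x ω - s.u j ω) * conj (f (s.pi 1 ω)) -
            (s.x ω - s.u j ω) * conj (φ (s.pi 1 ω))) ∂s.ρ‖
        ≤ ∫ ω, 2 * ‖f (s.pi 1 ω) - φ (s.pi 1 ω)‖ ∂s.ρ := by
          refine norm_integral_le_of_norm_le ?_ ?_
          · exact ((hlaw.integrable_comp_of_integrable hfφ).norm).const_mul 2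
          · filter_upwards [hxu2] with ω hω
            rw [← mul_sub, ← map_sub, norm_mul, RCLike.norm_conj]
            exact mul_le_mul_of_nonneg_right hω (norm_nonneg _)
      _ = 2 * ∫ ω, ‖f (s.pi 1 ω) - φ (s.pi 1 ω)‖ ∂s.ρ := integral_const_mul _ _
      _ = 2 * ∫ v, ‖f v - φ v‖ ∂μ := by
          have h3 := integral_map (μ := s.ρ) (s.mpi 1).aemeasurable
            (f := fun v => ‖f v - φ v‖)
            (by rw [hlaw.map_eq]; exact hfφ.aestronglyMeasurable.norm)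
          rw [hlaw.map_eq] at h3
          rw [h3]
      _ ≤ ε / 2 := by linarith
  obtain ⟨N, hN⟩ := (Metric.tendsto_atTop.mp (azd s hZ φ hφ1)) (ε / 2) (by positivity)
  refine ⟨max N 1, fun n hn => ?_⟩
  have hn1 : 1 ≤ n := le_trans (le_max_right _ _) hn
  have hNn := hN n (le_trans (le_max_left _ _) hn)
  rw [Real.dist_eq, sub_zero, abs_of_nonneg (by positivity)] at hNn ⊢
  have hnpos : (0 : ℝ) < n := by exact_mod_cast hn1
  have hsum : ‖∑ j ∈ Finset.range n, ∫ ω, (s.x ω - s.u j ω) * conj (f (s.pi 1 ω)) ∂s.ρ‖ ≤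
      ‖∑ j ∈ Finset.range n, ∫ ω, (s.x ω - s.u j ω) * conj (φ (s.pi 1 ω)) ∂s.ρ‖ +
        n * (ε / 2) := by
    have h1 : ‖(∑ j ∈ Finset.range n, ∫ ω, (s.x ω - s.u j ω) * conj (f (s.pi 1 ω)) ∂s.ρ) -
        ∑ j ∈ Finset.range n, ∫ ω, (s.x ω - s.u j ω) * conj (φ (s.pi 1 ω)) ∂s.ρ‖ ≤
          n * (ε / 2) := by
      rw [← Finset.sum_sub_distrib]
      refine (norm_sum_le_of_le _ fun j _ => hdiff j).trans ?_
      simp
    have h2 := norm_le_norm_add_norm_sub'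
      (∑ j ∈ Finset.range n, ∫ ω, (s.x ω - s.u j ω) * conj (f (s.pi 1 ω)) ∂s.ρ)
      (∑ j ∈ Finset.range n, ∫ ω, (s.x ω - s.u j ω) * conj (φ (s.pi 1 ω)) ∂s.ρ)
    linarith
  calc (n : ℝ)⁻¹ * ‖∑ j ∈ Finset.range n, ∫ ω, (s.x ω - s.u j ω) * conj (f (s.pi 1 ω)) ∂s.ρ‖
      ≤ (n : ℝ)⁻¹ * (‖∑ j ∈ Finset.range n,
          ∫ ω, (s.x ω - s.u j ω) * conj (φ (s.pi 1 ω)) ∂s.ρ‖ + n * (ε / 2)) :=
        mul_le_mul_of_nonneg_left hsum (by positivity)
    _ = (n : ℝ)⁻¹ * ‖∑ j ∈ Finset.range n,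
          ∫ ω, (s.x ω - s.u j ω) * conj (φ (s.pi 1 ω)) ∂s.ρ‖ + ε / 2 := by
        field_simp
    _ < ε := by linarith

end FHE
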