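import Pool.Agent.FHE.PRC
import Pool.Agent.FHE.AZC

/-! BSA (~200 lines): the averaged dilation of a trigonometric polynomial. `mon_mul`: `mon p (a + b)`,
`mon_neg`: `mon p (-a) = conj (mon p a)` (`‖x‖ = 1`; `Finsupp.prod_add_index`), `mon_zero` for the exponent
`single 0 1`: `mon p (single 0 1) = x`, and `deg` is additive. With `Φ_p := ∑ c a g(p)^(1 - deg a) mon p a`:
`∫ x conj Φ_p = ∑ conj (c a) conj (g p)^(1 - deg a) ∫ mon p (single 0 1 - a)`,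
`∫ |Φ_p|² = ∑_{a,b} c a conj (c b) conj (g p)^(deg (a - b)) ∫ mon p (a - b)` (`‖g p‖ = 1`), the same for
`Φ = ∑ c a mon 1 a`. `bsa_norm`: `‖average‖² ≤ average of ‖·‖²`. `mon_past`: `mon p a` is a continuous
function of the coordinates `x ∘ T^(p j)`, `-4PJ ≤ p j < 0`, of `past (4 P J)`. -/

open MeasureTheory Filter Topology
open scoped ComplexConjugate

namespace FHE

variable {Y : Type} [MeasurableSpace Y] {S : Y → Y} {μ : Measure Y} {g : ℕ → ℂ}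

/-- the averaged dilation -/
noncomputable def Gp (s : Sys S μ g) (B : Finset (ℤ →₀ ℤ)) (c : (ℤ →₀ ℤ) → ℂ) (P : ℕ)
    (ω : s.Ω) : ℂ :=
  ((Pr P).card : ℂ)⁻¹ * ∑ p ∈ Pr P, ∑ a ∈ B, c a * g p ^ (1 - deg a) * s.mon p a ω

/-- the exponents occurring -/
noncomputable def Bx (B : Finset (ℤ →₀ ℤ)) : Finset (ℤ →₀ ℤ) :=
  B.image (fun a => Finsupp.single 0 1 - a) ∪ (B ×ˢ B).image (fun a => a.1 - a.2)

/-- the identity of Tao at the scale `P` -/
def TaoAt (s : Sys S μ g) (B : Finset (ℤ →₀ ℤ)) (δ : ℝ) (P : ℕ) : Prop :=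
  ∀ a ∈ B, ∑ p ∈ Pr P,
    ‖(∫ ω, s.mon 1 a ω ∂s.ρ) - conj (g p) ^ deg a * ∫ ω, s.mon p a ω ∂s.ρ‖ ≤ δ * (Pr P).card

theorem mon_norm (s : Sys S μ g) (p : ℤ) (a : ℤ →₀ ℤ) (ω : s.Ω) : ‖s.mon p a ω‖ = 1 := by
  unfold Sys.mon Finsupp.prod
  rw [norm_prod]
  apply Finset.prod_eq_one
  intro j _
  rw [norm_zpow, s.nx, one_zpow]

private theorem bsa_mpow (s : Sys S μ g) (n : ℕ) : Measurable (⇑(s.T ^ n)) := by
  induction n with
  | zero => simpa using measurable_id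
  | succ n ih =>
      rw [pow_succ]
      exact ih.comp s.mT

private theorem bsa_mpow' (s : Sys S μ g) (n : ℕ) : Measurable (⇑(s.T⁻¹ ^ n)) := by
  induction n with
  | zero => simpa using measurable_id
  | succ n ih =>
      rw [pow_succ]
      exact ih.comp s.mTs

private theorem bsa_mzpow (s : Sys S μ g) (n : ℤ) : Measurable (⇑(s.T ^ n)) := by
  cases n with
  | ofNat n => simpa using bsa_mpow s n
  | negSucc n =>
      rw [zpow_negSucc, ← inv_pow]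
      exact bsa_mpow' s (n + 1)

theorem mon_meas (s : Sys S μ g) (p : ℤ) (a : ℤ →₀ ℤ) : Measurable (s.mon p a) := by
  unfold Sys.mon Finsupp.prod
  apply Finset.measurable_prod
  intro j _
  exact (s.mx.comp (bsa_mzpow s (p * j))).pow_const _

private theorem bsa_ne (s : Sys S μ g) (ω : s.Ω) : s.x ω ≠ 0 := by
  intro h
  have := s.nx ω
  rw [h, norm_zero] at this
  exact zero_ne_one this

private theorem bsa_mon_add (s : Sys S μ g) (p : ℤ) (a b : ℤ →₀ ℤ) (ω : s.Ω) :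
    s.mon p (a + b) ω = s.mon p a ω * s.mon p b ω := by
  unfold Sys.mon
  exact Finsupp.prod_add_index' (fun _ => zpow_zero _) (fun _ _ _ => zpow_add₀ (bsa_ne s _) _ _)

private theorem bsa_mon_neg (s : Sys S μ g) (p : ℤ) (a : ℤ →₀ ℤ) (ω : s.Ω) :
    s.mon p (-a) ω = conj (s.mon p a ω) := by
  have h1 : s.mon p (-a) ω * s.mon p a ω = 1 := by
    rw [← bsa_mon_add, neg_add_cancel]
    simp [Sys.mon]
  have h2 : conj (s.mon p a ω) * s.mon p a ω = 1 := by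
    rw [Complex.conj_mul', mon_norm]
    simp
  have h3 : s.mon p a ω ≠ 0 := by
    intro h
    rw [h, mul_zero] at h1
    exact zero_ne_one h1
  exact mul_right_cancel₀ h3 (h1.trans h2.symm)

private theorem bsa_mon_sub (s : Sys S μ g) (p : ℤ) (a b : ℤ →₀ ℤ) (ω : s.Ω) :
    s.mon p (a - b) ω = s.mon p a ω * conj (s.mon p b ω) := by
  rw [sub_eq_add_neg, bsa_mon_add, bsa_mon_neg]

private theorem bsa_mon_single (s : Sys S μ g) (p : ℤ) (ω : s.Ω) :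
    s.mon p (Finsupp.single 0 1) ω = s.x ω := by
  unfold Sys.mon
  rw [Finsupp.prod_single_index (zpow_zero _)]
  simp

private theorem bsa_deg_add (a b : ℤ →₀ ℤ) : deg (a + b) = deg a + deg b := by
  unfold deg
  exact Finsupp.sum_add_index' (fun _ => rfl) (fun _ _ _ => rfl)

private theorem bsa_deg_sub (a b : ℤ →₀ ℤ) : deg (a - b) = deg a - deg b := by
  have := bsa_deg_add (a - b) b
  rw [sub_add_cancel] at this
  omega

private theorem bsa_deg_single : deg (Finsupp.single 0 1) = 1 := by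
  unfold deg
  rw [Finsupp.sum_single_index rfl]

private theorem bsa_mon_int (s : Sys S μ g) (p : ℤ) (a : ℤ →₀ ℤ) :
    Integrable (s.mon p a) s.ρ := by
  refine Integrable.mono' (integrable_const (1 : ℝ)) (mon_meas s p a).aestronglyMeasurable ?_
  exact Filter.Eventually.of_forall fun ω => (mon_norm s p a ω).le

private theorem bsa_card_pos {P : ℕ} (hP : 1 ≤ P) : 0 < ((Pr P).card : ℝ) := by
  obtain ⟨p, hp, h1, h2⟩ := Nat.exists_prime_lt_and_le_two_mul P (by omega)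
  have : p ∈ Pr P := by
    unfold Pr
    simp only [Finset.mem_filter, Finset.mem_Ico]
    exact ⟨⟨by omega, by omega⟩, hp⟩
  exact_mod_cast Finset.card_pos.mpr ⟨p, this⟩

/-- the average over the primes of one exponent -/
private theorem bsa_avg (s : Sys S μ g) {B : Finset (ℤ →₀ ℤ)} {δ : ℝ} {P : ℕ} (hP : 1 ≤ P)
    (h : TaoAt s B δ P) {b : ℤ →₀ ℤ} (hb : b ∈ B) :
    ‖(∫ ω, s.mon 1 b ω ∂s.ρ) - ((Pr P).card : ℂ)⁻¹ *
      ∑ p ∈ Pr P, conj (g p) ^ deg b * ∫ ω, s.mon p b ω ∂s.ρ‖ ≤ δ := by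
  have hc := bsa_card_pos hP
  have hc' : ((Pr P).card : ℂ) ≠ 0 := by
    intro h0
    have : ((Pr P).card : ℝ) = 0 := by exact_mod_cast h0
    rw [this] at hc
    exact lt_irrefl _ hc
  have e : (∫ ω, s.mon 1 b ω ∂s.ρ) - ((Pr P).card : ℂ)⁻¹ *
      ∑ p ∈ Pr P, conj (g p) ^ deg b * ∫ ω, s.mon p b ω ∂s.ρ =
      ((Pr P).card : ℂ)⁻¹ * ∑ p ∈ Pr P,
        ((∫ ω, s.mon 1 b ω ∂s.ρ) - conj (g p) ^ deg b * ∫ ω, s.mon p b ω ∂s.ρ) := by
    rw [Finset.sum_sub_distrib, Finset.sum_const, nsmul_eq_mul, mul_sub, ← mul_assoc,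
      inv_mul_cancel₀ hc', one_mul]
  rw [e, norm_mul, norm_inv, Complex.norm_natCast]
  calc ((Pr P).card : ℝ)⁻¹ * ‖∑ p ∈ Pr P,
        ((∫ ω, s.mon 1 b ω ∂s.ρ) - conj (g p) ^ deg b * ∫ ω, s.mon p b ω ∂s.ρ)‖
      ≤ ((Pr P).card : ℝ)⁻¹ * (δ * (Pr P).card) := by
        apply mul_le_mul_of_nonneg_left _ (inv_nonneg.mpr hc.le)
        exact (norm_sum_le _ _).trans (h b hb)
    _ = δ := by field_simp

private theorem bsa_conj_zpow (z : ℂ) (n : ℤ) : conj (z ^ n) = conj z ^ n := by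
  exact map_zpow₀ (starRingEnd ℂ) z n

theorem bsa_corr (s : Sys S μ g) (hg : ∀ p, p.Prime → ‖g p‖ = 1) (B : Finset (ℤ →₀ ℤ))
    (c : (ℤ →₀ ℤ) → ℂ) {δ : ℝ} {P : ℕ} (hP : 1 ≤ P) (h : TaoAt s (Bx B) δ P) :
    (∫ ω, s.x ω * conj (∑ a ∈ B, c a * s.mon 1 a ω) ∂s.ρ).re - δ * ∑ a ∈ B, ‖c a‖ ≤
      (∫ ω, s.x ω * conj (Gp s B c P ω) ∂s.ρ).re := by
  have e1 : ∫ ω, s.x ω * conj (∑ a ∈ B, c a * s.mon 1 a ω) ∂s.ρ =
      ∑ a ∈ B, conj (c a) * ∫ ω, s.mon 1 (Finsupp.single 0 1 - a) ω ∂s.ρ := by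
    have : ∀ ω, s.x ω * conj (∑ a ∈ B, c a * s.mon 1 a ω) =
        ∑ a ∈ B, conj (c a) * s.mon 1 (Finsupp.single 0 1 - a) ω := by
      intro ω
      rw [map_sum, Finset.mul_sum]
      refine Finset.sum_congr rfl fun a _ => ?_
      rw [map_mul, bsa_mon_sub, bsa_mon_single]
      ring
    simp_rw [this]
    rw [integral_finsetSum _ fun a _ => (bsa_mon_int s 1 _).const_mul _]
    refine Finset.sum_congr rfl fun a _ => ?_
    rw [integral_const_mul]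
  have e2 : ∫ ω, s.x ω * conj (Gp s B c P ω) ∂s.ρ =
      ∑ a ∈ B, conj (c a) * (((Pr P).card : ℂ)⁻¹ * ∑ p ∈ Pr P,
        conj (g p) ^ deg (Finsupp.single 0 1 - a) *
          ∫ ω, s.mon p (Finsupp.single 0 1 - a) ω ∂s.ρ) := by
    have : ∀ ω, s.x ω * conj (Gp s B c P ω) =
        ∑ a ∈ B, ∑ p ∈ Pr P, (conj (c a) * (((Pr P).card : ℂ)⁻¹ *
          conj (g p) ^ deg (Finsupp.single 0 1 - a))) *
            s.mon p (Finsupp.single 0 1 - a) ω := by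
      intro ω
      unfold Gp
      rw [Finset.sum_comm]
      rw [map_mul, map_sum, map_inv₀, Complex.conj_natCast, Finset.mul_sum, Finset.mul_sum]
      refine Finset.sum_congr rfl fun p _ => ?_
      rw [map_sum, Finset.mul_sum, Finset.mul_sum]
      refine Finset.sum_congr rfl fun a _ => ?_
      rw [map_mul, map_mul, bsa_mon_sub, bsa_mon_single, bsa_deg_sub, bsa_deg_single,
        bsa_conj_zpow]
      ring
    simp_rw [this]
    rw [integral_finsetSum _ fun a _ => integrable_finsetSum _ fun (p : ℕ) _ =>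
      (bsa_mon_int s (p : ℤ) _).const_mul _]
    refine Finset.sum_congr rfl fun a _ => ?_
    rw [integral_finsetSum _ fun (p : ℕ) _ => (bsa_mon_int s (p : ℤ) _).const_mul _,
      Finset.mul_sum, Finset.mul_sum]
    refine Finset.sum_congr rfl fun p _ => ?_
    rw [integral_const_mul]
    ring
  have e3 : ‖(∫ ω, s.x ω * conj (∑ a ∈ B, c a * s.mon 1 a ω) ∂s.ρ) -
      ∫ ω, s.x ω * conj (Gp s B c P ω) ∂s.ρ‖ ≤ δ * ∑ a ∈ B, ‖c a‖ := by
    rw [e1, e2, ← Finset.sum_sub_distrib, Finset.mul_sum]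
    refine (norm_sum_le _ _).trans (Finset.sum_le_sum fun a ha => ?_)
    rw [← mul_sub, norm_mul, RCLike.norm_conj, mul_comm]
    apply mul_le_mul_of_nonneg_right _ (norm_nonneg _)
    apply bsa_avg s hP h
    unfold Bx
    exact Finset.mem_union_left _ (Finset.mem_image_of_mem _ ha)
  have e4 := (Complex.abs_re_le_norm _).trans e3
  rw [Complex.sub_re] at e4
  have := (abs_le.mp e4).2
  linarith

private theorem bsa_sq (s : Sys S μ g) (B : Finset (ℤ →₀ ℤ))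
    (c : (ℤ →₀ ℤ) → ℂ) (p : ℤ) (z : ℂ) (hz : ‖z‖ = 1) :
    ((∫ ω, ‖∑ a ∈ B, c a * z ^ (1 - deg a) * s.mon p a ω‖ ^ 2 ∂s.ρ : ℝ) : ℂ) =
      ∑ a ∈ B, ∑ b ∈ B, (c a * conj (c b)) *
        (conj z ^ deg (a - b) * ∫ ω, s.mon p (a - b) ω ∂s.ρ) := by
  have hz0 : z ≠ 0 := by
    intro h
    rw [h, norm_zero] at hz
    exact zero_ne_one hz
  have hzc : conj z = z⁻¹ := by
    rw [Complex.inv_def, Complex.normSq_eq_norm_sq, hz]
    simp
  rw [← integral_complex_ofReal]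
  have : ∀ ω, ((‖∑ a ∈ B, c a * z ^ (1 - deg a) * s.mon p a ω‖ ^ 2 : ℝ) : ℂ) =
      ∑ a ∈ B, ∑ b ∈ B, ((c a * conj (c b)) * conj z ^ deg (a - b)) * s.mon p (a - b) ω := by
    intro ω
    rw [Complex.ofReal_pow, ← Complex.mul_conj', map_sum, Finset.sum_mul_sum]
    refine Finset.sum_congr rfl fun a _ => Finset.sum_congr rfl fun b _ => ?_
    rw [map_mul, map_mul, bsa_conj_zpow, bsa_mon_sub, hzc]
    have : z ^ (1 - deg a) * z⁻¹ ^ (1 - deg b) = z⁻¹ ^ deg (a - b) := by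
      rw [inv_zpow', inv_zpow', ← zpow_add₀ hz0, bsa_deg_sub]
      congr 1
      ring
    rw [← this]
    ring
  simp_rw [this]
  rw [integral_finsetSum _ fun a _ => integrable_finsetSum _ fun b _ =>
      (bsa_mon_int s p _).const_mul _]
  refine Finset.sum_congr rfl fun a _ => ?_
  rw [integral_finsetSum _ fun b _ => (bsa_mon_int s p _).const_mul _]
  refine Finset.sum_congr rfl fun b _ => ?_
  rw [integral_const_mul]
  ring

private theorem bsa_jensen {ι : Type*} (A : Finset ι) (v : ι → ℂ) :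
    ‖(A.card : ℂ)⁻¹ * ∑ i ∈ A, v i‖ ^ 2 ≤ (A.card : ℝ)⁻¹ * ∑ i ∈ A, ‖v i‖ ^ 2 := by
  rcases A.eq_empty_or_nonempty with h | h
  · subst h
    simp
  have hc : (0 : ℝ) < A.card := by exact_mod_cast Finset.card_pos.mpr h
  rw [norm_mul, norm_inv, Complex.norm_natCast, mul_pow]
  have h1 : ‖∑ i ∈ A, v i‖ ^ 2 ≤ A.card * ∑ i ∈ A, ‖v i‖ ^ 2 := by
    calc ‖∑ i ∈ A, v i‖ ^ 2 ≤ (∑ i ∈ A, ‖v i‖) ^ 2 :=
          pow_le_pow_left₀ (norm_nonneg _) (norm_sum_le _ _) 2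
      _ ≤ A.card * ∑ i ∈ A, ‖v i‖ ^ 2 := sq_sum_le_card_mul_sum_sq
  calc ((A.card : ℝ)⁻¹) ^ 2 * ‖∑ i ∈ A, v i‖ ^ 2
      ≤ ((A.card : ℝ)⁻¹) ^ 2 * (A.card * ∑ i ∈ A, ‖v i‖ ^ 2) :=
        mul_le_mul_of_nonneg_left h1 (by positivity)
    _ = (A.card : ℝ)⁻¹ * ∑ i ∈ A, ‖v i‖ ^ 2 := by
        field_simp

private theorem bsa_sum_meas (s : Sys S μ g) (B : Finset (ℤ →₀ ℤ)) (c : (ℤ →₀ ℤ) → ℂ) (p : ℤ) :
    Measurable (fun ω => ∑ a ∈ B, c a * s.mon p a ω) :=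
  Finset.measurable_sum _ fun a _ => (mon_meas s p a).const_mul _

private theorem bsa_sum_int (s : Sys S μ g) (B : Finset (ℤ →₀ ℤ)) (c : (ℤ →₀ ℤ) → ℂ) (p : ℤ) :
    Integrable (fun ω => ‖∑ a ∈ B, c a * s.mon p a ω‖ ^ 2) s.ρ := by
  refine Integrable.mono' (integrable_const ((∑ a ∈ B, ‖c a‖) ^ 2))
    ((bsa_sum_meas s B c p).norm.pow_const 2).aestronglyMeasurable ?_
  refine Filter.Eventually.of_forall fun ω => ?_
  rw [Real.norm_of_nonneg (by positivity)]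
  apply pow_le_pow_left₀ (norm_nonneg _)
  refine (norm_sum_le _ _).trans (Finset.sum_le_sum fun a _ => ?_)
  rw [norm_mul, mon_norm, mul_one]

theorem bsa_norm (s : Sys S μ g) (hg : ∀ p, p.Prime → ‖g p‖ = 1) (B : Finset (ℤ →₀ ℤ))
    (c : (ℤ →₀ ℤ) → ℂ) {δ : ℝ} {P : ℕ} (hP : 1 ≤ P) (h : TaoAt s (Bx B) δ P) :
    ∫ ω, ‖Gp s B c P ω‖ ^ 2 ∂s.ρ ≤
      (∫ ω, ‖∑ a ∈ B, c a * s.mon 1 a ω‖ ^ 2 ∂s.ρ) + δ * (∑ a ∈ B, ‖c a‖) ^ 2 := by
  have i1 : ∀ p : ℕ, Integrable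
      (fun ω => ‖∑ a ∈ B, c a * g p ^ (1 - deg a) * s.mon p a ω‖ ^ 2) s.ρ :=
    fun p => bsa_sum_int s B (fun a => c a * g p ^ (1 - deg a)) p
  have e1 : ∫ ω, ‖Gp s B c P ω‖ ^ 2 ∂s.ρ ≤ ((Pr P).card : ℝ)⁻¹ *
      ∑ p ∈ Pr P, ∫ ω, ‖∑ a ∈ B, c a * g p ^ (1 - deg a) * s.mon p a ω‖ ^ 2 ∂s.ρ := by
    rw [← integral_finsetSum _ fun p _ => i1 p, ← integral_const_mul]
    refine integral_mono_of_nonneg (Filter.Eventually.of_forall fun ω => by positivity)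
      ((integrable_finsetSum _ fun p _ => i1 p).const_mul _)
      (Filter.Eventually.of_forall fun ω => ?_)
    exact bsa_jensen (Pr P) _
  refine e1.trans ?_
  have e2 : ((((Pr P).card : ℝ)⁻¹ * ∑ p ∈ Pr P,
      ∫ ω, ‖∑ a ∈ B, c a * g p ^ (1 - deg a) * s.mon p a ω‖ ^ 2 ∂s.ρ : ℝ) : ℂ) =
      ∑ a ∈ B, ∑ b ∈ B, (c a * conj (c b)) * (((Pr P).card : ℂ)⁻¹ * ∑ p ∈ Pr P,
        conj (g p) ^ deg (a - b) * ∫ ω, s.mon p (a - b) ω ∂s.ρ) := by
    push_cast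
    have : ∀ p ∈ Pr P, ((∫ ω, ‖∑ a ∈ B, c a * g p ^ (1 - deg a) * s.mon p a ω‖ ^ 2 ∂s.ρ : ℝ) : ℂ)
        = ∑ a ∈ B, ∑ b ∈ B, (c a * conj (c b)) *
        (conj (g p) ^ deg (a - b) * ∫ ω, s.mon p (a - b) ω ∂s.ρ) := by
      intro p hp
      have hp' : p.Prime := by
        unfold Pr at hp
        exact (Finset.mem_filter.mp hp).2
      exact bsa_sq s B c p (g p) (hg p hp')
    rw [Finset.sum_congr rfl this, Finset.sum_comm, Finset.mul_sum]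
    refine Finset.sum_congr rfl fun a _ => ?_
    rw [Finset.sum_comm, Finset.mul_sum]
    refine Finset.sum_congr rfl fun b _ => ?_
    rw [← Finset.mul_sum]
    ring
  have e3 : ((∫ ω, ‖∑ a ∈ B, c a * s.mon 1 a ω‖ ^ 2 ∂s.ρ : ℝ) : ℂ) =
      ∑ a ∈ B, ∑ b ∈ B, (c a * conj (c b)) * ∫ ω, s.mon 1 (a - b) ω ∂s.ρ := by
    have := bsa_sq s B c 1 1 (by simp)
    simpa using this
  have e4 : ‖((((Pr P).card : ℝ)⁻¹ * ∑ p ∈ Pr P,
      ∫ ω, ‖∑ a ∈ B, c a * g p ^ (1 - deg a) * s.mon p a ω‖ ^ 2 ∂s.ρ : ℝ) : ℂ) -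
      ((∫ ω, ‖∑ a ∈ B, c a * s.mon 1 a ω‖ ^ 2 ∂s.ρ : ℝ) : ℂ)‖ ≤ δ * (∑ a ∈ B, ‖c a‖) ^ 2 := by
    rw [e2, e3, ← Finset.sum_sub_distrib, sq, Finset.sum_mul_sum, Finset.mul_sum]
    refine (norm_sum_le _ _).trans (Finset.sum_le_sum fun a ha => ?_)
    rw [← Finset.sum_sub_distrib, Finset.mul_sum]
    refine (norm_sum_le _ _).trans (Finset.sum_le_sum fun b hb => ?_)
    rw [← mul_sub, norm_mul, norm_mul, RCLike.norm_conj, mul_comm δ, norm_sub_rev]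
    apply mul_le_mul_of_nonneg_left _ (by positivity)
    apply bsa_avg s hP h
    unfold Bx
    exact Finset.mem_union_right _ (Finset.mem_image.mpr
      ⟨(a, b), Finset.mem_product.mpr ⟨ha, hb⟩, rfl⟩)
  rw [← Complex.ofReal_sub, Complex.norm_real] at e4
  have := (abs_le.mp e4).2
  linarith

theorem mon_past (s : Sys S μ g) {J P p : ℕ} (hp : p ≤ 4 * P) (hp1 : 1 ≤ p) {a : ℤ →₀ ℤ}
    (ha : ∀ j ∈ a.support, -(J : ℤ) ≤ j ∧ j < 0) :
    StronglyMeasurable[MeasurableSpace.comap (s.past (4 * P * J)) inferInstance]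
      (s.mon p a) := by
  have key : ∀ j ∈ a.support, ∃ i : Fin (4 * P * J), ∀ ω,
      s.x ((s.T ^ ((p : ℤ) * j)) ω) = s.past (4 * P * J) ω i := by
    intro j hj
    obtain ⟨h1, h2⟩ := ha j hj
    obtain ⟨m, hm⟩ : ∃ m : ℕ, j = -(m : ℤ) := ⟨(-j).toNat, by omega⟩
    have hm1 : 1 ≤ m := by omega
    have hm2 : m ≤ J := by omega
    have hpm : 1 ≤ p * m := Nat.mul_pos hp1 hm1
    have hpm2 : p * m ≤ 4 * P * J := Nat.mul_le_mul hp hm2
    refine ⟨⟨p * m - 1, by omega⟩, fun ω => ?_⟩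
    unfold Sys.past
    have e : (s.T ^ ((p : ℤ) * j)) ω = (s.T.symm)^[p * m - 1 + 1] ω := by
      rw [Nat.sub_add_cancel hpm, hm]
      have : ((p : ℤ) * -(m : ℤ)) = -((p * m : ℕ) : ℤ) := by push_cast; ring
      rw [this, zpow_neg, zpow_natCast, ← inv_pow]
      rw [← Equiv.Perm.iterate_eq_pow]
      rfl
    rw [e]
  choose i hi using key
  have e : s.mon p a = (fun z : Fin (4 * P * J) → ℂ =>
      ∏ j ∈ a.support.attach, z (i j.1 j.2) ^ (a j.1)) ∘ s.past (4 * P * J) := by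
    funext ω
    unfold Sys.mon Finsupp.prod
    simp only [Function.comp]
    rw [← Finset.prod_attach]
    refine Finset.prod_congr rfl fun j _ => ?_
    rw [hi j.1 j.2]
  rw [e]
  apply Measurable.stronglyMeasurable
  refine Measurable.comp ?_ (comap_measurable _)
  exact Finset.measurable_prod _ fun j _ => (measurable_pi_apply _).pow_const _

end FHE
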