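import Pool.Agent.FHE.AZC

/-! DEN (~150 lines): the prediction `u J` is a limit in `L²` of trigonometric polynomials in the past.
`u J = W ∘ past J` with `W` measurable (factorisation of functions measurable for a comap), bounded
a.e.; the law `m` of `past J` lives on the compact set of `Fin J → ℂ` with all coordinates of modulus one
(or use `Fin J → Circle`). Continuous functions are dense in `L²(m)`
(`ContinuousMap.toLp_denseRange`/`MemLp.exists_boundedContinuous_eLpNorm_sub_le`), and the star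
subalgebra generated by the coordinates is dense in the continuous functions on the compact space
`Fin J → Circle` (`ContinuousMap.starSubalgebra_topologicalClosure_eq_top_of_separatesPoints`); its
elements are finite sums of monomials `∏ z_i^(k_i)`, `k_i : ℤ`. Coordinate `i : Fin J` is `x ∘ T^(-(i+1))`. -/

open MeasureTheory Filter Topology
open scoped ComplexConjugate

namespace FHE

variable {Y : Type} [MeasurableSpace Y] {S : Y → Y} {μ : Measure Y} {g : ℕ → ℂ}

/-- the torus -/
private def denK (J : ℕ) : Set (Fin J → ℂ) := Set.pi Set.univ (fun _ => Metric.sphere (0 : ℂ) 1)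

private theorem denK_compact (J : ℕ) : CompactSpace (denK J) :=
  isCompact_iff_compactSpace.mp (isCompact_univ_pi fun _ => isCompact_sphere _ _)

private theorem denK_norm {J : ℕ} (z : denK J) (i : Fin J) : ‖z.1 i‖ = 1 := by
  have := z.2 i (Set.mem_univ i)
  simpa using this

private theorem denK_ne {J : ℕ} (z : denK J) (i : Fin J) : z.1 i ≠ 0 := by
  intro h
  have := denK_norm z i
  rw [h, norm_zero] at this
  exact zero_ne_one this

private theorem denK_conj {J : ℕ} (z : denK J) (i : Fin J) : conj (z.1 i) = (z.1 i)⁻¹ := by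
  rw [Complex.inv_def, Complex.normSq_eq_norm_sq, denK_norm]
  simp

/-- monomials on the torus -/
private noncomputable def denM {J : ℕ} (n : Fin J → ℤ) : C(denK J, ℂ) where
  toFun z := ∏ i, z.1 i ^ n i
  continuous_toFun := continuous_finsetProd _ fun i _ =>
    ((continuous_apply i).comp continuous_subtype_val).zpow₀ _ fun z => Or.inl (denK_ne z i)

private theorem denM_apply {J : ℕ} (n : Fin J → ℤ) (z : denK J) : denM n z = ∏ i, z.1 i ^ n i :=
  rfl

private theorem denM_star {J : ℕ} (n : Fin J → ℤ) : star (denM n) = denM (-n) := by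
  ext z
  rw [ContinuousMap.star_apply, denM_apply, denM_apply, star_prod]
  refine Finset.prod_congr rfl fun i _ => ?_
  rw [RCLike.star_def, map_zpow₀, denK_conj]
  simp

private theorem denM_mul {J : ℕ} (n m : Fin J → ℤ) : denM n * denM m = denM (n + m) := by
  ext z
  rw [ContinuousMap.mul_apply, denM_apply, denM_apply, denM_apply, ← Finset.prod_mul_distrib]
  refine Finset.prod_congr rfl fun i _ => ?_
  rw [Pi.add_apply, zpow_add₀ (denK_ne z i)]

private noncomputable def denA (J : ℕ) : StarSubalgebra ℂ C(denK J, ℂ) where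
  toSubalgebra := Algebra.adjoin ℂ (Set.range denM)
  star_mem' := by
    change Algebra.adjoin ℂ (Set.range denM) ≤ star (Algebra.adjoin ℂ (Set.range denM))
    refine Algebra.adjoin_le ?_
    rintro _ ⟨n, rfl⟩
    refine Algebra.subset_adjoin ⟨-n, ?_⟩
    rw [denM_star]

private theorem denA_span (J : ℕ) :
    Subalgebra.toSubmodule (denA J).toSubalgebra = Submodule.span ℂ (Set.range denM) := by
  apply Algebra.adjoin_eq_span_of_subset
  refine Set.Subset.trans (fun x hx => ?_) Submodule.subset_span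
  refine Submonoid.closure_induction (motive := fun x _ => x ∈ Set.range denM) (fun _ h => h)
    ⟨0, ?_⟩ ?_ hx
  · ext z
    simp [denM_apply]
  · rintro _ _ _ _ ⟨m, rfl⟩ ⟨n, rfl⟩
    exact ⟨m + n, (denM_mul m n).symm⟩

private theorem denA_sep (J : ℕ) : (denA J).SeparatesPoints := by
  intro x y hxy
  have : ∃ i, x.1 i ≠ y.1 i := by
    by_contra h
    push Not at h
    exact hxy (Subtype.ext (funext h))
  obtain ⟨i, hi⟩ := this
  refine ⟨_, ⟨denM (Pi.single i 1), Algebra.subset_adjoin ⟨Pi.single i 1, rfl⟩, rfl⟩, ?_⟩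
  have key : ∀ z : denK J, denM (Pi.single i 1) z = z.1 i := by
    intro z
    rw [denM_apply, Finset.prod_eq_single i]
    · simp
    · intro j _ hj
      rw [Pi.single_eq_of_ne hj, zpow_zero]
    · intro h
      exact absurd (Finset.mem_univ i) h
  change denM (Pi.single i 1) x ≠ denM (Pi.single i 1) y
  rw [key, key]
  exact hi

/-- Stone-Weierstrass on the torus -/
private theorem den_sw {J : ℕ} (f : C(denK J, ℂ)) {ε : ℝ} (hε : 0 < ε) :
    ∃ (N : Finset (Fin J → ℤ)) (c : (Fin J → ℤ) → ℂ), ∀ z, ‖f z - ∑ n ∈ N, c n * denM n z‖ ≤ ε := by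
  have : CompactSpace (denK J) := denK_compact J
  have h1 : f ∈ closure (Submodule.span ℂ (Set.range (denM (J := J))) : Set C(denK J, ℂ)) := by
    have h2 := ContinuousMap.starSubalgebra_topologicalClosure_eq_top_of_separatesPoints _
      (denA_sep J)
    have h3 : f ∈ (denA J).topologicalClosure := by rw [h2]; trivial
    rw [← denA_span]
    exact h3
  obtain ⟨p, hp, hp2⟩ := Metric.mem_closure_iff.mp h1 ε hε
  obtain ⟨c, hc⟩ := Finsupp.mem_span_range_iff_exists_finsupp.mp hp
  refine ⟨c.support, c, fun z => ?_⟩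
  have e : p z = ∑ n ∈ c.support, c n * denM n z := by
    rw [← hc, Finsupp.sum, ContinuousMap.sum_apply]
    rfl
  rw [← e, ← dist_eq_norm]
  exact (ContinuousMap.dist_apply_le_dist z).trans hp2.le

private theorem den_shift (s : Sys S μ g) (i : ℕ) (ω : s.Ω) :
    (s.T ^ ((1 : ℤ) * (-((i : ℤ) + 1)))) ω = (s.T.symm)^[i + 1] ω := by
  have : ((1 : ℤ) * (-((i : ℤ) + 1))) = -((i + 1 : ℕ) : ℤ) := by push_cast; ring
  rw [this, zpow_neg, zpow_natCast, ← inv_pow, ← Equiv.Perm.iterate_eq_pow]
  rfl

private theorem den_ne (s : Sys S μ g) (ω : s.Ω) : s.x ω ≠ 0 := by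
  intro h
  have := s.nx ω
  rw [h, norm_zero] at this
  exact zero_ne_one this

/-- the exponent attached to a monomial on the torus -/
private noncomputable def denE {J : ℕ} (n : Fin J → ℤ) : ℤ →₀ ℤ :=
  ∑ i : Fin J, Finsupp.single (-(((i : ℕ) : ℤ) + 1)) (n i)

private theorem denE_supp {J : ℕ} (n : Fin J → ℤ) {j : ℤ} (hj : j ∈ (denE n).support) :
    -(J : ℤ) ≤ j ∧ j < 0 := by
  classical
  have h1 := Finsupp.support_finsetSum (hj)
  rw [Finset.mem_biUnion] at h1
  obtain ⟨i, _, hi⟩ := h1
  have h2 := Finsupp.support_single_subset hi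
  rw [Finset.mem_singleton] at h2
  have := i.2
  omega

private theorem denE_mon (s : Sys S μ g) {J : ℕ} (n : Fin J → ℤ) (ω : s.Ω) :
    s.mon 1 (denE n) ω = ∏ i, s.past J ω i ^ n i := by
  classical
  unfold denE
  have : ∀ A : Finset (Fin J), s.mon 1 (∑ i ∈ A, Finsupp.single (-(((i : ℕ) : ℤ) + 1)) (n i)) ω =
      ∏ i ∈ A, s.past J ω i ^ n i := by
    intro A
    induction A using Finset.induction_on with
    | empty => simp [Sys.mon]
    | insert i A hi ih =>
        rw [Finset.sum_insert hi, Finset.prod_insert hi, ← ih]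
        unfold Sys.mon
        rw [Finsupp.prod_add_index' (fun _ => zpow_zero _)
          (fun _ _ _ => zpow_add₀ (den_ne s _) _ _), Finsupp.prod_single_index (zpow_zero _),
          den_shift]
        rfl
  exact this Finset.univ

theorem den (s : Sys S μ g) (J : ℕ) {ε : ℝ} (hε : 0 < ε) :
    ∃ (B : Finset (ℤ →₀ ℤ)) (c : (ℤ →₀ ℤ) → ℂ),
      (∀ a ∈ B, ∀ j ∈ a.support, -(J : ℤ) ≤ j ∧ j < 0) ∧
      ∫ ω, ‖s.u J ω - ∑ a ∈ B, c a * s.mon 1 a ω‖ ^ 2 ∂s.ρ ≤ ε := by
  classical
  have : CompactSpace (denK J) := denK_compact J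
  -- the map to the torus
  let V : s.Ω → denK J := fun ω => ⟨s.past J ω, fun i _ => by
    rw [mem_sphere_zero_iff_norm]; exact s.nx _⟩
  have hV : Measurable V := (past_meas s J).subtype_mk
  obtain ⟨W, hW, hWu⟩ := (u_meas s J).exists_eq_measurable_comp
  let f : denK J → ℂ := fun z => W z.1
  have hf : StronglyMeasurable f := hW.comp_measurable measurable_subtype_coe
  have huf : ∀ ω, s.u J ω = f (V ω) := fun ω => congrFun hWu ω
  let m : Measure (denK J) := s.ρ.map V
  have hm : IsProbabilityMeasure m := Measure.isProbabilityMeasure_map hV.aemeasurable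
  have hfb : ∀ᵐ z ∂m, ‖f z‖ ≤ 1 := by
    rw [ae_map_iff hV.aemeasurable (measurableSet_le hf.measurable.norm measurable_const)]
    filter_upwards [u_norm s J] with ω h
    rw [← huf]
    exact h
  have hfL : MemLp f 2 m := MemLp.of_bound hf.aestronglyMeasurable 1 hfb
  set δ : ℝ := Real.sqrt ε / 2 with hδ
  have hδ0 : 0 < δ := by positivity
  obtain ⟨G, hG, hGm⟩ := hfL.exists_boundedContinuous_eLpNorm_sub_le (by simp)
    (ε := ENNReal.ofReal δ) (by simpa using hδ0)
  obtain ⟨N, c, hc⟩ := den_sw (J := J) ⟨G, G.continuous⟩ hδ0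
  let Q : denK J → ℂ := fun z => ∑ n ∈ N, c n * denM n z
  have hQc : Continuous Q := continuous_finsetSum _ fun n _ =>
    continuous_const.mul (denM n).continuous
  have hQ1 : eLpNorm ((G : denK J → ℂ) - Q) 2 m ≤ ENNReal.ofReal δ := by
    refine (eLpNorm_le_of_ae_bound (C := δ) (Filter.Eventually.of_forall fun z => hc z)).trans ?_
    simp
  have hQm : AEStronglyMeasurable Q m := hQc.aestronglyMeasurable
  have hQ2 : eLpNorm (f - Q) 2 m ≤ ENNReal.ofReal (Real.sqrt ε) := by
    have e : f - Q = (f - (G : denK J → ℂ)) + ((G : denK J → ℂ) - Q) := by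
      rw [sub_add_sub_cancel]
    rw [e]
    refine (eLpNorm_add_le (hf.aestronglyMeasurable.sub hGm.1) (hGm.1.sub hQm) (by norm_num)).trans
      ((add_le_add hG hQ1).trans ?_)
    rw [← ENNReal.ofReal_add hδ0.le hδ0.le]
    apply ENNReal.ofReal_le_ofReal
    rw [hδ]
    linarith
  have hQL : MemLp (f - Q) 2 m := ⟨hf.aestronglyMeasurable.sub hQm,
    hQ2.trans_lt ENNReal.ofReal_lt_top⟩
  have hint : ∫ z, ‖(f - Q) z‖ ^ 2 ∂m ≤ ε := by
    have h1 := hQL.eLpNorm_eq_integral_rpow_norm (by norm_num) (by norm_num)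
    rw [h1] at hQ2
    have h2 := (ENNReal.ofReal_le_ofReal_iff (Real.sqrt_nonneg ε)).mp hQ2
    simp only [ENNReal.toReal_ofNat] at h2
    have h3 : 0 ≤ ∫ z, ‖(f - Q) z‖ ^ (2 : ℝ) ∂m := integral_nonneg fun z => by positivity
    rw [Real.sqrt_eq_rpow, show ((2 : ℝ)⁻¹) = 1 / 2 by norm_num] at h2
    have h4 := (Real.rpow_le_rpow_iff h3 hε.le (by norm_num : (0 : ℝ) < 1 / 2)).mp h2
    simpa using h4
  refine ⟨N.image denE, fun a => ∑ n ∈ N with denE n = a, c n, ?_, ?_⟩
  · intro a ha j hj
    obtain ⟨n, _, rfl⟩ := Finset.mem_image.mp ha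
    exact denE_supp n hj
  · have e : ∀ ω, ∑ a ∈ N.image denE, (∑ n ∈ N with denE n = a, c n) * s.mon 1 a ω = Q (V ω) := by
      intro ω
      change _ = ∑ n ∈ N, c n * denM n (V ω)
      rw [← Finset.sum_fiberwise_of_maps_to (g := denE) (t := N.image denE)
        (fun n hn => Finset.mem_image_of_mem _ hn)]
      refine Finset.sum_congr rfl fun a _ => ?_
      rw [Finset.sum_mul]
      refine Finset.sum_congr rfl fun n hn => ?_
      rw [← (Finset.mem_filter.mp hn).2, denE_mon]
      rfl
    have e2 : ∫ ω, ‖s.u J ω - ∑ a ∈ N.image denE, (∑ n ∈ N with denE n = a, c n) *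
        s.mon 1 a ω‖ ^ 2 ∂s.ρ = ∫ z, ‖(f - Q) z‖ ^ 2 ∂m := by
      rw [integral_map hV.aemeasurable]
      · refine integral_congr_ae (Filter.Eventually.of_forall fun ω => ?_)
        simp only [e, huf, Pi.sub_apply]
      · exact ((hf.aestronglyMeasurable.sub hQm).norm.pow 2)
    rw [e2]
    exact hint

end FHE
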