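import Pool.Agent.FHE.AVA
import Pool.Agent.FHE.ALD

/-! GVA (~80 lines): dilated entries. With `K` an upper bound of the `ks` (all `≥ 1`):
`av M t (a ↦ Q (zipWith (·*·) ks a)) ≤ K^t av (K M) t Q` for `Q ≥ 0` (induction; `b ↦ k b` is injective
from `range M` to `range (K M)`), and `K M → ∞`. -/

open MeasureTheory Filter Topology
open scoped ComplexConjugate

namespace FHE

private theorem gva_bound (ks : List ℕ) : ∃ K : ℕ, 1 ≤ K ∧ ∀ k ∈ ks, k ≤ K := by
  induction ks with
  | nil => exact ⟨1, le_rfl, by simp⟩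
  | cons k t ih =>
    obtain ⟨K, h1, h2⟩ := ih
    refine ⟨K + k, by omega, ?_⟩
    intro x hx
    rcases List.mem_cons.1 hx with rfl | hx
    · omega
    · have := h2 x hx
      omega

private theorem gva_dil (K M : ℕ) (hK : 1 ≤ K) (ks : List ℕ) (hk : ∀ k ∈ ks, 1 ≤ k ∧ k ≤ K)
    (Q : List ℕ → ℝ) (hQ : ∀ t, 0 ≤ Q t) :
    av M ks.length (fun a => Q (List.zipWith (fun k b => k * b) ks a)) ≤
      (K : ℝ) ^ ks.length * av (K * M) ks.length Q := by
  induction ks generalizing Q with
  | nil => simp [av]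
  | cons k t ih =>
    have hk0 := hk k (by simp)
    have hK0 : (0 : ℝ) < (K : ℝ) := by exact_mod_cast hK
    have e1 : av M (k :: t).length (fun a => Q (List.zipWith (fun k b => k * b) (k :: t) a)) =
        (M : ℝ)⁻¹ * ∑ a ∈ Finset.range M,
          av M t.length (fun s => Q ((k * a) :: List.zipWith (fun k b => k * b) t s)) := rfl
    have e2 : av (K * M) (k :: t).length Q =
        ((K * M : ℕ) : ℝ)⁻¹ * ∑ b ∈ Finset.range (K * M),
          av (K * M) t.length (fun s => Q (b :: s)) := rfl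
    have h1 : ∑ a ∈ Finset.range M,
          av M t.length (fun s => Q ((k * a) :: List.zipWith (fun k b => k * b) t s)) ≤
        ∑ a ∈ Finset.range M,
          (K : ℝ) ^ t.length * av (K * M) t.length (fun s => Q ((k * a) :: s)) :=
      Finset.sum_le_sum fun a _ =>
        ih (fun x hx => hk x (by simp [hx])) (fun s => Q ((k * a) :: s)) fun s => hQ _
    have h2 : ∑ a ∈ Finset.range M,
          (K : ℝ) ^ t.length * av (K * M) t.length (fun s => Q ((k * a) :: s)) ≤
        ∑ b ∈ Finset.range (K * M),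
          (K : ℝ) ^ t.length * av (K * M) t.length (fun s => Q (b :: s)) := by
      have h3 : ∑ a ∈ Finset.range M,
            (K : ℝ) ^ t.length * av (K * M) t.length (fun s => Q ((k * a) :: s)) =
          ∑ b ∈ (Finset.range M).image (fun a => k * a),
            (K : ℝ) ^ t.length * av (K * M) t.length (fun s => Q (b :: s)) := by
        rw [Finset.sum_image]
        intro a _ b _ hab
        exact Nat.eq_of_mul_eq_mul_left hk0.1 hab
      rw [h3]
      refine Finset.sum_le_sum_of_subset_of_nonneg ?_ ?_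
      · intro b hb
        obtain ⟨a, ha, rfl⟩ := Finset.mem_image.1 hb
        refine Finset.mem_range.2 ?_
        calc k * a ≤ K * a := Nat.mul_le_mul_right _ hk0.2
          _ < K * M := Nat.mul_lt_mul_of_pos_left (Finset.mem_range.1 ha) hK
      · intro a _ _
        exact mul_nonneg (by positivity) (av_nonneg _ _ fun s _ => hQ (a :: s))
    rw [← Finset.mul_sum (Finset.range (K * M))] at h2
    rw [e1, e2]
    have hM0 : (0 : ℝ) ≤ (M : ℝ)⁻¹ := by positivity
    calc (M : ℝ)⁻¹ * ∑ a ∈ Finset.range M,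
          av M t.length (fun s => Q ((k * a) :: List.zipWith (fun k b => k * b) t s))
        ≤ (M : ℝ)⁻¹ * ((K : ℝ) ^ t.length *
            ∑ b ∈ Finset.range (K * M), av (K * M) t.length (fun s => Q (b :: s))) :=
          mul_le_mul_of_nonneg_left (h1.trans h2) hM0
      _ = (K : ℝ) ^ (k :: t).length * (((K * M : ℕ) : ℝ)⁻¹ *
            ∑ b ∈ Finset.range (K * M), av (K * M) t.length (fun s => Q (b :: s))) := by
          rw [List.length_cons, pow_succ, Nat.cast_mul, mul_inv]
          have : (K : ℝ) * (K : ℝ)⁻¹ = 1 := mul_inv_cancel₀ hK0.ne'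
          linear_combination (-((M : ℝ)⁻¹ * (K : ℝ) ^ t.length *
            ∑ b ∈ Finset.range (K * M), av (K * M) t.length (fun s => Q (b :: s)))) * this

theorem gva {Y : Type*} [MeasurableSpace Y] {S : Y → Y} {μ : Measure Y} {f : Y → ℂ}
    (ks : List ℕ) (hk : ∀ k ∈ ks, 1 ≤ k) (hN : NN S μ ks.length f) :
    Tendsto (fun M : ℕ => av M ks.length fun a =>
      ‖∫ v, dl S (List.zipWith (fun k b => k * b) ks a) f v ∂μ‖ ^ 2) atTop (𝓝 0) := by
  obtain ⟨K, hK, hKk⟩ := gva_bound ks
  have hN' : Tendsto (fun H : ℕ => av H ks.length (fun h => ‖∫ v, dl S h f v ∂μ‖ ^ 2)) atTop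
      (𝓝 (0 : ℝ)) := hN
  have hT : Tendsto (fun M : ℕ => K * M) atTop atTop :=
    tendsto_id.const_mul_atTop' (by omega)
  have h2 : Tendsto (fun M : ℕ => (K : ℝ) ^ ks.length *
      av (K * M) ks.length (fun h => ‖∫ v, dl S h f v ∂μ‖ ^ 2)) atTop (𝓝 0) := by
    have := (hN'.comp hT).const_mul ((K : ℝ) ^ ks.length)
    rwa [mul_zero] at this
  refine squeeze_zero (fun M => ?_) (fun M => ?_) h2
  · exact av_nonneg _ _ fun t _ => sq_nonneg _
  · exact gva_dil K M hK ks (fun k hk' => ⟨hk k hk', hKk k hk'⟩)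
      (fun h => ‖∫ v, dl S h f v ∂μ‖ ^ 2) fun t => sq_nonneg _

end FHE
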