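import Pool.Agent.FHE.Defs

/-! PRC (~120 lines): the number of primes in `[P, 4 P)`. Lower bound:
`∑_{p ∈ Pr P} log p = θ (4P - 1) - θ (P - 1) ≥ (4P-1) log 2 - log (4P) - 2 √(4P) log (4P) - P log 4`
(`Chebyshev.theta_ge`, `Chebyshev.theta_le_log4_mul_x`) `≥ P` for large `P`, and each term is at most
`log (4 P)`; for small `P` use Bertrand's postulate (`Nat.exists_prime_lt_and_le_two_mul`) and a small
constant. Upper bound: `card * log P ≤ θ (4P) ≤ 4 log 4 P` and `log (4P) ≤ 3 log P` for `P ≥ 2`. -/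

open MeasureTheory Filter Topology
open scoped ComplexConjugate

namespace FHE

theorem Pr_nonempty {P : ℕ} (hP : 1 ≤ P) : 1 ≤ (Pr P).card := by
  obtain ⟨p, hp, h1, h2⟩ := Nat.exists_prime_lt_and_le_two_mul P (by omega)
  refine Finset.card_pos.2 ⟨p, ?_⟩
  unfold Pr
  rw [Finset.mem_filter, Finset.mem_Ico]
  exact ⟨⟨h1.le, by omega⟩, hp⟩

private theorem prc_theta (n : ℕ) :
    Chebyshev.theta (n : ℝ) = ∑ p ∈ (Finset.range (n + 1)).filter Nat.Prime, Real.log p := by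
  rw [Chebyshev.theta_eq_sum_Icc]
  rw [Nat.floor_natCast]
  refine Finset.sum_congr ?_ fun _ _ => rfl
  ext p
  simp only [Finset.mem_filter, Finset.mem_Icc, Finset.mem_range]
  constructor
  · rintro ⟨h1, h2⟩; exact ⟨by omega, h2⟩
  · rintro ⟨h1, h2⟩; exact ⟨by omega, h2⟩

private theorem prc_log4 {P : ℕ} (hP : 2 ≤ P) :
    Real.log (4 * P) ≤ 3 * Real.log P := by
  have h2 : (2 : ℝ) ≤ P := by exact_mod_cast hP
  rw [Real.log_mul (by norm_num) (by linarith)]
  have h4 : Real.log 4 = 2 * Real.log 2 := by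
    rw [show (4 : ℝ) = 2 ^ 2 by norm_num, Real.log_pow]; norm_num
  have := Real.log_le_log (by norm_num) h2
  linarith

private theorem prc_sum_lower {P : ℕ} (hP : 1 ≤ P) :
    Chebyshev.theta ((4 * P - 1 : ℕ) : ℝ) - Chebyshev.theta (P : ℝ) ≤
      ∑ p ∈ Pr P, Real.log p := by
  rw [prc_theta, prc_theta, sub_le_iff_le_add]
  have hsub : (Finset.range (4 * P - 1 + 1)).filter Nat.Prime ⊆
      Pr P ∪ (Finset.range (P + 1)).filter Nat.Prime := by
    intro p hp
    rw [Finset.mem_filter, Finset.mem_range] at hp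
    rw [Finset.mem_union]
    unfold Pr
    rw [Finset.mem_filter, Finset.mem_filter, Finset.mem_Ico, Finset.mem_range]
    by_cases h : P ≤ p
    · left; exact ⟨⟨h, by omega⟩, hp.2⟩
    · right; exact ⟨by omega, hp.2⟩
  have hnn : ∀ p : ℕ, 0 ≤ Real.log (p : ℝ) := fun p => Real.log_natCast_nonneg p
  calc _ ≤ ∑ p ∈ Pr P ∪ (Finset.range (P + 1)).filter Nat.Prime, Real.log p :=
        Finset.sum_le_sum_of_subset_of_nonneg hsub fun p _ _ => hnn p
    _ ≤ _ := by
        rw [← Finset.sum_union_inter]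
        exact le_add_of_nonneg_right (Finset.sum_nonneg fun p _ => hnn p)

private theorem prc_sum_upper {P : ℕ} :
    ∑ p ∈ Pr P, Real.log p ≤ Real.log 4 * (4 * P) := by
  have h1 : ∑ p ∈ Pr P, Real.log p ≤ Chebyshev.theta ((4 * P : ℕ) : ℝ) := by
    rw [prc_theta]
    refine Finset.sum_le_sum_of_subset_of_nonneg ?_ fun p _ _ => Real.log_natCast_nonneg p
    intro p hp
    unfold Pr at hp
    rw [Finset.mem_filter, Finset.mem_Ico] at hp
    rw [Finset.mem_filter, Finset.mem_range]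
    exact ⟨by omega, hp.2⟩
  have h2 := Chebyshev.theta_le_log4_mul_x (x := ((4 * P : ℕ) : ℝ)) (by positivity)
  push_cast at h1 h2
  linarith

private theorem prc_big : ∃ P₀ : ℕ, 2 ≤ P₀ ∧ ∀ P : ℕ, P₀ ≤ P →
    (P : ℝ) ≤ ∑ p ∈ Pr P, Real.log p := by
  have hlo := (isLittleO_log_rpow_atTop (r := 1 / 2) (by norm_num)).def
    (show (0 : ℝ) < 1 / 80 by norm_num)
  rw [eventually_atTop] at hlo
  obtain ⟨X, hX⟩ := hlo
  refine ⟨max 3 (⌈X⌉₊ + 1), by omega, fun P hP => ?_⟩
  have hP3 : 3 ≤ P := le_trans (le_max_left _ _) hP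
  have hPX : X ≤ (P : ℝ) := by
    have h1 : ⌈X⌉₊ + 1 ≤ P := le_trans (le_max_right _ _) hP
    have h2 : X ≤ ⌈X⌉₊ := Nat.le_ceil X
    have h3 : ((⌈X⌉₊ + 1 : ℕ) : ℝ) ≤ P := by exact_mod_cast h1
    push_cast at h3
    linarith
  have hP3' : (3 : ℝ) ≤ P := by exact_mod_cast hP3
  have hlog : Real.log (4 * P) ≤ 1 / 80 * √(4 * P) := by
    have h := hX (4 * P) (by linarith)
    rw [← Real.sqrt_eq_rpow, Real.norm_eq_abs, Real.norm_eq_abs, abs_of_nonneg (Real.sqrt_nonneg _)] at h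
    exact le_trans (le_abs_self _) h
  have hge := Chebyshev.theta_ge (4 * P - 1)
  have hle := Chebyshev.theta_le_log4_mul_x (x := (P : ℝ)) (by linarith)
  have hs := prc_sum_lower (P := P) (by omega)
  have hc : ((4 * P - 1 : ℕ) : ℝ) = 4 * (P : ℝ) - 1 := by
    rw [Nat.cast_sub (by omega)]; push_cast; ring
  rw [hc] at hge hs
  have h4 : Real.log 4 = 2 * Real.log 2 := by
    rw [show (4 : ℝ) = 2 ^ 2 by norm_num, Real.log_pow]; norm_num
  rw [h4] at hle
  have hsq : √(4 * (P : ℝ)) * √(4 * (P : ℝ)) = 4 * P := Real.mul_self_sqrt (by linarith)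
  have hs1 : 1 ≤ √(4 * (P : ℝ)) := by
    rw [show (1 : ℝ) = √1 by simp]
    exact Real.sqrt_le_sqrt (by linarith)
  have hs2 : √(4 * (P : ℝ)) ≤ 4 * P := by nlinarith
  have hl1 : Real.log (4 * (P : ℝ) - 1) ≤ Real.log (4 * P) :=
    Real.log_le_log (by linarith) (by linarith)
  have hl0 : 0 ≤ Real.log (4 * (P : ℝ) - 1) := Real.log_nonneg (by linarith)
  have hs3 : √(4 * (P : ℝ) - 1) ≤ √(4 * (P : ℝ)) := Real.sqrt_le_sqrt (by linarith)
  have hm : √(4 * (P : ℝ) - 1) * Real.log (4 * (P : ℝ) - 1) ≤ 1 / 20 * P := by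
    calc √(4 * (P : ℝ) - 1) * Real.log (4 * (P : ℝ) - 1) ≤
        √(4 * (P : ℝ)) * Real.log (4 * P) :=
          mul_le_mul hs3 hl1 hl0 (Real.sqrt_nonneg _)
      _ ≤ √(4 * (P : ℝ)) * (1 / 80 * √(4 * P)) :=
          mul_le_mul_of_nonneg_left hlog (Real.sqrt_nonneg _)
      _ = 1 / 20 * P := by linear_combination (1 / 80) * hsq
  have hln : Real.log (4 * (P : ℝ) - 1 + 1) ≤ 1 / 20 * P := by
    rw [sub_add_cancel]; linarith
  have hl2 := Real.log_two_gt_d9
  have hge' : (4 * (P : ℝ) - 1) * Real.log 2 - 1 / 20 * P - 2 * (1 / 20 * P) ≤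
      Chebyshev.theta (4 * (P : ℝ) - 1) := by
    have e : 2 * √(4 * (P : ℝ) - 1) * Real.log (4 * (P : ℝ) - 1) =
      2 * (√(4 * (P : ℝ) - 1) * Real.log (4 * (P : ℝ) - 1)) := by ring
    rw [e] at hge
    linarith
  nlinarith

theorem Pr_lower : ∃ c : ℝ, 0 < c ∧ ∀ P : ℕ, 2 ≤ P → c * (P / Real.log P) ≤ (Pr P).card := by
  obtain ⟨P₀, hP₀, hbig⟩ := prc_big
  have hl2 : 0 < Real.log 2 := Real.log_pos (by norm_num)
  have hP₀' : (0 : ℝ) < P₀ := by
    have : (2 : ℝ) ≤ P₀ := by exact_mod_cast hP₀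
    linarith
  refine ⟨min (1 / 3) (Real.log 2 / P₀), lt_min (by norm_num) (by positivity), fun P hP => ?_⟩
  have h2 : (2 : ℝ) ≤ P := by exact_mod_cast hP
  have hlP : Real.log 2 ≤ Real.log P := Real.log_le_log (by norm_num) h2
  have hlP0 : 0 < Real.log P := by linarith
  have hnn : 0 ≤ (P : ℝ) / Real.log P := by positivity
  rcases le_or_gt P₀ P with h | h
  · have h1 := hbig P h
    have h3 : ∑ p ∈ Pr P, Real.log p ≤ (Pr P).card * Real.log (4 * P) := by
      rw [← nsmul_eq_mul]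
      refine Finset.sum_le_card_nsmul _ _ _ fun p hp => ?_
      unfold Pr at hp
      rw [Finset.mem_filter, Finset.mem_Ico] at hp
      have : (p : ℝ) ≤ 4 * P := by exact_mod_cast hp.1.2.le
      exact Real.log_le_log (by exact_mod_cast hp.2.pos) this
    have h4 := prc_log4 hP
    have hc : (0 : ℝ) ≤ (Pr P).card := Nat.cast_nonneg _
    have h5 : (P : ℝ) ≤ (Pr P).card * (3 * Real.log P) :=
      h1.trans (h3.trans (mul_le_mul_of_nonneg_left h4 hc))
    calc min (1 / 3) (Real.log 2 / P₀) * (P / Real.log P) ≤ 1 / 3 * (P / Real.log P) :=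
          mul_le_mul_of_nonneg_right (min_le_left _ _) hnn
      _ ≤ (Pr P).card := by
          rw [← mul_div_assoc, div_le_iff₀ hlP0]
          linarith
  · have h1 : (1 : ℝ) ≤ (Pr P).card := by exact_mod_cast Pr_nonempty (P := P) (by omega)
    refine le_trans ?_ h1
    have hPP : (P : ℝ) ≤ P₀ := by exact_mod_cast h.le
    calc min (1 / 3) (Real.log 2 / P₀) * (P / Real.log P) ≤
          Real.log 2 / P₀ * (P / Real.log P) :=
          mul_le_mul_of_nonneg_right (min_le_right _ _) hnn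
      _ = (Real.log 2 * P) / (P₀ * Real.log P) := by
          field_simp
      _ ≤ 1 := by
          rw [div_le_one (by positivity)]
          nlinarith

theorem Pr_upper : ∃ C : ℝ, 0 < C ∧ ∀ P : ℕ, 1 ≤ P →
    ((Pr P).card : ℝ) * Real.log (4 * P) ≤ C * P := by
  have hl4 : 0 < Real.log 4 := Real.log_pos (by norm_num)
  refine ⟨12 * Real.log 4, by positivity, fun P hP => ?_⟩
  rcases Nat.lt_or_ge P 2 with h | h
  · have hP1 : P = 1 := by omega
    subst hP1
    have hc : (Pr 1).card ≤ 3 := by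
      unfold Pr
      refine (Finset.card_filter_le _ _).trans ?_
      simp
    have hc' : ((Pr 1).card : ℝ) ≤ 3 := by exact_mod_cast hc
    simp only [Nat.cast_one, mul_one]
    nlinarith
  · have h2 : (2 : ℝ) ≤ P := by exact_mod_cast h
    have h3 : (Pr P).card * Real.log P ≤ ∑ p ∈ Pr P, Real.log p := by
      rw [← nsmul_eq_mul]
      refine Finset.card_nsmul_le_sum _ _ _ fun p hp => ?_
      unfold Pr at hp
      rw [Finset.mem_filter, Finset.mem_Ico] at hp
      have : (P : ℝ) ≤ p := by exact_mod_cast hp.1.1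
      exact Real.log_le_log (by linarith) this
    have h4 := prc_log4 h
    have h5 := prc_sum_upper (P := P)
    have hc : (0 : ℝ) ≤ (Pr P).card := Nat.cast_nonneg _
    have h6 := mul_le_mul_of_nonneg_left h4 hc
    nlinarith

/-- `1/p` is small on average -/
theorem Pr_inv {P : ℕ} (hP : 1 ≤ P) : ∑ p ∈ Pr P, (p : ℝ)⁻¹ ≤ (P : ℝ)⁻¹ * (Pr P).card := by
  rw [mul_comm, ← nsmul_eq_mul]
  refine Finset.sum_le_card_nsmul _ _ _ fun p hp => ?_
  unfold Pr at hp
  rw [Finset.mem_filter, Finset.mem_Ico] at hp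
  have h1 : (P : ℝ) ≤ p := by exact_mod_cast hp.1.1
  have h0 : (0 : ℝ) < P := by exact_mod_cast hP
  exact inv_anti₀ h0 h1

end FHE
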