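import Pool.Agent.FHE.SVD

/-! SVW (~150 lines): the number of pairs of cubes with prime vertices. Expand the square:
`(∑_{n<M} wc a ν n)² = ∑_{n,n'}` and `wc a ν n * wc a ν n'` is the indicator that all
`n + ω·a`, `n' + ω·a` (`ω ∈ {0,1}^t`) lie in `Pr P`, so `sm M t (..)` (`M = 4P`) is at most the number of
`(n, n', a) ∈ [0, 4P)^(t+2)` for which all `2^(t+1)` linear forms are primes in `[P, 4P)`. Apply `sv`
with `D = t + 2`, `m = 2^(t+1)` (index set `Bool × (Fin t → Bool)`), side `4P`; two different forms are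
independent: coordinates `n, n'` or (`ω ≠ ω'`) `n` and an `a_i`. -/

open MeasureTheory Filter Topology
open scoped ComplexConjugate

namespace FHE

private lemma svw_sum_cons {M t : ℕ} {E : Type*} [AddCommMonoid E] (F : (Fin (t + 1) → Fin M) → E) :
    ∑ x : Fin (t + 1) → Fin M, F x = ∑ a : Fin M, ∑ b : Fin t → Fin M, F (Fin.cons a b) := by
  rw [← Fintype.sum_prod_type']
  exact (Fintype.sum_equiv (Fin.consEquiv (fun _ => Fin M)) _ _ (fun z => rfl)).symm

private lemma svw_prod_cons {t : ℕ} {E : Type*} [CommMonoid E] (F : (Fin (t + 1) → Bool) → E) :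
    ∏ x : Fin (t + 1) → Bool, F x = ∏ a : Bool, ∏ b : Fin t → Bool, F (Fin.cons a b) := by
  rw [← Fintype.prod_prod_type']
  exact (Fintype.prod_equiv (Fin.consEquiv (fun _ => Bool)) _ _ (fun z => rfl)).symm

private lemma svw_sm (M t : ℕ) (Q : List ℕ → ℝ) :
    sm M t Q = ∑ a : Fin t → Fin M, Q (List.ofFn fun i => (a i : ℕ)) := by
  induction t generalizing Q with
  | zero => simp [sm]
  | succ t ih =>
    rw [svw_sum_cons]
    simp only [sm]
    rw [Finset.sum_range]
    refine Finset.sum_congr rfl fun a _ => ?_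
    rw [ih]
    refine Finset.sum_congr rfl fun b _ => ?_
    congr 1
    rw [List.ofFn_succ]
    simp

private lemma svw_wc (t : ℕ) (a : Fin t → ℕ) (ν : ℕ → ℝ) (n : ℕ) :
    wc (List.ofFn a) ν n = ∏ ω : Fin t → Bool, ν (n + ∑ i, (if ω i then 1 else 0) * a i) := by
  induction t generalizing ν with
  | zero => simp [wc]
  | succ t ih =>
    rw [List.ofFn_succ]
    simp only [wc]
    rw [ih, svw_prod_cons, Finset.prod_mul_distrib, Fintype.prod_bool, mul_comm]
    congr 1
    · refine Finset.prod_congr rfl fun ω _ => ?_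
      rw [Fin.sum_univ_succ]
      simp only [Fin.cons_zero, Fin.cons_succ, if_true, one_mul]
      congr 1
      ring
    · refine Finset.prod_congr rfl fun ω _ => ?_
      rw [Fin.sum_univ_succ]
      simp only [Fin.cons_zero, Fin.cons_succ]
      simp

/-- the forms -/
private def LamW (t : ℕ) : Bool × (Fin t → Bool) → Fin (t + 2) → ℕ := fun i =>
  Fin.cons (if i.1 then 0 else 1) (Fin.cons (if i.1 then 1 else 0)
    (fun k => if i.2 k then 1 else 0))

private lemma LamW_zero (t : ℕ) (i : Bool × (Fin t → Bool)) :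
    LamW t i 0 = if i.1 then 0 else 1 := rfl

private lemma LamW_one (t : ℕ) (i : Bool × (Fin t → Bool)) :
    LamW t i 1 = if i.1 then 1 else 0 := rfl

private lemma LamW_ss (t : ℕ) (i : Bool × (Fin t → Bool)) (k : Fin t) :
    LamW t i k.succ.succ = if i.2 k then 1 else 0 := rfl

private lemma LamW_ne (t : ℕ) (i : Bool × (Fin t → Bool)) : ∃ k, LamW t i k = 1 := by
  rcases h : i.1 with _ | _
  · exact ⟨0, by rw [LamW_zero, h]; rfl⟩
  · exact ⟨1, by rw [LamW_one, h]; rfl⟩

private lemma LamW_ind (t : ℕ) (i j : Bool × (Fin t → Bool)) (hij : i ≠ j) :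
    ∃ k l, (LamW t i k : ℤ) * LamW t j l - LamW t i l * LamW t j k = 1 := by
  obtain ⟨b, ω⟩ := i
  obtain ⟨b', ω'⟩ := j
  by_cases hb : b = b'
  · subst hb
    have hω : ω ≠ ω' := fun h => hij (by rw [h])
    obtain ⟨k, hk⟩ := Function.ne_iff.1 hω
    obtain ⟨c, hc1, hc2⟩ : ∃ c, LamW t (b, ω) c = 1 ∧ LamW t (b, ω') c = 1 := by
      rcases b with _ | _
      · exact ⟨0, rfl, rfl⟩
      · exact ⟨1, rfl, rfl⟩
    have h1 := LamW_ss t (b, ω) k
    have h2 := LamW_ss t (b, ω') k
    rcases hk1 : ω k with _ | _ <;> rcases hk2 : ω' k with _ | _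
    · exact absurd (hk1.trans hk2.symm) hk
    · refine ⟨c, k.succ.succ, ?_⟩
      rw [hc1, hc2, h1, h2]
      simp [hk1, hk2]
    · refine ⟨k.succ.succ, c, ?_⟩
      rw [hc1, hc2, h1, h2]
      simp [hk1, hk2]
    · exact absurd (hk1.trans hk2.symm) hk
  · rcases b with _ | _ <;> rcases b' with _ | _
    · exact absurd rfl hb
    · refine ⟨0, 1, ?_⟩
      simp [LamW_zero, LamW_one]
    · refine ⟨1, 0, ?_⟩
      simp [LamW_zero, LamW_one]
    · exact absurd rfl hb

private lemma LamW_lf (t M : ℕ) (i : Bool × (Fin t → Bool)) (n n' : Fin M) (a : Fin t → Fin M) :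
    lf (LamW t) i (fun k => ((Fin.cons n (Fin.cons n' a) : Fin (t + 2) → Fin M) k : ℕ)) =
      (if i.1 then (n' : ℕ) else n) + ∑ k, (if i.2 k then 1 else 0) * (a k : ℕ) := by
  unfold lf
  rw [Fin.sum_univ_succ, Fin.sum_univ_succ, ← add_assoc]
  congr 1
  rcases h : i.1 with _ | _
  · rw [LamW_zero, h]
    have : LamW t i (Fin.succ 0) = 0 := by
      have := LamW_one t i
      rw [h] at this
      exact this
    rw [this]
    simp
  · rw [LamW_zero, h]
    have : LamW t i (Fin.succ 0) = 1 := by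
      have := LamW_one t i
      rw [h] at this
      exact this
    rw [this]
    simp

theorem svw (t : ℕ) : ∃ C : ℝ, 0 < C ∧ ∀ P : ℕ, 2 ≤ P →
    sm (4 * P) t (fun a => (∑ n ∈ Finset.range (4 * P),
      wc a (fun n => if n ∈ Pr P then (1 : ℝ) else 0) n) ^ 2) ≤
      C * (P : ℝ) ^ (t + 2) / Real.log P ^ (2 ^ (t + 1)) := by
  classical
  obtain ⟨C, hC, hsv⟩ := sv (LamW t) (LamW_ne t) (LamW_ind t)
  refine ⟨C * 4 ^ (t + 2), by positivity, fun P hP => ?_⟩
  have hcard : Fintype.card (Bool × (Fin t → Bool)) = 2 ^ (t + 1) := by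
    simp [pow_succ, mul_comm]
  have h1 := hsv (4 * P) (by omega)
  rw [hcard] at h1
  have hP0 : (0 : ℝ) < P := by exact_mod_cast (by omega : 0 < P)
  have hlP : 0 < Real.log P := Real.log_pos (by exact_mod_cast (by omega : 1 < P))
  set M := 4 * P with hM
  set ν : ℕ → ℝ := fun n => if n ∈ Pr P then (1 : ℝ) else 0 with hν
  set Sx := (Finset.univ.filter fun x : Fin (t + 2) → Fin M =>
    ∀ i, (lf (LamW t) i (fun k => (x k : ℕ))).Prime ∧ M ≤ 4 * lf (LamW t) i (fun k => (x k : ℕ)))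
    with hSx
  have hν0 : ∀ n, 0 ≤ ν n := fun n => by
    simp only [hν]; split_ifs <;> norm_num
  have hν1 : ∀ n, ν n ≤ 1 := fun n => by
    simp only [hν]; split_ifs <;> norm_num
  have hνP : ∀ n, ν n ≠ 0 → n ∈ Pr P := fun n hn => by
    by_contra hcon
    exact hn (if_neg hcon)
  have hkey : sm M t (fun a => (∑ n ∈ Finset.range M, wc a ν n) ^ 2) ≤ Sx.card := by
    rw [svw_sm]
    have h2 : (Sx.card : ℝ) = ∑ n : Fin M, ∑ n' : Fin M, ∑ a : Fin t → Fin M,
        if (Fin.cons n (Fin.cons n' a) : Fin (t + 2) → Fin M) ∈ Sx then (1 : ℝ) else 0 := by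
      have h3 : (Sx.card : ℝ) = ∑ x : Fin (t + 2) → Fin M, if x ∈ Sx then (1 : ℝ) else 0 := by
        rw [Finset.sum_boole, Finset.filter_univ_mem]
      rw [h3, svw_sum_cons]
      refine Finset.sum_congr rfl fun n _ => ?_
      rw [svw_sum_cons]
    rw [h2]
    have h4 : ∀ a : Fin t → Fin M,
        (∑ n ∈ Finset.range M, wc (List.ofFn fun i => (a i : ℕ)) ν n) ^ 2 =
        ∑ n : Fin M, ∑ n' : Fin M,
          wc (List.ofFn fun i => (a i : ℕ)) ν n * wc (List.ofFn fun i => (a i : ℕ)) ν n' := by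
      intro a
      rw [sq, Finset.sum_range, Finset.sum_mul_sum]
    simp only [h4]
    rw [Finset.sum_comm]
    refine Finset.sum_le_sum fun n _ => ?_
    rw [Finset.sum_comm]
    refine Finset.sum_le_sum fun n' _ => Finset.sum_le_sum fun a _ => ?_
    rw [svw_wc, svw_wc]
    split_ifs with hx
    · have h5 : ∀ n : ℕ, ∏ ω : Fin t → Bool, ν (n + ∑ i, (if ω i then 1 else 0) * (a i : ℕ)) ≤ 1 :=
        fun n => Finset.prod_le_one (fun _ _ => hν0 _) fun _ _ => hν1 _
      exact mul_le_one₀ (h5 _) (Finset.prod_nonneg fun _ _ => hν0 _) (h5 _)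
    · apply le_of_eq
      have h6 : ∃ i : Bool × (Fin t → Bool),
          ν ((if i.1 then (n' : ℕ) else n) + ∑ k, (if i.2 k then 1 else 0) * (a k : ℕ)) = 0 := by
        by_contra hcon
        push Not at hcon
        refine hx (Finset.mem_filter.2 ⟨Finset.mem_univ _, fun i => ?_⟩)
        rw [LamW_lf]
        have h7 := hνP _ (hcon i)
        have h9 := Finset.mem_filter.1 h7
        refine ⟨h9.2, ?_⟩
        have h10 := (Finset.mem_Ico.1 h9.1).1
        omega
      obtain ⟨i, hi⟩ := h6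
      rcases hb : i.1 with _ | _
      · rw [hb] at hi
        have h11 : ∏ ω : Fin t → Bool,
            ν ((n : ℕ) + ∑ i, (if ω i then 1 else 0) * (a i : ℕ)) = 0 :=
          Finset.prod_eq_zero (Finset.mem_univ i.2) (by simpa using hi)
        rw [h11, zero_mul]
      · rw [hb] at hi
        have h11 : ∏ ω : Fin t → Bool,
            ν ((n' : ℕ) + ∑ i, (if ω i then 1 else 0) * (a i : ℕ)) = 0 :=
          Finset.prod_eq_zero (Finset.mem_univ i.2) (by simpa using hi)
        rw [h11, mul_zero]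
  refine hkey.trans (h1.trans ?_)
  have h12 : Real.log P ≤ Real.log M := by
    refine Real.log_le_log hP0 ?_
    rw [hM]; push_cast; linarith
  have h13 : Real.log P ^ (2 ^ (t + 1)) ≤ Real.log M ^ (2 ^ (t + 1)) :=
    pow_le_pow_left₀ hlP.le h12 _
  have h14 : (M : ℝ) ^ (t + 2) = 4 ^ (t + 2) * (P : ℝ) ^ (t + 2) := by
    rw [hM]; push_cast; rw [mul_pow]
  rw [h14, ← mul_assoc]
  exact div_le_div_of_nonneg_left (by positivity) (by positivity) h13

end FHE
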