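import Pool.Agent.FHE.GEB
import Pool.Agent.FHE.GVA
import Pool.Agent.FHE.SVW
import Pool.Agent.FHE.PRC

/-! GVN (~150 lines): averages over primes. `s.mon p a ω = gl T L p ω` with
`L = a.support.toList.map (fun j => (fun ω => x ω ^ a j, (-j).toNat))`, `t = L.length`, all entries `≥ 1`.
`geb` with `ν` the indicator of `Pr P`, `M = 4P` and `ψ = conj (f ∘ pi 1)`;
`‖∫ dl T l ψ dρ‖ = ‖∫ dl S l f dμ‖` (`dl_factor`, `dl_conj`, law of `pi 1`). Cauchy-Schwarz `sm_mul_le`, `svw`,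
`av_eq_sm` and `gva`: the right side is
`≤ C P^(2^t - 1 - t) (P^(t+2) / (log P)^(2^(t+1)))^(1/2) (o(1) P^t)^(1/2) = o(1) (P / log P)^(2^t)`, and
`card (Pr P) ≥ c P / log P` (`Pr_lower`). -/

open MeasureTheory Filter Topology
open scoped ComplexConjugate

namespace FHE

variable {Y : Type} [MeasurableSpace Y] {S : Y → Y} {μ : Measure Y} {g : ℕ → ℂ}

private theorem gvn_zpow_bd {X : Type*} [MeasurableSpace X] {x : X → ℂ} (hx : Measurable x)
    (hn : ∀ ω, ‖x ω‖ = 1) (k : ℤ) : Bd (fun ω => x ω ^ k) := by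
  refine ⟨?_, fun ω => ?_⟩
  · cases k with
    | ofNat n =>
      have : (fun ω => x ω ^ (Int.ofNat n)) = fun ω => x ω ^ n := by
        funext ω
        exact zpow_natCast _ _
      rw [this]
      exact hx.pow_const n
    | negSucc n =>
      have : (fun ω => x ω ^ (Int.negSucc n)) = fun ω => (x ω ^ (n + 1))⁻¹ := by
        funext ω
        exact zpow_negSucc _ _
      rw [this]
      exact (hx.pow_const (n + 1)).inv
  · rw [norm_zpow, hn, one_zpow]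

private theorem gvn_real {X c C d L P e : ℝ} {t u : ℕ} (hu : u + 1 + t = 2 ^ t)
    (hX : 0 ≤ X) {S : ℝ} (h1 : X ^ (2 ^ t) ≤ 2 ^ (2 ^ t) * (4 * P) ^ u * S)
    {A B : ℝ} (h2 : S ^ 2 ≤ A * B) (hA : A ≤ C * P ^ (t + 2) / L ^ (2 ^ (t + 1)))
    (hB : B = (4 * P) ^ t * d) (hd : 0 ≤ d) (hL : 0 < L) (hP : 0 < P) (hc : 0 < c)
    (he : 0 < e) {N : ℝ} (hN : c * (P / L) ≤ N)
    (hsmall : 2 ^ (2 ^ (t + 1)) * 4 ^ (2 * u + t) * C * d ≤ e ^ (2 ^ (t + 1)) * c ^ (2 ^ (t + 1))) :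
    X ≤ e * N := by
  have hPL : 0 < P / L := div_pos hP hL
  have hNpos : 0 ≤ N := le_trans (by positivity) hN
  refine le_of_pow_le_pow_left₀ (n := 2 ^ (t + 1)) (by positivity) (by positivity) ?_
  have hB0 : 0 ≤ B := by rw [hB]; positivity
  have hq : X ^ (2 ^ (t + 1)) = (X ^ (2 ^ t)) ^ 2 := by
    rw [← pow_mul]
    congr 1
  have h3 : (X ^ (2 ^ t)) ^ 2 ≤ (2 ^ (2 ^ t) * (4 * P) ^ u * S) ^ 2 :=
    pow_le_pow_left₀ (by positivity) h1 2
  have h4 : (2 ^ (2 ^ t) * (4 * P) ^ u * S) ^ 2 = (2 ^ (2 ^ t) * (4 * P) ^ u) ^ 2 * S ^ 2 := by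
    ring
  have h5 : S ^ 2 ≤ (C * P ^ (t + 2) / L ^ (2 ^ (t + 1))) * ((4 * P) ^ t * d) := by
    refine h2.trans ?_
    rw [← hB]
    exact mul_le_mul_of_nonneg_right hA hB0
  have h6 : (2 ^ (2 ^ t) * (4 * P) ^ u) ^ 2 *
      ((C * P ^ (t + 2) / L ^ (2 ^ (t + 1))) * ((4 * P) ^ t * d)) =
      (2 ^ (2 ^ (t + 1)) * 4 ^ (2 * u + t) * C * d) * (P / L) ^ (2 ^ (t + 1)) := by
    have e1 : 2 ^ (t + 1) = 2 * u + t + (t + 2) := by
      rw [pow_succ, ← hu]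
      ring
    have e2 : ((2 : ℝ) ^ (2 ^ t)) ^ 2 = 2 ^ (2 ^ (t + 1)) := by
      rw [← pow_mul]
      congr 1
    rw [div_pow, mul_pow, e2, mul_pow, mul_pow]
    have e3 : P ^ (2 ^ (t + 1)) = P ^ (2 * u) * P ^ t * P ^ (t + 2) := by
      rw [e1, pow_add, pow_add]
    have e4 : ((4 : ℝ) ^ u * P ^ u) ^ 2 = 4 ^ (2 * u) * P ^ (2 * u) := by
      rw [mul_pow, ← pow_mul, ← pow_mul, mul_comm u 2]
    rw [e3, pow_add (4 : ℝ) (2 * u) t]
    have e5 : (4 : ℝ) ^ (2 * u) = (4 ^ u) ^ 2 := by rw [← pow_mul, mul_comm u 2]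
    have e6 : P ^ (2 * u) = (P ^ u) ^ 2 := by rw [← pow_mul, mul_comm u 2]
    rw [e5, e6]
    field_simp
    rw [mul_pow]
    ring
  have h7 : (2 ^ (2 ^ (t + 1)) * 4 ^ (2 * u + t) * C * d) * (P / L) ^ (2 ^ (t + 1)) ≤
      (e * N) ^ (2 ^ (t + 1)) := by
    calc (2 ^ (2 ^ (t + 1)) * 4 ^ (2 * u + t) * C * d) * (P / L) ^ (2 ^ (t + 1)) ≤
        (e ^ (2 ^ (t + 1)) * c ^ (2 ^ (t + 1))) * (P / L) ^ (2 ^ (t + 1)) :=
          mul_le_mul_of_nonneg_right hsmall (by positivity)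
      _ = (e * (c * (P / L))) ^ (2 ^ (t + 1)) := by rw [mul_pow, mul_pow]; ring
      _ ≤ (e * N) ^ (2 ^ (t + 1)) :=
          pow_le_pow_left₀ (by positivity) (mul_le_mul_of_nonneg_left hN he.le) _
  calc X ^ (2 ^ (t + 1)) = (X ^ (2 ^ t)) ^ 2 := hq
    _ ≤ (2 ^ (2 ^ t) * (4 * P) ^ u) ^ 2 * S ^ 2 := by rw [← h4]; exact h3
    _ ≤ (2 ^ (2 ^ t) * (4 * P) ^ u) ^ 2 *
      ((C * P ^ (t + 2) / L ^ (2 ^ (t + 1))) * ((4 * P) ^ t * d)) :=
        mul_le_mul_of_nonneg_left h5 (by positivity)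
    _ = _ := h6
    _ ≤ _ := h7

private theorem gvn_mon (s : Sys S μ g) (a : ℤ →₀ ℤ) (ha : ∀ j ∈ a.support, j < 0) (p : ℕ)
    (ω : s.Ω) : s.mon p a ω =
      gl s.T (a.support.toList.map fun j => (fun ω => s.x ω ^ (a j), (-j).toNat)) p ω := by
  unfold Sys.mon gl Finsupp.prod
  rw [List.map_map, ← Finset.prod_map_toList]
  congr 1
  refine List.map_congr_left fun j hj => ?_
  have h1 := ha j (Finset.mem_toList.1 hj)
  show s.x ((s.T ^ ((p : ℤ) * j)) ω) ^ (a j) = s.x ((s.T ^ (-((p : ℤ) * ((-j).toNat : ℤ)))) ω) ^ (a j)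
  have h2 : (((-j).toNat : ℕ) : ℤ) = -j := Int.toNat_of_nonneg (by omega)
  rw [h2]
  congr 4
  ring

theorem gvn (s : Sys S μ g) (hS : Measurable S) {f : Y → ℂ} (hf : Bd f)
    (hN : ∀ d, NN S μ d f) (a : ℤ →₀ ℤ) (ha : ∀ j ∈ a.support, j < 0) {ε : ℝ} (hε : 0 < ε) :
    ∃ P₀ : ℕ, ∀ P ≥ P₀, ∑ p ∈ Pr P, ‖∫ ω, s.mon p a ω * conj (f (s.pi 1 ω)) ∂s.ρ‖ ≤
      ε * (Pr P).card := by
  classical
  set L : List ((s.Ω → ℂ) × ℕ) :=
    a.support.toList.map fun j => (fun ω => s.x ω ^ (a j), (-j).toNat) with hL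
  set t := L.length with ht
  set ks : List ℕ := L.map Prod.snd with hks
  have hksl : ks.length = t := by rw [hks, List.length_map]
  have hLb : ∀ gc ∈ L, Bd gc.1 := by
    intro gc hgc
    rw [hL, List.mem_map] at hgc
    obtain ⟨j, _, rfl⟩ := hgc
    exact gvn_zpow_bd s.mx s.nx _
  have hk1 : ∀ k ∈ ks, 1 ≤ k := by
    intro k hk
    rw [hks, hL, List.map_map, List.mem_map] at hk
    obtain ⟨j, hj, rfl⟩ := hk
    have h1 := ha j (Finset.mem_toList.1 hj)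
    show 1 ≤ (-j).toNat
    omega
  obtain ⟨C, hC, hsv⟩ := svw t
  obtain ⟨c, hc, hlow⟩ := Pr_lower
  have hgva := gva (μ := μ) (S := S) (f := f) ks hk1 (hN _)
  rw [hksl] at hgva
  set u := 2 ^ t - 1 - t with hu
  have hu' : u + 1 + t = 2 ^ t := by
    have : t < 2 ^ t := Nat.lt_two_pow_self
    omega
  -- smallness
  set η : ℝ := ε ^ (2 ^ (t + 1)) * c ^ (2 ^ (t + 1)) / (2 ^ (2 ^ (t + 1)) * 4 ^ (2 * u + t) * C)
    with hη
  have hη0 : 0 < η := by positivity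
  have hev := hgva.eventually (gt_mem_nhds hη0)
  obtain ⟨M₀, hM₀⟩ := eventually_atTop.1 hev
  refine ⟨max 2 M₀, fun P hP => ?_⟩
  have hP2 : 2 ≤ P := (le_max_left _ _).trans hP
  have hPM : M₀ ≤ 4 * P := by
    have := (le_max_right 2 M₀).trans hP
    omega
  set ν : ℕ → ℝ := fun n => if n ∈ Pr P then (1 : ℝ) else 0 with hν
  have hν0 : ∀ n, 0 ≤ ν n := by
    intro n
    simp only [hν]
    split_ifs <;> norm_num
  have hνM : ∀ n, 4 * P ≤ n → ν n = 0 := by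
    intro n hn
    simp only [hν]
    rw [if_neg]
    intro hmem
    unfold Pr at hmem
    rw [Finset.mem_filter, Finset.mem_Ico] at hmem
    omega
  set ψ : s.Ω → ℂ := fun ω => conj (f (s.pi 1 ω)) with hψ
  have hψb : Bd ψ := ⟨Complex.continuous_conj.measurable.comp (hf.meas.comp (s.mpi 1)),
    fun ω => by
      simp only [hψ]
      rw [Complex.norm_conj]
      exact hf.le _⟩
  have hgeb := geb s.mp s.mTs L hLb hψb hν0 hνM
  rw [← ht, ← hks, ← hu] at hgeb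
  -- the left side
  have hleft : ∑ n ∈ Finset.range (4 * P), ν n * ‖∫ ω, gl s.T L n ω * ψ ω ∂s.ρ‖ =
      ∑ p ∈ Pr P, ‖∫ ω, s.mon p a ω * conj (f (s.pi 1 ω)) ∂s.ρ‖ := by
    have h1 : Pr P ⊆ Finset.range (4 * P) := by
      intro n hn
      unfold Pr at hn
      rw [Finset.mem_filter, Finset.mem_Ico] at hn
      rw [Finset.mem_range]
      exact hn.1.2
    rw [← Finset.sum_subset h1]
    · refine Finset.sum_congr rfl fun p hp => ?_
      simp only [hν, hψ]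
      rw [if_pos hp, one_mul]
      congr 1
      refine integral_congr_ae (Eventually.of_forall fun ω => ?_)
      simp only []
      rw [gvn_mon s a ha p ω]
    · intro n _ hn
      simp only [hν]
      rw [if_neg hn, zero_mul]
  rw [hleft] at hgeb
  -- the derivative of ψ
  have hdl : ∀ l : List ℕ, ‖∫ ω, dl s.T l ψ ω ∂s.ρ‖ = ‖∫ v, dl S l f v ∂μ‖ := by
    intro l
    have h1 : dl s.T l ψ = fun ω => conj (dl s.T l (fun ω => f (s.pi 1 ω)) ω) :=
      dl_conj s.T l (fun ω => f (s.pi 1 ω))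
    have h2 := dl_factor s.mp (S := S) (q := s.pi 1) (Eventually.of_forall fun ω => by
      have := s.piT 1 ω
      simpa using this) l f
    rw [h1, integral_conj, Complex.norm_conj, integral_congr_ae h2]
    have h3 := s.law 1 le_rfl
    congr 1
    have h4 := integral_map (μ := s.ρ) h3.measurable.aemeasurable
      (f := dl S l f) (dl_bd hS l hf).meas.aestronglyMeasurable
    rw [h3.map_eq] at h4
    exact h4.symm
  simp only [hdl] at hgeb
  have hcs := sm_mul_le (4 * P) t (fun a => ∑ n ∈ Finset.range (4 * P), wc a ν n)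
    (fun a => ‖∫ v, dl S (List.zipWith (fun k b => k * b) ks a) f v ∂μ‖)
  have hav := av_eq_sm (H := 4 * P) t
    (fun a => ‖∫ v, dl S (List.zipWith (fun k b => k * b) ks a) f v ∂μ‖ ^ 2)
  have hPr : (0 : ℝ) < P := by
    have : 0 < P := by omega
    exact_mod_cast this
  have hlog : 0 < Real.log P := Real.log_pos (by
    have : 1 < P := by omega
    exact_mod_cast this)
  have hd0 : 0 ≤ av (4 * P) t
      (fun a => ‖∫ v, dl S (List.zipWith (fun k b => k * b) ks a) f v ∂μ‖ ^ 2) :=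
    av_nonneg _ _ fun _ _ => by positivity
  have hdη := hM₀ (4 * P) hPM
  refine gvn_real (t := t) (u := u) (C := C) (L := Real.log P) (P := (P : ℝ)) (c := c)
    (d := av (4 * P) t
      (fun a => ‖∫ v, dl S (List.zipWith (fun k b => k * b) ks a) f v ∂μ‖ ^ 2)) hu'
    (Finset.sum_nonneg fun _ _ => norm_nonneg _) (S := _) ?_ hcs (hsv P hP2) ?_ hd0 hlog hPr hc
    hε (hlow P hP2) ?_
  · have h1 : ((4 * P : ℕ) : ℝ) = 4 * (P : ℝ) := by push_cast; ring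
    rw [← h1]
    exact hgeb
  · rw [hav]
    have h1 : ((4 * P : ℕ) : ℝ) = 4 * (P : ℝ) := by push_cast; ring
    rw [h1, ← mul_assoc, mul_inv_cancel₀ (by positivity), one_mul]
  · have h1 : (2 ^ (2 ^ (t + 1)) * 4 ^ (2 * u + t) * C) * av (4 * P) t
        (fun a => ‖∫ v, dl S (List.zipWith (fun k b => k * b) ks a) f v ∂μ‖ ^ 2) ≤
        (2 ^ (2 ^ (t + 1)) * 4 ^ (2 * u + t) * C) * η :=
      mul_le_mul_of_nonneg_left hdη.le (by positivity)
    have h2 : (2 ^ (2 ^ (t + 1)) * 4 ^ (2 * u + t) * C) * η =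
        ε ^ (2 ^ (t + 1)) * c ^ (2 ^ (t + 1)) := by
      rw [hη]
      field_simp
    rw [← h2]
    exact h1

end FHE
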