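import Pool.Agent.FHE.TAC

/-! TAO (~120 lines): the identity of Tao at good scales. Given a finite set `B` of exponents, `δ`, `P₀`: `K`
bounds all supports; `ε` and `l` small depending on `δ` and `∑ |a j|`, `δ' := δ l / 4`; `tac` gives `P` (also
`P` large so that `C_a / P ≤ δ/4` for all `a ∈ B`, `C_a` from `dilT`). By `dilT` (`‖g p‖ = 1`)
`‖∫ mon 1 a - conj (g p)^deg a ∫ mon p a‖ ≤ C_a / p + ‖∫ ((if R_p = 0 then p else 0) - 1) mon p a‖`; sum over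
`p ∈ Pr P`, `tab`. -/

open MeasureTheory Filter Topology
open scoped ComplexConjugate

namespace FHE

variable {Y : Type} [MeasurableSpace Y] {S : Y → Y} {μ : Measure Y} {g : ℕ → ℂ}

private theorem tao_T_meas (s : Sys S μ g) (j : ℤ) : Measurable (fun ω => (s.T ^ j) ω) := by
  rcases j with n | n
  · have h : (fun ω => (s.T ^ (Int.ofNat n)) ω) = s.T^[n] := by
      funext ω
      rw [Int.ofNat_eq_natCast, zpow_natCast, ← Equiv.Perm.iterate_eq_pow]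
    rw [h]
    exact s.mT.iterate n
  · have h : (fun ω => (s.T ^ (Int.negSucc n)) ω) = s.T.symm^[n + 1] := by
      funext ω
      rw [zpow_negSucc, ← inv_pow, ← Equiv.Perm.iterate_eq_pow]
      rfl
    rw [h]
    exact s.mTs.iterate (n + 1)

private theorem tao_mon_meas (s : Sys S μ g) (p : ℤ) (a : ℤ →₀ ℤ) : Measurable (s.mon p a) := by
  unfold Sys.mon Finsupp.prod
  refine Finset.measurable_prod _ fun j _ => ?_
  exact (s.mx.comp (tao_T_meas s (p * j))).pow_const (a j)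

private theorem tao_mon_norm (s : Sys S μ g) (p : ℤ) (a : ℤ →₀ ℤ) (ω : s.Ω) :
    ‖s.mon p a ω‖ = 1 := by
  unfold Sys.mon Finsupp.prod
  rw [norm_prod]
  apply Finset.prod_eq_one
  intro j _
  rw [norm_zpow, s.nx, one_zpow]

private theorem tao_int (s : Sys S μ g) {w : s.Ω → ℂ} (hw : Measurable w) {B : ℝ}
    (hB : ∀ ω, ‖w ω‖ ≤ B) : Integrable w s.ρ :=
  Integrable.of_bound hw.aestronglyMeasurable B (Filter.Eventually.of_forall hB)

private theorem tao_one (s : Sys S μ g) (hg : ∀ p, p.Prime → ‖g p‖ = 1) (a : ℤ →₀ ℤ) {C : ℝ} {p : ℕ}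
    (hp : p.Prime)
    (hC : ‖(∫ ω, a.prod (fun j k => s.x ((s.T ^ j) ω) ^ k) ∂s.ρ) -
      conj (g p) ^ (a.sum fun _ k => k) *
        ∫ ω, (if s.R p ω = 0 then (p : ℂ) else 0) *
          a.prod (fun j k => s.x ((s.T ^ ((p : ℤ) * j)) ω) ^ k) ∂s.ρ‖ ≤ C / p) :
    ‖(∫ ω, s.mon 1 a ω ∂s.ρ) - conj (g p) ^ deg a * ∫ ω, s.mon p a ω ∂s.ρ‖ ≤
      C / p + ‖∫ ω, ((if s.R p ω = 0 then (p : ℂ) else 0) - 1) * s.mon p a ω ∂s.ρ‖ := by
  have h1 : (∫ ω, a.prod (fun j k => s.x ((s.T ^ j) ω) ^ k) ∂s.ρ) = ∫ ω, s.mon 1 a ω ∂s.ρ := by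
    unfold Sys.mon
    simp only [one_mul]
  rw [h1] at hC
  have hmm := tao_mon_meas s p a
  have hset : MeasurableSet {ω | s.R p ω = 0} := s.mR p (measurableSet_singleton 0)
  have hif : Measurable (fun ω => if s.R p ω = 0 then (p : ℂ) else 0) :=
    Measurable.ite hset measurable_const measurable_const
  have hI1 : Integrable (fun ω => (if s.R p ω = 0 then (p : ℂ) else 0) * s.mon p a ω) s.ρ := by
    refine tao_int s (hif.mul hmm) (B := p) fun ω => ?_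
    rw [norm_mul, tao_mon_norm, mul_one]
    split_ifs
    · simp
    · simp
  have hI2 : Integrable (s.mon p a) s.ρ :=
    tao_int s hmm (B := 1) fun ω => (tao_mon_norm s p a ω).le
  have h2 : (∫ ω, ((if s.R p ω = 0 then (p : ℂ) else 0) - 1) * s.mon p a ω ∂s.ρ) =
      (∫ ω, (if s.R p ω = 0 then (p : ℂ) else 0) * s.mon p a ω ∂s.ρ) - ∫ ω, s.mon p a ω ∂s.ρ := by
    rw [← integral_sub hI1 hI2]
    apply integral_congr_ae
    refine Filter.Eventually.of_forall fun ω => ?_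
    simp only
    ring
  have h3 : (∫ ω, (if s.R p ω = 0 then (p : ℂ) else 0) *
      a.prod (fun j k => s.x ((s.T ^ ((p : ℤ) * j)) ω) ^ k) ∂s.ρ) =
      ∫ ω, (if s.R p ω = 0 then (p : ℂ) else 0) * s.mon p a ω ∂s.ρ := rfl
  rw [h3] at hC
  have h4 : ‖conj (g p) ^ deg a‖ = 1 := by
    rw [norm_zpow, RCLike.norm_conj, hg p hp, one_zpow]
  have h5 : (∫ ω, s.mon 1 a ω ∂s.ρ) - conj (g p) ^ deg a * ∫ ω, s.mon p a ω ∂s.ρ =
      ((∫ ω, s.mon 1 a ω ∂s.ρ) - conj (g p) ^ (a.sum fun _ k => k) *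
        ∫ ω, (if s.R p ω = 0 then (p : ℂ) else 0) * s.mon p a ω ∂s.ρ) +
      conj (g p) ^ deg a * ∫ ω, ((if s.R p ω = 0 then (p : ℂ) else 0) - 1) * s.mon p a ω ∂s.ρ := by
    rw [h2]
    have : deg a = a.sum fun _ k => k := rfl
    rw [this]
    ring
  rw [h5]
  refine (norm_add_le _ _).trans ?_
  rw [norm_mul, h4, one_mul]
  linarith

theorem tao (s : Sys S μ g) (hg : ∀ p, p.Prime → ‖g p‖ = 1) (B : Finset (ℤ →₀ ℤ)) {δ : ℝ}
    (hδ : 0 < δ) (P₀ : ℕ) : ∃ P : ℕ, P₀ ≤ P ∧ 1 ≤ P ∧ ∀ a ∈ B,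
      ∑ p ∈ Pr P, ‖(∫ ω, s.mon 1 a ω ∂s.ρ) - conj (g p) ^ deg a * ∫ ω, s.mon p a ω ∂s.ρ‖ ≤
        δ * (Pr P).card := by
  choose C hC using s.dilT
  set Sb : ℝ := ∑ a ∈ B, a.sum fun _ k => |(k : ℝ)| with hSb
  have hS0 : ∀ a : ℤ →₀ ℤ, 0 ≤ a.sum fun _ k => |(k : ℝ)| := fun a =>
    Finset.sum_nonneg fun j _ => abs_nonneg _
  have hSb0 : 0 ≤ Sb := Finset.sum_nonneg fun a _ => hS0 a
  have hSle : ∀ a ∈ B, (a.sum fun _ k => |(k : ℝ)|) ≤ Sb := fun a ha =>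
    Finset.single_le_sum (f := fun a : ℤ →₀ ℤ => a.sum fun _ k => |(k : ℝ)|) (fun a _ => hS0 a) ha
  set C0 : ℝ := ∑ a ∈ B, |C a| with hC0
  have hC00 : 0 ≤ C0 := Finset.sum_nonneg fun a _ => abs_nonneg _
  have hCle : ∀ a ∈ B, C a ≤ C0 := fun a ha =>
    (le_abs_self _).trans (Finset.single_le_sum (f := fun a => |C a|) (fun a _ => abs_nonneg _) ha)
  obtain ⟨K, hK⟩ : ∃ K : ℕ, ∀ a ∈ B, ∀ j ∈ a.support, |j| ≤ (K : ℤ) := by
    refine ⟨∑ a ∈ B, ∑ j ∈ a.support, j.natAbs, fun a ha j hj => ?_⟩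
    have h1 : j.natAbs ≤ ∑ j ∈ a.support, j.natAbs :=
      Finset.single_le_sum (f := fun j : ℤ => j.natAbs) (fun _ _ => Nat.zero_le _) hj
    have h2 : (∑ j ∈ a.support, j.natAbs) ≤ ∑ a ∈ B, ∑ j ∈ a.support, j.natAbs :=
      Finset.single_le_sum (f := fun a : ℤ →₀ ℤ => ∑ j ∈ a.support, j.natAbs)
        (fun _ _ => Nat.zero_le _) ha
    have h3 : |j| = (j.natAbs : ℤ) := Int.abs_eq_natAbs j
    rw [h3]
    exact_mod_cast h1.trans h2
  set ε : ℝ := δ / (8 * (Sb + 1)) with hε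
  have hε0 : 0 < ε := by positivity
  set l : ℝ := δ / 18 with hl
  have hl0 : 0 < l := by positivity
  obtain ⟨m, q, c, hq, hc, hqc⟩ := qzt hε0
  obtain ⟨P, hP, inst, hI⟩ := tac s hq K (δ := δ * l / 4) (by positivity)
    (max P₀ (max 1 ⌈4 * C0 / δ⌉₊))
  have hP0 : P₀ ≤ P := (le_max_left _ _).trans hP
  have hP1 : 1 ≤ P := (le_max_left _ _).trans ((le_max_right _ _).trans hP)
  have hP2 : 4 * C0 / δ ≤ P := (Nat.le_ceil _).trans
    (by exact_mod_cast (le_max_right _ _).trans ((le_max_right _ _).trans hP))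
  have hPr : (0 : ℝ) < P := by exact_mod_cast hP1
  refine ⟨P, hP0, hP1, fun a ha => ?_⟩
  have htab := tab s hq hc hε0.le hqc K a (hK a ha) hP1 hl0
  have hcard : (0 : ℝ) ≤ (Pr P).card := Nat.cast_nonneg _
  have h1 : ∀ p ∈ Pr P, ‖(∫ ω, s.mon 1 a ω ∂s.ρ) - conj (g p) ^ deg a * ∫ ω, s.mon p a ω ∂s.ρ‖ ≤
      δ / 4 + ‖∫ ω, ((if s.R p ω = 0 then (p : ℂ) else 0) - 1) * s.mon p a ω ∂s.ρ‖ := by
    intro p hp
    unfold Pr at hp
    rw [Finset.mem_filter, Finset.mem_Ico] at hp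
    have h2 := tao_one s hg a hp.2 (hC a p hp.2)
    have h3 : C a / p ≤ δ / 4 := by
      have h4 : (P : ℝ) ≤ p := by exact_mod_cast hp.1.1
      have h5 : (0 : ℝ) < p := lt_of_lt_of_le hPr h4
      rw [div_le_iff₀ h5]
      rw [div_le_iff₀ hδ] at hP2
      have h6 := hCle a ha
      nlinarith
    linarith
  refine (Finset.sum_le_sum h1).trans ?_
  rw [Finset.sum_add_distrib, Finset.sum_const, nsmul_eq_mul]
  have h2 : (En s.ρ (Xb (fun ω => q (s.x ω)) s.T ((8 * K + 4) * P)) + En s.ρ (s.Rv (Pr P)) -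
        En s.ρ (fun ω => (Xb (fun ω => q (s.x ω)) s.T ((8 * K + 4) * P) ω, s.Rv (Pr P) ω))) / l ≤
      δ / 4 * (Pr P).card := by
    rw [div_le_iff₀ hl0]
    refine hI.trans (le_of_eq ?_)
    ring
  have h3 : 9 * l / 2 * ((Pr P).card : ℝ) = δ / 4 * (Pr P).card := by
    rw [hl]
    ring
  have h4 : 2 * (a.sum fun _ k => |(k : ℝ)|) * ε * ((Pr P).card : ℝ) ≤ δ / 4 * (Pr P).card := by
    apply mul_le_mul_of_nonneg_right _ hcard
    have h5 : 2 * (a.sum fun _ k => |(k : ℝ)|) * ε ≤ 2 * Sb * ε :=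
      mul_le_mul_of_nonneg_right (by linarith [hSle a ha]) hε0.le
    refine h5.trans ?_
    rw [hε, mul_div_assoc', div_le_div_iff₀ (by positivity) (by norm_num)]
    nlinarith
  linarith

end FHE
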