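import Pool.Agent.FHE.AZE
import Pool.Agent.FHE.TAO
import Pool.Agent.FHE.GVN
import Pool.Agent.FHE.DEN
import Pool.Agent.FHE.BSA

/-! BST (~200 lines): `x` is orthogonal to the functions of `π₁` which are null of all orders. Write
`v = f ∘ pi 1`. Let `0 < ε ≤ 1`. `u_stab` gives `J` with `∫ ‖u_k - u_J‖² ≤ ε²` for `k ≥ J`; then by `aze`
(average over `j < n`, the terms `j < J` are negligible) `‖∫ x conj v - ∫ u_J conj v‖ ≤ 2 ε` (say).
`den`: `B, c`, `Φ = ∑ c a mon 1 a` with `∫ ‖u_J - Φ‖² ≤ ε²`. `gvn` for each `a ∈ B` (tolerance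
`ε / (1 + ∑ ‖c‖)`) gives `P₀`; `tao` with `Bx B`, `δ = ε²/(1 + ∑ ‖c‖)²`, `P ≥ P₀`. Let `k = 4 P J` (`≥ J`) and
`G = Gp s B c P`. As `Φ` is measurable for `past J` and `G` for `past k` (`mon_past`, `u_orth`):
`re ∫ u_k conj G = re ∫ x conj G ≥ re ∫ x conj Φ - ε² = re ∫ u_J conj Φ - ε²`,
`∫ ‖G‖² ≤ ∫ ‖Φ‖² + ε²`, `∫ ‖u_k‖² ≤ ∫ ‖u_J‖² + ε²` (`u_diff`), so
`∫ ‖u_k - G‖² ≤ ∫ ‖u_J - Φ‖² + 4 ε² ≤ 5 ε²`. Hence
`‖∫ u_J conj v‖ ≤ ‖∫ u_k conj v‖ + ε ≤ ‖∫ G conj v‖ + 4 ε` and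
`‖∫ G conj v‖ ≤ ∑ ‖c a‖ card⁻¹ ∑_p ‖∫ mon p a conj v‖ ≤ ε`. Let `ε → 0`. -/

open MeasureTheory Filter Topology
open scoped ComplexConjugate

namespace FHE

variable {Y : Type} [MetricSpace Y] [CompactSpace Y] [MeasurableSpace Y] [BorelSpace Y]
  {S : Y → Y} {μ : Measure Y} {g : ℕ → ℂ}

private theorem bst_mon_past_one (s : Sys S μ g) {J : ℕ} {a : ℤ →₀ ℤ}
    (ha : ∀ j ∈ a.support, -(J : ℤ) ≤ j ∧ j < 0) :
    StronglyMeasurable[MeasurableSpace.comap (s.past J) inferInstance] (s.mon 1 a) := by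
  have h1 : ∀ j ∈ a.support, Measurable[MeasurableSpace.comap (s.past J) inferInstance]
      (fun ω => s.x ((s.T ^ j) ω) ^ (a j)) := by
    intro j hj
    obtain ⟨h2, h3⟩ := ha j hj
    obtain ⟨i, hi⟩ : ∃ i : ℕ, j = -((i : ℤ) + 1) := ⟨(-j - 1).toNat, by omega⟩
    have hiJ : i < J := by omega
    have h4 : (fun ω => s.x ((s.T ^ j) ω) ^ (a j)) =
        (fun p : Fin J → ℂ => (p ⟨i, hiJ⟩) ^ (a j)) ∘ s.past J := by
      funext ω
      simp only [Function.comp_apply, Sys.past]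
      congr 2
      rw [hi]
      have h5 : (s.T ^ (-((i : ℤ) + 1)) : Equiv.Perm s.Ω) = (s.T.symm) ^ (i + 1) := by
        rw [zpow_neg, ← inv_zpow]
        rw [show ((i : ℤ) + 1) = ((i + 1 : ℕ) : ℤ) by push_cast; ring, zpow_natCast]
        rfl
      rw [h5, Equiv.Perm.iterate_eq_pow]
    rw [h4]
    have h6 : Measurable (fun p : Fin J → ℂ => (p ⟨i, hiJ⟩) ^ (a j)) := by
      have h7 : Measurable (fun z : ℂ => z ^ (a j)) := by
        rcases Int.eq_nat_or_neg (a j) with ⟨m, hm | hm⟩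
        · rw [hm]
          simp only [zpow_natCast]
          exact (measurable_id : Measurable (id : ℂ → ℂ)).pow_const m
        · rw [hm]
          simp only [zpow_neg, zpow_natCast]
          exact ((measurable_id : Measurable (id : ℂ → ℂ)).pow_const m).inv
      exact h7.comp (measurable_pi_apply _)
    exact h6.comp (comap_measurable _)
  have h8 : s.mon 1 a = fun ω => ∏ j ∈ a.support, s.x ((s.T ^ j) ω) ^ (a j) := by
    funext ω
    simp only [Sys.mon, Finsupp.prod, one_mul]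
  rw [h8]
  exact (Finset.measurable_fun_prod _ h1).stronglyMeasurable

private theorem bst_int {Ω : Type} [MeasurableSpace Ω] {ρ : Measure Ω} [IsProbabilityMeasure ρ]
    {F : Ω → ℂ} {C : ℝ} (hF : AEStronglyMeasurable F ρ) (hC : ∀ᵐ ω ∂ρ, ‖F ω‖ ≤ C) :
    Integrable F ρ := Integrable.of_bound hF C hC

private theorem bst_int2 {Ω : Type} [MeasurableSpace Ω] {ρ : Measure Ω} [IsProbabilityMeasure ρ]
    {F : Ω → ℂ} {C : ℝ} (hF : AEStronglyMeasurable F ρ) (hC : ∀ᵐ ω ∂ρ, ‖F ω‖ ≤ C) :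
    Integrable (fun ω => ‖F ω‖ ^ 2) ρ := by
  refine Integrable.of_bound (hF.norm.pow 2) (C ^ 2) ?_
  filter_upwards [hC] with ω hω
  rw [Real.norm_eq_abs, abs_of_nonneg (by positivity)]
  exact pow_le_pow_left₀ (norm_nonneg _) hω 2

/-- expansion of the square -/
private theorem bst_sq {Ω : Type} [MeasurableSpace Ω] {ρ : Measure Ω} [IsProbabilityMeasure ρ]
    {F G : Ω → ℂ} {C D : ℝ} (hF : AEStronglyMeasurable F ρ) (hC : ∀ᵐ ω ∂ρ, ‖F ω‖ ≤ C)
    (hG : AEStronglyMeasurable G ρ) (hD : ∀ᵐ ω ∂ρ, ‖G ω‖ ≤ D) :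
    ∫ ω, ‖F ω - G ω‖ ^ 2 ∂ρ = (∫ ω, ‖F ω‖ ^ 2 ∂ρ) + (∫ ω, ‖G ω‖ ^ 2 ∂ρ) -
      2 * (∫ ω, F ω * conj (G ω) ∂ρ).re := by
  have hFG : Integrable (fun ω => F ω * conj (G ω)) ρ := by
    refine bst_int (C := C * D) (hF.mul (Complex.continuous_conj.comp_aestronglyMeasurable hG)) ?_
    filter_upwards [hC, hD] with ω h1 h2
    rw [norm_mul, RCLike.norm_conj]
    exact mul_le_mul h1 h2 (norm_nonneg _) ((norm_nonneg _).trans h1)
  have h1 : (∫ ω, F ω * conj (G ω) ∂ρ).re = ∫ ω, (F ω * conj (G ω)).re ∂ρ := by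
    have := Complex.reCLM.integral_comp_comm hFG
    simpa using this.symm
  have h2 : Integrable (fun ω => (F ω * conj (G ω)).re) ρ := hFG.re
  have e1 : ∫ ω, (‖F ω‖ ^ 2 + ‖G ω‖ ^ 2) ∂ρ = (∫ ω, ‖F ω‖ ^ 2 ∂ρ) + ∫ ω, ‖G ω‖ ^ 2 ∂ρ :=
    integral_add (bst_int2 hF hC) (bst_int2 hG hD)
  have e2 : ∫ ω, ((‖F ω‖ ^ 2 + ‖G ω‖ ^ 2) - 2 * (F ω * conj (G ω)).re) ∂ρ =
      (∫ ω, (‖F ω‖ ^ 2 + ‖G ω‖ ^ 2) ∂ρ) - ∫ ω, 2 * (F ω * conj (G ω)).re ∂ρ :=
    integral_sub ((bst_int2 hF hC).add (bst_int2 hG hD)) (h2.const_mul 2)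
  rw [h1, ← integral_const_mul, ← e1, ← e2]
  refine integral_congr_ae (Eventually.of_forall fun ω => ?_)
  simp only [Complex.sq_norm, Complex.normSq_sub]

/-- small in `L²` implies small correlation -/
private theorem bst_cs {Ω : Type} [MeasurableSpace Ω] {ρ : Measure Ω} [IsProbabilityMeasure ρ]
    {F v : Ω → ℂ} {C : ℝ} (hF : AEStronglyMeasurable F ρ) (hC : ∀ᵐ ω ∂ρ, ‖F ω‖ ≤ C)
    (hv1 : ∀ ω, ‖v ω‖ ≤ 1) {ε K : ℝ} (hε : 0 < ε)
    (h : ∫ ω, ‖F ω‖ ^ 2 ∂ρ ≤ K * ε ^ 2) : ‖∫ ω, F ω * conj (v ω) ∂ρ‖ ≤ (1 + K) / 2 * ε := by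
  have hi := bst_int2 hF hC
  have h1 : ‖∫ ω, F ω * conj (v ω) ∂ρ‖ ≤ ∫ ω, (ε / 2 + (2 * ε)⁻¹ * ‖F ω‖ ^ 2) ∂ρ := by
    refine norm_integral_le_of_norm_le ((integrable_const _).add (hi.const_mul _))
      (Eventually.of_forall fun ω => ?_)
    rw [norm_mul, RCLike.norm_conj]
    have h2 : ‖F ω‖ * ‖v ω‖ ≤ ‖F ω‖ := mul_le_of_le_one_right (norm_nonneg _) (hv1 ω)
    refine h2.trans ?_
    have h3 : 0 ≤ (2 * ε)⁻¹ * (ε - ‖F ω‖) ^ 2 := by positivity
    have h4 : (2 * ε)⁻¹ * (ε - ‖F ω‖) ^ 2 = ε / 2 + (2 * ε)⁻¹ * ‖F ω‖ ^ 2 - ‖F ω‖ := by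
      field_simp
      ring
    linarith
  refine h1.trans ?_
  rw [integral_add (integrable_const _) (hi.const_mul _), integral_const_mul]
  simp only [integral_const, probReal_univ, smul_eq_mul, one_mul]
  have h5 : (2 * ε)⁻¹ * ∫ ω, ‖F ω‖ ^ 2 ∂ρ ≤ (2 * ε)⁻¹ * (K * ε ^ 2) :=
    mul_le_mul_of_nonneg_left h (by positivity)
  have h6 : (2 * ε)⁻¹ * (K * ε ^ 2) = K / 2 * ε := by
    field_simp
  linarith

private theorem bst_eps (s : Sys S μ g) [IsProbabilityMeasure μ] (hS : Measurable S) (hZ : ZE S)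
    (hg : ∀ p, p.Prime → ‖g p‖ = 1) {f : Y → ℂ} (hf : Bd f) (hN : ∀ d, NN S μ d f)
    {ε : ℝ} (hε : 0 < ε) :
    ‖∫ ω, s.x ω * conj (f (s.pi 1 ω)) ∂s.ρ‖ ≤ 6 * ε := by
  have hv : AEStronglyMeasurable (fun ω => f (s.pi 1 ω)) s.ρ :=
    (hf.meas.comp (s.mpi 1)).aestronglyMeasurable
  have hv1 : ∀ ω, ‖f (s.pi 1 ω)‖ ≤ 1 := fun ω => hf.le _
  have hcv : AEStronglyMeasurable (fun ω => conj (f (s.pi 1 ω))) s.ρ :=
    Complex.continuous_conj.comp_aestronglyMeasurable hv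
  have hx : AEStronglyMeasurable s.x s.ρ := s.mx.aestronglyMeasurable
  have hx1 : ∀ᵐ ω ∂s.ρ, ‖s.x ω‖ ≤ 1 := Eventually.of_forall fun ω => (s.nx ω).le
  have hu : ∀ j, AEStronglyMeasurable (s.u j) s.ρ := fun j =>
    ((u_meas s j).mono (past_meas s j).comap_le).aestronglyMeasurable
  have hu1 := u_norm s
  have hmul : ∀ {F : s.Ω → ℂ} {C : ℝ}, AEStronglyMeasurable F s.ρ → (∀ᵐ ω ∂s.ρ, ‖F ω‖ ≤ C) →
      Integrable (fun ω => F ω * conj (f (s.pi 1 ω))) s.ρ := by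
    intro F C hF hC
    refine bst_int (C := C) (hF.mul hcv) ?_
    filter_upwards [hC] with ω h1
    rw [norm_mul, RCLike.norm_conj]
    exact (mul_le_of_le_one_right (norm_nonneg _) (hv1 ω)).trans h1
  obtain ⟨J, hJ⟩ := u_stab s (show (0 : ℝ) < ε ^ 2 by positivity)
  -- first part
  have hA : ‖(∫ ω, s.x ω * conj (f (s.pi 1 ω)) ∂s.ρ) -
      ∫ ω, s.u J ω * conj (f (s.pi 1 ω)) ∂s.ρ‖ ≤ ε := by
    set I := ∫ ω, s.x ω * conj (f (s.pi 1 ω)) ∂s.ρ with hI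
    set I' := ∫ ω, s.u J ω * conj (f (s.pi 1 ω)) ∂s.ρ with hI'
    have hterm : ∀ j, ∫ ω, (s.x ω - s.u j ω) * conj (f (s.pi 1 ω)) ∂s.ρ =
        (I - I') - ∫ ω, (s.u j ω - s.u J ω) * conj (f (s.pi 1 ω)) ∂s.ρ := by
      intro j
      have e1 : ∫ ω, (s.x ω - s.u j ω) * conj (f (s.pi 1 ω)) ∂s.ρ =
          I - ∫ ω, s.u j ω * conj (f (s.pi 1 ω)) ∂s.ρ := by
        rw [hI, ← integral_sub (hmul hx hx1) (hmul (hu j) (hu1 j))]
        refine integral_congr_ae (Eventually.of_forall fun ω => ?_)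
        ring
      have e2 : ∫ ω, (s.u j ω - s.u J ω) * conj (f (s.pi 1 ω)) ∂s.ρ =
          (∫ ω, s.u j ω * conj (f (s.pi 1 ω)) ∂s.ρ) - I' := by
        rw [hI', ← integral_sub (hmul (hu j) (hu1 j)) (hmul (hu J) (hu1 J))]
        refine integral_congr_ae (Eventually.of_forall fun ω => ?_)
        ring
      rw [e1, e2]
      ring
    have hd : ∀ j, ∀ᵐ ω ∂s.ρ, ‖s.u j ω - s.u J ω‖ ≤ 2 := by
      intro j
      filter_upwards [hu1 j, hu1 J] with ω h1 h2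
      exact (norm_sub_le _ _).trans (by linarith)
    have hsmall : ∀ j, J ≤ j → ‖∫ ω, (s.u j ω - s.u J ω) * conj (f (s.pi 1 ω)) ∂s.ρ‖ ≤ ε := by
      intro j hj
      have h1 := bst_cs (F := fun ω => s.u j ω - s.u J ω) (v := fun ω => f (s.pi 1 ω))
        (K := 1) ((hu j).sub (hu J)) (hd j) hv1 hε (by rw [one_mul]; exact hJ j hj)
      linarith
    have hbig : ∀ j, ‖∫ ω, (s.u j ω - s.u J ω) * conj (f (s.pi 1 ω)) ∂s.ρ‖ ≤ 2 := by
      intro j
      have h1 : ‖∫ ω, (s.u j ω - s.u J ω) * conj (f (s.pi 1 ω)) ∂s.ρ‖ ≤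
          2 * s.ρ.real Set.univ := by
        refine norm_integral_le_of_norm_le_const ?_
        filter_upwards [hd j] with ω h1
        rw [norm_mul, RCLike.norm_conj]
        exact (mul_le_of_le_one_right (norm_nonneg _) (hv1 ω)).trans h1
      simpa using h1
    have hsum : ∀ n : ℕ, ‖∑ j ∈ Finset.range n,
        ∫ ω, (s.u j ω - s.u J ω) * conj (f (s.pi 1 ω)) ∂s.ρ‖ ≤ 2 * J + n * ε := by
      intro n
      refine (norm_sum_le _ _).trans ?_
      have h1 : ∀ j ∈ Finset.range n, ‖∫ ω, (s.u j ω - s.u J ω) * conj (f (s.pi 1 ω)) ∂s.ρ‖ ≤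
          (if j < J then 2 else 0) + ε := by
        intro j _
        by_cases hj : j < J
        · rw [if_pos hj]
          linarith [hbig j]
        · rw [if_neg hj]
          linarith [hsmall j (not_lt.mp hj)]
      refine (Finset.sum_le_sum h1).trans ?_
      rw [Finset.sum_add_distrib]
      have h2 : ∑ j ∈ Finset.range n, (if j < J then (2 : ℝ) else 0) ≤ 2 * J := by
        rw [← Finset.sum_filter, Finset.sum_const, nsmul_eq_mul, mul_comm]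
        have h3 : ((Finset.range n).filter (fun j => j < J)).card ≤ J := by
          refine (Finset.card_le_card (t := Finset.range J) ?_).trans (Finset.card_range J).le
          intro j hj
          exact Finset.mem_range.mpr (Finset.mem_filter.mp hj).2
        have h4 : (((Finset.range n).filter (fun j => j < J)).card : ℝ) ≤ J := by exact_mod_cast h3
        linarith
      have h3 : ∑ _j ∈ Finset.range n, ε = n * ε := by simp
      linarith
    have haz := aze s hZ hf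
    have hlim : Tendsto (fun n : ℕ => (n : ℝ)⁻¹ * ‖∑ j ∈ Finset.range n,
        ∫ ω, (s.x ω - s.u j ω) * conj (f (s.pi 1 ω)) ∂s.ρ‖ + (2 * J * (n : ℝ)⁻¹ + ε)) atTop
        (𝓝 (0 + (2 * J * 0 + ε))) :=
      haz.add ((tendsto_inv_atTop_nhds_zero_nat.const_mul _).add tendsto_const_nhds)
    have hge : ∀ᶠ n : ℕ in atTop, ‖I - I'‖ ≤ (n : ℝ)⁻¹ * ‖∑ j ∈ Finset.range n,
        ∫ ω, (s.x ω - s.u j ω) * conj (f (s.pi 1 ω)) ∂s.ρ‖ + (2 * J * (n : ℝ)⁻¹ + ε) := by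
      filter_upwards [eventually_ge_atTop 1] with n hn
      have hn0 : (0 : ℝ) < n := by exact_mod_cast hn
      have h1 : (n : ℂ) * (I - I') = (∑ j ∈ Finset.range n,
          ∫ ω, (s.x ω - s.u j ω) * conj (f (s.pi 1 ω)) ∂s.ρ) + ∑ j ∈ Finset.range n,
          ∫ ω, (s.u j ω - s.u J ω) * conj (f (s.pi 1 ω)) ∂s.ρ := by
        rw [← Finset.sum_add_distrib]
        simp_rw [hterm]
        simp [mul_sub]
      have h2 : (n : ℝ) * ‖I - I'‖ ≤ ‖∑ j ∈ Finset.range n,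
          ∫ ω, (s.x ω - s.u j ω) * conj (f (s.pi 1 ω)) ∂s.ρ‖ + (2 * J + n * ε) := by
        have h3 : (n : ℝ) * ‖I - I'‖ = ‖(n : ℂ) * (I - I')‖ := by
          rw [norm_mul, Complex.norm_natCast]
        rw [h3, h1]
        exact (norm_add_le _ _).trans (by linarith [hsum n])
      have h4 : ‖I - I'‖ = (n : ℝ)⁻¹ * ((n : ℝ) * ‖I - I'‖) := by
        field_simp
      rw [h4]
      refine (mul_le_mul_of_nonneg_left h2 (by positivity)).trans (le_of_eq ?_)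
      field_simp
    have := ge_of_tendsto hlim hge
    linarith
  -- second part
  obtain ⟨B, c, hB, hΦ⟩ := den s J (show (0 : ℝ) < ε ^ 2 by positivity)
  set Sc := ∑ a ∈ B, ‖c a‖ with hSc
  have hSc0 : 0 ≤ Sc := Finset.sum_nonneg fun _ _ => norm_nonneg _
  have hP0 : ∃ P₀ : ℕ, ∀ a ∈ B, ∀ P ≥ P₀, ∑ p ∈ Pr P,
      ‖∫ ω, s.mon p a ω * conj (f (s.pi 1 ω)) ∂s.ρ‖ ≤ (ε / (1 + Sc)) * (Pr P).card := by
    have h1 : ∀ a ∈ B, ∃ P₀ : ℕ, ∀ P ≥ P₀, ∑ p ∈ Pr P,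
        ‖∫ ω, s.mon p a ω * conj (f (s.pi 1 ω)) ∂s.ρ‖ ≤ (ε / (1 + Sc)) * (Pr P).card :=
      fun a ha => gvn s hS hf hN a (fun j hj => (hB a ha j hj).2) (by positivity)
    choose! Q hQ using h1
    refine ⟨B.sup Q, fun a ha P hP => hQ a ha P ((Finset.le_sup ha).trans hP)⟩
  obtain ⟨P₀, hP₀⟩ := hP0
  set δ := ε ^ 2 / (1 + Sc) ^ 2 with hδ
  have hδ0 : 0 < δ := by positivity
  obtain ⟨P, hPP, hP1, hT⟩ := tao s hg (Bx B) hδ0 P₀
  have hTao : TaoAt s (Bx B) δ P := hT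
  have hcorr := bsa_corr s hg B c hP1 hTao
  have hnorm := bsa_norm s hg B c hP1 hTao
  set Φ : s.Ω → ℂ := fun ω => ∑ a ∈ B, c a * s.mon 1 a ω with hΦdef
  set G : s.Ω → ℂ := Gp s B c P with hGdef
  have hk : J ≤ 4 * P * J := Nat.le_mul_of_pos_left J (by omega)
  -- measurability and bounds
  have hΦS : StronglyMeasurable[MeasurableSpace.comap (s.past J) inferInstance] Φ := by
    have h1 : ∀ a ∈ B, StronglyMeasurable[MeasurableSpace.comap (s.past J) inferInstance]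
        (fun ω => c a * s.mon 1 a ω) := by
      intro a ha
      have h2 := bst_mon_past_one s (hB a ha)
      exact stronglyMeasurable_const.mul h2
    exact Finset.stronglyMeasurable_fun_sum B h1
  have hΦm : AEStronglyMeasurable Φ s.ρ := (hΦS.mono (past_meas s J).comap_le).aestronglyMeasurable
  have hΦb : ∀ ω, ‖Φ ω‖ ≤ Sc := by
    intro ω
    refine (norm_sum_le _ _).trans (Finset.sum_le_sum fun a _ => ?_)
    rw [norm_mul, mon_norm, mul_one]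
  have hGS : StronglyMeasurable[MeasurableSpace.comap (s.past (4 * P * J)) inferInstance] G := by
    have h1 : ∀ p ∈ Pr P, StronglyMeasurable[MeasurableSpace.comap (s.past (4 * P * J))
        inferInstance] (fun ω => ∑ a ∈ B, c a * g p ^ (1 - deg a) * s.mon p a ω) := by
      intro p hp
      have hp' := Finset.mem_Ico.mp (Finset.mem_filter.mp hp).1
      refine Finset.stronglyMeasurable_fun_sum B fun a ha => ?_
      exact stronglyMeasurable_const.mul (mon_past s (by omega) (by omega) (hB a ha))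
    exact stronglyMeasurable_const.mul (Finset.stronglyMeasurable_fun_sum (Pr P) h1)
  have hGm : AEStronglyMeasurable G s.ρ := (hGS.mono (past_meas s _).comap_le).aestronglyMeasurable
  have hterm : ∀ p ∈ Pr P, ∀ a, ‖c a * g p ^ (1 - deg a)‖ = ‖c a‖ := by
    intro p hp a
    have hpp := (Finset.mem_filter.mp hp).2
    rw [norm_mul, norm_zpow, hg p hpp, one_zpow, mul_one]
  have hGb : ∀ ω, ‖G ω‖ ≤ Sc := by
    intro ω
    have h1 : ‖∑ p ∈ Pr P, ∑ a ∈ B, c a * g p ^ (1 - deg a) * s.mon p a ω‖ ≤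
        (Pr P).card * Sc := by
      refine (norm_sum_le _ _).trans ?_
      rw [← nsmul_eq_mul, ← Finset.sum_const]
      refine Finset.sum_le_sum fun p hp => (norm_sum_le _ _).trans (Finset.sum_le_sum fun a _ => ?_)
      rw [norm_mul, hterm p hp a, mon_norm, mul_one]
    rw [hGdef]
    unfold Gp
    rw [norm_mul, norm_inv, Complex.norm_natCast]
    rcases Nat.eq_zero_or_pos (Pr P).card with h0 | h0
    · rw [h0]
      simpa using hSc0
    · have h2 : (0 : ℝ) < (Pr P).card := by exact_mod_cast h0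
      calc ((Pr P).card : ℝ)⁻¹ * ‖∑ p ∈ Pr P, ∑ a ∈ B, c a * g p ^ (1 - deg a) * s.mon p a ω‖
          ≤ ((Pr P).card : ℝ)⁻¹ * ((Pr P).card * Sc) :=
            mul_le_mul_of_nonneg_left h1 (by positivity)
        _ = Sc := by field_simp
  -- orthogonality
  have horth : ∀ (j : ℕ) (w : s.Ω → ℂ),
      StronglyMeasurable[MeasurableSpace.comap (s.past j) inferInstance] w →
      (∀ ω, ‖w ω‖ ≤ Sc) →
      ∫ ω, s.x ω * conj (w ω) ∂s.ρ = ∫ ω, s.u j ω * conj (w ω) ∂s.ρ := by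
    intro j w hw hwb
    have hwc : StronglyMeasurable[MeasurableSpace.comap (s.past j) inferInstance]
        (fun ω => conj (w ω)) := Complex.continuous_conj.comp_stronglyMeasurable hw
    have hwb' : ∀ ω, ‖conj (w ω)‖ ≤ Sc := fun ω => by rw [RCLike.norm_conj]; exact hwb ω
    have h1 := u_orth s j hwc (C := Sc) (Eventually.of_forall hwb')
    have hwm : AEStronglyMeasurable (fun ω => conj (w ω)) s.ρ :=
      (hwc.mono (past_meas s j).comap_le).aestronglyMeasurable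
    have i1 : Integrable (fun ω => s.x ω * conj (w ω)) s.ρ := by
      refine bst_int (C := 1 * Sc) (hx.mul hwm) ?_
      filter_upwards [hx1] with ω h1
      rw [norm_mul]
      exact mul_le_mul h1 (hwb' ω) (norm_nonneg _) zero_le_one
    have i2 : Integrable (fun ω => s.u j ω * conj (w ω)) s.ρ := by
      refine bst_int (C := 1 * Sc) ((hu j).mul hwm) ?_
      filter_upwards [hu1 j] with ω h1
      rw [norm_mul]
      exact mul_le_mul h1 (hwb' ω) (norm_nonneg _) zero_le_one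
    have h2 : ∫ ω, (s.x ω - s.u j ω) * conj (w ω) ∂s.ρ =
        (∫ ω, s.x ω * conj (w ω) ∂s.ρ) - ∫ ω, s.u j ω * conj (w ω) ∂s.ρ := by
      rw [← integral_sub i1 i2]
      refine integral_congr_ae (Eventually.of_forall fun ω => ?_)
      ring
    rw [h1] at h2
    exact (sub_eq_zero.mp h2.symm)
  have o1 := horth J Φ hΦS hΦb
  have o2 := horth (4 * P * J) G hGS hGb
  have q1 := bst_sq (hu J) (hu1 J) hΦm (Eventually.of_forall hΦb)
  have q2 := bst_sq (hu (4 * P * J)) (hu1 _) hGm (Eventually.of_forall hGb)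
  have q3 := u_diff s hk
  have q4 := hJ _ hk
  have hd1 : δ * Sc ≤ ε ^ 2 := by
    rw [hδ, div_mul_eq_mul_div, div_le_iff₀ (by positivity)]
    nlinarith [sq_nonneg ε, mul_nonneg (sq_nonneg ε) hSc0, mul_nonneg (sq_nonneg ε) (sq_nonneg Sc)]
  have hd2 : δ * Sc ^ 2 ≤ ε ^ 2 := by
    rw [hδ, div_mul_eq_mul_div, div_le_iff₀ (by positivity)]
    nlinarith [sq_nonneg ε, mul_nonneg (sq_nonneg ε) hSc0, mul_nonneg (sq_nonneg ε) (sq_nonneg Sc)]
  have hfin : ∫ ω, ‖s.u (4 * P * J) ω - G ω‖ ^ 2 ∂s.ρ ≤ 5 * ε ^ 2 := by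
    rw [q2]
    rw [o1] at hcorr
    rw [o2] at hcorr
    have q5 : ∫ ω, ‖s.u J ω - Φ ω‖ ^ 2 ∂s.ρ ≤ ε ^ 2 := hΦ
    rw [q1] at q5
    linarith
  have r1 := bst_cs (F := fun ω => s.u (4 * P * J) ω - G ω) (v := fun ω => f (s.pi 1 ω)) (K := 5)
    (C := 1 + Sc) ((hu _).sub hGm) (by
      filter_upwards [hu1 (4 * P * J)] with ω h1
      exact (norm_sub_le _ _).trans (add_le_add h1 (hGb ω))) hv1 hε hfin
  have r2 := bst_cs (F := fun ω => s.u (4 * P * J) ω - s.u J ω) (v := fun ω => f (s.pi 1 ω))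
    (K := 1) (C := 2) ((hu _).sub (hu J)) (by
      filter_upwards [hu1 (4 * P * J), hu1 J] with ω h1 h2
      exact (norm_sub_le _ _).trans (by linarith)) hv1 hε (by rw [one_mul]; exact q4)
  have r3 : ‖∫ ω, G ω * conj (f (s.pi 1 ω)) ∂s.ρ‖ ≤ ε := by
    have e1 : ∫ ω, G ω * conj (f (s.pi 1 ω)) ∂s.ρ = ((Pr P).card : ℂ)⁻¹ * ∑ p ∈ Pr P, ∑ a ∈ B,
        c a * g p ^ (1 - deg a) * ∫ ω, s.mon p a ω * conj (f (s.pi 1 ω)) ∂s.ρ := by
      have e2 : ∀ ω, G ω * conj (f (s.pi 1 ω)) = ((Pr P).card : ℂ)⁻¹ * ∑ p ∈ Pr P, ∑ a ∈ B,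
          c a * g p ^ (1 - deg a) * (s.mon p a ω * conj (f (s.pi 1 ω))) := by
        intro ω
        rw [hGdef]
        unfold Gp
        rw [mul_assoc, Finset.sum_mul]
        congr 1
        refine Finset.sum_congr rfl fun p _ => ?_
        rw [Finset.sum_mul]
        refine Finset.sum_congr rfl fun a _ => ?_
        ring
      simp_rw [e2]
      have hi : ∀ p ∈ Pr P, ∀ a ∈ B, Integrable (fun ω => c a * g p ^ (1 - deg a) *
          (s.mon p a ω * conj (f (s.pi 1 ω)))) s.ρ := fun p _ a _ =>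
        (hmul (C := 1) (mon_meas s p a).aestronglyMeasurable
          (Eventually.of_forall fun ω => (mon_norm s p a ω).le)).const_mul _
      rw [integral_const_mul, integral_finsetSum _ fun p hp => integrable_finsetSum _ (hi p hp)]
      congr 1
      refine Finset.sum_congr rfl fun p hp => ?_
      rw [integral_finsetSum _ (hi p hp)]
      refine Finset.sum_congr rfl fun a _ => ?_
      rw [integral_const_mul]
    rw [e1, norm_mul, norm_inv, Complex.norm_natCast]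
    have e3 : ‖∑ p ∈ Pr P, ∑ a ∈ B, c a * g p ^ (1 - deg a) *
        ∫ ω, s.mon p a ω * conj (f (s.pi 1 ω)) ∂s.ρ‖ ≤ (Pr P).card * ε := by
      calc ‖∑ p ∈ Pr P, ∑ a ∈ B, c a * g p ^ (1 - deg a) *
            ∫ ω, s.mon p a ω * conj (f (s.pi 1 ω)) ∂s.ρ‖
          ≤ ∑ p ∈ Pr P, ∑ a ∈ B, ‖c a‖ * ‖∫ ω, s.mon p a ω * conj (f (s.pi 1 ω)) ∂s.ρ‖ := by
            refine (norm_sum_le _ _).trans (Finset.sum_le_sum fun p hp =>
              (norm_sum_le _ _).trans (Finset.sum_le_sum fun a _ => ?_))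
            rw [norm_mul, hterm p hp a]
        _ = ∑ a ∈ B, ‖c a‖ * ∑ p ∈ Pr P, ‖∫ ω, s.mon p a ω * conj (f (s.pi 1 ω)) ∂s.ρ‖ := by
            rw [Finset.sum_comm]
            simp_rw [Finset.mul_sum]
        _ ≤ ∑ a ∈ B, ‖c a‖ * ((ε / (1 + Sc)) * (Pr P).card) :=
            Finset.sum_le_sum fun a ha =>
              mul_le_mul_of_nonneg_left (hP₀ a ha P hPP) (norm_nonneg _)
        _ = Sc * ((ε / (1 + Sc)) * (Pr P).card) := by rw [← Finset.sum_mul]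
        _ = (Pr P).card * (ε * (Sc / (1 + Sc))) := by
            field_simp
        _ ≤ (Pr P).card * ε := by
            refine mul_le_mul_of_nonneg_left ?_ (Nat.cast_nonneg _)
            refine mul_le_of_le_one_right hε.le ?_
            rw [div_le_one (by positivity)]
            linarith
    rcases Nat.eq_zero_or_pos (Pr P).card with h0 | h0
    · rw [h0]
      simp only [Nat.cast_zero, inv_zero, zero_mul]
      exact hε.le
    · have h2 : (0 : ℝ) < (Pr P).card := by exact_mod_cast h0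
      calc ((Pr P).card : ℝ)⁻¹ * ‖_‖ ≤ ((Pr P).card : ℝ)⁻¹ * ((Pr P).card * ε) :=
            mul_le_mul_of_nonneg_left e3 (by positivity)
        _ = ε := by field_simp
  -- combination
  have hcomb : (∫ ω, s.x ω * conj (f (s.pi 1 ω)) ∂s.ρ) =
      ((∫ ω, s.x ω * conj (f (s.pi 1 ω)) ∂s.ρ) - ∫ ω, s.u J ω * conj (f (s.pi 1 ω)) ∂s.ρ) +
      ((∫ ω, (s.u (4 * P * J) ω - G ω) * conj (f (s.pi 1 ω)) ∂s.ρ) -
      (∫ ω, (s.u (4 * P * J) ω - s.u J ω) * conj (f (s.pi 1 ω)) ∂s.ρ) +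
      ∫ ω, G ω * conj (f (s.pi 1 ω)) ∂s.ρ) := by
    have i1 := hmul (hu J) (hu1 J)
    have i2 := hmul (hu (4 * P * J)) (hu1 _)
    have i3 := hmul hGm (Eventually.of_forall hGb)
    have e1 : ∫ ω, (s.u (4 * P * J) ω - G ω) * conj (f (s.pi 1 ω)) ∂s.ρ =
        (∫ ω, s.u (4 * P * J) ω * conj (f (s.pi 1 ω)) ∂s.ρ) -
        ∫ ω, G ω * conj (f (s.pi 1 ω)) ∂s.ρ := by
      rw [← integral_sub i2 i3]
      refine integral_congr_ae (Eventually.of_forall fun ω => ?_)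
      ring
    have e2 : ∫ ω, (s.u (4 * P * J) ω - s.u J ω) * conj (f (s.pi 1 ω)) ∂s.ρ =
        (∫ ω, s.u (4 * P * J) ω * conj (f (s.pi 1 ω)) ∂s.ρ) -
        ∫ ω, s.u J ω * conj (f (s.pi 1 ω)) ∂s.ρ := by
      rw [← integral_sub i2 i1]
      refine integral_congr_ae (Eventually.of_forall fun ω => ?_)
      ring
    rw [e1, e2]
    ring
  rw [hcomb]
  refine (norm_add_le _ _).trans ?_
  have t1 := norm_add_le ((∫ ω, (s.u (4 * P * J) ω - G ω) * conj (f (s.pi 1 ω)) ∂s.ρ) -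
      (∫ ω, (s.u (4 * P * J) ω - s.u J ω) * conj (f (s.pi 1 ω)) ∂s.ρ))
      (∫ ω, G ω * conj (f (s.pi 1 ω)) ∂s.ρ)
  have t2 := norm_sub_le (∫ ω, (s.u (4 * P * J) ω - G ω) * conj (f (s.pi 1 ω)) ∂s.ρ)
      (∫ ω, (s.u (4 * P * J) ω - s.u J ω) * conj (f (s.pi 1 ω)) ∂s.ρ)
  linarith

theorem bst (s : Sys S μ g) [IsProbabilityMeasure μ] (hS : Measurable S) (hZ : ZE S)
    (hg : ∀ p, p.Prime → ‖g p‖ = 1) {f : Y → ℂ} (hf : Bd f) (hN : ∀ d, NN S μ d f) :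
    ∫ ω, s.x ω * conj (f (s.pi 1 ω)) ∂s.ρ = 0 := by
  by_contra hne
  have h0 : 0 < ‖∫ ω, s.x ω * conj (f (s.pi 1 ω)) ∂s.ρ‖ := norm_pos_iff.mpr hne
  have h1 := bst_eps s hS hZ hg hf hN
    (show 0 < ‖∫ ω, s.x ω * conj (f (s.pi 1 ω)) ∂s.ρ‖ / 12 by positivity)
  linarith

end FHE
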