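import Pool.Agent.FHE.Defs

/-! CHN (~150 lines): the entropy decrement as a statement on real sequences. Suppose the conclusion
fails: `I P > δ w P ≥ δ c P / log P` for all `P ≥ P₀` (`P₀ ≥ 2`). Put `h P := H (K P) / (K P) ≥ 0`. For `n ≥ 1`:
`h (n P) ≤ h P - I P / (K P) + R P / (n K P) ≤ h P - δ c / (K log P) + C / (n K)`, so
`h (n P) ≤ h P - δ c / (2 K log P)` if `n ≥ B log P`, `B := 2 C / (δ c)`. Stage `k = 0, 1, ...`: multiply
`2^k` times by `n = A 4^k`. After stage `k`, `log P ≤ log P₀ + 2^(k+1) (k log 4 + log A)`, so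
`A 4^k ≥ B log P` always, for a suitable `A`; stage `k` decreases `h` by at least
`2^k δ c / (2 K (log P₀ + 2^(k+1) (k log 4 + log A))) ≥ c' / (k+1)`; the harmonic series diverges. -/

open MeasureTheory Filter Topology
open scoped ComplexConjugate

namespace FHE

theorem chain {H I R w : ℕ → ℝ} {K : ℕ} (hK : 1 ≤ K) {c C : ℝ} (hc : 0 < c) (hC : 0 < C)
    (hH : ∀ n, 0 ≤ H n) (h1 : ∀ n P : ℕ, 1 ≤ P → H (n * (K * P)) ≤ R P + n * (H (K * P) - I P))
    (hR : ∀ P : ℕ, 1 ≤ P → R P ≤ C * P) (hw : ∀ P : ℕ, 2 ≤ P → c * (P / Real.log P) ≤ w P)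
    {δ : ℝ} (hδ : 0 < δ) (P₀ : ℕ) : ∃ P : ℕ, P₀ ≤ P ∧ I P ≤ δ * w P := by
  by_contra hcon
  push Not at hcon
  have hKpos : (0 : ℝ) < K := by exact_mod_cast hK
  obtain ⟨B, hB⟩ : ∃ B : ℝ, B = 2 * C / (δ * c) := ⟨_, rfl⟩
  have hB0 : 0 < B := by
    rw [hB]
    positivity
  obtain ⟨a, ha⟩ : ∃ a : ℝ, a = δ * c / (2 * K) := ⟨_, rfl⟩
  have ha0 : 0 < a := by
    rw [ha]
    positivity
  obtain ⟨b, hb⟩ : ∃ b : ℝ, b = Real.log (B + 2) + 1 := ⟨_, rfl⟩
  have hb0 : 0 < b := by
    rw [hb]
    have := Real.log_nonneg (x := B + 2) (by linarith)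
    linarith
  obtain ⟨P₁, hP₁⟩ : ∃ P₁ : ℕ, P₁ = max P₀ 27 := ⟨_, rfl⟩
  have hlog27 : (3 : ℝ) ≤ Real.log 27 := by
    rw [Real.le_log_iff_exp_le (by norm_num)]
    have h1 : Real.exp 3 = Real.exp 1 ^ 3 := by
      rw [← Real.exp_nat_mul]
      norm_num
    rw [h1]
    have h2 : Real.exp 1 ≤ 3 := by
      have := Real.exp_one_lt_d9
      linarith
    calc Real.exp 1 ^ 3 ≤ 3 ^ 3 := pow_le_pow_left₀ (Real.exp_pos 1).le h2 3
      _ = 27 := by norm_num
  have hlogP : ∀ P : ℕ, P₁ ≤ P → (3 : ℝ) ≤ Real.log P := by
    intro P hP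
    refine hlog27.trans (Real.log_le_log (by norm_num) ?_)
    have : 27 ≤ P := (le_max_right P₀ 27).trans (hP₁ ▸ hP)
    exact_mod_cast this
  -- one step
  have step : ∀ P : ℕ, P₁ ≤ P → ∃ P' : ℕ, P₁ ≤ P' ∧
      Real.log P + Real.log 2 ≤ Real.log P' ∧
      H (K * P') / (K * P') + a / b * Real.log (Real.log (Real.log P')) ≤
        H (K * P) / (K * P) + a / b * Real.log (Real.log (Real.log P)) := by
    intro P hP
    have hP27 : 27 ≤ P := (le_max_right P₀ 27).trans (hP₁ ▸ hP)
    have hPpos : (0 : ℝ) < P := by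
      have : 0 < P := by omega
      exact_mod_cast this
    obtain ⟨x, hx⟩ : ∃ x : ℝ, x = Real.log P := ⟨_, rfl⟩
    have hx3 : 3 ≤ x := hx ▸ hlogP P hP
    have hx0 : 0 < x := by linarith
    obtain ⟨n, hn⟩ : ∃ n : ℕ, n = ⌈B * x⌉₊ + 1 := ⟨_, rfl⟩
    have hceil0 : 0 < ⌈B * x⌉₊ := Nat.ceil_pos.2 (by positivity)
    have hn2 : 2 ≤ n := by omega
    have hnpos : (0 : ℝ) < n := by
      have : 0 < n := by omega
      exact_mod_cast this
    have hnge : B * x ≤ n := by
      rw [hn]
      push_cast
      have := Nat.le_ceil (B * x)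
      linarith
    have hnle : (n : ℝ) ≤ B * x + 2 := by
      rw [hn]
      push_cast
      have := Nat.ceil_lt_add_one (a := B * x) (by positivity)
      linarith
    refine ⟨n * P, ?_, ?_, ?_⟩
    · calc P₁ ≤ P := hP
        _ = 1 * P := (one_mul P).symm
        _ ≤ n * P := Nat.mul_le_mul_right P (by omega)
    · push_cast
      rw [Real.log_mul hnpos.ne' hPpos.ne']
      have h2n : Real.log 2 ≤ Real.log n := Real.log_le_log (by norm_num) (by exact_mod_cast hn2)
      linarith
    · have hlogn0 : 0 ≤ Real.log n := Real.log_nonneg (by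
        have : 1 ≤ n := by omega
        exact_mod_cast this)
      obtain ⟨y, hy⟩ : ∃ y : ℝ, y = x + Real.log n := ⟨_, rfl⟩
      have hlogy : Real.log ((n * P : ℕ) : ℝ) = y := by
        push_cast
        rw [Real.log_mul hnpos.ne' hPpos.ne', hy, hx]
        ring
      have hxy : x ≤ y := by
        rw [hy]
        linarith
      have hy0 : 0 < y := by linarith
      have hlogx1 : 1 ≤ Real.log x := by
        rw [Real.le_log_iff_exp_le hx0]
        have := Real.exp_one_lt_d9
        linarith
      have hlogx0 : 0 < Real.log x := by linarith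
      have hlogxy : Real.log x ≤ Real.log y := Real.log_le_log hx0 hxy
      have hlogy0 : 0 < Real.log y := by linarith
      -- increment of the potential
      have hpot : Real.log (Real.log y) - Real.log (Real.log x) ≤ b / x := by
        have e1 : Real.log (Real.log y) - Real.log (Real.log x) =
            Real.log (Real.log y / Real.log x) := (Real.log_div hlogy0.ne' hlogx0.ne').symm
        have e2 : Real.log (Real.log y / Real.log x) ≤ Real.log y / Real.log x - 1 :=
          Real.log_le_sub_one_of_pos (div_pos hlogy0 hlogx0)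
        have e3 : Real.log y - Real.log x ≤ (y - x) / x := by
          rw [← Real.log_div hy0.ne' hx0.ne']
          have := Real.log_le_sub_one_of_pos (div_pos hy0 hx0)
          calc Real.log (y / x) ≤ y / x - 1 := this
            _ = (y - x) / x := by field_simp
        have e4 : Real.log y / Real.log x - 1 = (Real.log y - Real.log x) / Real.log x := by
          field_simp
        have e5 : (Real.log y - Real.log x) / Real.log x ≤ ((y - x) / x) / Real.log x :=
          div_le_div_of_nonneg_right e3 hlogx0.le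
        have e6 : y - x ≤ b * Real.log x := by
          rw [hy]
          have h1 : Real.log n ≤ Real.log ((B + 2) * x) := by
            refine Real.log_le_log hnpos (hnle.trans ?_)
            nlinarith
          rw [Real.log_mul (by positivity) hx0.ne'] at h1
          have h2 : 0 ≤ Real.log (B + 2) := Real.log_nonneg (by linarith)
          rw [hb]
          nlinarith
        have e7 : ((y - x) / x) / Real.log x ≤ b / x := by
          rw [div_le_iff₀ hlogx0, div_mul_eq_mul_div]
          exact div_le_div_of_nonneg_right e6 hx0.le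
        rw [e1]
        linarith
      -- decrement of h
      have hI : δ * c * (P / x) ≤ I P := by
        have h1 := hcon P ((le_max_left P₀ 27).trans (hP₁ ▸ hP))
        have h2 := hw P (by omega)
        rw [← hx] at h2
        nlinarith
      have hHn := h1 n P (by omega)
      have hRP := hR P (by omega)
      have hdec : H (K * (n * P)) / (K * ((n * P : ℕ) : ℝ)) ≤ H (K * P) / (K * P) - a / x := by
        have hidx : K * (n * P) = n * (K * P) := by ring
        rw [hidx]
        have hden : (0 : ℝ) < K * ((n * P : ℕ) : ℝ) := by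
          push_cast
          positivity
        rw [div_le_iff₀ hden]
        have key : (H (K * P) / (K * P) - a / x) * (K * ((n * P : ℕ) : ℝ)) =
            n * H (K * P) - a * K * n * P / x := by
          push_cast
          field_simp
        rw [key]
        have h3 : C * P + n * (H (K * P) - δ * c * (P / x)) ≤
            n * H (K * P) - a * K * n * P / x := by
          have h4 : a * K = δ * c / 2 := by
            rw [ha]
            field_simp
          have h5 : a * K * n * P / x = n * (δ * c * (P / x)) / 2 := by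
            rw [h4]
            field_simp
          rw [h5]
          have h6 : C * P ≤ n * (δ * c * (P / x)) / 2 := by
            have h7 : C = B * (δ * c) / 2 := by
              rw [hB]
              field_simp
            have h8 : C * P = B * x * (δ * c * (P / x)) / 2 := by
              rw [h7]
              field_simp
            rw [h8]
            have h9 : 0 ≤ δ * c * (P / x) := by positivity
            have := mul_le_mul_of_nonneg_right hnge h9
            linarith
          linarith
        have h10 : (n : ℝ) * (H (K * P) - I P) ≤ n * (H (K * P) - δ * c * (P / x)) :=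
          mul_le_mul_of_nonneg_left (by linarith) hnpos.le
        linarith
      rw [hlogy, ← hx]
      have hpot' : a / b * (Real.log (Real.log y) - Real.log (Real.log x)) ≤ a / x := by
        have := mul_le_mul_of_nonneg_left hpot (div_pos ha0 hb0).le
        calc a / b * (Real.log (Real.log y) - Real.log (Real.log x)) ≤ a / b * (b / x) := this
          _ = a / x := by field_simp
      rw [mul_sub] at hpot'
      linarith
  -- iteration
  obtain ⟨Φ, hΦ⟩ : ∃ Φ : ℝ, Φ = H (K * P₁) / (K * P₁) +
      a / b * Real.log (Real.log (Real.log P₁)) := ⟨_, rfl⟩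
  have iter : ∀ k : ℕ, ∃ P : ℕ, P₁ ≤ P ∧ (k : ℝ) * Real.log 2 ≤ Real.log P ∧
      H (K * P) / (K * P) + a / b * Real.log (Real.log (Real.log P)) ≤ Φ := by
    intro k
    induction k with
    | zero =>
      refine ⟨P₁, le_rfl, ?_, hΦ.ge⟩
      have := hlogP P₁ le_rfl
      push_cast
      linarith
    | succ k ih =>
      obtain ⟨P, hP, h2, h3⟩ := ih
      obtain ⟨P', hP', h4, h5⟩ := step P hP
      refine ⟨P', hP', ?_, h5.trans h3⟩
      push_cast
      linarith
  obtain ⟨k, hk⟩ := exists_nat_ge (Real.exp (Real.exp (Φ * (b / a) + 1)) / Real.log 2)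
  have hlog2 : 0 < Real.log 2 := Real.log_pos (by norm_num)
  rw [div_le_iff₀ hlog2] at hk
  obtain ⟨P, hP, h2, h3⟩ := iter k
  have h4 : Real.exp (Real.exp (Φ * (b / a) + 1)) ≤ Real.log P := hk.trans h2
  have h5 : Φ * (b / a) + 1 ≤ Real.log (Real.log (Real.log P)) := by
    have h6 : Real.exp (Φ * (b / a) + 1) ≤ Real.log (Real.log P) := by
      rw [Real.le_log_iff_exp_le (lt_of_lt_of_le (Real.exp_pos _) h4)]
      exact h4
    rw [Real.le_log_iff_exp_le (lt_of_lt_of_le (Real.exp_pos _) h6)]
    exact h6
  have h7 : 0 ≤ H (K * P) / (K * P) := div_nonneg (hH _) (by positivity)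
  have h8 : a / b * (Φ * (b / a) + 1) ≤ a / b * Real.log (Real.log (Real.log P)) :=
    mul_le_mul_of_nonneg_left h5 (div_pos ha0 hb0).le
  have h9 : a / b * (Φ * (b / a) + 1) = Φ + a / b := by field_simp
  have h10 : 0 < a / b := div_pos ha0 hb0
  linarith

end FHE
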