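import Pool.Agent.FHE.Defs

/-! CSL (~120 lines): Cauchy-Schwarz for a finite family of correlations with one function, and the
rearrangement by differences. `csl`: choose `u n` of modulus one with
`u n * ∫ G k_n = ‖∫ G k_n‖`; then `∑ ν n ‖∫ G k_n‖ = ∫ G ∑ ν n u n k_n`, its square is at most
`∫ ‖∑ ν n u n k_n‖² = re ∑ ∑ ν n ν n' u n conj (u n') ∫ k_n conj k_n'`.
`sym_diff`: split into `n = n'`, `n < n'` (put `a = n' - n`), `n > n'` (symmetry). -/

open MeasureTheory Filter Topology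
open scoped ComplexConjugate

namespace FHE

theorem csl {X : Type*} [MeasurableSpace X] {ρ : Measure X} [IsProbabilityMeasure ρ] {G : X → ℂ}
    (hG : Bd G) {k : ℕ → X → ℂ} (A : Finset ℕ) (hk : ∀ n ∈ A, Bd (k n)) {ν : ℕ → ℝ}
    (hν : ∀ n, 0 ≤ ν n) :
    (∑ n ∈ A, ν n * ‖∫ ω, G ω * k n ω ∂ρ‖) ^ 2 ≤
      ∑ n ∈ A, ∑ n' ∈ A, ν n * ν n' * ‖∫ ω, k n ω * conj (k n' ω) ∂ρ‖ := by
  classical
  obtain ⟨z, hz⟩ : ∃ z : ℕ → ℂ, ∀ n, z n = ∫ ω, G ω * k n ω ∂ρ := ⟨_, fun _ => rfl⟩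
  obtain ⟨u, hu⟩ : ∃ u : ℕ → ℂ, ∀ n, ‖u n‖ = 1 ∧ u n * z n = (‖z n‖ : ℂ) := by
    have h : ∀ n, ∃ v : ℂ, ‖v‖ = 1 ∧ v * z n = (‖z n‖ : ℂ) := by
      intro n
      by_cases h0 : z n = 0
      · exact ⟨1, by simp, by simp [h0]⟩
      · have hn : (‖z n‖ : ℂ) ≠ 0 := by
          exact_mod_cast (norm_ne_zero_iff.2 h0)
        refine ⟨conj (z n) / (‖z n‖ : ℂ), ?_, ?_⟩
        · rw [norm_div, RCLike.norm_conj, Complex.norm_real, norm_norm]
          exact div_self (norm_ne_zero_iff.2 h0)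
        · rw [div_mul_eq_mul_div, mul_comm, Complex.mul_conj, Complex.normSq_eq_norm_sq]
          rw [div_eq_iff hn]
          push_cast
          ring
    choose u h1 h2 using h
    exact ⟨u, fun n => ⟨h1 n, h2 n⟩⟩
  obtain ⟨c, hc⟩ : ∃ c : ℕ → ℂ, ∀ n, c n = (ν n : ℂ) * u n := ⟨_, fun _ => rfl⟩
  have hcn : ∀ n, ‖c n‖ = ν n := by
    intro n
    rw [hc, norm_mul, (hu n).1, mul_one, Complex.norm_real, Real.norm_eq_abs,
      abs_of_nonneg (hν n)]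
  obtain ⟨F, hF⟩ : ∃ F : X → ℂ, ∀ ω, F ω = ∑ n ∈ A, c n * k n ω := ⟨_, fun _ => rfl⟩
  have hFm : Measurable F := by
    have : F = fun ω => ∑ n ∈ A, c n * k n ω := funext hF
    rw [this]
    exact Finset.measurable_sum A fun n hn => (hk n hn).meas.const_mul (c n)
  have hFb : ∀ ω, ‖F ω‖ ≤ ∑ n ∈ A, ν n := by
    intro ω
    rw [hF]
    refine (norm_sum_le _ _).trans (Finset.sum_le_sum fun n hn => ?_)
    rw [norm_mul, hcn]
    calc ν n * ‖k n ω‖ ≤ ν n * 1 := mul_le_mul_of_nonneg_left ((hk n hn).le ω) (hν n)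
      _ = ν n := mul_one _
  have hint : ∀ f : X → ℂ, Measurable f → ∀ C : ℝ, (∀ ω, ‖f ω‖ ≤ C) → Integrable f ρ :=
    fun f hf C hC => Integrable.of_bound hf.aestronglyMeasurable C
      (Filter.Eventually.of_forall hC)
  have hFn : Integrable (fun ω => ‖F ω‖) ρ := (hint F hFm _ hFb).norm
  have hFn2 : Integrable (fun ω => ‖F ω‖ ^ 2) ρ := by
    refine Integrable.of_bound (hFm.norm.pow_const 2).aestronglyMeasurable
      ((∑ n ∈ A, ν n) ^ 2) (Filter.Eventually.of_forall fun ω => ?_)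
    rw [norm_pow, norm_norm]
    exact pow_le_pow_left₀ (norm_nonneg _) (hFb ω) 2
  -- step 1
  have s1 : ((∑ n ∈ A, ν n * ‖z n‖ : ℝ) : ℂ) = ∫ ω, G ω * F ω ∂ρ := by
    have e1 : (fun ω => G ω * F ω) = fun ω => ∑ n ∈ A, c n * (G ω * k n ω) := by
      funext ω
      rw [hF, Finset.mul_sum]
      exact Finset.sum_congr rfl fun n _ => by ring
    rw [e1, integral_finsetSum]
    · push_cast
      refine Finset.sum_congr rfl fun n _ => ?_
      rw [integral_const_mul, ← hz n, hc, mul_assoc, (hu n).2]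
    · intro n hn
      refine (hint (fun ω => G ω * k n ω) (hG.meas.mul (hk n hn).meas) 1 fun ω => ?_).const_mul _
      rw [norm_mul]
      exact mul_le_one₀ (hG.le ω) (norm_nonneg _) ((hk n hn).le ω)
  have hS0 : 0 ≤ ∑ n ∈ A, ν n * ‖z n‖ :=
    Finset.sum_nonneg fun n _ => mul_nonneg (hν n) (norm_nonneg _)
  have s2 : ∑ n ∈ A, ν n * ‖z n‖ ≤ ∫ ω, ‖F ω‖ ∂ρ := by
    have e1 : ∑ n ∈ A, ν n * ‖z n‖ = ‖∫ ω, G ω * F ω ∂ρ‖ := by
      rw [← s1, Complex.norm_real, Real.norm_eq_abs, abs_of_nonneg hS0]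
    rw [e1]
    refine norm_integral_le_of_norm_le hFn (Filter.Eventually.of_forall fun ω => ?_)
    rw [norm_mul]
    calc ‖G ω‖ * ‖F ω‖ ≤ 1 * ‖F ω‖ := mul_le_mul_of_nonneg_right (hG.le ω) (norm_nonneg _)
      _ = ‖F ω‖ := one_mul _
  have s3 : (∫ ω, ‖F ω‖ ∂ρ) ^ 2 ≤ ∫ ω, ‖F ω‖ ^ 2 ∂ρ := by
    obtain ⟨m, hm⟩ : ∃ m : ℝ, m = ∫ ω, ‖F ω‖ ∂ρ := ⟨_, rfl⟩
    have e1 : 0 ≤ ∫ ω, (‖F ω‖ - m) ^ 2 ∂ρ := integral_nonneg fun ω => sq_nonneg _
    have e2 : (fun ω => (‖F ω‖ - m) ^ 2) = fun ω => ‖F ω‖ ^ 2 - (2 * m * ‖F ω‖ - m ^ 2) := by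
      funext ω
      ring
    have h1 : Integrable (fun ω => 2 * m * ‖F ω‖ - m ^ 2) ρ :=
      (hFn.const_mul (2 * m)).sub (integrable_const _)
    rw [e2, integral_sub hFn2 h1, integral_sub (hFn.const_mul (2 * m)) (integrable_const _),
      integral_const_mul, ← hm] at e1
    simp only [integral_const, probReal_univ, smul_eq_mul, one_mul] at e1
    rw [← hm]
    nlinarith
  -- step 2
  have s4 : ((∫ ω, ‖F ω‖ ^ 2 ∂ρ : ℝ) : ℂ) =
      ∑ n ∈ A, ∑ n' ∈ A, c n * conj (c n') * ∫ ω, k n ω * conj (k n' ω) ∂ρ := by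
    have e1 : (fun ω => ((‖F ω‖ ^ 2 : ℝ) : ℂ)) =
        fun ω => ∑ n ∈ A, ∑ n' ∈ A, c n * conj (c n') * (k n ω * conj (k n' ω)) := by
      funext ω
      have : ((‖F ω‖ ^ 2 : ℝ) : ℂ) = F ω * conj (F ω) := by
        rw [Complex.mul_conj, Complex.normSq_eq_norm_sq]
      rw [this, hF, map_sum, Finset.sum_mul_sum]
      refine Finset.sum_congr rfl fun n _ => Finset.sum_congr rfl fun n' _ => ?_
      rw [map_mul]
      ring
    have hII : ∀ n ∈ A, ∀ n' ∈ A, Integrable (fun ω => k n ω * conj (k n' ω)) ρ := by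
      intro n hn n' hn'
      refine hint (fun ω => k n ω * conj (k n' ω)) ((hk n hn).meas.mul
        (Complex.continuous_conj.measurable.comp (hk n' hn').meas)) 1 fun ω => ?_
      rw [norm_mul, RCLike.norm_conj]
      exact mul_le_one₀ ((hk n hn).le ω) (norm_nonneg _) ((hk n' hn').le ω)
    rw [← integral_complex_ofReal, e1, integral_finsetSum]
    · refine Finset.sum_congr rfl fun n hn => ?_
      rw [integral_finsetSum]
      · refine Finset.sum_congr rfl fun n' hn' => ?_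
        rw [integral_const_mul]
      · intro n' hn'
        exact (hII n hn n' hn').const_mul _
    · intro n hn
      exact integrable_finsetSum _ fun n' hn' => (hII n hn n' hn').const_mul _
  have s5 : ∫ ω, ‖F ω‖ ^ 2 ∂ρ ≤
      ∑ n ∈ A, ∑ n' ∈ A, ν n * ν n' * ‖∫ ω, k n ω * conj (k n' ω) ∂ρ‖ := by
    have e1 : ∫ ω, ‖F ω‖ ^ 2 ∂ρ = ‖((∫ ω, ‖F ω‖ ^ 2 ∂ρ : ℝ) : ℂ)‖ := by
      rw [Complex.norm_real, Real.norm_eq_abs,
        abs_of_nonneg (integral_nonneg fun ω => sq_nonneg _)]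
    rw [e1, s4]
    refine (norm_sum_le _ _).trans (Finset.sum_le_sum fun n _ => ?_)
    refine (norm_sum_le _ _).trans (Finset.sum_le_sum fun n' _ => ?_)
    rw [norm_mul, norm_mul, RCLike.norm_conj, hcn, hcn]
  calc (∑ n ∈ A, ν n * ‖∫ ω, G ω * k n ω ∂ρ‖) ^ 2
      = (∑ n ∈ A, ν n * ‖z n‖) ^ 2 := by simp only [hz]
    _ ≤ (∫ ω, ‖F ω‖ ∂ρ) ^ 2 := pow_le_pow_left₀ hS0 s2 2
    _ ≤ ∫ ω, ‖F ω‖ ^ 2 ∂ρ := s3
    _ ≤ _ := s5

theorem sym_diff {M : ℕ} (A : Finset ℕ) (hA : ∀ n ∈ A, n < M) (u : ℕ → ℕ → ℝ)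
    (hs : ∀ n n', u n n' = u n' n) :
    ∑ n ∈ A, ∑ n' ∈ A, u n n' = ∑ n ∈ A, u n n +
      2 * ∑ a ∈ Finset.Ico 1 M, ∑ n ∈ A.filter (fun n => n + a ∈ A), u n (n + a) := by
  have h1 : ∑ a ∈ Finset.Ico 1 M, ∑ n ∈ A.filter (fun n => n + a ∈ A), u n (n + a) =
      ∑ n ∈ A, ∑ n' ∈ A, if n < n' then u n n' else 0 := by
    simp_rw [Finset.sum_filter]
    rw [Finset.sum_comm]
    refine Finset.sum_congr rfl fun n hn => ?_
    rw [← Finset.sum_filter, ← Finset.sum_filter]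
    refine Finset.sum_nbij' (fun a => n + a) (fun n' => n' - n) ?_ ?_ ?_ ?_ ?_
    · intro a ha
      simp only [Finset.mem_filter, Finset.mem_Ico] at ha ⊢
      exact ⟨ha.2, by omega⟩
    · intro n' hn'
      simp only [Finset.mem_filter, Finset.mem_Ico] at hn' ⊢
      have h2 := hA n' hn'.1
      have h3 : n + (n' - n) = n' := by omega
      rw [h3]
      exact ⟨⟨by omega, by omega⟩, hn'.1⟩
    · intro a _
      simp
    · intro n' hn'
      simp only [Finset.mem_filter] at hn'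
      omega
    · intro a _
      rfl
  have h2 : ∑ n ∈ A, ∑ n' ∈ A, (if n < n' then u n n' else 0) =
      ∑ n ∈ A, ∑ n' ∈ A, if n' < n then u n n' else 0 := by
    rw [Finset.sum_comm]
    refine Finset.sum_congr rfl fun n _ => Finset.sum_congr rfl fun n' _ => ?_
    rw [hs n' n]
  have h3 : ∑ n ∈ A, u n n = ∑ n ∈ A, ∑ n' ∈ A, if n = n' then u n n' else 0 := by
    refine Finset.sum_congr rfl fun n hn => ?_
    rw [Finset.sum_ite_eq]
    simp [hn]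
  rw [h1, two_mul]
  nth_rewrite 2 [h2]
  rw [h3, ← Finset.sum_add_distrib, ← Finset.sum_add_distrib]
  refine Finset.sum_congr rfl fun n _ => ?_
  rw [← Finset.sum_add_distrib, ← Finset.sum_add_distrib]
  refine Finset.sum_congr rfl fun n' _ => ?_
  rcases lt_trichotomy n n' with h | h | h
  · have : ¬ n' < n := by omega
    simp [h, h.ne, this]
  · subst h
    simp
  · have : ¬ n < n' := by omega
    simp [h, h.ne', this]

end FHE
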