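import Pool.Agent.FHE.ENB

/-! DVA (~120 lines): the inequality of Donsker and Varadhan for finite-valued maps. With `p(a,b)` the
joint law, `p(a)`, `q(b)` the marginals and `Λ = ∑ p(a) q(b) exp F(a,b)`:
`∑ p(a,b) F(a,b) - I = ∑ p(a,b) log (p(a) q(b) exp F / p(a,b)) ≤ log Λ` by concavity of the logarithm
(`p(a,b) > 0` implies `p(a), q(b) > 0`); `I = En X + En Z - En (X, Z)`. -/

open MeasureTheory Filter Topology
open scoped ComplexConjugate

namespace FHE

variable {Ω : Type*} [MeasurableSpace Ω] {ρ : Measure Ω} [IsProbabilityMeasure ρ]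

theorem DVA_int {γ : Type*} [Fintype γ] {U : Ω → γ} (hU : FM U)
    {E : Type*} [NormedAddCommGroup E] [NormedSpace ℝ E] [CompleteSpace E] (G : γ → E) :
    ∫ ω, G (U ω) ∂ρ = ∑ x, ρ.real (U ⁻¹' {x}) • G x := by
  classical
  have h1 : ∀ ω, G (U ω) = ∑ x, (U ⁻¹' {x}).indicator (fun _ => G x) ω := by
    intro ω
    rw [Finset.sum_eq_single (U ω)]
    · simp [Set.indicator]
    · intro b _ hb
      rw [Set.indicator_of_notMem]
      simpa using Ne.symm hb
    · intro h
      exact absurd (Finset.mem_univ _) h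
  simp_rw [h1]
  rw [integral_finset_sum]
  · refine Finset.sum_congr rfl fun x _ => ?_
    rw [integral_indicator_const _ (hU x)]
  · intro x _
    exact (integrable_const (G x)).indicator (hU x)

theorem DVA_fst {α β : Type*} [Fintype α] [Fintype β] {X : Ω → α} {Z : Ω → β}
    (hX : FM X) (hZ : FM Z) (a : α) :
    ρ.real (X ⁻¹' {a}) = ∑ b, ρ.real ((fun ω => (X ω, Z ω)) ⁻¹' {(a, b)}) := by
  classical
  have h2 := DVA_int (ρ := ρ) (FM.prod hX hZ) (fun x : α × β => if x.1 = a then (1 : ℝ) else 0)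
  have h3 := DVA_int (ρ := ρ) hX (fun x : α => if x = a then (1 : ℝ) else 0)
  simp only [smul_eq_mul, mul_ite, mul_one, mul_zero, Finset.sum_ite_eq', Finset.mem_univ,
    if_true] at h3
  rw [← h3]
  simp only [smul_eq_mul, mul_ite, mul_one, mul_zero] at h2
  rw [h2, Fintype.sum_prod_type]
  rw [Finset.sum_eq_single a]
  · simp
  · intro b _ hb
    simp [hb]
  · intro h
    exact absurd (Finset.mem_univ _) h

theorem DVA_snd {α β : Type*} [Fintype α] [Fintype β] {X : Ω → α} {Z : Ω → β}
    (hX : FM X) (hZ : FM Z) (b : β) :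
    ρ.real (Z ⁻¹' {b}) = ∑ a, ρ.real ((fun ω => (X ω, Z ω)) ⁻¹' {(a, b)}) := by
  classical
  have h2 := DVA_int (ρ := ρ) (FM.prod hX hZ) (fun x : α × β => if x.2 = b then (1 : ℝ) else 0)
  have h3 := DVA_int (ρ := ρ) hZ (fun x : β => if x = b then (1 : ℝ) else 0)
  simp only [smul_eq_mul, mul_ite, mul_one, mul_zero, Finset.sum_ite_eq', Finset.mem_univ,
    if_true] at h3
  rw [← h3]
  simp only [smul_eq_mul, mul_ite, mul_one, mul_zero] at h2
  rw [h2, Fintype.sum_prod_type_right]
  rw [Finset.sum_eq_single b]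
  · simp
  · intro c _ hc
    simp [hc]
  · intro h
    exact absurd (Finset.mem_univ _) h

theorem DVA_tot {γ : Type*} [Fintype γ] {U : Ω → γ} (hU : FM U) :
    ∑ x, ρ.real (U ⁻¹' {x}) = 1 := by
  have h := DVA_int (ρ := ρ) hU (fun _ : γ => (1 : ℝ))
  simpa using h.symm

theorem donsker_varadhan {α β : Type*} [Fintype α] [Fintype β] {X : Ω → α} {Z : Ω → β}
    (hX : FM X) (hZ : FM Z) (F : α → β → ℝ) :
    ∫ ω, F (X ω) (Z ω) ∂ρ ≤ En ρ X + En ρ Z - En ρ (fun ω => (X ω, Z ω)) +
      Real.log (∑ a, ∑ b, ρ.real (X ⁻¹' {a}) * ρ.real (Z ⁻¹' {b}) * Real.exp (F a b)) := by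
  classical
  set P : α → β → ℝ := fun a b => ρ.real ((fun ω => (X ω, Z ω)) ⁻¹' {(a, b)}) with hP
  set p : α → ℝ := fun a => ρ.real (X ⁻¹' {a}) with hp
  set q : β → ℝ := fun b => ρ.real (Z ⁻¹' {b}) with hq
  have hP0 : ∀ a b, 0 ≤ P a b := fun a b => measureReal_nonneg
  have hp1 : ∀ a, p a = ∑ b, P a b := fun a => DVA_fst hX hZ a
  have hq1 : ∀ b, q b = ∑ a, P a b := fun b => DVA_snd hX hZ b
  have hint : ∫ ω, F (X ω) (Z ω) ∂ρ = ∑ a, ∑ b, P a b * F a b := by
    have h := DVA_int (ρ := ρ) (FM.prod hX hZ) (fun x : α × β => F x.1 x.2)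
    rw [Fintype.sum_prod_type] at h
    simpa [smul_eq_mul] using h
  have htot : ∑ a, ∑ b, P a b = 1 := by
    have h := DVA_tot (ρ := ρ) (FM.prod hX hZ)
    rw [Fintype.sum_prod_type] at h
    exact h
  have hEX : En ρ X = ∑ a, ∑ b, -(P a b * Real.log (p a)) := by
    unfold En
    refine Finset.sum_congr rfl fun a _ => ?_
    rw [Finset.sum_neg_distrib, ← Finset.sum_mul, ← hp1 a]
    simp [Real.negMulLog, hp]
  have hEZ : En ρ Z = ∑ a, ∑ b, -(P a b * Real.log (q b)) := by
    unfold En
    rw [Finset.sum_comm]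
    refine Finset.sum_congr rfl fun b _ => ?_
    rw [Finset.sum_neg_distrib, ← Finset.sum_mul, ← hq1 b]
    simp [Real.negMulLog, hq]
  have hEP : En ρ (fun ω => (X ω, Z ω)) = ∑ a, ∑ b, -(P a b * Real.log (P a b)) := by
    unfold En
    rw [Fintype.sum_prod_type]
    refine Finset.sum_congr rfl fun a _ => Finset.sum_congr rfl fun b _ => ?_
    simp [Real.negMulLog, hP]
  set Λ : ℝ := ∑ a, ∑ b, p a * q b * Real.exp (F a b) with hΛ
  have hp0 : ∀ a, 0 ≤ p a := fun a => measureReal_nonneg
  have hq0 : ∀ b, 0 ≤ q b := fun b => measureReal_nonneg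
  have hPp : ∀ a b, P a b ≤ p a := fun a b => by
    rw [hp1 a]
    exact Finset.single_le_sum (f := fun b => P a b) (fun c _ => hP0 a c) (Finset.mem_univ b)
  have hPq : ∀ a b, P a b ≤ q b := fun a b => by
    rw [hq1 b]
    exact Finset.single_le_sum (f := fun a => P a b) (fun c _ => hP0 c b) (Finset.mem_univ a)
  have hΛ0 : 0 < Λ := by
    have hex : ∃ a b, 0 < P a b := by
      by_contra hcon
      push Not at hcon
      have : ∑ a, ∑ b, P a b ≤ 0 :=
        Finset.sum_nonpos fun a _ => Finset.sum_nonpos fun b _ => hcon a b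
      linarith
    obtain ⟨a, b, hab⟩ := hex
    have h1 : 0 < p a * q b * Real.exp (F a b) := by
      have := lt_of_lt_of_le hab (hPp a b)
      have := lt_of_lt_of_le hab (hPq a b)
      positivity
    have h2 : p a * q b * Real.exp (F a b) ≤ ∑ b, p a * q b * Real.exp (F a b) :=
      Finset.single_le_sum (f := fun b => p a * q b * Real.exp (F a b))
        (fun c _ => mul_nonneg (mul_nonneg (hp0 a) (hq0 c)) (Real.exp_pos _).le)
        (Finset.mem_univ b)
    have h3 : ∑ b, p a * q b * Real.exp (F a b) ≤ Λ :=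
      Finset.single_le_sum (f := fun a => ∑ b, p a * q b * Real.exp (F a b))
        (fun c _ => Finset.sum_nonneg fun b _ =>
          mul_nonneg (mul_nonneg (hp0 c) (hq0 b)) (Real.exp_pos _).le)
        (Finset.mem_univ a)
    linarith
  have key : ∀ a b, P a b * F a b + P a b * Real.log (p a) + P a b * Real.log (q b)
      - P a b * Real.log (P a b) - P a b * Real.log Λ
      ≤ p a * q b * Real.exp (F a b) / Λ - P a b := by
    intro a b
    rcases (hP0 a b).eq_or_lt with h0 | h0
    · rw [← h0]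
      have : 0 ≤ p a * q b * Real.exp (F a b) / Λ := by
        have := hp0 a
        have := hq0 b
        positivity
      simpa using this
    · have hpa : 0 < p a := lt_of_lt_of_le h0 (hPp a b)
      have hqb : 0 < q b := lt_of_lt_of_le h0 (hPq a b)
      have hy : 0 < p a * q b * Real.exp (F a b) / (P a b * Λ) := by positivity
      have hl := Real.log_le_sub_one_of_pos hy
      have hlog : Real.log (p a * q b * Real.exp (F a b) / (P a b * Λ)) =
          Real.log (p a) + Real.log (q b) + F a b - (Real.log (P a b) + Real.log Λ) := by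
        rw [Real.log_div (by positivity) (by positivity), Real.log_mul (by positivity)
          (by positivity), Real.log_mul (by positivity) (by positivity), Real.log_exp,
          Real.log_mul (by positivity) (by positivity)]
      rw [hlog] at hl
      have hm := mul_le_mul_of_nonneg_left hl h0.le
      have he : P a b * (p a * q b * Real.exp (F a b) / (P a b * Λ) - 1) =
          p a * q b * Real.exp (F a b) / Λ - P a b := by
        field_simp
      rw [he] at hm
      linarith
  have hsum := Finset.sum_le_sum fun a (_ : a ∈ Finset.univ) =>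
    Finset.sum_le_sum fun b (_ : b ∈ Finset.univ) => key a b
  have hR : ∑ a, ∑ b, (p a * q b * Real.exp (F a b) / Λ - P a b) = 0 := by
    simp only [Finset.sum_sub_distrib]
    rw [htot]
    simp only [← Finset.sum_div]
    rw [← hΛ, div_self hΛ0.ne']
    simp
  rw [hR] at hsum
  have hL : ∑ a, ∑ b, (P a b * F a b + P a b * Real.log (p a) + P a b * Real.log (q b)
      - P a b * Real.log (P a b) - P a b * Real.log Λ) =
      (∑ a, ∑ b, P a b * F a b) - En ρ X - En ρ Z + En ρ (fun ω => (X ω, Z ω))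
        - Real.log Λ := by
    rw [hEX, hEZ, hEP]
    simp only [Finset.sum_sub_distrib, Finset.sum_add_distrib, Finset.sum_neg_distrib]
    have : ∑ a, ∑ b, P a b * Real.log Λ = Real.log Λ := by
      simp only [← Finset.sum_mul]
      rw [htot, one_mul]
    rw [this]
    ring
  rw [hL] at hsum
  rw [hint]
  linarith

end FHE
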