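import Pool.Agent.FHE.Defs

/-! RLW (~120 lines): the law of the residues. For a finite set `A` of primes the law of
`ω ↦ (R p ω)_{p ∈ A}` on the finite group `G = ∏_{p ∈ A} ZMod p` is invariant under translation by
`(1, ..., 1)` (`RT`, `mp`), which generates `G` (Chinese remainder theorem: for `r ∈ G` there is `n : ℕ` with
`(n : ZMod p) = r p` for all `p ∈ A`; e.g. `Nat.chineseRemainderOfFinset` or `ZMod.prodEquivPi`). So all
points have the same mass, the total mass is one and `card G = ∏ p`. -/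

open MeasureTheory Filter Topology
open scoped ComplexConjugate

namespace FHE

variable {Y : Type} [MeasurableSpace Y] {S : Y → Y} {μ : Measure Y} {g : ℕ → ℂ}

private theorem rlw_iter (s : Sys S μ g) {p : ℕ} (hp : p ≠ 0) (n : ℕ) (ω : s.Ω) :
    s.R p (s.T^[n] ω) = s.R p ω + n := by
  induction n generalizing ω with
  | zero => simp
  | succ n ih =>
    rw [Function.iterate_succ_apply', s.RT p hp, ih]
    push_cast
    ring

private theorem rlw_crt (A : Finset ℕ) (hA : ∀ p ∈ A, p.Prime) (a : (p : A) → ZMod p) :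
    ∃ n : ℕ, ∀ p : A, (n : ZMod p) = a p := by
  classical
  have hpp : Set.Pairwise (A : Set ℕ) (Function.onFun Nat.Coprime (id : ℕ → ℕ)) := by
    intro p hp q hq hpq
    exact (Nat.coprime_primes (hA p hp) (hA q hq)).mpr hpq
  let b : ℕ → ℕ := fun p => if h : p ∈ A then (a ⟨p, h⟩).val else 0
  obtain ⟨k, hk⟩ := Nat.chineseRemainderOfFinset b id A (fun p hp => (hA p hp).ne_zero) hpp
  refine ⟨k, fun p => ?_⟩
  have h1 := hk p p.2
  have h2 : (k : ZMod p) = ((b p : ℕ) : ZMod p) := (ZMod.natCast_eq_natCast_iff _ _ _).mpr h1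
  rw [h2]
  haveI : NeZero (p : ℕ) := ⟨(hA p p.2).ne_zero⟩
  simp [b, ZMod.natCast_zmod_val]

private theorem rlw_meas (s : Sys S μ g) (A : Finset ℕ) (r : (p : A) → ZMod p) :
    MeasurableSet {ω | ∀ p : A, s.R p ω = r p} := by
  have : {ω | ∀ p : A, s.R p ω = r p} = ⋂ p : A, (s.R p) ⁻¹' {r p} := by
    ext ω
    simp
  rw [this]
  exact MeasurableSet.iInter fun p => s.mR p (MeasurableSet.of_discrete)

private theorem rlw_eq (s : Sys S μ g) (A : Finset ℕ) (hA : ∀ p ∈ A, p.Prime)
    (r r' : (p : A) → ZMod p) :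
    s.ρ.real {ω | ∀ p : A, s.R p ω = r p} = s.ρ.real {ω | ∀ p : A, s.R p ω = r' p} := by
  obtain ⟨n, hn⟩ := rlw_crt A hA (fun p => r p - r' p)
  have h1 : {ω | ∀ p : A, s.R p ω = r' p} = (s.T^[n]) ⁻¹' {ω | ∀ p : A, s.R p ω = r p} := by
    ext ω
    simp only [Set.mem_setOf_eq, Set.mem_preimage]
    refine forall_congr' fun p => ?_
    rw [rlw_iter s (hA p p.2).ne_zero, hn p]
    constructor
    · intro h
      rw [h]; ring
    · intro h
      have : s.R p ω + (r p - r' p) - (r p - r' p) = r p - (r p - r' p) := by rw [h]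
      simpa using this
  rw [h1, measureReal_def, measureReal_def,
    (s.mp.iterate n).measure_preimage (rlw_meas s A r).nullMeasurableSet]

theorem r_law (s : Sys S μ g) (A : Finset ℕ) (hA : ∀ p ∈ A, p.Prime) (r : (p : A) → ZMod p) :
    s.ρ.real {ω | ∀ p : A, s.R p ω = r p} = (∏ p ∈ A, (p : ℝ))⁻¹ := by
  classical
  haveI : ∀ p : A, NeZero (p : ℕ) := fun p => ⟨(hA p p.2).ne_zero⟩
  let F : s.Ω → ((p : A) → ZMod p) := fun ω p => s.R p ω
  have hF : ∀ r' : (p : A) → ZMod p, F ⁻¹' {r'} = {ω | ∀ p : A, s.R p ω = r' p} := by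
    intro r'
    ext ω
    simp [F, funext_iff]
  have h1 := sum_measureReal_preimage_singleton (μ := s.ρ) (Finset.univ : Finset ((p : A) → ZMod p))
    (f := F) (fun r' _ => by rw [hF]; exact rlw_meas s A r')
  simp only [hF, Finset.coe_univ, Set.preimage_univ] at h1
  rw [Finset.sum_congr rfl (fun r' _ => rlw_eq s A hA r' r), Finset.sum_const, Finset.card_univ,
    Fintype.card_pi, probReal_univ] at h1
  have h2 : (∏ p : A, Fintype.card (ZMod p)) = ∏ p ∈ A, p := by
    simp only [ZMod.card]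
    exact Finset.prod_coe_sort A (fun p => p)
  rw [h2, nsmul_eq_mul] at h1
  have h3 : ((∏ p ∈ A, p : ℕ) : ℝ) = ∏ p ∈ A, (p : ℝ) := by push_cast; rfl
  rw [h3] at h1
  exact eq_inv_of_mul_eq_one_right h1

theorem r_zero (s : Sys S μ g) {p : ℕ} (hp : p.Prime) :
    s.ρ.real {ω | s.R p ω = 0} = (p : ℝ)⁻¹ := by
  have h := r_law s {p} (by simpa using hp) (fun _ => 0)
  simp only [Finset.prod_singleton] at h
  rw [← h]
  congr 1
  ext ω
  simp only [Set.mem_setOf_eq, Subtype.forall, Finset.mem_singleton]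
  constructor
  · rintro h0 a rfl
    exact h0
  · intro h0
    exact h0 p rfl

theorem r_zero_zero (s : Sys S μ g) {p q : ℕ} (hp : p.Prime) (hq : q.Prime) (hpq : p ≠ q) :
    s.ρ.real {ω | s.R p ω = 0 ∧ s.R q ω = 0} = (p : ℝ)⁻¹ * (q : ℝ)⁻¹ := by
  have h := r_law s {p, q} (by
    intro r hr
    rcases Finset.mem_insert.mp hr with h | h
    · rw [h]; exact hp
    · rw [Finset.mem_singleton.mp h]; exact hq) (fun _ => 0)
  rw [Finset.prod_pair hpq, mul_inv] at h
  rw [← h]
  congr 1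
  ext ω
  simp only [Set.mem_setOf_eq, Subtype.forall, Finset.mem_insert, Finset.mem_singleton]
  constructor
  · rintro ⟨h0, h1⟩ a (rfl | rfl)
    · exact h0
    · exact h1
  · intro h0
    exact ⟨h0 p (Or.inl rfl), h0 q (Or.inr rfl)⟩

end FHE
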