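import Pool.Agent.FHE.DVA
import Pool.Agent.FHE.RLW

/-! DVB (~150 lines): a function of `X` and of the residue mod `p`, of mean zero in the residue, has small
mean for most `p` if the mutual information is small. Choose `w p` of modulus one with
`w p * ∫ z_p = ‖∫ z_p‖` and apply `donsker_varadhan` to `F a r = l * ∑_p re (w p * z p a (r p))`. By `r_law`
the law of `R` is uniform, and `∏_p`-expansion (`Finset.prod_univ_sum`/`Fintype.prod_sum`) gives
`∑_r (∏ p)⁻¹ exp F(a,r) = ∏_p (1/p) ∑_{r : ZMod p} exp (l re (w z)) ≤ ∏_p exp (9 l²/2)`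
(Hoeffding: `|y| ≤ 3`, mean zero: `E exp (l y) ≤ cosh (3 l) ≤ exp (9 l²/2)`). -/

open MeasureTheory Filter Topology
open scoped ComplexConjugate

namespace FHE

variable {Y : Type} [MeasurableSpace Y] {S : Y → Y} {μ : Measure Y} {g : ℕ → ℂ}

/-- the residues modulo the elements of `A` -/
def Sys.Rv (s : Sys S μ g) (A : Finset ℕ) (ω : s.Ω) : (p : A) → ZMod p := fun p => s.R p ω

theorem DVB_pre (s : Sys S μ g) (A : Finset ℕ) (r : (p : A) → ZMod p) :
    s.Rv A ⁻¹' {r} = {ω | ∀ p : A, s.R p ω = r p} := by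
  ext ω
  simp only [Set.mem_preimage, Set.mem_singleton_iff, Set.mem_ofPred_eq]
  constructor
  · intro h p
    exact congrFun h p
  · intro h
    funext p
    exact h p

theorem Rv_fm (s : Sys S μ g) (A : Finset ℕ) : FM (s.Rv A) := by
  intro r
  rw [DVB_pre]
  have : {ω | ∀ p : A, s.R p ω = r p} = ⋂ p : A, (s.R p) ⁻¹' {r p} := by
    ext ω
    simp
  rw [this]
  exact MeasurableSet.iInter fun p => s.mR p (measurableSet_singleton _)

theorem DVB_range {p : ℕ} (hp : p ≠ 0) [Fintype (ZMod p)] {E : Type*} [AddCommMonoid E]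
    (f : ZMod p → E) : ∑ r ∈ Finset.range p, f (r : ZMod p) = ∑ x, f x := by
  have : NeZero p := ⟨hp⟩
  refine Finset.sum_bij (fun r _ => (r : ZMod p)) (fun _ _ => Finset.mem_univ _) ?_ ?_ ?_
  · intro a ha b hb hab
    rw [Finset.mem_range] at ha hb
    have h := (ZMod.natCast_eq_natCast_iff' a b p).1 hab
    rwa [Nat.mod_eq_of_lt ha, Nat.mod_eq_of_lt hb] at h
  · intro x _
    exact ⟨x.val, Finset.mem_range.2 (ZMod.val_lt x), ZMod.natCast_zmod_val x⟩
  · intro _ _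
    rfl

theorem DVB_hoeff {p : ℕ} (hp : p ≠ 0) [Fintype (ZMod p)] {y : ZMod p → ℝ}
    (hy : ∀ x, |y x| ≤ 3) (h0 : ∑ x, y x = 0) (l : ℝ) :
    (p : ℝ)⁻¹ * ∑ x, Real.exp (l * y x) ≤ Real.exp (9 * l ^ 2 / 2) := by
  have : NeZero p := ⟨hp⟩
  have hp' : (0 : ℝ) < p := by exact_mod_cast Nat.pos_of_ne_zero hp
  have hc : ∀ x, Real.exp (l * y x) ≤
      (1 + y x / 3) / 2 * Real.exp (3 * l) + (1 - y x / 3) / 2 * Real.exp (-(3 * l)) := by
    intro x
    have h1 := abs_le.1 (hy x)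
    have h := convexOn_exp.2 (Set.mem_univ (3 * l)) (Set.mem_univ (-(3 * l)))
      (show (0 : ℝ) ≤ (1 + y x / 3) / 2 by linarith [h1.1])
      (show (0 : ℝ) ≤ (1 - y x / 3) / 2 by linarith [h1.2]) (by ring)
    simp only [smul_eq_mul] at h
    have he : (1 + y x / 3) / 2 * (3 * l) + (1 - y x / 3) / 2 * -(3 * l) = l * y x := by ring
    rw [he] at h
    exact h
  have hcard : ∑ _x : ZMod p, (1 : ℝ) = p := by
    rw [Finset.sum_const, Finset.card_univ, nsmul_eq_mul, mul_one]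
    have : Fintype.card (ZMod p) = p := by
      rw [← Nat.card_eq_fintype_card, Nat.card_zmod]
    rw [this]
  have hs : ∑ x, Real.exp (l * y x) ≤ p * Real.cosh (3 * l) := by
    refine (Finset.sum_le_sum fun x _ => hc x).trans (le_of_eq ?_)
    rw [Finset.sum_add_distrib, ← Finset.sum_mul, ← Finset.sum_mul, ← Finset.sum_div,
      ← Finset.sum_div, Finset.sum_add_distrib, Finset.sum_sub_distrib, ← Finset.sum_div, h0,
      hcard, Real.cosh_eq]
    ring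
  calc (p : ℝ)⁻¹ * ∑ x, Real.exp (l * y x) ≤ (p : ℝ)⁻¹ * (p * Real.cosh (3 * l)) :=
        mul_le_mul_of_nonneg_left hs (inv_pos.2 hp').le
    _ = Real.cosh (3 * l) := by field_simp
    _ ≤ Real.exp ((3 * l) ^ 2 / 2) := Real.cosh_le_exp_half_sq _
    _ = Real.exp (9 * l ^ 2 / 2) := by ring_nf

theorem DVB_unit (c : ℂ) : ∃ w : ℂ, ‖w‖ = 1 ∧ w * c = (‖c‖ : ℂ) := by
  by_cases h : c = 0
  · exact ⟨1, by simp, by simp [h]⟩
  · have hn : (‖c‖ : ℂ) ≠ 0 := by
      exact_mod_cast norm_ne_zero_iff.2 h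
    refine ⟨(starRingEnd ℂ) c / ‖c‖, ?_, ?_⟩
    · rw [norm_div, RCLike.norm_conj, Complex.norm_real, norm_norm,
        div_self (norm_ne_zero_iff.2 h)]
    · rw [div_mul_eq_mul_div, mul_comm, Complex.mul_conj, Complex.normSq_eq_norm_sq]
      field_simp
      push_cast
      ring

theorem dvb (s : Sys S μ g) (A : Finset ℕ) (hA : ∀ p ∈ A, p.Prime)
    [Fintype ((p : A) → ZMod p)] {α : Type*} [Fintype α] {X : s.Ω → α} (hX : FM X)
    (z : (p : ℕ) → α → ZMod p → ℂ) (hz : ∀ p ∈ A, ∀ a r, ‖z p a r‖ ≤ 3)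
    (hz0 : ∀ p ∈ A, ∀ a, ∑ r ∈ Finset.range p, z p a (r : ZMod p) = 0) {l : ℝ} (hl : 0 < l) :
    ∑ p ∈ A, ‖∫ ω, z p (X ω) (s.R p ω) ∂s.ρ‖ ≤
      (En s.ρ X + En s.ρ (s.Rv A) - En s.ρ (fun ω => (X ω, s.Rv A ω))) / l +
        9 * l / 2 * A.card := by
  classical
  have hne : ∀ p : A, NeZero (p : ℕ) := fun p => ⟨(hA p p.2).ne_zero⟩
  haveI : ∀ p : A, Fintype (ZMod p) := fun p => haveI := hne p; ZMod.fintype p
  choose w hw1 hw2 using fun p : ℕ => DVB_unit (∫ ω, z p (X ω) (s.R p ω) ∂s.ρ)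
  set F : α → ((p : A) → ZMod p) → ℝ := fun a r => l * ∑ p : A, (w p * z p a (r p)).re with hF
  have hU : FM (fun ω => (X ω, s.Rv A ω)) := FM.prod hX (Rv_fm s A)
  have hDV := donsker_varadhan (ρ := s.ρ) hX (Rv_fm s A) F
  -- the integral of `F`
  have hint : ∫ ω, F (X ω) (s.Rv A ω) ∂s.ρ =
      l * ∑ p ∈ A, ‖∫ ω, z p (X ω) (s.R p ω) ∂s.ρ‖ := by
    have h1 := DVA_int (ρ := s.ρ) hU (fun x : α × ((p : A) → ZMod p) => F x.1 x.2)
    have h2 : ∀ p : A, (∫ ω, z p (X ω) (s.R p ω) ∂s.ρ) =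
        ∑ x, (s.ρ.real ((fun ω => (X ω, s.Rv A ω)) ⁻¹' {x})) • z p x.1 (x.2 p) := fun p =>
      DVA_int (ρ := s.ρ) hU (fun x : α × ((p : A) → ZMod p) => z p x.1 (x.2 p))
    have h3 : ∀ p : A, ‖∫ ω, z p (X ω) (s.R p ω) ∂s.ρ‖ =
        ∑ x, (s.ρ.real ((fun ω => (X ω, s.Rv A ω)) ⁻¹' {x})) * (w p * z p x.1 (x.2 p)).re := by
      intro p
      have h4 : (w p * ∫ ω, z p (X ω) (s.R p ω) ∂s.ρ).re =
          ‖∫ ω, z p (X ω) (s.R p ω) ∂s.ρ‖ := by
        rw [hw2 p, Complex.ofReal_re]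
      rw [← h4, h2 p, Finset.mul_sum, Complex.re_sum]
      refine Finset.sum_congr rfl fun x _ => ?_
      rw [mul_smul_comm, Complex.real_smul, Complex.re_ofReal_mul]
    rw [h1, ← Finset.sum_coe_sort A (fun p => ‖∫ ω, z p (X ω) (s.R p ω) ∂s.ρ‖)]
    simp only [smul_eq_mul, hF]
    rw [Finset.sum_congr rfl fun p _ => h3 p, Finset.sum_comm, Finset.mul_sum]
    refine Finset.sum_congr rfl fun x _ => ?_
    rw [← Finset.mul_sum]
    ring
  -- the exponential moment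
  have hinner : ∀ a, ∑ r, s.ρ.real (s.Rv A ⁻¹' {r}) * Real.exp (F a r) ≤
      Real.exp (9 * l ^ 2 / 2 * A.card) := by
    intro a
    have hq : ∀ r, s.ρ.real (s.Rv A ⁻¹' {r}) = ∏ p : A, ((p : ℕ) : ℝ)⁻¹ := by
      intro r
      rw [DVB_pre, r_law s A hA r, Finset.prod_inv_distrib, Finset.prod_coe_sort A (fun p => (p : ℝ))]
    have hex : ∀ r : (p : A) → ZMod p, s.ρ.real (s.Rv A ⁻¹' {r}) * Real.exp (F a r) =
        ∏ p : A, (((p : ℕ) : ℝ)⁻¹ * Real.exp (l * (w p * z p a (r p)).re)) := by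
      intro r
      rw [hq r, hF]
      simp only
      rw [Finset.mul_sum, Real.exp_sum, ← Finset.prod_mul_distrib]
    have hu : (Finset.univ : Finset ((p : A) → ZMod p)) =
        Fintype.piFinset (fun p : A => (Finset.univ : Finset (ZMod p))) := by
      ext r
      simp
    rw [Finset.sum_congr rfl fun r _ => hex r, hu, ← Finset.prod_univ_sum
      (fun p : A => (Finset.univ : Finset (ZMod p)))
      (fun p x => ((p : ℕ) : ℝ)⁻¹ * Real.exp (l * (w p * z p a x).re))]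
    have hfac : ∀ p : A, ∑ x : ZMod p, ((p : ℕ) : ℝ)⁻¹ * Real.exp (l * (w p * z p a x).re) ≤
        Real.exp (9 * l ^ 2 / 2) := by
      intro p
      rw [← Finset.mul_sum]
      refine DVB_hoeff (hA p p.2).ne_zero (y := fun x => (w p * z p a x).re) ?_ ?_ l
      · intro x
        refine (Complex.abs_re_le_norm _).trans ?_
        rw [norm_mul, hw1 p, one_mul]
        exact hz p p.2 a x
      · rw [← Complex.re_sum, ← Finset.mul_sum, ← DVB_range (hA p p.2).ne_zero,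
          hz0 p p.2 a, mul_zero, Complex.zero_re]
    refine (Finset.prod_le_prod (fun p _ => Finset.sum_nonneg fun x _ => by positivity)
      fun p _ => hfac p).trans (le_of_eq ?_)
    rw [Finset.prod_const, ← Real.exp_nat_mul, Finset.card_univ, Fintype.card_coe]
    ring_nf
  have hΛ : ∑ a, ∑ r, s.ρ.real (X ⁻¹' {a}) * s.ρ.real (s.Rv A ⁻¹' {r}) * Real.exp (F a r) ≤
      Real.exp (9 * l ^ 2 / 2 * A.card) := by
    have h1 : ∀ a, ∑ r, s.ρ.real (X ⁻¹' {a}) * s.ρ.real (s.Rv A ⁻¹' {r}) * Real.exp (F a r) ≤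
        s.ρ.real (X ⁻¹' {a}) * Real.exp (9 * l ^ 2 / 2 * A.card) := by
      intro a
      simp only [mul_assoc]
      rw [← Finset.mul_sum]
      exact mul_le_mul_of_nonneg_left (by simpa [mul_assoc] using hinner a) measureReal_nonneg
    refine (Finset.sum_le_sum fun a _ => h1 a).trans (le_of_eq ?_)
    rw [← Finset.sum_mul, DVA_tot hX, one_mul]
  have hΛ0 : 0 ≤ ∑ a, ∑ r, s.ρ.real (X ⁻¹' {a}) * s.ρ.real (s.Rv A ⁻¹' {r}) *
      Real.exp (F a r) :=
    Finset.sum_nonneg fun a _ => Finset.sum_nonneg fun r _ =>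
      mul_nonneg (mul_nonneg measureReal_nonneg measureReal_nonneg) (Real.exp_pos _).le
  have hlog : Real.log (∑ a, ∑ r, s.ρ.real (X ⁻¹' {a}) * s.ρ.real (s.Rv A ⁻¹' {r}) *
      Real.exp (F a r)) ≤ 9 * l ^ 2 / 2 * A.card := by
    rcases hΛ0.eq_or_lt with h0 | h0
    · rw [← h0, Real.log_zero]
      positivity
    · calc Real.log _ ≤ Real.log (Real.exp (9 * l ^ 2 / 2 * A.card)) := Real.log_le_log h0 hΛ
        _ = _ := Real.log_exp _
  rw [hint] at hDV
  have hfin : l * ∑ p ∈ A, ‖∫ ω, z p (X ω) (s.R p ω) ∂s.ρ‖ ≤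
      (En s.ρ X + En s.ρ (s.Rv A) - En s.ρ (fun ω => (X ω, s.Rv A ω))) +
        9 * l ^ 2 / 2 * A.card := by linarith
  have h5 : ∑ p ∈ A, ‖∫ ω, z p (X ω) (s.R p ω) ∂s.ρ‖ ≤
      ((En s.ρ X + En s.ρ (s.Rv A) - En s.ρ (fun ω => (X ω, s.Rv A ω))) +
        9 * l ^ 2 / 2 * A.card) / l := by
    rw [le_div_iff₀ hl]
    linarith
  refine h5.trans (le_of_eq ?_)
  field_simp

end FHE
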