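import Mathlib

/-!
# Multiplicative functions and totally uniquely ergodic systems of zero entropy: working definitions

(MP_2e860a_nt.) None of the definitions of this folder occurs in the frozen statement.
-/

open MeasureTheory Filter Topology
open scoped ComplexConjugate

namespace FHE

/-! ### Functions, derivatives, boxes -/

section Fun

variable {Y : Type*}

/-- `f · conj (f ∘ S^h)` -/
def der (S : Y → Y) (h : ℕ) (f : Y → ℂ) : Y → ℂ := fun v => f v * conj (f (S^[h] v))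

/-- The iterated derivative: the product over the cube of `f (S^(ω·h) v)`. -/
def dl (S : Y → Y) : List ℕ → (Y → ℂ) → Y → ℂ
  | [], f => f
  | h :: t, f => dl S t (der S h f)

/-- The same product without the vertex `0`. -/
def dls (S : Y → Y) : List ℕ → (Y → ℂ) → Y → ℂ
  | [], _ => fun _ => 1
  | h :: t, f => fun v => dls S t f v * conj (dl S t f (S^[h] v))

/-- The product over a box. -/
def bx (S : Y → Y) : List (ℕ × ℕ) → (Y → ℂ) → Y → ℂ
  | [], f => f
  | c :: t, f => bx S t (fun v => f (S^[c.1] v) * conj (f (S^[c.2] v)))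

/-- The product over a box of a function of lists. -/
def bxp : List (ℕ × ℕ) → (List ℕ → ℂ) → ℂ
  | [], Ψ => Ψ []
  | c :: t, Ψ => bxp t (fun s => Ψ (c.1 :: s) * conj (Ψ (c.2 :: s)))

/-- The average over the lists of length `d` with entries `< H`. -/
noncomputable def av {E : Type*} [AddCommMonoid E] [Module ℝ E] (H : ℕ) : ℕ → (List ℕ → E) → E
  | 0, Q => Q []
  | d + 1, Q => (H : ℝ)⁻¹ • ∑ a ∈ Finset.range H, av H d (fun t => Q (a :: t))

/-- The average over boxes; the list contains the side lengths. -/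
noncomputable def avb : List ℕ → (List (ℕ × ℕ) → ℝ) → ℝ
  | [], Q => Q []
  | H :: Hs, Q => ((H : ℝ)⁻¹) ^ 2 *
      ∑ a ∈ Finset.range H, ∑ b ∈ Finset.range H, avb Hs (fun t => Q ((a, b) :: t))

/-- The sum over the lists of length `d` with entries `< M`. -/
def sm (M : ℕ) : ℕ → (List ℕ → ℝ) → ℝ
  | 0, Q => Q []
  | d + 1, Q => ∑ a ∈ Finset.range M, sm M d (fun t => Q (a :: t))

/-- `r + p h`, entrywise. -/
def mx (p : ℕ) (r h : List ℕ) : List ℕ := List.zipWith (fun i j => i + p * j) r h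

/-- complex conjugation `d` times -/
noncomputable def cj (d : ℕ) (z : ℂ) : ℂ := if Even d then z else conj z

/-- The functions `β n`, `n ∈ A`, take distinct values after `t` multiplicative differences. -/
def Inj : ℕ → Finset ℕ → (ℕ → ℂ) → Prop
  | 0, A, β => Set.InjOn β A
  | t + 1, A, β => ∀ a : ℕ, 1 ≤ a →
      Inj t (A.filter fun n => n + a ∈ A) (fun n => β n * conj (β (n + a)))

/-- products of a weight over a cube -/
def wc : List ℕ → (ℕ → ℝ) → ℕ → ℝ
  | [], ν => ν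
  | a :: l, ν => wc l (fun n => ν n * ν (n + a))

/-- distance of the two entries of a pair -/
def df (c : ℕ × ℕ) : ℕ := (c.1 - c.2) + (c.2 - c.1)

end Fun

section Meas

variable {Y : Type*} [MeasurableSpace Y]

/-- Measurable functions bounded by `1`. -/
structure Bd (f : Y → ℂ) : Prop where
  meas : Measurable f
  le : ∀ v, ‖f v‖ ≤ 1

/-- Products of `d` functions bounded by one, each of which misses a coordinate. -/
def Neg : ℕ → (List ℕ → Y → ℂ) → Prop
  | 0, G => ∀ x, G [] x = 1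
  | d + 1, G => ∃ (B : List ℕ → Y → ℂ) (G' : ℕ → List ℕ → Y → ℂ),
      (∀ t, t.length = d → Bd (B t)) ∧ (∀ a, Neg d (G' a)) ∧
        ∀ a t x, t.length = d → G (a :: t) x = B t x * G' a t x

/-- Eigenfunctions of modulus `1`. -/
structure IsEig (S : Y → Y) (μ : Measure Y) (β : ℂ) (e : Y → ℂ) : Prop where
  meas : Measurable e
  norm : ∀ v, ‖e v‖ = 1
  eig : ∀ᵐ v ∂μ, e (S v) = β * e v

/-- The largest squared correlation of `f` with an eigenfunction. -/
noncomputable def es (S : Y → Y) (μ : Measure Y) (f : Y → ℂ) : ℝ :=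
  sSup {r : ℝ | ∃ β e, IsEig S μ β e ∧ r = ‖∫ v, f v * conj (e v) ∂μ‖ ^ 2}

/-- The function `f` is null of order `d` (the uniformity norm of order `d + 1` vanishes). -/
def NN (S : Y → Y) (μ : Measure Y) (d : ℕ) (f : Y → ℂ) : Prop :=
  Tendsto (fun H : ℕ => av H d (fun h => ‖∫ v, dl S h f v ∂μ‖ ^ 2)) atTop (𝓝 (0 : ℝ))

/-- The function correlating with `f` in the inductive step. -/
noncomputable def DD (S : Y → Y) (μ : Measure Y) (f : Y → ℂ) (e : List ℕ → Y → ℂ) (H d : ℕ)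
    (v : Y) : ℂ :=
  av H d fun h => conj (∫ w, dl S h f w * conj (e h w) ∂μ) * (conj (e h v) * dls S h f v)

/-- The entropy of a finite-valued random variable. -/
noncomputable def En {α : Type*} [Fintype α] (ρ : Measure Y) (X : Y → α) : ℝ :=
  ∑ a, Real.negMulLog (ρ.real (X ⁻¹' {a}))

end Meas

/-- the logarithmic average -/
noncomputable def LA (a : ℕ → ℂ) (N : ℕ) : ℂ :=
  (1 : ℂ) / ((Real.log (N : ℝ) : ℝ) : ℂ) * ∑ n ∈ Finset.Icc 1 N, (1 : ℂ) / (n : ℂ) * a n

/-! ### Hypotheses on the base system -/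

/-- Zero entropy: orbit segments of length `n` are covered by `e^(o(n))` orbit segments. -/
def ZE {Y : Type*} [PseudoMetricSpace Y] (S : Y → Y) : Prop :=
  ∀ ε > 0, ∀ δ > 0, ∃ n₀ : ℕ, ∀ n ≥ n₀, ∃ s : Finset Y,
    (s.card : ℝ) ≤ Real.exp (δ * n) ∧ ∀ v : Y, ∃ z ∈ s, ∀ j < n, dist (S^[j] v) (S^[j] z) ≤ ε

/-- The primes of the block `[P, 4 P)`. -/
def Pr (P : ℕ) : Finset ℕ := (Finset.Ico P (4 * P)).filter Nat.Prime

/-! ### The limit system -/

/-- The limit system attached to a multiplicative function `g` of modulus one and a point with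
dense orbit of `(Y, S, μ)`: the law of `(g (n + j), n mod p, S^(p n) y)` for logarithmic averages. -/
structure Sys {Y : Type} [MeasurableSpace Y] (S : Y → Y) (μ : Measure Y) (g : ℕ → ℂ) where
  Ω : Type
  mΩ : MeasurableSpace Ω
  ρ : Measure Ω
  prob : IsProbabilityMeasure ρ
  T : Equiv.Perm Ω
  mT : Measurable T
  mTs : Measurable T.symm
  mp : MeasurePreserving T ρ ρ
  x : Ω → ℂ
  mx : Measurable x
  nx : ∀ ω, ‖x ω‖ = 1
  R : (p : ℕ) → Ω → ZMod p
  mR : ∀ p, Measurable (R p)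
  RT : ∀ p, p ≠ 0 → ∀ ω, R p (T ω) = R p ω + 1
  pi : ℕ → Ω → Y
  mpi : ∀ p, Measurable (pi p)
  piT : ∀ p ω, pi p (T ω) = S^[p] (pi p ω)
  law : ∀ p, 1 ≤ p → MeasurePreserving (pi p) ρ μ
  /-- dilation identity, used for the theorem of Katai -/
  dilK : ∀ p : ℕ, p.Prime → ∀ φ : Y → ℂ, Bd φ →
    ‖(∫ ω, (if R p ω = 0 then (p : ℂ) else 0) * (x ω * φ (pi 1 ω)) ∂ρ) -
      g p * ∫ ω, x ω * φ (pi p ω) ∂ρ‖ ≤ 2 / p
  /-- dilation identity, used for the identity of Tao -/
  dilT : ∀ a : ℤ →₀ ℤ, ∃ C : ℝ, ∀ p : ℕ, p.Prime →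
    ‖(∫ ω, a.prod (fun j k => x ((T ^ j) ω) ^ k) ∂ρ) -
      conj (g p) ^ (a.sum fun _ k => k) *
        ∫ ω, (if R p ω = 0 then (p : ℂ) else 0) *
          a.prod (fun j k => x ((T ^ ((p : ℤ) * j)) ω) ^ k) ∂ρ‖ ≤ C / p

attribute [instance] Sys.mΩ Sys.prob

section Sys

variable {Y : Type} [MeasurableSpace Y] {S : Y → Y} {μ : Measure Y} {g : ℕ → ℂ}

/-- monomials in the coordinates, dilated by `p` -/
noncomputable def Sys.mon (s : Sys S μ g) (p : ℤ) (a : ℤ →₀ ℤ) (ω : s.Ω) : ℂ :=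
  a.prod fun j k => s.x ((s.T ^ (p * j)) ω) ^ k

/-- the degree of a monomial -/
def deg (a : ℤ →₀ ℤ) : ℤ := a.sum fun _ k => k

/-- the past coordinates -/
def Sys.past (s : Sys S μ g) (j : ℕ) (ω : s.Ω) : Fin j → ℂ :=
  fun i => s.x ((s.T.symm)^[(i : ℕ) + 1] ω)

/-- the prediction of `x` from the last `j` values -/
noncomputable def Sys.u (s : Sys S μ g) (j : ℕ) : s.Ω → ℂ :=
  s.ρ[s.x | MeasurableSpace.comap (s.past j) inferInstance]

end Sys

end FHE
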