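import Pool.Agent.FHE.ALB

/-! EIA (~150 lines): algebra of eigenfunctions. `IsEig.norm_eq`: from `eig` at one point (`μ ≠ 0`) and
`norm`. `IsEig.iter`: `e (S^[n] v) = β^n e v` a.e., induction, quasi-invariance (`MeasurePreserving`).
`IsEig.bxp`: induction on `c`, generalizing. `IsEig.factor`: pull back the a.e. identity `iter` for
`p` under `q`. `eig_const`: `e ∘ S = e` a.e. and ergodicity give `e` constant a.e.
(`Ergodic.ae_eq_const_of_ae_eq_comp`-type lemma in Mathlib/Dynamics/Ergodic/Function). `torsion_free`: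
by `iter`, `e ∘ S^n = e` a.e., so `e` is constant a.e. `= z` by ergodicity of `S^[n]`, and `z = β z`. -/

open MeasureTheory Filter Topology
open scoped ComplexConjugate

namespace FHE

variable {Y : Type*} [MeasurableSpace Y] {μ : Measure Y} [IsProbabilityMeasure μ] {S : Y → Y}

theorem IsEig.bd {β : ℂ} {e : Y → ℂ} (h : IsEig S μ β e) : Bd e :=
  ⟨h.meas, fun v => (h.norm v).le⟩

theorem IsEig.norm_eq {β : ℂ} {e : Y → ℂ} (h : IsEig S μ β e) : ‖β‖ = 1 := by
  obtain ⟨v, hv⟩ := h.eig.exists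
  have h1 : ‖e (S v)‖ = ‖β * e v‖ := by rw [hv]
  rw [norm_mul, h.norm, h.norm, mul_one] at h1
  exact h1.symm

theorem IsEig.one : IsEig S μ 1 (fun _ => 1) :=
  ⟨measurable_const, fun _ => norm_one, Eventually.of_forall fun _ => by simp⟩

theorem IsEig.conj {β : ℂ} {e : Y → ℂ} (h : IsEig S μ β e) :
    IsEig S μ (conj β) (fun v => conj (e v)) := by
  refine ⟨Complex.continuous_conj.measurable.comp h.meas, fun v => ?_, ?_⟩
  · rw [Complex.norm_conj]
    exact h.norm v
  · filter_upwards [h.eig] with v hv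
    rw [hv, map_mul]

theorem IsEig.mul {β β' : ℂ} {e e' : Y → ℂ} (h : IsEig S μ β e) (h' : IsEig S μ β' e') :
    IsEig S μ (β * β') (fun v => e v * e' v) := by
  refine ⟨h.meas.mul h'.meas, fun v => ?_, ?_⟩
  · rw [norm_mul, h.norm, h'.norm, one_mul]
  · filter_upwards [h.eig, h'.eig] with v hv hv'
    rw [hv, hv']
    ring

theorem IsEig.iter (hS : MeasurePreserving S μ μ) {β : ℂ} {e : Y → ℂ} (h : IsEig S μ β e)
    (n : ℕ) : ∀ᵐ v ∂μ, e (S^[n] v) = β ^ n * e v := by
  induction n with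
  | zero => exact Eventually.of_forall fun v => by simp
  | succ n ih =>
    have h1 := (hS.iterate n).quasiMeasurePreserving.ae h.eig
    filter_upwards [ih, h1] with v hv hv1
    rw [Function.iterate_succ_apply', hv1, hv]
    ring

theorem IsEig.bxp {β : List ℕ → ℂ} {e : List ℕ → Y → ℂ} (h : ∀ s, IsEig S μ (β s) (e s))
    (c : List (ℕ × ℕ)) : IsEig S μ (bxp c β) (fun v => bxp c fun s => e s v) := by
  induction c generalizing β e with
  | nil => exact h []
  | cons c t ih =>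
    exact ih (β := fun s => β (c.1 :: s) * (starRingEnd ℂ) (β (c.2 :: s)))
      (e := fun s v => e (c.1 :: s) v * (starRingEnd ℂ) (e (c.2 :: s) v))
      fun s => (h _).mul (h _).conj

theorem IsEig.factor {X : Type*} [MeasurableSpace X] {ρ : Measure X} [IsProbabilityMeasure ρ]
    {T : X → X} (hS : MeasurePreserving S μ μ) {q : X → Y} (hq : MeasurePreserving q ρ μ) {p : ℕ}
    (hT : ∀ ω, q (T ω) = S^[p] (q ω)) {β : ℂ} {e : Y → ℂ} (h : IsEig S μ β e) :
    IsEig T ρ (β ^ p) (fun ω => e (q ω)) := by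
  refine ⟨h.meas.comp hq.measurable, fun ω => h.norm _, ?_⟩
  filter_upwards [hq.quasiMeasurePreserving.ae (h.iter hS p)] with ω hω
  rw [hT, hω]

theorem eig_const (hS : Ergodic S μ) {e : Y → ℂ} (h : IsEig S μ 1 e) :
    ∃ z : ℂ, ‖z‖ = 1 ∧ ∀ᵐ v ∂μ, e v = z := by
  have h1 : e ∘ S =ᵐ[μ] e := by
    filter_upwards [h.eig] with v hv
    show e (S v) = e v
    rw [hv, one_mul]
  obtain ⟨z, hz⟩ := hS.ae_eq_const_of_ae_eq_comp_ae h.meas.aestronglyMeasurable h1
  have hz' : ∀ᵐ v ∂μ, e v = z := hz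
  obtain ⟨v, hv⟩ := hz'.exists
  exact ⟨z, by rw [← hv]; exact h.norm v, hz'⟩

theorem torsion_free (hE : ∀ k : ℕ, 1 ≤ k → Ergodic (S^[k]) μ) {β : ℂ} {e : Y → ℂ}
    (h : IsEig S μ β e) {n : ℕ} (hn : 1 ≤ n) (hβ : β ^ n = 1) : β = 1 := by
  have hS : MeasurePreserving S μ μ := by
    have := (hE 1 le_rfl).toMeasurePreserving
    simpa using this
  have h1 : IsEig (S^[n]) μ 1 e := by
    refine ⟨h.meas, h.norm, ?_⟩
    filter_upwards [h.iter hS n] with v hv
    rw [hv, hβ]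
  obtain ⟨z, hz, hze⟩ := eig_const (hE n hn) h1
  obtain ⟨v, hv1, hv2, hv3⟩ := (hze.and ((hS.quasiMeasurePreserving.ae hze).and h.eig)).exists
  rw [hv1, hv2] at hv3
  have hz0 : z ≠ 0 := by
    rw [← norm_ne_zero_iff, hz]
    exact one_ne_zero
  have h4 : (β - 1) * z = 0 := by
    rw [sub_mul, ← hv3]
    ring
  rcases mul_eq_zero.1 h4 with h5 | h5
  · exact sub_eq_zero.1 h5
  · exact absurd h5 hz0

end FHE
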