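import Pool.Agent.FHE.EIA

/-! EIB (~120 lines): Bessel's inequality for eigenfunctions with different eigenvalues. For
`β ≠ β'`: `∫ e conj e' = ∫ (e conj e') ∘ T = β conj β' ∫ e conj e'` and `β conj β' ≠ 1`, so the
eigenfunctions are orthogonal of norm `1`; `0 ≤ ∫ |f - ∑ ⟨f, e_i⟩ e_i|²` gives Bessel (or
`Orthonormal.sum_inner_products_le` in `Lp`). `card_eig`: choose one index for each eigenvalue. -/

open MeasureTheory Filter Topology
open scoped ComplexConjugate

namespace FHE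

variable {X : Type*} [MeasurableSpace X] {ρ : Measure X} [IsProbabilityMeasure ρ] {T : X → X}

private theorem eib_memLp {f : X → ℂ} (hf : Bd f) : MemLp f 2 ρ :=
  MemLp.of_bound hf.meas.aestronglyMeasurable 1 (Eventually.of_forall hf.le)

private theorem eib_inner {f h : X → ℂ} (hf : Bd f) (hh : Bd h) :
    inner ℂ ((eib_memLp (ρ := ρ) hf).toLp f) ((eib_memLp (ρ := ρ) hh).toLp h)
      = ∫ ω, h ω * conj (f ω) ∂ρ := by
  rw [L2.inner_def]
  apply integral_congr_ae
  filter_upwards [(eib_memLp (ρ := ρ) hf).coeFn_toLp, (eib_memLp (ρ := ρ) hh).coeFn_toLp]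
    with ω h1 h2
  rw [h1, h2, RCLike.inner_apply]

private theorem eib_norm {f : X → ℂ} (hf : Bd f) : ‖(eib_memLp (ρ := ρ) hf).toLp f‖ ≤ 1 := by
  have h := Lp.norm_le_of_ae_bound (μ := ρ) (p := 2) (f := (eib_memLp (ρ := ρ) hf).toLp f)
    zero_le_one (by
      filter_upwards [(eib_memLp (ρ := ρ) hf).coeFn_toLp] with ω h1
      rw [h1]; exact hf.le ω)
  have h1 : measureUnivNNReal ρ = 1 := by
    simp [measureUnivNNReal]
  simpa [h1] using h

private theorem eib_conj_bd {f : X → ℂ} (hf : Bd f) : Bd (fun ω => conj (f ω)) :=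
  ⟨Complex.continuous_conj.measurable.comp hf.meas, fun v => by simpa using hf.le v⟩

private theorem eib_orth (hT : MeasurePreserving T ρ ρ) {β β' : ℂ} {e e' : X → ℂ}
    (he : IsEig T ρ β e) (he' : IsEig T ρ β' e') (hb : β ≠ β') :
    ∫ ω, e' ω * conj (e ω) ∂ρ = 0 := by
  have h0 : Measurable fun ω => e' ω * conj (e ω) :=
    he'.meas.mul (Complex.continuous_conj.measurable.comp he.meas)
  have h1 : ∫ ω, e' ω * conj (e ω) ∂ρ = ∫ ω, e' (T ω) * conj (e (T ω)) ∂ρ := by
    conv_lhs => rw [← hT.map_eq]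
    rw [integral_map hT.measurable.aemeasurable h0.aestronglyMeasurable]
  have h2 : ∫ ω, e' (T ω) * conj (e (T ω)) ∂ρ = (β' * conj β) * ∫ ω, e' ω * conj (e ω) ∂ρ := by
    rw [← integral_const_mul]
    apply integral_congr_ae
    filter_upwards [he.eig, he'.eig] with ω h3 h4
    rw [h3, h4, map_mul]
    ring
  have h3 : (1 - β' * conj β) * ∫ ω, e' ω * conj (e ω) ∂ρ = 0 := by
    rw [sub_mul, one_mul, ← h2, ← h1, sub_self]
  rcases mul_eq_zero.mp h3 with h4 | h4
  · exfalso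
    apply hb
    have h5 : β * conj β = 1 := by
      rw [Complex.mul_conj, Complex.normSq_eq_norm_sq, he.norm_eq]; simp
    have h6 : β' * conj β = 1 := by linear_combination -h4
    have h7 : conj β ≠ 0 := by
      intro h; rw [h, mul_zero] at h5; exact zero_ne_one h5
    exact mul_right_cancel₀ h7 (by rw [h5, h6])
  · exact h4

theorem bessel (hT : MeasurePreserving T ρ ρ) {ι : Type*} (A : Finset ι) {β : ι → ℂ}
    {e : ι → X → ℂ} (he : ∀ i ∈ A, IsEig T ρ (β i) (e i)) (hβ : Set.InjOn β A) {f : X → ℂ}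
    (hf : Bd f) : ∑ i ∈ A, ‖∫ ω, f ω * e i ω ∂ρ‖ ^ 2 ≤ 1 := by
  classical
  have hc : ∀ i : A, Bd (fun ω => conj (e i ω)) := fun i => eib_conj_bd (he i i.2).bd
  let v : A → Lp ℂ 2 ρ := fun i => (eib_memLp (ρ := ρ) (hc i)).toLp _
  have hv : Orthonormal ℂ v := by
    rw [orthonormal_iff_ite]
    intro i j
    simp only [v]
    rw [eib_inner (hc i) (hc j)]
    split_ifs with hij
    · subst hij
      have : ∀ ω, conj (e i ω) * conj (conj (e i ω)) = 1 := by
        intro ω
        rw [Complex.mul_conj, Complex.normSq_eq_norm_sq, RCLike.norm_conj, (he i i.2).norm]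
        simp
      simp only [this]
      simp
    · have hne : β j ≠ β i := by
        intro h
        exact hij (Subtype.ext (hβ i.2 j.2 h.symm))
      have h1 := eib_orth hT (he j j.2) (he i i.2) hne
      rw [← h1]
      apply integral_congr_ae
      filter_upwards with ω
      simp only [Complex.conj_conj]
      ring
  have h := hv.sum_inner_products_le ((eib_memLp (ρ := ρ) hf).toLp f) (s := Finset.univ)
  have h1 : ∀ i : A, ‖inner ℂ (v i) ((eib_memLp (ρ := ρ) hf).toLp f)‖ ^ 2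
      = ‖∫ ω, f ω * e i ω ∂ρ‖ ^ 2 := by
    intro i
    simp only [v]
    rw [eib_inner (hc i) hf]
    simp only [Complex.conj_conj]
  rw [Finset.sum_congr rfl (fun i _ => h1 i)] at h
  rw [← Finset.sum_coe_sort A (fun i => ‖∫ ω, f ω * e i ω ∂ρ‖ ^ 2)]
  refine h.trans ?_
  have := eib_norm (ρ := ρ) hf
  have h2 : 0 ≤ ‖(eib_memLp (ρ := ρ) hf).toLp f‖ := norm_nonneg _
  nlinarith

theorem card_eig (hT : MeasurePreserving T ρ ρ) {ι : Type*} (A : Finset ι) {β : ι → ℂ}
    {e : ι → X → ℂ} (he : ∀ i ∈ A, IsEig T ρ (β i) (e i)) {f : X → ℂ} (hf : Bd f) {τ : ℝ}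
    (hτ : 0 ≤ τ) (h : ∀ i ∈ A, τ ≤ ‖∫ ω, f ω * conj (e i ω) ∂ρ‖) :
    (((A.image β).card : ℕ) : ℝ) * τ ^ 2 ≤ 1 := by
  classical
  obtain ⟨B, hBA, hinj, himg⟩ := Finset.exists_subset_injOn_image_eq_of_surjOn (f := β)
    (A : Set ι) (A.image β) (by
      intro b hb
      obtain ⟨a, ha, rfl⟩ := Finset.mem_image.mp (Finset.mem_coe.mp hb)
      exact ⟨a, ha, rfl⟩)
  have hB : ∀ i ∈ B, i ∈ A := fun i hi => hBA hi
  have h1 := bessel hT B (β := fun i => conj (β i)) (e := fun i ω => conj (e i ω))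
    (fun i hi => (he i (hB i hi)).conj) (by
      intro a ha b hb hab
      apply hinj ha hb
      have := congrArg (starRingEnd ℂ) hab
      simpa using this) hf
  have h2 : (B.card : ℝ) * τ ^ 2 ≤ ∑ i ∈ B, ‖∫ ω, f ω * conj (e i ω) ∂ρ‖ ^ 2 := by
    rw [← nsmul_eq_mul]
    apply Finset.card_nsmul_le_sum
    intro i hi
    exact pow_le_pow_left₀ hτ (h i (hB i hi)) 2
  have h3 : (A.image β).card = B.card := by
    rw [← himg, Finset.card_image_of_injOn hinj]
  rw [h3]
  exact h2.trans h1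

end FHE
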