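import Pool.Agent.FHE.Defs

/-! ENA (~120 lines): entropy of finite-valued maps. `X` is called measurable if all fibres are measurable
sets. `En_inj`: the sum over the image. `En_le_log`: Jensen (`Real.concaveOn_negMulLog`,
`ConcaveOn.le_map_sum`). `En_pres`: the laws agree. `En_unif`: `negMulLog (1/k)` summed `k` times. -/

open MeasureTheory Filter Topology
open scoped ComplexConjugate

namespace FHE

variable {Ω : Type*} [MeasurableSpace Ω] {ρ : Measure Ω}

/-- all fibres are measurable -/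
def FM {α : Type*} (X : Ω → α) : Prop := ∀ a, MeasurableSet (X ⁻¹' {a})

theorem FM.comp {α β : Type*} [Fintype α] {X : Ω → α} (hX : FM X) (F : α → β) :
    FM (fun ω => F (X ω)) := by
  intro b
  have h : (fun ω => F (X ω)) ⁻¹' {b} = ⋃ a ∈ {a : α | F a = b}, X ⁻¹' {a} := by
    ext ω
    simp
  rw [h]
  exact MeasurableSet.biUnion (Set.to_countable _) fun a _ => hX a

theorem FM.prod {α β : Type*} {X : Ω → α} {Z : Ω → β} (hX : FM X) (hZ : FM Z) :
    FM (fun ω => (X ω, Z ω)) := by
  intro c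
  have h : (fun ω => (X ω, Z ω)) ⁻¹' {c} = X ⁻¹' {c.1} ∩ Z ⁻¹' {c.2} := by
    ext ω
    simp [Prod.ext_iff]
  rw [h]
  exact (hX _).inter (hZ _)

theorem FM.pi {ι : Type*} [Fintype ι] {α : ι → Type*} {X : (i : ι) → Ω → α i}
    (hX : ∀ i, FM (X i)) : FM (fun ω i => X i ω) := by
  intro c
  have h : (fun ω i => X i ω) ⁻¹' {c} = ⋂ i, X i ⁻¹' {c i} := by
    ext ω
    simp [funext_iff]
  rw [h]
  exact MeasurableSet.iInter fun i => hX i (c i)

theorem En_nonneg [IsProbabilityMeasure ρ] {α : Type*} [Fintype α] (X : Ω → α) :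
    0 ≤ En ρ X := by
  refine Finset.sum_nonneg fun a _ => ?_
  exact Real.negMulLog_nonneg measureReal_nonneg measureReal_le_one

theorem En_le_log [IsProbabilityMeasure ρ] {α : Type*} [Fintype α] [Nonempty α] {X : Ω → α}
    (hX : FM X) : En ρ X ≤ Real.log (Fintype.card α) := by
  have hn : (0 : ℝ) < Fintype.card α := by exact_mod_cast Fintype.card_pos
  have hsum : ∑ a, ρ.real (X ⁻¹' {a}) = 1 := by
    have h1 : ρ.real (⋃ a ∈ (Finset.univ : Finset α), X ⁻¹' {a}) = ∑ a, ρ.real (X ⁻¹' {a}) := by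
      refine measureReal_biUnion_finset ?_ fun a _ => hX a
      intro a _ b _ hab
      refine Set.disjoint_left.2 fun ω h h' => hab ?_
      exact (Set.mem_singleton_iff.1 h).symm.trans (Set.mem_singleton_iff.1 h')
    have h2 : (⋃ a ∈ (Finset.univ : Finset α), X ⁻¹' {a}) = Set.univ := by
      ext ω
      simp
    rw [← h1, h2]
    simp
  have hJ := Real.concaveOn_negMulLog.le_map_sum (t := (Finset.univ : Finset α))
    (w := fun _ => (Fintype.card α : ℝ)⁻¹) (p := fun a => ρ.real (X ⁻¹' {a}))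
    (fun _ _ => inv_nonneg.2 hn.le)
    (by rw [Finset.sum_const, Finset.card_univ, nsmul_eq_mul, mul_inv_cancel₀ hn.ne'])
    (fun a _ => Set.mem_Ici.2 measureReal_nonneg)
  simp only [smul_eq_mul, ← Finset.mul_sum, hsum, mul_one] at hJ
  have e : Real.negMulLog ((Fintype.card α : ℝ)⁻¹) =
      (Fintype.card α : ℝ)⁻¹ * Real.log (Fintype.card α) := by
    rw [Real.negMulLog, Real.log_inv]
    ring
  rw [e] at hJ
  exact le_of_mul_le_mul_left hJ (inv_pos.2 hn)

theorem En_inj [IsProbabilityMeasure ρ] {α β : Type*} [Fintype α] [Fintype β] {X : Ω → α}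
    {F : α → β} (hF : Function.Injective F) : En ρ (fun ω => F (X ω)) = En ρ X := by
  refine (Fintype.sum_of_injective F hF _ _ ?_ ?_).symm
  · intro b hb
    have h : (fun ω => F (X ω)) ⁻¹' {b} = ∅ := by
      ext ω
      simp only [Set.mem_preimage, Set.mem_singleton_iff, Set.mem_empty_iff_false, iff_false]
      exact fun hω => hb ⟨X ω, hω⟩
    simp [h]
  · intro a
    have h : (fun ω => F (X ω)) ⁻¹' {F a} = X ⁻¹' {a} := by
      ext ω
      simp [hF.eq_iff]
    rw [h]

theorem En_pres {α : Type*} [Fintype α] {X : Ω → α} (hX : FM X) {τ : Ω → Ω}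
    (hτ : MeasurePreserving τ ρ ρ) : En ρ (fun ω => X (τ ω)) = En ρ X := by
  refine Finset.sum_congr rfl fun a _ => ?_
  have h : ρ ((fun ω => X (τ ω)) ⁻¹' {a}) = ρ (X ⁻¹' {a}) :=
    hτ.measure_preimage (hX a).nullMeasurableSet
  rw [measureReal_def, measureReal_def, h]

end FHE
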