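import Pool.Agent.FHE.ENA

/-! ENB (~150 lines): submodularity. `En_sub`: with `p (a,b,c)` the joint law, log-sum inequality /
Jensen: `En (X,Z) + En (W,Z) - En (X,W,Z) - En Z = ∑ p(a,b,c) log (p(a,b,c) p(c) / (p(a,c) p(b,c))) ≥
1 - ∑_{p(c) > 0} p(a,c) p(b,c) / p(c) ≥ 0` (`log y ≥ 1 - 1/y`; `Real.one_sub_inv_le_log_of_pos`).
`En_mono`: `negMulLog` is subadditive on `[0,1]`, or from `En_sub`-like expansion
`En (X,Z) - En X = ∑ p(a,c) log (p(a)/p(a,c)) ≥ 0`. -/

open MeasureTheory Filter Topology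
open scoped ComplexConjugate

namespace FHE

variable {Ω : Type*} [MeasurableSpace Ω] {ρ : Measure Ω} [IsProbabilityMeasure ρ]

private theorem enb_key {α β : Type*} [Fintype α] [Fintype β] (p : α → β → ℝ)
    (hp : ∀ a b, 0 ≤ p a b) :
    (∑ a, ∑ b, Real.negMulLog (p a b)) + Real.negMulLog (∑ a, ∑ b, p a b) ≤
      (∑ a, Real.negMulLog (∑ b, p a b)) + ∑ b, Real.negMulLog (∑ a, p a b) := by
  set P : ℝ := ∑ a, ∑ b, p a b with hP
  set r : α → ℝ := fun a => ∑ b, p a b with hr
  set s : β → ℝ := fun b => ∑ a, p a b with hs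
  have hr0 : ∀ a, 0 ≤ r a := fun a => Finset.sum_nonneg fun b _ => hp a b
  have hs0 : ∀ b, 0 ≤ s b := fun b => Finset.sum_nonneg fun a _ => hp a b
  have hP0 : 0 ≤ P := Finset.sum_nonneg fun a _ => hr0 a
  have hPr : ∑ a, r a = P := rfl
  have hPs : ∑ b, s b = P := by rw [hP, hs]; exact Finset.sum_comm
  have hterm : ∀ a b, p a b - r a * s b / P ≤
      p a b * Real.log (p a b) + p a b * Real.log P - p a b * Real.log (r a) -
        p a b * Real.log (s b) := by
    intro a b
    rcases (hp a b).eq_or_lt with h | h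
    · rw [← h]
      have : 0 ≤ r a * s b / P := div_nonneg (mul_nonneg (hr0 a) (hs0 b)) hP0
      simp only [zero_mul]
      linarith
    · have h1 : p a b ≤ r a :=
        Finset.single_le_sum (f := fun b => p a b) (fun b _ => hp a b) (Finset.mem_univ b)
      have h2 : p a b ≤ s b :=
        Finset.single_le_sum (f := fun a => p a b) (fun a _ => hp a b) (Finset.mem_univ a)
      have h3 : r a ≤ P :=
        Finset.single_le_sum (f := fun a => r a) (fun a _ => hr0 a) (Finset.mem_univ a)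
      have hra : 0 < r a := lt_of_lt_of_le h h1
      have hsb : 0 < s b := lt_of_lt_of_le h h2
      have hPp : 0 < P := lt_of_lt_of_le hra h3
      have hy : 0 < p a b * P / (r a * s b) := by positivity
      have hl := Real.one_sub_inv_le_log_of_pos hy
      have hlog : Real.log (p a b * P / (r a * s b)) =
          Real.log (p a b) + Real.log P - Real.log (r a) - Real.log (s b) := by
        rw [Real.log_div (by positivity) (by positivity), Real.log_mul h.ne' hPp.ne',
          Real.log_mul hra.ne' hsb.ne']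
        ring
      rw [hlog] at hl
      have h4 := mul_le_mul_of_nonneg_left hl h.le
      have h5 : p a b * (1 - (p a b * P / (r a * s b))⁻¹) = p a b - r a * s b / P := by
        field_simp
      rw [h5] at h4
      linarith
  have hsum := Finset.sum_le_sum fun a (_ : a ∈ Finset.univ) =>
    Finset.sum_le_sum fun b (_ : b ∈ Finset.univ) => hterm a b
  have hL : ∑ a, ∑ b, (p a b - r a * s b / P) = 0 := by
    simp only [Finset.sum_sub_distrib]
    have : ∑ a, ∑ b, r a * s b / P = P := by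
      simp only [← Finset.sum_div, ← Finset.mul_sum, hPs, ← Finset.sum_mul, hPr]
      by_cases h : P = 0
      · rw [h]; simp
      · field_simp
    rw [this]
    exact sub_self P
  have hR : ∑ a, ∑ b, (p a b * Real.log (p a b) + p a b * Real.log P -
      p a b * Real.log (r a) - p a b * Real.log (s b)) =
      (∑ a, ∑ b, p a b * Real.log (p a b)) + P * Real.log P - (∑ a, r a * Real.log (r a)) -
        ∑ b, s b * Real.log (s b) := by
    simp only [Finset.sum_sub_distrib, Finset.sum_add_distrib]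
    congr 1
    · congr 1
      · congr 1
        simp only [← Finset.sum_mul]
        rfl
      · simp only [hr, Finset.sum_mul]
    · rw [Finset.sum_comm]
      simp only [hs, Finset.sum_mul]
  rw [hL, hR] at hsum
  simp only [Real.negMulLog, neg_mul, Finset.sum_neg_distrib]
  linarith

private theorem enb_mono {β : Type*} [Fintype β] (p : β → ℝ) (hp : ∀ b, 0 ≤ p b) :
    Real.negMulLog (∑ b, p b) ≤ ∑ b, Real.negMulLog (p b) := by
  simp only [Real.negMulLog, neg_mul, Finset.sum_neg_distrib]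
  rw [neg_le_neg_iff, Finset.sum_mul]
  refine Finset.sum_le_sum fun b _ => ?_
  rcases (hp b).eq_or_lt with h | h
  · rw [← h]; simp
  · exact mul_le_mul_of_nonneg_left
      (Real.log_le_log h (Finset.single_le_sum (fun b _ => hp b) (Finset.mem_univ b))) h.le

private theorem enb_marg {α β : Type*} [Fintype α] {X : Ω → α} {Z : Ω → β}
    (hX : FM X) (hZ : FM Z) (b : β) :
    ρ.real (Z ⁻¹' {b}) = ∑ a, ρ.real ((fun ω => (X ω, Z ω)) ⁻¹' {(a, b)}) := by
  have hset : Z ⁻¹' {b} = ⋃ a ∈ (Finset.univ : Finset α), (fun ω => (X ω, Z ω)) ⁻¹' {(a, b)} := by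
    ext ω
    simp
  rw [hset, measureReal_biUnion_finset]
  · intro a _ a' _ haa
    refine Set.disjoint_left.2 fun ω h1 h2 => haa ?_
    simp only [Set.mem_preimage, Set.mem_singleton_iff, Prod.mk.injEq] at h1 h2
    rw [← h1.1, ← h2.1]
  · intro a _
    exact (hX.prod hZ) (a, b)

theorem En_sub {α β γ : Type*} [Fintype α] [Fintype β] [Fintype γ] {X : Ω → α} {W : Ω → β}
    {Z : Ω → γ} (hX : FM X) (hW : FM W) (hZ : FM Z) :
    En ρ (fun ω => (X ω, W ω, Z ω)) + En ρ Z ≤
      En ρ (fun ω => (X ω, Z ω)) + En ρ (fun ω => (W ω, Z ω)) := by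
  have e1 : ∀ a c, ρ.real ((fun ω => (X ω, Z ω)) ⁻¹' {(a, c)}) =
      ∑ b, ρ.real ((fun ω => (X ω, W ω, Z ω)) ⁻¹' {(a, b, c)}) := by
    intro a c
    rw [enb_marg hW (hX.prod hZ) (a, c)]
    refine Finset.sum_congr rfl fun b _ => ?_
    congr 1
    ext ω
    simp only [Set.mem_preimage, Set.mem_singleton_iff, Prod.mk.injEq]
    tauto
  have e2 : ∀ b c, ρ.real ((fun ω => (W ω, Z ω)) ⁻¹' {(b, c)}) =
      ∑ a, ρ.real ((fun ω => (X ω, W ω, Z ω)) ⁻¹' {(a, b, c)}) :=
    fun b c => enb_marg hX (hW.prod hZ) (b, c)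
  have e3 : ∀ c, ρ.real (Z ⁻¹' {c}) =
      ∑ a, ∑ b, ρ.real ((fun ω => (X ω, W ω, Z ω)) ⁻¹' {(a, b, c)}) := by
    intro c
    rw [enb_marg hX hZ c]
    exact Finset.sum_congr rfl fun a _ => e1 a c
  have h1 : En ρ (fun ω => (X ω, W ω, Z ω)) = ∑ c, ∑ a, ∑ b,
      Real.negMulLog (ρ.real ((fun ω => (X ω, W ω, Z ω)) ⁻¹' {(a, b, c)})) := by
    unfold En
    rw [Fintype.sum_prod_type]
    simp only [Fintype.sum_prod_type]
    rw [Finset.sum_comm]
    conv_lhs =>
      enter [2, y]
      rw [Finset.sum_comm]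
    rw [Finset.sum_comm]
    refine Finset.sum_congr rfl fun c _ => ?_
    rw [Finset.sum_comm]
  have h2 : En ρ Z = ∑ c, Real.negMulLog (∑ a, ∑ b,
      ρ.real ((fun ω => (X ω, W ω, Z ω)) ⁻¹' {(a, b, c)})) := by
    unfold En
    exact Finset.sum_congr rfl fun c _ => by rw [e3]
  have h3 : En ρ (fun ω => (X ω, Z ω)) = ∑ c, ∑ a, Real.negMulLog (∑ b,
      ρ.real ((fun ω => (X ω, W ω, Z ω)) ⁻¹' {(a, b, c)})) := by
    unfold En
    rw [Fintype.sum_prod_type, Finset.sum_comm]
    exact Finset.sum_congr rfl fun c _ => Finset.sum_congr rfl fun a _ => by rw [e1]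
  have h4 : En ρ (fun ω => (W ω, Z ω)) = ∑ c, ∑ b, Real.negMulLog (∑ a,
      ρ.real ((fun ω => (X ω, W ω, Z ω)) ⁻¹' {(a, b, c)})) := by
    unfold En
    rw [Fintype.sum_prod_type, Finset.sum_comm]
    exact Finset.sum_congr rfl fun c _ => Finset.sum_congr rfl fun a _ => by rw [e2]
  rw [h1, h2, h3, h4, ← Finset.sum_add_distrib, ← Finset.sum_add_distrib]
  exact Finset.sum_le_sum fun c _ => enb_key _ fun a b => measureReal_nonneg

theorem En_mono {α β : Type*} [Fintype α] [Fintype β] {X : Ω → α} {Z : Ω → β} (hX : FM X)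
    (hZ : FM Z) : En ρ X ≤ En ρ (fun ω => (X ω, Z ω)) := by
  unfold En
  rw [Fintype.sum_prod_type]
  refine Finset.sum_le_sum fun a _ => ?_
  have e : ρ.real (X ⁻¹' {a}) = ∑ b, ρ.real ((fun ω => (X ω, Z ω)) ⁻¹' {(a, b)}) := by
    rw [enb_marg hZ hX a]
    refine Finset.sum_congr rfl fun b _ => ?_
    congr 1
    ext ω
    simp only [Set.mem_preimage, Set.mem_singleton_iff, Prod.mk.injEq]
    tauto
  rw [e]
  exact enb_mono _ fun b => measureReal_nonneg

theorem En_add {α β : Type*} [Fintype α] [Fintype β] {X : Ω → α} {Z : Ω → β} (hX : FM X)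
    (hZ : FM Z) : En ρ (fun ω => (X ω, Z ω)) ≤ En ρ X + En ρ Z := by
  have h := En_sub (ρ := ρ) hX hZ (Z := fun _ : Ω => ()) (fun a => by
    have : (fun _ : Ω => ()) ⁻¹' {a} = Set.univ := by ext ω; simp
    rw [this]; exact MeasurableSet.univ)
  have h0 : En ρ (fun _ : Ω => ()) = 0 := by
    unfold En
    have : (fun _ : Ω => ()) ⁻¹' {()} = Set.univ := by ext ω; simp
    simp
  have e1 : En ρ (fun ω => (X ω, Z ω, ())) = En ρ (fun ω => (X ω, Z ω)) :=
    En_inj (F := fun t : α × β => (t.1, t.2, ())) (X := fun ω => (X ω, Z ω))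
      (fun s t h => by
        simp only [Prod.mk.injEq] at h
        exact Prod.ext h.1 h.2.1)
  have e2 : En ρ (fun ω => (X ω, ())) = En ρ X :=
    En_inj (F := fun t : α => (t, ())) (X := X) (fun s t h => by
      simp only [Prod.mk.injEq] at h
      exact h.1)
  have e3 : En ρ (fun ω => (Z ω, ())) = En ρ Z :=
    En_inj (F := fun t : β => (t, ())) (X := Z) (fun s t h => by
      simp only [Prod.mk.injEq] at h
      exact h.1)
  rw [e1, e2, e3, h0] at h
  linarith

end FHE
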