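import Pool.Agent.FHE.ENB

/-! ENC (~130 lines): blocks. `Xb q T N ω = (q (T^i ω))_{i < N}`. `enc`: induction on `n`; the block of
length `(n+1) N` with `R` is, up to an injection, `(first block of length n N, block (N) ∘ T^(n N), R)`, so
by `En_sub`: `En (X_{(n+1)N}, R) ≤ En (X_{nN}, R) + En (X_N ∘ T^{nN}, R) - En R`, and
`En (X_N ∘ T^{nN}, R) = En (X_N ∘ T^{nN}, R ∘ T^{nN}) = En (X_N, R)` because `R ∘ T = v ∘ R` with a
bijection `v` (`En_inj`, `En_pres`). For `n = 0`: `En (X_0, R) = En R`. -/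

open MeasureTheory Filter Topology
open scoped ComplexConjugate

namespace FHE

variable {Ω : Type*} [MeasurableSpace Ω] {ρ : Measure Ω} [IsProbabilityMeasure ρ]

/-- blocks of coordinates -/
def Xb {κ : Type*} (q : Ω → κ) (T : Ω → Ω) (N : ℕ) (ω : Ω) : Fin N → κ := fun i => q (T^[i] ω)

private theorem enc_fm_comp {α : Type*} {X : Ω → α} (hX : FM X) {τ : Ω → Ω} (hτ : Measurable τ) :
    FM (fun ω => X (τ ω)) := fun a => hτ (hX a)

theorem Xb_fm {κ : Type*} [Fintype κ] {q : Ω → κ} (hq : FM q) {T : Ω → Ω} (hT : Measurable T)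
    (N : ℕ) : FM (Xb q T N) :=
  FM.pi (X := fun (i : Fin N) ω => q (T^[i] ω)) fun i => enc_fm_comp hq (hT.iterate _)

private theorem enc_step {κ β : Type*} [Fintype κ] [Fintype β] {q : Ω → κ} (hq : FM q) {T : Ω → Ω}
    (hT : MeasurePreserving T ρ ρ) {R : Ω → β} (hR : FM R) (v : β ≃ β)
    (hv : ∀ ω, R (T ω) = v (R ω)) (N n : ℕ) :
    En ρ (fun ω => (Xb q T ((n + 1) * N) ω, R ω)) ≤
      En ρ (fun ω => (Xb q T (n * N) ω, R ω)) +
        (En ρ (fun ω => (Xb q T N ω, R ω)) - En ρ R) := by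
  have hlen : (n + 1) * N = n * N + N := by ring
  let G : (Fin ((n + 1) * N) → κ) × β → (Fin (n * N) → κ) × (Fin N → κ) × β := fun t =>
    (fun i => t.1 ⟨i, by have := i.2; omega⟩, fun i => t.1 ⟨n * N + i, by have := i.2; omega⟩, t.2)
  have hG : Function.Injective G := by
    rintro ⟨w, r⟩ ⟨w', r'⟩ h
    simp only [G, Prod.mk.injEq] at h
    obtain ⟨h1, h2, h3⟩ := h
    refine Prod.ext ?_ h3
    funext i
    by_cases hi : (i : ℕ) < n * N
    · exact congrFun h1 ⟨i, hi⟩
    · have hi2 : (i : ℕ) - n * N < N := by have := i.2; omega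
      have h4 := congrFun h2 ⟨(i : ℕ) - n * N, hi2⟩
      have h5 : (⟨n * N + ((i : ℕ) - n * N), by have := i.2; omega⟩ : Fin ((n + 1) * N)) = i := by
        apply Fin.ext
        simp only
        omega
      simp only [h5] at h4
      exact h4
  have e1 : En ρ (fun ω => (Xb q T (n * N) ω, Xb q T N (T^[n * N] ω), R ω)) =
      En ρ (fun ω => (Xb q T ((n + 1) * N) ω, R ω)) := by
    rw [← En_inj (ρ := ρ) (X := fun ω => (Xb q T ((n + 1) * N) ω, R ω)) hG]
    congr 1
    funext ω
    refine Prod.ext rfl (Prod.ext ?_ rfl)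
    funext i
    change q (T^[i] (T^[n * N] ω)) = q (T^[n * N + i] ω)
    rw [← Function.iterate_add_apply, Nat.add_comm]
  have hX2 : FM (fun ω => Xb q T N (T^[n * N] ω)) :=
    enc_fm_comp (Xb_fm hq hT.measurable N) (hT.measurable.iterate _)
  have h2 := En_sub (ρ := ρ) (Xb_fm hq hT.measurable (n * N)) hX2 hR
  have hvn : ∀ (m : ℕ) (ω : Ω), R (T^[m] ω) = v^[m] (R ω) := by
    intro m
    induction m with
    | zero => intro ω; rfl
    | succ m ih => intro ω; rw [Function.iterate_succ_apply', hv, ih, Function.iterate_succ_apply']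
  have e3 : En ρ (fun ω => (Xb q T N (T^[n * N] ω), R ω)) =
      En ρ (fun ω => (Xb q T N ω, R ω)) := by
    have hinj : Function.Injective
        (fun t : (Fin N → κ) × β => (t.1, (v^[n * N]) t.2)) := by
      rintro ⟨a, b⟩ ⟨a', b'⟩ h
      simp only [Prod.mk.injEq] at h
      exact Prod.ext h.1 ((v.injective.iterate _) h.2)
    have h3 := En_inj (ρ := ρ) (X := fun ω => (Xb q T N (T^[n * N] ω), R ω)) hinj
    rw [← h3, ← En_pres ((Xb_fm hq hT.measurable N).prod hR) (hT.iterate (n * N))]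
    congr 1
    funext ω
    simp only [Prod.mk.injEq, true_and]
    exact (hvn _ ω).symm
  rw [e1, e3] at h2
  linarith

theorem enc {κ β : Type*} [Fintype κ] [Fintype β] {q : Ω → κ} (hq : FM q) {T : Ω → Ω}
    (hT : MeasurePreserving T ρ ρ) {R : Ω → β} (hR : FM R) (v : β ≃ β)
    (hv : ∀ ω, R (T ω) = v (R ω)) (N n : ℕ) :
    En ρ (fun ω => (Xb q T (n * N) ω, R ω)) ≤
      En ρ R + n * (En ρ (fun ω => (Xb q T N ω, R ω)) - En ρ R) := by
  induction n with
  | zero =>
    have hE : IsEmpty (Fin (0 * N)) := by rw [Nat.zero_mul]; infer_instance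
    have hinj : Function.Injective
        (fun b : β => ((fun i : Fin (0 * N) => (hE.elim i : κ)), b)) := by
      intro b b' h
      simp only [Prod.mk.injEq, true_and] at h
      exact h
    have h := En_inj (ρ := ρ) (X := R) hinj
    have h2 : (fun ω => (Xb q T (0 * N) ω, R ω)) =
        fun ω => ((fun i : Fin (0 * N) => (hE.elim i : κ)), R ω) := by
      funext ω
      refine Prod.ext ?_ rfl
      funext i
      exact hE.elim i
    rw [h2]
    simp only [Nat.cast_zero, zero_mul, add_zero]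
    exact h.le
  | succ n ih =>
    have h := enc_step hq hT hR v hv N n
    push_cast
    linarith

end FHE
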