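import Pool.Agent.FHE.Defs

/-! KAP (~120 lines): the conditional expectation of `x` given `π₁` as a function on `Y`. E.g. take
`w := s.ρ[x | comap (pi 1)]`; it is strongly measurable for the comap, so `w = κ₁ ∘ pi 1` with `κ₁`
measurable (`StronglyMeasurable`/`Measurable.exists_eq_measurable_comp`-type factorisation), `‖w‖ ≤ 1`
a.e., put `κ v := if ‖κ₁ v‖ ≤ 1 then κ₁ v else 0`. Use `condExp_mul_of_stronglyMeasurable_left/right`,
`integral_condExp`, `law 1`. -/

open MeasureTheory Filter Topology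
open scoped ComplexConjugate

namespace FHE

variable {Y : Type} [MeasurableSpace Y] {S : Y → Y} {μ : Measure Y} {g : ℕ → ℂ}

private theorem kap_law (s : Sys S μ g) {F : Y → ℂ} (hF : Measurable F) :
    ∫ ω, F (s.pi 1 ω) ∂s.ρ = ∫ v, F v ∂μ := by
  have h7 := (s.law 1 le_rfl)
  have h8 := integral_map (μ := s.ρ) (f := F) h7.measurable.aemeasurable hF.aestronglyMeasurable
  rw [h7.map_eq] at h8
  exact h8.symm

theorem kap (s : Sys S μ g) : ∃ κ : Y → ℂ, Bd κ ∧ ∀ φ : Y → ℂ, Measurable φ →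
    (∃ C : ℝ, ∀ v, ‖φ v‖ ≤ C) →
      ∫ ω, s.x ω * φ (s.pi 1 ω) ∂s.ρ = ∫ v, κ v * φ v ∂μ := by
  classical
  set m : MeasurableSpace s.Ω := MeasurableSpace.comap (s.pi 1) inferInstance with hm
  have hle : m ≤ s.mΩ := (s.mpi 1).comap_le
  have hxint : Integrable s.x s.ρ := Integrable.mono' (integrable_const (1 : ℝ))
    s.mx.aestronglyMeasurable (Filter.Eventually.of_forall fun ω => (s.nx ω).le)
  obtain ⟨κ₁, hκ₁, hw⟩ := (stronglyMeasurable_condExp (m := m) (μ := s.ρ)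
    (f := s.x)).exists_eq_measurable_comp
  have hwn : ∀ᵐ ω ∂s.ρ, ‖κ₁ (s.pi 1 ω)‖ ≤ 1 := by
    have := ae_bdd_norm_condExp_of_ae_bdd_norm (m := m) (μ := s.ρ) (R := 1) (f := s.x)
      (Filter.Eventually.of_forall fun ω => by simp [s.nx ω])
    filter_upwards [this] with ω h
    rw [hw] at h
    simpa using h
  let κ : Y → ℂ := fun v => if ‖κ₁ v‖ ≤ 1 then κ₁ v else 0
  have hκm : Measurable κ := Measurable.ite
    (measurableSet_le hκ₁.measurable.norm measurable_const) hκ₁.measurable measurable_const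
  have hκb : ∀ v, ‖κ v‖ ≤ 1 := by
    intro v
    by_cases h : ‖κ₁ v‖ ≤ 1
    · simp only [κ, if_pos h]
      exact h
    · simp only [κ, if_neg h, norm_zero]
      exact zero_le_one
  refine ⟨κ, ⟨hκm, hκb⟩, fun φ hφ ⟨C, hC⟩ => ?_⟩
  have hφm : Measurable[m] (fun ω => φ (s.pi 1 ω)) := hφ.comp (comap_measurable _)
  have hφs : StronglyMeasurable[m] (fun ω => φ (s.pi 1 ω)) := hφm.stronglyMeasurable
  have hpint : Integrable (fun ω => s.x ω * φ (s.pi 1 ω)) s.ρ := by
    refine Integrable.mono' (integrable_const C)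
      (s.mx.mul (hφ.comp (s.mpi 1))).aestronglyMeasurable
      (Filter.Eventually.of_forall fun ω => ?_)
    rw [norm_mul, s.nx, one_mul]
    exact hC _
  have h1 := condExp_bilin_of_aestronglyMeasurable_right (m := m) (μ := s.ρ)
    (ContinuousLinearMap.mul ℝ ℂ) (f := s.x) (g := fun ω => φ (s.pi 1 ω))
    hφs.aestronglyMeasurable hpint hxint
  have h2 : ∫ ω, s.x ω * φ (s.pi 1 ω) ∂s.ρ = ∫ ω, κ (s.pi 1 ω) * φ (s.pi 1 ω) ∂s.ρ := by
    rw [← integral_condExp hle (f := fun ω => s.x ω * φ (s.pi 1 ω))]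
    refine integral_congr_ae ?_
    filter_upwards [h1, hwn] with ω h3 h4
    have h5 : κ (s.pi 1 ω) = κ₁ (s.pi 1 ω) := by simp only [κ, if_pos h4]
    rw [h5]
    have h6 : (s.ρ[s.x | m]) ω = κ₁ (s.pi 1 ω) := congrFun hw ω
    rw [← h6]
    exact h3
  rw [h2]
  exact kap_law s (hκm.mul hφ)

end FHE
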