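import Pool.Agent.FHE.KTA

/-! KAT (~200 lines): the theorem of Kátai on blocks. Let `c ≤ ‖∫ x φ(π₁)‖`, `‖φ‖ ≤ 2`. For a finite set
`A` of primes with `a := ∑_{p ∈ A} 1/p`: `tk` (`w = x φ(π₁)`, `B = 2`) and `dilK` (applied to `φ/2`):
`a c ≤ 2 √a + ∑_{p ∈ A} (1/p) (‖∫ x φ(π_p)‖ + 4/p)`. Take for `A` all primes in `[4^i₀, 4^(i₁+1))` in the
blocks `i` with `card (Pr (4^i)) ≥ 4^i / (i+1)²`. The other blocks contribute at most
`∑ 1/(i+1)² ≤ 2` to `∑ 1/p`, which diverges (`Nat.Primes.not_summable_one_div`), so `i₁` can be chosen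
(depending on `c, i₀` only) with `a ≥ 64/c² + 16/c`; `∑ 4/p² ≤ 4`(say, telescoping). Then
`∑_{p ∈ A} (1/p) ‖∫ x φ(π_p)‖ ≥ a c / 4`, so one of the blocks satisfies
`∑_{Pr} (1/p) ‖..‖ ≥ (c/4) ∑_{Pr} 1/p`, and `1/(4 · 4^i) ≤ 1/p ≤ 1/4^i` there. -/

open MeasureTheory Filter Topology
open scoped ComplexConjugate

namespace FHE

variable {Y : Type} [MeasurableSpace Y] {S : Y → Y} {μ : Measure Y} {g : ℕ → ℂ}

private theorem kat_step (m : ℕ) : (∑ n ∈ Finset.range (4 ^ (m + 1)),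
    Set.indicator {p : ℕ | p.Prime} (fun n : ℕ => (1 : ℝ) / n) n) =
    (∑ n ∈ Finset.range (4 ^ m), Set.indicator {p : ℕ | p.Prime} (fun n : ℕ => (1 : ℝ) / n) n) +
      ∑ p ∈ Pr (4 ^ m), (p : ℝ)⁻¹ := by
  have h1 : (4 : ℕ) ^ m ≤ 4 ^ (m + 1) := Nat.pow_le_pow_right (by norm_num) (Nat.le_succ m)
  rw [← Finset.sum_range_add_sum_Ico _ h1]
  congr 1
  unfold Pr
  rw [Finset.sum_filter, pow_succ, mul_comm (4 ^ m) 4]
  apply Finset.sum_congr rfl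
  intro n _
  by_cases hn : n.Prime
  · rw [if_pos hn, Set.indicator_of_mem (show n ∈ {p : ℕ | p.Prime} from hn), one_div]
  · rw [if_neg hn, Set.indicator_of_notMem (show n ∉ {p : ℕ | p.Prime} from hn)]

private theorem kat_le {i p : ℕ} (hp : p ∈ Pr (4 ^ i)) : p.Prime ∧ (4 : ℝ) ^ i ≤ p ∧
    (p : ℝ) ≤ 4 * 4 ^ i := by
  unfold Pr at hp
  rw [Finset.mem_filter, Finset.mem_Ico] at hp
  refine ⟨hp.2, ?_, ?_⟩
  · exact_mod_cast hp.1.1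
  · exact_mod_cast hp.1.2.le

private theorem kat_bad (i : ℕ) : ∑ p ∈ Pr (4 ^ i), (p : ℝ)⁻¹ ≤ ((Pr (4 ^ i)).card : ℝ) / 4 ^ i := by
  have h : ∀ p ∈ Pr (4 ^ i), (p : ℝ)⁻¹ ≤ ((4 : ℝ) ^ i)⁻¹ := fun p hp =>
    inv_anti₀ (by positivity) (kat_le hp).2.1
  refine (Finset.sum_le_sum h).trans ?_
  rw [Finset.sum_const, nsmul_eq_mul, div_eq_mul_inv]

/-- enough primes in good blocks -/
theorem good_blocks (B : ℝ) (i₀ : ℕ) : ∃ i₁ : ℕ, i₀ ≤ i₁ ∧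
    B ≤ ∑ i ∈ (Finset.Icc i₀ i₁).filter
      (fun i : ℕ => (4 : ℝ) ^ i / ((i : ℝ) + 1) ^ 2 ≤ ((Pr (4 ^ i)).card : ℝ)),
        ∑ p ∈ Pr (4 ^ i), (p : ℝ)⁻¹ := by
  by_contra hcon
  push Not at hcon
  apply not_summable_one_div_on_primes
  set f : ℕ → ℝ := Set.indicator {p : ℕ | p.Prime} (fun n : ℕ => (1 : ℝ) / n) with hf
  have hf0 : ∀ n, 0 ≤ f n := fun n => Set.indicator_nonneg (fun n _ => by positivity) n
  have hsum : Summable (fun i : ℕ => 1 / ((i : ℝ) + 1) ^ 2) := by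
    have h1 := (summable_nat_add_iff 1).2 (Real.summable_one_div_nat_pow.2 (one_lt_two))
    refine h1.congr fun i => ?_
    push_cast
    rfl
  set C : ℝ := ∑' i : ℕ, 1 / ((i : ℝ) + 1) ^ 2 with hC
  have hC0 : 0 ≤ C := tsum_nonneg fun i => by positivity
  set G : ℕ → ℝ := fun m => ∑ n ∈ Finset.range (4 ^ m), f n with hG
  have hG0 : 0 ≤ G i₀ := Finset.sum_nonneg fun n _ => hf0 n
  have key : ∀ i₁, i₀ ≤ i₁ → G (i₁ + 1) = G i₀ + ∑ i ∈ Finset.Icc i₀ i₁, ∑ p ∈ Pr (4 ^ i), (p : ℝ)⁻¹ := by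
    intro i₁ hi
    induction i₁, hi using Nat.le_induction with
    | base =>
      rw [Finset.Icc_self, Finset.sum_singleton]
      exact kat_step i₀
    | succ m hm ih =>
      rw [← Finset.insert_Icc_right_eq_Icc_add_one (by omega), Finset.sum_insert (by simp)]
      have h1 : G (m + 1 + 1) = G (m + 1) + ∑ p ∈ Pr (4 ^ (m + 1)), (p : ℝ)⁻¹ := kat_step (m + 1)
      rw [h1, ih]
      ring
  have hbound : ∀ i₁, i₀ ≤ i₁ → G (i₁ + 1) ≤ G i₀ + (B + C) := by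
    intro i₁ hi
    rw [key i₁ hi]
    have h1 := hcon i₁ hi
    have h2 := Finset.sum_filter_add_sum_filter_not (Finset.Icc i₀ i₁)
      (fun i : ℕ => (4 : ℝ) ^ i / ((i : ℝ) + 1) ^ 2 ≤ ((Pr (4 ^ i)).card : ℝ))
      (fun i => ∑ p ∈ Pr (4 ^ i), (p : ℝ)⁻¹)
    have h3 : ∑ i ∈ (Finset.Icc i₀ i₁).filter
        (fun i : ℕ => ¬ (4 : ℝ) ^ i / ((i : ℝ) + 1) ^ 2 ≤ ((Pr (4 ^ i)).card : ℝ)),
        ∑ p ∈ Pr (4 ^ i), (p : ℝ)⁻¹ ≤ C := by
      refine le_trans (Finset.sum_le_sum (g := fun i : ℕ => 1 / ((i : ℝ) + 1) ^ 2) ?_)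
        (hsum.sum_le_tsum _ fun i _ => by positivity)
      intro i hi
      rw [Finset.mem_filter] at hi
      have h4 := lt_of_not_ge hi.2
      refine (kat_bad i).trans ?_
      rw [div_le_div_iff₀ (by positivity) (by positivity)]
      rw [lt_div_iff₀ (by positivity)] at h4
      linarith
    linarith
  refine summable_of_sum_range_le (c := G i₀ + (B + C)) hf0 fun n => ?_
  have h1 : n ≤ 4 ^ (max i₀ n + 1) := by
    have h2 : n < 4 ^ n := Nat.lt_pow_self (by norm_num)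
    have h3 : (4 : ℕ) ^ n ≤ 4 ^ (max i₀ n + 1) :=
      Nat.pow_le_pow_right (by norm_num) ((le_max_right _ _).trans (Nat.le_succ _))
    omega
  exact (Finset.sum_le_sum_of_subset_of_nonneg (Finset.range_mono h1) fun _ _ _ => hf0 _).trans
    (hbound _ (le_max_left _ _))

theorem kat (s : Sys S μ g) (hg : ∀ p, p.Prime → ‖g p‖ ≤ 1) {c : ℝ} (hc : 0 < c) (i₀ : ℕ) :
    ∃ i₁ : ℕ, ∀ φ : Y → ℂ, Measurable φ → (∀ v, ‖φ v‖ ≤ 2) →
      c ≤ ‖∫ ω, s.x ω * φ (s.pi 1 ω) ∂s.ρ‖ →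
      ∃ i : ℕ, i₀ ≤ i ∧ i ≤ i₁ ∧ (4 : ℝ) ^ i / ((i : ℝ) + 1) ^ 2 ≤ ((Pr (4 ^ i)).card : ℝ) ∧
        c / 16 * ((Pr (4 ^ i)).card : ℝ) ≤
          ∑ p ∈ Pr (4 ^ i), ‖∫ ω, s.x ω * φ (s.pi p ω) ∂s.ρ‖ := by
  obtain ⟨i₁, hi₁, hB⟩ := good_blocks (64 / c ^ 2 + 16 / c) i₀
  refine ⟨i₁, fun φ hφm hφ hcφ => ?_⟩
  set I : Finset ℕ := (Finset.Icc i₀ i₁).filter
      (fun i : ℕ => (4 : ℝ) ^ i / ((i : ℝ) + 1) ^ 2 ≤ ((Pr (4 ^ i)).card : ℝ)) with hI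
  set A : Finset ℕ := I.biUnion fun i => Pr (4 ^ i) with hA
  have hdisj : ∀ i ∈ I, ∀ j ∈ I, i ≠ j → Disjoint (Pr (4 ^ i)) (Pr (4 ^ j)) := by
    have key : ∀ i j : ℕ, i < j → Disjoint (Pr (4 ^ i)) (Pr (4 ^ j)) := by
      intro i j hij
      rw [Finset.disjoint_left]
      intro p hp hq
      unfold Pr at hp hq
      rw [Finset.mem_filter, Finset.mem_Ico] at hp hq
      have h1 : (4 : ℕ) ^ (i + 1) ≤ 4 ^ j := Nat.pow_le_pow_right (by norm_num) hij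
      have h2 : (4 : ℕ) ^ (i + 1) = 4 * 4 ^ i := by rw [pow_succ]; ring
      omega
    intro i _ j _ hij
    rcases lt_or_gt_of_ne hij with h | h
    · exact key i j h
    · exact (key j i h).symm
  have hsumA : ∀ F : ℕ → ℝ, ∑ p ∈ A, F p = ∑ i ∈ I, ∑ p ∈ Pr (4 ^ i), F p := fun F =>
    Finset.sum_biUnion hdisj
  have hAp : ∀ p ∈ A, p.Prime := by
    intro p hp
    rw [hA, Finset.mem_biUnion] at hp
    obtain ⟨i, _, hp⟩ := hp
    exact (kat_le hp).1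
  set a : ℝ := ∑ p ∈ A, (p : ℝ)⁻¹ with ha
  have haB : 64 / c ^ 2 + 16 / c ≤ a := by
    rw [ha, hsumA]
    exact hB
  have ha0 : 0 ≤ a := Finset.sum_nonneg fun p _ => by positivity
  set b : ℕ → ℝ := fun p => ‖∫ ω, s.x ω * φ (s.pi p ω) ∂s.ρ‖ with hb
  have hb0 : ∀ p, 0 ≤ b p := fun p => norm_nonneg _
  have hφ2 : Bd (fun v => φ v / 2) := by
    refine ⟨hφm.div_const 2, fun v => ?_⟩
    rw [norm_div]
    have := hφ v
    simp only [Complex.norm_ofNat]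
    linarith
  have hp1 : ∀ p ∈ A, ‖∫ ω, (if s.R p ω = 0 then (1 : ℂ) else 0) * (s.x ω * φ (s.pi 1 ω)) ∂s.ρ‖ ≤
      (p : ℝ)⁻¹ * b p + 4 * ((p : ℝ)⁻¹) ^ 2 := by
    intro p hp
    have hpp := hAp p hp
    have hpc : (p : ℂ) ≠ 0 := by exact_mod_cast hpp.ne_zero
    have hpr : (0 : ℝ) < p := by exact_mod_cast hpp.pos
    have h1 := s.dilK p hpp _ hφ2
    have h2 : (∫ ω, (if s.R p ω = 0 then (p : ℂ) else 0) * (s.x ω * (φ (s.pi 1 ω) / 2)) ∂s.ρ) =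
        ((p : ℂ) / 2) * ∫ ω, (if s.R p ω = 0 then (1 : ℂ) else 0) * (s.x ω * φ (s.pi 1 ω)) ∂s.ρ := by
      rw [← integral_const_mul]
      apply integral_congr_ae
      refine Filter.Eventually.of_forall fun ω => ?_
      simp only
      split_ifs <;> ring
    have h3 : (∫ ω, s.x ω * (φ (s.pi p ω) / 2) ∂s.ρ) =
        (1 / 2 : ℂ) * ∫ ω, s.x ω * φ (s.pi p ω) ∂s.ρ := by
      rw [← integral_const_mul]
      apply integral_congr_ae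
      refine Filter.Eventually.of_forall fun ω => ?_
      simp only
      ring
    rw [h2, h3] at h1
    set X := ∫ ω, (if s.R p ω = 0 then (1 : ℂ) else 0) * (s.x ω * φ (s.pi 1 ω)) ∂s.ρ with hX
    set Z := ∫ ω, s.x ω * φ (s.pi p ω) ∂s.ρ with hZ
    have h4 : ‖(p : ℂ) / 2 * X‖ ≤ 2 / p + ‖g p * (1 / 2 * Z)‖ := by
      have h5 := norm_sub_norm_le ((p : ℂ) / 2 * X) (g p * (1 / 2 * Z))
      linarith
    have h5 : ‖g p * (1 / 2 * Z)‖ ≤ 1 / 2 * ‖Z‖ := by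
      rw [norm_mul, norm_mul]
      have h6 : ‖(1 / 2 : ℂ)‖ = 1 / 2 := by norm_num
      rw [h6]
      have h7 := hg p hpp
      have h8 : 0 ≤ 1 / 2 * ‖Z‖ := by positivity
      nlinarith
    have h6 : ‖(p : ℂ) / 2 * X‖ = p / 2 * ‖X‖ := by
      rw [norm_mul, norm_div, Complex.norm_natCast]
      norm_num
    rw [h6] at h4
    have h7 : (p : ℝ) * ‖X‖ ≤ 4 / p + ‖Z‖ := by
      have : 2 * (2 / (p : ℝ)) = 4 / p := by ring
      linarith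
    have h8 : ‖X‖ = (p : ℝ)⁻¹ * (p * ‖X‖) := by field_simp
    rw [h8]
    have h9 : (p : ℝ)⁻¹ * (p * ‖X‖) ≤ (p : ℝ)⁻¹ * (4 / p + ‖Z‖) :=
      mul_le_mul_of_nonneg_left h7 (by positivity)
    refine h9.trans (le_of_eq ?_)
    have h10 : b p = ‖Z‖ := rfl
    rw [h10]
    ring
  have htk := tk s A hAp (w := fun ω => s.x ω * φ (s.pi 1 ω)) (s.mx.mul (hφm.comp (s.mpi 1))) (B := 2)
    (fun ω => by
      rw [norm_mul, s.nx, one_mul]
      exact hφ _)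
  set W := ∫ ω, s.x ω * φ (s.pi 1 ω) ∂s.ρ with hW
  have h1 : a * ‖W‖ ≤ 2 * Real.sqrt a + ∑ p ∈ A, ((p : ℝ)⁻¹ * b p + 4 * ((p : ℝ)⁻¹) ^ 2) := by
    rw [Finset.sum_sub_distrib] at htk
    have h2 : ∑ p ∈ A, (p : ℂ)⁻¹ * W = ((a : ℝ) : ℂ) * W := by
      rw [← Finset.sum_mul, ha]
      push_cast
      rfl
    rw [h2] at htk
    have h3 : ‖((a : ℝ) : ℂ) * W‖ = a * ‖W‖ := by
      rw [norm_mul, Complex.norm_real, Real.norm_of_nonneg ha0]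
    have h4 := norm_sub_norm_le (((a : ℝ) : ℂ) * W)
      (∑ p ∈ A, ∫ ω, (if s.R p ω = 0 then (1 : ℂ) else 0) * (s.x ω * φ (s.pi 1 ω)) ∂s.ρ)
    rw [norm_sub_rev, h3] at h4
    have h5 : ‖∑ p ∈ A, ∫ ω, (if s.R p ω = 0 then (1 : ℂ) else 0) * (s.x ω * φ (s.pi 1 ω)) ∂s.ρ‖ ≤
        ∑ p ∈ A, ((p : ℝ)⁻¹ * b p + 4 * ((p : ℝ)⁻¹) ^ 2) :=
      (norm_sum_le _ _).trans (Finset.sum_le_sum hp1)
    linarith
  have hsq : ∑ p ∈ A, ((p : ℝ)⁻¹) ^ 2 ≤ 1 := by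
    obtain ⟨M, hM⟩ : ∃ M : ℕ, ∀ p ∈ A, p < M := by
      refine ⟨A.sup id + 1, fun p hp => ?_⟩
      have : p ≤ A.sup id := Finset.le_sup (f := id) hp
      omega
    have h2 : A ⊆ Finset.Ico 2 (M + 2) := by
      intro p hp
      rw [Finset.mem_Ico]
      exact ⟨(hAp p hp).two_le, by have := hM p hp; omega⟩
    have h3 : ∀ M : ℕ, ∑ n ∈ Finset.Ico 2 (M + 2), (((n : ℕ) : ℝ)⁻¹) ^ 2 ≤ 1 - 1 / ((M : ℝ) + 1) := by
      intro M
      induction M with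
      | zero => simp
      | succ M ih =>
        rw [show M + 1 + 2 = (M + 2) + 1 by ring, Finset.sum_Ico_succ_top (by omega)]
        push_cast
        have h4 : (((M : ℝ) + 2)⁻¹) ^ 2 ≤ 1 / ((M : ℝ) + 1) - 1 / ((M : ℝ) + 1 + 1) := by
          rw [div_sub_div _ _ (by positivity) (by positivity), inv_pow, inv_eq_one_div,
            div_le_div_iff₀ (by positivity) (by positivity)]
          nlinarith
        linarith
    refine (Finset.sum_le_sum_of_subset_of_nonneg h2 fun _ _ _ => by positivity).trans ((h3 M).trans ?_)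
    have : 0 ≤ 1 / ((M : ℝ) + 1) := by positivity
    linarith
  have hcW : c ≤ ‖W‖ := hcφ
  have h2 : c / 2 * a ≤ ∑ p ∈ A, (p : ℝ)⁻¹ * b p := by
    rw [Finset.sum_add_distrib, ← Finset.mul_sum] at h1
    have h3 : a * c ≤ a * ‖W‖ := mul_le_mul_of_nonneg_left hcW ha0
    have h4 : 2 * Real.sqrt a ≤ a * c / 4 := by
      have h5 : 64 / c ^ 2 ≤ a := by
        have : 0 ≤ 16 / c := by positivity
        linarith
      have h6 : 8 / c ≤ Real.sqrt a := by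
        apply Real.le_sqrt_of_sq_le
        rw [div_pow]
        norm_num
        exact h5
      have h7 : a = Real.sqrt a * Real.sqrt a := (Real.mul_self_sqrt ha0).symm
      have h8 : 8 ≤ c * Real.sqrt a := by
        rw [div_le_iff₀ hc] at h6
        linarith
      have h9 : 0 ≤ Real.sqrt a := Real.sqrt_nonneg _
      nlinarith
    have h5 : 4 ≤ a * c / 4 := by
      have h6 : 16 / c ≤ a := by
        have : 0 ≤ 64 / c ^ 2 := by positivity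
        linarith
      rw [div_le_iff₀ hc] at h6
      linarith
    linarith
  have h3 : ∑ i ∈ I, c / 2 * ∑ p ∈ Pr (4 ^ i), (p : ℝ)⁻¹ ≤ ∑ i ∈ I, ∑ p ∈ Pr (4 ^ i), (p : ℝ)⁻¹ * b p := by
    rw [← Finset.mul_sum, ← hsumA, ← hsumA]
    exact h2
  have hIne : I.Nonempty := by
    rw [Finset.nonempty_iff_ne_empty]
    intro h0
    rw [ha, hsumA, h0, Finset.sum_empty] at haB
    have : 0 < 64 / c ^ 2 + 16 / c := by positivity
    linarith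
  obtain ⟨i, hiI, hi⟩ := Finset.exists_le_of_sum_le hIne h3
  have hiI' := hiI
  rw [hI, Finset.mem_filter, Finset.mem_Icc] at hiI'
  refine ⟨i, hiI'.1.1, hiI'.1.2, hiI'.2, ?_⟩
  have h4 : ∑ p ∈ Pr (4 ^ i), (p : ℝ)⁻¹ * b p ≤ ((4 : ℝ) ^ i)⁻¹ * ∑ p ∈ Pr (4 ^ i), b p := by
    rw [Finset.mul_sum]
    apply Finset.sum_le_sum
    intro p hp
    exact mul_le_mul_of_nonneg_right (inv_anti₀ (by positivity) (kat_le hp).2.1) (hb0 p)
  have h5 : ((Pr (4 ^ i)).card : ℝ) * (4 * (4 : ℝ) ^ i)⁻¹ ≤ ∑ p ∈ Pr (4 ^ i), (p : ℝ)⁻¹ := by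
    rw [← nsmul_eq_mul, ← Finset.sum_const]
    apply Finset.sum_le_sum
    intro p hp
    have hpp : (0 : ℝ) < p := by exact_mod_cast (kat_le hp).1.pos
    exact inv_anti₀ hpp (kat_le hp).2.2
  have h6 : (0 : ℝ) < (4 : ℝ) ^ i := by positivity
  have h7 : c / 2 * (((Pr (4 ^ i)).card : ℝ) * (4 * (4 : ℝ) ^ i)⁻¹) ≤
      ((4 : ℝ) ^ i)⁻¹ * ∑ p ∈ Pr (4 ^ i), b p := by
    have := mul_le_mul_of_nonneg_left h5 (by positivity : (0 : ℝ) ≤ c / 2)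
    linarith
  have h8 : c / 8 * ((Pr (4 ^ i)).card : ℝ) ≤ ∑ p ∈ Pr (4 ^ i), b p := by
    have h9 := mul_le_mul_of_nonneg_left h7 h6.le
    have h10 : (4 : ℝ) ^ i * (c / 2 * (((Pr (4 ^ i)).card : ℝ) * (4 * (4 : ℝ) ^ i)⁻¹)) =
        c / 8 * ((Pr (4 ^ i)).card : ℝ) := by
      field_simp
      ring
    have h11 : (4 : ℝ) ^ i * (((4 : ℝ) ^ i)⁻¹ * ∑ p ∈ Pr (4 ^ i), b p) = ∑ p ∈ Pr (4 ^ i), b p := by
      field_simp
    rw [h10, h11] at h9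
    exact h9
  have h9 : c / 16 * ((Pr (4 ^ i)).card : ℝ) ≤ c / 8 * ((Pr (4 ^ i)).card : ℝ) := by
    apply mul_le_mul_of_nonneg_right _ (Nat.cast_nonneg _)
    linarith
  exact h9.trans h8

end FHE
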