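import Pool.Agent.FHE.MNA

/-! MNB (~60 lines): `mna` for `U = Prod.map S S` on `Y × Y` and `F (v, w) = f v * conj (f w)`:
`bx U c F (v, w) = bx S c f v * conj (bx S c f w)` (induction on `c`, generalizing `F` in the form
`F (v, w) = f v * conj (f w)`), so `∫ bx U c F = ‖∫ bx S c f‖²` (`integral_prod_mul`). -/

open MeasureTheory Filter Topology
open scoped ComplexConjugate

namespace FHE

private theorem mnb_bx {Y : Type*} (S : Y → Y) (c : List (ℕ × ℕ)) (f : Y → ℂ) (x : Y × Y) :
    bx (Prod.map S S) c (fun x => f x.1 * conj (f x.2)) x = bx S c f x.1 * conj (bx S c f x.2) := by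
  induction c generalizing f with
  | nil => rfl
  | cons a t ih =>
    have h1 : (fun x : Y × Y => (fun x : Y × Y => f x.1 * conj (f x.2)) ((Prod.map S S)^[a.1] x) *
        conj ((fun x : Y × Y => f x.1 * conj (f x.2)) ((Prod.map S S)^[a.2] x))) =
        fun x : Y × Y => (fun v => f (S^[a.1] v) * conj (f (S^[a.2] v))) x.1 *
          conj ((fun v => f (S^[a.1] v) * conj (f (S^[a.2] v))) x.2) := by
      funext x
      rw [Prod.map_iterate, Prod.map_iterate]
      simp only [Prod.map_fst, Prod.map_snd, map_mul, Complex.conj_conj]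
      ring
    change bx (Prod.map S S) t (fun x : Y × Y => (fun x : Y × Y => f x.1 * conj (f x.2))
      ((Prod.map S S)^[a.1] x) * conj ((fun x : Y × Y => f x.1 * conj (f x.2))
      ((Prod.map S S)^[a.2] x))) x = _
    rw [h1]
    exact ih (fun v => f (S^[a.1] v) * conj (f (S^[a.2] v)))

theorem mnb {Y : Type*} [MeasurableSpace Y] {μ : Measure Y} [IsProbabilityMeasure μ]
    {S : Y → Y} (hS : MeasurePreserving S μ μ) (Hs Hs' : List ℕ)
    (h : List.Forall₂ (fun H H' => 1 ≤ H ∧ 1 ≤ H' ∧ H ∣ H') Hs Hs') {f : Y → ℂ} (hf : Bd f) :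
    avb Hs' (fun c => ‖∫ v, bx S c f v ∂μ‖ ^ 2) ≤ avb Hs (fun c => ‖∫ v, bx S c f v ∂μ‖ ^ 2) := by
  have hU : MeasurePreserving (Prod.map S S) (μ.prod μ) (μ.prod μ) := hS.prod hS
  have hF : Bd (fun x : Y × Y => f x.1 * conj (f x.2)) := by
    refine ⟨(hf.meas.comp measurable_fst).mul
      (Complex.continuous_conj.measurable.comp (hf.meas.comp measurable_snd)), fun x => ?_⟩
    rw [norm_mul, RCLike.norm_conj]
    exact mul_le_one₀ (hf.le _) (norm_nonneg _) (hf.le _)
  have key : ∀ c : List (ℕ × ℕ), (∫ x, bx (Prod.map S S) c (fun x => f x.1 * conj (f x.2)) x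
      ∂(μ.prod μ)).re = ‖∫ v, bx S c f v ∂μ‖ ^ 2 := by
    intro c
    have h1 : ∫ x, bx (Prod.map S S) c (fun x => f x.1 * conj (f x.2)) x ∂(μ.prod μ) =
        (∫ v, bx S c f v ∂μ) * ∫ w, conj (bx S c f w) ∂μ := by
      rw [← integral_prod_mul]
      congr 1
      funext x
      exact mnb_bx S c f x
    rw [h1, integral_conj, Complex.mul_conj, Complex.ofReal_re, Complex.normSq_eq_norm_sq]
  have h2 := mna hU Hs Hs' h hF
  simp only [key] at h2
  exact h2

end FHE
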