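import Pool.Agent.FHE.KLA
import Pool.Agent.FHE.MNB

/-! KL (~120 lines): the key lemma. Contrapositive: assume that for every `c > 0` there is `H ≥ 1` with
`av H d (es ...) < c`. Given `ε > 0`: take such an `H` for `c = ε`, `M₀` from `kla` (with `ε`) and
`L := H * (M₀ + 1)`, a multiple of `H` with `L ≥ M₀`. For `N ≥ L` let `K := L * (2 * N / L + 1)`, so
`2 N ≤ K ≤ 4 N`, `L ∣ K`, `H ∣ K`. With `Q h := ‖∫ dl S h f‖²`:
`av N (d+1) Q ≤ 4^(d+1) avb (replicate (d+1) (2N)) (c ↦ Q (c.map df))` (`av_le_avb_df`)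
`= 4^(d+1) avb (replicate (d+1) (2N)) (c ↦ ‖∫ bx S c f‖²)` (`norm_int_bx`)
`≤ 4^(d+1) (K / (2N))^(2(d+1)) avb (replicate (d+1) K) (..)` (`avb_le_range`), `K / (2N) ≤ 2`,
`≤ 4^(d+1) 4^(d+1) avb (L :: replicate d H) (..)` (`mnb`) `≤ 4^(d+1) 4^(d+1) 2^d (2 ε)` (`kla`).
As the averages are `≥ 0`, they tend to `0`. -/

open MeasureTheory Filter Topology
open scoped ComplexConjugate

namespace FHE

private lemma kl_forall (H K : ℕ) (hH : 1 ≤ H) (hK : 1 ≤ K) (h : H ∣ K) (d : ℕ) :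
    List.Forall₂ (fun H H' => 1 ≤ H ∧ 1 ≤ H' ∧ H ∣ H') (List.replicate d H)
      (List.replicate d K) := by
  induction d with
  | zero => exact List.Forall₂.nil
  | succ d ih => exact List.Forall₂.cons ⟨hH, hK, h⟩ ih

theorem kl {Y : Type*} [MeasurableSpace Y] {μ : Measure Y} [IsProbabilityMeasure μ] {S : Y → Y}
    (hS : Ergodic S μ) {f : Y → ℂ} (hf : Bd f) (d : ℕ) (h : ¬ NN S μ (d + 1) f) :
    ∃ c : ℝ, 0 < c ∧ ∀ H : ℕ, 1 ≤ H → c ≤ av H d (fun h => es S μ (dl S h f)) := by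
  by_contra hcon
  apply h
  have hcon' : ∀ c : ℝ, 0 < c → ∃ H : ℕ, 1 ≤ H ∧ av H d (fun h => es S μ (dl S h f)) < c := by
    intro c hc
    by_contra h1
    apply hcon
    refine ⟨c, hc, fun H hH => ?_⟩
    by_contra h2
    exact h1 ⟨H, hH, not_le.mp h2⟩
  set Q : List ℕ → ℝ := fun h => ‖∫ v, dl S h f v ∂μ‖ ^ 2 with hQ
  have hQ0 : ∀ t, 0 ≤ Q t := fun t => by positivity
  have key : ∀ ε : ℝ, 0 < ε → ∃ L : ℕ, ∀ N ≥ L,
      av N (d + 1) Q ≤ 4 ^ (d + 1) * (4 ^ (d + 1) * (2 ^ d * (2 * ε))) := by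
    intro ε hε
    obtain ⟨H, hH, hav⟩ := hcon' ε hε
    obtain ⟨M₀, hM₀⟩ := kla hS hf d hH hε
    set L : ℕ := H * (M₀ + 1) with hL
    have hL1 : 1 ≤ L := Nat.mul_pos hH (Nat.succ_pos _)
    have hLM : M₀ ≤ L := by
      calc M₀ ≤ M₀ + 1 := Nat.le_succ _
        _ = 1 * (M₀ + 1) := (one_mul _).symm
        _ ≤ H * (M₀ + 1) := Nat.mul_le_mul_right _ hH
    refine ⟨L, fun N hN => ?_⟩
    have hN1 : 1 ≤ N := hL1.trans hN
    have h2N : 1 ≤ 2 * N := by omega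
    set K : ℕ := L * (2 * N / L + 1) with hK
    have hLpos : 0 < L := hL1
    have hK1 : 2 * N ≤ K := by
      have h1 := Nat.lt_mul_div_succ (2 * N) hLpos
      exact h1.le
    have hK2 : K ≤ 4 * N := by
      have h1 : L * (2 * N / L) ≤ 2 * N := Nat.mul_div_le _ _
      have h2 : K = L * (2 * N / L) + L := by rw [hK]; ring
      omega
    have hKpos : 1 ≤ K := h2N.trans hK1
    have s1 := av_le_avb_df hN1 (d + 1) hQ0
    have s2 : avb (List.replicate (d + 1) (2 * N)) (fun c => Q (c.map df)) =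
        avb (List.replicate (d + 1) (2 * N)) (fun c => ‖∫ v, bx S c f v ∂μ‖ ^ 2) := by
      apply avb_congr
      intro c _
      rw [hQ]
      simp only
      rw [norm_int_bx hS.toMeasurePreserving c hf.meas]
    have s3 := avb_le_range h2N hK1 (d + 1) (Q := fun c => ‖∫ v, bx S c f v ∂μ‖ ^ 2)
      (fun c => by positivity)
    have s4 : (((K : ℝ) / ((2 * N : ℕ) : ℝ)) ^ (2 * (d + 1))) ≤ 4 ^ (d + 1) := by
      have h1 : (K : ℝ) / ((2 * N : ℕ) : ℝ) ≤ 2 := by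
        rw [div_le_iff₀ (by exact_mod_cast h2N)]
        have : (K : ℝ) ≤ ((4 * N : ℕ) : ℝ) := by exact_mod_cast hK2
        push_cast at this ⊢
        linarith
      calc ((K : ℝ) / ((2 * N : ℕ) : ℝ)) ^ (2 * (d + 1)) ≤ 2 ^ (2 * (d + 1)) :=
            pow_le_pow_left₀ (by positivity) h1 _
        _ = 4 ^ (d + 1) := by rw [pow_mul]; norm_num
    have hF : List.Forall₂ (fun H H' => 1 ≤ H ∧ 1 ≤ H' ∧ H ∣ H') (L :: List.replicate d H)
        (List.replicate (d + 1) K) :=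
      List.Forall₂.cons ⟨hL1, hKpos, ⟨_, hK⟩⟩
        (kl_forall H K hH hKpos ⟨(M₀ + 1) * (2 * N / L + 1), by rw [hK, hL]; ring⟩ d)
    have s5 := mnb hS.toMeasurePreserving _ _ hF hf
    have s6 := hM₀ L hLM
    have s7 : avb (L :: List.replicate d H) (fun c => ‖∫ v, bx S c f v ∂μ‖ ^ 2) ≤
        2 ^ d * (2 * ε) := by
      refine s6.trans ?_
      refine mul_le_mul_of_nonneg_left ?_ (by positivity)
      linarith
    have s8 : 0 ≤ avb (List.replicate (d + 1) K) (fun c => ‖∫ v, bx S c f v ∂μ‖ ^ 2) :=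
      avb_nonneg _ fun c _ => by positivity
    calc av N (d + 1) Q
        ≤ 4 ^ (d + 1) * avb (List.replicate (d + 1) (2 * N)) (fun c => Q (c.map df)) := s1
      _ ≤ 4 ^ (d + 1) * (4 ^ (d + 1) * (2 ^ d * (2 * ε))) := by
        refine mul_le_mul_of_nonneg_left ?_ (by positivity)
        rw [s2]
        refine s3.trans ?_
        refine mul_le_mul s4 (s5.trans s7) s8 (by positivity)
  unfold NN
  rw [Metric.tendsto_atTop]
  intro ε hε
  set C : ℝ := 4 ^ (d + 1) * (4 ^ (d + 1) * (2 ^ d * 2)) with hC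
  have hC0 : 0 < C := by positivity
  obtain ⟨L, hL⟩ := key (ε / (2 * C)) (by positivity)
  refine ⟨L, fun N hN => ?_⟩
  have h1 := hL N hN
  have h2 : 0 ≤ av N (d + 1) Q := av_nonneg _ _ fun t _ => hQ0 t
  rw [Real.dist_eq, sub_zero, abs_of_nonneg h2]
  refine h1.trans_lt ?_
  have h3 : (4 : ℝ) ^ (d + 1) * (4 ^ (d + 1) * (2 ^ d * (2 * (ε / (2 * C))))) = ε / 2 := by
    rw [hC]
    field_simp
  rw [h3]
  linarith

end FHE
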