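import Pool.Agent.FHE.SSB
import Pool.Agent.FHE.KL
import Pool.Agent.FHE.KAT

/-! SST (~200 lines): the inductive step. Suppose not `NN (d+1) f`; `c` from `kl`. Let
`q := (c/32)^(2^d)`, `τ := q / (4 · 4^(2d))`; `i₀` from `sc` with `τ` and `ε = τ`; `i₁` from `kat` with
`c, i₀`. Let `Q := (4^(i₁+1))!` and `H := n Q`; it is divisible by `4^i` and by all `p ∈ Pr (4^i)` for
`i ≤ i₁`. For each list `h` take `β h, e h` from `exists_eig` for `dl S h f` (`dl_bd`) and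
`D := DD S μ f e H d`, `φ := D - ∫ D` (norm `≤ 2`). By `dd_int`, `∫ f D ≥ (1/2) av H d (es ..) ≥ c/2`, so
`‖∫ x φ(π₁)‖ = ‖2 ∫ f φ‖ ≥ c` (`∫ f = 0`). `kat` gives `i ∈ [i₀, i₁]`, `P = 4^i`. With `F := (x - ∫ x)/2`
(`Bd`), `∫ x φ(π_p) = 2 ∫ F D(π_p)` (law of `π_p`). So `∑_{Pr P} ‖∫ F D(π_p)‖ ≥ (c/32) card`, hence
(power mean) `∑ ‖..‖^(2^d) ≥ q card (Pr P)`. By `ssb` with `M = τ 4^i/(i+1)² ≤ τ card`:
`q card ≤ 4^(2d) (2 τ card + ∑_p avb ..)`. For `n` large (by `null_part` for each of the finitely many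
`p ∈ ⋃_{i ≤ i₁} Pr (4^i)`; `H / P → ∞`) each `avb` is `≤ τ`, so `q card ≤ 4^(2d) 3 τ card = (3/4) q card`:
contradiction, as `card > 0`. -/

open MeasureTheory Filter Topology
open scoped ComplexConjugate

namespace FHE

variable {Y : Type} [MeasurableSpace Y] {S : Y → Y} {μ : Measure Y} {g : ℕ → ℂ}

private lemma sst_int {X : Type*} [MeasurableSpace X] {μ : Measure X} [IsProbabilityMeasure μ]
    {f : X → ℂ} (hf : Measurable f) {C : ℝ} (hC : ∀ v, ‖f v‖ ≤ C) : Integrable f μ :=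
  Integrable.of_bound hf.aestronglyMeasurable C (Eventually.of_forall hC)

private lemma sst_comp {X Z : Type*} [MeasurableSpace X] [MeasurableSpace Z] {ρ : Measure X}
    {m : Measure Z} {q : X → Z} (hq : MeasurePreserving q ρ m) {D : Z → ℂ} (hD : Measurable D) :
    ∫ ω, D (q ω) ∂ρ = ∫ v, D v ∂m := by
  rw [← hq.map_eq, integral_map hq.measurable.aemeasurable hD.aestronglyMeasurable]

/-- power mean -/
private lemma sst_pow {ι : Type*} (s : Finset ι) (a : ι → ℝ) (ha : ∀ i ∈ s, 0 ≤ a i) {b : ℝ}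
    (hb : 0 ≤ b) (h : b * s.card ≤ ∑ i ∈ s, a i) (n : ℕ) :
    b ^ n * s.card ≤ ∑ i ∈ s, a i ^ n := by
  rcases s.eq_empty_or_nonempty with rfl | hne
  · simp
  have hc : (0 : ℝ) < s.card := by exact_mod_cast hne.card_pos
  have h1 := Real.pow_arith_mean_le_arith_mean_pow s (fun _ => (s.card : ℝ)⁻¹) a
    (fun _ _ => by positivity) (by rw [Finset.sum_const, nsmul_eq_mul, mul_inv_cancel₀ hc.ne']) ha n
  rw [← Finset.mul_sum, ← Finset.mul_sum] at h1
  have h2 : b ≤ (s.card : ℝ)⁻¹ * ∑ i ∈ s, a i := by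
    rw [inv_mul_eq_div, le_div_iff₀ hc]
    exact h
  have h3 : b ^ n ≤ (s.card : ℝ)⁻¹ * ∑ i ∈ s, a i ^ n := (pow_le_pow_left₀ hb h2 n).trans h1
  rw [inv_mul_eq_div, le_div_iff₀ hc] at h3
  exact h3

/-- the null part is small for all relevant primes simultaneously -/
private lemma sst_null [IsProbabilityMeasure μ] (hS : MeasurePreserving S μ μ) {f : Y → ℂ}
    (hf : Bd f) {d : ℕ} (hN : NN S μ d f) {τ : ℝ} (hτ : 0 < τ) (i₁ : ℕ) :
    ∃ n : ℕ, 1 ≤ n ∧ ∀ i ≤ i₁, ∀ p ∈ Pr (4 ^ i),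
      avb (List.replicate d (n * (4 ^ (i₁ + 1)).factorial / 4 ^ i))
        (fun c => ‖∫ v, bx (S^[p]) c f v ∂μ‖) ≤ τ := by
  have hdvd : ∀ i ≤ i₁, 4 ^ i ∣ (4 ^ (i₁ + 1)).factorial := fun i hi =>
    Nat.dvd_factorial (pow_pos (by norm_num) _)
      (Nat.pow_le_pow_right (by norm_num) (by omega))
  have hev : ∀ᶠ n : ℕ in atTop, ∀ i ∈ Finset.range (i₁ + 1), ∀ p ∈ Pr (4 ^ i),
      avb (List.replicate d (n * (4 ^ (i₁ + 1)).factorial / 4 ^ i))
        (fun c => ‖∫ v, bx (S^[p]) c f v ∂μ‖) ≤ τ := by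
    rw [Filter.eventually_all_finset]
    intro i hi
    rw [Filter.eventually_all_finset]
    intro p hp
    have hi' : i ≤ i₁ := by
      have := Finset.mem_range.mp hi
      omega
    have hp1 : 1 ≤ p := by
      have h1 := (Finset.mem_filter.mp hp).2
      exact h1.one_lt.le
    have hpos : 1 ≤ (4 ^ (i₁ + 1)).factorial / 4 ^ i :=
      Nat.div_pos (Nat.le_of_dvd (Nat.factorial_pos _) (hdvd i hi')) (pow_pos (by norm_num) _)
    have ht : Tendsto (fun n : ℕ => n * ((4 ^ (i₁ + 1)).factorial / 4 ^ i)) atTop atTop :=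
      tendsto_id.atTop_mul_const' (by omega)
    have h2 := (null_part hS hf hN hp1).comp ht
    have h3 := h2.eventually (gt_mem_nhds hτ)
    filter_upwards [h3] with n hn
    rw [Nat.mul_div_assoc n (hdvd i hi')]
    exact hn.le
  obtain ⟨n, hn, hn1⟩ := (hev.and (eventually_ge_atTop 1)).exists
  exact ⟨n, hn1, fun i hi p hp => hn i (Finset.mem_range.mpr (by omega)) p hp⟩

theorem sst (s : Sys S μ g) [IsProbabilityMeasure μ]
    (hE : ∀ k : ℕ, 1 ≤ k → Ergodic (S^[k]) μ) (hg : ∀ p, p.Prime → ‖g p‖ ≤ 1) {f : Y → ℂ}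
    (hf : Bd f) (hf0 : ∫ v, f v ∂μ = 0)
    (hx : ∀ φ : Y → ℂ, Measurable φ → (∀ v, ‖φ v‖ ≤ 2) → ∫ v, φ v ∂μ = 0 →
      ∫ ω, s.x ω * φ (s.pi 1 ω) ∂s.ρ = 2 * ∫ v, f v * φ v ∂μ)
    (d : ℕ) (hN : NN S μ d f) : NN S μ (d + 1) f := by
  by_contra hcon
  have hE1 : Ergodic S μ := by simpa using hE 1 le_rfl
  have hS : Measurable S := hE1.measurable
  obtain ⟨c, hc, hcav⟩ := kl hE1 hf d hcon
  set q : ℝ := (c / 32) ^ (2 ^ d) with hq
  have hq0 : 0 < q := by positivity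
  set τ : ℝ := q / (4 * 4 ^ (2 * d)) with hτ
  have hτ0 : 0 < τ := by positivity
  obtain ⟨i₀, hi₀⟩ := sc s hE hf d hτ0 hτ0
  obtain ⟨i₁, hkat⟩ := kat s hg hc i₀
  obtain ⟨n, hn1, hn⟩ := sst_null hE1.toMeasurePreserving hf hN hτ0 i₁
  set Q : ℕ := (4 ^ (i₁ + 1)).factorial with hQ
  have hQ0 : 1 ≤ Q := Nat.factorial_pos _
  set H : ℕ := n * Q with hH
  have hH1 : 1 ≤ H := Nat.mul_pos hn1 hQ0
  choose β e he using fun h : List ℕ => exists_eig (S := S) (μ := μ) (dl_bd hS h hf)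
  have hee : ∀ h, IsEig S μ (β h) (e h) := fun h => (he h).1
  have hes : ∀ h, es S μ (dl S h f) ≤ 2 * ‖∫ v, dl S h f v * conj (e h v) ∂μ‖ ^ 2 :=
    fun h => (he h).2
  set D : Y → ℂ := DD S μ f e H d with hD
  have hDb : Bd D := dd_bd hS hf hee hH1 d
  have hfD := dd_int hS hf hee hH1 d
  rw [← hD] at hfD
  set a : ℝ := av H d (fun h => ‖∫ w, dl S h f w * conj (e h w) ∂μ‖ ^ 2) with ha
  have hac : c / 2 ≤ a := by
    have h1 : av H d (fun h => es S μ (dl S h f)) ≤ av H d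
        (fun h => 2 * ‖∫ w, dl S h f w * conj (e h w) ∂μ‖ ^ 2) :=
      av_mono H d fun h _ _ => hes h
    rw [av_mul_left] at h1
    have h2 := hcav H hH1
    linarith
  set ID : ℂ := ∫ v, D v ∂μ with hID
  have hID1 : ‖ID‖ ≤ 1 := by
    have := norm_integral_le_of_norm_le_const (μ := μ) (f := D) (C := 1)
      (Eventually.of_forall hDb.le)
    simpa using this
  have hDi : Integrable D μ := sst_int hDb.meas hDb.le
  have hfi : Integrable f μ := sst_int hf.meas hf.le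
  have hfDi : Integrable (fun v => f v * D v) μ := by
    refine sst_int (hf.meas.mul hDb.meas) (C := 1) fun v => ?_
    rw [norm_mul]
    exact mul_le_one₀ (hf.le v) (norm_nonneg _) (hDb.le v)
  -- the test function
  set φ : Y → ℂ := fun v => D v - ID with hφ
  have hφm : Measurable φ := hDb.meas.sub_const ID
  have hφ2 : ∀ v, ‖φ v‖ ≤ 2 := fun v => by
    have h1 := norm_sub_le (D v) ID
    have h2 := hDb.le v
    change ‖D v - ID‖ ≤ 2
    linarith
  have hφ0 : ∫ v, φ v ∂μ = 0 := by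
    change ∫ v, (D v - ID) ∂μ = 0
    rw [integral_sub hDi (integrable_const _), integral_const, ← hID]
    simp
  have hfφ : ∫ v, f v * φ v ∂μ = (a : ℂ) := by
    have h1 : ∀ v, f v * φ v = f v * D v - f v * ID := fun v => by
      change f v * (D v - ID) = _
      ring
    simp only [h1]
    rw [integral_sub hfDi (hfi.mul_const _), integral_mul_const, hf0, zero_mul, sub_zero, hfD]
  have hcorr : c ≤ ‖∫ ω, s.x ω * φ (s.pi 1 ω) ∂s.ρ‖ := by
    rw [hx φ hφm hφ2 hφ0, hfφ, norm_mul, Complex.norm_real, Real.norm_eq_abs]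
    have h3 : ‖(2 : ℂ)‖ = 2 := by simp
    rw [h3]
    have := le_abs_self a
    linarith
  obtain ⟨i, hi0i, hii1, hcard, hsum⟩ := hkat φ hφm hφ2 hcorr
  set P : ℕ := 4 ^ i with hP
  have hP1 : 1 ≤ P := Nat.one_le_pow _ _ (by norm_num)
  set K : ℝ := ((Pr P).card : ℝ) with hK
  have hK0 : 0 < K := lt_of_lt_of_le (by positivity) hcard
  -- centred x
  set XI : ℂ := ∫ ω, s.x ω ∂s.ρ with hXI
  have hXI1 : ‖XI‖ ≤ 1 := by
    have := norm_integral_le_of_norm_le_const (μ := s.ρ) (f := s.x) (C := 1)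
      (Eventually.of_forall fun ω => (s.nx ω).le)
    simpa using this
  set F : s.Ω → ℂ := fun ω => (s.x ω - XI) / 2 with hF
  have hFm : Measurable F := (s.mx.sub_const XI).div_const 2
  have hFb : Bd F := by
    refine ⟨hFm, fun v => ?_⟩
    change ‖(s.x v - XI) / 2‖ ≤ 1
    rw [norm_div]
    have h1 := norm_sub_le (s.x v) XI
    have h2 := (s.nx v).le
    have h3 : ‖(2 : ℂ)‖ = 2 := by simp
    rw [h3]
    linarith
  have hpp : ∀ p ∈ Pr P, 1 ≤ p := fun p hp => ((Finset.mem_filter.mp hp).2).one_lt.le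
  have hlaw : ∀ p ∈ Pr P, ∫ ω, s.x ω * φ (s.pi p ω) ∂s.ρ = 2 * ∫ ω, F ω * D (s.pi p ω) ∂s.ρ := by
    intro p hp
    have hmp := s.law p (hpp p hp)
    have hDp : Measurable fun ω => D (s.pi p ω) := hDb.meas.comp (s.mpi p)
    have hxi : Integrable s.x s.ρ := sst_int s.mx (C := 1) fun ω => (s.nx ω).le
    have hDpi : Integrable (fun ω => D (s.pi p ω)) s.ρ := sst_int hDp (C := 1) fun ω => hDb.le _
    have hxD : Integrable (fun ω => s.x ω * D (s.pi p ω)) s.ρ := by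
      refine sst_int (s.mx.mul hDp) (C := 1) fun v => ?_
      rw [norm_mul]
      exact mul_le_one₀ (s.nx v).le (norm_nonneg _) (hDb.le _)
    have hDint : ∫ ω, D (s.pi p ω) ∂s.ρ = ID := sst_comp hmp hDb.meas
    have h1 : ∀ ω, s.x ω * φ (s.pi p ω) = s.x ω * D (s.pi p ω) - s.x ω * ID := fun ω => by
      change s.x ω * (D (s.pi p ω) - ID) = _
      ring
    have h2 : ∀ ω, F ω * D (s.pi p ω) =
        (2 : ℂ)⁻¹ * (s.x ω * D (s.pi p ω)) - (2 : ℂ)⁻¹ * (XI * D (s.pi p ω)) := fun ω => by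
      change (s.x ω - XI) / 2 * D (s.pi p ω) = _
      ring
    simp only [h1, h2]
    rw [integral_sub hxD (hxi.mul_const _), integral_mul_const,
      integral_sub (hxD.const_mul _) ((hDpi.const_mul _).const_mul _), integral_const_mul,
      integral_const_mul, integral_const_mul, hDint, ← hXI]
    ring
  have hsum2 : c / 32 * K ≤ ∑ p ∈ Pr P, ‖∫ ω, F ω * D (s.pi p ω) ∂s.ρ‖ := by
    have h1 : ∑ p ∈ Pr P, ‖∫ ω, s.x ω * φ (s.pi p ω) ∂s.ρ‖ =
        2 * ∑ p ∈ Pr P, ‖∫ ω, F ω * D (s.pi p ω) ∂s.ρ‖ := by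
      rw [Finset.mul_sum]
      refine Finset.sum_congr rfl fun p hp => ?_
      rw [hlaw p hp, norm_mul]
      congr 1
      simp
    rw [h1] at hsum
    linarith
  have hpow := sst_pow (Pr P) (fun p => ‖∫ ω, F ω * D (s.pi p ω) ∂s.ρ‖)
    (fun _ _ => norm_nonneg _) (by positivity : (0 : ℝ) ≤ c / 32) hsum2 (2 ^ d)
  have hPQ : P ∣ Q := Nat.dvd_factorial (pow_pos (by norm_num) _)
    (Nat.pow_le_pow_right (by norm_num) (by omega))
  have hpQ : ∀ p ∈ Pr P, p ∣ Q := by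
    intro p hp
    refine Nat.dvd_factorial (hpp p hp) ?_
    have h1 := (Finset.mem_Ico.mp (Finset.mem_filter.mp hp).1).2
    calc p ≤ 4 * 4 ^ i := h1.le
      _ = 4 ^ (i + 1) := by ring
      _ ≤ 4 ^ (i₁ + 1) := Nat.pow_le_pow_right (by norm_num) (by omega)
  have hssb := ssb s hE1 hFb hf hee d hτ0.le hP1 hH1 (hPQ.mul_left n)
    (fun p hp => (hpQ p hp).mul_left n) (hi₀ i hi0i)
  have hM : τ * (4 ^ i / ((i : ℝ) + 1) ^ 2) ≤ τ * K := mul_le_mul_of_nonneg_left hcard hτ0.le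
  have hnull : ∑ p ∈ Pr P,
      avb (List.replicate d (H / P)) (fun c => ‖∫ v, bx (S^[p]) c f v ∂μ‖) ≤ τ * K := by
    calc ∑ p ∈ Pr P, avb (List.replicate d (H / P)) (fun c => ‖∫ v, bx (S^[p]) c f v ∂μ‖)
        ≤ ∑ p ∈ Pr P, τ := Finset.sum_le_sum fun p hp => hn i hii1 p hp
      _ = τ * K := by rw [Finset.sum_const, nsmul_eq_mul, hK, mul_comm]
  have hfin : q * K ≤ 4 ^ (2 * d) * (3 * (τ * K)) := by
    refine (hpow.trans hssb).trans ?_
    refine mul_le_mul_of_nonneg_left ?_ (by positivity)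
    rw [← hK]
    linarith
  have h4 : (4 : ℝ) ^ (2 * d) * (3 * (τ * K)) = 3 / 4 * (q * K) := by
    rw [hτ]
    field_simp
  rw [h4] at hfin
  have : 0 < q * K := by positivity
  linarith

end FHE
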