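import Pool.Agent.FHE.LIM
import Pool.Agent.FHE.KAP
import Pool.Agent.FHE.SST
import Pool.Agent.FHE.BST

/-! FHU (~120 lines): the theorem for unimodular `g`. Suppose it fails; `lim` gives `s` with
`∫ x φ(π₁) ≠ 0`. `κ` from `kap`, `f := (κ - ∫ κ) / 2` (`Bd`, `∫ f = 0`). For bounded `ψ` with `∫ ψ = 0`:
`∫ x ψ(π₁) = ∫ κ ψ = 2 ∫ f ψ`. `NN S μ 0 f` as `∫ f = 0`; by `sst` and induction `NN S μ d f` for all `d`.
`bst`: `0 = ∫ x conj f(π₁) = ∫ κ conj f = 2 ∫ |f|²`, so `f = 0` a.e. and `∫ x φ(π₁) = 2 ∫ f φ = 0`.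
(`g' n := g n` for `n ≥ 1`; primes are `≥ 1`.) -/

open MeasureTheory Filter Topology
open scoped ComplexConjugate

namespace FHE

private lemma fhu_int {Y : Type} [MeasurableSpace Y] {μ : Measure Y} [IsProbabilityMeasure μ]
    {f : Y → ℂ} (hf : Measurable f) {C : ℝ} (hC : ∀ v, ‖f v‖ ≤ C) : Integrable f μ :=
  Integrable.of_bound hf.aestronglyMeasurable C (Eventually.of_forall hC)

theorem fhu {Y : Type} [MetricSpace Y] [CompactSpace Y] [MeasurableSpace Y] [BorelSpace Y]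
    {S : Y → Y} (hS : Continuous S) (hZ : ZE S) {μ : Measure Y} [IsProbabilityMeasure μ]
    (hE : ∀ k : ℕ, 1 ≤ k → Ergodic (S^[k]) μ)
    (hue : ∀ k : ℕ, 1 ≤ k → ∀ ν : Measure Y, IsProbabilityMeasure ν →
      MeasurePreserving (S^[k]) ν ν → ν = μ)
    {g : ℕ → ℂ} (hg1 : ∀ n, 1 ≤ n → ‖g n‖ = 1)
    (hgm : ∀ m n : ℕ, Nat.Coprime m n → g (m * n) = g m * g n) (φ : C(Y, ℂ))
    (hφ : ∫ v, φ v ∂μ = 0) (y : Y) :
    Tendsto (LA fun n => g n * φ (S^[n] y)) atTop (𝓝 0) := by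
  by_contra hcon
  obtain ⟨s, hs⟩ := lim hS hue hg1 hgm φ y hcon
  obtain ⟨κ, hκ, hκx⟩ := kap s
  set I : ℂ := ∫ v, κ v ∂μ with hI
  have hI1 : ‖I‖ ≤ 1 := by
    have := norm_integral_le_of_norm_le_const (μ := μ) (f := κ) (C := 1)
      (Eventually.of_forall hκ.le)
    simpa using this
  set f : Y → ℂ := fun v => (κ v - I) / 2 with hf
  have hfm : Measurable f := (hκ.meas.sub_const I).div_const 2
  have hfb : Bd f := by
    refine ⟨hfm, fun v => ?_⟩
    change ‖(κ v - I) / 2‖ ≤ 1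
    rw [norm_div]
    have h1 := norm_sub_le (κ v) I
    have h2 := hκ.le v
    have h3 : ‖(2 : ℂ)‖ = 2 := by simp
    rw [h3]
    linarith
  have hκi : Integrable κ μ := fhu_int hκ.meas hκ.le
  have hfi : Integrable f μ := fhu_int hfm hfb.le
  have hf0 : ∫ v, f v ∂μ = 0 := by
    change ∫ v, (κ v - I) / 2 ∂μ = 0
    rw [integral_div, integral_sub hκi (integrable_const _), integral_const, ← hI]
    simp
  have hκf : ∀ v, κ v = 2 * f v + I := by
    intro v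
    change κ v = 2 * ((κ v - I) / 2) + I
    ring
  have key : ∀ ψ : Y → ℂ, Measurable ψ → (∃ C : ℝ, ∀ v, ‖ψ v‖ ≤ C) → ∫ v, κ v * ψ v ∂μ =
      2 * ∫ v, f v * ψ v ∂μ + I * ∫ v, ψ v ∂μ := by
    rintro ψ hψ ⟨C, hC⟩
    have hψi : Integrable ψ μ := fhu_int hψ hC
    have hfψ : Integrable (fun v => f v * ψ v) μ := by
      refine fhu_int (hfm.mul hψ) (C := C) fun v => ?_
      rw [norm_mul]
      calc ‖f v‖ * ‖ψ v‖ ≤ 1 * C :=
            mul_le_mul (hfb.le v) (hC v) (norm_nonneg _) zero_le_one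
        _ = C := one_mul C
    have : ∀ v, κ v * ψ v = 2 * (f v * ψ v) + I * ψ v := by
      intro v
      rw [hκf v]
      ring
    simp only [this]
    rw [integral_add (hfψ.const_mul 2) (hψi.const_mul I), integral_const_mul, integral_const_mul]
  have hx : ∀ ψ : Y → ℂ, Measurable ψ → (∀ v, ‖ψ v‖ ≤ 2) → ∫ v, ψ v ∂μ = 0 →
      ∫ ω, s.x ω * ψ (s.pi 1 ω) ∂s.ρ = 2 * ∫ v, f v * ψ v ∂μ := by
    intro ψ hψ h2 h0
    rw [hκx ψ hψ ⟨2, h2⟩, key ψ hψ ⟨2, h2⟩, h0, mul_zero, add_zero]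
  have hgp : ∀ p : ℕ, p.Prime → ‖g p‖ = 1 := fun p hp => hg1 p hp.one_lt.le
  have hN : ∀ d, NN S μ d f := by
    intro d
    induction d with
    | zero =>
      have : (fun H : ℕ => av H 0 (fun h => ‖∫ v, dl S h f v ∂μ‖ ^ 2)) = fun _ => (0 : ℝ) := by
        funext H
        change ‖∫ v, f v ∂μ‖ ^ 2 = 0
        rw [hf0]
        simp
      unfold NN
      rw [this]
      exact tendsto_const_nhds
    | succ d ih => exact sst s hE (fun p hp => (hgp p hp).le) hfb hf0 hx d ih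
  have h0 := bst s hS.measurable hZ hgp hfb hN
  have hcm : Measurable fun v => conj (f v) := Complex.continuous_conj.measurable.comp hfm
  have hcb : ∀ v, ‖conj (f v)‖ ≤ 1 := fun v => by
    rw [RCLike.norm_conj]
    exact hfb.le v
  rw [hκx (fun v => conj (f v)) hcm ⟨1, hcb⟩, key _ hcm ⟨1, hcb⟩, integral_conj, hf0, map_zero,
    mul_zero, add_zero] at h0
  have h1 : ∫ v, ‖f v‖ ^ 2 ∂μ = 0 := by
    have h2 : ∫ v, f v * conj (f v) ∂μ = ((∫ v, ‖f v‖ ^ 2 ∂μ : ℝ) : ℂ) := by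
      rw [← integral_complex_ofReal]
      congr 1
      funext v
      rw [Complex.mul_conj, Complex.normSq_eq_norm_sq]
    rw [h2] at h0
    have h3 := (mul_eq_zero.mp h0).resolve_left two_ne_zero
    exact_mod_cast h3
  have h2 : ∀ᵐ v ∂μ, f v = 0 := by
    have hi : Integrable (fun v => ‖f v‖ ^ 2) μ := by
      refine Integrable.of_bound (hfm.norm.pow_const 2).aestronglyMeasurable 1
        (Eventually.of_forall fun v => ?_)
      rw [Real.norm_eq_abs, abs_of_nonneg (by positivity)]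
      exact pow_le_one₀ (norm_nonneg _) (hfb.le v)
    have := (integral_eq_zero_iff_of_nonneg (fun v => by positivity) hi).mp h1
    filter_upwards [this] with v hv
    have h4 : ‖f v‖ ^ 2 = 0 := hv
    exact norm_eq_zero.mp (pow_eq_zero_iff two_ne_zero |>.mp h4)
  apply hs
  rw [hκx (fun v => φ v) φ.continuous.measurable ⟨‖φ‖, φ.norm_coe_le_norm⟩,
    key _ φ.continuous.measurable ⟨‖φ‖, φ.norm_coe_le_norm⟩, hφ, mul_zero, add_zero]
  have : ∫ v, f v * φ v ∂μ = ∫ v, (0 : ℂ) ∂μ := by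
    apply integral_congr_ae
    filter_upwards [h2] with v hv
    rw [hv, zero_mul]
  rw [this]
  simp

end FHE
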