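import Pool.Agent.FHE.CSL
import Pool.Agent.FHE.AVA
import Pool.Agent.FHE.ALD

/-! GEA (~170 lines): one difference step. `L = (G, k₀) :: L'` with exponents `-n k`; shift by `T^(n k₀)`:
`‖∫ G (T^(-n k₀)) ∏_{L'} ψ‖ = ‖∫ G κ_n‖`, `κ_n ω = ∏_{L'} g (T^(n (k₀ - k)) ω) * ψ (T^(n k₀) ω)`. `csl` with the
weights `ν`, `sym_diff` (and `∑_{n} u n n + 2 ∑_{1 ≤ a} ≤ 2 ∑_{0 ≤ a < M}`). Shift
`κ_n conj κ_{n+a}` back by `T^(-n k₀)`: it becomes
`∏_{L'} (g (T^(-n k) ω) conj (g (T^(-n k + a (k₀ - k)) ω))) * ψ ω conj (ψ (T^(a k₀) ω))`, the product for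
`glist T k₀ a L'` and `der T (k₀ a) ψ`. -/

open MeasureTheory Filter Topology
open scoped ComplexConjugate

namespace FHE

variable {X : Type*} [MeasurableSpace X] {ρ : Measure X}

/-- product of functions along negative multiples of `n` -/
noncomputable def gl (T : Equiv.Perm X) (L : List ((X → ℂ) × ℕ)) (n : ℕ) (ω : X) : ℂ :=
  (L.map fun gc => gc.1 ((T ^ (-((n : ℤ) * gc.2))) ω)).prod

/-- the differenced list -/
noncomputable def glist (T : Equiv.Perm X) (k₀ a : ℕ) (L : List ((X → ℂ) × ℕ)) :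
    List ((X → ℂ) × ℕ) :=
  L.map fun gc =>
    (fun ω => gc.1 ω * conj (gc.1 ((T ^ ((a : ℤ) * ((k₀ : ℤ) - gc.2))) ω)), gc.2)

theorem GEA_meas {T : Equiv.Perm X} (hT : Measurable T) (hT' : Measurable T.symm) (m : ℤ) :
    Measurable (⇑(T ^ m)) := by
  obtain ⟨n, rfl | rfl⟩ := m.eq_nat_or_neg
  · rw [zpow_natCast, ← Equiv.Perm.iterate_eq_pow]
    exact hT.iterate n
  · have h1 : (T ^ (-(n : ℤ))) = (T⁻¹) ^ n := by
      rw [zpow_neg, zpow_natCast, inv_pow]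
    rw [h1, ← Equiv.Perm.iterate_eq_pow]
    exact Measurable.iterate hT' n

theorem GEA_mp {T : Equiv.Perm X} (hT : MeasurePreserving T ρ ρ) (hT' : Measurable T.symm)
    (m : ℤ) : MeasurePreserving (⇑(T ^ m)) ρ ρ := by
  have hs : MeasurePreserving (⇑T⁻¹) ρ ρ := by
    let e : X ≃ᵐ X := ⟨T, hT.measurable, hT'⟩
    have he : MeasurePreserving e ρ ρ := hT
    exact he.symm e
  obtain ⟨n, rfl | rfl⟩ := m.eq_nat_or_neg
  · rw [zpow_natCast, ← Equiv.Perm.iterate_eq_pow]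
    exact hT.iterate n
  · have h1 : (T ^ (-(n : ℤ))) = (T⁻¹) ^ n := by
      rw [zpow_neg, zpow_natCast, inv_pow]
    rw [h1, ← Equiv.Perm.iterate_eq_pow]
    exact hs.iterate n

theorem GEA_int {T : Equiv.Perm X} (hT : MeasurePreserving T ρ ρ) (hT' : Measurable T.symm)
    (m : ℤ) {f : X → ℂ} (hf : Measurable f) :
    ∫ ω, f ((T ^ m) ω) ∂ρ = ∫ ω, f ω ∂ρ := by
  have h1 := GEA_mp hT hT' m
  have h2 : ∫ ω, f ω ∂(Measure.map (⇑(T ^ m)) ρ) = ∫ ω, f ((T ^ m) ω) ∂ρ :=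
    integral_map h1.measurable.aemeasurable hf.aestronglyMeasurable
  rw [← h2, h1.map_eq]

theorem GEA_bd_comp {f : X → ℂ} (hf : Bd f) {T : X → X} (hT : Measurable T) :
    Bd (fun ω => f (T ω)) := ⟨hf.meas.comp hT, fun _ => hf.le _⟩

theorem GEA_bd_conj {f : X → ℂ} (hf : Bd f) : Bd (fun ω => conj (f ω)) :=
  ⟨Complex.continuous_conj.measurable.comp hf.meas, fun _ => by
    rw [RCLike.norm_conj]; exact hf.le _⟩

theorem GEA_bd_mul {f g : X → ℂ} (hf : Bd f) (hg : Bd g) : Bd (fun ω => f ω * g ω) :=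
  ⟨hf.meas.mul hg.meas, fun v => by
    rw [norm_mul]; exact mul_le_one₀ (hf.le v) (norm_nonneg _) (hg.le v)⟩

theorem gl_bd {T : Equiv.Perm X} (hT : Measurable T) (hT' : Measurable T.symm)
    {L : List ((X → ℂ) × ℕ)} (hL : ∀ gc ∈ L, Bd gc.1) (n : ℕ) : Bd (gl T L n) := by
  induction L with
  | nil => exact ⟨measurable_const, fun v => by simp [gl]⟩
  | cons gc L ih =>
    have h1 : gl T (gc :: L) n = fun ω => gc.1 ((T ^ (-((n : ℤ) * gc.2))) ω) * gl T L n ω := by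
      funext ω
      simp [gl]
    rw [h1]
    exact GEA_bd_mul (GEA_bd_comp (hL gc List.mem_cons_self) (GEA_meas hT hT' _))
      (ih fun gc' h => hL gc' (List.mem_cons_of_mem _ h))

theorem glist_bd {T : Equiv.Perm X} (hT : Measurable T) (hT' : Measurable T.symm)
    {L : List ((X → ℂ) × ℕ)} (hL : ∀ gc ∈ L, Bd gc.1) (k₀ a : ℕ) :
    ∀ gc ∈ glist T k₀ a L, Bd gc.1 := by
  intro gc hgc
  obtain ⟨gc', h, rfl⟩ := List.mem_map.1 hgc
  exact GEA_bd_mul (hL gc' h) (GEA_bd_conj (GEA_bd_comp (hL gc' h) (GEA_meas hT hT' _)))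

omit [MeasurableSpace X] in
theorem GEA_gl (T : Equiv.Perm X) (k₀ a n : ℕ) (L : List ((X → ℂ) × ℕ)) (ω : X) :
    gl T (glist T k₀ a L) n ω =
      gl T L n ω * conj (gl T L (n + a) ((T ^ ((a : ℤ) * k₀)) ω)) := by
  induction L with
  | nil => simp [gl, glist]
  | cons gc L ih =>
    have e1 : gl T (glist T k₀ a (gc :: L)) n ω =
        (gc.1 ((T ^ (-((n : ℤ) * gc.2))) ω) * conj (gc.1 ((T ^ ((a : ℤ) * ((k₀ : ℤ) - gc.2)))
          ((T ^ (-((n : ℤ) * gc.2))) ω)))) * gl T (glist T k₀ a L) n ω := by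
      simp [gl, glist]
    have e2 : gl T (gc :: L) n ω = gc.1 ((T ^ (-((n : ℤ) * gc.2))) ω) * gl T L n ω := by
      simp [gl]
    have e3 : gl T (gc :: L) (n + a) ((T ^ ((a : ℤ) * k₀)) ω) =
        gc.1 ((T ^ (-(((n + a : ℕ) : ℤ) * gc.2))) ((T ^ ((a : ℤ) * k₀)) ω)) *
          gl T L (n + a) ((T ^ ((a : ℤ) * k₀)) ω) := by
      simp [gl]
    have e4 : (T ^ ((a : ℤ) * ((k₀ : ℤ) - gc.2))) ((T ^ (-((n : ℤ) * gc.2))) ω) =
        (T ^ (-(((n + a : ℕ) : ℤ) * gc.2))) ((T ^ ((a : ℤ) * k₀)) ω) := by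
      rw [← Equiv.Perm.mul_apply, ← Equiv.Perm.mul_apply, ← zpow_add, ← zpow_add]
      congr 2
      push_cast
      ring
    rw [e1, e2, e3, e4, ih, map_mul]
    ring

theorem gea [IsProbabilityMeasure ρ] {T : Equiv.Perm X} (hT : MeasurePreserving T ρ ρ)
    (hT' : Measurable T.symm) {G : X → ℂ} (hG : Bd G) (k₀ : ℕ) {L : List ((X → ℂ) × ℕ)}
    (hL : ∀ gc ∈ L, Bd gc.1) {ψ : X → ℂ} (hψ : Bd ψ) {ν : ℕ → ℝ} (hν : ∀ n, 0 ≤ ν n) {M : ℕ}
    (hM : ∀ n, M ≤ n → ν n = 0) :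
    (∑ n ∈ Finset.range M, ν n * ‖∫ ω, gl T ((G, k₀) :: L) n ω * ψ ω ∂ρ‖) ^ 2 ≤
      2 * ∑ a ∈ Finset.range M, ∑ n ∈ Finset.range M, ν n * ν (n + a) *
        ‖∫ ω, gl T (glist T k₀ a L) n ω * der T (k₀ * a) ψ ω ∂ρ‖ := by
  have hTm : Measurable T := hT.measurable
  set κ : ℕ → X → ℂ := fun n ω =>
    gl T L n ((T ^ ((n : ℤ) * k₀)) ω) * ψ ((T ^ ((n : ℤ) * k₀)) ω) with hκ
  have hκb : ∀ n, Bd (κ n) := fun n =>
    GEA_bd_mul (GEA_bd_comp (gl_bd hTm hT' hL n) (GEA_meas hTm hT' _))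
      (GEA_bd_comp hψ (GEA_meas hTm hT' _))
  have h1 : ∀ n : ℕ, ∫ ω, gl T ((G, k₀) :: L) n ω * ψ ω ∂ρ = ∫ ω, G ω * κ n ω ∂ρ := by
    intro n
    have hm : Measurable (fun ω => gl T ((G, k₀) :: L) n ω * ψ ω) :=
      (GEA_bd_mul (gl_bd hTm hT' (L := (G, k₀) :: L) (by
        intro gc hgc
        rcases List.mem_cons.1 hgc with rfl | h
        · exact hG
        · exact hL gc h) n) hψ).meas
    rw [← GEA_int hT hT' ((n : ℤ) * k₀) hm]
    congr 1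
    funext ω
    have e1 : gl T ((G, k₀) :: L) n ((T ^ ((n : ℤ) * k₀)) ω) =
        G ((T ^ (-((n : ℤ) * k₀))) ((T ^ ((n : ℤ) * k₀)) ω)) *
          gl T L n ((T ^ ((n : ℤ) * k₀)) ω) := by
      simp [gl]
    have e2 : (T ^ (-((n : ℤ) * k₀))) ((T ^ ((n : ℤ) * k₀)) ω) = ω := by
      rw [← Equiv.Perm.mul_apply, ← zpow_add]
      simp
    simp only [hκ]
    rw [e1, e2]
    ring
  have h2 : ∀ n a : ℕ, ∫ ω, κ n ω * conj (κ (n + a) ω) ∂ρ =
      ∫ ω, gl T (glist T k₀ a L) n ω * der T (k₀ * a) ψ ω ∂ρ := by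
    intro n a
    have hm : Measurable (fun ω => κ n ω * conj (κ (n + a) ω)) :=
      (GEA_bd_mul (hκb n) (GEA_bd_conj (hκb (n + a)))).meas
    rw [← GEA_int hT hT' (-((n : ℤ) * k₀)) hm]
    congr 1
    funext ω
    have e1 : (T ^ ((n : ℤ) * k₀)) ((T ^ (-((n : ℤ) * k₀))) ω) = ω := by
      rw [← Equiv.Perm.mul_apply, ← zpow_add]
      simp
    have e2 : (T ^ (((n + a : ℕ) : ℤ) * k₀)) ((T ^ (-((n : ℤ) * k₀))) ω) =
        (T ^ ((a : ℤ) * k₀)) ω := by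
      rw [← Equiv.Perm.mul_apply, ← zpow_add]
      congr 2
      push_cast
      ring
    have e3 : (T ^ ((a : ℤ) * k₀)) ω = T^[k₀ * a] ω := by
      rw [Equiv.Perm.iterate_eq_pow]
      have : ((a : ℤ) * k₀) = ((k₀ * a : ℕ) : ℤ) := by push_cast; ring
      rw [this, zpow_natCast]
    simp only [hκ, der]
    rw [e1, e2, GEA_gl, ← e3, map_mul]
    ring
  have h3 := csl (ρ := ρ) hG (Finset.range M) (k := κ) (fun n _ => hκb n) hν
  set u : ℕ → ℕ → ℝ := fun n n' => ν n * ν n' * ‖∫ ω, κ n ω * conj (κ n' ω) ∂ρ‖ with hu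
  have hu0 : ∀ n n', 0 ≤ u n n' := fun n n' =>
    mul_nonneg (mul_nonneg (hν n) (hν n')) (norm_nonneg _)
  have hus : ∀ n n', u n n' = u n' n := by
    intro n n'
    have : ∫ ω, κ n' ω * conj (κ n ω) ∂ρ = conj (∫ ω, κ n ω * conj (κ n' ω) ∂ρ) := by
      rw [← integral_conj]
      congr 1
      funext ω
      have e := map_mul (starRingEnd ℂ) (κ n ω) (conj (κ n' ω))
      rw [e, Complex.conj_conj, mul_comm]
    simp only [hu]
    rw [this, RCLike.norm_conj, mul_comm (ν n')]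
  have h4 := sym_diff (M := M) (Finset.range M) (fun n hn => Finset.mem_range.1 hn) u hus
  have h5 : ∑ n ∈ Finset.range M, ∑ n' ∈ Finset.range M, u n n' ≤
      2 * ∑ a ∈ Finset.range M, ∑ n ∈ Finset.range M, u n (n + a) := by
    rw [h4]
    rcases Nat.eq_zero_or_pos M with h0 | h0
    · subst h0
      simp
    · have e1 : ∑ a ∈ Finset.range M, ∑ n ∈ Finset.range M, u n (n + a) =
          ∑ n ∈ Finset.range M, u n (n + 0) +
            ∑ a ∈ Finset.Ico 1 M, ∑ n ∈ Finset.range M, u n (n + a) := by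
        rw [Finset.range_eq_Ico, Finset.sum_eq_sum_Ico_succ_bot h0]
      have e2 : ∑ a ∈ Finset.Ico 1 M,
          ∑ n ∈ (Finset.range M).filter (fun n => n + a ∈ Finset.range M), u n (n + a) ≤
          ∑ a ∈ Finset.Ico 1 M, ∑ n ∈ Finset.range M, u n (n + a) :=
        Finset.sum_le_sum fun a _ =>
          Finset.sum_le_sum_of_subset_of_nonneg (Finset.filter_subset _ _) fun n _ _ => hu0 _ _
      have e3 : 0 ≤ ∑ n ∈ Finset.range M, u n (n + 0) :=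
        Finset.sum_nonneg fun n _ => hu0 _ _
      have e4 : ∑ n ∈ Finset.range M, u n n = ∑ n ∈ Finset.range M, u n (n + 0) := by simp
      rw [e1]
      linarith
  have h6 : ∑ n ∈ Finset.range M, ν n * ‖∫ ω, gl T ((G, k₀) :: L) n ω * ψ ω ∂ρ‖ =
      ∑ n ∈ Finset.range M, ν n * ‖∫ ω, G ω * κ n ω ∂ρ‖ :=
    Finset.sum_congr rfl fun n _ => by rw [h1]
  rw [h6]
  refine h3.trans (h5.trans (le_of_eq ?_))
  congr 1
  refine Finset.sum_congr rfl fun a _ => Finset.sum_congr rfl fun n _ => ?_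
  simp only [hu]
  rw [h2]

end FHE
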