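import Pool.Agent.FHE.GEA

/-! GEB (~130 lines): induction on `L`, generalizing `ψ, ν`. `L = []`: `ν n ‖∫ ψ‖` summed. Step: raise `gea`
to the power `2^t` (`t = L'.length`): `(2 ∑_{a<M} Y_a)^(2^t) ≤ 2^(2^t) M^(2^t - 1) ∑_a Y_a^(2^t)`
(`inner_le`/`Finset.inner_mul_le`, `Real` power mean) and use the induction hypothesis for `glist T k₀ a L'`,
`der T (k₀ a) ψ` (bounded) and the weight `n ↦ ν n * ν (n + a)`;
`wc (a :: l) ν = wc l (n ↦ ν n ν (n+a))`, `dl T (k₀ a :: _) ψ = dl T _ (der T (k₀ a) ψ)`;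
`2^t - 1 + (2^t - 1 - t) = 2^(t+1) - 1 - (t+1)`, `2^(2^t) 2^(2^t) = 2^(2^(t+1))`. -/

open MeasureTheory Filter Topology
open scoped ComplexConjugate

namespace FHE

theorem geb_aux {X : Type*} [MeasurableSpace X] {ρ : Measure X} [IsProbabilityMeasure ρ]
    {T : Equiv.Perm X} (hT : MeasurePreserving T ρ ρ) (hT' : Measurable T.symm) (t : ℕ) :
    ∀ (L : List ((X → ℂ) × ℕ)) (_ : L.length = t) (_ : ∀ gc ∈ L, Bd gc.1) (ψ : X → ℂ) (_ : Bd ψ)
      (ν : ℕ → ℝ) (_ : ∀ n, 0 ≤ ν n) (M : ℕ) (_ : ∀ n, M ≤ n → ν n = 0),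
    (∑ n ∈ Finset.range M, ν n * ‖∫ ω, gl T L n ω * ψ ω ∂ρ‖) ^ (2 ^ t) ≤
      2 ^ (2 ^ t) * (M : ℝ) ^ (2 ^ t - 1 - t) *
        sm M t (fun a => (∑ n ∈ Finset.range M, wc a ν n) *
          ‖∫ ω, dl T (List.zipWith (fun k b => k * b) (L.map Prod.snd) a) ψ ω ∂ρ‖) := by
  have hTm : Measurable T := hT.measurable
  induction t with
  | zero =>
    intro L hLl hL ψ hψ ν hν M hM
    obtain rfl : L = [] := List.length_eq_zero_iff.1 hLl
    have h0 : 0 ≤ (∑ n ∈ Finset.range M, ν n) * ‖∫ ω, ψ ω ∂ρ‖ :=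
      mul_nonneg (Finset.sum_nonneg fun n _ => hν n) (norm_nonneg _)
    have h1 : ∑ n ∈ Finset.range M, ν n * ‖∫ ω, gl T [] n ω * ψ ω ∂ρ‖ =
        (∑ n ∈ Finset.range M, ν n) * ‖∫ ω, ψ ω ∂ρ‖ := by
      rw [Finset.sum_mul]
      simp [gl]
    have h2 : sm M 0 (fun a => (∑ n ∈ Finset.range M, wc a ν n) *
          ‖∫ ω, dl T (List.zipWith (fun k b => k * b) (([] : List ((X → ℂ) × ℕ)).map Prod.snd) a)
            ψ ω ∂ρ‖) = (∑ n ∈ Finset.range M, ν n) * ‖∫ ω, ψ ω ∂ρ‖ := by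
      simp [sm, wc, dl]
    rw [h1, h2]
    simp only [pow_zero, pow_one, Nat.sub_self]
    nlinarith
  | succ t ih =>
    intro L hLl hL ψ hψ ν hν M hM
    obtain ⟨⟨G, k₀⟩, L', rfl⟩ : ∃ gc L', L = gc :: L' := by
      cases L with
      | nil => simp at hLl
      | cons gc L' => exact ⟨gc, L', rfl⟩
    have hl : L'.length = t := by simpa using hLl
    have hG : Bd G := hL (G, k₀) List.mem_cons_self
    have hL' : ∀ gc ∈ L', Bd gc.1 := fun gc h => hL gc (List.mem_cons_of_mem _ h)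
    have h1 := gea hT hT' hG k₀ hL' hψ hν hM
    set Y : ℕ → ℝ := fun a => ∑ n ∈ Finset.range M, ν n * ν (n + a) *
        ‖∫ ω, gl T (glist T k₀ a L') n ω * der T (k₀ * a) ψ ω ∂ρ‖ with hY
    have hY0 : ∀ a, 0 ≤ Y a := fun a => Finset.sum_nonneg fun n _ =>
      mul_nonneg (mul_nonneg (hν n) (hν _)) (norm_nonneg _)
    have hder : ∀ a, Bd (der T (k₀ * a) ψ) := fun a =>
      ALD_mul_bd hψ (ALD_comp_bd hTm (k₀ * a) hψ)
    have h2 : ∀ a, Y a ^ (2 ^ t) ≤ 2 ^ (2 ^ t) * (M : ℝ) ^ (2 ^ t - 1 - t) *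
        sm M t (fun l => (∑ n ∈ Finset.range M, wc (a :: l) ν n) *
          ‖∫ ω, dl T (List.zipWith (fun k b => k * b) (((G, k₀) :: L').map Prod.snd) (a :: l))
            ψ ω ∂ρ‖) := by
      intro a
      have h3 := ih (glist T k₀ a L') (by simp [glist, hl]) (glist_bd hTm hT' hL' k₀ a)
        (der T (k₀ * a) ψ) (hder a) (fun n => ν n * ν (n + a))
        (fun n => mul_nonneg (hν _) (hν _)) M (fun n hn => by rw [hM n hn, zero_mul])
      have h4 : (glist T k₀ a L').map Prod.snd = L'.map Prod.snd := by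
        simp [glist, Function.comp_def]
      rw [h4] at h3
      exact h3
    have h5 : (∑ a ∈ Finset.range M, Y a) ^ (2 ^ t) ≤
        (M : ℝ) ^ (2 ^ t - 1) * ∑ a ∈ Finset.range M, Y a ^ (2 ^ t) := by
      have h6 := pow_sum_le_card_mul_sum_pow (s := Finset.range M) (f := Y)
        (fun a _ => hY0 a) (2 ^ t - 1)
      have h7 : 2 ^ t - 1 + 1 = 2 ^ t := Nat.sub_add_cancel Nat.one_le_two_pow
      rw [h7, Finset.card_range] at h6
      exact h6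
    have h8 : (∑ n ∈ Finset.range M, ν n * ‖∫ ω, gl T ((G, k₀) :: L') n ω * ψ ω ∂ρ‖) ^
        (2 ^ (t + 1)) ≤ (2 * ∑ a ∈ Finset.range M, Y a) ^ (2 ^ t) := by
      have e : 2 ^ (t + 1) = 2 * 2 ^ t := by rw [pow_succ, mul_comm]
      rw [e, pow_mul]
      exact pow_le_pow_left₀ (sq_nonneg _) h1 _
    refine h8.trans ?_
    rw [mul_pow]
    have hS : ∑ a ∈ Finset.range M, Y a ^ (2 ^ t) ≤
        2 ^ (2 ^ t) * (M : ℝ) ^ (2 ^ t - 1 - t) *
          sm M (t + 1) (fun a => (∑ n ∈ Finset.range M, wc a ν n) *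
            ‖∫ ω, dl T (List.zipWith (fun k b => k * b) (((G, k₀) :: L').map Prod.snd) a)
              ψ ω ∂ρ‖) := by
      simp only [sm]
      rw [Finset.mul_sum]
      exact Finset.sum_le_sum fun a _ => h2 a
    have hM1 : (0 : ℝ) ≤ (M : ℝ) ^ (2 ^ t - 1) := by positivity
    have e1 : 2 ^ (t + 1) - 1 - (t + 1) = (2 ^ t - 1) + (2 ^ t - 1 - t) := by
      have : t < 2 ^ t := Nat.lt_two_pow_self
      rw [pow_succ]
      omega
    have e2 : (2 : ℝ) ^ (2 ^ (t + 1)) = 2 ^ (2 ^ t) * 2 ^ (2 ^ t) := by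
      rw [← pow_add, pow_succ]
      congr 1
      ring
    rw [e1, e2, pow_add]
    calc (2 : ℝ) ^ (2 ^ t) * (∑ a ∈ Finset.range M, Y a) ^ (2 ^ t)
        ≤ 2 ^ (2 ^ t) * ((M : ℝ) ^ (2 ^ t - 1) * ∑ a ∈ Finset.range M, Y a ^ (2 ^ t)) :=
          mul_le_mul_of_nonneg_left h5 (by positivity)
      _ ≤ 2 ^ (2 ^ t) * ((M : ℝ) ^ (2 ^ t - 1) * (2 ^ (2 ^ t) * (M : ℝ) ^ (2 ^ t - 1 - t) *
          sm M (t + 1) (fun a => (∑ n ∈ Finset.range M, wc a ν n) *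
            ‖∫ ω, dl T (List.zipWith (fun k b => k * b) (((G, k₀) :: L').map Prod.snd) a)
              ψ ω ∂ρ‖))) :=
          mul_le_mul_of_nonneg_left (mul_le_mul_of_nonneg_left hS hM1) (by positivity)
      _ = _ := by ring

theorem geb {X : Type*} [MeasurableSpace X] {ρ : Measure X} [IsProbabilityMeasure ρ]
    {T : Equiv.Perm X} (hT : MeasurePreserving T ρ ρ) (hT' : Measurable T.symm)
    (L : List ((X → ℂ) × ℕ)) (hL : ∀ gc ∈ L, Bd gc.1) {ψ : X → ℂ} (hψ : Bd ψ) {ν : ℕ → ℝ}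
    (hν : ∀ n, 0 ≤ ν n) {M : ℕ} (hM : ∀ n, M ≤ n → ν n = 0) :
    (∑ n ∈ Finset.range M, ν n * ‖∫ ω, gl T L n ω * ψ ω ∂ρ‖) ^ (2 ^ L.length) ≤
      2 ^ (2 ^ L.length) * (M : ℝ) ^ (2 ^ L.length - 1 - L.length) *
        sm M L.length (fun a => (∑ n ∈ Finset.range M, wc a ν n) *
          ‖∫ ω, dl T (List.zipWith (fun k b => k * b) (L.map Prod.snd) a) ψ ω ∂ρ‖) :=
  geb_aux hT hT' L.length L rfl hL ψ hψ ν hν M hM

end FHE
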