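import Pool.Agent.FHE.Defs

/-! WOC (~150 lines): the tensor `tens a b = a(x) · conj b(y)` in `L²(μ × μ)`. Membership in `L²`:
`MeasureTheory.Integrable.mul_prod`, `integral_prod_mul`. `V` is composition with
`Prod.map S S` (`Lp.compMeasurePreservingₗᵢ`, `MeasurePreserving.prod`). -/

open MeasureTheory Filter Topology
open scoped ComplexConjugate

namespace FHE

private theorem woc_mem {Y : Type*} [MeasurableSpace Y] {μ : Measure Y} [IsProbabilityMeasure μ]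
    (a b : Lp ℂ 2 μ) :
    MemLp (fun z : Y × Y => a z.1 * conj (b z.2)) 2 (μ.prod μ) := by
  have ha : AEStronglyMeasurable (fun z : Y × Y => a z.1) (μ.prod μ) :=
    (Lp.aestronglyMeasurable a).comp_fst
  have hb : AEStronglyMeasurable (fun z : Y × Y => b z.2) (μ.prod μ) :=
    (Lp.aestronglyMeasurable b).comp_snd
  have hb' : AEStronglyMeasurable (fun z : Y × Y => conj (b z.2)) (μ.prod μ) :=
    Complex.continuous_conj.comp_aestronglyMeasurable hb
  refine (memLp_two_iff_integrable_sq_norm (ha.mul hb')).2 ?_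
  have h1 : Integrable (fun x => ‖a x‖ ^ 2) μ :=
    (memLp_two_iff_integrable_sq_norm (Lp.aestronglyMeasurable a)).1 (Lp.memLp a)
  have h2 : Integrable (fun x => ‖b x‖ ^ 2) μ :=
    (memLp_two_iff_integrable_sq_norm (Lp.aestronglyMeasurable b)).1 (Lp.memLp b)
  have h3 := h1.mul_prod h2
  refine h3.congr (Eventually.of_forall fun z => ?_)
  show ‖a z.1‖ ^ 2 * ‖b z.2‖ ^ 2 = ‖a z.1 * conj (b z.2)‖ ^ 2
  rw [norm_mul, RCLike.norm_conj, mul_pow]

private theorem woc_fst {Y : Type*} [MeasurableSpace Y] {μ : Measure Y} [IsProbabilityMeasure μ]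
    {P : Y → Prop} (h : ∀ᵐ x ∂μ, P x) : ∀ᵐ z ∂(μ.prod μ), P z.1 :=
  Measure.quasiMeasurePreserving_fst.ae h

private theorem woc_snd {Y : Type*} [MeasurableSpace Y] {μ : Measure Y} [IsProbabilityMeasure μ]
    {P : Y → Prop} (h : ∀ᵐ x ∂μ, P x) : ∀ᵐ z ∂(μ.prod μ), P z.2 :=
  Measure.quasiMeasurePreserving_snd.ae h

theorem WOC {Y : Type*} [MeasurableSpace Y] {μ : Measure Y} [IsProbabilityMeasure μ] {S : Y → Y}
    (hS : MeasurePreserving S μ μ) :
    ∃ (V : Lp ℂ 2 (μ.prod μ) →ₗᵢ[ℂ] Lp ℂ 2 (μ.prod μ))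
      (tens : Lp ℂ 2 μ → Lp ℂ 2 μ → Lp ℂ 2 (μ.prod μ)),
      (∀ a b c d, inner ℂ (tens a b) (tens c d) = inner ℂ a c * inner ℂ d b) ∧
        ∀ a b, V (tens a b) = tens (Lp.compMeasurePreservingₗᵢ ℂ S hS a)
          (Lp.compMeasurePreservingₗᵢ ℂ S hS b) := by
  refine ⟨Lp.compMeasurePreservingₗᵢ ℂ (Prod.map S S) (hS.prod hS),
    fun a b => (woc_mem a b).toLp _, ?_, ?_⟩
  · intro a b c d
    rw [L2.inner_def, L2.inner_def, L2.inner_def, ← integral_prod_mul]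
    refine integral_congr_ae ?_
    filter_upwards [(woc_mem a b).coeFn_toLp, (woc_mem c d).coeFn_toLp] with z h1 h2
    rw [h1, h2]
    simp only [RCLike.inner_apply, map_mul, RingHomCompTriple.comp_apply, RingHom.id_apply]
    ring
  · intro a b
    refine Lp.ext ?_
    have e1 : (Lp.compMeasurePreservingₗᵢ ℂ (Prod.map S S) (hS.prod hS)
        ((woc_mem a b).toLp _) : Y × Y → ℂ) =ᵐ[μ.prod μ]
        ((woc_mem a b).toLp _ : Y × Y → ℂ) ∘ Prod.map S S :=
      Lp.coeFn_compMeasurePreserving _ (hS.prod hS)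
    have e2 : (((woc_mem a b).toLp _ : Y × Y → ℂ) ∘ Prod.map S S) =ᵐ[μ.prod μ]
        (fun z : Y × Y => a z.1 * conj (b z.2)) ∘ Prod.map S S :=
      (hS.prod hS).quasiMeasurePreserving.ae_eq_comp (woc_mem a b).coeFn_toLp
    have e3 : (Lp.compMeasurePreservingₗᵢ ℂ S hS a : Y → ℂ) =ᵐ[μ] a ∘ S :=
      Lp.coeFn_compMeasurePreserving _ hS
    have e4 : (Lp.compMeasurePreservingₗᵢ ℂ S hS b : Y → ℂ) =ᵐ[μ] b ∘ S :=
      Lp.coeFn_compMeasurePreserving _ hS
    filter_upwards [e1, e2, woc_fst e3, woc_snd e4, (woc_mem (Lp.compMeasurePreservingₗᵢ ℂ S hS a)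
      (Lp.compMeasurePreservingₗᵢ ℂ S hS b)).coeFn_toLp] with z h1 h2 h3 h4 h5
    rw [h1, h2, h5, h3, h4]
    rfl

end FHE
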