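import Pool.Agent.FHE.WOB
import Pool.Agent.FHE.WOC

/-! WOD (~150 lines): Wiener's lemma. `eig_of_Lp`: for ergodic `S`, `‖e‖` is invariant, hence
constant a.e. (`Ergodic.ae_eq_const_of_ae_eq_comp` or similar), so it is `1`; modify on a null set.
`wiener`: apply WOC, WOA, WOB to the class of `f` in `L²(μ)`: `‖f‖ ≤ 1`, and `‖A‖ = ‖⟪f, e⟫‖² ≤
es S μ f` (the set defining `es` is bounded by `1`, `le_csSup`); if `A = 0` use `0 ≤ es`.
`es_le_one`, `es_nonneg`: Cauchy-Schwarz; the constant function `1` is an eigenfunction.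
`exists_eig`: definition of the supremum. -/

open MeasureTheory Filter Topology
open scoped ComplexConjugate

namespace FHE

variable {Y : Type*} [MeasurableSpace Y] {μ : Measure Y} [IsProbabilityMeasure μ] {S : Y → Y}

private theorem wod_corr {f e : Y → ℂ} (hf : Bd f) (he : ∀ v, ‖e v‖ = 1) :
    ‖∫ v, f v * conj (e v) ∂μ‖ ^ 2 ≤ 1 := by
  have h1 : ‖∫ v, f v * conj (e v) ∂μ‖ ≤ 1 := by
    have := norm_integral_le_of_norm_le_const (μ := μ) (f := fun v => f v * conj (e v)) (C := 1)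
      (Eventually.of_forall fun v => by
        rw [norm_mul, RCLike.norm_conj, he v, mul_one]
        exact hf.le v)
    simpa using this
  have h0 := norm_nonneg (∫ v, f v * conj (e v) ∂μ)
  nlinarith

private theorem wod_bdd {f : Y → ℂ} (hf : Bd f) :
    BddAbove {r : ℝ | ∃ β e, IsEig S μ β e ∧ r = ‖∫ v, f v * conj (e v) ∂μ‖ ^ 2} := by
  refine ⟨1, ?_⟩
  rintro r ⟨β, e, he, rfl⟩
  exact wod_corr hf he.norm

private theorem wod_one : IsEig S μ 1 (fun _ : Y => (1 : ℂ)) where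
  meas := measurable_const
  norm := fun _ => by simp
  eig := Eventually.of_forall fun _ => by simp

theorem es_nonneg (S : Y → Y) (μ : Measure Y) (f : Y → ℂ) : 0 ≤ es S μ f := by
  unfold es
  apply Real.sSup_nonneg
  rintro r ⟨β, e, -, rfl⟩
  positivity

theorem es_le_one {f : Y → ℂ} (hf : Bd f) : es S μ f ≤ 1 := by
  unfold es
  apply Real.sSup_le _ zero_le_one
  rintro r ⟨β, e, he, rfl⟩
  exact wod_corr hf he.norm

/-- the supremum is nearly attained -/
theorem exists_eig {f : Y → ℂ} (hf : Bd f) :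
    ∃ β e, IsEig S μ β e ∧ es S μ f ≤ 2 * ‖∫ v, f v * conj (e v) ∂μ‖ ^ 2 := by
  have h0 := es_nonneg S μ f
  rcases h0.eq_or_lt with h | h
  · refine ⟨1, _, wod_one (S := S) (μ := μ), ?_⟩
    rw [← h]
    positivity
  · have h2 : es S μ f / 2 < es S μ f := by linarith
    have hne : {r : ℝ | ∃ β e, IsEig S μ β e ∧ r = ‖∫ v, f v * conj (e v) ∂μ‖ ^ 2}.Nonempty :=
      ⟨_, 1, _, wod_one (S := S) (μ := μ), rfl⟩
    obtain ⟨r, ⟨β, e, he, rfl⟩, hr⟩ := exists_lt_of_lt_csSup hne h2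
    refine ⟨β, e, he, ?_⟩
    linarith

theorem eig_of_Lp (hS : Ergodic S μ) {e : Lp ℂ 2 μ} {β : ℂ} (he : ‖e‖ = 1)
    (h : Lp.compMeasurePreservingₗᵢ ℂ S hS.toMeasurePreserving e = β • e) :
    ∃ e' : Y → ℂ, IsEig S μ β e' ∧ e' =ᵐ[μ] e := by
  have hβ : ‖β‖ = 1 := by
    have h1 := congrArg norm h
    rw [LinearIsometry.norm_map, norm_smul, he, mul_one] at h1
    exact h1.symm
  have hcomp : (e : Y → ℂ) ∘ S =ᵐ[μ] fun v => β * e v := by
    have h1 : (Lp.compMeasurePreservingₗᵢ ℂ S hS.toMeasurePreserving e : Y → ℂ) =ᵐ[μ] e ∘ S :=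
      Lp.coeFn_compMeasurePreserving e hS.toMeasurePreserving
    have h2 : ((β • e : Lp ℂ 2 μ) : Y → ℂ) =ᵐ[μ] β • (e : Y → ℂ) := Lp.coeFn_smul β e
    rw [h] at h1
    filter_upwards [h1, h2] with v h3 h4
    rw [← h3, h4]
    rfl
  have hn : (fun v => ‖e v‖) ∘ S =ᵐ[μ] fun v => ‖e v‖ := by
    filter_upwards [hcomp] with v hv
    simp only [Function.comp_apply] at hv ⊢
    rw [hv, norm_mul, hβ, one_mul]
  have hmeas : Measurable (e : Y → ℂ) := (Lp.stronglyMeasurable e).measurable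
  obtain ⟨c, hc⟩ := hS.ae_eq_const_of_ae_eq_comp_ae hmeas.norm.aestronglyMeasurable hn
  have hc0 : 0 ≤ c := by
    obtain ⟨v, hv⟩ := hc.exists
    simp only [Function.const_apply] at hv
    rw [← hv]
    positivity
  have hc1 : c = 1 := by
    have h1 : ‖e‖ = (eLpNorm e 2 μ).toReal := rfl
    have h2 : eLpNorm e 2 μ = eLpNorm (fun _ : Y => c) 2 μ := by
      apply eLpNorm_congr_norm_ae
      filter_upwards [hc] with v hv
      simp only [Function.const_apply] at hv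
      rw [hv, Real.norm_of_nonneg hc0]
    rw [h2, eLpNorm_const c (by norm_num) (IsProbabilityMeasure.ne_zero μ)] at h1
    simp only [measure_univ, ENNReal.one_rpow, mul_one, toReal_enorm,
      Real.norm_of_nonneg hc0] at h1
    rw [← h1, he]
  have hset : MeasurableSet {v | ‖e v‖ = 1} := hmeas.norm (measurableSet_singleton 1)
  classical
  refine ⟨fun v => if ‖e v‖ = 1 then e v else 1, ⟨?_, ?_, ?_⟩, ?_⟩
  · exact Measurable.ite hset hmeas measurable_const
  · intro v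
    by_cases hv : ‖e v‖ = 1
    · simp [hv]
    · simp [hv]
  · have hc2 := hS.toMeasurePreserving.quasiMeasurePreserving.ae hc
    filter_upwards [hcomp, hc, hc2] with v h1 h2 h3
    simp only [Function.comp_apply, Function.const_apply] at h1 h2 h3
    rw [hc1] at h2 h3
    simp only [h2, h3, if_true]
    exact h1
  · filter_upwards [hc] with v h2
    simp only [Function.const_apply] at h2
    rw [hc1] at h2
    simp only [h2, if_true]

theorem wiener (hS : Ergodic S μ) {f : Y → ℂ} (hf : Bd f) {ε : ℝ} (hε : 0 < ε) :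
    ∃ M₀ : ℕ, ∀ M ≥ M₀, ((M : ℝ)⁻¹) ^ 2 * ∑ m ∈ Finset.range M, ∑ m' ∈ Finset.range M,
      ‖∫ v, f (S^[m] v) * conj (f (S^[m'] v)) ∂μ‖ ^ 2 ≤ es S μ f + ε := by
  have hfL : MemLp f 2 μ := MemLp.of_bound hf.meas.aestronglyMeasurable 1
    (Eventually.of_forall hf.le)
  obtain ⟨F, hF⟩ : ∃ F : Lp ℂ 2 μ, F = hfL.toLp f := ⟨_, rfl⟩
  have hFn : ‖F‖ ≤ 1 := by
    rw [hF, Lp.norm_toLp]
    have h1 : eLpNorm f 2 μ ≤ μ Set.univ ^ (ENNReal.toReal 2)⁻¹ * ENNReal.ofReal 1 :=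
      eLpNorm_le_of_ae_bound (Eventually.of_forall hf.le)
    simp only [measure_univ, ENNReal.one_rpow, ENNReal.ofReal_one, mul_one] at h1
    exact ENNReal.toReal_le_of_le_ofReal zero_le_one (by simpa using h1)
  obtain ⟨V, tens, ht, hV⟩ := WOC hS.toMeasurePreserving
  obtain ⟨A, hAc, hAs, hAU, hAb, hAe⟩ :=
    WOA (Lp.compMeasurePreservingₗᵢ ℂ S hS.toMeasurePreserving) V tens ht hV F
  have hA : ‖A‖ ≤ es S μ f := by
    rcases WOB _ A hAc hAs hAU with h0 | ⟨e, β, he, heU, heA⟩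
    · rw [h0, norm_zero]
      exact es_nonneg S μ f
    · rw [← heA, hAe e β heU he]
      obtain ⟨e', he', hee⟩ := eig_of_Lp hS he heU
      apply le_csSup (wod_bdd hf)
      refine ⟨β, e', he', ?_⟩
      have h1 : (inner ℂ F e : ℂ) = conj (∫ v, f v * conj (e' v) ∂μ) := by
        rw [L2.inner_def, ← integral_conj]
        apply integral_congr_ae
        have h2 : (F : Y → ℂ) =ᵐ[μ] f := by rw [hF]; exact hfL.coeFn_toLp
        filter_upwards [h2, hee] with v h3 h4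
        rw [h3, ← h4]
        simp [mul_comm]
      rw [h1, RCLike.norm_conj, Complex.norm_real, Real.norm_of_nonneg (by positivity)]
  obtain ⟨M₀, hM⟩ := hAb ε hε
  refine ⟨M₀, fun M hMM => ?_⟩
  have hiter : ∀ m : ℕ, ((Lp.compMeasurePreservingₗᵢ ℂ S hS.toMeasurePreserving :
      Lp ℂ 2 μ → Lp ℂ 2 μ)^[m] F : Y → ℂ) =ᵐ[μ] fun v => f (S^[m] v) := by
    intro m
    have h1 : ((Lp.compMeasurePreservingₗᵢ ℂ S hS.toMeasurePreserving :
        Lp ℂ 2 μ → Lp ℂ 2 μ)^[m] F) =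
        Lp.compMeasurePreserving S^[m] (hS.toMeasurePreserving.iterate m) F := by
      rw [← Lp.compMeasurePreserving_iterate hS.toMeasurePreserving m]
      rfl
    rw [h1]
    refine (Lp.coeFn_compMeasurePreserving F (hS.toMeasurePreserving.iterate m)).trans ?_
    have h2 : (F : Y → ℂ) =ᵐ[μ] f := by rw [hF]; exact hfL.coeFn_toLp
    exact (hS.toMeasurePreserving.iterate m).quasiMeasurePreserving.ae_eq_comp h2
  have hinner : ∀ m m' : ℕ, ‖(inner ℂ ((Lp.compMeasurePreservingₗᵢ ℂ S hS.toMeasurePreserving :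
      Lp ℂ 2 μ → Lp ℂ 2 μ)^[m] F) ((Lp.compMeasurePreservingₗᵢ ℂ S hS.toMeasurePreserving :
      Lp ℂ 2 μ → Lp ℂ 2 μ)^[m'] F) : ℂ)‖ = ‖∫ v, f (S^[m] v) * conj (f (S^[m'] v)) ∂μ‖ := by
    intro m m'
    rw [L2.inner_def, ← RCLike.norm_conj (∫ v, f (S^[m] v) * conj (f (S^[m'] v)) ∂μ),
      ← integral_conj]
    congr 1
    apply integral_congr_ae
    filter_upwards [hiter m, hiter m'] with v h3 h4
    rw [h3, h4]
    simp [mul_comm]
  have hfin := hM M hMM
  simp only [hinner] at hfin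
  refine hfin.trans ?_
  have h5 : ‖A‖ * ‖F‖ ^ 2 ≤ es S μ f := by
    have h6 : ‖F‖ ^ 2 ≤ 1 := by
      have := norm_nonneg F
      nlinarith
    calc ‖A‖ * ‖F‖ ^ 2 ≤ ‖A‖ * 1 := mul_le_mul_of_nonneg_left h6 (norm_nonneg A)
      _ = ‖A‖ := mul_one _
      _ ≤ _ := hA
  linarith

end FHE
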