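import Pool.Agent.FHE.ALN
import Pool.Agent.FHE.AVB
import Pool.Agent.FHE.WOD

/-! KLA (~100 lines): for fixed `H`, the box averages with sides `M, H, ..., H` are at most
`2 ^ d * (av H d (es (dl S h f)) + ε)` for large `M`. The set of lists of length `d` with entries `< H`
is finite, so `wiener` gives one `M₀` for all of them
(apply it to `dl S h f`, `dl_bd`). For `M ≥ M₀`: unfold `avb (M :: _)`, exchange sums (`avb_sum`,
`avb_mul_left`), use `norm_int_bx_pair`: the average is `avb (replicate d H) (fun c' => W (c'.map df))`,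
`W h := M⁻² ∑_{m,m'<M} ‖∫ dl S h f (S^m v) conj (dl S h f (S^m' v))‖²`, and `W (c'.map df) ≤
es S μ (dl S (c'.map df) f) + ε` for the boxes `c'` inside `H` (`avb_mono`); then `avb_df_le`. -/

open MeasureTheory Filter Topology
open scoped ComplexConjugate

namespace FHE

private lemma kla_all (H d : ℕ) (P : List ℕ → ℕ → Prop) (h : ∀ l, ∀ᶠ M in atTop, P l M) :
    ∀ᶠ M in atTop, ∀ l : List ℕ, l.length = d → (∀ a ∈ l, a < H) → P l M := by
  induction d generalizing P with
  | zero =>
    filter_upwards [h []] with M hM l hl _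
    rw [List.length_eq_zero_iff.mp hl]
    exact hM
  | succ d ih =>
    have h1 : ∀ᶠ M in atTop, ∀ a ∈ Finset.range H, ∀ l : List ℕ, l.length = d →
        (∀ b ∈ l, b < H) → P (a :: l) M := by
      rw [Filter.eventually_all_finset]
      intro a _
      exact ih (fun l M => P (a :: l) M) (fun l => h (a :: l))
    filter_upwards [h1] with M hM l hl hlt
    match l, hl, hlt with
    | a :: t, hl, hlt =>
      exact hM a (Finset.mem_range.mpr (hlt a List.mem_cons_self)) t
        (by simpa using hl) (fun b hb => hlt b (List.mem_cons_of_mem _ hb))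

private lemma kla_box (H d : ℕ) (c : List (ℕ × ℕ))
    (h : List.Forall₂ (fun (x : ℕ × ℕ) (H : ℕ) => x.1 < H ∧ x.2 < H) c (List.replicate d H)) :
    (c.map df).length = d ∧ ∀ a ∈ c.map df, a < H := by
  induction d generalizing c with
  | zero =>
    cases c with
    | nil => simp
    | cons x t => cases h
  | succ d ih =>
    cases c with
    | nil => cases h
    | cons x t =>
      rw [List.replicate_succ] at h
      cases h with
      | cons hx ht =>
        obtain ⟨h1, h2⟩ := ih t ht
        refine ⟨by simpa using h1, fun a ha => ?_⟩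
        rw [List.map_cons, List.mem_cons] at ha
        rcases ha with rfl | ha
        · unfold df
          have := hx.1
          have := hx.2
          omega
        · exact h2 a ha

theorem kla {Y : Type*} [MeasurableSpace Y] {μ : Measure Y} [IsProbabilityMeasure μ] {S : Y → Y}
    (hS : Ergodic S μ) {f : Y → ℂ} (hf : Bd f) (d : ℕ) {H : ℕ} (hH : 1 ≤ H) {ε : ℝ} (hε : 0 < ε) :
    ∃ M₀ : ℕ, ∀ M ≥ M₀, avb (M :: List.replicate d H) (fun c => ‖∫ v, bx S c f v ∂μ‖ ^ 2) ≤
      2 ^ d * (av H d (fun h => es S μ (dl S h f)) + ε) := by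
  set W : List ℕ → ℕ → ℝ := fun h M => ((M : ℝ)⁻¹) ^ 2 * ∑ m ∈ Finset.range M,
    ∑ m' ∈ Finset.range M, ‖∫ v, dl S h f (S^[m] v) * conj (dl S h f (S^[m'] v)) ∂μ‖ ^ 2 with hW
  have hev : ∀ᶠ M in atTop, ∀ l : List ℕ, l.length = d → (∀ a ∈ l, a < H) →
      W l M ≤ es S μ (dl S l f) + ε := by
    refine kla_all H d (fun l M => W l M ≤ es S μ (dl S l f) + ε) fun l => ?_
    obtain ⟨M₀, hM₀⟩ := wiener hS (dl_bd hS.measurable l hf) hε
    exact eventually_atTop.mpr ⟨M₀, hM₀⟩
  obtain ⟨M₀, hM₀⟩ := eventually_atTop.mp hev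
  refine ⟨M₀, fun M hM => ?_⟩
  have h1 : avb (M :: List.replicate d H) (fun c => ‖∫ v, bx S c f v ∂μ‖ ^ 2) =
      avb (List.replicate d H) (fun c => W (c.map df) M) := by
    change ((M : ℝ)⁻¹) ^ 2 * ∑ a ∈ Finset.range M, ∑ b ∈ Finset.range M,
      avb (List.replicate d H) (fun t => ‖∫ v, bx S ((a, b) :: t) f v ∂μ‖ ^ 2) = _
    simp only [avb_sum]
    rw [← avb_mul_left]
    apply avb_congr
    intro c _
    rw [hW]
    simp only
    congr 1
    refine Finset.sum_congr rfl fun a _ => Finset.sum_congr rfl fun b _ => ?_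
    rw [norm_int_bx_pair hS.toMeasurePreserving c a b hf.meas]
  rw [h1]
  have h2 : avb (List.replicate d H) (fun c => W (c.map df) M) ≤
      avb (List.replicate d H) (fun c => (fun h => es S μ (dl S h f) + ε) (c.map df)) := by
    apply avb_mono
    intro c hc
    obtain ⟨h3, h4⟩ := kla_box H d c hc
    exact hM₀ M hM _ h3 h4
  refine h2.trans ?_
  have h5 := avb_df_le hH d (Q := fun h => es S μ (dl S h f) + ε)
    (fun t => add_nonneg (es_nonneg _ _ _) hε.le)
  refine h5.trans (le_of_eq ?_)
  rw [av_add, av_const hH]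

end FHE
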