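import Pool.Agent.FHE.RLW

/-! KTA (~100 lines): Turán-Kubilius: expand the square, `r_zero`, `r_zero_zero`
(`∫ (1_{R_p = 0} - 1/p)² = 1/p - 1/p² ≤ 1/p`, cross terms vanish). Then Cauchy-Schwarz. -/

open MeasureTheory Filter Topology
open scoped ComplexConjugate

namespace FHE

variable {Y : Type} [MeasurableSpace Y] {S : Y → Y} {μ : Measure Y} {g : ℕ → ℂ}

private theorem kta_meas (s : Sys S μ g) (p : ℕ) : MeasurableSet {ω | s.R p ω = 0} :=
  s.mR p (measurableSet_singleton 0)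

private theorem kta_ind (s : Sys S μ g) (p : ℕ) :
    (fun ω => (if s.R p ω = 0 then (1 : ℝ) else 0)) = {ω | s.R p ω = 0}.indicator 1 := by
  funext ω
  by_cases h : s.R p ω = 0
  · rw [if_pos h, Set.indicator_of_mem (by exact h)]
    rfl
  · rw [if_neg h, Set.indicator_of_notMem (by exact h)]

private theorem kta_int (s : Sys S μ g) {p : ℕ} (hp : p.Prime) :
    ∫ ω, (if s.R p ω = 0 then (1 : ℝ) else 0) ∂s.ρ = (p : ℝ)⁻¹ := by
  rw [kta_ind, integral_indicator_one (kta_meas s p), r_zero s hp]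

private theorem kta_int2 (s : Sys S μ g) {p q : ℕ} (hp : p.Prime) (hq : q.Prime) (hpq : p ≠ q) :
    ∫ ω, (if s.R p ω = 0 then (1 : ℝ) else 0) * (if s.R q ω = 0 then (1 : ℝ) else 0) ∂s.ρ =
      (p : ℝ)⁻¹ * (q : ℝ)⁻¹ := by
  have h1 : (fun ω => (if s.R p ω = 0 then (1 : ℝ) else 0) * (if s.R q ω = 0 then (1 : ℝ) else 0)) =
      {ω | s.R p ω = 0 ∧ s.R q ω = 0}.indicator 1 := by
    funext ω
    by_cases h : s.R p ω = 0 <;> by_cases h' : s.R q ω = 0 <;> simp [h, h']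
  have hmes : MeasurableSet {ω | s.R p ω = 0 ∧ s.R q ω = 0} := (kta_meas s p).inter (kta_meas s q)
  rw [h1, integral_indicator_one hmes, r_zero_zero s hp hq hpq]

private theorem kta_i (s : Sys S μ g) (p : ℕ) :
    Integrable (fun ω => (if s.R p ω = 0 then (1 : ℝ) else 0)) s.ρ := by
  rw [kta_ind]
  exact (integrable_const (1 : ℝ)).indicator (kta_meas s p)

private theorem kta_i2 (s : Sys S μ g) (p q : ℕ) :
    Integrable (fun ω => (if s.R p ω = 0 then (1 : ℝ) else 0) *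
      (if s.R q ω = 0 then (1 : ℝ) else 0)) s.ρ := by
  have h1 : (fun ω => (if s.R p ω = 0 then (1 : ℝ) else 0) * (if s.R q ω = 0 then (1 : ℝ) else 0)) =
      {ω | s.R p ω = 0 ∧ s.R q ω = 0}.indicator 1 := by
    funext ω
    by_cases h : s.R p ω = 0 <;> by_cases h' : s.R q ω = 0 <;> simp [h, h']
  rw [h1]
  exact (integrable_const (1 : ℝ)).indicator ((kta_meas s p).inter (kta_meas s q))

private theorem kta_prod (s : Sys S μ g) {p q : ℕ} (hp : p.Prime) (hq : q.Prime) :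
    ∫ ω, ((if s.R p ω = 0 then (1 : ℝ) else 0) - (p : ℝ)⁻¹) *
      ((if s.R q ω = 0 then (1 : ℝ) else 0) - (q : ℝ)⁻¹) ∂s.ρ ≤ if p = q then (p : ℝ)⁻¹ else 0 := by
  have h1 : (fun ω => ((if s.R p ω = 0 then (1 : ℝ) else 0) - (p : ℝ)⁻¹) *
      ((if s.R q ω = 0 then (1 : ℝ) else 0) - (q : ℝ)⁻¹)) =
      fun ω => (if s.R p ω = 0 then (1 : ℝ) else 0) * (if s.R q ω = 0 then (1 : ℝ) else 0) -
        (q : ℝ)⁻¹ * (if s.R p ω = 0 then (1 : ℝ) else 0) -
        (p : ℝ)⁻¹ * (if s.R q ω = 0 then (1 : ℝ) else 0) + (p : ℝ)⁻¹ * (q : ℝ)⁻¹ := by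
    funext ω
    ring
  have i2 : Integrable (fun ω => (q : ℝ)⁻¹ * (if s.R p ω = 0 then (1 : ℝ) else 0)) s.ρ :=
    (kta_i s p).const_mul _
  have i4 : Integrable (fun ω => (p : ℝ)⁻¹ * (if s.R q ω = 0 then (1 : ℝ) else 0)) s.ρ :=
    (kta_i s q).const_mul _
  have i3 : Integrable (fun ω => (if s.R p ω = 0 then (1 : ℝ) else 0) *
      (if s.R q ω = 0 then (1 : ℝ) else 0) -
      (q : ℝ)⁻¹ * (if s.R p ω = 0 then (1 : ℝ) else 0)) s.ρ := (kta_i2 s p q).sub i2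
  have i5 : Integrable (fun ω => (if s.R p ω = 0 then (1 : ℝ) else 0) *
      (if s.R q ω = 0 then (1 : ℝ) else 0) -
      (q : ℝ)⁻¹ * (if s.R p ω = 0 then (1 : ℝ) else 0) -
      (p : ℝ)⁻¹ * (if s.R q ω = 0 then (1 : ℝ) else 0)) s.ρ := i3.sub i4
  rw [h1, integral_add i5 (integrable_const _), integral_sub i3 i4,
    integral_sub (kta_i2 s p q) i2, integral_const_mul, integral_const_mul,
    kta_int s hp, kta_int s hq, integral_const]
  simp only [probReal_univ, smul_eq_mul, one_mul]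
  by_cases hpq : p = q
  · subst hpq
    rw [if_pos rfl]
    have h2 : ∫ ω, (if s.R p ω = 0 then (1 : ℝ) else 0) * (if s.R p ω = 0 then (1 : ℝ) else 0)
        ∂s.ρ = (p : ℝ)⁻¹ := by
      rw [← kta_int s hp]
      congr 1
      funext ω
      by_cases h : s.R p ω = 0 <;> simp [h]
    rw [h2]
    nlinarith [sq_nonneg ((p : ℝ)⁻¹)]
  · rw [if_neg hpq, kta_int2 s hp hq hpq]
    apply le_of_eq
    ring

private theorem kta_a_i (s : Sys S μ g) (p q : ℕ) :
    Integrable (fun ω => ((if s.R p ω = 0 then (1 : ℝ) else 0) - (p : ℝ)⁻¹) *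
      ((if s.R q ω = 0 then (1 : ℝ) else 0) - (q : ℝ)⁻¹)) s.ρ := by
  have h1 : (fun ω => ((if s.R p ω = 0 then (1 : ℝ) else 0) - (p : ℝ)⁻¹) *
      ((if s.R q ω = 0 then (1 : ℝ) else 0) - (q : ℝ)⁻¹)) =
      fun ω => (if s.R p ω = 0 then (1 : ℝ) else 0) * (if s.R q ω = 0 then (1 : ℝ) else 0) -
        (q : ℝ)⁻¹ * (if s.R p ω = 0 then (1 : ℝ) else 0) -
        (p : ℝ)⁻¹ * (if s.R q ω = 0 then (1 : ℝ) else 0) + (p : ℝ)⁻¹ * (q : ℝ)⁻¹ := by
    funext ω
    ring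
  rw [h1]
  exact (((kta_i2 s p q).sub ((kta_i s p).const_mul _)).sub
    ((kta_i s q).const_mul _)).add (integrable_const _)

theorem tk_sq (s : Sys S μ g) (A : Finset ℕ) (hA : ∀ p ∈ A, p.Prime) :
    ∫ ω, (∑ p ∈ A, ((if s.R p ω = 0 then (1 : ℝ) else 0) - (p : ℝ)⁻¹)) ^ 2 ∂s.ρ ≤
      ∑ p ∈ A, (p : ℝ)⁻¹ := by
  classical
  simp_rw [sq, Finset.sum_mul_sum]
  rw [integral_finsetSum _ (fun p _ => integrable_finsetSum _ (fun q _ => kta_a_i s p q))]
  apply Finset.sum_le_sum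
  intro p hp
  rw [integral_finsetSum _ (fun q _ => kta_a_i s p q)]
  calc ∑ q ∈ A, ∫ ω, ((if s.R p ω = 0 then (1 : ℝ) else 0) - (p : ℝ)⁻¹) *
      ((if s.R q ω = 0 then (1 : ℝ) else 0) - (q : ℝ)⁻¹) ∂s.ρ
      ≤ ∑ q ∈ A, if p = q then (p : ℝ)⁻¹ else 0 :=
        Finset.sum_le_sum (fun q hq => kta_prod s (hA p hp) (hA q hq))
    _ = (p : ℝ)⁻¹ := by rw [Finset.sum_ite_eq, if_pos hp]

theorem tk (s : Sys S μ g) (A : Finset ℕ) (hA : ∀ p ∈ A, p.Prime) {w : s.Ω → ℂ}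
    (hw : Measurable w) {B : ℝ} (hB : ∀ ω, ‖w ω‖ ≤ B) :
    ‖∑ p ∈ A, ((∫ ω, (if s.R p ω = 0 then (1 : ℂ) else 0) * w ω ∂s.ρ) -
      (p : ℂ)⁻¹ * ∫ ω, w ω ∂s.ρ)‖ ≤ B * Real.sqrt (∑ p ∈ A, (p : ℝ)⁻¹) := by
  classical
  obtain ⟨ω₀⟩ : Nonempty s.Ω := nonempty_of_isProbabilityMeasure s.ρ
  have hB0 : 0 ≤ B := (norm_nonneg _).trans (hB ω₀)
  set f : s.Ω → ℝ := fun ω => ∑ p ∈ A, ((if s.R p ω = 0 then (1 : ℝ) else 0) - (p : ℝ)⁻¹) with hf
  have hem : ∀ p, Measurable (fun ω => (if s.R p ω = 0 then (1 : ℝ) else 0)) := fun p =>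
    Measurable.ite (kta_meas s p) measurable_const measurable_const
  have hfm : Measurable f := Finset.measurable_sum _ (fun p _ => (hem p).sub measurable_const)
  have hfi : Integrable f s.ρ :=
    integrable_finsetSum _ (fun p _ => (kta_i s p).sub (integrable_const _))
  have hf2 : Integrable (fun ω => f ω ^ 2) s.ρ := by
    simp_rw [hf, sq, Finset.sum_mul_sum]
    exact integrable_finsetSum _ (fun p _ => integrable_finsetSum _ (fun q _ => kta_a_i s p q))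
  have hwi : Integrable w s.ρ :=
    Integrable.of_bound hw.aestronglyMeasurable B (Eventually.of_forall hB)
  have hei : ∀ p, Integrable (fun ω => (if s.R p ω = 0 then (1 : ℂ) else 0) * w ω) s.ρ := by
    intro p
    refine Integrable.of_bound (C := B) ?_ (Eventually.of_forall (fun ω => ?_))
    · exact ((Measurable.ite (kta_meas s p) measurable_const measurable_const).mul
        hw).aestronglyMeasurable
    · split_ifs
      · rw [one_mul]
        exact hB ω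
      · rw [zero_mul, norm_zero]
        exact hB0
  have e1 : ∑ p ∈ A, ((∫ ω, (if s.R p ω = 0 then (1 : ℂ) else 0) * w ω ∂s.ρ) -
      (p : ℂ)⁻¹ * ∫ ω, w ω ∂s.ρ) = ∫ ω, (f ω : ℂ) * w ω ∂s.ρ := by
    have h1 : ∀ p ∈ A, (∫ ω, (if s.R p ω = 0 then (1 : ℂ) else 0) * w ω ∂s.ρ) -
        (p : ℂ)⁻¹ * ∫ ω, w ω ∂s.ρ =
        ∫ ω, ((if s.R p ω = 0 then (1 : ℂ) else 0) * w ω - (p : ℂ)⁻¹ * w ω) ∂s.ρ := by
      intro p _
      rw [integral_sub (hei p) (hwi.const_mul _), integral_const_mul]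
    have hsi : ∀ p ∈ A, Integrable (fun ω => (if s.R p ω = 0 then (1 : ℂ) else 0) * w ω -
        (p : ℂ)⁻¹ * w ω) s.ρ := fun p _ => (hei p).sub (hwi.const_mul _)
    rw [Finset.sum_congr rfl h1, ← integral_finsetSum _ hsi]
    congr 1
    funext ω
    simp only [hf]
    push_cast
    rw [Finset.sum_mul]
    apply Finset.sum_congr rfl
    intro p _
    split_ifs <;> push_cast <;> ring
  rw [e1]
  have h2 : ‖∫ ω, (f ω : ℂ) * w ω ∂s.ρ‖ ≤ B * ∫ ω, |f ω| ∂s.ρ := by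
    refine (norm_integral_le_integral_norm _).trans ?_
    rw [← integral_const_mul]
    apply integral_mono_of_nonneg (Eventually.of_forall (fun ω => norm_nonneg _))
      (hfi.abs.const_mul B) (Eventually.of_forall (fun ω => ?_))
    simp only
    rw [norm_mul, Complex.norm_real, Real.norm_eq_abs, mul_comm]
    exact mul_le_mul_of_nonneg_right (hB ω) (abs_nonneg _)
  refine h2.trans (mul_le_mul_of_nonneg_left ?_ hB0)
  apply Real.le_sqrt_of_sq_le
  refine le_trans ?_ (tk_sq s A hA)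
  set M := ∫ ω, |f ω| ∂s.ρ with hM
  have h3 : 0 ≤ ∫ ω, (|f ω| - M) ^ 2 ∂s.ρ := integral_nonneg (fun ω => sq_nonneg _)
  have h4 : (fun ω => (|f ω| - M) ^ 2) = fun ω => f ω ^ 2 - (2 * M) * |f ω| + M ^ 2 := by
    funext ω
    rw [sub_sq, sq_abs]
    ring
  have j1 : Integrable (fun ω => (2 * M) * |f ω|) s.ρ := hfi.abs.const_mul _
  have j2 : Integrable (fun ω => f ω ^ 2 - (2 * M) * |f ω|) s.ρ := hf2.sub j1
  rw [h4, integral_add j2 (integrable_const _),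
    integral_sub hf2 j1, integral_const_mul, integral_const, ← hM] at h3
  simp only [probReal_univ, smul_eq_mul, one_mul] at h3
  nlinarith

end FHE
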