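import Pool.Agent.FHE.Defs

/-! LIA (~180 lines): logarithmic averages. `∑_{n ≤ N} 1/n ≤ 1 + log N` (`harmonic_le_one_add_log`) and
`≥ log N` (`log_add_one_le_harmonic`); for `N < 2`, `log N = 0` and `LA = 0`. `la_shift`: Abel summation,
`|1/n - 1/(n+1)| ≤ 1/n²`. `la_dil`: the left sum is `(1/log N) ∑_{m ≤ N/p} F (p m) / m`; the missing terms
`N/p < m ≤ N` contribute at most `C (1 + log p + 1) / log N`. `la_dvd`: `la_dil` for `F = 1`. -/

open MeasureTheory Filter Topology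
open scoped ComplexConjugate

namespace FHE

private theorem lia_harm (N : ℕ) :
    ((harmonic N : ℚ) : ℝ) = ∑ n ∈ Finset.Icc 1 N, (1 : ℝ) / (n : ℝ) := by
  rw [harmonic_eq_sum_Icc]
  push_cast
  refine Finset.sum_congr rfl fun n _ => ?_
  rw [one_div]

private theorem lia_upper (N : ℕ) :
    ∑ n ∈ Finset.Icc 1 N, (1 : ℝ) / (n : ℝ) ≤ 1 + Real.log N := by
  rw [← lia_harm]; exact harmonic_le_one_add_log N

private theorem lia_lower (N : ℕ) :
    Real.log ((N : ℝ) + 1) ≤ ∑ n ∈ Finset.Icc 1 N, (1 : ℝ) / (n : ℝ) := by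
  rw [← lia_harm]
  have := log_add_one_le_harmonic N
  push_cast at this
  exact this

private theorem lia_lower' (N : ℕ) :
    Real.log (N : ℝ) ≤ ∑ n ∈ Finset.Icc 1 N, (1 : ℝ) / (n : ℝ) := by
  rcases Nat.eq_zero_or_pos N with h | h
  · subst h; simp
  · refine le_trans ?_ (lia_lower N)
    have : (0 : ℝ) < N := by exact_mod_cast h
    exact Real.log_le_log this (by linarith)

private theorem lia_log_zero {N : ℕ} (h : N < 2) : Real.log (N : ℝ) = 0 := by
  interval_cases N <;> simp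

private theorem lia_log_pos {N : ℕ} (h : 2 ≤ N) : 0.69 < Real.log (N : ℝ) := by
  have h2 : (2 : ℝ) ≤ N := by exact_mod_cast h
  have := Real.log_le_log (by norm_num) h2
  linarith [Real.log_two_gt_d9]

private theorem lia_sum_norm {F : ℕ → ℂ} {G : ℕ → ℝ} (h : ∀ n, 1 ≤ n → ‖F n‖ ≤ G n) (N : ℕ) :
    ‖∑ n ∈ Finset.Icc 1 N, (1 : ℂ) / (n : ℂ) * F n‖ ≤
      ∑ n ∈ Finset.Icc 1 N, (1 : ℝ) / (n : ℝ) * G n := by
  refine (norm_sum_le _ _).trans (Finset.sum_le_sum fun n hn => ?_)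
  rw [norm_mul, norm_div, norm_one, Complex.norm_natCast]
  exact mul_le_mul_of_nonneg_left (h n (Finset.mem_Icc.1 hn).1) (by positivity)

private theorem lia_norm_eq (F : ℕ → ℂ) (N : ℕ) :
    ‖LA F N‖ = (1 / Real.log N) * ‖∑ n ∈ Finset.Icc 1 N, (1 : ℂ) / (n : ℂ) * F n‖ := by
  unfold LA
  rw [norm_mul, norm_div, norm_one, Complex.norm_real, Real.norm_of_nonneg (Real.log_natCast_nonneg N)]

private theorem lia_log_tendsto : Tendsto (fun N : ℕ => 1 / Real.log (N : ℝ)) atTop (𝓝 0) := by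
  have h : Tendsto (fun N : ℕ => Real.log (N : ℝ)) atTop atTop :=
    Real.tendsto_log_atTop.comp tendsto_natCast_atTop_atTop
  exact h.const_div_atTop 1

/-- bounded sums have small logarithmic averages -/
private theorem lia_small {F : ℕ → ℂ} {K : ℝ}
    (h : ∀ N : ℕ, ‖∑ n ∈ Finset.Icc (1 : ℕ) N, (1 : ℂ) / (n : ℂ) * F n‖ ≤ K) :
    Tendsto (LA F) atTop (𝓝 0) := by
  refine squeeze_zero_norm (a := fun N : ℕ => 1 / Real.log (N : ℝ) * K) (fun N => ?_) ?_
  · rw [lia_norm_eq]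
    exact mul_le_mul_of_nonneg_left (h N) (by
      have := Real.log_natCast_nonneg N
      positivity)
  · have := lia_log_tendsto.mul_const K
    simpa using this

theorem la_bound {F : ℕ → ℂ} {C : ℝ} (hF : ∀ n, ‖F n‖ ≤ C) (N : ℕ) : ‖LA F N‖ ≤ 3 * C := by
  have hC : 0 ≤ C := le_trans (norm_nonneg _) (hF 0)
  rcases lt_or_ge N 2 with h | h
  · rw [lia_norm_eq, lia_log_zero h]
    simp; positivity
  · rw [lia_norm_eq]
    have hl := lia_log_pos h
    have h1 := lia_sum_norm (G := fun _ => C) (fun n _ => hF n) N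
    rw [← Finset.sum_mul] at h1
    have h2 := lia_upper N
    rw [one_div, inv_mul_le_iff₀ (by linarith)]
    calc _ ≤ _ := h1
      _ ≤ (1 + Real.log N) * C := mul_le_mul_of_nonneg_right h2 hC
      _ ≤ Real.log N * (3 * C) := by nlinarith

theorem la_add (F G : ℕ → ℂ) (N : ℕ) : LA (fun n => F n + G n) N = LA F N + LA G N := by
  unfold LA
  rw [← mul_add, ← Finset.sum_add_distrib]
  simp only [mul_add]

theorem la_smul (z : ℂ) (F : ℕ → ℂ) (N : ℕ) : LA (fun n => z * F n) N = z * LA F N := by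
  unfold LA
  have : ∑ n ∈ Finset.Icc 1 N, (1 : ℂ) / (n : ℂ) * (z * F n) =
      z * ∑ n ∈ Finset.Icc 1 N, (1 : ℂ) / (n : ℂ) * F n := by
    rw [Finset.mul_sum]
    exact Finset.sum_congr rfl fun n _ => by ring
  rw [this]; ring

theorem la_norm_le (F : ℕ → ℂ) (G : ℕ → ℝ) (h : ∀ n, 1 ≤ n → ‖F n‖ ≤ G n) (N : ℕ) :
    ‖LA F N‖ ≤ ‖LA (fun n => (G n : ℂ)) N‖ := by
  rw [lia_norm_eq, lia_norm_eq]
  refine mul_le_mul_of_nonneg_left ?_ (by
      have := Real.log_natCast_nonneg N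
      positivity)
  refine (lia_sum_norm h N).trans ?_
  have : ∑ n ∈ Finset.Icc 1 N, (1 : ℂ) / (n : ℂ) * ((G n : ℝ) : ℂ) =
      ((∑ n ∈ Finset.Icc 1 N, (1 : ℝ) / (n : ℝ) * G n : ℝ) : ℂ) := by
    push_cast; rfl
  rw [this, Complex.norm_real]
  exact le_abs_self _

theorem la_one : Tendsto (LA fun _ => 1) atTop (𝓝 1) := by
  have key : Tendsto (fun N : ℕ => 1 / Real.log (N : ℝ) *
      ∑ n ∈ Finset.Icc 1 N, (1 : ℝ) / (n : ℝ)) atTop (𝓝 1) := by
    refine tendsto_of_tendsto_of_tendsto_of_le_of_le' (g := fun _ : ℕ => (1 : ℝ))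
      (h := fun N : ℕ => 1 / Real.log (N : ℝ) + 1) tendsto_const_nhds ?_ ?_ ?_
    · have := lia_log_tendsto.add_const 1
      simpa using this
    · filter_upwards [eventually_ge_atTop 2] with N hN
      have hl := lia_log_pos hN
      have := lia_lower' N
      rw [one_div, le_inv_mul_iff₀ (by linarith)]
      linarith
    · filter_upwards [eventually_ge_atTop 2] with N hN
      have hl := lia_log_pos hN
      have h2 := lia_upper N
      calc 1 / Real.log (N : ℝ) * ∑ n ∈ Finset.Icc 1 N, (1 : ℝ) / (n : ℝ) ≤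
          1 / Real.log (N : ℝ) * (1 + Real.log N) :=
            mul_le_mul_of_nonneg_left h2 (by positivity)
        _ = 1 / Real.log (N : ℝ) + 1 := by
            field_simp
  have h2 := (Complex.continuous_ofReal.tendsto 1).comp key
  have h3 : (LA fun _ => 1) = (fun N : ℕ => ((1 / Real.log (N : ℝ) *
      ∑ n ∈ Finset.Icc 1 N, (1 : ℝ) / (n : ℝ) : ℝ) : ℂ)) := by
    funext N
    unfold LA
    push_cast
    simp only [mul_one]
  rw [h3]
  rw [Complex.ofReal_one] at h2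
  exact h2

/-- finitely many terms do not matter -/
theorem la_finite {F : ℕ → ℂ} {n₀ : ℕ} (h : ∀ n ≥ n₀, F n = 0) :
    Tendsto (LA F) atTop (𝓝 0) := by
  refine lia_small (K := ∑ n ∈ Finset.range n₀, ‖F n‖) fun N => ?_
  refine (norm_sum_le _ _).trans ?_
  have h1 : ∀ n ∈ Finset.Icc 1 N, ‖(1 : ℂ) / (n : ℂ) * F n‖ ≤ if n < n₀ then ‖F n‖ else 0 := by
    intro n hn
    split_ifs with hlt
    · rw [norm_mul, norm_div, norm_one, Complex.norm_natCast]
      have h1n : (1 : ℝ) ≤ n := by exact_mod_cast (Finset.mem_Icc.1 hn).1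
      have : 1 / (n : ℝ) ≤ 1 := by
        rw [div_le_one (by linarith)]; exact h1n
      nlinarith [norm_nonneg (F n)]
    · rw [h n (not_lt.1 hlt)]; simp
  refine (Finset.sum_le_sum h1).trans ?_
  rw [← Finset.sum_filter]
  refine Finset.sum_le_sum_of_subset_of_nonneg ?_ (fun _ _ _ => norm_nonneg _)
  intro n hn
  rw [Finset.mem_filter] at hn
  exact Finset.mem_range.2 hn.2

theorem la_shift {F : ℕ → ℂ} {C : ℝ} (hF : ∀ n, ‖F n‖ ≤ C) :
    Tendsto (LA fun n => F (n + 1) - F n) atTop (𝓝 0) := by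
  have hC : 0 ≤ C := le_trans (norm_nonneg _) (hF 0)
  have key : ∀ N : ℕ, ‖(∑ n ∈ Finset.Icc 1 N, (1 : ℂ) / (n : ℂ) * (F (n + 1) - F n)) -
      (1 : ℂ) / ((N : ℂ) + 1) * F (N + 1)‖ ≤ C + C * (1 - 1 / ((N : ℝ) + 1)) := by
    intro N
    induction N with
    | zero => simpa using hF 1
    | succ N ih =>
      have hN1 : ((N : ℂ) + 1) ≠ 0 := by exact_mod_cast Nat.succ_ne_zero N
      have hN2 : ((N : ℂ) + 1 + 1) ≠ 0 := by exact_mod_cast Nat.succ_ne_zero (N + 1)
      rw [Finset.sum_Icc_succ_top (by omega)]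
      have e : (∑ n ∈ Finset.Icc 1 N, (1 : ℂ) / (n : ℂ) * (F (n + 1) - F n)) +
          (1 : ℂ) / ((N + 1 : ℕ) : ℂ) * (F (N + 1 + 1) - F (N + 1)) -
          (1 : ℂ) / (((N + 1 : ℕ) : ℂ) + 1) * F (N + 1 + 1) =
          ((∑ n ∈ Finset.Icc 1 N, (1 : ℂ) / (n : ℂ) * (F (n + 1) - F n)) -
            (1 : ℂ) / ((N : ℂ) + 1) * F (N + 1)) +
          (((1 / ((N : ℝ) + 1) - 1 / ((N : ℝ) + 1 + 1) : ℝ) : ℂ)) * F (N + 1 + 1) := by
        push_cast
        ring
      rw [e]
      refine (norm_add_le _ _).trans ?_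
      have h1 : (0 : ℝ) < (N : ℝ) + 1 := by positivity
      have h2 : (0 : ℝ) ≤ 1 / ((N : ℝ) + 1) - 1 / ((N : ℝ) + 1 + 1) := by
        rw [sub_nonneg]
        exact one_div_le_one_div_of_le h1 (by linarith)
      rw [norm_mul, Complex.norm_real, Real.norm_of_nonneg h2]
      have h3 := mul_le_mul_of_nonneg_left (hF (N + 1 + 1)) h2
      push_cast
      nlinarith [ih, h3]
  refine lia_small (K := 3 * C) fun N => ?_
  have h1 := key N
  have h2 : ‖(1 : ℂ) / ((N : ℂ) + 1) * F (N + 1)‖ ≤ C := by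
    rw [norm_mul, norm_div, norm_one]
    have : ‖(N : ℂ) + 1‖ = (N : ℝ) + 1 := by
      have := Complex.norm_natCast (N + 1)
      push_cast at this
      exact this
    rw [this]
    have h3 : 1 / ((N : ℝ) + 1) ≤ 1 := by
      rw [div_le_one (by positivity)]; linarith [(Nat.cast_nonneg N : (0 : ℝ) ≤ N)]
    have h4 : 0 ≤ 1 / ((N : ℝ) + 1) := by positivity
    nlinarith [hF (N + 1), norm_nonneg (F (N + 1))]
  have h3 := norm_add_le ((∑ n ∈ Finset.Icc 1 N, (1 : ℂ) / (n : ℂ) * (F (n + 1) - F n)) -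
      (1 : ℂ) / ((N : ℂ) + 1) * F (N + 1)) ((1 : ℂ) / ((N : ℂ) + 1) * F (N + 1))
  rw [sub_add_cancel] at h3
  have h4 : 0 ≤ 1 / ((N : ℝ) + 1) := by positivity
  have h5 : C * (1 - 1 / ((N : ℝ) + 1)) ≤ C := by nlinarith
  linarith

theorem la_dil {F : ℕ → ℂ} {C : ℝ} (hF : ∀ n, ‖F n‖ ≤ C) {p : ℕ} (hp : 1 ≤ p) :
    Tendsto (LA fun n => (if p ∣ n then (p : ℂ) * F n else 0) - F (p * n)) atTop (𝓝 0) := by
  have hC : 0 ≤ C := le_trans (norm_nonneg _) (hF 0)
  have hpR : (1 : ℝ) ≤ p := by exact_mod_cast hp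
  have hp0 : (p : ℂ) ≠ 0 := by
    have : p ≠ 0 := by omega
    exact_mod_cast this
  refine lia_small (K := C * (1 + Real.log p)) fun N => ?_
  have e1 : ∑ n ∈ Finset.Icc 1 N, (1 : ℂ) / (n : ℂ) * (if p ∣ n then (p : ℂ) * F n else 0) =
      ∑ m ∈ Finset.Icc 1 (N / p), (1 : ℂ) / (m : ℂ) * F (p * m) := by
    have : ∀ n ∈ Finset.Icc 1 N, (1 : ℂ) / (n : ℂ) * (if p ∣ n then (p : ℂ) * F n else 0) =
        if p ∣ n then (1 : ℂ) / (n : ℂ) * ((p : ℂ) * F n) else 0 := by
      intro n _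
      split_ifs <;> simp
    rw [Finset.sum_congr rfl this, ← Finset.sum_filter]
    symm
    refine Finset.sum_bij (fun m _ => p * m) ?_ ?_ ?_ ?_
    · intro m hm
      rw [Finset.mem_Icc] at hm
      rw [Finset.mem_filter, Finset.mem_Icc]
      refine ⟨⟨?_, ?_⟩, Dvd.intro _ rfl⟩
      · exact Nat.one_le_iff_ne_zero.2 (Nat.mul_ne_zero (by omega) (by omega))
      · calc p * m ≤ p * (N / p) := Nat.mul_le_mul_left _ hm.2
          _ ≤ N := Nat.mul_div_le N p
    · intro a _ b _ hab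
      exact Nat.eq_of_mul_eq_mul_left (by omega) hab
    · intro n hn
      rw [Finset.mem_filter, Finset.mem_Icc] at hn
      obtain ⟨m, rfl⟩ := hn.2
      refine ⟨m, ?_, rfl⟩
      rw [Finset.mem_Icc]
      constructor
      · rcases Nat.eq_zero_or_pos m with h | h
        · subst h; omega
        · exact h
      · rw [Nat.le_div_iff_mul_le (by omega), mul_comm]
        exact hn.1.2
    · intro m hm
      rw [Finset.mem_Icc] at hm
      have hm0 : (m : ℂ) ≠ 0 := by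
        have : m ≠ 0 := by omega
        exact_mod_cast this
      push_cast
      field_simp
  have hsub : Finset.Icc 1 (N / p) ⊆ Finset.Icc 1 N :=
    Finset.Icc_subset_Icc_right (Nat.div_le_self N p)
  have e2 : ∑ n ∈ Finset.Icc 1 N, (1 : ℂ) / (n : ℂ) *
      ((if p ∣ n then (p : ℂ) * F n else 0) - F (p * n)) =
      - ∑ n ∈ Finset.Icc 1 N \ Finset.Icc 1 (N / p), (1 : ℂ) / (n : ℂ) * F (p * n) := by
    simp only [mul_sub]
    rw [Finset.sum_sub_distrib, e1, ← Finset.sum_sdiff hsub]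
    ring
  rw [e2, norm_neg]
  refine (norm_sum_le _ _).trans ?_
  have h1 : ∑ n ∈ Finset.Icc 1 N \ Finset.Icc 1 (N / p), ‖(1 : ℂ) / (n : ℂ) * F (p * n)‖ ≤
      ∑ n ∈ Finset.Icc 1 N \ Finset.Icc 1 (N / p), (1 : ℝ) / (n : ℝ) * C := by
    refine Finset.sum_le_sum fun n _ => ?_
    rw [norm_mul, norm_div, norm_one, Complex.norm_natCast]
    exact mul_le_mul_of_nonneg_left (hF _) (by positivity)
  refine h1.trans ?_
  rw [← Finset.sum_mul, mul_comm]
  refine mul_le_mul_of_nonneg_left ?_ hC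
  have h2 : ∑ n ∈ Finset.Icc 1 N \ Finset.Icc 1 (N / p), (1 : ℝ) / (n : ℝ) =
      ∑ n ∈ Finset.Icc 1 N, (1 : ℝ) / (n : ℝ) - ∑ n ∈ Finset.Icc 1 (N / p), (1 : ℝ) / (n : ℝ) := by
    rw [← Finset.sum_sdiff hsub]; ring
  rw [h2]
  rcases Nat.eq_zero_or_pos N with h | h
  · subst h
    simp
    have := Real.log_natCast_nonneg p
    linarith
  have h3 := lia_upper N
  have h4 := lia_lower (N / p)
  have h5 : Real.log N - Real.log p ≤ Real.log (((N / p : ℕ) : ℝ) + 1) := by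
    have hN : (0 : ℝ) < N := by exact_mod_cast h
    rw [← Real.log_div hN.ne' (by positivity)]
    refine Real.log_le_log (by positivity) ?_
    rw [div_le_iff₀ (by linarith)]
    have h6 : N < (N / p + 1) * p := by
      have := Nat.div_add_mod N p
      have h7 := Nat.mod_lt N (show p > 0 by omega)
      nlinarith
    have h8 : ((N : ℕ) : ℝ) < (((N / p + 1) * p : ℕ) : ℝ) := by exact_mod_cast h6
    push_cast at h8
    linarith
  linarith

/-- the integers `n` with `p ∣ n + j` have logarithmic density `1 / p` -/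
theorem la_dvd {p : ℕ} (hp : 1 ≤ p) (j : ℤ) :
    Tendsto (LA fun n => if (p : ℤ) ∣ (n : ℤ) + j then 1 else 0) atTop (𝓝 ((p : ℂ)⁻¹)) := by
  have hp0 : (p : ℂ) ≠ 0 := by
    have : p ≠ 0 := by omega
    exact_mod_cast this
  have hb : ∀ (j : ℤ) (n : ℕ), ‖(if (p : ℤ) ∣ (n : ℤ) + j then (1 : ℂ) else 0)‖ ≤ 1 := by
    intro j n; split_ifs <;> simp
  have hlin : ∀ (F G : ℕ → ℂ) (N : ℕ), LA (fun n => F n - G n) N = LA F N - LA G N := by
    intro F G N
    have h1 := la_add F (fun n => (-1) * G n) N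
    have h2 := la_smul (-1) G N
    rw [h2] at h1
    have h3 : (fun n => F n - G n) = fun n => F n + -1 * G n := by funext n; ring
    rw [h3, h1]; ring
  have hstep : ∀ j : ℤ, Tendsto (fun N => LA (fun n : ℕ => if (p : ℤ) ∣ (n : ℤ) + (j + 1) then (1 : ℂ) else 0) N -
      LA (fun n : ℕ => if (p : ℤ) ∣ (n : ℤ) + j then (1 : ℂ) else 0) N) atTop (𝓝 0) := by
    intro j
    have h := la_shift (F := fun n : ℕ => if (p : ℤ) ∣ (n : ℤ) + j then (1 : ℂ) else 0) (hb j)
    refine h.congr fun N => ?_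
    rw [← hlin]
    congr 1
    funext n
    have : ((n + 1 : ℕ) : ℤ) + j = (n : ℤ) + (j + 1) := by push_cast; ring
    rw [this]
  have h0 : Tendsto (LA fun n : ℕ => if (p : ℤ) ∣ (n : ℤ) + 0 then (1 : ℂ) else 0) atTop
      (𝓝 ((p : ℂ)⁻¹)) := by
    have h1 := la_dil (F := fun _ => 1) (C := 1) (fun n => by simp) hp
    have h2 := (h1.add la_one).const_mul ((p : ℂ)⁻¹)
    rw [zero_add, mul_one ((p : ℂ)⁻¹)] at h2
    refine h2.congr fun N => ?_
    rw [← la_add, ← la_smul]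
    congr 1
    funext n
    have : ((p : ℤ) ∣ (n : ℤ) + 0) ↔ p ∣ n := by
      rw [add_zero]; exact Int.natCast_dvd_natCast
    by_cases hd : p ∣ n
    · rw [if_pos hd, if_pos (this.2 hd)]
      field_simp
      ring
    · rw [if_neg hd, if_neg (fun h => hd (this.1 h))]
      ring
  induction j using Int.induction_on with
  | zero => exact h0
  | succ i ih =>
    have := (hstep i).add ih
    simpa using this
  | pred i ih =>
    have h1 := ih.sub (hstep (-(i : ℤ) - 1))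
    simpa using h1

end FHE
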