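import Pool.Agent.FHE.LIA

/-! LIB (~130 lines): limits of the empirical measures along an ultrafilter. `lib_ultra`: a bounded
sequence in `ℂ` which does not tend to `0` has a nonzero limit along some ultrafilter (frequently
`‖·‖ ≥ ε`, compactness of a ball). `lib_limit`: `ν_N = (∑_{n ≤ N} 1/n)⁻¹ ∑_{n ≤ N} (1/n) δ_{w n}` (`N ≥ 1`) are
probability measures; `ProbabilityMeasure Z` is compact (Mathlib/MeasureTheory/Measure/Prokhorov),
so they converge along `U` to some `ρ`; real and imaginary parts of `Φ`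
(`ProbabilityMeasure.tendsto_iff_forall_integral_tendsto`); `(∑_{n ≤ N} 1/n) / log N → 1`. -/

open MeasureTheory Filter Topology
open scoped ComplexConjugate

namespace FHE

theorem lib_ultra {F : ℕ → ℂ} {C : ℝ} (hF : ∀ n, ‖F n‖ ≤ C) (h : ¬ Tendsto F atTop (𝓝 0)) :
    ∃ (U : Ultrafilter ℕ) (z : ℂ), (U : Filter ℕ) ≤ atTop ∧ z ≠ 0 ∧ Tendsto F U (𝓝 z) := by
  have h1 : ∃ ε : ℝ, 0 < ε ∧ ∃ᶠ n in atTop, ε ≤ ‖F n‖ := by
    by_contra hcon
    push Not at hcon
    apply h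
    rw [Metric.tendsto_nhds]
    intro ε hε
    filter_upwards [hcon ε hε] with n hn
    rw [dist_zero_right]
    exact hn
  obtain ⟨ε, hε, hfr⟩ := h1
  have hne : (atTop ⊓ 𝓟 {n : ℕ | ε ≤ ‖F n‖}).NeBot := Filter.frequently_mem_iff_neBot.1 hfr
  let U : Ultrafilter ℕ := Ultrafilter.of (atTop ⊓ 𝓟 {n : ℕ | ε ≤ ‖F n‖})
  have hU : (U : Filter ℕ) ≤ atTop ⊓ 𝓟 {n : ℕ | ε ≤ ‖F n‖} := Ultrafilter.of_le _
  have hUa : (U : Filter ℕ) ≤ atTop := hU.trans inf_le_left
  have hUs : ∀ᶠ n in (U : Filter ℕ), ε ≤ ‖F n‖ := by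
    have : (U : Filter ℕ) ≤ 𝓟 {n : ℕ | ε ≤ ‖F n‖} := hU.trans inf_le_right
    exact le_principal_iff.1 this
  have hcomp : IsCompact (Metric.closedBall (0 : ℂ) C) := isCompact_closedBall _ _
  obtain ⟨z, -, hz⟩ := hcomp.ultrafilter_le_nhds (U.map F) (by
    rw [Ultrafilter.coe_map, Filter.map_le_iff_le_comap]
    intro s hs
    obtain ⟨t, ht, hts⟩ := hs
    rw [Filter.mem_principal] at ht
    refine Filter.mem_of_superset Filter.univ_mem fun n _ => hts ?_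
    exact ht (mem_closedBall_zero_iff.2 (hF n)))
  refine ⟨U, z, hUa, ?_, hz⟩
  have hz' : Tendsto F (U : Filter ℕ) (𝓝 z) := hz
  have : ε ≤ ‖z‖ := ge_of_tendsto hz'.norm hUs
  intro h0
  rw [h0, norm_zero] at this
  linarith

theorem lib_limit {Z : Type*} [TopologicalSpace Z] [CompactSpace Z] [T2Space Z]
    [SecondCountableTopology Z] [MeasurableSpace Z] [BorelSpace Z] (w : ℕ → Z)
    (U : Ultrafilter ℕ) (hU : (U : Filter ℕ) ≤ atTop) :
    ∃ ρ : Measure Z, IsProbabilityMeasure ρ ∧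
      ∀ Φ : C(Z, ℂ), Tendsto (LA fun n => Φ (w n)) U (𝓝 (∫ z, Φ z ∂ρ)) := by
  have hcpos : ∀ N : ℕ, 1 ≤ N → 0 < ∑ n ∈ Finset.Icc 1 N, (1 : ℝ) / (n : ℝ) := by
    intro N hN
    refine Finset.sum_pos (fun n hn => ?_) ⟨1, Finset.mem_Icc.2 ⟨le_refl _, hN⟩⟩
    have : (0 : ℝ) < n := by exact_mod_cast (Finset.mem_Icc.1 hn).1
    positivity
  let c : ℕ → ℝ := fun N => ∑ n ∈ Finset.Icc 1 N, (1 : ℝ) / (n : ℝ)
  let ν : ℕ → Measure Z := fun N =>
    ∑ n ∈ Finset.Icc 1 N, ENNReal.ofReal ((1 : ℝ) / (n : ℝ) / c N) • Measure.dirac (w n)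
  have hν : ∀ N : ℕ, 1 ≤ N → IsProbabilityMeasure (ν N) := by
    intro N hN
    refine ⟨?_⟩
    simp only [ν, Measure.coe_finsetSum, Finset.sum_apply, Measure.smul_apply, measure_univ,
      smul_eq_mul, mul_one]
    rw [← ENNReal.ofReal_sum_of_nonneg (fun n _ => by
      have := (hcpos N hN).le
      positivity)]
    rw [← Finset.sum_div, div_self (hcpos N hN).ne', ENNReal.ofReal_one]
  let P : ℕ → ProbabilityMeasure Z := fun N =>
    if h : 1 ≤ N then ⟨ν N, hν N h⟩ else ⟨Measure.dirac (w 0), inferInstance⟩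
  obtain ⟨ρ, -, hρ⟩ := isCompact_univ.ultrafilter_le_nhds (U.map P) (by simp)
  refine ⟨(ρ : Measure Z), inferInstance, fun Φ => ?_⟩
  have hρ' : Tendsto P (U : Filter ℕ) (𝓝 ρ) := hρ
  rw [ProbabilityMeasure.tendsto_iff_forall_integral_rclike_tendsto ℂ] at hρ'
  have h1 := hρ' (BoundedContinuousFunction.mkOfCompact Φ)
  simp only [BoundedContinuousFunction.mkOfCompact_apply] at h1
  have h2 : Tendsto (LA fun _ => 1) (U : Filter ℕ) (𝓝 1) := la_one.mono_left hU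
  have h3 := h2.mul h1
  rw [one_mul] at h3
  refine h3.congr' ?_
  have hev : ∀ᶠ N in (U : Filter ℕ), 1 ≤ N := hU (eventually_ge_atTop 1)
  filter_upwards [hev] with N hN
  have hP : ((P N : ProbabilityMeasure Z) : Measure Z) = ν N := by
    have h5 : P N = ⟨ν N, hν N hN⟩ := dif_pos hN
    rw [h5]
    rfl
  rw [hP]
  have hint : ∫ z, Φ z ∂(ν N) =
      ∑ n ∈ Finset.Icc 1 N, (((1 : ℝ) / (n : ℝ) / c N : ℝ) : ℂ) * Φ (w n) := by
    simp only [ν]
    rw [integral_finsetSum_measure]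
    · refine Finset.sum_congr rfl fun n _ => ?_
      rw [integral_smul_measure, integral_dirac]
      rw [ENNReal.toReal_ofReal (by
        have := (hcpos N hN).le
        have h4 : 0 ≤ c N := this
        positivity)]
      rw [Complex.real_smul]
    · intro n _
      have hi : Integrable (fun z => Φ z) (Measure.dirac (w n)) :=
        (BoundedContinuousFunction.mkOfCompact Φ).integrable _
      exact hi.smul_measure ENNReal.ofReal_ne_top
  rw [hint]
  unfold LA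
  have hcN : ((c N : ℝ) : ℂ) ≠ 0 := by
    have : c N ≠ 0 := (hcpos N hN).ne'
    exact_mod_cast this
  have hsum : ∑ n ∈ Finset.Icc 1 N, (1 : ℂ) / (n : ℂ) * 1 = ((c N : ℝ) : ℂ) := by
    simp only [c]
    push_cast
    simp
  have hsum2 : ∑ n ∈ Finset.Icc 1 N, (((1 : ℝ) / (n : ℝ) / c N : ℝ) : ℂ) * Φ (w n) =
      ((c N : ℝ) : ℂ)⁻¹ * ∑ n ∈ Finset.Icc 1 N, (1 : ℂ) / (n : ℂ) * Φ (w n) := by
    rw [Finset.mul_sum]
    refine Finset.sum_congr rfl fun n _ => ?_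
    push_cast
    ring
  rw [hsum, hsum2]
  field_simp

end FHE
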