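import Pool.Agent.FHE.LIB

/-! LIC (~120 lines): the compact space `ℤ → EE Y` of all coordinates, its shift and the sequence of
points `wn`. `wn_shift`, `wn_x, wn_R, wn_pi`: definitions. -/

open MeasureTheory Filter Topology
open scoped ComplexConjugate

namespace FHE

/-- the state space of one coordinate -/
abbrev EE (Y : Type) := Metric.sphere (0 : ℂ) 1 × ((q : ℕ) → ZMod (q + 1)) × (ℕ → Y)

section

variable (Y : Type) [MetricSpace Y] [CompactSpace Y] [MeasurableSpace Y] [BorelSpace Y]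

instance EE.borel : BorelSpace (EE Y) := inferInstance

instance EE.second : SecondCountableTopology (EE Y) := inferInstance

instance EE.comp : CompactSpace (EE Y) := inferInstance

instance EE.haus : T2Space (EE Y) := inferInstance

end

/-- the space of all coordinates -/
abbrev WW (Y : Type) := ℤ → EE Y

/-- the shift -/
def shW (Y : Type) : Equiv.Perm (WW Y) where
  toFun w j := w (j + 1)
  invFun w j := w (j - 1)
  left_inv w := by funext j; simp
  right_inv w := by funext j; simp

/-- the coordinate `x` -/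
def xW {Y : Type} (w : WW Y) : ℂ := (w 0).1

/-- the residues -/
def RW {Y : Type} : (p : ℕ) → WW Y → ZMod p
  | 0, _ => 0
  | q + 1, w => (w 0).2.1 q

/-- the points of the base -/
def piW {Y : Type} (p : ℕ) (w : WW Y) : Y := (w 0).2.2 p

/-- the point attached to `n` -/
def wn {Y : Type} (S : Y → Y) (G : ℕ → Metric.sphere (0 : ℂ) 1) (y : Y) (n : ℤ) : WW Y :=
  fun j => (G (n + j).toNat, fun q => ((n + j : ℤ) : ZMod (q + 1)),
    fun p => S^[p * (n + j).toNat] y)

theorem wn_shift {Y : Type} (S : Y → Y) (G : ℕ → Metric.sphere (0 : ℂ) 1) (y : Y) (n : ℤ) :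
    shW Y (wn S G y n) = wn S G y (n + 1) := by
  funext j
  have e : n + (j + 1) = n + 1 + j := by ring
  show wn S G y n (j + 1) = wn S G y (n + 1) j
  unfold wn
  simp only [e]

theorem wn_R {Y : Type} (S : Y → Y) (G : ℕ → Metric.sphere (0 : ℂ) 1) (y : Y) {p : ℕ}
    (hp : p ≠ 0) (n : ℕ) : RW p (wn S G y n) = (n : ZMod p) := by
  cases p with
  | zero => exact absurd rfl hp
  | succ q =>
    show (((n : ℤ) + 0 : ℤ) : ZMod (q + 1)) = (n : ZMod (q + 1))
    simp

variable {Y : Type} [MetricSpace Y] [CompactSpace Y] [MeasurableSpace Y] [BorelSpace Y]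

theorem shW_cont : Continuous (shW Y) := by
  exact continuous_pi fun j => continuous_apply (j + 1)

theorem shW_symm_cont : Continuous (shW Y).symm := by
  exact continuous_pi fun j => continuous_apply (j - 1)

theorem xW_cont : Continuous (xW : WW Y → ℂ) := by
  exact continuous_subtype_val.comp (continuous_fst.comp (continuous_apply 0))

theorem RW_cont (p : ℕ) : Continuous (RW p : WW Y → ZMod p) := by
  cases p with
  | zero => exact continuous_const
  | succ q =>
    exact (continuous_apply q).comp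
      (continuous_fst.comp (continuous_snd.comp (continuous_apply 0)))

theorem piW_cont (p : ℕ) : Continuous (piW p : WW Y → Y) := by
  exact (continuous_apply p).comp
    (continuous_snd.comp (continuous_snd.comp (continuous_apply 0)))

/-- the relations which hold almost surely -/
def ZW (S : Y → Y) : Set (WW Y) :=
  {w | ∀ j : ℤ, (∀ q, (w (j + 1)).2.1 q = (w j).2.1 q + 1) ∧
    ∀ p, (w (j + 1)).2.2 p = S^[p] ((w j).2.2 p)}

/-- what is needed of the limit measure -/
structure Pre (S : Y → Y) (μ : Measure Y) (g : ℕ → ℂ) (ρ : Measure (WW Y)) : Prop where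
  prob : IsProbabilityMeasure ρ
  mp : MeasurePreserving (shW Y) ρ ρ
  supp : ∀ᵐ w ∂ρ, w ∈ ZW S
  law : ∀ p, 1 ≤ p → MeasurePreserving (piW p) ρ μ
  dilK : ∀ p : ℕ, p.Prime → ∀ φ : Y → ℂ, Bd φ →
    ‖(∫ w, (if RW p w = 0 then (p : ℂ) else 0) * (xW w * φ (piW 1 w)) ∂ρ) -
      g p * ∫ w, xW w * φ (piW p w) ∂ρ‖ ≤ 2 / p
  dilT : ∀ a : ℤ →₀ ℤ, ∃ C : ℝ, ∀ p : ℕ, p.Prime →
    ‖(∫ w, a.prod (fun j k => xW (((shW Y) ^ j) w) ^ k) ∂ρ) -
      conj (g p) ^ (a.sum fun _ k => k) *
        ∫ w, (if RW p w = 0 then (p : ℂ) else 0) *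
          a.prod (fun j k => xW (((shW Y) ^ ((p : ℤ) * j)) w) ^ k) ∂ρ‖ ≤ C / p

/-- the limit property along the ultrafilter `U` -/
def LP (S : Y → Y) (G : ℕ → Metric.sphere (0 : ℂ) 1) (y : Y) (U : Ultrafilter ℕ)
    (ρ : Measure (WW Y)) : Prop :=
  ∀ Φ : C(WW Y, ℂ), Tendsto (LA fun n => Φ (wn S G y n)) U (𝓝 (∫ w, Φ w ∂ρ))

end FHE
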