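import Pool.Agent.FHE.LIC

/-! LID (~150 lines): invariance and support of the limit measure, laws of the `piW p`.
`lid_mp`: for continuous `Φ`, `∫ Φ ∘ shW = lim LA (Φ (wn (n+1))) = lim LA (Φ (wn n)) = ∫ Φ` (`la_shift`,
`wn_shift`); two finite Borel measures with the same integrals of continuous functions agree
(`ext_of_forall_integral_eq_of_IsFiniteMeasure`). `lid_supp`: for each `j, p` the continuous function
`min 1 (dist ((w (j+1)).2.2 p) (S^[p] ((w j).2.2 p)))` vanishes at `wn n` for `n ≥ -j` (`la_finite`), so its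
integral is `0`; the residues: a continuous indicator (discrete), vanishing at all `wn n`.
`lid_law`: the image of `ρ` under `piW p` is an `S^[p]`-invariant probability measure (by `lid_mp` and
`lid_supp`), so it is `μ`. -/

open MeasureTheory Filter Topology
open scoped ComplexConjugate

namespace FHE

variable {Y : Type} [MetricSpace Y] [CompactSpace Y] [MeasurableSpace Y] [BorelSpace Y]
  {S : Y → Y} {μ : Measure Y}

theorem lid_mp {G : ℕ → Metric.sphere (0 : ℂ) 1} {y : Y} {U : Ultrafilter ℕ}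
    (hU : (U : Filter ℕ) ≤ atTop) {ρ : Measure (WW Y)} [IsProbabilityMeasure ρ]
    (h : LP S G y U ρ) : MeasurePreserving (shW Y) ρ ρ := by
  have hm : Measurable (shW Y) := (shW_cont (Y := Y)).measurable
  refine ⟨hm, ?_⟩
  haveI : IsProbabilityMeasure (Measure.map (shW Y) ρ) :=
    Measure.isProbabilityMeasure_map hm.aemeasurable
  refine ext_of_forall_integral_eq_of_IsFiniteMeasure fun f => ?_
  rw [integral_map hm.aemeasurable f.continuous.aestronglyMeasurable]
  set Φ : C(WW Y, ℂ) := ⟨fun w => (f w : ℂ), Complex.continuous_ofReal.comp f.continuous⟩ with hΦ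
  set Ψ : C(WW Y, ℂ) := ⟨fun w => (f (shW Y w) : ℂ),
    Complex.continuous_ofReal.comp (f.continuous.comp shW_cont)⟩ with hΨ
  have h1 := h Φ
  have h2 := h Ψ
  obtain ⟨C, hC⟩ := isCompact_univ.exists_bound_of_continuousOn (f := Φ) Φ.continuous.continuousOn
  have h3 : Tendsto (LA fun n => Φ (wn S G y ((n + 1 : ℕ) : ℤ)) - Φ (wn S G y n)) U (𝓝 0) :=
    (la_shift (F := fun n => Φ (wn S G y n)) (fun n => hC _ (Set.mem_univ _))).mono_left hU
  have h4 : (LA fun n => Ψ (wn S G y n)) = fun N =>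
      LA (fun n => Φ (wn S G y ((n + 1 : ℕ) : ℤ)) - Φ (wn S G y n)) N +
        LA (fun n => Φ (wn S G y n)) N := by
    funext N
    rw [← la_add]
    congr 1
    funext n
    have : Ψ (wn S G y n) = Φ (wn S G y ((n + 1 : ℕ) : ℤ)) := by
      show (f (shW Y (wn S G y n)) : ℂ) = (f (wn S G y ((n + 1 : ℕ) : ℤ)) : ℂ)
      rw [wn_shift]
      push_cast
      rfl
    rw [this]
    ring
  have h5 := h3.add h1
  rw [zero_add, ← h4] at h5
  have h6 := tendsto_nhds_unique h2 h5
  have h7 : ((∫ w, f (shW Y w) ∂ρ : ℝ) : ℂ) = ((∫ w, f w ∂ρ : ℝ) : ℂ) := by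
    rw [← integral_complex_ofReal, ← integral_complex_ofReal]
    exact h6
  exact_mod_cast h7

private theorem lid_zero {G : ℕ → Metric.sphere (0 : ℂ) 1} {y : Y} {U : Ultrafilter ℕ}
    (hU : (U : Filter ℕ) ≤ atTop) {ρ : Measure (WW Y)} [IsProbabilityMeasure ρ]
    (h : LP S G y U ρ) (φ : C(WW Y, ℝ)) (h0 : ∀ w, 0 ≤ φ w) (n₀ : ℕ)
    (hz : ∀ n : ℕ, n₀ ≤ n → φ (wn S G y n) = 0) : ∀ᵐ w ∂ρ, φ w = 0 := by
  set Φ : C(WW Y, ℂ) := ⟨fun w => (φ w : ℂ), Complex.continuous_ofReal.comp φ.continuous⟩ with hΦ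
  have h1 := h Φ
  have h2 : Tendsto (LA fun n => Φ (wn S G y n)) U (𝓝 0) := by
    refine (la_finite (n₀ := n₀) fun n hn => ?_).mono_left hU
    show (φ (wn S G y n) : ℂ) = 0
    rw [hz n hn]
    simp
  have h3 := tendsto_nhds_unique h1 h2
  have h4 : ∫ w, φ w ∂ρ = 0 := by
    have : ((∫ w, φ w ∂ρ : ℝ) : ℂ) = 0 := by
      rw [← integral_complex_ofReal]
      exact h3
    exact_mod_cast this
  obtain ⟨C, hC⟩ := isCompact_univ.exists_bound_of_continuousOn (f := φ) φ.continuous.continuousOn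
  have hi : Integrable (fun w => φ w) ρ :=
    Integrable.of_bound φ.continuous.aestronglyMeasurable C
      (Eventually.of_forall fun w => hC w (Set.mem_univ _))
  exact (integral_eq_zero_iff_of_nonneg (fun w => h0 w) hi).1 h4

theorem lid_supp (hS : Continuous S) {G : ℕ → Metric.sphere (0 : ℂ) 1} {y : Y}
    {U : Ultrafilter ℕ} (hU : (U : Filter ℕ) ≤ atTop) {ρ : Measure (WW Y)}
    [IsProbabilityMeasure ρ] (h : LP S G y U ρ) : ∀ᵐ w ∂ρ, w ∈ ZW S := by
  have hA : ∀ j : ℤ, ∀ q : ℕ, ∀ᵐ w ∂ρ, (w (j + 1)).2.1 q = (w j).2.1 q + 1 := by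
    intro j q
    have hc : Continuous (fun w : WW Y => ((w (j + 1)).2.1 q, (w j).2.1 q)) := by fun_prop
    set ψ : ZMod (q + 1) × ZMod (q + 1) → ℝ := fun z => if z.1 = z.2 + 1 then 0 else 1 with hψ
    have hψc : Continuous ψ := continuous_of_discreteTopology
    have := lid_zero hU h ⟨fun w => ψ ((w (j + 1)).2.1 q, (w j).2.1 q), hψc.comp hc⟩
      (fun w => by
        show 0 ≤ ψ _
        simp only [hψ]
        split_ifs <;> norm_num) 0 (fun n _ => by
        show ψ (((wn S G y n) (j + 1)).2.1 q, ((wn S G y n) j).2.1 q) = 0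
        simp only [hψ, wn]
        rw [if_pos]
        push_cast
        ring)
    filter_upwards [this] with w hw
    by_contra hne
    have : ψ ((w (j + 1)).2.1 q, (w j).2.1 q) = 1 := by
      simp only [hψ]
      rw [if_neg hne]
    rw [show (ContinuousMap.mk (fun w => ψ ((w (j + 1)).2.1 q, (w j).2.1 q))
      (hψc.comp hc) : C(WW Y, ℝ)) w = ψ ((w (j + 1)).2.1 q, (w j).2.1 q) from rfl, this] at hw
    exact one_ne_zero hw
  have hB : ∀ j : ℤ, ∀ p : ℕ, ∀ᵐ w ∂ρ, (w (j + 1)).2.2 p = S^[p] ((w j).2.2 p) := by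
    intro j p
    have hSp : Continuous (S^[p]) := hS.iterate p
    have hc : Continuous (fun w : WW Y => dist ((w (j + 1)).2.2 p) (S^[p] ((w j).2.2 p))) := by
      have h1 : Continuous (fun w : WW Y => (w (j + 1)).2.2 p) := by fun_prop
      have h2 : Continuous (fun w : WW Y => (w j).2.2 p) := by fun_prop
      exact h1.dist (hSp.comp h2)
    have := lid_zero hU h ⟨fun w => dist ((w (j + 1)).2.2 p) (S^[p] ((w j).2.2 p)), hc⟩
      (fun w => dist_nonneg) (-j).toNat (fun n hn => by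
        show dist (((wn S G y n) (j + 1)).2.2 p) (S^[p] (((wn S G y n) j).2.2 p)) = 0
        rw [dist_eq_zero]
        simp only [wn]
        have e : ((n : ℤ) + (j + 1)).toNat = ((n : ℤ) + j).toNat + 1 := by omega
        rw [e, ← Function.iterate_add_apply]
        congr 2
        ring)
    filter_upwards [this] with w hw
    exact dist_eq_zero.1 hw
  have hA' : ∀ᵐ w ∂ρ, ∀ j : ℤ, ∀ q : ℕ, (w (j + 1)).2.1 q = (w j).2.1 q + 1 :=
    ae_all_iff.2 fun j => ae_all_iff.2 fun q => hA j q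
  have hB' : ∀ᵐ w ∂ρ, ∀ j : ℤ, ∀ p : ℕ, (w (j + 1)).2.2 p = S^[p] ((w j).2.2 p) :=
    ae_all_iff.2 fun j => ae_all_iff.2 fun p => hB j p
  filter_upwards [hA', hB'] with w h1 h2 j
  exact ⟨h1 j, h2 j⟩

theorem lid_law (hS : Continuous S) (hue : ∀ k : ℕ, 1 ≤ k → ∀ ν : Measure Y,
      IsProbabilityMeasure ν → MeasurePreserving (S^[k]) ν ν → ν = μ)
    {ρ : Measure (WW Y)} [IsProbabilityMeasure ρ] (hmp : MeasurePreserving (shW Y) ρ ρ)
    (hsupp : ∀ᵐ w ∂ρ, w ∈ ZW S) {p : ℕ} (hp : 1 ≤ p) : MeasurePreserving (piW p) ρ μ := by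
  have hpm : Measurable (piW p : WW Y → Y) := (piW_cont p).measurable
  have hSm : Measurable (S^[p]) := (hS.iterate p).measurable
  refine ⟨hpm, hue p hp _ (Measure.isProbabilityMeasure_map hpm.aemeasurable) ⟨hSm, ?_⟩⟩
  rw [Measure.map_map hSm hpm]
  have h1 : (S^[p] ∘ piW p) =ᵐ[ρ] (piW p ∘ shW Y) := by
    filter_upwards [hsupp] with w hw
    have := (hw 0).2 p
    exact this.symm
  rw [Measure.map_congr h1, ← Measure.map_map hpm hmp.measurable, hmp.map_eq]

end FHE
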