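import Pool.Agent.FHE.LID

/-! LIF (~170 lines): the dilation identity for correlations. For continuous `φ`, `‖φ‖ ≤ 1`: by `LP` and
`wn_R`, the first integral is `lim LA (p 1_{p ∣ n} g n φ (S^n y)) = lim LA (g (p n) φ (S^(p n) y))`
(`la_dil`) and the second `lim LA (g n φ (S^(p n) y))`; `g (p n) = g p g n` unless `p ∣ n`, which costs at most
`2 lim LA 1_{p ∣ n} = 2/p` (`la_norm_le`, `la_dvd`). For `φ` measurable bounded by one: approximate in
`L¹(μ)` by continuous functions bounded by one; the laws of `piW 1`, `piW p` are `μ` and the weight is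
bounded by `p`. (`G n = g n` for `n ≥ 1`.) -/

open MeasureTheory Filter Topology
open scoped ComplexConjugate

namespace FHE

variable {Y : Type} [MetricSpace Y] [CompactSpace Y] [MeasurableSpace Y] [BorelSpace Y]
  {S : Y → Y} {μ : Measure Y}

omit [MetricSpace Y] [CompactSpace Y] [MeasurableSpace Y] [BorelSpace Y] in
private theorem norm_xW (w : WW Y) : ‖xW w‖ = 1 := by
  simp [xW]

theorem lif_cont {g : ℕ → ℂ} (hg1 : ∀ n, 1 ≤ n → ‖g n‖ = 1)
    (hgm : ∀ m n : ℕ, Nat.Coprime m n → g (m * n) = g m * g n)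
    {G : ℕ → Metric.sphere (0 : ℂ) 1} (hG : ∀ n, 1 ≤ n → ((G n : Metric.sphere (0 : ℂ) 1) : ℂ) = g n)
    {y : Y} {U : Ultrafilter ℕ} (hU : (U : Filter ℕ) ≤ atTop) {ρ : Measure (WW Y)}
    [IsProbabilityMeasure ρ] (h : LP S G y U ρ) {p : ℕ} (hp : p.Prime) (φ : C(Y, ℂ))
    (hφ : ∀ v, ‖φ v‖ ≤ 1) :
    ‖(∫ w, (if RW p w = 0 then (p : ℂ) else 0) * (xW w * φ (piW 1 w)) ∂ρ) -
      g p * ∫ w, xW w * φ (piW p w) ∂ρ‖ ≤ 2 / p := by
  have hc1 : Continuous fun w : WW Y =>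
      (if RW p w = 0 then (p : ℂ) else 0) * (xW w * φ (piW 1 w)) := by
    apply Continuous.mul
    · exact (continuous_of_discreteTopology (f := fun r : ZMod p => if r = 0 then (p : ℂ) else 0)).comp
        (RW_cont p)
    · exact xW_cont.mul (φ.continuous.comp (piW_cont 1))
  have hc2 : Continuous fun w : WW Y => xW w * φ (piW p w) :=
    xW_cont.mul (φ.continuous.comp (piW_cont p))
  have h1 := h ⟨_, hc1⟩
  have h2 := h ⟨_, hc2⟩
  simp only [ContinuousMap.coe_mk] at h1 h2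
  have hx : ∀ n : ℕ, xW (wn S G y n) = (G n : ℂ) := by
    intro n
    simp [xW, wn]
  have hpi : ∀ (q n : ℕ), piW q (wn S G y n) = S^[q * n] y := by
    intro q n
    simp [piW, wn]
  have hR : ∀ n : ℕ, (RW p (wn S G y n) = 0) ↔ p ∣ n := by
    intro n
    rw [wn_R S G y hp.ne_zero n, ZMod.natCast_eq_zero_iff]
  set F : ℕ → ℂ := fun n => (G n : ℂ) * φ (S^[n] y) with hF
  have hGn : ∀ n, ‖(G n : ℂ)‖ = 1 := fun n => by simp
  have hFb : ∀ n, ‖F n‖ ≤ 1 := by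
    intro n
    rw [hF]
    simp only [norm_mul, hGn, one_mul]
    exact hφ _
  have h3 : Tendsto (LA fun n => F (p * n)) U
      (𝓝 (∫ w, (if RW p w = 0 then (p : ℂ) else 0) * (xW w * φ (piW 1 w)) ∂ρ)) := by
    have h4 := (la_dil hFb hp.one_lt.le).mono_left hU
    have h5 := h1.sub h4
    rw [sub_zero] at h5
    refine h5.congr fun N => ?_
    have h6 : (fun n : ℕ => (if RW p (wn S G y n) = 0 then (p : ℂ) else 0) *
        (xW (wn S G y n) * φ (piW 1 (wn S G y n)))) =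
        fun n => ((if p ∣ n then (p : ℂ) * F n else 0) - F (p * n)) + F (p * n) := by
      funext n
      rw [hx, hpi, one_mul, sub_add_cancel]
      by_cases hd : p ∣ n
      · rw [if_pos ((hR n).mpr hd), if_pos hd]
      · rw [if_neg (fun h => hd ((hR n).mp h)), if_neg hd, zero_mul]
    rw [h6, la_add, add_sub_cancel_left]
  have h7 : Tendsto (LA fun n => F (p * n) + (-g p) * ((G n : ℂ) * φ (S^[p * n] y))) U
      (𝓝 ((∫ w, (if RW p w = 0 then (p : ℂ) else 0) * (xW w * φ (piW 1 w)) ∂ρ) -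
      g p * ∫ w, xW w * φ (piW p w) ∂ρ)) := by
    have h8 := h3.add (h2.const_mul (-g p))
    have e1 : (∫ w, (if RW p w = 0 then (p : ℂ) else 0) * (xW w * φ (piW 1 w)) ∂ρ) -
        g p * ∫ w, xW w * φ (piW p w) ∂ρ =
        (∫ w, (if RW p w = 0 then (p : ℂ) else 0) * (xW w * φ (piW 1 w)) ∂ρ) +
        (-g p) * ∫ w, xW w * φ (piW p w) ∂ρ := by ring
    rw [e1]
    refine h8.congr fun N => ?_
    rw [la_add, la_smul]
    simp only [hx, hpi]
  have h9 : Tendsto (fun N => ‖LA (fun n : ℕ => (((2 * (if (p : ℤ) ∣ (n : ℤ) + 0 then 1 else 0) : ℝ)) : ℂ)) N‖)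
      U (𝓝 (2 / p)) := by
    have h10 := ((la_dvd hp.one_lt.le 0).mono_left hU).const_mul (2 : ℂ)
    have h11 := h10.norm
    have e2 : ‖(2 : ℂ) * (p : ℂ)⁻¹‖ = 2 / p := by
      rw [norm_mul, norm_inv, Complex.norm_natCast]
      simp [div_eq_mul_inv]
    rw [e2] at h11
    refine h11.congr fun N => ?_
    rw [← la_smul]
    congr 2
    funext n
    split_ifs <;> simp
  refine le_of_tendsto_of_tendsto h7.norm h9 (Eventually.of_forall fun N => ?_)
  apply la_norm_le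
  intro n hn
  have e3 : F (p * n) + (-g p) * ((G n : ℂ) * φ (S^[p * n] y)) =
      ((G (p * n) : ℂ) - g p * (G n : ℂ)) * φ (S^[p * n] y) := by
    rw [hF]; ring
  rw [e3, norm_mul]
  have hpn : 1 ≤ p * n := Nat.mul_pos hp.pos hn
  by_cases hd : p ∣ n
  · rw [if_pos (by simpa using Int.natCast_dvd_natCast.mpr hd)]
    have e4 : ‖(G (p * n) : ℂ) - g p * (G n : ℂ)‖ ≤ 2 := by
      calc ‖(G (p * n) : ℂ) - g p * (G n : ℂ)‖ ≤ ‖(G (p * n) : ℂ)‖ + ‖g p * (G n : ℂ)‖ :=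
            norm_sub_le _ _
        _ = 2 := by rw [norm_mul, hGn, hGn, hg1 p hp.one_lt.le]; norm_num
    calc _ ≤ 2 * 1 := mul_le_mul e4 (hφ _) (norm_nonneg _) (by norm_num)
      _ = _ := by norm_num
  · have e5 : (G (p * n) : ℂ) - g p * (G n : ℂ) = 0 := by
      rw [hG _ hpn, hG n hn, hgm p n ((Nat.Prime.coprime_iff_not_dvd hp).mpr hd), sub_self]
    rw [e5, norm_zero, zero_mul]
    positivity

private noncomputable def rt (z : ℂ) : ℂ := ((max 1 ‖z‖ : ℝ) : ℂ)⁻¹ * z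

private theorem rt_cont : Continuous rt := by
  unfold rt
  apply Continuous.mul _ continuous_id
  apply Continuous.inv₀ (by fun_prop)
  intro z
  have : (0 : ℝ) < max 1 ‖z‖ := lt_of_lt_of_le one_pos (le_max_left _ _)
  exact_mod_cast this.ne'

private theorem rt_le (z : ℂ) : ‖rt z‖ ≤ 1 := by
  have h0 : (0 : ℝ) < max 1 ‖z‖ := lt_of_lt_of_le one_pos (le_max_left _ _)
  rw [rt, norm_mul, norm_inv, Complex.norm_real, Real.norm_of_nonneg h0.le, inv_mul_le_iff₀ h0,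
    mul_one]
  exact le_max_right _ _

private theorem rt_dist (z w : ℂ) (hz : ‖z‖ ≤ 1) : ‖z - rt w‖ ≤ 2 * ‖z - w‖ := by
  by_cases hw : ‖w‖ ≤ 1
  · have : rt w = w := by
      rw [rt, max_eq_left hw]
      simp
    rw [this]
    linarith [norm_nonneg (z - w)]
  · push Not at hw
    have h1 : ‖w - rt w‖ = ‖w‖ - 1 := by
      have hw0 : ((‖w‖ : ℝ) : ℂ) ≠ 0 := by
        have : ‖w‖ ≠ 0 := by linarith
        exact_mod_cast this
      have e1 : w - rt w = ((1 - ‖w‖⁻¹ : ℝ) : ℂ) * w := by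
        rw [rt, max_eq_right hw.le]
        push_cast
        ring
      rw [e1, norm_mul, Complex.norm_real, Real.norm_of_nonneg]
      · have : ‖w‖ ≠ 0 := by linarith
        field_simp
      · have := inv_le_one_of_one_le₀ hw.le
        linarith
    have h2 : ‖w‖ - 1 ≤ ‖z - w‖ := by
      have := norm_sub_norm_le w z
      rw [norm_sub_rev] at this
      linarith
    calc ‖z - rt w‖ ≤ ‖z - w‖ + ‖w - rt w‖ := norm_sub_le_norm_sub_add_norm_sub _ _ _
      _ ≤ 2 * ‖z - w‖ := by rw [h1]; linarith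

theorem lif {g : ℕ → ℂ} [IsProbabilityMeasure μ] (hg1 : ∀ n, 1 ≤ n → ‖g n‖ = 1)
    (hgm : ∀ m n : ℕ, Nat.Coprime m n → g (m * n) = g m * g n)
    {G : ℕ → Metric.sphere (0 : ℂ) 1} (hG : ∀ n, 1 ≤ n → ((G n : Metric.sphere (0 : ℂ) 1) : ℂ) = g n)
    {y : Y} {U : Ultrafilter ℕ} (hU : (U : Filter ℕ) ≤ atTop) {ρ : Measure (WW Y)}
    [IsProbabilityMeasure ρ] (h : LP S G y U ρ)
    (hlaw : ∀ p, 1 ≤ p → MeasurePreserving (piW p) ρ μ) {p : ℕ} (hp : p.Prime) {φ : Y → ℂ}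
    (hφ : Bd φ) :
    ‖(∫ w, (if RW p w = 0 then (p : ℂ) else 0) * (xW w * φ (piW 1 w)) ∂ρ) -
      g p * ∫ w, xW w * φ (piW p w) ∂ρ‖ ≤ 2 / p := by
  have hxm : Measurable (xW : WW Y → ℂ) := xW_cont.measurable
  have hRm : Measurable (RW p : WW Y → ZMod p) := (RW_cont p).measurable
  have : NeZero p := ⟨hp.ne_zero⟩
  have hwm : Measurable fun w : WW Y => if RW p w = 0 then (p : ℂ) else 0 :=
    (measurable_of_countable (fun r : ZMod p => if r = 0 then (p : ℂ) else 0)).comp hRm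
  have hwb : ∀ w : WW Y, ‖(if RW p w = 0 then (p : ℂ) else 0)‖ ≤ p := by
    intro w
    split_ifs
    · simp
    · simp
  have hint1 : ∀ ψ : Y → ℂ, Bd ψ → Integrable (fun w : WW Y =>
      (if RW p w = 0 then (p : ℂ) else 0) * (xW w * ψ (piW 1 w))) ρ := by
    intro ψ hψ
    refine Integrable.of_bound (C := p) (hwm.mul (hxm.mul
      (hψ.meas.comp (hlaw 1 le_rfl).measurable))).aestronglyMeasurable (Eventually.of_forall ?_)
    intro w
    rw [norm_mul, norm_mul, norm_xW, one_mul]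
    calc _ ≤ (p : ℝ) * 1 := mul_le_mul (hwb w) (hψ.le _) (norm_nonneg _) (Nat.cast_nonneg _)
      _ = p := mul_one _
  have hint2 : ∀ ψ : Y → ℂ, Bd ψ → Integrable (fun w : WW Y => xW w * ψ (piW p w)) ρ := by
    intro ψ hψ
    refine Integrable.of_bound (C := 1) (hxm.mul
      (hψ.meas.comp (hlaw p hp.one_lt.le).measurable)).aestronglyMeasurable (Eventually.of_forall ?_)
    intro w
    rw [norm_mul, norm_xW, one_mul]
    exact hψ.le _
  apply le_of_forall_pos_le_add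
  intro ε hε
  have hp0 : (0 : ℝ) ≤ p := Nat.cast_nonneg _
  set δ : ℝ := ε / (2 * (p + 1)) with hδ
  have hδ0 : 0 < δ := by positivity
  have hφi : MemLp φ 1 μ := by
    rw [memLp_one_iff_integrable]
    exact Integrable.of_bound (C := 1) hφ.meas.aestronglyMeasurable (Eventually.of_forall hφ.le)
  obtain ⟨f, hf, hfm⟩ := hφi.exists_boundedContinuous_eLpNorm_sub_le ENNReal.one_ne_top
    (ε := ENNReal.ofReal δ) (by simpa using hδ0)
  have hfi : Integrable (fun v => φ v - f v) μ :=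
    (memLp_one_iff_integrable.mp hφi).sub (memLp_one_iff_integrable.mp hfm)
  have hfδ : ∫ v, ‖φ v - f v‖ ∂μ ≤ δ := by
    have h1 : ENNReal.ofReal (∫ v, ‖φ v - f v‖ ∂μ) ≤ ENNReal.ofReal δ := by
      rw [ofReal_integral_norm_eq_lintegral_enorm hfi]
      rw [eLpNorm_one_eq_lintegral_enorm] at hf
      exact hf
    exact (ENNReal.ofReal_le_ofReal_iff hδ0.le).mp h1
  let ψ : C(Y, ℂ) := ⟨fun v => rt (f v), rt_cont.comp f.continuous⟩
  have hψb : ∀ v, ‖ψ v‖ ≤ 1 := fun v => rt_le _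
  have hψBd : Bd (ψ : Y → ℂ) := ⟨ψ.continuous.measurable, hψb⟩
  have hdist : ∀ v, ‖φ v - ψ v‖ ≤ 2 * ‖φ v - f v‖ := fun v => rt_dist _ _ (hφ.le v)
  have hdi : Integrable (fun v => ‖φ v - ψ v‖) μ := by
    refine (((memLp_one_iff_integrable.mp hφi).sub ?_)).norm
    exact Integrable.of_bound (C := 1) hψBd.meas.aestronglyMeasurable (Eventually.of_forall hψb)
  have hD : ∫ v, ‖φ v - ψ v‖ ∂μ ≤ 2 * δ := by
    calc ∫ v, ‖φ v - ψ v‖ ∂μ ≤ ∫ v, 2 * ‖φ v - f v‖ ∂μ :=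
          integral_mono hdi (hfi.norm.const_mul 2) hdist
      _ = 2 * ∫ v, ‖φ v - f v‖ ∂μ := integral_const_mul _ _
      _ ≤ 2 * δ := by linarith
  have hmap : ∀ q, 1 ≤ q → ∫ w, ‖φ (piW q w) - ψ (piW q w)‖ ∂ρ = ∫ v, ‖φ v - ψ v‖ ∂μ := by
    intro q hq
    rw [← (hlaw q hq).map_eq]
    rw [integral_map (hlaw q hq).measurable.aemeasurable]
    rw [(hlaw q hq).map_eq]
    exact hdi.aestronglyMeasurable
  have hdiq : ∀ q, 1 ≤ q → Integrable (fun w => ‖φ (piW q w) - ψ (piW q w)‖) ρ := by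
    intro q hq
    exact (hlaw q hq).integrable_comp_of_integrable hdi
  have h1 : ‖(∫ w, (if RW p w = 0 then (p : ℂ) else 0) * (xW w * φ (piW 1 w)) ∂ρ) -
      ∫ w, (if RW p w = 0 then (p : ℂ) else 0) * (xW w * ψ (piW 1 w)) ∂ρ‖ ≤ p * (2 * δ) := by
    rw [← integral_sub (hint1 φ hφ) (hint1 ψ hψBd)]
    calc _ ≤ ∫ w, (p : ℝ) * ‖φ (piW 1 w) - ψ (piW 1 w)‖ ∂ρ := by
          refine norm_integral_le_of_norm_le ((hdiq 1 le_rfl).const_mul _)
            (Eventually.of_forall fun w => ?_)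
          rw [← mul_sub, ← mul_sub, norm_mul, norm_mul, norm_xW, one_mul]
          exact mul_le_mul_of_nonneg_right (hwb w) (norm_nonneg _)
      _ = p * ∫ v, ‖φ v - ψ v‖ ∂μ := by rw [integral_const_mul, hmap 1 le_rfl]
      _ ≤ _ := mul_le_mul_of_nonneg_left hD hp0
  have h2 : ‖(∫ w, xW w * φ (piW p w) ∂ρ) - ∫ w, xW w * ψ (piW p w) ∂ρ‖ ≤ 2 * δ := by
    rw [← integral_sub (hint2 φ hφ) (hint2 ψ hψBd)]
    calc _ ≤ ∫ w, ‖φ (piW p w) - ψ (piW p w)‖ ∂ρ := by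
          refine norm_integral_le_of_norm_le (hdiq p hp.one_lt.le)
            (Eventually.of_forall fun w => ?_)
          rw [← mul_sub, norm_mul, norm_xW, one_mul]
      _ = ∫ v, ‖φ v - ψ v‖ ∂μ := hmap p hp.one_lt.le
      _ ≤ _ := hD
  have h3 := lif_cont hg1 hgm hG hU h hp ψ hψb
  set A := ∫ w, (if RW p w = 0 then (p : ℂ) else 0) * (xW w * φ (piW 1 w)) ∂ρ
  set A' := ∫ w, (if RW p w = 0 then (p : ℂ) else 0) * (xW w * ψ (piW 1 w)) ∂ρ
  set B := ∫ w, xW w * φ (piW p w) ∂ρ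
  set B' := ∫ w, xW w * ψ (piW p w) ∂ρ
  have e1 : A - g p * B = (A' - g p * B') + ((A - A') - g p * (B - B')) := by ring
  rw [e1]
  calc _ ≤ ‖A' - g p * B'‖ + (‖A - A'‖ + ‖g p * (B - B')‖) :=
        (norm_add_le _ _).trans (add_le_add le_rfl (norm_sub_le _ _))
    _ ≤ 2 / p + (p * (2 * δ) + 2 * δ) := by
        rw [norm_mul, hg1 p hp.one_lt.le, one_mul]
        exact add_le_add h3 (add_le_add h1 h2)
    _ = 2 / p + ε := by
        rw [hδ]; field_simp

end FHE
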