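import Pool.Agent.FHE.LIC

/-! LIG (~150 lines): the dilation identity for monomials, `C = 2 card (a.support)`. By `LP` (the
integrands are continuous), `wn_shift`, `wn_R` and `la_dil`:
`∫ (if RW p = 0 then p else 0) * mon^(p) = lim LA (p 1_{p ∣ n} ∏ g(n + p j)^(a j)) =
lim LA (∏ g (p (n + j))^(a j))`, and for `n` large `g (p (n + j)) = g p * g (n + j)` unless `p ∣ n + j`, so the
difference to `g p^(∑ a j) lim LA (∏ g (n + j)^(a j))` is at most `2 ∑_{j ∈ supp a} lim LA 1_{p ∣ n + j} =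
2 card / p` (`la_dvd`, `la_finite` for the first `n`). Multiply by `conj (g p)^(∑ a j)`. -/

open MeasureTheory Filter Topology
open scoped ComplexConjugate

namespace FHE

variable {Y : Type} [MetricSpace Y] [CompactSpace Y] [MeasurableSpace Y] [BorelSpace Y]
  {S : Y → Y}

omit [MetricSpace Y] [CompactSpace Y] [MeasurableSpace Y] [BorelSpace Y] in
private theorem shW_zpow (j : ℤ) : ∀ w : WW Y, ((shW Y) ^ j) w = fun i => w (i + j) := by
  induction j using Int.induction_on with
  | zero => intro w; simp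
  | succ n ih =>
    intro w
    rw [zpow_add_one, Equiv.Perm.mul_apply, ih]
    funext i
    change w (i + n + 1) = _
    rw [add_assoc]
  | pred n ih =>
    intro w
    rw [zpow_sub_one, Equiv.Perm.mul_apply, ih]
    funext i
    change w (i + -n - 1) = _
    rw [add_sub_assoc]

omit [MetricSpace Y] [CompactSpace Y] [MeasurableSpace Y] [BorelSpace Y] in
private theorem xW_zpow (j : ℤ) (w : WW Y) : xW (((shW Y) ^ j) w) = ((w j).1 : ℂ) := by
  rw [shW_zpow, xW, zero_add]

omit [CompactSpace Y] [MeasurableSpace Y] [BorelSpace Y] in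
private theorem mon_cont (q : ℤ) (a : ℤ →₀ ℤ) :
    Continuous fun w : WW Y => a.prod (fun j k => xW (((shW Y) ^ (q * j)) w) ^ k) := by
  simp only [Finsupp.prod, xW_zpow]
  apply continuous_finsetProd
  intro j _
  apply Continuous.zpow₀
  · exact continuous_subtype_val.comp (continuous_fst.comp (continuous_apply (q * j)))
  · intro w
    left
    intro h0
    have h1 : ‖((w (q * j)).1 : ℂ)‖ = 1 := by simp
    rw [h0, norm_zero] at h1
    exact zero_ne_one h1

private theorem la_sum {ι : Type*} (s : Finset ι) (f : ι → ℕ → ℂ) (L : ι → ℂ)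
    (h : ∀ j ∈ s, Tendsto (LA (f j)) atTop (𝓝 (L j))) :
    Tendsto (LA fun n => ∑ j ∈ s, f j n) atTop (𝓝 (∑ j ∈ s, L j)) := by
  classical
  induction s using Finset.induction_on with
  | empty =>
    simp only [Finset.sum_empty]
    exact la_finite (n₀ := 0) fun _ _ => rfl
  | insert i s hi ih =>
    rw [Finset.sum_insert hi]
    have h1 := (h i (Finset.mem_insert_self i s)).add
      (ih fun j hj => h j (Finset.mem_insert_of_mem hj))
    refine h1.congr fun N => ?_
    rw [← la_add]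
    congr 1
    funext n
    rw [Finset.sum_insert hi]

private theorem lig_zpow_sum {z : ℂ} (hz : z ≠ 0) {ι : Type*} (s : Finset ι) (f : ι → ℤ) :
    z ^ (∑ j ∈ s, f j) = ∏ j ∈ s, z ^ (f j) := by
  classical
  induction s using Finset.induction_on with
  | empty => simp
  | insert i s hi ih => rw [Finset.sum_insert hi, Finset.prod_insert hi, zpow_add₀ hz, ih]

theorem lig {g : ℕ → ℂ} (hg1 : ∀ n, 1 ≤ n → ‖g n‖ = 1)
    (hgm : ∀ m n : ℕ, Nat.Coprime m n → g (m * n) = g m * g n)
    {G : ℕ → Metric.sphere (0 : ℂ) 1} (hG : ∀ n, 1 ≤ n → ((G n : Metric.sphere (0 : ℂ) 1) : ℂ) = g n)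
    {y : Y} {U : Ultrafilter ℕ} (hU : (U : Filter ℕ) ≤ atTop) {ρ : Measure (WW Y)}
    [IsProbabilityMeasure ρ] (h : LP S G y U ρ) (a : ℤ →₀ ℤ) : ∃ C : ℝ, ∀ p : ℕ, p.Prime →
    ‖(∫ w, a.prod (fun j k => xW (((shW Y) ^ j) w) ^ k) ∂ρ) -
      conj (g p) ^ (a.sum fun _ k => k) *
        ∫ w, (if RW p w = 0 then (p : ℂ) else 0) *
          a.prod (fun j k => xW (((shW Y) ^ ((p : ℤ) * j)) w) ^ k) ∂ρ‖ ≤ C / p := by
  refine ⟨2 * a.support.card, fun p hp => ?_⟩
  have hc1 : Continuous fun w : WW Y => a.prod (fun j k => xW (((shW Y) ^ j) w) ^ k) := by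
    have := mon_cont (Y := Y) 1 a
    simpa only [one_mul] using this
  have hc2 : Continuous fun w : WW Y => (if RW p w = 0 then (p : ℂ) else 0) *
      a.prod (fun j k => xW (((shW Y) ^ ((p : ℤ) * j)) w) ^ k) := by
    apply Continuous.mul _ (mon_cont (p : ℤ) a)
    exact (continuous_of_discreteTopology (f := fun r : ZMod p => if r = 0 then (p : ℂ) else 0)).comp
        (RW_cont p)
  have h1 := h ⟨_, hc1⟩
  have h2 := h ⟨_, hc2⟩
  simp only [ContinuousMap.coe_mk] at h1 h2
  set I1 := ∫ w, a.prod (fun j k => xW (((shW Y) ^ j) w) ^ k) ∂ρ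
  set I2 := ∫ w, (if RW p w = 0 then (p : ℂ) else 0) *
          a.prod (fun j k => xW (((shW Y) ^ ((p : ℤ) * j)) w) ^ k) ∂ρ
  set s : ℤ := a.sum fun _ k => k with hs
  have hGn : ∀ n, ‖(G n : ℂ)‖ = 1 := fun n => by simp
  have hG0 : ∀ n, (G n : ℂ) ≠ 0 := fun n h0 => by
    have := hGn n
    rw [h0, norm_zero] at this
    exact zero_ne_one this
  have hR : ∀ n : ℕ, (RW p (wn S G y n) = 0) ↔ p ∣ n := by
    intro n
    rw [wn_R S G y hp.ne_zero n, ZMod.natCast_eq_zero_iff]
  have hval : ∀ (n : ℕ) (j : ℤ), (((wn S G y n) j).1 : ℂ) = (G ((n : ℤ) + j).toNat : ℂ) :=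
    fun n j => rfl
  set H : ℕ → ℂ := fun n => ∏ j ∈ a.support, (G ((n : ℤ) + j).toNat : ℂ) ^ (a j) with hH
  set F : ℕ → ℂ := fun n => ∏ j ∈ a.support, (G ((n : ℤ) + (p : ℤ) * j).toNat : ℂ) ^ (a j) with hF
  have hFb : ∀ n, ‖F n‖ ≤ 1 := by
    intro n
    rw [hF]
    simp only [norm_prod, norm_zpow, hGn, one_zpow, Finset.prod_const_one, le_refl]
  have hHb : ∀ n, ‖H n‖ ≤ 1 := by
    intro n
    rw [hH]
    simp only [norm_prod, norm_zpow, hGn, one_zpow, Finset.prod_const_one, le_refl]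
  have h1' : Tendsto (LA H) U (𝓝 I1) := by
    refine h1.congr fun N => ?_
    congr 1
    funext n
    simp only [Finsupp.prod, xW_zpow, hval, hH]
  have h3 : Tendsto (LA fun n => F (p * n)) U (𝓝 I2) := by
    have h4 := (la_dil hFb hp.one_lt.le).mono_left hU
    have h5 := h2.sub h4
    rw [sub_zero] at h5
    refine h5.congr fun N => ?_
    have h6 : (fun n : ℕ => (if RW p (wn S G y n) = 0 then (p : ℂ) else 0) *
        a.prod (fun j k => xW (((shW Y) ^ ((p : ℤ) * j)) (wn S G y n)) ^ k)) =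
        fun n => ((if p ∣ n then (p : ℂ) * F n else 0) - F (p * n)) + F (p * n) := by
      funext n
      rw [sub_add_cancel]
      simp only [Finsupp.prod, xW_zpow, hval]
      by_cases hd : p ∣ n
      · rw [if_pos ((hR n).mpr hd), if_pos hd]
      · rw [if_neg (fun h => hd ((hR n).mp h)), if_neg hd, zero_mul]
    rw [h6, la_add, add_sub_cancel_left]
  have h7 : Tendsto (LA fun n => H n + (-conj (g p) ^ s) * F (p * n)) U
      (𝓝 (I1 - conj (g p) ^ s * I2)) := by
    have h8 := h1'.add (h3.const_mul (-conj (g p) ^ s))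
    have e1 : I1 - conj (g p) ^ s * I2 = I1 + (-conj (g p) ^ s) * I2 := by ring
    rw [e1]
    refine h8.congr fun N => ?_
    rw [la_add, la_smul]
  set n₀ : ℕ := 1 + ∑ j ∈ a.support, j.natAbs with hn₀
  set W : ℕ → ℝ := fun n => 2 * (∑ j ∈ a.support, (if (p : ℤ) ∣ (n : ℤ) + j then 1 else 0)) +
    (if n < n₀ then 2 else 0) with hW
  have h9 : Tendsto (fun N => ‖LA (fun n => ((W n : ℝ) : ℂ)) N‖) U
      (𝓝 (2 * a.support.card / p)) := by
    have h10 := la_sum a.support (fun j n => if (p : ℤ) ∣ (n : ℤ) + j then 1 else 0)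
      (fun _ => (p : ℂ)⁻¹) (fun j _ => la_dvd hp.one_lt.le j)
    have h11 : Tendsto (LA fun n : ℕ => if n < n₀ then (2 : ℂ) else 0) atTop (𝓝 0) :=
      la_finite (n₀ := n₀) fun n hn => if_neg (not_lt.mpr hn)
    have h12 := (((h10.const_mul (2 : ℂ)).add h11).mono_left hU).norm
    have e2 : ‖(2 : ℂ) * (∑ _j ∈ a.support, (p : ℂ)⁻¹) + 0‖ = 2 * a.support.card / p := by
      rw [Finset.sum_const, nsmul_eq_mul, add_zero, norm_mul, norm_mul, norm_inv,
        Complex.norm_natCast, Complex.norm_natCast]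
      simp [div_eq_mul_inv, mul_assoc]
    rw [e2] at h12
    refine h12.congr fun N => ?_
    rw [← la_smul, ← la_add]
    congr 2
    funext n
    rw [hW]
    push_cast
    congr 1
    · congr 1
      refine Finset.sum_congr rfl fun j _ => ?_
      split_ifs <;> simp
    · split_ifs <;> simp
  refine le_of_tendsto_of_tendsto h7.norm h9 (Eventually.of_forall fun N => ?_)
  apply la_norm_le
  intro n hn
  have hgp : ‖g p‖ = 1 := hg1 p hp.one_lt.le
  have hgp0 : g p ≠ 0 := fun h0 => by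
    rw [h0, norm_zero] at hgp
    exact zero_ne_one hgp
  have hcj : ‖conj (g p) ^ s‖ = 1 := by
    rw [norm_zpow, RCLike.norm_conj, hgp, one_zpow]
  have hbd : ‖H n + (-conj (g p) ^ s) * F (p * n)‖ ≤ 2 := by
    calc _ ≤ ‖H n‖ + ‖(-conj (g p) ^ s) * F (p * n)‖ := norm_add_le _ _
      _ ≤ 1 + 1 * 1 := by
          rw [norm_mul, norm_neg, hcj]
          exact add_le_add (hHb n) (mul_le_mul_of_nonneg_left (hFb _) zero_le_one)
      _ = 2 := by norm_num
  have hsum0 : (0 : ℝ) ≤ ∑ j ∈ a.support, (if (p : ℤ) ∣ (n : ℤ) + j then (1 : ℝ) else 0) :=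
    Finset.sum_nonneg fun j _ => by split_ifs <;> norm_num
  by_cases hnn : n < n₀
  · refine hbd.trans ?_
    rw [hW]
    simp only [if_pos hnn]
    linarith
  push Not at hnn
  by_cases hex : ∃ j ∈ a.support, (p : ℤ) ∣ (n : ℤ) + j
  · obtain ⟨j, hj, hd⟩ := hex
    refine hbd.trans ?_
    have h13 : (1 : ℝ) ≤ ∑ j ∈ a.support, (if (p : ℤ) ∣ (n : ℤ) + j then (1 : ℝ) else 0) := by
      calc (1 : ℝ) = (if (p : ℤ) ∣ (n : ℤ) + j then (1 : ℝ) else 0) := (if_pos hd).symm
        _ ≤ _ := Finset.single_le_sum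
            (f := fun j : ℤ => if (p : ℤ) ∣ (n : ℤ) + j then (1 : ℝ) else 0)
            (fun i _ => by split_ifs <;> norm_num) hj
    rw [hW]
    simp only [if_neg (not_lt.mpr hnn)]
    linarith
  · push Not at hex
    have h14 : F (p * n) = g p ^ s * H n := by
      rw [hF, hH, hs, Finsupp.sum]
      simp only
      rw [lig_zpow_sum hgp0, ← Finset.prod_mul_distrib]
      refine Finset.prod_congr rfl fun j hj => ?_
      rw [← mul_zpow]
      congr 1
      have hjn : j.natAbs ≤ ∑ j ∈ a.support, j.natAbs :=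
        Finset.single_le_sum (f := fun j : ℤ => j.natAbs) (fun _ _ => Nat.zero_le _) hj
      have hpos : 1 ≤ (n : ℤ) + j := by omega
      obtain ⟨m, hm⟩ := Int.eq_ofNat_of_zero_le (by omega : (0 : ℤ) ≤ (n : ℤ) + j)
      have hm1 : 1 ≤ m := by omega
      have e3 : ((p * n : ℕ) : ℤ) + (p : ℤ) * j = ((p * m : ℕ) : ℤ) := by
        push_cast
        rw [← mul_add, hm]
      rw [e3, hm, Int.toNat_natCast, Int.toNat_natCast]
      have hcop : Nat.Coprime p m := by
        rw [Nat.Prime.coprime_iff_not_dvd hp]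
        intro hd
        apply hex j hj
        rw [hm]
        exact Int.natCast_dvd_natCast.mpr hd
      rw [hG _ (Nat.mul_pos hp.pos hm1), hG m hm1, hgm p m hcop]
    have h15 : H n + (-conj (g p) ^ s) * F (p * n) = 0 := by
      have e4 : conj (g p) ^ s * g p ^ s = 1 := by
        rw [← mul_zpow, ← Complex.normSq_eq_conj_mul_self, Complex.normSq_eq_norm_sq, hgp]
        simp
      rw [h14]
      calc H n + (-conj (g p) ^ s) * (g p ^ s * H n) =
          H n - (conj (g p) ^ s * g p ^ s) * H n := by ring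
        _ = 0 := by rw [e4, one_mul, sub_self]
    rw [h15, norm_zero, hW]
    simp only [if_neg (not_lt.mpr hnn)]
    linarith

end FHE
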