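import Pool.Agent.FHE.LIC

/-! LIH (~150 lines): from `Pre` to `Sys`: `Ω` is the subtype `ZW S` (a closed, shift-invariant set of full
measure), `ρ' = ρ.comap Subtype.val`, `T` the restricted shift. Integrals over `Ω` agree with integrals
over `WW Y` (`MeasurableEmbedding.subtype_coe`, `integral_subtype_comap`). -/

open MeasureTheory Filter Topology
open scoped ComplexConjugate

namespace FHE

variable {Y : Type} [MetricSpace Y] [CompactSpace Y] [MeasurableSpace Y] [BorelSpace Y]
  {S : Y → Y} {μ : Measure Y} {g : ℕ → ℂ}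

omit [CompactSpace Y] [MeasurableSpace Y] [BorelSpace Y] in
private theorem lih_closed (hS : Continuous S) : IsClosed (ZW S) := by
  have h1 : ZW S = ⋂ j : ℤ, ((⋂ q : ℕ, {w : WW Y | (w (j + 1)).2.1 q = (w j).2.1 q + 1}) ∩
      ⋂ p : ℕ, {w : WW Y | (w (j + 1)).2.2 p = S^[p] ((w j).2.2 p)}) := by
    ext w
    simp only [ZW, Set.mem_ofPred_eq, Set.mem_iInter, Set.mem_inter_iff]
  rw [h1]
  refine isClosed_iInter fun j => IsClosed.inter (isClosed_iInter fun q => ?_)
    (isClosed_iInter fun p => ?_)
  · refine isClosed_eq ?_ ?_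
    · exact (continuous_apply q).comp
        (continuous_fst.comp (continuous_snd.comp (continuous_apply (j + 1))))
    · exact (continuous_of_discreteTopology (f := fun z : ZMod (q + 1) => z + 1)).comp
        ((continuous_apply q).comp
          (continuous_fst.comp (continuous_snd.comp (continuous_apply j))))
  · refine isClosed_eq ?_ ?_
    · exact (continuous_apply p).comp
        (continuous_snd.comp (continuous_snd.comp (continuous_apply (j + 1))))
    · exact (hS.iterate p).comp ((continuous_apply p).comp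
        (continuous_snd.comp (continuous_snd.comp (continuous_apply j))))

omit [MetricSpace Y] [CompactSpace Y] [MeasurableSpace Y] [BorelSpace Y] in
private theorem lih_inv (w : WW Y) : shW Y w ∈ ZW S ↔ w ∈ ZW S := by
  constructor
  · intro h j
    have := h (j - 1)
    have e1 : shW Y w (j - 1 + 1) = w (j + 1) := by
      show w (j - 1 + 1 + 1) = w (j + 1)
      rw [sub_add_cancel]
    have e2 : shW Y w (j - 1) = w j := by
      show w (j - 1 + 1) = w j
      rw [sub_add_cancel]
    rw [e1, e2] at this
    exact this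
  · intro h j
    exact h (j + 1)

/-- the restricted shift -/
private def lihT (S : Y → Y) : Equiv.Perm (ZW S) :=
  Equiv.Perm.subtypePerm (shW Y) (fun w => lih_inv w)

omit [MetricSpace Y] [CompactSpace Y] [MeasurableSpace Y] [BorelSpace Y] in
private theorem lihT_val (ω : ZW S) : ((lihT S ω : ZW S) : WW Y) = shW Y (ω : WW Y) := rfl

omit [MetricSpace Y] [CompactSpace Y] [MeasurableSpace Y] [BorelSpace Y] in
private theorem lihT_symm_val (ω : ZW S) :
    (((lihT S).symm ω : ZW S) : WW Y) = (shW Y).symm (ω : WW Y) := by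
  rw [Equiv.eq_symm_apply, ← lihT_val, Equiv.apply_symm_apply]

omit [MetricSpace Y] [CompactSpace Y] [MeasurableSpace Y] [BorelSpace Y] in
private theorem lihT_pow_val (n : ℕ) (ω : ZW S) :
    ((((lihT S) ^ n) ω : ZW S) : WW Y) = ((shW Y) ^ n) (ω : WW Y) := by
  induction n generalizing ω with
  | zero => rfl
  | succ n ih =>
    rw [pow_succ, pow_succ, Equiv.Perm.mul_apply, Equiv.Perm.mul_apply, ih, lihT_val]

omit [MetricSpace Y] [CompactSpace Y] [MeasurableSpace Y] [BorelSpace Y] in
private theorem lihT_zpow_val (n : ℤ) (ω : ZW S) :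
    ((((lihT S) ^ n) ω : ZW S) : WW Y) = ((shW Y) ^ n) (ω : WW Y) := by
  obtain ⟨m, rfl | rfl⟩ := n.eq_nat_or_neg
  · rw [zpow_natCast, zpow_natCast]
    exact lihT_pow_val m ω
  · rw [zpow_neg, zpow_neg, zpow_natCast, zpow_natCast]
    rw [Equiv.Perm.eq_inv_iff_eq, ← lihT_pow_val, ← Equiv.Perm.mul_apply, mul_inv_cancel,
      Equiv.Perm.one_apply]

private theorem lih_int (hS : Continuous S) {ρ : Measure (WW Y)}
    (hsupp : ∀ᵐ w ∂ρ, w ∈ ZW S) (F : WW Y → ℂ) :
    ∫ ω : ZW S, F (ω : WW Y) ∂(ρ.comap Subtype.val) = ∫ w, F w ∂ρ := by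
  have hm : MeasurableSet (ZW S) := (lih_closed hS).measurableSet
  rw [integral_subtype_comap hm, Measure.restrict_eq_self_of_ae_mem hsupp]

private theorem lih_val_mp (hS : Continuous S) {ρ : Measure (WW Y)}
    (hsupp : ∀ᵐ w ∂ρ, w ∈ ZW S) :
    MeasurePreserving (Subtype.val : ZW S → WW Y) (ρ.comap Subtype.val) ρ := by
  have hm : MeasurableSet (ZW S) := (lih_closed hS).measurableSet
  refine ⟨measurable_subtype_coe, ?_⟩
  rw [(MeasurableEmbedding.subtype_coe hm).map_comap, Subtype.range_coe]
  exact Measure.restrict_eq_self_of_ae_mem hsupp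

private theorem lih_T_mp (hS : Continuous S) {ρ : Measure (WW Y)}
    (hmp : MeasurePreserving (shW Y) ρ ρ) (hsupp : ∀ᵐ w ∂ρ, w ∈ ZW S)
    (hT : Measurable (lihT S)) :
    MeasurePreserving (lihT S) (ρ.comap Subtype.val) (ρ.comap Subtype.val) := by
  have hm : MeasurableSet (ZW S) := (lih_closed hS).measurableSet
  have hv := lih_val_mp hS hsupp
  refine ⟨hT, ?_⟩
  have h1 : Measure.map (Subtype.val : ZW S → WW Y)
      (Measure.map (lihT S) (ρ.comap Subtype.val)) = ρ := by
    rw [Measure.map_map measurable_subtype_coe hT]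
    have : (Subtype.val : ZW S → WW Y) ∘ (lihT S) = (shW Y) ∘ Subtype.val := by
      funext ω; exact lihT_val ω
    rw [this]
    exact (hmp.comp hv).map_eq
  have h2 : (Measure.map (Subtype.val : ZW S → WW Y)
      (Measure.map (lihT S) (ρ.comap Subtype.val))).comap (Subtype.val : ZW S → WW Y) =
      ρ.comap Subtype.val := by rw [h1]
  rw [(MeasurableEmbedding.subtype_coe hm).comap_map] at h2
  exact h2

theorem lih (hS : Continuous S) {ρ : Measure (WW Y)} (h : Pre S μ g ρ) :
    ∃ s : Sys S μ g, ∀ φ : Y → ℂ, Bd φ →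
      ∫ ω, s.x ω * φ (s.pi 1 ω) ∂s.ρ = ∫ w, xW w * φ (piW 1 w) ∂ρ := by
  have hTm : Measurable (lihT S) := by
    refine Measurable.subtype_mk ?_
    exact shW_cont.measurable.comp measurable_subtype_coe
  have hTsm : Measurable (lihT S).symm := by
    have : ((lihT S).symm : ZW S → ZW S) = fun ω : ZW S => ⟨(shW Y).symm (ω : WW Y), by
        rw [← lihT_symm_val]; exact ((lihT S).symm ω).2⟩ :=
      funext fun ω => Subtype.ext (lihT_symm_val ω)
    rw [this]
    exact Measurable.subtype_mk (shW_symm_cont.measurable.comp measurable_subtype_coe)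
  have hv := lih_val_mp hS h.supp
  have hprob := h.prob
  have hpr : IsProbabilityMeasure (ρ.comap (Subtype.val : ZW S → WW Y)) := by
    refine ⟨?_⟩
    have := hv.measure_preimage (s := Set.univ) MeasurableSet.univ.nullMeasurableSet
    rw [Set.preimage_univ] at this
    rw [this, measure_univ]
  let s : Sys S μ g :=
    { Ω := ZW S
      mΩ := inferInstance
      ρ := ρ.comap Subtype.val
      prob := hpr
      T := lihT S
      mT := hTm
      mTs := hTsm
      mp := lih_T_mp hS h.mp h.supp hTm
      x := fun ω => xW (ω : WW Y)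
      mx := xW_cont.measurable.comp measurable_subtype_coe
      nx := fun ω => by
        show ‖(((ω : WW Y) 0).1 : ℂ)‖ = 1
        have := ((ω : WW Y) 0).1.2
        rwa [mem_sphere_zero_iff_norm] at this
      R := fun p ω => RW p (ω : WW Y)
      mR := fun p => (RW_cont p).measurable.comp measurable_subtype_coe
      RT := fun p hp ω => by
        cases p with
        | zero => exact absurd rfl hp
        | succ q => exact (ω.2 0).1 q
      pi := fun p ω => piW p (ω : WW Y)
      mpi := fun p => (piW_cont p).measurable.comp measurable_subtype_coe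
      piT := fun p ω => (ω.2 0).2 p
      law := fun p hp => (h.law p hp).comp hv
      dilK := fun p hp φ hφ => by
        have h1 := h.dilK p hp φ hφ
        have e1 := lih_int hS h.supp
          (fun w => (if RW p w = 0 then (p : ℂ) else 0) * (xW w * φ (piW 1 w)))
        have e2 := lih_int hS h.supp (fun w => xW w * φ (piW p w))
        rw [← e1, ← e2] at h1
        exact h1
      dilT := fun a => by
        obtain ⟨C, hC⟩ := h.dilT a
        refine ⟨C, fun p hp => ?_⟩
        have h1 := hC p hp
        have e1 := lih_int hS h.supp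
          (fun w => a.prod (fun j k => xW (((shW Y) ^ j) w) ^ k))
        have e2 := lih_int hS h.supp
          (fun w => (if RW p w = 0 then (p : ℂ) else 0) *
            a.prod (fun j k => xW (((shW Y) ^ ((p : ℤ) * j)) w) ^ k))
        rw [← e1, ← e2] at h1
        simp only [lihT_zpow_val]
        exact h1 }
  refine ⟨s, fun φ _ => ?_⟩
  exact lih_int hS h.supp (fun w => xW w * φ (piW 1 w))

end FHE
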