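import Pool.Agent.FHE.LIF
import Pool.Agent.FHE.LIG
import Pool.Agent.FHE.LIH

/-! LIM (~100 lines): assembly. `G n = g n` for `n ≥ 1`, `G 0 = 1`. `F N := LA (g n φ(S^n y)) N` is bounded
(`la_bound`); `lib_ultra`, `lib_limit` for `w n = wn S G y n`; `Pre` from `lid_mp, lid_supp, lid_law, lif, lig`;
`lih`; the integral `∫ x φ(π₁)` is the nonzero limit `z` (`LP` for the continuous function
`w ↦ xW w * φ (piW 1 w)`). `φ` may be scaled so that `‖φ‖ ≤ 1`. -/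

open MeasureTheory Filter Topology
open scoped ComplexConjugate

namespace FHE

theorem lim {Y : Type} [MetricSpace Y] [CompactSpace Y] [MeasurableSpace Y] [BorelSpace Y]
    {S : Y → Y} (hS : Continuous S) {μ : Measure Y} [IsProbabilityMeasure μ]
    (hue : ∀ k : ℕ, 1 ≤ k → ∀ ν : Measure Y, IsProbabilityMeasure ν →
      MeasurePreserving (S^[k]) ν ν → ν = μ)
    {g : ℕ → ℂ} (hg1 : ∀ n, 1 ≤ n → ‖g n‖ = 1)
    (hgm : ∀ m n : ℕ, Nat.Coprime m n → g (m * n) = g m * g n) (φ : C(Y, ℂ)) (y : Y)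
    (h : ¬ Tendsto (LA fun n => g n * φ (S^[n] y)) atTop (𝓝 0)) :
    ∃ s : Sys S μ g, ∫ ω, s.x ω * φ (s.pi 1 ω) ∂s.ρ ≠ 0 := by
  classical
  let G : ℕ → Metric.sphere (0 : ℂ) 1 := fun n =>
    if hn : 1 ≤ n then ⟨g n, mem_sphere_zero_iff_norm.2 (hg1 n hn)⟩
    else ⟨1, mem_sphere_zero_iff_norm.2 norm_one⟩
  have hG : ∀ n, 1 ≤ n → ((G n : Metric.sphere (0 : ℂ) 1) : ℂ) = g n := by
    intro n hn
    simp only [G, dif_pos hn]
  let F' : ℕ → ℂ := fun n => ((G n : Metric.sphere (0 : ℂ) 1) : ℂ) * φ (S^[n] y)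
  have hLA : (LA fun n => g n * φ (S^[n] y)) = LA F' := by
    funext N
    unfold LA
    congr 1
    refine Finset.sum_congr rfl fun n hn => ?_
    simp only [F', hG n (Finset.mem_Icc.1 hn).1]
  rw [hLA] at h
  have hF' : ∀ n, ‖F' n‖ ≤ ‖φ‖ := by
    intro n
    simp only [F']
    rw [norm_mul, mem_sphere_zero_iff_norm.1 (G n).2, one_mul]
    exact φ.norm_coe_le_norm _
  obtain ⟨U, z, hU, hz0, hz⟩ := lib_ultra (F := LA F') (C := 3 * ‖φ‖) (fun N => la_bound hF' N) h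
  obtain ⟨ρ, hρ, hLP⟩ := lib_limit (Z := WW Y) (fun n : ℕ => wn S G y n) U hU
  have hLP' : LP S G y U ρ := hLP
  have hmp := lid_mp hU hLP'
  have hsupp := lid_supp hS hU hLP'
  have hlaw : ∀ p, 1 ≤ p → MeasurePreserving (piW p) ρ μ :=
    fun p hp => lid_law hS hue hmp hsupp hp
  have hpre : Pre S μ g ρ :=
    { prob := hρ
      mp := hmp
      supp := hsupp
      law := hlaw
      dilK := fun p hp ψ hψ => lif hg1 hgm hG hU hLP' hlaw hp hψ
      dilT := fun a => lig hg1 hgm hG hU hLP' a }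
  obtain ⟨s, hs⟩ := lih hS hpre
  refine ⟨s, ?_⟩
  -- the integral is `z`
  have hlim : ∫ w, xW w * φ (piW 1 w) ∂ρ = z := by
    have h1 := hLP' ⟨fun w => xW w * φ (piW 1 w),
      xW_cont.mul (φ.continuous.comp (piW_cont 1))⟩
    refine tendsto_nhds_unique h1 (hz.congr fun N => ?_)
    congr 1
    funext n
    simp only [F', ContinuousMap.coe_mk]
    show _ = ((G ((n : ℤ) + 0).toNat : Metric.sphere (0 : ℂ) 1) : ℂ) *
      φ (S^[1 * ((n : ℤ) + 0).toNat] y)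
    rw [add_zero, Int.toNat_natCast, one_mul]
  have hc : (0 : ℝ) < ‖φ‖ + 1 := by positivity
  have hcC : (((‖φ‖ + 1 : ℝ)) : ℂ) ≠ 0 := by exact_mod_cast hc.ne'
  have hBd : Bd (fun v => (((‖φ‖ + 1 : ℝ)) : ℂ)⁻¹ * φ v) := by
    refine ⟨(measurable_const.mul φ.continuous.measurable), fun v => ?_⟩
    rw [norm_mul, norm_inv, Complex.norm_real, Real.norm_of_nonneg hc.le,
      inv_mul_le_iff₀ hc]
    have := φ.norm_coe_le_norm v
    linarith
  have h2 := hs _ hBd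
  have e1 : ∀ (a b : ℂ), a * ((((‖φ‖ + 1 : ℝ)) : ℂ)⁻¹ * b) = (((‖φ‖ + 1 : ℝ)) : ℂ)⁻¹ * (a * b) :=
    fun a b => by ring
  simp only [e1] at h2
  rw [integral_const_mul, integral_const_mul] at h2
  have h3 := mul_left_cancel₀ (inv_ne_zero hcC) h2
  rw [h3, hlim]
  exact hz0

end FHE
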