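import Pool.Agent.FHE.RDBA

/-! RDB (~120 lines): summability: `|λ (p^k)| ≤ 1` and `λ p ≠ 0` only if `g p = 0`. Apply
`EulerProduct.summable_and_hasSum_smoothNumbers_prod_primesBelow_tsum` to `f d = |lamf g d| / d` (as a real or
complex function; `f 1 = 1`, multiplicative on coprime numbers):
`∑_{d < N} f d ≤ ∏_{p < N} ∑_k f (p^k) ≤ ∏_{p < N} (1 + [g p = 0]/p + 2/p²) ≤ exp (∑ ...)` is bounded, so `f`
is summable (`summable_of_sum_range_le`). `rdb_fac` collects everything (`g₁ = g1f g`, `lam = lamf g`). -/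

open MeasureTheory Filter Topology
open scoped ComplexConjugate

namespace FHE

private theorem rdb_pp (g : ℕ → ℂ) {p k : ℕ} (hp : p.Prime) (hk : k ≠ 0) :
    lamf g (p ^ k) = indg g (p ^ k) - indg g (p ^ (k - 1)) := by
  unfold lamf
  rw [hp.factorization_pow, Finsupp.prod, Finsupp.support_single_ne_zero _ hk,
    Finset.prod_singleton, Finsupp.single_eq_same]

private theorem rdb_ind (g : ℕ → ℂ) (m n : ℕ) : |indg g m - indg g n| ≤ 1 := by
  unfold indg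
  split_ifs <;> norm_num

private theorem rdb_one (g : ℕ → ℂ) : lamf g 1 = 1 := by
  unfold lamf
  simp

private theorem rdb_le {g : ℕ → ℂ} {p : ℕ} (hp : p.Prime) (k : ℕ) :
    |lamf g (p ^ k)| / ((p ^ k : ℕ) : ℝ) ≤ ((p : ℝ)⁻¹) ^ k := by
  have hp0 : (0 : ℝ) < p := by exact_mod_cast hp.pos
  have h1 : |lamf g (p ^ k)| ≤ 1 := by
    rcases Nat.eq_zero_or_pos k with rfl | hk
    · rw [pow_zero, rdb_one]; norm_num
    · rw [rdb_pp g hp hk.ne']; exact rdb_ind g _ _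
  rw [Nat.cast_pow, inv_pow, div_eq_mul_inv]
  exact mul_le_of_le_one_left (by positivity) h1

private theorem rdb_euler {g : ℕ → ℂ} (hg1 : g 1 = 1) {p : ℕ} (hp : p.Prime) :
    (Summable fun k : ℕ => |lamf g (p ^ k)| / ((p ^ k : ℕ) : ℝ)) ∧
    ∑' k : ℕ, |lamf g (p ^ k)| / ((p ^ k : ℕ) : ℝ) ≤
      1 + ((if p.Prime ∧ g p = 0 then (p : ℝ)⁻¹ else 0) + 2 * ((p : ℝ) ^ 2)⁻¹) := by
  have hp2 : (2 : ℝ) ≤ p := by exact_mod_cast hp.two_le
  have hp0 : (0 : ℝ) < p := by linarith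
  have hr0 : 0 ≤ (p : ℝ)⁻¹ := by positivity
  have hr1 : (p : ℝ)⁻¹ < 1 := by
    rw [inv_lt_one₀ hp0]; linarith
  have hgeo := summable_geometric_of_lt_one hr0 hr1
  have hs : Summable fun k : ℕ => |lamf g (p ^ k)| / ((p ^ k : ℕ) : ℝ) :=
    Summable.of_nonneg_of_le (fun k => by positivity) (fun k => rdb_le hp k) hgeo
  refine ⟨hs, ?_⟩
  have h0 : |lamf g (p ^ 0)| / ((p ^ 0 : ℕ) : ℝ) = 1 := by
    rw [pow_zero, rdb_one]; norm_num
  have h1 : |lamf g (p ^ 1)| / ((p ^ 1 : ℕ) : ℝ) ≤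
      if p.Prime ∧ g p = 0 then (p : ℝ)⁻¹ else 0 := by
    rw [rdb_pp g hp one_ne_zero]
    simp only [pow_one, Nat.sub_self, pow_zero]
    unfold indg
    by_cases hgp : g p = 0
    · simp [hgp, hg1, hp]
    · simp [hgp, hg1]
  have h2 : ∑' k : ℕ, |lamf g (p ^ (k + 2))| / ((p ^ (k + 2) : ℕ) : ℝ) ≤
      2 * ((p : ℝ) ^ 2)⁻¹ := by
    have hb : ∀ k : ℕ, |lamf g (p ^ (k + 2))| / ((p ^ (k + 2) : ℕ) : ℝ) ≤
        ((p : ℝ) ^ 2)⁻¹ * ((p : ℝ)⁻¹) ^ k := fun k => by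
      refine (rdb_le hp (k + 2)).trans (le_of_eq ?_)
      rw [pow_add, inv_pow _ 2]; ring
    have hsg : Summable fun k : ℕ => ((p : ℝ) ^ 2)⁻¹ * ((p : ℝ)⁻¹) ^ k := hgeo.mul_left _
    calc ∑' k : ℕ, |lamf g (p ^ (k + 2))| / ((p ^ (k + 2) : ℕ) : ℝ)
        ≤ ∑' k : ℕ, ((p : ℝ) ^ 2)⁻¹ * ((p : ℝ)⁻¹) ^ k :=
          Summable.tsum_le_tsum hb
            (Summable.of_nonneg_of_le (fun k => by positivity) hb hsg) hsg
      _ = ((p : ℝ) ^ 2)⁻¹ * (1 - (p : ℝ)⁻¹)⁻¹ := by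
          rw [tsum_mul_left, tsum_geometric_of_lt_one hr0 hr1]
      _ ≤ ((p : ℝ) ^ 2)⁻¹ * 2 := by
          refine mul_le_mul_of_nonneg_left ?_ (by positivity)
          have h3 : (p : ℝ)⁻¹ ≤ 2⁻¹ := inv_anti₀ (by norm_num) hp2
          have h4 : (2 : ℝ)⁻¹ ≤ 1 - (p : ℝ)⁻¹ := by
            have : (2 : ℝ)⁻¹ = 1 - 2⁻¹ := by norm_num
            linarith
          calc (1 - (p : ℝ)⁻¹)⁻¹ ≤ ((2 : ℝ)⁻¹)⁻¹ := inv_anti₀ (by norm_num) h4
            _ = 2 := by norm_num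
      _ = 2 * ((p : ℝ) ^ 2)⁻¹ := by ring
  have h3 := hs.sum_add_tsum_nat_add 2
  rw [Finset.sum_range_succ, Finset.sum_range_one, h0] at h3
  rw [← h3]
  linarith

theorem rdb_summable {g : ℕ → ℂ} (hg1 : g 1 = 1)
    (h : Summable fun p : ℕ => if p.Prime ∧ g p = 0 then (p : ℝ)⁻¹ else 0) :
    Summable fun d : ℕ => |lamf g d| / d := by
  set f : ℕ → ℝ := fun d => |lamf g d| / (d : ℝ) with hf
  set b : ℕ → ℝ := fun p =>
    (if p.Prime ∧ g p = 0 then (p : ℝ)⁻¹ else 0) + 2 * ((p : ℝ) ^ 2)⁻¹ with hb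
  have hbs : Summable b :=
    h.add ((Real.summable_nat_pow_inv.2 (by norm_num)).mul_left 2)
  have hb0 : ∀ p, 0 ≤ b p := fun p => by
    simp only [hb]
    split_ifs <;> positivity
  have hf0 : ∀ d, 0 ≤ f d := fun d => by simp only [hf]; positivity
  have hf1 : f 1 = 1 := by simp only [hf]; rw [rdb_one]; norm_num
  have hmul : ∀ {m n : ℕ}, Nat.Coprime m n → f (m * n) = f m * f n := fun {m n} hmn => by
    simp only [hf]
    rw [lamf_mul g m n hmn, abs_mul, Nat.cast_mul]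
    exact mul_div_mul_comm _ _ _ _
  have hsum : ∀ {p : ℕ}, p.Prime → Summable (fun n : ℕ => ‖f (p ^ n)‖) := fun {p} hp => by
    have := (rdb_euler hg1 hp).1
    refine this.congr fun k => ?_
    rw [Real.norm_of_nonneg (hf0 _)]
  refine summable_of_sum_range_le (c := Real.exp (∑' p, b p)) hf0 fun N => ?_
  obtain ⟨hS, hH⟩ :=
    EulerProduct.summable_and_hasSum_smoothNumbers_prod_primesBelow_tsum hf1 hmul hsum N
  have h1 : ∑ d ∈ Finset.range N, f d ≤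
      ∏ p ∈ N.primesBelow, ∑' k : ℕ, f (p ^ k) := by
    have hi : Summable ((N.smoothNumbers).indicator f) :=
      summable_subtype_iff_indicator.1 hH.summable
    have h2 : ∑ d ∈ Finset.range N, f d =
        ∑ d ∈ Finset.range N, (N.smoothNumbers).indicator f d := by
      refine Finset.sum_congr rfl fun d hd => ?_
      rcases Nat.eq_zero_or_pos d with rfl | hd0
      · have : f 0 = 0 := by simp [hf]
        rw [this]
        by_cases hm : (0 : ℕ) ∈ N.smoothNumbers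
        · rw [Set.indicator_of_mem hm, this]
        · rw [Set.indicator_of_notMem hm]
      · rw [Set.indicator_of_mem]
        exact Nat.mem_smoothNumbers_of_lt hd0 (Finset.mem_range.1 hd)
    rw [h2, ← hH.tsum_eq, tsum_subtype]
    exact hi.sum_le_tsum _ (fun d _ => Set.indicator_nonneg (fun x _ => hf0 x) d)
  refine h1.trans ?_
  calc ∏ p ∈ N.primesBelow, ∑' k : ℕ, f (p ^ k)
      ≤ ∏ p ∈ N.primesBelow, Real.exp (b p) := by
        refine Finset.prod_le_prod (fun p _ => tsum_nonneg fun k => hf0 _) fun p hp => ?_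
        have h3 := (rdb_euler hg1 (Nat.prime_of_mem_primesBelow hp)).2
        refine h3.trans ?_
        have h4 := Real.add_one_le_exp (b p)
        simp only [hb] at h4 ⊢
        linarith
    _ = Real.exp (∑ p ∈ N.primesBelow, b p) := (Real.exp_sum _ _).symm
    _ ≤ Real.exp (∑' p, b p) :=
        Real.exp_le_exp.2 (hbs.sum_le_tsum _ fun p _ => hb0 p)

theorem rdb_fac {g : ℕ → ℂ} (hg : ∀ n, g n = 0 ∨ ‖g n‖ = 1) (hg1 : g 1 = 1)
    (hgm : ∀ m n : ℕ, Nat.Coprime m n → g (m * n) = g m * g n)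
    (h : Summable fun p : ℕ => if p.Prime ∧ g p = 0 then (p : ℝ)⁻¹ else 0) :
    ∃ (g₁ : ℕ → ℂ) (lam : ℕ → ℝ), (∀ n, 1 ≤ n → ‖g₁ n‖ = 1) ∧
      (∀ m n : ℕ, Nat.Coprime m n → g₁ (m * n) = g₁ m * g₁ n) ∧
      (Summable fun d : ℕ => |lam d| / d) ∧
      ∀ n, 1 ≤ n → g n = g₁ n * ((∑ d ∈ n.divisors, lam d : ℝ) : ℂ) := by
  refine ⟨g1f g, lamf g, fun n _ => g1f_norm hg n, fun m n hmn => g1f_mul g m n hmn,
    rdb_summable hg1 h, fun n hn => ?_⟩
  rw [← rdba_sum hg1 hgm hn]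
  exact rdba_g hg1 hgm hn

end FHE
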