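import Pool.Agent.FHE.RDA
import Pool.Agent.FHE.RDB

/-! RDC (~200 lines): reduction to unimodular functions. If the sum of `1/p` over the zeros diverges use
`rda`. Otherwise `rdb_fac`: `LA (g F) N = ∑_{d ≥ 1} (λ d / d) A_d(N)`,
`A_d(N) = (1/log N) ∑_{m ≤ N/d} g₁ (d m) F (d m) / m`, `‖A_d(N)‖ ≤ 3 C`, and `A_d(N) → 0` for each `d ≥ 1`:
`A_d(N) = (log (N/d) / log N) LA (m ↦ g₁ (d m) F (d m)) (N/d)` (integer part), and `m ↦ g₁ (d m) / g₁ d` is
unimodular and multiplicative: for coprime `m, n`, `g₁ (d m n) g₁ d = g₁ (d m) g₁ (d n)`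
(`ArithmeticFunction.IsMultiplicative.map_gcd_mul_map_lcm`-type identity). Dominated convergence
(`tendsto_tsum_of_dominated_convergence`). -/

open MeasureTheory Filter Topology
open scoped ComplexConjugate

namespace FHE

theorem rdc_quot {g : ℕ → ℂ} (hg1 : ∀ n, 1 ≤ n → ‖g n‖ = 1)
    (hgm : ∀ m n : ℕ, Nat.Coprime m n → g (m * n) = g m * g n) {d : ℕ} (hd : 1 ≤ d) (m n : ℕ)
    (h : Nat.Coprime m n) :
    g (d * (m * n)) * (g d)⁻¹ = (g (d * m) * (g d)⁻¹) * (g (d * n) * (g d)⁻¹) := by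
  have hd0 : g d ≠ 0 := by
    intro h0
    have := hg1 d hd
    rw [h0, norm_zero] at this
    exact zero_ne_one this
  have h1 : g 1 = 1 := by
    have h2 := hgm 1 1 (Nat.coprime_one_right 1)
    rw [mul_one] at h2
    have h3 : g 1 ≠ 0 := by
      intro h0
      have := hg1 1 le_rfl
      rw [h0, norm_zero] at this
      exact zero_ne_one this
    exact (mul_right_cancel₀ h3 ((one_mul _).trans h2)).symm
  rcases Nat.eq_zero_or_pos m with hm | hm
  · subst hm
    have : n = 1 := by simpa using h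
    subst this
    simp [hd0]
  rcases Nat.eq_zero_or_pos n with hn | hn
  · subst hn
    have : m = 1 := by simpa using h
    subst this
    simp [hd0]
  let f : ArithmeticFunction ℂ := ⟨fun n => if n = 0 then 0 else g n, by simp⟩
  have hf : f.IsMultiplicative := by
    refine ⟨?_, ?_⟩
    · change (if 1 = 0 then 0 else g 1) = 1
      simp [h1]
    · intro a b hab
      change (if a * b = 0 then 0 else g (a * b)) =
        (if a = 0 then 0 else g a) * (if b = 0 then 0 else g b)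
      by_cases ha : a = 0
      · simp [ha]
      · by_cases hb : b = 0
        · simp [hb]
        · simp [ha, hb, hgm a b hab]
  have key := hf.lcm_apply_mul_gcd_apply (x := d * m) (y := d * n)
  have e1 : Nat.gcd (d * m) (d * n) = d := by
    rw [Nat.gcd_mul_left, h.gcd_eq_one, mul_one]
  have e2 : Nat.lcm (d * m) (d * n) = d * (m * n) := by
    rw [Nat.lcm_mul_left, h.lcm_eq_mul]
  rw [e1, e2] at key
  have e3 : ∀ a : ℕ, 0 < a → f a = g a := by
    intro a ha
    change (if a = 0 then 0 else g a) = g a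
    rw [if_neg ha.ne']
  rw [e3 _ (by positivity), e3 _ (by positivity), e3 _ (by positivity), e3 _ (by positivity)] at key
  field_simp
  linear_combination key

private theorem rdc_inner (G : ℕ → ℂ) (N d : ℕ) (hd : 1 ≤ d) :
    ∑ n ∈ (Finset.Icc 1 N).filter (fun n => d ∣ n), (1 : ℂ) / (n : ℂ) * G n =
      ((d : ℂ)⁻¹) * ∑ m ∈ Finset.Icc 1 N, (1 : ℂ) / (m : ℂ) * (if d * m ≤ N then G (d * m) else 0) := by
  have h1 : ∑ m ∈ Finset.Icc 1 N, (1 : ℂ) / (m : ℂ) * (if d * m ≤ N then G (d * m) else 0) =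
      ∑ m ∈ (Finset.Icc 1 N).filter (fun m => d * m ≤ N), (1 : ℂ) / (m : ℂ) * G (d * m) := by
    rw [Finset.sum_filter]
    refine Finset.sum_congr rfl fun m _ => ?_
    split_ifs <;> simp
  rw [h1, Finset.mul_sum]
  refine Finset.sum_nbij' (fun n => n / d) (fun m => d * m) ?_ ?_ ?_ ?_ ?_
  · intro n hn
    rw [Finset.mem_filter, Finset.mem_Icc] at hn ⊢
    obtain ⟨⟨h1, h2⟩, h3⟩ := hn
    refine ⟨⟨?_, (Nat.div_le_self _ _).trans h2⟩, ?_⟩
    · exact Nat.div_pos (Nat.le_of_dvd (by omega) h3) (by omega)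
    · rw [Nat.mul_div_cancel' h3]
      exact h2
  · intro m hm
    rw [Finset.mem_filter, Finset.mem_Icc] at hm ⊢
    obtain ⟨⟨h1, h2⟩, h3⟩ := hm
    exact ⟨⟨Nat.mul_pos (by omega) (by omega), h3⟩, dvd_mul_right _ _⟩
  · intro n hn
    rw [Finset.mem_filter] at hn
    exact Nat.mul_div_cancel' hn.2
  · intro m _
    exact Nat.mul_div_cancel_left _ (by omega)
  · intro n hn
    rw [Finset.mem_filter, Finset.mem_Icc] at hn
    obtain ⟨⟨h1, h2⟩, h3⟩ := hn
    obtain ⟨k, rfl⟩ := h3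
    rw [Nat.mul_div_cancel_left _ (by omega : 0 < d)]
    have hk : (k : ℂ) ≠ 0 := by
      rw [Nat.cast_ne_zero]
      rintro rfl
      simp at h1
    have hd' : (d : ℂ) ≠ 0 := by
      rw [Nat.cast_ne_zero]
      omega
    push_cast
    field_simp

/-- The average along the multiples of `d`. -/
private noncomputable def rdcA (G : ℕ → ℂ) (d N : ℕ) : ℂ :=
  LA (fun m => if d * m ≤ N then G (d * m) else 0) N

private theorem rdc_expand (G : ℕ → ℂ) (lam : ℕ → ℝ) (N : ℕ) :
    LA (fun n => G n * ((∑ d ∈ n.divisors, lam d : ℝ) : ℂ)) N =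
      ∑' d : ℕ, ((lam d / d : ℝ) : ℂ) * rdcA G d N := by
  have h0 : ∀ d ∉ Finset.Icc 1 N, ((lam d / d : ℝ) : ℂ) * rdcA G d N = 0 := by
    intro d hd
    rw [Finset.mem_Icc, not_and_or] at hd
    rcases hd with hd | hd
    · have : d = 0 := by omega
      subst this
      simp
    · have : rdcA G d N = 0 := by
        unfold rdcA LA
        rw [Finset.sum_eq_zero, mul_zero]
        intro m hm
        rw [Finset.mem_Icc] at hm
        have h1 : d * 1 ≤ d * m := Nat.mul_le_mul_left _ hm.1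
        change _ * (if d * m ≤ N then G (d * m) else 0) = 0
        rw [if_neg (by omega), mul_zero]
      rw [this, mul_zero]
  rw [tsum_eq_sum h0]
  unfold rdcA LA
  have h1 : ∀ n ∈ Finset.Icc 1 N,
      (1 : ℂ) / (n : ℂ) * (G n * ((∑ d ∈ n.divisors, lam d : ℝ) : ℂ)) =
      ∑ d ∈ Finset.Icc 1 N, if d ∣ n then (lam d : ℂ) * ((1 : ℂ) / (n : ℂ) * G n) else 0 := by
    intro n hn
    rw [Finset.mem_Icc] at hn
    have h2 : n.divisors = (Finset.Icc 1 N).filter (fun d => d ∣ n) := by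
      ext d
      rw [Nat.mem_divisors, Finset.mem_filter, Finset.mem_Icc]
      constructor
      · rintro ⟨h3, h4⟩
        exact ⟨⟨Nat.pos_of_dvd_of_pos h3 (by omega), (Nat.le_of_dvd (by omega) h3).trans hn.2⟩, h3⟩
      · rintro ⟨h3, h4⟩
        exact ⟨h4, by omega⟩
    rw [h2, ← Finset.sum_filter]
    push_cast
    rw [Finset.mul_sum, Finset.mul_sum]
    refine Finset.sum_congr rfl fun d _ => ?_
    ring
  rw [Finset.sum_congr rfl h1, Finset.sum_comm, Finset.mul_sum]
  refine Finset.sum_congr rfl fun d hd => ?_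
  rw [Finset.mem_Icc] at hd
  rw [← Finset.sum_filter, ← Finset.mul_sum, rdc_inner G N d hd.1]
  push_cast
  ring

private theorem rdcA_bound {G : ℕ → ℂ} {C : ℝ} (hG : ∀ n, ‖G n‖ ≤ C) (d N : ℕ) :
    ‖rdcA G d N‖ ≤ 3 * C := by
  refine la_bound (fun n => ?_) N
  split_ifs
  · exact hG _
  · rw [norm_zero]
    exact (norm_nonneg _).trans (hG 0)

private theorem rdcA_eq (G : ℕ → ℂ) {d N : ℕ} (hd : 1 ≤ d) (hN : 2 * d ≤ N) :
    rdcA G d N = ((Real.log ((N / d : ℕ) : ℝ) / Real.log (N : ℝ) : ℝ) : ℂ) *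
      LA (fun m => G (d * m)) (N / d) := by
  have h2 : 2 ≤ N / d := (Nat.le_div_iff_mul_le (by omega)).mpr hN
  have hl : Real.log ((N / d : ℕ) : ℝ) ≠ 0 := by
    have : (1 : ℝ) < ((N / d : ℕ) : ℝ) := by exact_mod_cast (by omega : 1 < N / d)
    exact (Real.log_pos this).ne'
  have hl' : ((Real.log ((N / d : ℕ) : ℝ) : ℝ) : ℂ) ≠ 0 := by exact_mod_cast hl
  unfold rdcA LA
  have h3 : ∑ m ∈ Finset.Icc 1 N, (1 : ℂ) / (m : ℂ) * (if d * m ≤ N then G (d * m) else 0) =
      ∑ m ∈ Finset.Icc 1 (N / d), (1 : ℂ) / (m : ℂ) * G (d * m) := by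
    have h4 : Finset.Icc 1 (N / d) = (Finset.Icc 1 N).filter (fun m => d * m ≤ N) := by
      ext m
      rw [Finset.mem_filter, Finset.mem_Icc, Finset.mem_Icc, Nat.le_div_iff_mul_le (by omega)]
      constructor
      · rintro ⟨h5, h6⟩
        refine ⟨⟨h5, ?_⟩, by rw [mul_comm]; exact h6⟩
        exact (Nat.le_mul_of_pos_right m (by omega)).trans h6
      · rintro ⟨⟨h5, h6⟩, h7⟩
        exact ⟨h5, by rw [mul_comm]; exact h7⟩
    rw [h4, Finset.sum_filter]
    refine Finset.sum_congr rfl fun m _ => ?_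
    split_ifs <;> simp
  rw [h3, Complex.ofReal_div]
  generalize ∑ m ∈ Finset.Icc 1 (N / d), (1 : ℂ) / (m : ℂ) * G (d * m) = Q
  generalize ((Real.log (N : ℝ) : ℝ) : ℂ) = L
  field_simp

theorem rdc {F : ℕ → ℂ} {C : ℝ} (hF : ∀ n, ‖F n‖ ≤ C)
    (H : ∀ d : ℕ, 1 ≤ d → ∀ g₁ : ℕ → ℂ, (∀ n, 1 ≤ n → ‖g₁ n‖ = 1) →
      (∀ m n : ℕ, Nat.Coprime m n → g₁ (m * n) = g₁ m * g₁ n) →
      Tendsto (LA fun n => g₁ n * F (d * n)) atTop (𝓝 0))
    {g : ℕ → ℂ} (hg : ∀ n, g n = 0 ∨ ‖g n‖ = 1) (hg1 : g 1 = 1)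
    (hgm : ∀ m n : ℕ, Nat.Coprime m n → g (m * n) = g m * g n) :
    Tendsto (LA fun n => g n * F n) atTop (𝓝 0) := by
  by_cases hs : Summable fun p : ℕ => if p.Prime ∧ g p = 0 then (p : ℝ)⁻¹ else 0
  swap
  · exact rda hg hgm hs hF
  obtain ⟨g₁, lam, h1, h2, h3, h4⟩ := rdb_fac hg hg1 hgm hs
  have hC : 0 ≤ C := (norm_nonneg _).trans (hF 0)
  -- replace `g₁ 0` by `0`
  let G : ℕ → ℂ := fun n => if n = 0 then 0 else g₁ n * F n
  have hG : ∀ n, ‖G n‖ ≤ C := by
    intro n
    change ‖(if n = 0 then 0 else g₁ n * F n)‖ ≤ C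
    split_ifs with hn
    · simpa using hC
    · rw [norm_mul, h1 n (by omega), one_mul]
      exact hF n
  have he : ∀ N, LA (fun n => g n * F n) N = ∑' d : ℕ, ((lam d / d : ℝ) : ℂ) * rdcA G d N := by
    intro N
    rw [← rdc_expand]
    unfold LA
    congr 1
    refine Finset.sum_congr rfl fun n hn => ?_
    rw [Finset.mem_Icc] at hn
    change _ = (1 : ℂ) / (n : ℂ) * ((if n = 0 then 0 else g₁ n * F n) * _)
    rw [if_neg (by omega)]
    change (1 : ℂ) / (n : ℂ) * (g n * F n) = _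
    rw [h4 n hn.1]
    ring
  have hlim : ∀ d : ℕ, Tendsto (fun N => ((lam d / d : ℝ) : ℂ) * rdcA G d N) atTop (𝓝 0) := by
    intro d
    rcases Nat.eq_zero_or_pos d with hd | hd
    · subst hd
      simp
    have hd0 : g₁ d ≠ 0 := by
      intro h0
      have := h1 d hd
      rw [h0, norm_zero] at this
      exact zero_ne_one this
    have t1 := H d hd (fun m => g₁ (d * m) * (g₁ d)⁻¹)
      (fun n hn => by
        rw [norm_mul, norm_inv, h1 d hd, h1 (d * n) (Nat.mul_pos hd hn)]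
        norm_num)
      (fun m n hmn => rdc_quot h1 h2 hd m n hmn)
    have t2 : Tendsto (LA fun m => G (d * m)) atTop (𝓝 0) := by
      have t3 := t1.const_mul (g₁ d)
      rw [mul_zero] at t3
      refine t3.congr fun N => ?_
      rw [← la_smul]
      unfold LA
      congr 1
      refine Finset.sum_congr rfl fun n hn => ?_
      rw [Finset.mem_Icc] at hn
      change _ = (1 : ℂ) / (n : ℂ) * (if d * n = 0 then 0 else g₁ (d * n) * F (d * n))
      rw [if_neg (Nat.mul_pos hd hn.1).ne']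
      field_simp
    have t4 : Tendsto (fun N : ℕ => N / d) atTop atTop := by
      refine tendsto_atTop.mpr fun b => ?_
      filter_upwards [eventually_ge_atTop (b * d)] with N hN
      exact (Nat.le_div_iff_mul_le hd).mpr hN
    have t5 : Tendsto (fun N : ℕ => LA (fun m => G (d * m)) (N / d)) atTop (𝓝 0) := t2.comp t4
    have t6 : Tendsto (fun N => rdcA G d N) atTop (𝓝 0) := by
      rw [tendsto_zero_iff_norm_tendsto_zero] at t5 ⊢
      refine squeeze_zero' (Eventually.of_forall fun _ => norm_nonneg _) ?_ t5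
      filter_upwards [eventually_ge_atTop (2 * d)] with N hN
      rw [rdcA_eq G hd hN, norm_mul]
      have hN1 : (1 : ℝ) < (N : ℝ) := by exact_mod_cast (by omega : 1 < N)
      have hl : 0 < Real.log (N : ℝ) := Real.log_pos hN1
      have h2' : 2 ≤ N / d := (Nat.le_div_iff_mul_le (by omega)).mpr hN
      have hl2 : 0 ≤ Real.log ((N / d : ℕ) : ℝ) := Real.log_nonneg (by exact_mod_cast (by omega))
      have hl3 : Real.log ((N / d : ℕ) : ℝ) ≤ Real.log (N : ℝ) := by
        refine Real.log_le_log (by exact_mod_cast (by omega)) ?_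
        exact_mod_cast Nat.div_le_self _ _
      have : ‖((Real.log ((N / d : ℕ) : ℝ) / Real.log (N : ℝ) : ℝ) : ℂ)‖ ≤ 1 := by
        rw [Complex.norm_real, Real.norm_eq_abs, abs_of_nonneg (by positivity)]
        exact (div_le_one hl).mpr hl3
      calc _ ≤ 1 * ‖LA (fun m => G (d * m)) (N / d)‖ :=
            mul_le_mul_of_nonneg_right this (norm_nonneg _)
        _ = _ := one_mul _
    simpa using t6.const_mul ((lam d / d : ℝ) : ℂ)
  have hfin := tendsto_tsum_of_dominated_convergence (𝓕 := atTop)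
    (f := fun N d => ((lam d / d : ℝ) : ℂ) * rdcA G d N) (g := fun _ => (0 : ℂ))
    (bound := fun d => |lam d| / d * (3 * C)) (h3.mul_right _) hlim
    (Eventually.of_forall fun N d => by
      rw [norm_mul]
      refine mul_le_mul ?_ (rdcA_bound hG d N) (norm_nonneg _) (by positivity)
      rw [Complex.norm_real, Real.norm_eq_abs, abs_div, Nat.abs_cast])
  rw [tsum_zero] at hfin
  exact hfin.congr fun N => (he N).symm

end FHE
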