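import Pool.Agent.FHE.Defs

/-! UEE (~150 lines): hypotheses on the base system. `uee`: if `A` is measurable, `S⁻¹ A = A` and
`0 < μ A < 1`, the conditional measure `(μ A)⁻¹ • μ.restrict A` is an invariant probability measure different
from `μ`. `zec`: unfold `Dynamics.coverEntropy`, `coverEntropyEntourage` (a limsup of
`log (coverMincard T univ U n) / n`) for the entourage `{dist < ε}`: for large `n` it is `< δ`, and
`coverMincard` is attained by a finite dynamical cover (`Dynamics.IsDynCoverOf`). `zed`: orbit segments of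
length `n` for `S^[d]` are contained in orbit segments of length `d n` for `S` (`δ / d`). -/

open MeasureTheory Filter Topology
open scoped ComplexConjugate

namespace FHE

theorem uee {Y : Type*} [MeasurableSpace Y] {S : Y → Y} {μ : Measure Y} [IsProbabilityMeasure μ]
    (hinv : MeasurePreserving S μ μ)
    (hue : ∀ ν : Measure Y, IsProbabilityMeasure ν → MeasurePreserving S ν ν → ν = μ) :
    Ergodic S μ := by
  refine ⟨hinv, ⟨fun s hs hpre => ?_⟩⟩
  by_cases h0 : μ s = 0
  · rw [Filter.eventuallyConst_set']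
    left
    exact ae_eq_empty.2 h0
  · have hprob : IsProbabilityMeasure (ProbabilityTheory.cond μ s) :=
      ProbabilityTheory.cond_isProbabilityMeasure h0
    have hmp : MeasurePreserving S (ProbabilityTheory.cond μ s) (ProbabilityTheory.cond μ s) := by
      refine ⟨hinv.measurable, ?_⟩
      ext t ht
      rw [Measure.map_apply hinv.measurable ht, ProbabilityTheory.cond_apply hs,
        ProbabilityTheory.cond_apply hs]
      congr 1
      rw [← hinv.measure_preimage (hs.inter ht).nullMeasurableSet, Set.preimage_inter, hpre]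
    have hcond := hue _ hprob hmp
    rw [Filter.eventuallyConst_set']
    right
    rw [ae_eq_univ, ← hcond, ProbabilityTheory.cond_apply hs]
    simp

theorem zec {X : Type*} [MetricSpace X] [CompactSpace X] {T : X → X} (hT : Continuous T)
    (h : Dynamics.coverEntropy T Set.univ = 0) : ZE T := by
  intro ε hε δ hδ
  obtain ⟨U, hU⟩ : ∃ U : SetRel X X, U = {p : X × X | dist p.1 p.2 < ε} := ⟨_, rfl⟩
  have hUu : U ∈ uniformity X := by
    rw [hU]
    exact Metric.dist_mem_uniformity hε
  have h1 : Dynamics.coverEntropyEntourage T Set.univ U ≤ 0 := by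
    rw [← h]
    exact Dynamics.coverEntropyEntourage_le_coverEntropy T Set.univ hUu
  have h2 : Dynamics.coverEntropyEntourage T Set.univ U < ((δ : ℝ) : EReal) :=
    lt_of_le_of_lt h1 (by exact_mod_cast hδ)
  have h3 := ExpGrowth.eventually_le_exp h2
  obtain ⟨n₀, hn₀⟩ := Filter.eventually_atTop.1 h3
  refine ⟨n₀, fun n hn => ?_⟩
  have h4 := hn₀ n hn
  have h5 : ((δ : ℝ) : EReal) * (n : EReal) = ((δ * n : ℝ) : EReal) := by
    push_cast
    rfl
  rw [h5, EReal.exp_coe] at h4
  have h6 : Dynamics.coverMincard T Set.univ U n < ⊤ := by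
    have h7 : ((Dynamics.coverMincard T Set.univ U n : ℕ∞) : ENNReal) < ⊤ :=
      lt_of_le_of_lt h4 ENNReal.ofReal_lt_top
    exact ENat.toENNReal_lt_top.1 h7
  obtain ⟨s, hs1, hs2⟩ := (Dynamics.coverMincard_finite_iff T Set.univ U n).1 h6
  refine ⟨s, ?_, fun v => ?_⟩
  · rw [← hs2] at h4
    have h8 : ((s.card : ℕ) : ENNReal) ≤ ENNReal.ofReal (Real.exp (δ * n)) := by
      simpa using h4
    rw [← ENNReal.ofReal_natCast, ENNReal.ofReal_le_ofReal_iff (Real.exp_pos _).le] at h8
    exact h8
  · obtain ⟨z, hz, hvz⟩ := hs1 (Set.mem_univ v)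
    refine ⟨z, hz, fun j hj => ?_⟩
    have h9 := Dynamics.mem_dynEntourage.1 hvz j hj
    rw [hU] at h9
    exact le_of_lt h9

theorem zed {X : Type*} [PseudoMetricSpace X] {T : X → X} (h : ZE T) {d : ℕ} (hd : 1 ≤ d) :
    ZE (T^[d]) := by
  intro ε hε δ hδ
  have hd0 : (0 : ℝ) < d := by exact_mod_cast hd
  obtain ⟨n₀, hn₀⟩ := h ε hε (δ / d) (by positivity)
  refine ⟨n₀, fun n hn => ?_⟩
  obtain ⟨s, h1, h2⟩ := hn₀ (d * n) (hn.trans (Nat.le_mul_of_pos_left n (by omega)))
  refine ⟨s, h1.trans (le_of_eq ?_), fun v => ?_⟩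
  · congr 1
    push_cast
    field_simp
  · obtain ⟨z, hz, hzz⟩ := h2 v
    refine ⟨z, hz, fun j hj => ?_⟩
    rw [← Function.iterate_mul]
    exact hzz (d * j) (Nat.mul_lt_mul_of_pos_left hj (by omega))

end FHE
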