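import Pool.Agent.FHE.FHU
import Pool.Agent.FHE.UEE
import Pool.Agent.FHE.RDC
import Pool.Agent.FHE.TRF

/-! MAI: the final assembly. -/

open MeasureTheory Filter Topology
open scoped ComplexConjugate

namespace FHE

/-- Multiplicative functions with values zero or of modulus one. -/
theorem fhz {X : Type} [MetricSpace X] [CompactSpace X] [MeasurableSpace X] [BorelSpace X]
    {T : X → X} (hT : Continuous T) (hZ : ZE T) {μ : Measure X} [IsProbabilityMeasure μ]
    (hinv : MeasurePreserving T μ μ)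
    (hue : ∀ k : ℕ, 1 ≤ k → ∀ ν : Measure X, IsProbabilityMeasure ν →
      MeasurePreserving (T^[k]) ν ν → ν = μ)
    {g : ℕ → ℂ} (hg : ∀ n, g n = 0 ∨ ‖g n‖ = 1) (hg1 : g 1 = 1)
    (hgm : ∀ m n : ℕ, Nat.Coprime m n → g (m * n) = g m * g n) (φ : C(X, ℂ))
    (hφ : ∫ v, φ v ∂μ = 0) (x : X) :
    Tendsto (LA fun n => g n * φ (T^[n] x)) atTop (𝓝 0) := by
  refine rdc (F := fun n => φ (T^[n] x)) (C := ‖φ‖) (fun n => φ.norm_coe_le_norm _) ?_ hg hg1 hgm
  intro d hd g₁ h1 hm
  have hinvk : ∀ k, MeasurePreserving (T^[k]) μ μ := fun k => hinv.iterate k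
  have key := fhu (Y := X) (S := T^[d]) (hT.iterate d) (zed hZ hd) (μ := μ)
    (by
      intro k hk
      rw [← Function.iterate_mul]
      exact uee (hinvk _) (fun ν hν hν' => hue _ (Nat.mul_pos hd hk) ν hν hν'))
    (by
      intro k hk ν hν hν'
      rw [← Function.iterate_mul] at hν'
      exact hue _ (Nat.mul_pos hd hk) ν hν hν')
    h1 hm φ hφ x
  refine key.congr fun N => ?_
  simp only [← Function.iterate_mul]

theorem main (X : Type) [MetricSpace X] [CompactSpace X] [MeasurableSpace X] [BorelSpace X]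
      (T : X → X) (hT : Continuous T) (hent : Dynamics.coverEntropy T Set.univ = 0)
      (μ : Measure X) (hμ : IsProbabilityMeasure μ) (hinv : MeasurePreserving T μ μ)
      (hue : ∀ k : ℕ, 1 ≤ k → ∀ ν : Measure X, IsProbabilityMeasure ν →
          MeasurePreserving (T^[k]) ν ν → ν = μ)
      (g : ArithmeticFunction ℂ) (hg : g.IsMultiplicative) (f : C(X, ℂ)) (x : X) (c : ℂ) :
        Tendsto
          (fun N : ℕ => ((1 : ℂ) / ((Real.log (N : ℝ) : ℝ) : ℂ)) *
            ∑ n ∈ Finset.Icc 1 N,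
              ((1 : ℂ) / (n : ℂ)) * (if g n = c then (1 : ℂ) else 0) *
                (f (T^[n] x) - ∫ y, f y ∂μ))
          atTop (𝓝 0) := by
  set I : ℂ := ∫ y, f y ∂μ with hI
  let f0 : C(X, ℂ) := f - ContinuousMap.const X I
  have hf0 : ∫ y, f0 y ∂μ = 0 := by
    have hint : Integrable (fun y => f y) μ :=
      f.continuous.integrable_of_hasCompactSupport (HasCompactSupport.of_compactSpace _)
    change ∫ y, (f y - I) ∂μ = 0
    rw [integral_sub hint (integrable_const _), integral_const, ← hI]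
    simp
  have key := TR.transfer_log (fun n => f0 (T^[n] x)) ‖f0‖ (fun n => f0.norm_coe_le_norm _)
    (fun h hh hb => fhz hT (zec hT hent) hinv hue hb hh.1 (fun m n hmn => hh.2 hmn) f0 hf0 x) g hg c
  refine key.congr fun N => ?_
  unfold LA
  congr 1
  refine Finset.sum_congr rfl fun n _ => ?_
  change (1 : ℂ) / (n : ℂ) * ((if g n = c then (1 : ℂ) else 0) * (f (T^[n] x) - I)) = _
  ring

end FHE
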