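import Pool.Agent.FHE.ALB
import Pool.Agent.FHE.AVB

/-! MNA (~130 lines): monotonicity of box averages. `mna_head`:
`∫ |E_{a<nH} Θ ∘ U^a|² ≤ ∫ |E_{a<H} Θ ∘ U^a|²`: write `a = j H + b` (`j < n`, `b < H`), so the left average
is `E_{j<n} (E_{b<H} Θ ∘ U^b) ∘ U^(jH)`; use `|E_j z_j|² ≤ E_j |z_j|²` and the invariance of `m`.
`mna`: induction on the `Forall₂`, generalizing `F`. With `F_{a,b} v := F (U^a v) conj F (U^b v)`
(again `Bd`), `avb (H :: Hs) (c ↦ Re ∫ bx U c F) = H⁻² ∑_{a,b<H} avb Hs (c ↦ Re ∫ bx U c F_{a,b})` by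
definition; so the tail can be changed by induction. For the head (`H ∣ H'`), exchange the sum over
`a, b` with `avb Hs'` (`avb_sum`, `avb_mul_left`):
`H⁻² ∑_{a,b<H} Re ∫ bx U c F_{a,b} = ∫ |E_{a<H} (bx U c F) ∘ U^a|²` (`bx_cons`), then `mna_head`. -/

open MeasureTheory Filter Topology
open scoped ComplexConjugate

namespace FHE

private theorem mna_int_comp {X : Type*} [MeasurableSpace X] {m : Measure X}
    {U : X → X} (hU : MeasurePreserving U m m) {f : X → ℝ} (hf : Measurable f) :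
    ∫ x, f (U x) ∂m = ∫ x, f x ∂m := by
  conv_rhs => rw [← hU.map_eq]
  exact (integral_map hU.measurable.aemeasurable hf.aestronglyMeasurable).symm

private theorem mna_split (f : ℕ → ℂ) (H n : ℕ) :
    ∑ a ∈ Finset.range (n * H), f a =
      ∑ j ∈ Finset.range n, ∑ b ∈ Finset.range H, f (b + j * H) := by
  induction n with
  | zero => simp
  | succ n ih =>
    rw [Nat.succ_mul, Finset.sum_range_add, ih, Finset.sum_range_succ]
    congr 1
    exact Finset.sum_congr rfl fun b _ => by rw [add_comm]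

theorem mna_head {X : Type*} [MeasurableSpace X] {m : Measure X} [IsProbabilityMeasure m]
    {U : X → X} (hU : MeasurePreserving U m m) {Θ : X → ℂ} (hΘ : Bd Θ) {H n : ℕ} (hH : 1 ≤ H)
    (hn : 1 ≤ n) :
    ∫ x, ‖((n * H : ℕ) : ℂ)⁻¹ * ∑ a ∈ Finset.range (n * H), Θ (U^[a] x)‖ ^ 2 ∂m ≤
      ∫ x, ‖(H : ℂ)⁻¹ * ∑ a ∈ Finset.range H, Θ (U^[a] x)‖ ^ 2 ∂m := by
  set B : X → ℂ := fun x => (H : ℂ)⁻¹ * ∑ a ∈ Finset.range H, Θ (U^[a] x) with hB
  have hΘm : ∀ a, Measurable fun x => Θ (U^[a] x) :=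
    fun a => hΘ.meas.comp (hU.measurable.iterate a)
  have hBm : Measurable B := measurable_const.mul (Finset.measurable_sum _ fun a _ => hΘm a)
  have hBb : ∀ x, ‖B x‖ ≤ 1 := by
    intro x
    have hH0 : (0 : ℝ) < H := by exact_mod_cast hH
    rw [hB]
    simp only [norm_mul, norm_inv, Complex.norm_natCast]
    rw [inv_mul_le_iff₀ hH0, mul_one]
    calc _ ≤ ∑ a ∈ Finset.range H, ‖Θ (U^[a] x)‖ := norm_sum_le _ _
      _ ≤ ∑ _a ∈ Finset.range H, (1 : ℝ) := Finset.sum_le_sum fun a _ => hΘ.le _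
      _ = H := by simp
  have hBi : ∀ j, Integrable (fun x => ‖B (U^[j * H] x)‖ ^ 2) m := by
    intro j
    refine Integrable.of_bound (C := 1)
      (((hBm.comp (hU.measurable.iterate (j * H))).norm.pow_const 2)).aestronglyMeasurable
      (Eventually.of_forall fun x => ?_)
    rw [Real.norm_of_nonneg (by positivity)]
    exact pow_le_one₀ (norm_nonneg _) (hBb _)
  have hpt : ∀ x, ‖((n * H : ℕ) : ℂ)⁻¹ * ∑ a ∈ Finset.range (n * H), Θ (U^[a] x)‖ ^ 2 ≤
      (n : ℝ)⁻¹ * ∑ j ∈ Finset.range n, ‖B (U^[j * H] x)‖ ^ 2 := by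
    intro x
    have e1 : ((n * H : ℕ) : ℂ)⁻¹ * ∑ a ∈ Finset.range (n * H), Θ (U^[a] x) =
        (n : ℂ)⁻¹ * ∑ j ∈ Finset.range n, B (U^[j * H] x) := by
      rw [mna_split, hB]
      push_cast
      rw [mul_inv, mul_assoc, Finset.mul_sum]
      congr 1
      refine Finset.sum_congr rfl fun j _ => ?_
      congr 1
      refine Finset.sum_congr rfl fun b _ => ?_
      rw [Function.iterate_add_apply]
    have hn0 : (0 : ℝ) < n := by exact_mod_cast hn
    rw [e1, norm_mul, norm_inv, Complex.norm_natCast, mul_pow]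
    have e2 : ‖∑ j ∈ Finset.range n, B (U^[j * H] x)‖ ^ 2 ≤
        n * ∑ j ∈ Finset.range n, ‖B (U^[j * H] x)‖ ^ 2 := by
      calc _ ≤ (∑ j ∈ Finset.range n, ‖B (U^[j * H] x)‖) ^ 2 :=
            pow_le_pow_left₀ (norm_nonneg _) (norm_sum_le _ _) 2
        _ ≤ _ := by
            have := sq_sum_le_card_mul_sum_sq (s := Finset.range n)
              (f := fun j => ‖B (U^[j * H] x)‖)
            rwa [Finset.card_range] at this
    calc _ ≤ ((n : ℝ)⁻¹) ^ 2 * (n * ∑ j ∈ Finset.range n, ‖B (U^[j * H] x)‖ ^ 2) :=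
          mul_le_mul_of_nonneg_left e2 (by positivity)
      _ = _ := by field_simp
  calc _ ≤ ∫ x, (n : ℝ)⁻¹ * ∑ j ∈ Finset.range n, ‖B (U^[j * H] x)‖ ^ 2 ∂m := by
        refine integral_mono_of_nonneg (Eventually.of_forall fun x => by positivity) ?_
          (Eventually.of_forall hpt)
        exact (integrable_finsetSum _ fun j _ => hBi j).const_mul _
    _ = (n : ℝ)⁻¹ * ∑ j ∈ Finset.range n, ∫ x, ‖B x‖ ^ 2 ∂m := by
        rw [integral_const_mul, integral_finsetSum _ fun j _ => hBi j]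
        congr 1
        refine Finset.sum_congr rfl fun j _ => ?_
        exact mna_int_comp (hU.iterate (j * H)) (hBm.norm.pow_const 2)
    _ = ∫ x, ‖B x‖ ^ 2 ∂m := by
        rw [Finset.sum_const, Finset.card_range, nsmul_eq_mul, ← mul_assoc,
          inv_mul_cancel₀ (by positivity), one_mul]

private theorem mna_sq {X : Type*} [MeasurableSpace X] {m : Measure X} [IsProbabilityMeasure m]
    {U : X → X} (hU : MeasurePreserving U m m) {Θ : X → ℂ} (hΘ : Bd Θ) (H : ℕ) :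
    ((H : ℝ)⁻¹) ^ 2 * ∑ a ∈ Finset.range H, ∑ b ∈ Finset.range H,
      (∫ x, Θ (U^[a] x) * conj (Θ (U^[b] x)) ∂m).re =
      ∫ x, ‖(H : ℂ)⁻¹ * ∑ a ∈ Finset.range H, Θ (U^[a] x)‖ ^ 2 ∂m := by
  have hΘm : ∀ a, Measurable fun x => Θ (U^[a] x) :=
    fun a => hΘ.meas.comp (hU.measurable.iterate a)
  have hi : ∀ a b, Integrable (fun x => Θ (U^[a] x) * conj (Θ (U^[b] x))) m := by
    intro a b
    refine Integrable.of_bound (C := 1) ((hΘm a).mul
      (Complex.continuous_conj.measurable.comp (hΘm b))).aestronglyMeasurable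
      (Eventually.of_forall fun x => ?_)
    rw [norm_mul, RCLike.norm_conj]
    exact mul_le_one₀ (hΘ.le _) (norm_nonneg _) (hΘ.le _)
  have h1 : ((∫ x, ‖(H : ℂ)⁻¹ * ∑ a ∈ Finset.range H, Θ (U^[a] x)‖ ^ 2 ∂m : ℝ) : ℂ) =
      ((H : ℂ)⁻¹) ^ 2 * ∑ a ∈ Finset.range H, ∑ b ∈ Finset.range H,
        ∫ x, Θ (U^[a] x) * conj (Θ (U^[b] x)) ∂m := by
    rw [← integral_complex_ofReal]
    have h2 : ∀ x, ((‖(H : ℂ)⁻¹ * ∑ a ∈ Finset.range H, Θ (U^[a] x)‖ ^ 2 : ℝ) : ℂ) =
        ((H : ℂ)⁻¹) ^ 2 * ∑ a ∈ Finset.range H, ∑ b ∈ Finset.range H,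
          Θ (U^[a] x) * conj (Θ (U^[b] x)) := by
      intro x
      rw [← Complex.normSq_eq_norm_sq, ← Complex.mul_conj, map_mul, map_sum, map_inv₀,
        Complex.conj_natCast, ← Finset.sum_mul_sum]
      ring
    simp only [h2]
    rw [integral_const_mul, integral_finsetSum _ fun a _ =>
      integrable_finsetSum _ fun b _ => hi a b]
    congr 1
    refine Finset.sum_congr rfl fun a _ => ?_
    rw [integral_finsetSum _ fun b _ => hi a b]
  have h3 := congrArg Complex.re h1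
  rw [Complex.ofReal_re] at h3
  rw [h3]
  have h4 : ((H : ℂ)⁻¹) ^ 2 = ((((H : ℝ)⁻¹) ^ 2 : ℝ) : ℂ) := by push_cast; rfl
  rw [h4, Complex.re_ofReal_mul, Complex.re_sum]
  congr 1
  refine Finset.sum_congr rfl fun a _ => ?_
  rw [Complex.re_sum]

private theorem mna_avb {X : Type*} [MeasurableSpace X] {m : Measure X} [IsProbabilityMeasure m]
    {U : X → X} (hU : MeasurePreserving U m m) {F : X → ℂ} (hF : Bd F) (H : ℕ) (Hs : List ℕ) :
    avb (H :: Hs) (fun c => (∫ x, bx U c F x ∂m).re) =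
      avb Hs (fun c => ∫ x, ‖(H : ℂ)⁻¹ * ∑ a ∈ Finset.range H, bx U c F (U^[a] x)‖ ^ 2 ∂m) := by
  rw [avb]
  have h1 : ∀ a ∈ Finset.range H, ∑ b ∈ Finset.range H,
      avb Hs (fun t => (∫ x, bx U ((a, b) :: t) F x ∂m).re) =
      avb Hs (fun t => ∑ b ∈ Finset.range H, (∫ x, bx U ((a, b) :: t) F x ∂m).re) :=
    fun a _ => avb_sum _ _ _
  rw [Finset.sum_congr rfl h1, avb_sum, ← avb_mul_left]
  refine avb_congr _ fun c _ => ?_
  rw [← mna_sq hU (bx_bd hU.measurable c hF) H]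
  simp only [bx_cons]

theorem mna {X : Type*} [MeasurableSpace X] {m : Measure X} [IsProbabilityMeasure m]
    {U : X → X} (hU : MeasurePreserving U m m) (Hs Hs' : List ℕ)
    (h : List.Forall₂ (fun H H' => 1 ≤ H ∧ 1 ≤ H' ∧ H ∣ H') Hs Hs') {F : X → ℂ} (hF : Bd F) :
    avb Hs' (fun c => (∫ x, bx U c F x ∂m).re) ≤ avb Hs (fun c => (∫ x, bx U c F x ∂m).re) := by
  induction h generalizing F with
  | nil => exact le_rfl
  | @cons H H' Hs Hs' hh _ ih =>
    obtain ⟨hH, hH', n, rfl⟩ := hh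
    have hn : 1 ≤ n := by
      rcases Nat.eq_zero_or_pos n with rfl | h0
      · simp at hH'
      · exact h0
    have h1 : avb (H * n :: Hs') (fun c => (∫ x, bx U c F x ∂m).re) ≤
        avb (H :: Hs') (fun c => (∫ x, bx U c F x ∂m).re) := by
      rw [mna_avb hU hF, mna_avb hU hF]
      refine avb_mono _ fun c _ => ?_
      have h2 := mna_head hU (bx_bd hU.measurable c hF) hH hn
      rwa [mul_comm n H] at h2
    refine h1.trans ?_
    rw [avb, avb]
    refine mul_le_mul_of_nonneg_left (Finset.sum_le_sum fun a _ => Finset.sum_le_sum fun b _ => ?_)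
      (by positivity)
    have hFab : Bd (fun v => F (U^[a] v) * conj (F (U^[b] v))) := by
      refine ⟨(hF.meas.comp (hU.measurable.iterate a)).mul
        (Complex.continuous_conj.measurable.comp (hF.meas.comp (hU.measurable.iterate b))),
        fun v => ?_⟩
      rw [norm_mul, RCLike.norm_conj]
      exact mul_le_one₀ (hF.le _) (norm_nonneg _) (hF.le _)
    exact ih hFab

end FHE
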