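import Pool.Agent.FHE.AVA
import Pool.Agent.FHE.ALB

/-! NEG (~150 lines): the predicate `Neg`, and the Cauchy-Schwarz inequality for boxes.
`neg_bd, neg_one, neg_mul, neg_conj, neg_comp`: induction on `d`.
`bcs`, by induction on `d`, for `d + 1`: with `G (a :: t) x = B t x * G' a t x`,
`av H (d+1) = av H d (t ↦ ∫ B t · E_a Ψ (a::t) G' a t)` (exchange), by Cauchy-Schwarz (for `av H d` and for
the integral, `‖B t‖ ≤ 1`) its squared norm is at most
`av H d (t ↦ ∫ |E_a Ψ (a::t) G' a t|²) = H⁻² ∑_{a,b<H} av H d (t ↦ ∫ Ψ (a::t) conj Ψ (b::t) · G' a t conj G' b t)`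
(real part), `≤ H⁻² ∑_{a,b} ‖av H d ...‖`. Raise to the power `2^d` (convexity), and use the induction
hypothesis for `Ψ' t = Ψ (a::t) * conj (Ψ (b::t))` and `G' a · conj (G' b)` (`neg_mul`, `neg_conj`):
`bxp ((a,b)::c) Ψ = bxp c Ψ'`. -/

open MeasureTheory Filter Topology
open scoped ComplexConjugate

namespace FHE

variable {X Y : Type*} [MeasurableSpace X] [MeasurableSpace Y]

private theorem neg_bdmul {f g : Y → ℂ} (hf : Bd f) (hg : Bd g) : Bd (fun x => f x * g x) :=
  ⟨hf.meas.mul hg.meas, fun v => by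
    rw [norm_mul]
    exact mul_le_one₀ (hf.le v) (norm_nonneg _) (hg.le v)⟩

private theorem neg_bdconj {f : Y → ℂ} (hf : Bd f) : Bd (fun x => conj (f x)) :=
  ⟨Complex.continuous_conj.measurable.comp hf.meas, fun v => by
    rw [Complex.norm_conj]
    exact hf.le v⟩

private theorem neg_int {f : Y → ℂ} (hf : Bd f) (m : Measure Y) [IsFiniteMeasure m] :
    Integrable f m :=
  Integrable.of_bound hf.meas.aestronglyMeasurable 1 (Filter.Eventually.of_forall hf.le)

theorem neg_bd {d : ℕ} {G : List ℕ → Y → ℂ} (hG : Neg d G) {t : List ℕ} (ht : t.length = d) :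
    Bd (G t) := by
  induction d generalizing G t with
  | zero =>
    have h0 : t = [] := List.length_eq_zero_iff.mp ht
    have h1 : G t = fun _ => 1 := by
      rw [h0]
      exact funext hG
    rw [h1]
    exact ⟨measurable_const, fun v => by simp⟩
  | succ d ih =>
    obtain ⟨B, G', hB, hG', h⟩ := hG
    match t, ht with
    | a :: t, ht =>
      have ht' : t.length = d := by simpa using ht
      have h1 : G (a :: t) = fun x => B t x * G' a t x := funext fun x => h a t x ht'
      rw [h1]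
      exact neg_bdmul (hB t ht') (ih (hG' a) ht')

theorem neg_one (d : ℕ) : Neg d (fun _ (_ : Y) => 1) := by
  induction d with
  | zero => exact fun x => rfl
  | succ d ih =>
    exact ⟨fun _ _ => 1, fun _ _ _ => 1, fun t _ => ⟨measurable_const, fun v => by simp⟩,
      fun a => ih, fun a t x _ => by simp⟩

theorem neg_mul {d : ℕ} {G G' : List ℕ → Y → ℂ} (h : Neg d G) (h' : Neg d G') :
    Neg d (fun t x => G t x * G' t x) := by
  induction d generalizing G G' with
  | zero =>
    intro x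
    show G [] x * G' [] x = 1
    rw [h x, h' x, one_mul]
  | succ d ih =>
    obtain ⟨B, K, hB, hK, h1⟩ := h
    obtain ⟨B', K', hB', hK', h1'⟩ := h'
    refine ⟨fun t x => B t x * B' t x, fun a t x => K a t x * K' a t x,
      fun t ht => neg_bdmul (hB t ht) (hB' t ht), fun a => ih (hK a) (hK' a), fun a t x ht => ?_⟩
    simp only
    rw [h1 a t x ht, h1' a t x ht]
    ring

theorem neg_conj {d : ℕ} {G : List ℕ → Y → ℂ} (h : Neg d G) :
    Neg d (fun t x => conj (G t x)) := by
  induction d generalizing G with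
  | zero =>
    intro x
    show conj (G [] x) = 1
    rw [h x, map_one]
  | succ d ih =>
    obtain ⟨B, K, hB, hK, h1⟩ := h
    refine ⟨fun t x => conj (B t x), fun a t x => conj (K a t x),
      fun t ht => neg_bdconj (hB t ht), fun a => ih (hK a), fun a t x ht => ?_⟩
    simp only
    rw [h1 a t x ht, map_mul]

theorem neg_comp {d : ℕ} {G : List ℕ → Y → ℂ} (h : Neg d G) {τ : X → Y} (hτ : Measurable τ) :
    Neg d (fun t x => G t (τ x)) := by
  induction d generalizing G with
  | zero => exact fun x => h (τ x)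
  | succ d ih =>
    obtain ⟨B, K, hB, hK, h1⟩ := h
    exact ⟨fun t x => B t (τ x), fun a t x => K a t (τ x),
      fun t ht => ⟨(hB t ht).meas.comp hτ, fun v => (hB t ht).le _⟩, fun a => ih (hK a),
      fun a t x ht => h1 a t (τ x) ht⟩

private theorem neg_av_sum {E : Type*} [AddCommGroup E] [Module ℝ E] (s : Finset ℕ) (H d : ℕ)
    (Q : ℕ → List ℕ → E) : ∑ a ∈ s, av H d (Q a) = av H d (fun t => ∑ a ∈ s, Q a t) := by
  induction d generalizing Q with
  | zero => rfl
  | succ d ih =>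
    simp only [av]
    rw [← Finset.smul_sum, Finset.sum_comm]
    congr 1
    exact Finset.sum_congr rfl fun b _ => ih (fun a t => Q a (b :: t))

private theorem neg_av_smul {E : Type*} [AddCommGroup E] [Module ℝ E] (c : ℝ) (H d : ℕ)
    (Q : List ℕ → E) : c • av H d Q = av H d (fun t => c • Q t) := by
  induction d generalizing Q with
  | zero => rfl
  | succ d ih =>
    simp only [av]
    rw [smul_comm, Finset.smul_sum]
    congr 1
    exact Finset.sum_congr rfl fun b _ => ih (fun t => Q (b :: t))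

private theorem neg_av_re (H d : ℕ) (Q : List ℕ → ℂ) :
    (av H d Q).re = av H d (fun t => (Q t).re) := by
  induction d generalizing Q with
  | zero => rfl
  | succ d ih =>
    simp only [av]
    rw [Complex.smul_re, Complex.re_sum, smul_eq_mul]
    congr 1
    exact Finset.sum_congr rfl fun b _ => ih (fun t => Q (b :: t))

/-- Cauchy-Schwarz for one integral -/
private theorem neg_cs {m : Measure Y} [IsProbabilityMeasure m] {B E : Y → ℂ} (hB : Bd B)
    (hE : Bd E) : ‖∫ x, B x * E x ∂m‖ ^ 2 ≤ ∫ x, ‖E x‖ ^ 2 ∂m := by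
  have hEi : Integrable (fun x => ‖E x‖) m := (neg_int hE m).norm
  have hE2 : Integrable (fun x => ‖E x‖ ^ 2) m := by
    refine Integrable.of_bound (hE.meas.norm.pow_const 2).aestronglyMeasurable 1 ?_
    refine Filter.Eventually.of_forall fun x => ?_
    rw [Real.norm_eq_abs, abs_of_nonneg (by positivity)]
    exact pow_le_one₀ (norm_nonneg _) (hE.le x)
  have h1 : ‖∫ x, B x * E x ∂m‖ ≤ ∫ x, ‖E x‖ ∂m := by
    refine (norm_integral_le_integral_norm _).trans ?_
    refine integral_mono (neg_int (neg_bdmul hB hE) m).norm hEi fun x => ?_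
    simp only [norm_mul]
    exact mul_le_of_le_one_left (norm_nonneg _) (hB.le x)
  have h2 : (∫ x, ‖E x‖ ∂m) ^ 2 ≤ ∫ x, ‖E x‖ ^ 2 ∂m := by
    set c := ∫ x, ‖E x‖ ∂m with hc
    have h3 : 0 ≤ ∫ x, (‖E x‖ - c) ^ 2 ∂m := integral_nonneg fun x => by positivity
    have h4 : ∫ x, (‖E x‖ - c) ^ 2 ∂m = (∫ x, ‖E x‖ ^ 2 ∂m) - c ^ 2 := by
      have h5 : (fun x => (‖E x‖ - c) ^ 2) = fun x => ‖E x‖ ^ 2 - 2 * c * ‖E x‖ + c ^ 2 := by
        funext x
        ring
      rw [h5, integral_add (f := fun x => ‖E x‖ ^ 2 - 2 * c * ‖E x‖) (g := fun _ => c ^ 2)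
          (hE2.sub (hEi.const_mul _)) (integrable_const _),
        integral_sub (f := fun x => ‖E x‖ ^ 2) (g := fun x => 2 * c * ‖E x‖) hE2
          (hEi.const_mul _), integral_const_mul, ← hc]
      simp
      ring
    linarith
  calc ‖∫ x, B x * E x ∂m‖ ^ 2 ≤ (∫ x, ‖E x‖ ∂m) ^ 2 :=
        pow_le_pow_left₀ (norm_nonneg _) h1 2
    _ ≤ _ := h2

/-- expansion of the square of an average -/
private theorem neg_sq {m : Measure Y} [IsProbabilityMeasure m] {H : ℕ} {F : ℕ → Y → ℂ}
    (hF : ∀ a, Bd (F a)) :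
    ∫ x, ‖(H : ℝ)⁻¹ • ∑ a ∈ Finset.range H, F a x‖ ^ 2 ∂m =
      (((H : ℝ)⁻¹) ^ 2 • ∑ a ∈ Finset.range H, ∑ b ∈ Finset.range H,
        ∫ x, F a x * conj (F b x) ∂m).re := by
  have h1 : ∀ x, ((‖(H : ℝ)⁻¹ • ∑ a ∈ Finset.range H, F a x‖ ^ 2 : ℝ) : ℂ) =
      ((H : ℝ)⁻¹) ^ 2 • ∑ a ∈ Finset.range H, ∑ b ∈ Finset.range H, F a x * conj (F b x) := by
    intro x
    rw [norm_smul, mul_pow]
    rw [← Finset.sum_mul_sum, ← map_sum, Complex.mul_conj, Complex.normSq_eq_norm_sq]
    rw [Real.norm_eq_abs, sq_abs]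
    push_cast
    rw [Complex.real_smul]
    push_cast
    ring
  have h2 : ∫ x, ‖(H : ℝ)⁻¹ • ∑ a ∈ Finset.range H, F a x‖ ^ 2 ∂m =
      (∫ x, ((‖(H : ℝ)⁻¹ • ∑ a ∈ Finset.range H, F a x‖ ^ 2 : ℝ) : ℂ) ∂m).re := by
    rw [integral_complex_ofReal, Complex.ofReal_re]
  rw [h2]
  congr 1
  simp only [h1]
  rw [integral_smul, integral_finsetSum]
  · congr 1
    refine Finset.sum_congr rfl fun a _ => ?_
    rw [integral_finsetSum]
    exact fun b _ => neg_int (neg_bdmul (hF a) (neg_bdconj (hF b))) m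
  · intro a _
    refine integrable_finsetSum _ fun b _ => ?_
    exact neg_int (neg_bdmul (hF a) (neg_bdconj (hF b))) m

private theorem neg_pow2 {H : ℕ} (hH : 1 ≤ H) (n : ℕ) (y : ℕ → ℕ → ℝ) (hy : ∀ a b, 0 ≤ y a b) :
    (((H : ℝ)⁻¹) ^ 2 * ∑ a ∈ Finset.range H, ∑ b ∈ Finset.range H, y a b) ^ n ≤
      ((H : ℝ)⁻¹) ^ 2 * ∑ a ∈ Finset.range H, ∑ b ∈ Finset.range H, y a b ^ n := by
  have hH0 : (H : ℝ) ≠ 0 := by
    have : H ≠ 0 := by omega
    exact_mod_cast this
  have h := Real.pow_arith_mean_le_arith_mean_pow (Finset.range H ×ˢ Finset.range H)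
    (fun _ => ((H : ℝ)⁻¹) ^ 2) (fun ab => y ab.1 ab.2) (fun i _ => by positivity)
    (by
      rw [Finset.sum_const, Finset.card_product, Finset.card_range]
      simp only [nsmul_eq_mul, Nat.cast_mul]
      field_simp) (fun i _ => hy _ _) n
  rw [← Finset.mul_sum, ← Finset.mul_sum, Finset.sum_product, Finset.sum_product] at h
  exact h

theorem bcs {m : Measure Y} [IsProbabilityMeasure m] {H : ℕ} (hH : 1 ≤ H) (d : ℕ)
    {Ψ G : List ℕ → Y → ℂ} (hΨ : ∀ t, Bd (Ψ t)) (hG : Neg d G) :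
    ‖av H d (fun t => ∫ x, Ψ t x * G t x ∂m)‖ ^ (2 ^ d) ≤
      avb (List.replicate d H) (fun c => ‖∫ x, bxp c (fun s => Ψ s x) ∂m‖) := by
  induction d generalizing Ψ G with
  | zero =>
    have h0 : ∀ x, G [] x = 1 := hG
    show ‖∫ x, Ψ [] x * G [] x ∂m‖ ^ 1 ≤ ‖∫ x, Ψ [] x ∂m‖
    simp only [h0, mul_one, pow_one]
    exact le_refl _
  | succ d ih =>
    obtain ⟨B, G', hB, hG', h⟩ := hG
    have hH0 : (H : ℝ) ≠ 0 := by
      have : H ≠ 0 := by omega
      exact_mod_cast this
    -- the functions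
    have hF : ∀ t, t.length = d → ∀ a, Bd (fun x => Ψ (a :: t) x * G' a t x) := fun t ht a =>
      neg_bdmul (hΨ _) (neg_bd (hG' a) ht)
    have hE : ∀ t, t.length = d →
        Bd (fun x => (H : ℝ)⁻¹ • ∑ a ∈ Finset.range H, Ψ (a :: t) x * G' a t x) := by
      intro t ht
      refine ⟨?_, fun x => ?_⟩
      · exact (Finset.measurable_fun_sum (Finset.range H)
          fun a _ => (hF t ht a).meas).const_smul ((H : ℝ)⁻¹)
      · rw [norm_smul, norm_inv, Real.norm_natCast]
        rw [inv_mul_le_iff₀ (by positivity), mul_one]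
        refine (norm_sum_le _ _).trans ?_
        refine (Finset.sum_le_card_nsmul _ _ 1 fun a _ => (hF t ht a).le x).trans ?_
        simp
    -- first step: exchange
    have e1 : av H (d + 1) (fun t => ∫ x, Ψ t x * G t x ∂m) =
        av H d (fun t => ∫ x, B t x * ((H : ℝ)⁻¹ • ∑ a ∈ Finset.range H,
          Ψ (a :: t) x * G' a t x) ∂m) := by
      show (H : ℝ)⁻¹ • ∑ a ∈ Finset.range H,
        av H d (fun t => ∫ x, Ψ (a :: t) x * G (a :: t) x ∂m) = _
      rw [neg_av_sum, neg_av_smul]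
      refine av_congr H d fun t ht => ?_
      rw [← integral_finsetSum, ← integral_smul]
      · congr 1
        funext x
        rw [mul_smul_comm]
        congr 1
        rw [Finset.mul_sum]
        refine Finset.sum_congr rfl fun a _ => ?_
        rw [h a t x ht]
        ring
      · intro a _
        have : (fun x => Ψ (a :: t) x * G (a :: t) x) =
            fun x => B t x * (Ψ (a :: t) x * G' a t x) := by
          funext x
          rw [h a t x ht]
          ring
        rw [this]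
        exact neg_int (neg_bdmul (hB t ht) (hF t ht a)) m
    -- second step
    have e2 : ‖av H (d + 1) (fun t => ∫ x, Ψ t x * G t x ∂m)‖ ^ 2 ≤
        ((H : ℝ)⁻¹) ^ 2 * ∑ a ∈ Finset.range H, ∑ b ∈ Finset.range H,
          ‖av H d (fun t => ∫ x, (Ψ (a :: t) x * conj (Ψ (b :: t) x)) *
            (G' a t x * conj (G' b t x)) ∂m)‖ := by
      rw [e1]
      calc _ ≤ (av H d (fun t => ‖∫ x, B t x * ((H : ℝ)⁻¹ • ∑ a ∈ Finset.range H,
          Ψ (a :: t) x * G' a t x) ∂m‖)) ^ 2 :=
            pow_le_pow_left₀ (norm_nonneg _) (norm_av_le _ _ _) 2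
        _ ≤ av H d (fun t => ‖∫ x, B t x * ((H : ℝ)⁻¹ • ∑ a ∈ Finset.range H,
          Ψ (a :: t) x * G' a t x) ∂m‖ ^ 2) := av_pow hH d 2 fun t => norm_nonneg _
        _ ≤ av H d (fun t => ((((H : ℝ)⁻¹) ^ 2 • ∑ a ∈ Finset.range H, ∑ b ∈ Finset.range H,
              ∫ x, (Ψ (a :: t) x * conj (Ψ (b :: t) x)) *
            (G' a t x * conj (G' b t x)) ∂m : ℂ)).re) := by
            refine av_mono H d fun t ht _ => ?_
            refine (neg_cs (hB t ht) (hE t ht)).trans (le_of_eq ?_)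
            rw [neg_sq (hF t ht)]
            congr 2
            refine Finset.sum_congr rfl fun a _ => Finset.sum_congr rfl fun b _ => ?_
            congr 1
            funext x
            rw [map_mul]
            ring
        _ = (((H : ℝ)⁻¹) ^ 2 • ∑ a ∈ Finset.range H, ∑ b ∈ Finset.range H,
              av H d (fun t => ∫ x, (Ψ (a :: t) x * conj (Ψ (b :: t) x)) *
            (G' a t x * conj (G' b t x)) ∂m) : ℂ).re := by
            rw [← neg_av_re, ← neg_av_smul, ← neg_av_sum]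
            congr 3
            funext a
            rw [← neg_av_sum]
        _ ≤ _ := by
            rw [Complex.smul_re, smul_eq_mul]
            refine mul_le_mul_of_nonneg_left ?_ (by positivity)
            refine (Complex.re_le_norm _).trans ?_
            refine (norm_sum_le _ _).trans (Finset.sum_le_sum fun a _ => norm_sum_le _ _)
    -- conclusion
    calc ‖av H (d + 1) (fun t => ∫ x, Ψ t x * G t x ∂m)‖ ^ (2 ^ (d + 1))
        = (‖av H (d + 1) (fun t => ∫ x, Ψ t x * G t x ∂m)‖ ^ 2) ^ (2 ^ d) := by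
          rw [← pow_mul, pow_succ, mul_comm]
      _ ≤ (((H : ℝ)⁻¹) ^ 2 * ∑ a ∈ Finset.range H, ∑ b ∈ Finset.range H,
          ‖av H d (fun t => ∫ x, (Ψ (a :: t) x * conj (Ψ (b :: t) x)) *
            (G' a t x * conj (G' b t x)) ∂m)‖) ^ (2 ^ d) :=
          pow_le_pow_left₀ (by positivity) e2 _
      _ ≤ ((H : ℝ)⁻¹) ^ 2 * ∑ a ∈ Finset.range H, ∑ b ∈ Finset.range H,
          ‖av H d (fun t => ∫ x, (Ψ (a :: t) x * conj (Ψ (b :: t) x)) *
            (G' a t x * conj (G' b t x)) ∂m)‖ ^ (2 ^ d) :=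
          neg_pow2 hH _ _ fun a b => norm_nonneg _
      _ ≤ ((H : ℝ)⁻¹) ^ 2 * ∑ a ∈ Finset.range H, ∑ b ∈ Finset.range H,
          avb (List.replicate d H) (fun c =>
            ‖∫ x, bxp c (fun s => Ψ (a :: s) x * conj (Ψ (b :: s) x)) ∂m‖) := by
          refine mul_le_mul_of_nonneg_left ?_ (by positivity)
          refine Finset.sum_le_sum fun a _ => Finset.sum_le_sum fun b _ => ?_
          exact ih (Ψ := fun t x => Ψ (a :: t) x * conj (Ψ (b :: t) x))
            (G := fun t x => G' a t x * conj (G' b t x))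
            (fun t => neg_bdmul (hΨ _) (neg_bdconj (hΨ _))) (neg_mul (hG' a) (neg_conj (hG' b)))
      _ = avb (List.replicate (d + 1) H)
            (fun c => ‖∫ x, bxp c (fun s => Ψ s x) ∂m‖) := rfl

end FHE
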