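import Pool.Agent.FHE.CSL
import Pool.Agent.FHE.EIB

/-! PCA (~200 lines): the difference step for products along multiples of `n` and eigenfunctions.
For `L = (G, c₀) :: L'` and `n, a`: shift by `T^(-n c₀)`: `‖∫ G (T^(n c₀)) ∏_{L'} · E n‖ = ‖∫ G · k_n‖`
with `k_n ω = (∏_{(g, c) ∈ L'} g (T^(n (c - c₀)) ω)) * E n ω`, because `E n (T^(-n c₀) ω)` is
`E n ω` times a constant of modulus one a.e. (eigenvalue to an integer power). Apply `csl` (`ν = 1`) and
`sym_diff` (`‖∫ k k̄‖ ≤ 1` on the diagonal). `k_n conj k_{n+a}` is, up to the order of the factors,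
the product for the list `L'.map (fun (g, c) => (fun ω => g ω * conj (g (T^(a (c - c₀)) ω)), c - c₀))` and
the function `E n * conj (E (n + a))`. -/

open MeasureTheory Filter Topology
open scoped ComplexConjugate

namespace FHE

variable {X : Type*} [MeasurableSpace X] {ρ : Measure X}

/-- product of functions along multiples of `n` -/
noncomputable def pl (T : Equiv.Perm X) (L : List ((X → ℂ) × ℤ)) (n : ℕ) (ω : X) : ℂ :=
  (L.map fun gc => gc.1 ((T ^ ((n : ℤ) * gc.2)) ω)).prod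

/-- the differenced list -/
noncomputable def dlist (T : Equiv.Perm X) (c₀ : ℤ) (a : ℕ) (L : List ((X → ℂ) × ℤ)) :
    List ((X → ℂ) × ℤ) :=
  L.map fun gc => (fun ω => gc.1 ω * conj (gc.1 ((T ^ ((a : ℤ) * (gc.2 - c₀))) ω)), gc.2 - c₀)

private theorem pca_mul {f g : X → ℂ} (hf : Bd f) (hg : Bd g) :
    Bd (fun v => f v * g v) :=
  ⟨hf.meas.mul hg.meas, fun v => by
    rw [norm_mul]
    exact mul_le_one₀ (hf.le v) (norm_nonneg _) (hg.le v)⟩

private theorem pca_conj {f : X → ℂ} (hf : Bd f) :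
    Bd (fun v => conj (f v)) :=
  ⟨Complex.continuous_conj.measurable.comp hf.meas, fun v => by
    rw [Complex.norm_conj]
    exact hf.le v⟩

private theorem pca_comp {f : X → ℂ} (hf : Bd f) {τ : X → X} (hτ : Measurable τ) :
    Bd (fun z => f (τ z)) :=
  ⟨hf.meas.comp hτ, fun _ => hf.le _⟩

private theorem pca_zmeas {T : Equiv.Perm X} (hT : Measurable T) (hT' : Measurable T.symm)
    (k : ℤ) : Measurable (fun ω => (T ^ k) ω) := by
  cases k with
  | ofNat n =>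
    have h1 : (fun ω => (T ^ (Int.ofNat n)) ω) = T^[n] := by
      rw [Equiv.Perm.iterate_eq_pow]
      rfl
    rw [h1]
    exact hT.iterate n
  | negSucc n =>
    have h1 : (fun ω => (T ^ (Int.negSucc n)) ω) = (T.symm)^[n + 1] := by
      rw [Equiv.Perm.iterate_eq_pow, zpow_negSucc, ← inv_pow]
      rfl
    rw [h1]
    exact hT'.iterate (n + 1)

private theorem pca_zmp {T : Equiv.Perm X} (hT : MeasurePreserving T ρ ρ)
    (hT' : Measurable T.symm) (k : ℤ) : MeasurePreserving (fun ω => (T ^ k) ω) ρ ρ := by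
  cases k with
  | ofNat n =>
    have h1 : (fun ω => (T ^ (Int.ofNat n)) ω) = T^[n] := by
      rw [Equiv.Perm.iterate_eq_pow]
      rfl
    rw [h1]
    exact hT.iterate n
  | negSucc n =>
    have h1 : (fun ω => (T ^ (Int.negSucc n)) ω) = (T.symm)^[n + 1] := by
      rw [Equiv.Perm.iterate_eq_pow, zpow_negSucc, ← inv_pow]
      rfl
    rw [h1]
    have h2 : MeasurePreserving ((⟨T, hT.measurable, hT'⟩ : X ≃ᵐ X)) ρ ρ := hT
    have h3 : MeasurePreserving (T.symm) ρ ρ := h2.symm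
    exact h3.iterate (n + 1)

private theorem pca_eig [IsProbabilityMeasure ρ] {T : Equiv.Perm X}
    (hT : MeasurePreserving T ρ ρ) (hT' : Measurable T.symm) {β : ℂ} {e : X → ℂ}
    (he : IsEig T ρ β e) (k : ℤ) :
    ∃ z : ℂ, ‖z‖ = 1 ∧ ∀ᵐ ω ∂ρ, e ((T ^ k) ω) = z * e ω := by
  have hβ := he.norm_eq
  have hβ0 : β ≠ 0 := by
    rw [← norm_ne_zero_iff, hβ]
    exact one_ne_zero
  cases k with
  | ofNat n =>
    refine ⟨β ^ n, by rw [norm_pow, hβ, one_pow], ?_⟩
    have h1 : (fun ω => (T ^ (Int.ofNat n)) ω) = T^[n] := by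
      rw [Equiv.Perm.iterate_eq_pow]
      rfl
    filter_upwards [he.iter hT n] with ω hω
    rw [← hω, ← h1]
  | negSucc n =>
    refine ⟨(β ^ (n + 1))⁻¹, by rw [norm_inv, norm_pow, hβ, one_pow, inv_one], ?_⟩
    have h2 := (pca_zmp hT hT' (Int.negSucc n)).quasiMeasurePreserving.ae (he.iter hT (n + 1))
    filter_upwards [h2] with ω hω
    have h3 : T^[n + 1] ((T ^ (Int.negSucc n)) ω) = ω := by
      rw [Equiv.Perm.iterate_eq_pow, zpow_negSucc]
      simp
    rw [h3] at hω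
    rw [hω, ← mul_assoc, inv_mul_cancel₀ (pow_ne_zero _ hβ0), one_mul]

theorem pl_bd {T : Equiv.Perm X} (hT : Measurable T) (hT' : Measurable T.symm)
    {L : List ((X → ℂ) × ℤ)} (hL : ∀ gc ∈ L, Bd gc.1) (n : ℕ) : Bd (pl T L n) := by
  induction L with
  | nil =>
    refine ⟨?_, fun v => ?_⟩
    · show Measurable (fun _ : X => (1 : ℂ))
      exact measurable_const
    · simp [pl]
  | cons gc L ih =>
    have h1 : pl T (gc :: L) n = fun ω => gc.1 ((T ^ ((n : ℤ) * gc.2)) ω) * pl T L n ω := by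
      funext ω
      simp [pl]
    rw [h1]
    exact pca_mul (pca_comp (hL gc (by simp)) (pca_zmeas hT hT' _))
      (ih fun gc' h => hL gc' (by simp [h]))

theorem dlist_bd {T : Equiv.Perm X} (hT : Measurable T) (hT' : Measurable T.symm)
    {L : List ((X → ℂ) × ℤ)} (hL : ∀ gc ∈ L, Bd gc.1) (c₀ : ℤ) (a : ℕ) :
    ∀ gc ∈ dlist T c₀ a L, Bd gc.1 := by
  intro gc hgc
  unfold dlist at hgc
  rw [List.mem_map] at hgc
  obtain ⟨gc', h1, rfl⟩ := hgc
  exact pca_mul (hL gc' h1) (pca_conj (pca_comp (hL gc' h1) (pca_zmeas hT hT' _)))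

omit [MeasurableSpace X] in
private theorem pca_shift (T : Equiv.Perm X) (c₀ : ℤ) (L : List ((X → ℂ) × ℤ)) (n : ℕ) (ω : X) :
    pl T L n ((T ^ (-((n : ℤ) * c₀))) ω) =
      pl T (L.map fun gc => (gc.1, gc.2 - c₀)) n ω := by
  unfold pl
  rw [List.map_map]
  congr 1
  refine List.map_congr_left fun gc _ => ?_
  show gc.1 ((T ^ ((n : ℤ) * gc.2)) ((T ^ (-((n : ℤ) * c₀))) ω)) =
    gc.1 ((T ^ ((n : ℤ) * (gc.2 - c₀))) ω)
  have h1 : (n : ℤ) * gc.2 + -((n : ℤ) * c₀) = (n : ℤ) * (gc.2 - c₀) := by ring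
  rw [← Equiv.Perm.mul_apply, ← zpow_add, h1]

omit [MeasurableSpace X] in
private theorem pca_pair (T : Equiv.Perm X) (c₀ : ℤ) (L : List ((X → ℂ) × ℤ)) (n a : ℕ)
    (ω : X) : pl T (L.map fun gc => (gc.1, gc.2 - c₀)) n ω *
      conj (pl T (L.map fun gc => (gc.1, gc.2 - c₀)) (n + a) ω) =
      pl T (dlist T c₀ a L) n ω := by
  induction L with
  | nil => simp [pl, dlist]
  | cons gc L ih =>
    unfold pl dlist at ih ⊢
    simp only [List.map_cons, List.prod_cons, map_mul]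
    rw [← ih]
    have h1 : (T ^ ((a : ℤ) * (gc.2 - c₀))) ((T ^ ((n : ℤ) * (gc.2 - c₀))) ω) =
        (T ^ (((n + a : ℕ) : ℤ) * (gc.2 - c₀))) ω := by
      rw [← Equiv.Perm.mul_apply, ← zpow_add]
      congr 2
      push_cast
      ring
    rw [h1]
    ring

theorem pca [IsProbabilityMeasure ρ] {T : Equiv.Perm X} (hT : MeasurePreserving T ρ ρ)
    (hT' : Measurable T.symm) {G : X → ℂ} (hG : Bd G) (c₀ : ℤ) {L : List ((X → ℂ) × ℤ)}
    (hL : ∀ gc ∈ L, Bd gc.1) {M : ℕ} (A : Finset ℕ) (hA : ∀ n ∈ A, n < M) {E : ℕ → X → ℂ}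
    {β : ℕ → ℂ} (hE : ∀ n ∈ A, IsEig T ρ (β n) (E n)) :
    (∑ n ∈ A, ‖∫ ω, pl T ((G, c₀) :: L) n ω * E n ω ∂ρ‖) ^ 2 ≤ A.card +
      2 * ∑ a ∈ Finset.Ico 1 M, ∑ n ∈ A.filter (fun n => n + a ∈ A),
        ‖∫ ω, pl T (dlist T c₀ a L) n ω * (E n ω * conj (E (n + a) ω)) ∂ρ‖ := by
  set L' : List ((X → ℂ) × ℤ) := L.map fun gc => (gc.1, gc.2 - c₀) with hL'
  have hL'b : ∀ gc ∈ L', Bd gc.1 := by
    intro gc hgc
    rw [hL', List.mem_map] at hgc
    obtain ⟨gc', h1, rfl⟩ := hgc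
    exact hL gc' h1
  set k : ℕ → X → ℂ := fun n ω => pl T L' n ω * E n ω with hk
  have hkb : ∀ n ∈ A, Bd (k n) := fun n hn =>
    pca_mul (pl_bd hT.measurable hT' hL'b n) (hE n hn).bd
  -- shift
  have h1 : ∀ n ∈ A, ‖∫ ω, pl T ((G, c₀) :: L) n ω * E n ω ∂ρ‖ = ‖∫ ω, G ω * k n ω ∂ρ‖ := by
    intro n hn
    obtain ⟨z, hz, hzE⟩ := pca_eig hT hT' (hE n hn) (-((n : ℤ) * c₀))
    have hmp := pca_zmp hT hT' (-((n : ℤ) * c₀))
    have hb : Bd (fun ω => pl T ((G, c₀) :: L) n ω * E n ω) := by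
      refine pca_mul (pl_bd hT.measurable hT' ?_ n) (hE n hn).bd
      intro gc hgc
      rw [List.mem_cons] at hgc
      rcases hgc with rfl | h
      · exact hG
      · exact hL gc h
    have h2 : ∫ ω, pl T ((G, c₀) :: L) n ω * E n ω ∂ρ =
        ∫ ω, pl T ((G, c₀) :: L) n ((T ^ (-((n : ℤ) * c₀))) ω) *
          E n ((T ^ (-((n : ℤ) * c₀))) ω) ∂ρ := by
      conv_lhs => rw [← hmp.map_eq]
      exact integral_map hmp.measurable.aemeasurable hb.meas.aestronglyMeasurable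
    have h3 : ∫ ω, pl T ((G, c₀) :: L) n ((T ^ (-((n : ℤ) * c₀))) ω) *
          E n ((T ^ (-((n : ℤ) * c₀))) ω) ∂ρ = ∫ ω, z * (G ω * k n ω) ∂ρ := by
      refine integral_congr_ae ?_
      filter_upwards [hzE] with ω hω
      have h4 : pl T ((G, c₀) :: L) n ((T ^ (-((n : ℤ) * c₀))) ω) =
          G ω * pl T L' n ω := by
        have h5 : pl T ((G, c₀) :: L) n ((T ^ (-((n : ℤ) * c₀))) ω) =
            G ((T ^ ((n : ℤ) * c₀)) ((T ^ (-((n : ℤ) * c₀))) ω)) *
              pl T L n ((T ^ (-((n : ℤ) * c₀))) ω) := by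
          simp [pl]
        rw [h5, pca_shift, ← Equiv.Perm.mul_apply, ← zpow_add]
        simp [hL']
      rw [h4, hω]
      simp only [hk]
      ring
    rw [h2, h3, integral_const_mul, norm_mul, hz, one_mul]
  rw [Finset.sum_congr rfl h1]
  have h2 := csl (ρ := ρ) hG A hkb (ν := fun _ => 1) (fun _ => zero_le_one)
  simp only [one_mul] at h2
  refine h2.trans ?_
  rw [sym_diff A hA (fun n n' => ‖∫ ω, k n ω * conj (k n' ω) ∂ρ‖) (by
    intro n n'
    rw [← Complex.norm_conj, ← integral_conj]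
    congr 1
    refine integral_congr_ae (Eventually.of_forall fun ω => ?_)
    simp only [map_mul, Complex.conj_conj]
    ring)]
  refine add_le_add ?_ (le_of_eq ?_)
  · have h3 : ∀ n ∈ A, ‖∫ ω, k n ω * conj (k n ω) ∂ρ‖ ≤ 1 := by
      intro n hn
      have h4 : Bd (fun ω => k n ω * conj (k n ω)) := pca_mul (hkb n hn) (pca_conj (hkb n hn))
      have h5 := norm_integral_le_of_norm_le_const (μ := ρ) (C := 1)
        (Eventually.of_forall fun ω => h4.le ω)
      simpa using h5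
    calc ∑ n ∈ A, ‖∫ ω, k n ω * conj (k n ω) ∂ρ‖ ≤ ∑ n ∈ A, (1 : ℝ) :=
          Finset.sum_le_sum h3
      _ = A.card := by simp
  · congr 1
    refine Finset.sum_congr rfl fun a _ => Finset.sum_congr rfl fun n _ => ?_
    congr 1
    refine integral_congr_ae (Eventually.of_forall fun ω => ?_)
    simp only [hk, map_mul]
    rw [← pca_pair]
    ring

end FHE
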