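import Pool.Agent.FHE.PIA

/-! PIB (~100 lines): the injectivity property. Say that `Gd θ b r` holds if there are `N ≥ 1` in `ℕ`
and `m : ℤ` with `b ^ N = θ ^ m` and `r = m / N` (and `‖b‖ = 1`). Then `Gd θ (β n) (1 / n)`;
`Gd θ b r → Gd θ b' r' → Gd θ (b * conj b') (r - r')`; and `Gd θ b r → Gd θ b r' → r = r'`
(raise to the power `N N'`, `θ` has infinite order). Prove by induction on `t`, for all lists `l` of
numbers `≥ 1`, all `A` and `β`: if `1 ≤ n` and `Gd θ (β n) (Rf l n)` for `n ∈ A` then `Inj t A β`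
(`t = 0`: `rf_lt`; step: `Rf (a :: l) n = Rf l n - Rf l (n + a)`). -/

open MeasureTheory Filter Topology
open scoped ComplexConjugate

namespace FHE

private def PibGd (θ b : ℂ) (r : ℝ) : Prop :=
  ‖b‖ = 1 ∧ ∃ N : ℕ, 1 ≤ N ∧ ∃ m : ℤ, b ^ N = θ ^ m ∧ r = (m : ℝ) / N

private theorem pib_conj_eq {b : ℂ} (hb : ‖b‖ = 1) : conj b = b⁻¹ := by
  rw [Complex.inv_def, Complex.normSq_eq_norm_sq, hb]
  simp

private theorem pib_mul {θ : ℂ} (hθ : ‖θ‖ = 1) {b b' : ℂ} {r r' : ℝ}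
    (h : PibGd θ b r) (h' : PibGd θ b' r') : PibGd θ (b * conj b') (r - r') := by
  obtain ⟨hb, N, hN, m, hm, hr⟩ := h
  obtain ⟨hb', N', hN', m', hm', hr'⟩ := h'
  have hθ0 : θ ≠ 0 := by
    intro h0
    rw [h0, norm_zero] at hθ
    exact zero_ne_one hθ
  have hN0 : (N : ℝ) ≠ 0 := by
    have : N ≠ 0 := by omega
    exact_mod_cast this
  have hN0' : (N' : ℝ) ≠ 0 := by
    have : N' ≠ 0 := by omega
    exact_mod_cast this
  refine ⟨by rw [norm_mul, Complex.norm_conj, hb, hb', one_mul], N * N',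
    Nat.one_le_iff_ne_zero.mpr (by positivity), m * N' - m' * N, ?_, ?_⟩
  · rw [pib_conj_eq hb', mul_pow, inv_pow, pow_mul, hm, mul_comm N N', pow_mul, hm',
      zpow_sub₀ hθ0, zpow_mul, zpow_mul, zpow_natCast, zpow_natCast]
    rfl
  · rw [hr, hr']
    push_cast
    field_simp

private theorem pib_uniq {θ : ℂ} (hθ : ‖θ‖ = 1) (hinf : ∀ k : ℕ, 1 ≤ k → θ ^ k ≠ 1) {b : ℂ}
    {r r' : ℝ} (h : PibGd θ b r) (h' : PibGd θ b r') : r = r' := by
  obtain ⟨hb, N, hN, m, hm, hr⟩ := h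
  obtain ⟨hb', N', hN', m', hm', hr'⟩ := h'
  have hθ0 : θ ≠ 0 := by
    intro h0
    rw [h0, norm_zero] at hθ
    exact zero_ne_one hθ
  have hN0 : (N : ℝ) ≠ 0 := by
    have : N ≠ 0 := by omega
    exact_mod_cast this
  have hN0' : (N' : ℝ) ≠ 0 := by
    have : N' ≠ 0 := by omega
    exact_mod_cast this
  have key : θ ^ (m * N' - m' * N) = 1 := by
    have e1 : θ ^ (m * (N' : ℤ)) = b ^ (N * N') := by
      rw [zpow_mul, ← hm, zpow_natCast, ← pow_mul]
    have e2 : θ ^ (m' * (N : ℤ)) = b ^ (N * N') := by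
      rw [zpow_mul, ← hm', zpow_natCast, ← pow_mul, mul_comm N N']
    rw [zpow_sub₀ hθ0, e1, e2]
    refine div_self (pow_ne_zero _ ?_)
    intro h0
    rw [h0, norm_zero] at hb
    exact zero_ne_one hb
  have hz : m * N' - m' * N = 0 := by
    by_contra hne
    have hk : 1 ≤ (m * N' - m' * N).natAbs := Int.natAbs_pos.mpr hne
    apply hinf _ hk
    rcases Int.natAbs_eq (m * N' - m' * N) with h | h
    · rw [h, zpow_natCast] at key
      exact key
    · rw [h, zpow_neg, zpow_natCast, inv_eq_one] at key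
      exact key
  rw [hr, hr', div_eq_div_iff hN0 hN0']
  have : m * N' = m' * N := by linarith
  exact_mod_cast this

private theorem pib_aux {θ : ℂ} (hθ : ‖θ‖ = 1) (hinf : ∀ k : ℕ, 1 ≤ k → θ ^ k ≠ 1) (t : ℕ) :
    ∀ (l : List ℕ) (A : Finset ℕ) (β : ℕ → ℂ), (∀ a ∈ l, 1 ≤ a) →
      (∀ n ∈ A, 1 ≤ n ∧ PibGd θ (β n) (Rf l n)) → Inj t A β := by
  induction t with
  | zero =>
    intro l A β hl h
    intro n hn n' hn' hnn
    have h1 := h n hn
    have h2 := h n' hn'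
    have h2' := h2.2
    rw [← hnn] at h2'
    have h3 := pib_uniq hθ hinf h1.2 h2'
    rcases lt_trichotomy n n' with hlt | heq | hgt
    · have := rf_lt l hl h1.1 hlt
      rw [h3] at this
      exact absurd this (lt_irrefl _)
    · exact heq
    · have := rf_lt l hl h2.1 hgt
      rw [h3] at this
      exact absurd this (lt_irrefl _)
  | succ t ih =>
    intro l A β hl h a ha
    refine ih (a :: l) _ _ ?_ ?_
    · intro b hb
      rcases List.mem_cons.mp hb with rfl | hb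
      · exact ha
      · exact hl b hb
    · intro n hn
      obtain ⟨hn1, hn2⟩ := Finset.mem_filter.mp hn
      exact ⟨(h n hn1).1, pib_mul hθ (h n hn1).2 (h (n + a) hn2).2⟩

theorem pib {θ : ℂ} (hθ : ‖θ‖ = 1) (hinf : ∀ k : ℕ, 1 ≤ k → θ ^ k ≠ 1) (t : ℕ) (A : Finset ℕ)
    (β : ℕ → ℂ) (h : ∀ n ∈ A, 1 ≤ n ∧ ‖β n‖ = 1 ∧ β n ^ n = θ) : Inj t A β := by
  refine pib_aux hθ hinf t [] A β (by simp) ?_
  intro n hn
  obtain ⟨h1, h2, h3⟩ := h n hn
  refine ⟨h1, h2, n, h1, 1, by rw [h3, zpow_one], ?_⟩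
  simp [Rf]

theorem inj_conj {t : ℕ} {A : Finset ℕ} {β : ℕ → ℂ} (h : Inj t A β) :
    Inj t A (fun n => conj (β n)) := by
  induction t generalizing A β with
  | zero =>
    intro n hn n' hn' hnn
    exact h hn hn' (star_injective hnn)
  | succ t ih =>
    intro a ha
    have := ih (h a ha)
    simpa only [map_mul] using this

end FHE
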