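import Pool.Agent.FHE.PCA
import Pool.Agent.FHE.PIB

/-! PCS (~130 lines): induction on `t`. `t = 0`: `L = [(G, c)]`; after the shift by `T^(-n c)` the
integral is, in norm, `‖∫ G E n‖`, and `∑ ‖∫ G E n‖ ≤ (card A)^(1/2)` by Cauchy-Schwarz and `bessel`
(`card A ≤ 4 P`): `C = 2`. Step: `L = (G, c₀) :: L'`, `pca` with `M = 4 P`; put `S_a` for the inner sum,
`y_a = S_a / P`; the induction hypothesis for `dlist`, `A_a = A.filter ..`, `E n conj E (n+a)` (`IsEig.mul`,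
`IsEig.conj`, `Inj (t+1)`) gives `y_a^(2^t) ≤ C / √P`. So `(S/P)² ≤ 4/P + (2/P) ∑_{a<4P} y_a`, and by
convexity `(S/P)^(2^(t+1)) ≤ 2^(2^t) ((4/P)^(2^t) + 8^(2^t) (4P)⁻¹ ∑_{a<4P} y_a^(2^t))
≤ 2^(2^t) (4^(2^t) + 8^(2^t) C) / √P` (`(1/P)^(2^t) ≤ 1/√P`). -/

open MeasureTheory Filter Topology
open scoped ComplexConjugate

namespace FHE

private theorem pcs_zmp {X : Type*} [MeasurableSpace X] {ρ : Measure X} {T : Equiv.Perm X}
    (hT : MeasurePreserving T ρ ρ)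
    (hT' : Measurable T.symm) (k : ℤ) : MeasurePreserving (fun ω => (T ^ k) ω) ρ ρ := by
  cases k with
  | ofNat n =>
    have h1 : (fun ω => (T ^ (Int.ofNat n)) ω) = T^[n] := by
      rw [Equiv.Perm.iterate_eq_pow]
      rfl
    rw [h1]
    exact hT.iterate n
  | negSucc n =>
    have h1 : (fun ω => (T ^ (Int.negSucc n)) ω) = (T.symm)^[n + 1] := by
      rw [Equiv.Perm.iterate_eq_pow, zpow_negSucc, ← inv_pow]
      rfl
    rw [h1]
    have h2 : MeasurePreserving ((⟨T, hT.measurable, hT'⟩ : X ≃ᵐ X)) ρ ρ := hT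
    have h3 : MeasurePreserving (T.symm) ρ ρ := h2.symm
    exact h3.iterate (n + 1)

private theorem pcs_eig {X : Type*} [MeasurableSpace X] {ρ : Measure X}
    [IsProbabilityMeasure ρ] {T : Equiv.Perm X}
    (hT : MeasurePreserving T ρ ρ) (hT' : Measurable T.symm) {β : ℂ} {e : X → ℂ}
    (he : IsEig T ρ β e) (k : ℤ) :
    ∃ z : ℂ, ‖z‖ = 1 ∧ ∀ᵐ ω ∂ρ, e ((T ^ k) ω) = z * e ω := by
  have hβ := he.norm_eq
  have hβ0 : β ≠ 0 := by
    rw [← norm_ne_zero_iff, hβ]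
    exact one_ne_zero
  cases k with
  | ofNat n =>
    refine ⟨β ^ n, by rw [norm_pow, hβ, one_pow], ?_⟩
    have h1 : (fun ω => (T ^ (Int.ofNat n)) ω) = T^[n] := by
      rw [Equiv.Perm.iterate_eq_pow]
      rfl
    filter_upwards [he.iter hT n] with ω hω
    rw [← hω, ← h1]
  | negSucc n =>
    refine ⟨(β ^ (n + 1))⁻¹, by rw [norm_inv, norm_pow, hβ, one_pow, inv_one], ?_⟩
    have h2 := (pcs_zmp hT hT' (Int.negSucc n)).quasiMeasurePreserving.ae (he.iter hT (n + 1))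
    filter_upwards [h2] with ω hω
    have h3 : T^[n + 1] ((T ^ (Int.negSucc n)) ω) = ω := by
      rw [Equiv.Perm.iterate_eq_pow, zpow_negSucc]
      simp
    rw [h3] at hω
    rw [hω, ← mul_assoc, inv_mul_cancel₀ (pow_ne_zero _ hβ0), one_mul]

private theorem pcs_shift {X : Type*} [MeasurableSpace X] {ρ : Measure X}
    [IsProbabilityMeasure ρ] {T : Equiv.Perm X}
    (hT : MeasurePreserving T ρ ρ) (hT' : Measurable T.symm) {β : ℂ} {e G : X → ℂ}
    (he : IsEig T ρ β e) (hG : Bd G) (k : ℤ) :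
    ‖∫ ω, G ((T ^ k) ω) * e ω ∂ρ‖ = ‖∫ ω, G ω * e ω ∂ρ‖ := by
  obtain ⟨z, hz, hzz⟩ := pcs_eig hT hT' he k
  have hmp := pcs_zmp hT hT' k
  have h1 : ∫ ω, G ω * e ω ∂ρ = ∫ ω, G ((T ^ k) ω) * e ((T ^ k) ω) ∂ρ := by
    have := integral_map (μ := ρ) hmp.measurable.aemeasurable (f := fun ω => G ω * e ω)
      (hG.meas.mul he.meas).aestronglyMeasurable
    rw [hmp.map_eq] at this
    exact this
  have h2 : ∫ ω, G ((T ^ k) ω) * e ((T ^ k) ω) ∂ρ = z * ∫ ω, G ((T ^ k) ω) * e ω ∂ρ := by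
    rw [← integral_const_mul]
    refine integral_congr_ae ?_
    filter_upwards [hzz] with ω hω
    rw [hω]; ring
  rw [h1, h2, norm_mul, hz, one_mul]

private theorem pcs_card {P : ℕ} (A : Finset ℕ) (hA : ∀ n ∈ A, n < 4 * P) :
    (A.card : ℝ) ≤ 4 * P := by
  have h : A ⊆ Finset.range (4 * P) := fun n hn => Finset.mem_range.2 (hA n hn)
  have := Finset.card_le_card h
  rw [Finset.card_range] at this
  exact_mod_cast this

private theorem pcs_zero : ∀ (X : Type) [MeasurableSpace X] (ρ : Measure X)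
    [IsProbabilityMeasure ρ] (T : Equiv.Perm X), MeasurePreserving T ρ ρ → Measurable T.symm →
    ∀ L : List ((X → ℂ) × ℤ), L.length = 0 + 1 → (∀ gc ∈ L, Bd gc.1) →
    ∀ P : ℕ, 1 ≤ P → ∀ A : Finset ℕ, (∀ n ∈ A, n < 4 * P) → ∀ (E : ℕ → X → ℂ) (β : ℕ → ℂ),
      (∀ n ∈ A, IsEig T ρ (β n) (E n)) → Inj 0 A β →
      ((∑ n ∈ A, ‖∫ ω, pl T L n ω * E n ω ∂ρ‖) / P) ^ (2 ^ 0) ≤ 2 / Real.sqrt P := by
  intro X _ ρ _ T hT hT' L hL hB P hP A hA E β hE hI
  obtain ⟨⟨G, c⟩, rfl⟩ := List.length_eq_one_iff.1 hL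
  have hG : Bd G := hB (G, c) (by simp)
  have h1 : ∀ n ∈ A, ‖∫ ω, pl T [(G, c)] n ω * E n ω ∂ρ‖ = ‖∫ ω, G ω * E n ω ∂ρ‖ := by
    intro n hn
    have := pcs_shift hT hT' (hE n hn) hG ((n : ℤ) * c)
    rw [← this]
    simp [pl]
  rw [Finset.sum_congr rfl h1]
  have h2 : (∑ n ∈ A, ‖∫ ω, G ω * E n ω ∂ρ‖) ^ 2 ≤ A.card * 1 := by
    refine (sq_sum_le_card_mul_sum_sq (s := A) (f := fun n => ‖∫ ω, G ω * E n ω ∂ρ‖)).trans ?_
    refine mul_le_mul_of_nonneg_left ?_ (by positivity)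
    exact bessel hT A hE hI hG
  have h3 := pcs_card A hA
  have hP' : (1 : ℝ) ≤ P := by exact_mod_cast hP
  have hs : (0 : ℝ) < Real.sqrt P := Real.sqrt_pos.2 (by linarith)
  have h4 : (∑ n ∈ A, ‖∫ ω, G ω * E n ω ∂ρ‖) ≤ 2 * Real.sqrt P := by
    refine le_of_sq_le_sq ?_ (by positivity)
    rw [mul_pow, Real.sq_sqrt (by linarith)]
    linarith
  rw [pow_zero, pow_one, div_le_div_iff₀ (by linarith) hs]
  have h5 : (P : ℝ) = Real.sqrt P * Real.sqrt P := (Real.mul_self_sqrt (by linarith)).symm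
  calc (∑ n ∈ A, ‖∫ ω, G ω * E n ω ∂ρ‖) * Real.sqrt P ≤ 2 * Real.sqrt P * Real.sqrt P :=
        mul_le_mul_of_nonneg_right h4 hs.le
    _ = 2 * P := by rw [mul_assoc, ← h5]

theorem pcs (t : ℕ) : ∃ C : ℝ, 0 ≤ C ∧ ∀ (X : Type) [MeasurableSpace X] (ρ : Measure X)
    [IsProbabilityMeasure ρ] (T : Equiv.Perm X), MeasurePreserving T ρ ρ → Measurable T.symm →
    ∀ L : List ((X → ℂ) × ℤ), L.length = t + 1 → (∀ gc ∈ L, Bd gc.1) →
    ∀ P : ℕ, 1 ≤ P → ∀ A : Finset ℕ, (∀ n ∈ A, n < 4 * P) → ∀ (E : ℕ → X → ℂ) (β : ℕ → ℂ),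
      (∀ n ∈ A, IsEig T ρ (β n) (E n)) → Inj t A β →
      ((∑ n ∈ A, ‖∫ ω, pl T L n ω * E n ω ∂ρ‖) / P) ^ (2 ^ t) ≤ C / Real.sqrt P := by
  induction t with
  | zero => exact ⟨2, by norm_num, pcs_zero⟩
  | succ t ih =>
    obtain ⟨C, hC, ih⟩ := ih
    set q : ℕ := 2 ^ t with hq
    have hq1 : 1 ≤ q := Nat.one_le_two_pow
    refine ⟨2 ^ q * (4 ^ q + 8 ^ q * C), by positivity, ?_⟩
    intro X _ ρ _ T hT hT' L hL hB P hP A hA E β hE hI
    obtain ⟨⟨G, c₀⟩, L', rfl⟩ : ∃ gc L', L = gc :: L' := by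
      cases L with
      | nil => simp at hL
      | cons gc L' => exact ⟨gc, L', rfl⟩
    have hL' : L'.length = t + 1 := by simpa using hL
    have hG : Bd G := hB (G, c₀) (by simp)
    have hB' : ∀ gc ∈ L', Bd gc.1 := fun gc hgc => hB gc (by simp [hgc])
    have hpca := pca hT hT' hG c₀ hB' (M := 4 * P) A hA hE
    set SS : ℝ := ∑ n ∈ A, ‖∫ ω, pl T ((G, c₀) :: L') n ω * E n ω ∂ρ‖ with hSS
    set y : ℕ → ℝ := fun a => (∑ n ∈ A.filter (fun n => n + a ∈ A),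
      ‖∫ ω, pl T (dlist T c₀ a L') n ω * (E n ω * conj (E (n + a) ω)) ∂ρ‖) / P with hy
    have hP' : (1 : ℝ) ≤ P := by exact_mod_cast hP
    have hP0 : (0 : ℝ) < P := by linarith
    have hs : (0 : ℝ) < Real.sqrt P := Real.sqrt_pos.2 hP0
    have hy0 : ∀ a, 0 ≤ y a := fun a =>
      div_nonneg (Finset.sum_nonneg fun _ _ => norm_nonneg _) hP0.le
    have hyq : ∀ a ∈ Finset.Ico 1 (4 * P), y a ^ q ≤ C / Real.sqrt P := by
      intro a ha
      have ha1 := (Finset.mem_Ico.1 ha).1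
      refine ih X ρ T hT hT' (dlist T c₀ a L') (by simp [dlist, hL'])
        (dlist_bd hT.measurable hT' hB' c₀ a) P hP (A.filter (fun n => n + a ∈ A))
        (fun n hn => hA n (Finset.mem_filter.1 hn).1)
        (fun n ω => E n ω * conj (E (n + a) ω)) (fun n => β n * conj (β (n + a))) ?_ (hI a ha1)
      intro n hn
      have hn' := Finset.mem_filter.1 hn
      exact (hE n hn'.1).mul (hE (n + a) hn'.2).conj
    set B : ℝ := ∑ a ∈ Finset.Ico 1 (4 * P), y a with hB0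
    have hBn : 0 ≤ B := Finset.sum_nonneg fun a _ => hy0 a
    have hBq : B ^ q ≤ (4 * P) ^ q * (C / Real.sqrt P) := by
      obtain ⟨r, hr⟩ : ∃ r, q = r + 1 := ⟨q - 1, by omega⟩
      have h1 := pow_sum_div_card_le_sum_pow (s := Finset.Ico 1 (4 * P)) (f := y)
        (fun a _ => hy0 a) r
      have hcard : (0 : ℝ) < ((Finset.Ico 1 (4 * P)).card : ℝ) := by
        rw [Nat.card_Ico]
        have : 0 < 4 * P - 1 := by omega
        exact_mod_cast this
      have hcard' : ((Finset.Ico 1 (4 * P)).card : ℝ) ≤ 4 * P := by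
        rw [Nat.card_Ico]
        have : 4 * P - 1 ≤ 4 * P := by omega
        exact_mod_cast this
      rw [div_le_iff₀ (pow_pos hcard _)] at h1
      have h2 : ∑ a ∈ Finset.Ico 1 (4 * P), y a ^ (r + 1) ≤ 4 * P * (C / Real.sqrt P) := by
        refine (Finset.sum_le_card_nsmul _ _ (C / Real.sqrt P) ?_).trans ?_
        · intro a ha
          rw [← hr]; exact hyq a ha
        · rw [nsmul_eq_mul]
          exact mul_le_mul_of_nonneg_right hcard' (by positivity)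
      rw [hr]
      calc B ^ (r + 1) ≤ (∑ a ∈ Finset.Ico 1 (4 * P), y a ^ (r + 1)) *
            ((Finset.Ico 1 (4 * P)).card : ℝ) ^ r := h1
        _ ≤ (4 * P * (C / Real.sqrt P)) * (4 * P) ^ r := by
            refine mul_le_mul h2 (pow_le_pow_left₀ hcard.le hcard' _) (by positivity) (by positivity)
        _ = (4 * P) ^ (r + 1) * (C / Real.sqrt P) := by ring
    have hSS0 : 0 ≤ SS := Finset.sum_nonneg fun _ _ => norm_nonneg _
    have h5 : (SS / P) ^ 2 ≤ 4 / P + 2 / P * B := by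
      have e1 : ∑ a ∈ Finset.Ico 1 (4 * P), ∑ n ∈ A.filter (fun n => n + a ∈ A),
          ‖∫ ω, pl T (dlist T c₀ a L') n ω * (E n ω * conj (E (n + a) ω)) ∂ρ‖ = P * B := by
        rw [hB0, Finset.mul_sum]
        refine Finset.sum_congr rfl fun a _ => ?_
        rw [hy]; simp only
        rw [mul_div_cancel₀]
        exact hP0.ne'
      rw [e1] at hpca
      have h6 := pcs_card A hA
      rw [div_pow, div_le_iff₀ (by positivity)]
      have e2 : (4 / (P : ℝ) + 2 / P * B) * (P : ℝ) ^ 2 = 4 * P + 2 * (P * B) := by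
        field_simp
      rw [e2]
      linarith
    have h7 : ((2 : ℝ) / P * B) ^ q ≤ 8 ^ q * (C / Real.sqrt P) := by
      rw [mul_pow]
      calc (2 / (P : ℝ)) ^ q * B ^ q ≤ (2 / (P : ℝ)) ^ q * ((4 * P) ^ q * (C / Real.sqrt P)) :=
            mul_le_mul_of_nonneg_left hBq (by positivity)
        _ = 8 ^ q * (C / Real.sqrt P) := by
            rw [← mul_assoc, ← mul_pow]
            congr 2
            field_simp
            norm_num
    have h8 : ((4 : ℝ) / P) ^ q ≤ 4 ^ q * (1 / Real.sqrt P) := by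
      rw [div_pow, div_eq_mul_one_div]
      refine mul_le_mul_of_nonneg_left ?_ (by positivity)
      refine one_div_le_one_div_of_le hs ?_
      calc Real.sqrt P ≤ P := by
            rw [Real.sqrt_le_left (by linarith)]
            nlinarith
        _ = (P : ℝ) ^ 1 := (pow_one _).symm
        _ ≤ (P : ℝ) ^ q := pow_le_pow_right₀ hP' hq1
    have e3 : (2 : ℕ) ^ (t + 1) = 2 * q := by rw [hq]; ring
    rw [e3, pow_mul]
    calc ((SS / P) ^ 2) ^ q ≤ (4 / P + 2 / P * B) ^ q :=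
          pow_le_pow_left₀ (by positivity) h5 _
      _ ≤ 2 ^ (q - 1) * ((4 / (P : ℝ)) ^ q + (2 / P * B) ^ q) :=
          add_pow_le (by positivity) (by positivity) q
      _ ≤ 2 ^ q * (4 ^ q * (1 / Real.sqrt P) + 8 ^ q * (C / Real.sqrt P)) := by
          refine mul_le_mul ?_ (add_le_add h8 h7) (by positivity) (by positivity)
          exact pow_le_pow_right₀ (by norm_num) (by omega)
      _ = 2 ^ q * (4 ^ q + 8 ^ q * C) / Real.sqrt P := by ring

end FHE
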