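import Pool.Agent.FHE.Defs

/-! PIA (~80 lines): the alternating sums `∑_ω (-1)^|ω| / (n + ω·a)` are strictly decreasing in `n`.
`Rf l n = ∫ u in 0..1, u^(n-1) * (l.map fun a => 1 - u^a).prod` for `n ≥ 1` (induction on `l`;
`∫ u in 0..1, u^(n-1) = 1/n`, `integral_pow`). For `n < n'` the integrand decreases strictly on `(0,1)`
(`intervalIntegral.integral_lt_integral_of_continuousOn_of_le_of_exists_lt`). -/

open MeasureTheory Filter Topology
open scoped ComplexConjugate

namespace FHE

/-- alternating sums of reciprocals -/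
noncomputable def Rf : List ℕ → ℕ → ℝ
  | [], n => 1 / (n : ℝ)
  | a :: l, n => Rf l n - Rf l (n + a)

private theorem pia_cont (l : List ℕ) :
    Continuous (fun u : ℝ => (l.map fun a => 1 - u ^ a).prod) := by
  induction l with
  | nil => simp only [List.map_nil, List.prod_nil]; exact continuous_const
  | cons a l ih =>
    simp only [List.map_cons, List.prod_cons]
    fun_prop

private theorem pia_eq (l : List ℕ) : ∀ n : ℕ, 1 ≤ n →
    Rf l n = ∫ u in (0:ℝ)..1, u ^ (n - 1) * (l.map fun a => 1 - u ^ a).prod := by
  induction l with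
  | nil =>
    intro n hn
    simp only [List.map_nil, List.prod_nil, mul_one, Rf, integral_pow, one_pow]
    have h1 : n - 1 + 1 = n := by omega
    have h2 : ((n - 1 : ℕ) : ℝ) + 1 = n := by
      rw [← Nat.cast_succ, Nat.succ_eq_add_one, h1]
    rw [h1, h2, zero_pow (by omega)]
    simp
  | cons a l ih =>
    intro n hn
    have hc := pia_cont l
    rw [Rf, ih n hn, ih (n + a) (by omega), ← intervalIntegral.integral_sub]
    · congr 1
      ext u
      simp only [List.map_cons, List.prod_cons]
      have : n + a - 1 = (n - 1) + a := by omega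
      rw [this, pow_add]
      ring
    · exact (Continuous.intervalIntegrable (by fun_prop) _ _)
    · exact (Continuous.intervalIntegrable (by fun_prop) _ _)

private theorem pia_pos (l : List ℕ) (hl : ∀ a ∈ l, 1 ≤ a) {u : ℝ} (h0 : 0 ≤ u) (h1 : u < 1) :
    0 < (l.map fun a => 1 - u ^ a).prod := by
  induction l with
  | nil => simp
  | cons a l ih =>
    simp only [List.map_cons, List.prod_cons]
    refine mul_pos ?_ (ih (fun b hb => hl b (List.mem_cons_of_mem _ hb)))
    have := pow_lt_one₀ h0 h1 (n := a) (by have := hl a (List.mem_cons_self); omega)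
    linarith

private theorem pia_nonneg (l : List ℕ) {u : ℝ} (h0 : 0 ≤ u) (h1 : u ≤ 1) :
    0 ≤ (l.map fun a => 1 - u ^ a).prod := by
  induction l with
  | nil => simp
  | cons a l ih =>
    simp only [List.map_cons, List.prod_cons]
    refine mul_nonneg ?_ ih
    have := pow_le_one₀ h0 h1 (n := a)
    linarith

theorem rf_lt (l : List ℕ) (hl : ∀ a ∈ l, 1 ≤ a) {n n' : ℕ} (hn : 1 ≤ n) (h : n < n') :
    Rf l n' < Rf l n := by
  have hc := pia_cont l
  rw [pia_eq l n hn, pia_eq l n' (by omega)]
  refine intervalIntegral.integral_lt_integral_of_continuousOn_of_le_of_exists_lt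
    (by norm_num) (Continuous.continuousOn (by fun_prop)) (Continuous.continuousOn (by fun_prop))
    ?_ ⟨1/2, by constructor <;> norm_num, ?_⟩
  · intro u hu
    refine mul_le_mul_of_nonneg_right ?_ (pia_nonneg l hu.1.le hu.2)
    exact pow_le_pow_of_le_one hu.1.le hu.2 (by omega)
  · refine mul_lt_mul_of_pos_right ?_ (pia_pos l hl (by norm_num) (by norm_num))
    exact pow_lt_pow_right_of_lt_one₀ (by norm_num) (by norm_num) (by omega)

end FHE
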