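import Pool.Agent.FHE.Defs

/-! QZT (~80 lines): a finite measurable partition of the unit circle into small pieces with base
points. Take a finite `ε`-net `c 0, ..., c (m-1)` of the unit sphere of `ℂ` (compactness) and let `q z` be
some `i` with `‖c i - z‖ ≤ ε` (`0` if there is none). `mon_close`: induction, `‖z^k - w^k‖ ≤ |k| ‖z - w‖`
for unimodular `z, w` and integer `k`. -/

open MeasureTheory Filter Topology
open scoped ComplexConjugate

namespace FHE

theorem qzt {ε : ℝ} (hε : 0 < ε) : ∃ (m : ℕ) (q : ℂ → Fin (m + 1)) (c : Fin (m + 1) → ℂ),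
    (∀ i, MeasurableSet (q ⁻¹' {i})) ∧ (∀ i, ‖c i‖ = 1) ∧ ∀ z : ℂ, ‖z‖ = 1 → ‖c (q z) - z‖ ≤ ε := by
  classical
  obtain ⟨t, hts, htf, hcov⟩ := (isCompact_sphere (0 : ℂ) 1).finite_cover_balls hε
  have hne : t.Nonempty := by
    have h1 : (1 : ℂ) ∈ Metric.sphere (0 : ℂ) 1 := by simp
    have := hcov h1
    simp only [Set.mem_iUnion] at this
    obtain ⟨x, hx, _⟩ := this
    exact ⟨x, hx⟩
  set T : Finset ℂ := htf.toFinset with hT
  have hTne : T.Nonempty := by
    obtain ⟨x, hx⟩ := hne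
    exact ⟨x, htf.mem_toFinset.mpr hx⟩
  obtain ⟨m, hm⟩ : ∃ m, T.card = m + 1 := ⟨T.card - 1, by have := hTne.card_pos; omega⟩
  let eqv : Fin (m + 1) ≃ T := (finCongr hm.symm).trans T.equivFin.symm
  let c : Fin (m + 1) → ℂ := fun i => (eqv i : ℂ)
  have hc1 : ∀ i, ‖c i‖ = 1 := fun i => by
    have h1 : c i ∈ t := htf.mem_toFinset.mp (eqv i).2
    have h2 := hts h1
    simpa using h2
  let b : ℂ → (Fin (m + 1) → Bool) := fun z j => decide (‖c j - z‖ ≤ ε)
  have hb : Measurable b := by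
    refine measurable_pi_iff.mpr fun j => ?_
    refine measurable_to_bool ?_
    have : (fun z : ℂ => decide (‖c j - z‖ ≤ ε)) ⁻¹' {true} = {z | ‖c j - z‖ ≤ ε} := by
      ext z
      simp
    rw [this]
    exact measurableSet_le (by fun_prop) measurable_const
  let F : (Fin (m + 1) → Bool) → Fin (m + 1) := fun v =>
    if h : ∃ i, v i = true then h.choose else 0
  have hF : Measurable F := measurable_of_countable F
  refine ⟨m, fun z => F (b z), c, fun i => (hF.comp hb) (measurableSet_singleton i), hc1,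
    fun z hz => ?_⟩
  have hex : ∃ i, b z i = true := by
    have h1 : z ∈ Metric.sphere (0 : ℂ) 1 := by simpa using hz
    have h2 := hcov h1
    simp only [Set.mem_iUnion] at h2
    obtain ⟨x, hx, hxz⟩ := h2
    refine ⟨eqv.symm ⟨x, htf.mem_toFinset.mpr hx⟩, ?_⟩
    change decide (‖c _ - z‖ ≤ ε) = true
    rw [decide_eq_true_iff]
    have h3 : c (eqv.symm ⟨x, htf.mem_toFinset.mpr hx⟩) = x := by
      change ((eqv (eqv.symm ⟨x, _⟩) : T) : ℂ) = x
      rw [Equiv.apply_symm_apply]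
    rw [h3, ← dist_eq_norm, dist_comm]
    exact (Metric.mem_ball.mp hxz).le
  have h4 : F (b z) = hex.choose := dif_pos hex
  have h5 := hex.choose_spec
  rw [← h4] at h5
  exact of_decide_eq_true h5

private lemma qzt_pow {z w : ℂ} (hz : ‖z‖ = 1) (hw : ‖w‖ = 1) (n : ℕ) :
    ‖z ^ n - w ^ n‖ ≤ n * ‖z - w‖ := by
  induction n with
  | zero => simp
  | succ n ih =>
    have h1 : z ^ (n + 1) - w ^ (n + 1) = z * (z ^ n - w ^ n) + (z - w) * w ^ n := by ring
    rw [h1]
    refine (norm_add_le _ _).trans ?_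
    rw [norm_mul, norm_mul, norm_pow, hz, hw, one_pow, one_mul, mul_one]
    push_cast
    linarith

private lemma qzt_zpow {z w : ℂ} (hz : ‖z‖ = 1) (hw : ‖w‖ = 1) (k : ℤ) :
    ‖z ^ k - w ^ k‖ ≤ |(k : ℝ)| * ‖z - w‖ := by
  have hz0 : z ≠ 0 := by
    intro h
    rw [h] at hz
    simp at hz
  have hw0 : w ≠ 0 := by
    intro h
    rw [h] at hw
    simp at hw
  obtain ⟨n, rfl | rfl⟩ := k.eq_nat_or_neg
  · simpa using qzt_pow hz hw n
  · have h1 : z ^ (-(n : ℤ)) - w ^ (-(n : ℤ)) = (w ^ n - z ^ n) * (z ^ n)⁻¹ * (w ^ n)⁻¹ := by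
      rw [zpow_neg, zpow_neg, zpow_natCast, zpow_natCast]
      field_simp
    rw [h1, norm_mul, norm_mul, norm_inv, norm_inv, norm_pow, norm_pow, hz, hw, one_pow, inv_one,
      mul_one, mul_one, norm_sub_rev]
    simpa using qzt_pow hz hw n

theorem mon_close (a : ℤ →₀ ℤ) {z w : ℤ → ℂ} (hz : ∀ j, ‖z j‖ = 1) (hw : ∀ j, ‖w j‖ = 1) {ε : ℝ}
    (h : ∀ j, ‖z j - w j‖ ≤ ε) :
    ‖(a.prod fun j k => z j ^ k) - a.prod fun j k => w j ^ k‖ ≤
      (a.sum fun _ k => |(k : ℝ)|) * ε := by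
  classical
  unfold Finsupp.prod Finsupp.sum
  induction a.support using Finset.induction_on with
  | empty => simp
  | insert j s hj ih =>
    rw [Finset.prod_insert hj, Finset.prod_insert hj, Finset.sum_insert hj]
    set A := ∏ x ∈ s, z x ^ a x with hA
    set B := ∏ x ∈ s, w x ^ a x with hB
    have hA1 : ‖A‖ = 1 := by
      rw [hA, norm_prod]
      exact Finset.prod_eq_one fun x _ => by rw [norm_zpow, hz, one_zpow]
    have h1 : z j ^ a j * A - w j ^ a j * B = (z j ^ a j - w j ^ a j) * A + w j ^ a j * (A - B) := by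
      ring
    rw [h1]
    refine (norm_add_le _ _).trans ?_
    rw [norm_mul, norm_mul, hA1, norm_zpow, hw, one_zpow, mul_one, one_mul, add_mul]
    have h2 := qzt_zpow (hz j) (hw j) (a j)
    have h3 : |((a j : ℤ) : ℝ)| * ‖z j - w j‖ ≤ |((a j : ℤ) : ℝ)| * ε :=
      mul_le_mul_of_nonneg_left (h j) (abs_nonneg _)
    linarith

end FHE
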