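import Pool.Agent.FHE.LIA

/-! RDA (~200 lines): functions with many zeros at primes. `rda_lim`: expand
`∏_{p ∈ A} (1 - 1_{p ∣ n} + 1_{p² ∣ n}) = ∑_{j : A → Fin 3} ∏ c(j p) · 1_{∏ p^(j p) ∣ n}` (`c = 1, -1, 1`;
`Finset.prod_univ_sum`, the prime powers are coprime), `la_dvd` with `j = 0` for each term, refold.
`rda`: if `g p = 0` and `p ∣ n`, `¬ p² ∣ n` then `g n = 0`; so `‖g n‖` is at most the product, and
`∏ (1 - 1/p + 1/p²) ≤ exp (-∑ (1/p - 1/p²)) ≤ exp (-(1/2) ∑_{p ∈ A} 1/p)` is small for suitable `A`. -/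

open MeasureTheory Filter Topology
open scoped ComplexConjugate

namespace FHE

private noncomputable def rdaP (A : Finset ℕ) (n : ℕ) : ℝ :=
  ∏ p ∈ A, (1 - (if p ∣ n then 1 else 0) + (if p ^ 2 ∣ n then 1 else 0))

private theorem rda_lim_aux (A : Finset ℕ) (hA : ∀ p ∈ A, p.Prime) : ∀ q : ℕ, 1 ≤ q →
    (∀ p ∈ A, Nat.Coprime p q) →
    Tendsto (LA fun n => ((if q ∣ n then 1 else 0 : ℝ) : ℂ) * ((rdaP A n : ℝ) : ℂ)) atTop
      (𝓝 ((q : ℂ)⁻¹ * ((∏ p ∈ A, (1 - (p : ℝ)⁻¹ + ((p : ℝ) ^ 2)⁻¹) : ℝ) : ℂ))) := by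
  classical
  induction A using Finset.induction_on with
  | empty =>
    intro q hq _
    have h := la_dvd hq 0
    simp only [rdaP, Finset.prod_empty, Complex.ofReal_one, mul_one]
    refine h.congr fun N => ?_
    congr 1
    funext n
    have : ((q : ℤ) ∣ (n : ℤ) + 0) ↔ q ∣ n := by rw [add_zero, Int.natCast_dvd_natCast]
    by_cases hqn : q ∣ n
    · rw [if_pos (this.mpr hqn), if_pos hqn, Complex.ofReal_one]
    · rw [if_neg (fun h => hqn (this.mp h)), if_neg hqn, Complex.ofReal_zero]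
  | insert p A hp ih =>
    intro q hq hc
    have hpp : p.Prime := hA p (Finset.mem_insert_self _ _)
    have hA' : ∀ p ∈ A, p.Prime := fun r hr => hA r (Finset.mem_insert_of_mem hr)
    have hpq : Nat.Coprime p q := hc p (Finset.mem_insert_self _ _)
    have hcA : ∀ r ∈ A, Nat.Coprime r q := fun r hr => hc r (Finset.mem_insert_of_mem hr)
    have hrp : ∀ r ∈ A, Nat.Coprime r p := by
      intro r hr
      rw [Nat.coprime_primes (hA' r hr) hpp]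
      rintro rfl
      exact hp hr
    have t0 := ih hA' q hq hcA
    have t1 := ih hA' (q * p) (Nat.mul_pos hq hpp.pos)
      (fun r hr => Nat.Coprime.mul_right (hcA r hr) (hrp r hr))
    have t2 := ih hA' (q * p ^ 2) (Nat.mul_pos hq (pow_pos hpp.pos _))
      (fun r hr => Nat.Coprime.mul_right (hcA r hr) ((hrp r hr).pow_right 2))
    have t3 := (t0.add (t1.const_mul (-1 : ℂ))).add t2
    have hlim : (q : ℂ)⁻¹ * ((∏ r ∈ insert p A, (1 - (r : ℝ)⁻¹ + ((r : ℝ) ^ 2)⁻¹) : ℝ) : ℂ) =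
        (q : ℂ)⁻¹ * ((∏ r ∈ A, (1 - (r : ℝ)⁻¹ + ((r : ℝ) ^ 2)⁻¹) : ℝ) : ℂ) +
        (-1 : ℂ) * (((q * p : ℕ) : ℂ)⁻¹ *
          ((∏ r ∈ A, (1 - (r : ℝ)⁻¹ + ((r : ℝ) ^ 2)⁻¹) : ℝ) : ℂ)) +
        ((q * p ^ 2 : ℕ) : ℂ)⁻¹ * ((∏ r ∈ A, (1 - (r : ℝ)⁻¹ + ((r : ℝ) ^ 2)⁻¹) : ℝ) : ℂ) := by
      rw [Finset.prod_insert hp]
      generalize ∏ r ∈ A, (1 - (r : ℝ)⁻¹ + ((r : ℝ) ^ 2)⁻¹) = Q
      push_cast
      rw [mul_inv, mul_inv]
      ring
    rw [hlim]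
    refine t3.congr fun N => ?_
    rw [← la_smul, ← la_add, ← la_add]
    congr 1
    funext n
    have e0 : rdaP (insert p A) n =
        (1 - (if p ∣ n then 1 else 0) + (if p ^ 2 ∣ n then 1 else 0)) * rdaP A n := by
      unfold rdaP
      rw [Finset.prod_insert hp]
    have e1 : (q * p ∣ n) ↔ (q ∣ n ∧ p ∣ n) :=
      ⟨fun h => ⟨(dvd_mul_right _ _).trans h, (dvd_mul_left _ _).trans h⟩,
        fun h => Nat.Coprime.mul_dvd_of_dvd_of_dvd hpq.symm h.1 h.2⟩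
    have e2 : (q * p ^ 2 ∣ n) ↔ (q ∣ n ∧ p ^ 2 ∣ n) :=
      ⟨fun h => ⟨(dvd_mul_right _ _).trans h, (dvd_mul_left _ _).trans h⟩,
        fun h => Nat.Coprime.mul_dvd_of_dvd_of_dvd (hpq.symm.pow_right 2) h.1 h.2⟩
    rw [e0]
    by_cases hq1 : q ∣ n <;> by_cases hp1 : p ∣ n <;> by_cases hp2 : p ^ 2 ∣ n <;>
      simp [e1, e2, hq1, hp1, hp2] <;> ring

theorem rda_lim (A : Finset ℕ) (hA : ∀ p ∈ A, p.Prime) :
    Tendsto (LA fun n => ((∏ p ∈ A, (1 - (if p ∣ n then 1 else 0) +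
      (if p ^ 2 ∣ n then 1 else 0)) : ℝ) : ℂ)) atTop
      (𝓝 ((∏ p ∈ A, (1 - (p : ℝ)⁻¹ + ((p : ℝ) ^ 2)⁻¹) : ℝ) : ℂ)) := by
  have h := rda_lim_aux A hA 1 le_rfl (fun p _ => Nat.coprime_one_right p)
  rw [Nat.cast_one, inv_one, one_mul] at h
  refine h.congr fun N => ?_
  congr 1
  funext n
  rw [if_pos (one_dvd n), Complex.ofReal_one, one_mul]
  rfl

private theorem rda_prod_le (A : Finset ℕ) (hA : ∀ p ∈ A, p.Prime) :
    ∏ p ∈ A, (1 - (p : ℝ)⁻¹ + ((p : ℝ) ^ 2)⁻¹) ≤ Real.exp (-((∑ p ∈ A, (p : ℝ)⁻¹) / 2)) := by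
  rw [Finset.sum_div, ← Finset.sum_neg_distrib, Real.exp_sum]
  refine Finset.prod_le_prod ?_ ?_
  · intro p hp
    have h2 : (2 : ℝ) ≤ p := by exact_mod_cast (hA p hp).two_le
    have h3 : (p : ℝ)⁻¹ ≤ 1 := inv_le_one_of_one_le₀ (by linarith)
    have : (0 : ℝ) ≤ ((p : ℝ) ^ 2)⁻¹ := by positivity
    linarith
  · intro p hp
    have h2 : (2 : ℝ) ≤ p := by exact_mod_cast (hA p hp).two_le
    have h3 : (p : ℝ)⁻¹ ≤ 1 / 2 := by
      rw [inv_le_comm₀ (by linarith) (by norm_num)]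
      simpa using h2
    have h4 : (0 : ℝ) ≤ (p : ℝ)⁻¹ := by positivity
    have h5 : ((p : ℝ) ^ 2)⁻¹ = (p : ℝ)⁻¹ * (p : ℝ)⁻¹ := by rw [sq, mul_inv]
    have h6 : (p : ℝ)⁻¹ * (p : ℝ)⁻¹ ≤ (1 / 2) * (p : ℝ)⁻¹ := mul_le_mul_of_nonneg_right h3 h4
    have h7 := Real.add_one_le_exp (-((p : ℝ)⁻¹ / 2))
    rw [h5]
    linarith

theorem rda {g : ℕ → ℂ} (hg : ∀ n, g n = 0 ∨ ‖g n‖ = 1)
    (hgm : ∀ m n : ℕ, Nat.Coprime m n → g (m * n) = g m * g n)
    (h : ¬ Summable fun p : ℕ => if p.Prime ∧ g p = 0 then (p : ℝ)⁻¹ else 0) {F : ℕ → ℂ} {C : ℝ}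
    (hF : ∀ n, ‖F n‖ ≤ C) : Tendsto (LA fun n => g n * F n) atTop (𝓝 0) := by
  classical
  have hC : 0 ≤ C := (norm_nonneg _).trans (hF 0)
  have hdiv := (not_summable_iff_tendsto_nat_atTop_of_nonneg
    (f := fun p : ℕ => if p.Prime ∧ g p = 0 then (p : ℝ)⁻¹ else 0) (by
      intro p
      split_ifs
      · positivity
      · exact le_rfl)).mp h
  have hexp : Tendsto (fun N : ℕ => C * Real.exp (-((∑ p ∈ Finset.range N,
      if p.Prime ∧ g p = 0 then (p : ℝ)⁻¹ else 0) / 2))) atTop (𝓝 0) := by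
    have := (Real.tendsto_exp_neg_atTop_nhds_zero.comp
      (hdiv.atTop_div_const (by norm_num : (0 : ℝ) < 2))).const_mul C
    simpa using this
  rw [Metric.tendsto_atTop]
  intro ε hε
  obtain ⟨M, hM⟩ := (hexp.eventually (gt_mem_nhds hε)).exists
  set A : Finset ℕ := (Finset.range M).filter (fun p => p.Prime ∧ g p = 0) with hAdef
  have hA : ∀ p ∈ A, p.Prime := fun p hp => (Finset.mem_filter.mp hp).2.1
  have hA0 : ∀ p ∈ A, g p = 0 := fun p hp => (Finset.mem_filter.mp hp).2.2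
  have hlt : C * ∏ p ∈ A, (1 - (p : ℝ)⁻¹ + ((p : ℝ) ^ 2)⁻¹) < ε := by
    refine lt_of_le_of_lt (mul_le_mul_of_nonneg_left (rda_prod_le A hA) hC) ?_
    rw [hAdef, Finset.sum_filter]
    exact hM
  have hpt : ∀ n, 1 ≤ n → ‖g n * F n‖ ≤ C * ∏ p ∈ A, (1 - (if p ∣ n then 1 else 0) +
      (if p ^ 2 ∣ n then 1 else 0) : ℝ) := by
    intro n hn
    by_cases hex : ∃ p ∈ A, p ∣ n ∧ ¬ p ^ 2 ∣ n
    · obtain ⟨p, hp, hpn, hpn2⟩ := hex
      obtain ⟨m, rfl⟩ := hpn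
      have hcop : Nat.Coprime p m := by
        rw [(hA p hp).coprime_iff_not_dvd]
        intro hpm
        apply hpn2
        rw [sq]
        exact mul_dvd_mul_left p hpm
      rw [hgm p m hcop, hA0 p hp, zero_mul, zero_mul, norm_zero]
      refine mul_nonneg hC (Finset.prod_nonneg fun q _ => ?_)
      split_ifs <;> norm_num
    · have : ∏ p ∈ A, (1 - (if p ∣ n then 1 else 0) + (if p ^ 2 ∣ n then 1 else 0) : ℝ) = 1 := by
        refine Finset.prod_eq_one fun p hp => ?_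
        by_cases h1 : p ∣ n
        · have h2 : p ^ 2 ∣ n := by
            by_contra h2
            exact hex ⟨p, hp, h1, h2⟩
          rw [if_pos h1, if_pos h2]
          norm_num
        · have h2 : ¬ p ^ 2 ∣ n := fun h2 => h1 ((dvd_pow_self p two_ne_zero).trans h2)
          rw [if_neg h1, if_neg h2]
          norm_num
      rw [this, mul_one, norm_mul]
      have h3 : ‖g n‖ ≤ 1 := by
        rcases hg n with h3 | h3
        · rw [h3, norm_zero]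
          exact zero_le_one
        · exact h3.le
      calc ‖g n‖ * ‖F n‖ ≤ 1 * C := mul_le_mul h3 (hF n) (norm_nonneg _) zero_le_one
        _ = C := one_mul C
  have hlim := ((rda_lim A hA).const_mul (C : ℂ)).norm
  have hval : ‖(C : ℂ) * ((∏ p ∈ A, (1 - (p : ℝ)⁻¹ + ((p : ℝ) ^ 2)⁻¹) : ℝ) : ℂ)‖ < ε := by
    rw [← Complex.ofReal_mul, Complex.norm_real, Real.norm_eq_abs, abs_of_nonneg]
    · exact hlt
    · refine mul_nonneg hC (Finset.prod_nonneg fun p hp => ?_)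
      have h2 : (2 : ℝ) ≤ p := by exact_mod_cast (hA p hp).two_le
      have h3 : (p : ℝ)⁻¹ ≤ 1 := inv_le_one_of_one_le₀ (by linarith)
      have : (0 : ℝ) ≤ ((p : ℝ) ^ 2)⁻¹ := by positivity
      linarith
  obtain ⟨N₀, hN₀⟩ := eventually_atTop.mp (hlim.eventually (gt_mem_nhds hval))
  refine ⟨N₀, fun N hN => ?_⟩
  rw [dist_zero_right]
  refine lt_of_le_of_lt (la_norm_le _ _ hpt N) ?_
  refine lt_of_eq_of_lt ?_ (hN₀ N hN)
  rw [← la_smul]
  congr 2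
  funext n
  push_cast
  rfl

end FHE
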