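import Pool.Agent.FHE.LIA

/-! RDBA (~150 lines): factorisation of a unimodular-or-zero multiplicative function. All functions
are products over `n.factorization`; for coprime `m, n` use `Nat.factorization_mul_of_coprime` and
`Finsupp.prod_add_index_of_disjoint`. `rdba_g`: `g n = n.factorization.prod (fun p k => g (p^k))` for `n ≥ 1`
(`Nat.multiplicative_factorization`). `rdba_sum`: both sides are multiplicative; at `p^k` the sum
telescopes (e.g. `Nat.recOnPosPrimePosCoprime` and `Nat.Coprime.sum_divisors_mul`). -/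

open MeasureTheory Filter Topology
open scoped ComplexConjugate

namespace FHE

/-- the indicator of `g ≠ 0` -/
noncomputable def indg (g : ℕ → ℂ) (n : ℕ) : ℝ := if g n = 0 then 0 else 1

/-- a unimodular multiplicative function which agrees with `g` where `g ≠ 0` -/
noncomputable def g1f (g : ℕ → ℂ) (n : ℕ) : ℂ :=
  n.factorization.prod fun p k => if g (p ^ k) = 0 then 1 else g (p ^ k)

/-- the Möbius inverse of the indicator -/
noncomputable def lamf (g : ℕ → ℂ) (n : ℕ) : ℝ :=
  n.factorization.prod fun p k => indg g (p ^ k) - indg g (p ^ (k - 1))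

theorem g1f_norm {g : ℕ → ℂ} (hg : ∀ n, g n = 0 ∨ ‖g n‖ = 1) (n : ℕ) : ‖g1f g n‖ = 1 := by
  unfold g1f Finsupp.prod
  rw [norm_prod]
  refine Finset.prod_eq_one fun p _ => ?_
  beta_reduce
  split_ifs with h
  · simp
  · exact (hg _).resolve_left h

private theorem rdba_fac_mul {β : Type*} [CommMonoid β] (F : ℕ → ℕ → β) (m n : ℕ)
    (h : Nat.Coprime m n) :
    (m * n).factorization.prod F = m.factorization.prod F * n.factorization.prod F := by
  rw [Nat.factorization_mul_of_coprime h]
  refine Finsupp.prod_add_index_of_disjoint ?_ F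
  simpa using h.disjoint_primeFactors

theorem g1f_mul (g : ℕ → ℂ) (m n : ℕ) (h : Nat.Coprime m n) :
    g1f g (m * n) = g1f g m * g1f g n := rdba_fac_mul _ m n h

theorem lamf_mul (g : ℕ → ℂ) (m n : ℕ) (h : Nat.Coprime m n) :
    lamf g (m * n) = lamf g m * lamf g n := rdba_fac_mul _ m n h

theorem rdba_g {g : ℕ → ℂ} (hg1 : g 1 = 1)
    (hgm : ∀ m n : ℕ, Nat.Coprime m n → g (m * n) = g m * g n) {n : ℕ} (hn : 1 ≤ n) :
    g n = g1f g n * (indg g n : ℂ) := by
  have hfac : g n = n.factorization.prod fun p k => g (p ^ k) :=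
    Nat.multiplicative_factorization g hgm hg1 (by omega)
  by_cases h0 : g n = 0
  · simp [indg, h0]
  · have h1 : ∀ p ∈ n.factorization.support, g (p ^ n.factorization p) ≠ 0 := by
      intro p hp hz
      apply h0
      rw [hfac]
      exact Finset.prod_eq_zero hp hz
    have h2 : g1f g n = g n := by
      conv_rhs => rw [hfac]
      unfold g1f Finsupp.prod
      exact Finset.prod_congr rfl fun p hp => if_neg (h1 p hp)
    simp [indg, h0, h2]

private theorem lamf_one (g : ℕ → ℂ) : lamf g 1 = 1 := by simp [lamf]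

private theorem lamf_pow (g : ℕ → ℂ) {p : ℕ} (hp : p.Prime) (k : ℕ) (hk : k ≠ 0) :
    lamf g (p ^ k) = indg g (p ^ k) - indg g (p ^ (k - 1)) := by
  unfold lamf Finsupp.prod
  have h1 : (Finsupp.single p k).support = {p} := by
    ext x
    simp only [Finsupp.mem_support_iff, Finset.mem_singleton, Finsupp.single_apply]
    constructor
    · intro h
      by_contra h2
      exact h (if_neg fun h3 => h2 h3.symm)
    · rintro rfl
      simpa using hk
  rw [hp.factorization_pow, h1, Finset.prod_singleton, Finsupp.single_eq_same]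

theorem rdba_sum {g : ℕ → ℂ} (hg1 : g 1 = 1)
    (hgm : ∀ m n : ℕ, Nat.Coprime m n → g (m * n) = g m * g n) {n : ℕ} (hn : 1 ≤ n) :
    indg g n = ∑ d ∈ n.divisors, lamf g d := by
  set L : ArithmeticFunction ℝ := ⟨fun n => if n = 0 then 0 else lamf g n, by simp⟩ with hL
  set I : ArithmeticFunction ℝ := ⟨fun n => if n = 0 then 0 else indg g n, by simp⟩ with hI
  have hLa : ∀ n, L n = if n = 0 then 0 else lamf g n := fun n => rfl
  have hIa : ∀ n, I n = if n = 0 then 0 else indg g n := fun n => rfl
  have hLm : L.IsMultiplicative := by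
    rw [ArithmeticFunction.IsMultiplicative.iff_ne_zero]
    refine ⟨by simp [hLa, lamf_one], fun {m n} hm hn h => ?_⟩
    simp only [hLa, hm, hn, mul_eq_zero, or_self, if_false]
    exact lamf_mul g m n h
  have hIm : I.IsMultiplicative := by
    rw [ArithmeticFunction.IsMultiplicative.iff_ne_zero]
    refine ⟨by simp [hIa, indg, hg1], fun {m n} hm hn h => ?_⟩
    simp only [hIa, hm, hn, mul_eq_zero, or_self, if_false]
    unfold indg
    rw [hgm m n h]
    by_cases h1 : g m = 0 <;> by_cases h2 : g n = 0 <;> simp [h1, h2]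
  have key : I = L * (ArithmeticFunction.zeta : ArithmeticFunction ℝ) := by
    rw [ArithmeticFunction.IsMultiplicative.eq_iff_eq_on_prime_powers I hIm _
      (hLm.mul ArithmeticFunction.isMultiplicative_zeta.natCast)]
    intro p i hp
    rw [ArithmeticFunction.coe_mul_zeta_apply, Nat.sum_divisors_prime_pow hp]
    have hpi : ∀ i : ℕ, p ^ i ≠ 0 := fun i => pow_ne_zero _ hp.ne_zero
    simp only [hLa, hIa, hpi, if_false]
    induction i with
    | zero => simp [lamf_one, indg, hg1]
    | succ i ih =>
      rw [Finset.sum_range_succ, ← ih, lamf_pow g hp (i + 1) (by omega)]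
      simp
  have := congrArg (fun f : ArithmeticFunction ℝ => f n) key
  simp only [ArithmeticFunction.coe_mul_zeta_apply] at this
  rw [hIa, if_neg (by omega)] at this
  rw [this]
  refine Finset.sum_congr rfl fun d hd => ?_
  rw [hLa, if_neg (Nat.pos_of_mem_divisors hd).ne']

end FHE
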