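import Pool.Agent.FHE.SBG
import Pool.Agent.FHE.AVB

/-! SB (~120 lines): one prime. `∫ F · DD (π) = av (p H) d (h ↦ conj b_h ∫ F conj e_h(π) dls S h f (π))`
(`av_integral`), `= av p d (r ↦ av H d (h' ↦ ... mx p r h' ...))` (`av_mx`), so for some `r` of length `d`
(`norm_av_le`, `exists_av_le`) `‖∫ F · DD (π)‖ ≤ ‖av H d (h' ↦ ...)‖`; `sbf` (with `av_congr`), `bcs` on
`Ω × Y`, and `sbg` (`avb_mono`). `E c := bxp c (s ↦ e (mx p r s))`, `η c := bxp c (s ↦ β (mx p r s))`,
`E' c v := cj d (E c v)`, `η' c := cj d (η c)`. -/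

open MeasureTheory Filter Topology
open scoped ComplexConjugate

namespace FHE

variable {Y : Type} [MeasurableSpace Y] {S : Y → Y} {μ : Measure Y} {g : ℕ → ℂ}

private theorem sb_mul_av (z : ℂ) (H d : ℕ) (Q : List ℕ → ℂ) :
    z * av H d Q = av H d (fun t => z * Q t) := by
  induction d generalizing Q with
  | zero => rfl
  | succ d ih =>
    rw [av, av, mul_smul_comm, Finset.mul_sum]
    congr 1
    exact Finset.sum_congr rfl fun a _ => ih _

theorem sb (s : Sys S μ g) [IsProbabilityMeasure μ] (hS : MeasurePreserving S μ μ)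
    {F : s.Ω → ℂ} (hF : Bd F) {f : Y → ℂ} (hf : Bd f) {e : List ℕ → Y → ℂ} {β : List ℕ → ℂ}
    (he : ∀ h, IsEig S μ (β h) (e h)) {p H : ℕ} (hp : 1 ≤ p) (hH : 1 ≤ H) (d : ℕ) :
    ∃ (E E' : List (ℕ × ℕ) → Y → ℂ) (η η' : List (ℕ × ℕ) → ℂ),
      (∀ c, IsEig S μ (η c) (E c)) ∧ (∀ c, IsEig S μ (η' c) (E' c)) ∧
      (∀ c, η' c = η c ∨ η' c = conj (η c)) ∧
      ‖∫ ω, F ω * DD S μ f e (p * H) d (s.pi p ω) ∂s.ρ‖ ^ (2 ^ d) ≤
        avb (List.replicate d H) fun c =>
          ‖∫ ω, bxp c (fun t => F ((s.T.symm)^[t.sum] ω)) * conj (E c (s.pi p ω)) ∂s.ρ‖ *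
            ‖∫ v, bx (S^[p]) c f v * conj (E' c v) ∂μ‖ := by
  set Q : List ℕ → ℂ := fun h => conj (∫ w, dl S h f w * conj (e h w) ∂μ) *
    ∫ ω, F ω * (conj (e h (s.pi p ω)) * dls S h f (s.pi p ω)) ∂s.ρ with hQ
  have hπ : Measurable (s.pi p) := s.mpi p
  have hint : ∀ h : List ℕ, Integrable (fun ω => F ω *
      (conj (∫ w, dl S h f w * conj (e h w) ∂μ) *
        (conj (e h (s.pi p ω)) * dls S h f (s.pi p ω)))) s.ρ := by
    intro h
    have hdls := dls_bd hS.measurable h hf
    refine Integrable.of_bound (C := 1 * (‖∫ w, dl S h f w * conj (e h w) ∂μ‖ * (1 * 1)))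
      (hF.meas.mul (measurable_const.mul
        ((Complex.continuous_conj.measurable.comp ((he h).meas.comp hπ)).mul
          (hdls.meas.comp hπ)))).aestronglyMeasurable (Eventually.of_forall fun ω => ?_)
    rw [norm_mul, norm_mul, norm_mul, RCLike.norm_conj, RCLike.norm_conj, (he h).norm]
    refine mul_le_mul (hF.le _) ?_ (by positivity) (by norm_num)
    refine mul_le_mul_of_nonneg_left ?_ (norm_nonneg _)
    exact mul_le_mul_of_nonneg_left (hdls.le _) (by norm_num)
  have h1 : ∫ ω, F ω * DD S μ f e (p * H) d (s.pi p ω) ∂s.ρ = av (p * H) d Q := by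
    have h2 : ∀ ω, F ω * DD S μ f e (p * H) d (s.pi p ω) =
        av (p * H) d (fun h => F ω * (conj (∫ w, dl S h f w * conj (e h w) ∂μ) *
          (conj (e h (s.pi p ω)) * dls S h f (s.pi p ω)))) := by
      intro ω
      rw [DD, sb_mul_av]
    simp only [h2]
    rw [av_integral s.ρ (p * H) d (fun h ω => F ω * (conj (∫ w, dl S h f w * conj (e h w) ∂μ) *
          (conj (e h (s.pi p ω)) * dls S h f (s.pi p ω)))) fun h _ => hint h]
    refine av_congr _ _ fun h _ => ?_
    rw [hQ]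
    simp only
    rw [← integral_const_mul]
    refine integral_congr_ae (Eventually.of_forall fun ω => ?_)
    simp only
    ring
  obtain ⟨r, hr, -, hle⟩ := exists_av_le hp d fun r => ‖av H d (fun h => Q (mx p r h))‖
  have h2 : ‖∫ ω, F ω * DD S μ f e (p * H) d (s.pi p ω) ∂s.ρ‖ ≤
      ‖av H d (fun h => Q (mx p r h))‖ := by
    rw [h1, av_mx hp]
    exact (norm_av_le _ _ _).trans hle
  obtain ⟨G, hG, hGe⟩ := sbf s hS hF hf he hp r
  have h3 : av H d (fun h => Q (mx p r h)) =
      av H d (fun h' => ∫ z, Psi s F f e β p r h' z * G h' z ∂(s.ρ.prod μ)) :=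
    av_congr _ _ fun h' hh' => hGe h' (hh'.trans hr.symm)
  rw [hr] at hG
  have h4 := bcs (m := s.ρ.prod μ) hH d (Ψ := Psi s F f e β p r) (G := G)
    (fun t => Psi_bd s hS.measurable hF hf he p r t) hG
  have hE : ∀ c, IsEig S μ (bxp c fun t => β (mx p r t)) (fun v => bxp c fun t => e (mx p r t) v) :=
    fun c => IsEig.bxp (β := fun t => β (mx p r t)) (e := fun t => e (mx p r t))
      (fun t => he (mx p r t)) c
  refine ⟨fun c v => bxp c fun t => e (mx p r t) v,
    fun c v => cj d (bxp c fun t => e (mx p r t) v),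
    fun c => bxp c fun t => β (mx p r t), fun c => cj d (bxp c fun t => β (mx p r t)),
    hE, fun c => ?_, fun c => ?_, ?_⟩
  · by_cases hd : Even d
    · simp only [cj, if_pos hd]
      exact hE c
    · simp only [cj, if_neg hd]
      exact (hE c).conj
  · by_cases hd : Even d
    · left; simp only [cj, if_pos hd]
    · right; simp only [cj, if_neg hd]
  · calc _ ≤ ‖av H d (fun h => Q (mx p r h))‖ ^ (2 ^ d) :=
          pow_le_pow_left₀ (norm_nonneg _) h2 _
      _ ≤ avb (List.replicate d H)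
          (fun c => ‖∫ z, bxp c (fun t => Psi s F f e β p r t z) ∂(s.ρ.prod μ)‖) := by
          rw [h3]; exact h4
      _ ≤ _ := by
          refine avb_mono _ fun c _ => ?_
          have h5 := sbg s hS hF hf he p r c
          rw [hr] at h5
          exact h5

end FHE
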