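import Pool.Agent.FHE.SBV
import Pool.Agent.FHE.EIA

/-! SBF (~200 lines): for fixed residues `r` (`length d`), the average over `h'` is an average of
integrals over `Ω × Y`. With `h = mx p r h'`, `m = h'.sum`, `G₁` from `sbv`, `G₂` from `sbw`, put
`Ψ h' (ω, v) = F (T⁻^m ω) * β_h^(p m) * conj (e_h (π ω)) * conj (cj d (f (S^[|r| + p m] v))) * e_h v`,
`G h' (ω, v) = G₂ h' ω * conj (G₁ h' v)` (`Neg`, by `neg_comp`, `neg_mul`, `neg_conj`). Then
`∫ Ψ h' G h' = (∫ F (T⁻^m ω) β_h^(p m) conj e_h(π ω) dls S h f (π T⁻^m ω)) (∫ conj (dl S h f v) e_h v)`;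
since `e_h (π ω) = e_h (S^[p m] (π (T⁻^m ω))) = β_h^(p m) e_h (π (T⁻^m ω))` a.e. (`IsEig.iter` at
`π (T⁻^m ω)`, `pi_back`, `‖β_h‖ = 1`), the first integrand is `(F · conj e_h(π) · dls S h f (π)) ∘ T⁻^m` a.e.,
so the product is the term of `DD` (T⁻¹ preserves ρ). -/

open MeasureTheory Filter Topology
open scoped ComplexConjugate

namespace FHE

variable {Y : Type} [MeasurableSpace Y] {S : Y → Y} {μ : Measure Y} {g : ℕ → ℂ}

/-- the functions depending on all coordinates -/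
noncomputable def Psi (s : Sys S μ g) (F : s.Ω → ℂ) (f : Y → ℂ) (e : List ℕ → Y → ℂ)
    (β : List ℕ → ℂ) (p : ℕ) (r h' : List ℕ) (z : s.Ω × Y) : ℂ :=
  F ((s.T.symm)^[h'.sum] z.1) * (β (mx p r h') ^ (p * h'.sum) *
    (conj (e (mx p r h') (s.pi p z.1)) *
      (conj (cj r.length (f (S^[r.sum + p * h'.sum] z.2))) * e (mx p r h') z.2)))

private theorem sbf_mul {X : Type*} [MeasurableSpace X] {f g : X → ℂ} (hf : Bd f) (hg : Bd g) :
    Bd (fun v => f v * g v) :=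
  ⟨hf.meas.mul hg.meas, fun v => by
    rw [norm_mul]
    exact mul_le_one₀ (hf.le v) (norm_nonneg _) (hg.le v)⟩

private theorem sbf_conj {X : Type*} [MeasurableSpace X] {f : X → ℂ} (hf : Bd f) :
    Bd (fun v => conj (f v)) :=
  ⟨Complex.continuous_conj.measurable.comp hf.meas, fun v => by
    rw [Complex.norm_conj]
    exact hf.le v⟩

private theorem sbf_comp {X Z : Type*} [MeasurableSpace X] [MeasurableSpace Z] {f : X → ℂ}
    (hf : Bd f) {τ : Z → X} (hτ : Measurable τ) : Bd (fun z => f (τ z)) :=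
  ⟨hf.meas.comp hτ, fun _ => hf.le _⟩

private theorem sbf_const {X : Type*} [MeasurableSpace X] {z : ℂ} (hz : ‖z‖ ≤ 1) :
    Bd (fun _ : X => z) :=
  ⟨measurable_const, fun _ => hz⟩

private theorem sbf_cj {X : Type*} [MeasurableSpace X] {f : X → ℂ} (hf : Bd f) (d : ℕ) :
    Bd (fun v => cj d (f v)) := by
  unfold cj
  split_ifs
  · exact hf
  · exact sbf_conj hf

theorem Psi_bd (s : Sys S μ g) [IsProbabilityMeasure μ] (hS : Measurable S) {F : s.Ω → ℂ}
    (hF : Bd F) {f : Y → ℂ} (hf : Bd f) {e : List ℕ → Y → ℂ} {β : List ℕ → ℂ}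
    (he : ∀ h, IsEig S μ (β h) (e h)) (p : ℕ) (r h' : List ℕ) : Bd (Psi s F f e β p r h') := by
  unfold Psi
  refine sbf_mul (sbf_comp (τ := fun z : s.Ω × Y => (s.T.symm)^[h'.sum] z.1) hF
    ((s.mTs.iterate _).comp measurable_fst)) ?_
  refine sbf_mul (sbf_const ?_) ?_
  · rw [norm_pow, (he _).norm_eq, one_pow]
  · refine sbf_mul (sbf_conj (sbf_comp (τ := fun z : s.Ω × Y => s.pi p z.1) (he _).bd
      ((s.mpi p).comp measurable_fst))) ?_
    refine sbf_mul (sbf_conj (sbf_cj (sbf_comp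
      (τ := fun z : s.Ω × Y => S^[r.sum + p * h'.sum] z.2) hf
      ((hS.iterate _).comp measurable_snd)) _)) ?_
    exact sbf_comp (τ := fun z : s.Ω × Y => z.2) (he _).bd measurable_snd

private theorem sbf_back (s : Sys S μ g) (m : ℕ) :
    MeasurePreserving ((s.T.symm)^[m]) s.ρ s.ρ := by
  have h1 : MeasurePreserving (s.T.symm) s.ρ s.ρ := by
    have h2 : MeasurePreserving ((⟨s.T, s.mT, s.mTs⟩ : s.Ω ≃ᵐ s.Ω)) s.ρ s.ρ := s.mp
    exact h2.symm
  exact h1.iterate m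

theorem sbf (s : Sys S μ g) [IsProbabilityMeasure μ] (hS : MeasurePreserving S μ μ)
    {F : s.Ω → ℂ} (hF : Bd F) {f : Y → ℂ} (hf : Bd f) {e : List ℕ → Y → ℂ} {β : List ℕ → ℂ}
    (he : ∀ h, IsEig S μ (β h) (e h)) {p : ℕ} (hp : 1 ≤ p) (r : List ℕ) :
    ∃ G : List ℕ → s.Ω × Y → ℂ, Neg r.length G ∧ ∀ h' : List ℕ, h'.length = r.length →
      conj (∫ w, dl S (mx p r h') f w * conj (e (mx p r h') w) ∂μ) *
        ∫ ω, F ω * (conj (e (mx p r h') (s.pi p ω)) * dls S (mx p r h') f (s.pi p ω)) ∂s.ρ =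
      ∫ z, Psi s F f e β p r h' z * G h' z ∂(s.ρ.prod μ) := by
  obtain ⟨G₁, hN₁, hG₁⟩ := sbv hS.measurable p hf r
  obtain ⟨G₂, hN₂, hG₂⟩ := sbw s hS.measurable p hf r
  refine ⟨fun h' z => G₂ h' z.1 * conj (G₁ h' z.2),
    neg_mul (neg_comp hN₂ measurable_fst) (neg_conj (neg_comp hN₁ measurable_snd)), ?_⟩
  intro h' hh'
  set h := mx p r h' with hh
  set m := h'.sum with hm
  -- the integrand as a product
  have h1 : ∀ z : s.Ω × Y, Psi s F f e β p r h' z * (G₂ h' z.1 * conj (G₁ h' z.2)) =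
      (F ((s.T.symm)^[m] z.1) * (β h ^ (p * m) * (conj (e h (s.pi p z.1)) * G₂ h' z.1))) *
        (conj (dl S h f z.2) * e h z.2) := by
    intro z
    rw [hG₁ h' hh' z.2, map_mul]
    unfold Psi
    ring
  simp only [h1]
  rw [integral_prod_mul (fun ω => F ((s.T.symm)^[m] ω) * (β h ^ (p * m) *
    (conj (e h (s.pi p ω)) * G₂ h' ω))) (fun v => conj (dl S h f v) * e h v)]
  -- the second factor
  have h2 : ∫ v, conj (dl S h f v) * e h v ∂μ =
      conj (∫ w, dl S h f w * conj (e h w) ∂μ) := by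
    rw [← integral_conj]
    refine integral_congr_ae (Eventually.of_forall fun v => ?_)
    simp only [map_mul, Complex.conj_conj]
  rw [h2, mul_comm]
  congr 1
  -- the first factor
  set Φ : s.Ω → ℂ := fun ω => F ω * (conj (e h (s.pi p ω)) * dls S h f (s.pi p ω)) with hΦ
  have hΦm : Measurable Φ := by
    have hb : Bd Φ := sbf_mul hF (sbf_mul (sbf_conj (sbf_comp (he h).bd (s.mpi p)))
      (sbf_comp (dls_bd hS.measurable h hf) (s.mpi p)))
    exact hb.meas
  have hTm := sbf_back s m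
  have h3 : ∫ ω, Φ ω ∂s.ρ = ∫ ω, Φ ((s.T.symm)^[m] ω) ∂s.ρ := by
    conv_lhs => rw [← hTm.map_eq]
    exact integral_map hTm.measurable.aemeasurable hΦm.aestronglyMeasurable
  rw [h3]
  have hit := (he h).iter hS (p * m)
  have hpm : MeasurePreserving (fun ω => s.pi p ((s.T.symm)^[m] ω)) s.ρ μ :=
    (s.law p hp).comp hTm
  have hit' := hpm.quasiMeasurePreserving.ae hit
  refine integral_congr_ae ?_
  filter_upwards [hit'] with ω hω
  have h4 : S^[p * m] (s.pi p ((s.T.symm)^[m] ω)) = s.pi p ω := by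
    have := pi_back s p 0 m ω
    simpa using this
  rw [h4] at hω
  have h5 : G₂ h' ω = dls S h f (s.pi p ((s.T.symm)^[m] ω)) := (hG₂ h' hh' ω).symm
  have h6 : β h ^ (p * m) * conj (β h ^ (p * m)) = 1 := by
    rw [Complex.mul_conj, Complex.normSq_eq_norm_sq, norm_pow, (he h).norm_eq]
    simp
  simp only [hΦ]
  rw [h5, hω, map_mul]
  linear_combination (-(F ((s.T.symm)^[m] ω) * (conj (e h (s.pi p ((s.T.symm)^[m] ω))) *
    dls S h f (s.pi p ((s.T.symm)^[m] ω))))) * h6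

end FHE
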