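import Pool.Agent.FHE.SBF

/-! SBG (~150 lines): the box product of `Psi`. By `bxp_mul`, `bxp_conj`, `bx_pow_eq_bxp`
(`S^[|r| + p |s|] v = S^[p |s|] (S^[|r|] v)`), with `E := bxp c (s ↦ e (mx p r s))`,
`η := bxp c (s ↦ β (mx p r s))`:
`bxp c (s ↦ Psi .. s (ω, v)) = bxp c (s ↦ F (T⁻^|s| ω)) * (a constant of modulus ≤ 1) * conj (E (π ω)) *
conj (cj d (bx (S^[p]) c f (S^[|r|] v))) * E v` (`cj` commutes with `bxp`). Integrate
(`integral_prod_mul`). For the `v` integral: `E v = conj η^|r| E (S^[|r|] v)` a.e., so by invariance its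
norm is `‖∫ conj (cj d (bx (S^[p]) c f v)) E v‖`, which is the norm of `∫ bx (S^[p]) c f v conj (E' v)`
with `E' = E` for even `d`, `E' = conj E` for odd `d`. -/

open MeasureTheory Filter Topology
open scoped ComplexConjugate

namespace FHE

variable {Y : Type} [MeasurableSpace Y] {S : Y → Y} {μ : Measure Y} {g : ℕ → ℂ}

private theorem sbg_cj (d : ℕ) (c : List (ℕ × ℕ)) (Ψ : List ℕ → ℂ) :
    bxp c (fun t => conj (cj d (Ψ t))) = conj (cj d (bxp c Ψ)) := by
  rw [bxp_conj]
  congr 1
  unfold cj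
  split_ifs
  · rfl
  · rw [bxp_conj]

theorem sbg (s : Sys S μ g) [IsProbabilityMeasure μ] (hS : MeasurePreserving S μ μ)
    {F : s.Ω → ℂ} (hF : Bd F) {f : Y → ℂ} (hf : Bd f) {e : List ℕ → Y → ℂ} {β : List ℕ → ℂ}
    (he : ∀ h, IsEig S μ (β h) (e h)) (p : ℕ) (r : List ℕ) (c : List (ℕ × ℕ)) :
    ‖∫ z, bxp c (fun t => Psi s F f e β p r t z) ∂(s.ρ.prod μ)‖ ≤
      ‖∫ ω, bxp c (fun t => F ((s.T.symm)^[t.sum] ω)) *
          conj (bxp c fun t => e (mx p r t) (s.pi p ω)) ∂s.ρ‖ *
        ‖∫ v, bx (S^[p]) c f v *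
          conj (cj r.length (bxp c fun t => e (mx p r t) v)) ∂μ‖ := by
  set K : ℂ := bxp c (fun t => β (mx p r t) ^ (p * t.sum)) with hK
  set E : Y → ℂ := fun v => bxp c fun t => e (mx p r t) v with hE
  set Bx : Y → ℂ := bx (S^[p]) c f with hBx
  have hEig : IsEig S μ (bxp c fun t => β (mx p r t)) E :=
    IsEig.bxp (β := fun t => β (mx p r t)) (e := fun t => e (mx p r t)) (fun t => he _) c
  have hKn : ‖K‖ = 1 := bxp_norm_eq c _ fun t => by rw [norm_pow, (he _).norm_eq, one_pow]
  have hBb : Bd Bx := bx_bd (hS.measurable.iterate p) c hf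
  -- the integrand
  have h1 : ∀ z : s.Ω × Y, bxp c (fun t => Psi s F f e β p r t z) =
      (K * (bxp c (fun t => F ((s.T.symm)^[t.sum] z.1)) * conj (E (s.pi p z.1)))) *
        (conj (cj r.length (Bx (S^[r.sum] z.2))) * E z.2) := by
    intro z
    unfold Psi
    rw [bxp_mul, bxp_mul, bxp_mul, bxp_mul, bxp_conj, sbg_cj]
    have h2 : (bxp c fun t => f (S^[r.sum + p * t.sum] z.2)) = Bx (S^[r.sum] z.2) := by
      rw [hBx, bx_pow_eq_bxp]
      congr 1
      funext t
      rw [Nat.add_comm, Function.iterate_add_apply]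
    rw [h2]
    ring
  simp only [h1]
  rw [integral_prod_mul (fun ω => K * (bxp c (fun t => F ((s.T.symm)^[t.sum] ω)) *
    conj (E (s.pi p ω)))) (fun v => conj (cj r.length (Bx (S^[r.sum] v))) * E v), norm_mul]
  rw [integral_const_mul, norm_mul, hKn, one_mul]
  refine mul_le_mul_of_nonneg_left (le_of_eq ?_) (norm_nonneg _)
  -- the second factor
  set η : ℂ := bxp c fun t => β (mx p r t) with hη
  have hηn : ‖η‖ = 1 := hEig.norm_eq
  have hit := hEig.iter hS r.sum
  have hR := hS.iterate r.sum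
  set Φ : Y → ℂ := fun v => conj (cj r.length (Bx v)) * E v with hΦ
  have hΦm : Measurable Φ := by
    have h3 : Measurable fun v => conj (cj r.length (Bx v)) := by
      refine Complex.continuous_conj.measurable.comp ?_
      unfold cj
      split_ifs
      · exact hBb.meas
      · exact Complex.continuous_conj.measurable.comp hBb.meas
    exact h3.mul hEig.meas
  have h3 : ∫ v, conj (cj r.length (Bx (S^[r.sum] v))) * E v ∂μ =
      conj (η ^ r.sum) * ∫ v, Φ v ∂μ := by
    have h4 : ∫ v, Φ v ∂μ = ∫ v, Φ (S^[r.sum] v) ∂μ := by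
      conv_lhs => rw [← hR.map_eq]
      exact integral_map hR.measurable.aemeasurable hΦm.aestronglyMeasurable
    rw [h4, ← integral_const_mul]
    refine integral_congr_ae ?_
    filter_upwards [hit] with v hv
    simp only [hΦ]
    rw [hv]
    have h5 : conj (η ^ r.sum) * η ^ r.sum = 1 := by
      rw [mul_comm, Complex.mul_conj, Complex.normSq_eq_norm_sq, norm_pow, hηn]
      simp
    linear_combination (-(conj (cj r.length (Bx (S^[r.sum] v))) * E v)) * h5
  rw [h3, norm_mul, Complex.norm_conj, norm_pow, hηn, one_pow, one_mul]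
  by_cases hd : Even r.length
  · have h6 : ∫ v, Φ v ∂μ = conj (∫ v, Bx v * conj (cj r.length (E v)) ∂μ) := by
      rw [← integral_conj]
      refine integral_congr_ae (Eventually.of_forall fun v => ?_)
      simp only [hΦ, cj, if_pos hd, map_mul, Complex.conj_conj]
    rw [h6, Complex.norm_conj]
  · have h6 : ∫ v, Φ v ∂μ = ∫ v, Bx v * conj (cj r.length (E v)) ∂μ := by
      refine integral_congr_ae (Eventually.of_forall fun v => ?_)
      simp only [hΦ, cj, if_neg hd, Complex.conj_conj]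
    rw [h6]

end FHE
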