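import Pool.Agent.FHE.NEG
import Pool.Agent.FHE.ALD

/-! SBV (~120 lines): the derivative along `r + p h` as a function which misses a coordinate times the
last vertex. `sbv`: induction on `r` (generalizing nothing but with `neg_comp`, `neg_conj`): for
`r = i :: r'` and `h' = j :: h''`, `dl S ((i + p j) :: t) f v = dl S t f v * conj (dl S t f (S^[i + p j] v))`
(`dl_cons`, `t = mx p r' h''`); the first factor does not depend on `j` (it is `B h'' v`); the second one is
`conj (cj r'.length (f (S^[r'.sum + p * h''.sum] (S^[i + p j] v))) * G' h'' (S^[i + p j] v))`. So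
`G (j :: t) v := dl S (mx p r' t) f v * conj (G' t (S^[i + p * j] v))`.
`sbw`: induction on `r`; for `r = i :: r'`, `h' = j :: h''` and `ω' := T⁻^(j + |h''|) ω`:
`dls S ((i + p j) :: t) f (π ω') = dls S t f (π ω') * conj (dl S t f (S^[i] (S^[p j] (π ω'))))` and
`S^[p j] (π (T⁻^(j + |h''|) ω)) = π (T⁻^|h''| ω)` (`pi_back`), independent of `j`; the first factor is the
induction hypothesis at the point `T⁻^j ω`. -/

open MeasureTheory Filter Topology
open scoped ComplexConjugate

namespace FHE

variable {Y : Type} [MeasurableSpace Y] {S : Y → Y} {μ : Measure Y} {g : ℕ → ℂ}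

private theorem sbv_cj (d : ℕ) (z : ℂ) : conj (cj d z) = cj (d + 1) z := by
  unfold cj
  by_cases h : Even d
  · have h1 : ¬ Even (d + 1) := by
      rw [Nat.not_even_iff_odd]
      exact h.add_one
    rw [if_pos h, if_neg h1]
  · have h1 : Even (d + 1) := by
      rw [Nat.not_even_iff_odd] at h
      exact h.add_one
    rw [if_neg h, if_pos h1, Complex.conj_conj]

theorem sbv (hS : Measurable S) (p : ℕ) {f : Y → ℂ} (hf : Bd f) (r : List ℕ) :
    ∃ G : List ℕ → Y → ℂ, Neg r.length G ∧ ∀ h' : List ℕ, h'.length = r.length → ∀ v,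
      dl S (mx p r h') f v = cj r.length (f (S^[r.sum + p * h'.sum] v)) * G h' v := by
  induction r with
  | nil =>
    refine ⟨fun _ _ => 1, fun _ => rfl, ?_⟩
    intro h' hh v
    rw [List.length_nil, List.length_eq_zero_iff] at hh
    subst hh
    simp [mx, dl, cj]
  | cons i r ih =>
    obtain ⟨G', hG', hf'⟩ := ih
    refine ⟨fun l v => match l with
      | [] => 1
      | j :: t => dl S (mx p r t) f v * conj (G' t (S^[i + p * j] v)), ?_, ?_⟩
    · refine ⟨fun t v => dl S (mx p r t) f v, fun j t v => conj (G' t (S^[i + p * j] v)),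
        fun t _ => dl_bd hS _ hf, fun j => neg_conj (neg_comp hG' (hS.iterate _)), ?_⟩
      intro a t x _
      rfl
    · intro h' hh v
      cases h' with
      | nil => simp at hh
      | cons j t =>
        have ht : t.length = r.length := by simpa using hh
        have h1 : mx p (i :: r) (j :: t) = (i + p * j) :: mx p r t := rfl
        rw [h1, dl_cons, hf' t ht (S^[i + p * j] v), map_mul, sbv_cj, List.length_cons,
          ← Function.iterate_add_apply, List.sum_cons, List.sum_cons]
        have h2 : r.sum + p * t.sum + (i + p * j) = i + r.sum + p * (j + t.sum) := by ring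
        rw [h2]
        simp only
        ring

/-- going back `m + n` steps and then forward `n` steps -/
theorem pi_back (s : Sys S μ g) (p m n : ℕ) (ω : s.Ω) :
    S^[p * n] (s.pi p ((s.T.symm)^[n + m] ω)) = s.pi p ((s.T.symm)^[m] ω) := by
  induction n with
  | zero => simp
  | succ n ih =>
    have h1 : n + 1 + m = (n + m) + 1 := by ring
    rw [h1, Function.iterate_succ_apply', Nat.mul_succ, Function.iterate_add_apply, ← s.piT,
      Equiv.apply_symm_apply, ih]

theorem sbw (s : Sys S μ g) (hS : Measurable S) (p : ℕ) {f : Y → ℂ} (hf : Bd f) (r : List ℕ) :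
    ∃ G : List ℕ → s.Ω → ℂ, Neg r.length G ∧ ∀ h' : List ℕ, h'.length = r.length → ∀ ω,
      dls S (mx p r h') f (s.pi p ((s.T.symm)^[h'.sum] ω)) = G h' ω := by
  induction r with
  | nil =>
    refine ⟨fun _ _ => 1, fun _ => rfl, ?_⟩
    intro h' hh v
    rw [List.length_nil, List.length_eq_zero_iff] at hh
    subst hh
    simp [mx, dls]
  | cons i r ih =>
    obtain ⟨G', hG', hf'⟩ := ih
    refine ⟨fun l ω => match l with
      | [] => 1
      | j :: t => conj (dl S (mx p r t) f (S^[i] (s.pi p ((s.T.symm)^[t.sum] ω)))) *
          G' t ((s.T.symm)^[j] ω), ?_, ?_⟩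
    · refine ⟨fun t ω => conj (dl S (mx p r t) f (S^[i] (s.pi p ((s.T.symm)^[t.sum] ω)))),
        fun j t ω => G' t ((s.T.symm)^[j] ω), fun t _ => ?_,
        fun j => neg_comp hG' (s.mTs.iterate _), ?_⟩
      · have h1 : Bd (dl S (mx p r t) f) := dl_bd hS _ hf
        refine ⟨?_, fun ω => ?_⟩
        · exact Complex.continuous_conj.measurable.comp (h1.meas.comp ((hS.iterate i).comp
            ((s.mpi p).comp (s.mTs.iterate _))))
        · rw [RCLike.norm_conj]
          exact h1.le _
      · intro a t x _
        rfl
    · intro h' hh ω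
      cases h' with
      | nil => simp at hh
      | cons j t =>
        have ht : t.length = r.length := by simpa using hh
        have h1 : mx p (i :: r) (j :: t) = (i + p * j) :: mx p r t := rfl
        have h2 : dls S ((i + p * j) :: mx p r t) f
            (s.pi p ((s.T.symm)^[(j :: t).sum] ω)) =
            dls S (mx p r t) f (s.pi p ((s.T.symm)^[(j :: t).sum] ω)) *
            conj (dl S (mx p r t) f (S^[i + p * j] (s.pi p ((s.T.symm)^[(j :: t).sum] ω)))) := rfl
        rw [h1, h2, List.sum_cons, Function.iterate_add_apply S i (p * j), pi_back,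
          Nat.add_comm j t.sum, Function.iterate_add_apply, hf' t ht]
        simp only
        ring

end FHE
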