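import Pool.Agent.FHE.SCA

/-! SC (~100 lines): `Cnt s f d τ P M`. For `p ∈ A`, `E p ∘ pi p` is an eigenfunction of `T` with
eigenvalue `η p ^ p` (`IsEig.factor`), so by `card_eig` the numbers `η p ^ p`, `p ∈ A`, take at most
`τ⁻²` values `θ`; `θ ≠ 1` by `torsion_free`. For each `θ` split `{p ∈ A | η p ^ p = θ}` into the `p` with
`η' p = η p` and those with `η' p = conj (η p)` and apply `sca` (with `ε' = ε τ² / 2`, `θ` or `conj θ`). -/

open MeasureTheory Filter Topology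
open scoped ComplexConjugate

namespace FHE

variable {Y : Type} [MeasurableSpace Y] {S : Y → Y} {μ : Measure Y} {g : ℕ → ℂ}

/-- at most `M` numbers of `[P, 4 P)` are exceptional -/
def Cnt (s : Sys S μ g) (f : Y → ℂ) (d : ℕ) (τ : ℝ) (P : ℕ) (M : ℝ) : Prop :=
  ∀ c : List (ℕ × ℕ), c.length = d → ∀ G : s.Ω → ℂ, Bd G → ∀ A : Finset ℕ,
    (∀ p ∈ A, P ≤ p ∧ p < 4 * P) → ∀ (E E' : ℕ → Y → ℂ) (η η' : ℕ → ℂ),
    (∀ p ∈ A, IsEig S μ (η p) (E p) ∧ IsEig S μ (η' p) (E' p) ∧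
      (η' p = η p ∨ η' p = conj (η p)) ∧ η p ≠ 1 ∧
      τ ≤ ‖∫ ω, G ω * conj (E p (s.pi p ω)) ∂s.ρ‖ ∧
      τ ≤ ‖∫ v, bx (S^[p]) c f v * conj (E' p v) ∂μ‖) →
    (A.card : ℝ) ≤ M

theorem sc (s : Sys S μ g) [IsProbabilityMeasure μ]
    (hE : ∀ k : ℕ, 1 ≤ k → Ergodic (S^[k]) μ) {f : Y → ℂ} (hf : Bd f) (d : ℕ) {τ ε : ℝ}
    (hτ : 0 < τ) (hε : 0 < ε) :
    ∃ i₀ : ℕ, ∀ i ≥ i₀, Cnt s f d τ (4 ^ i) (ε * (4 ^ i / ((i : ℝ) + 1) ^ 2)) := by
  classical
  have hε' : 0 < ε * τ ^ 2 / 2 := by positivity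
  obtain ⟨i₀, hi₀⟩ := sca s hE hf d hτ hε'
  refine ⟨i₀, fun i hi => ?_⟩
  intro c hc G hG A hA E E' η η' hall
  have hS : MeasurePreserving S μ μ := by
    have h1 := (hE 1 le_rfl).toMeasurePreserving
    rwa [Function.iterate_one] at h1
  have hp1 : ∀ p ∈ A, 1 ≤ p := fun p hp => (Nat.one_le_pow i 4 (by norm_num)).trans (hA p hp).1
  obtain ⟨K, hK⟩ : ∃ K : ℝ, K = 4 ^ i / ((i : ℝ) + 1) ^ 2 := ⟨_, rfl⟩
  have hK0 : 0 ≤ K := by rw [hK]; positivity
  have hcard := card_eig (T := s.T) s.mp A (β := fun p => η p ^ p)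
    (e := fun p ω => E p (s.pi p ω))
    (fun p hp => (hall p hp).1.factor hS (s.law p (hp1 p hp)) (fun ω => s.piT p ω)) hG hτ.le
    (fun p hp => (hall p hp).2.2.2.2.1)
  have hfib : ∀ θ ∈ A.image (fun p => η p ^ p),
      ((A.filter fun p => η p ^ p = θ).card : ℝ) ≤ ε * τ ^ 2 * K := by
    intro θ hθ
    obtain ⟨p₀, hp₀, hpθ⟩ := Finset.mem_image.1 hθ
    have hθ1 : θ ≠ 1 := by
      intro h
      exact (hall p₀ hp₀).2.2.2.1 (torsion_free hE (hall p₀ hp₀).1 (hp1 p₀ hp₀) (hpθ.trans h))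
    have hθ2 : conj θ ≠ 1 := by
      intro h
      apply hθ1
      have := congrArg conj h
      simpa using this
    have h1 := hi₀ i hi c hc (A.filter fun p => η p ^ p = θ ∧ η' p = η p)
      (fun p hp => hA p (Finset.mem_filter.1 hp).1) E' η' θ hθ1 (by
        intro p hp
        obtain ⟨hp1, hp2, hp3⟩ := Finset.mem_filter.1 hp
        exact ⟨(hall p hp1).2.1, by rw [hp3]; exact hp2, (hall p hp1).2.2.2.2.2⟩)
    have h2 := hi₀ i hi c hc (A.filter fun p => η p ^ p = θ ∧ η' p = conj (η p))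
      (fun p hp => hA p (Finset.mem_filter.1 hp).1) E' η' (conj θ) hθ2 (by
        intro p hp
        obtain ⟨hp1, hp2, hp3⟩ := Finset.mem_filter.1 hp
        exact ⟨(hall p hp1).2.1, by rw [hp3, ← map_pow, hp2], (hall p hp1).2.2.2.2.2⟩)
    rw [← hK] at h1 h2
    have h3 : (A.filter fun p => η p ^ p = θ) ⊆
        (A.filter fun p => η p ^ p = θ ∧ η' p = η p) ∪
        (A.filter fun p => η p ^ p = θ ∧ η' p = conj (η p)) := by
      intro p hp
      obtain ⟨hp1, hp2⟩ := Finset.mem_filter.1 hp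
      rcases (hall p hp1).2.2.1 with h | h
      · exact Finset.mem_union_left _ (Finset.mem_filter.2 ⟨hp1, hp2, h⟩)
      · exact Finset.mem_union_right _ (Finset.mem_filter.2 ⟨hp1, hp2, h⟩)
    have h4 : ((A.filter fun p => η p ^ p = θ).card : ℝ) ≤
        ((A.filter fun p => η p ^ p = θ ∧ η' p = η p).card : ℝ) +
        ((A.filter fun p => η p ^ p = θ ∧ η' p = conj (η p)).card : ℝ) := by
      exact_mod_cast (Finset.card_le_card h3).trans (Finset.card_union_le _ _)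
    linarith
  have hsum : (A.card : ℝ) = ∑ θ ∈ A.image (fun p => η p ^ p),
      ((A.filter fun p => η p ^ p = θ).card : ℝ) := by
    have := Finset.card_eq_sum_card_image (fun p => η p ^ p) A
    exact_mod_cast this
  rw [← hK, hsum]
  calc ∑ θ ∈ A.image (fun p => η p ^ p), ((A.filter fun p => η p ^ p = θ).card : ℝ)
      ≤ ∑ _θ ∈ A.image (fun p => η p ^ p), ε * τ ^ 2 * K := Finset.sum_le_sum hfib
    _ = (((A.image fun p => η p ^ p).card : ℕ) : ℝ) * τ ^ 2 * (ε * K) := by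
        rw [Finset.sum_const, nsmul_eq_mul]
        ring
    _ ≤ 1 * (ε * K) := mul_le_mul_of_nonneg_right hcard (by positivity)
    _ = ε * K := one_mul _

end FHE
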