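import Pool.Agent.FHE.PCS
import Pool.Agent.FHE.ALB

/-! SCA (~130 lines): the number of `p` for which the box product for `S^p` correlates with an
eigenfunction whose eigenvalue `η` satisfies `η^p = θ`. If `A` is empty there is nothing to prove. `θ` has
infinite order: if `θ^k = 1` then `η p ^ (p k) = 1`, so `η p = 1` (`torsion_free`), so `θ = 1`.
`Inj t A η` by `pib` (`t = 2^d - 1`), `inj_conj`. With `q = pi 1` (law `μ`) and the list `L` of `bx_list`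
(length `2^d = t + 1`), `∫ bx (S^[p]) c f · conj (E p) dμ = ∫ pl T L' p · conj (E p (q ω)) dρ`,
`L' = L.map (fun gc => (gc.1 ∘ q, gc.2))` (`q (T^(p k) ω) = S^[p k] (q ω)`), and `conj (E p ∘ q)` is
an eigenfunction of `T` (`IsEig.factor` with `p = 1`). `pcs`: `(card A * τ / P)^(2^t) ≤ C / √P`; for
`P = 4^i` this is `C / 2^i`, which beats any power of `i`. -/

open MeasureTheory Filter Topology
open scoped ComplexConjugate

namespace FHE

variable {Y : Type} [MeasurableSpace Y] {S : Y → Y} {μ : Measure Y} {g : ℕ → ℂ}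

private theorem sca_iter (s : Sys S μ g) (k : ℕ) (ω : s.Ω) :
    s.pi 1 ((s.T ^ (k : ℤ)) ω) = S^[k] (s.pi 1 ω) := by
  induction k with
  | zero => simp
  | succ k ih =>
    have h1 : (s.T ^ ((k + 1 : ℕ) : ℤ)) ω = s.T ((s.T ^ (k : ℤ)) ω) := by
      rw [zpow_natCast, zpow_natCast, pow_succ', Equiv.Perm.mul_apply]
    rw [h1, s.piT, ih, Function.iterate_one, Function.iterate_succ_apply']

private theorem sca_ev (C τ ε : ℝ) (hτ : 0 < τ) (hε : 0 < ε) (k : ℕ) :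
    ∃ i₀ : ℕ, ∀ i ≥ i₀, C / 2 ^ i < (ε * τ / ((i : ℝ) + 1) ^ 2) ^ k := by
  have h1 := (tendsto_pow_const_div_const_pow_of_one_lt (2 * k) (r := (2 : ℝ)) (by norm_num)).comp
    (tendsto_add_atTop_nat 1)
  have h2 : Tendsto (fun i : ℕ => (C * 2) * (((i + 1 : ℕ) : ℝ) ^ (2 * k) / 2 ^ (i + 1))) atTop
      (𝓝 ((C * 2) * 0)) := h1.const_mul _
  rw [mul_zero] at h2
  have h3 : (0 : ℝ) < (ε * τ) ^ k := by positivity
  obtain ⟨i₀, hi₀⟩ := (h2.eventually (gt_mem_nhds h3)).exists_forall_of_atTop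
  refine ⟨i₀, fun i hi => ?_⟩
  have h4 := hi₀ i hi
  have h5 : (0 : ℝ) < ((i : ℝ) + 1) ^ (2 * k) := by positivity
  have h6 : (C * 2) * (((i + 1 : ℕ) : ℝ) ^ (2 * k) / 2 ^ (i + 1))
      = (C / 2 ^ i) * ((i : ℝ) + 1) ^ (2 * k) := by
    push_cast
    rw [pow_succ]
    field_simp
  rw [h6] at h4
  rw [div_pow, ← pow_mul, lt_div_iff₀ h5]
  exact h4

theorem sca (s : Sys S μ g) [IsProbabilityMeasure μ]
    (hE : ∀ k : ℕ, 1 ≤ k → Ergodic (S^[k]) μ) {f : Y → ℂ} (hf : Bd f) (d : ℕ) {τ ε : ℝ}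
    (hτ : 0 < τ) (hε : 0 < ε) :
    ∃ i₀ : ℕ, ∀ i ≥ i₀, ∀ c : List (ℕ × ℕ), c.length = d → ∀ A : Finset ℕ,
      (∀ p ∈ A, 4 ^ i ≤ p ∧ p < 4 * 4 ^ i) → ∀ (E : ℕ → Y → ℂ) (η : ℕ → ℂ) (θ : ℂ), θ ≠ 1 →
      (∀ p ∈ A, IsEig S μ (η p) (E p) ∧ η p ^ p = θ ∧
        τ ≤ ‖∫ v, bx (S^[p]) c f v * conj (E p v) ∂μ‖) →
      (A.card : ℝ) ≤ ε * (4 ^ i / ((i : ℝ) + 1) ^ 2) := by
  obtain ⟨C, hC, hpcs⟩ := pcs (2 ^ d - 1)
  obtain ⟨i₀, hi₀⟩ := sca_ev C τ ε hτ hε (2 ^ (2 ^ d - 1))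
  refine ⟨i₀, fun i hi c hc A hA E η θ hθ h => ?_⟩
  rcases A.eq_empty_or_nonempty with hAe | ⟨p₀, hp₀⟩
  · subst hAe
    simp only [Finset.card_empty, Nat.cast_zero]
    positivity
  by_contra hcon
  rw [not_le] at hcon
  have hS1 : Ergodic S μ := by simpa using hE 1 le_rfl
  have hSmp : MeasurePreserving S μ μ := hS1.toMeasurePreserving
  have hpos : ∀ p ∈ A, 1 ≤ p := fun p hp => le_trans (Nat.one_le_pow _ _ (by norm_num)) (hA p hp).1
  have hθ1 : ‖θ‖ = 1 := by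
    rw [← (h p₀ hp₀).2.1, norm_pow, (h p₀ hp₀).1.norm_eq, one_pow]
  have hinf : ∀ k : ℕ, 1 ≤ k → θ ^ k ≠ 1 := by
    intro k hk hk1
    have h1 : η p₀ ^ (p₀ * k) = 1 := by rw [pow_mul, (h p₀ hp₀).2.1, hk1]
    have h2 := torsion_free hE (h p₀ hp₀).1 (Nat.mul_pos (hpos p₀ hp₀) hk) h1
    apply hθ
    rw [← (h p₀ hp₀).2.1, h2, one_pow]
  have hinj : Inj (2 ^ d - 1) A (fun n => conj (η n)) :=
    inj_conj (pib hθ1 hinf _ A η fun n hn => ⟨hpos n hn, (h n hn).1.norm_eq, (h n hn).2.1⟩)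
  obtain ⟨L, hLlen, hLbd, hLprod⟩ := bx_list hSmp.measurable c hf
  let L' : List ((s.Ω → ℂ) × ℤ) := L.map fun gc => (fun ω => gc.1 (s.pi 1 ω), (gc.2 : ℤ))
  have hL'len : L'.length = 2 ^ d - 1 + 1 := by
    have : 1 ≤ 2 ^ d := Nat.one_le_two_pow
    simp only [L', List.length_map, hLlen, hc]
    omega
  have hL'bd : ∀ gc ∈ L', Bd gc.1 := by
    intro gc hgc
    obtain ⟨gc', hgc', rfl⟩ := List.mem_map.mp hgc
    exact ⟨(hLbd gc' hgc').meas.comp (s.mpi 1), fun v => (hLbd gc' hgc').le _⟩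
  have hfac : ∀ p ∈ A, IsEig s.T s.ρ (conj (η p)) (fun ω => conj (E p (s.pi 1 ω))) := by
    intro p hp
    have h1 := IsEig.factor (T := s.T) hSmp (s.law 1 le_rfl) (p := 1) (fun ω => s.piT 1 ω)
      (h p hp).1
    rw [pow_one] at h1
    exact h1.conj
  have hint : ∀ p ∈ A, ∫ v, bx (S^[p]) c f v * conj (E p v) ∂μ
      = ∫ ω, pl s.T L' p ω * conj (E p (s.pi 1 ω)) ∂s.ρ := by
    intro p hp
    have hm : Measurable fun v => bx (S^[p]) c f v * conj (E p v) :=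
      (bx_bd (hSmp.measurable.iterate p) c hf).meas.mul
        (Complex.continuous_conj.measurable.comp (h p hp).1.meas)
    have h1 : ∫ v, bx (S^[p]) c f v * conj (E p v) ∂μ
        = ∫ ω, bx (S^[p]) c f (s.pi 1 ω) * conj (E p (s.pi 1 ω)) ∂s.ρ := by
      conv_lhs => rw [← (s.law 1 le_rfl).map_eq]
      rw [integral_map (s.mpi 1).aemeasurable hm.aestronglyMeasurable]
    rw [h1]
    congr 1
    funext ω
    congr 1
    rw [hLprod]
    simp only [pl, L', List.map_map]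
    congr 1
    apply List.map_congr_left
    intro gc _
    simp only [Function.comp]
    have : (p : ℤ) * (gc.2 : ℤ) = ((p * gc.2 : ℕ) : ℤ) := by push_cast; rfl
    rw [this, sca_iter]
  have key := hpcs s.Ω s.ρ s.T s.mp s.mTs L' hL'len hL'bd (4 ^ i) (Nat.one_le_pow _ _ (by norm_num))
    A (fun n hn => (hA n hn).2) _ _ hfac hinj
  have h4 : Real.sqrt ((4 ^ i : ℕ) : ℝ) = 2 ^ i := by
    have : (((4 ^ i : ℕ) : ℝ)) = ((2 : ℝ) ^ i) ^ 2 := by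
      push_cast
      rw [← pow_mul, mul_comm i 2, pow_mul]
      norm_num
    rw [this, Real.sqrt_sq (by positivity)]
  rw [h4] at key
  have h5 : (A.card : ℝ) * τ ≤ ∑ n ∈ A, ‖∫ ω, pl s.T L' n ω * conj (E n (s.pi 1 ω)) ∂s.ρ‖ := by
    rw [← nsmul_eq_mul]
    apply Finset.card_nsmul_le_sum
    intro p hp
    rw [← hint p hp]
    exact (h p hp).2.2
  have h6 := hi₀ i hi
  have h7 : ε * τ / ((i : ℝ) + 1) ^ 2 ≤
      (∑ n ∈ A, ‖∫ ω, pl s.T L' n ω * conj (E n (s.pi 1 ω)) ∂s.ρ‖) / ((4 ^ i : ℕ) : ℝ) := by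
    push_cast
    rw [le_div_iff₀ (by positivity)]
    refine le_trans ?_ h5
    have h8 := mul_le_mul_of_nonneg_right hcon.le hτ.le
    refine le_trans (le_of_eq ?_) h8
    ring
  have h9 := pow_le_pow_left₀ (by positivity) h7 (2 ^ (2 ^ d - 1))
  linarith

end FHE
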