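import Pool.Agent.FHE.ALD
import Pool.Agent.FHE.AVB
import Pool.Agent.FHE.ALN
import Pool.Agent.FHE.EIA

/-! SSA (~120 lines): `dd_bd`: the terms of `DD` have norm `≤ 1` (`norm_av_le`; `e h` is `Bd`), measurable by
induction. `dd_int`: `f v * DD v = av H d (h ↦ conj b_h * (conj (e h v) * dl S h f v))` (`dl_eq`), integrate
(`av_integral`): `av H d (h ↦ conj b_h * b_h)`. `null_part`: `(avb Q)² ≤ avb Q²` (`avb_pow`),
`‖∫ bx (S^[p]) c f‖ = ‖∫ dl S (p · (c.map df)) f‖` (`norm_int_bx` for `S^[p]`, `dl_pow`), `avb_df_le`,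
`av_dilate`, and the hypothesis along `p H → ∞`. -/

open MeasureTheory Filter Topology
open scoped ComplexConjugate

namespace FHE

theorem SSA_av_meas {X : Type*} [MeasurableSpace X] (H d : ℕ) (Q : List ℕ → X → ℂ)
    (h : ∀ t, Measurable (Q t)) : Measurable fun x => av H d (fun t => Q t x) := by
  induction d generalizing Q with
  | zero => exact h []
  | succ d ih =>
    change Measurable fun x => (H : ℝ)⁻¹ • ∑ a ∈ Finset.range H, av H d (fun t => Q (a :: t) x)
    have h1 : Measurable fun x => ∑ a ∈ Finset.range H, av H d (fun t => Q (a :: t) x) :=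
      Finset.measurable_sum _ fun a _ => ih (fun t => Q (a :: t)) fun t => h (a :: t)
    exact h1.const_smul ((H : ℝ)⁻¹)

theorem SSA_mul_left (H d : ℕ) (z : ℂ) (Q : List ℕ → ℂ) :
    z * av H d Q = av H d (fun t => z * Q t) := by
  induction d generalizing Q with
  | zero => rfl
  | succ d ih =>
    change z * ((H : ℝ)⁻¹ • ∑ a ∈ Finset.range H, av H d (fun t => Q (a :: t))) =
      (H : ℝ)⁻¹ • ∑ a ∈ Finset.range H, av H d (fun t => z * Q (a :: t))
    rw [mul_smul_comm, Finset.mul_sum]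
    congr 1
    exact Finset.sum_congr rfl fun a _ => ih fun t => Q (a :: t)

theorem SSA_cast (H d : ℕ) (Q : List ℕ → ℝ) :
    av H d (fun t => ((Q t : ℝ) : ℂ)) = ((av H d Q : ℝ) : ℂ) := by
  induction d generalizing Q with
  | zero => rfl
  | succ d ih =>
    change (H : ℝ)⁻¹ • ∑ a ∈ Finset.range H, av H d (fun t => ((Q (a :: t) : ℝ) : ℂ)) =
      (((H : ℝ)⁻¹ • ∑ a ∈ Finset.range H, av H d (fun t => Q (a :: t)) : ℝ) : ℂ)
    rw [Finset.sum_congr rfl fun a _ => ih fun t => Q (a :: t)]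
    rw [Complex.real_smul, smul_eq_mul]
    push_cast
    rfl

variable {Y : Type*} [MeasurableSpace Y] {μ : Measure Y} [IsProbabilityMeasure μ] {S : Y → Y}

theorem SSA_int_le {F : Y → ℂ} (hF : ∀ v, ‖F v‖ ≤ 1) : ‖∫ v, F v ∂μ‖ ≤ 1 := by
  have h := norm_integral_le_of_norm_le_const (μ := μ) (f := F) (C := 1)
    (Eventually.of_forall hF)
  simpa using h

theorem dd_bd (hS : Measurable S) {f : Y → ℂ} (hf : Bd f) {e : List ℕ → Y → ℂ}
    {β : List ℕ → ℂ} (he : ∀ h, IsEig S μ (β h) (e h)) {H : ℕ} (hH : 1 ≤ H) (d : ℕ) :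
    Bd (DD S μ f e H d) := by
  refine ⟨?_, fun v => ?_⟩
  · refine SSA_av_meas H d (fun h v => conj (∫ w, dl S h f w * conj (e h w) ∂μ) *
      (conj (e h v) * dls S h f v)) fun t => ?_
    exact (measurable_const).mul
      ((Complex.continuous_conj.measurable.comp (he t).meas).mul (dls_bd hS t hf).meas)
  · unfold DD
    refine (norm_av_le _ _ _).trans ?_
    rw [← av_const hH d (1 : ℝ)]
    refine av_mono _ _ fun t _ _ => ?_
    rw [norm_mul, norm_mul, RCLike.norm_conj, RCLike.norm_conj, (he t).norm, one_mul]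
    refine mul_le_one₀ ?_ (norm_nonneg _) ((dls_bd hS t hf).le v)
    refine SSA_int_le fun w => ?_
    rw [norm_mul, RCLike.norm_conj, (he t).norm, mul_one]
    exact (dl_bd hS t hf).le w

theorem dd_int (hS : Measurable S) {f : Y → ℂ} (hf : Bd f) {e : List ℕ → Y → ℂ}
    {β : List ℕ → ℂ} (he : ∀ h, IsEig S μ (β h) (e h)) {H : ℕ} (hH : 1 ≤ H) (d : ℕ) :
    ∫ v, f v * DD S μ f e H d v ∂μ =
      ((av H d (fun h => ‖∫ w, dl S h f w * conj (e h w) ∂μ‖ ^ 2) : ℝ) : ℂ) := by
  have h1 : ∀ v, f v * DD S μ f e H d v =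
      av H d (fun h => conj (∫ w, dl S h f w * conj (e h w) ∂μ) *
        (dl S h f v * conj (e h v))) := by
    intro v
    unfold DD
    rw [SSA_mul_left]
    congr 1
    funext h
    rw [dl_eq S h f v]
    ring
  simp_rw [h1]
  have hint : ∀ t : List ℕ, Integrable (fun v => dl S t f v * conj (e t v)) μ := by
    intro t
    refine Integrable.of_bound (C := 1) ?_ ?_
    · exact ((dl_bd hS t hf).meas.mul
        (Complex.continuous_conj.measurable.comp (he t).meas)).aestronglyMeasurable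
    · refine Eventually.of_forall fun w => ?_
      rw [norm_mul, RCLike.norm_conj, (he t).norm, mul_one]
      exact (dl_bd hS t hf).le w
  rw [av_integral μ H d (fun h v => conj (∫ w, dl S h f w * conj (e h w) ∂μ) *
        (dl S h f v * conj (e h v))) fun t _ => (hint t).const_mul _, ← SSA_cast]
  congr 1
  funext t
  rw [integral_const_mul, mul_comm, Complex.mul_conj, Complex.normSq_eq_norm_sq]

theorem null_part (hS : MeasurePreserving S μ μ) {f : Y → ℂ} (hf : Bd f) {d : ℕ}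
    (hN : NN S μ d f) {p : ℕ} (hp : 1 ≤ p) :
    Tendsto (fun H : ℕ => avb (List.replicate d H) fun c => ‖∫ v, bx (S^[p]) c f v ∂μ‖)
      atTop (𝓝 0) := by
  have hN' : Tendsto (fun H : ℕ => av (p * H) d (fun h => ‖∫ v, dl S h f v ∂μ‖ ^ 2))
      atTop (𝓝 (0 : ℝ)) := by
    refine Tendsto.comp (f := fun H : ℕ => p * H) hN ?_
    exact tendsto_atTop_mono (fun H => Nat.le_mul_of_pos_left H (by omega)) tendsto_id
  have hlim : Tendsto (fun H : ℕ => Real.sqrt (2 ^ d * ((p : ℝ) ^ d *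
      av (p * H) d (fun h => ‖∫ v, dl S h f v ∂μ‖ ^ 2)))) atTop (𝓝 0) := by
    have h1 := (hN'.const_mul ((p : ℝ) ^ d)).const_mul ((2 : ℝ) ^ d)
    have h2 := h1.sqrt
    simpa using h2
  refine squeeze_zero' ?_ ?_ hlim
  · exact Eventually.of_forall fun H => avb_nonneg _ fun c _ => norm_nonneg _
  · filter_upwards [eventually_ge_atTop 1] with H hH
    apply Real.le_sqrt_of_sq_le
    refine (avb_pow (List.replicate d H) (fun K hK => ?_) 2 fun c => norm_nonneg _).trans ?_
    · rw [List.eq_of_mem_replicate hK]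
      exact hH
    have e1 : avb (List.replicate d H) (fun c => ‖∫ v, bx (S^[p]) c f v ∂μ‖ ^ 2) =
        avb (List.replicate d H) (fun c =>
          (fun t : List ℕ => ‖∫ v, dl (S^[p]) t f v ∂μ‖ ^ 2) (c.map df)) := by
      refine avb_congr _ fun c _ => ?_
      rw [norm_int_bx (hS.iterate p) c hf.meas]
    rw [e1]
    refine (avb_df_le hH d (Q := fun t : List ℕ => ‖∫ v, dl (S^[p]) t f v ∂μ‖ ^ 2)
      fun t => sq_nonneg _).trans ?_
    refine mul_le_mul_of_nonneg_left ?_ (by positivity)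
    have e2 : av H d (fun t : List ℕ => ‖∫ v, dl (S^[p]) t f v ∂μ‖ ^ 2) =
        av H d (fun t : List ℕ =>
          (fun h : List ℕ => ‖∫ v, dl S h f v ∂μ‖ ^ 2) (t.map fun a => p * a)) := by
      refine av_congr _ _ fun t _ => ?_
      rw [dl_pow]
    rw [e2]
    exact av_dilate hp d (Q := fun h : List ℕ => ‖∫ v, dl S h f v ∂μ‖ ^ 2) fun t => sq_nonneg _

end FHE
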