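import Pool.Agent.FHE.SB
import Pool.Agent.FHE.SC
import Pool.Agent.FHE.SSA

/-! SSB (~150 lines): one block of primes. For each `p ∈ Pr P` take `E_p, E'_p, η_p, η'_p` from `sb` (with
`H / p`, note `p * (H / p) = H`), enlarge the boxes from `H / p ≤ H / P` to `H / P ≤ 4 (H / p)`
(`avb_le_range`: factor `4^(2d)`), sum over `p` (`avb_sum`). For each box `c` (with
`X_p = ‖∫ bxp c .. conj (E_p c (π_p))‖`, `Y_p = ‖∫ bx (S^[p]) c f conj (E'_p c)‖`, both `≤ 1`):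
`X_p Y_p ≤ τ` if one of them is `< τ`; if both are `≥ τ` and `η_p c = 1` then `E'_p c` is a.e. a
constant of modulus one (`eig_const`, `η' = 1`) and `X_p Y_p ≤ ‖∫ bx (S^[p]) c f‖`; the remaining `p` are at
most `M` by `Cnt`. -/

open MeasureTheory Filter Topology
open scoped ComplexConjugate

namespace FHE

variable {Y : Type} [MeasurableSpace Y] {S : Y → Y} {μ : Measure Y} {g : ℕ → ℂ}

theorem SSB_prod_le {a b τ : ℝ} (ha : 0 ≤ a) (ha1 : a ≤ 1) (hb : 0 ≤ b) (hb1 : b ≤ 1)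
    (h : a < τ ∨ b < τ) : a * b ≤ τ := by
  rcases h with h | h
  · nlinarith
  · nlinarith

/-- the sum over the primes of one block for one box -/
theorem SSB_box {A : Finset ℕ} {X Z : ℕ → ℝ} {W : ℕ → ℝ} {τ M : ℝ} (hτ : 0 ≤ τ)
    (hX0 : ∀ p ∈ A, 0 ≤ X p) (hX1 : ∀ p ∈ A, X p ≤ 1) (hZ0 : ∀ p ∈ A, 0 ≤ Z p)
    (hZ1 : ∀ p ∈ A, Z p ≤ 1) (hW0 : ∀ p ∈ A, 0 ≤ W p) (C : ℕ → Prop) [DecidablePred C]
    (hC : ∀ p ∈ A, ¬ C p → Z p = W p)
    (hM : ((A.filter fun p => C p ∧ τ ≤ X p ∧ τ ≤ Z p).card : ℝ) ≤ M) :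
    ∑ p ∈ A, X p * Z p ≤ τ * A.card + M + ∑ p ∈ A, W p := by
  have h1 : ∀ p ∈ A, X p * Z p ≤ τ + W p +
      (if C p ∧ τ ≤ X p ∧ τ ≤ Z p then (1 : ℝ) else 0) := by
    intro p hp
    have hw := hW0 p hp
    have hxz : X p * Z p ≤ 1 := mul_le_one₀ (hX1 p hp) (hZ0 p hp) (hZ1 p hp)
    split_ifs with hc
    · linarith
    · by_cases hcp : C p
      · have h2 : X p < τ ∨ Z p < τ := by
          by_contra h3
          push Not at h3
          exact hc ⟨hcp, h3.1, h3.2⟩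
        have := SSB_prod_le (hX0 p hp) (hX1 p hp) (hZ0 p hp) (hZ1 p hp) h2
        linarith
      · have h2 := hC p hp hcp
        have h3 : X p * Z p ≤ 1 * Z p := mul_le_mul_of_nonneg_right (hX1 p hp) (hZ0 p hp)
        rw [h2] at h3 ⊢
        linarith
  refine (Finset.sum_le_sum h1).trans ?_
  rw [Finset.sum_add_distrib, Finset.sum_add_distrib, Finset.sum_const, nsmul_eq_mul,
    Finset.sum_ite, Finset.sum_const_zero, add_zero, Finset.sum_const, nsmul_eq_mul, mul_one]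
  rw [mul_comm]
  linarith

theorem ssb (s : Sys S μ g) [IsProbabilityMeasure μ] (hS : Ergodic S μ) {F : s.Ω → ℂ} (hF : Bd F)
    {f : Y → ℂ} (hf : Bd f) {e : List ℕ → Y → ℂ} {β : List ℕ → ℂ}
    (he : ∀ h, IsEig S μ (β h) (e h)) (d : ℕ) {τ M : ℝ} (hτ : 0 ≤ τ) {P H : ℕ} (hP : 1 ≤ P)
    (hH : 1 ≤ H) (hPH : P ∣ H) (hpH : ∀ p ∈ Pr P, p ∣ H) (hM : Cnt s f d τ P M) :
    ∑ p ∈ Pr P, ‖∫ ω, F ω * DD S μ f e H d (s.pi p ω) ∂s.ρ‖ ^ (2 ^ d) ≤
      4 ^ (2 * d) * (τ * (Pr P).card + M + ∑ p ∈ Pr P,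
        avb (List.replicate d (H / P)) fun c => ‖∫ v, bx (S^[p]) c f v ∂μ‖) := by
  classical
  have hpr : ∀ p ∈ Pr P, P ≤ p ∧ p < 4 * P ∧ p.Prime := by
    intro p hp
    simp only [Pr, Finset.mem_filter, Finset.mem_Ico] at hp
    exact ⟨hp.1.1, hp.1.2, hp.2⟩
  have hsb : ∀ p ∈ Pr P, ∃ (E E' : List (ℕ × ℕ) → Y → ℂ) (η η' : List (ℕ × ℕ) → ℂ),
      (∀ c, IsEig S μ (η c) (E c)) ∧ (∀ c, IsEig S μ (η' c) (E' c)) ∧
      (∀ c, η' c = η c ∨ η' c = conj (η c)) ∧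
      ‖∫ ω, F ω * DD S μ f e H d (s.pi p ω) ∂s.ρ‖ ^ (2 ^ d) ≤
        avb (List.replicate d (H / p)) fun c =>
          ‖∫ ω, bxp c (fun t => F ((s.T.symm)^[t.sum] ω)) * conj (E c (s.pi p ω)) ∂s.ρ‖ *
            ‖∫ v, bx (S^[p]) c f v * conj (E' c v) ∂μ‖ := by
    intro p hp
    obtain ⟨h1, h2, h3⟩ := hpr p hp
    have h4 : 1 ≤ H / p := Nat.div_pos (Nat.le_of_dvd (by omega) (hpH p hp)) h3.pos
    obtain ⟨E, E', η, η', k1, k2, k3, k4⟩ := sb s hS.toMeasurePreserving hF hf he h3.one_lt.le h4 d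
    rw [Nat.mul_div_cancel' (hpH p hp)] at k4
    exact ⟨E, E', η, η', k1, k2, k3, k4⟩
  choose! E E' η η' k1 k2 k3 k4 using hsb
  have hHP : 1 ≤ H / P := Nat.div_pos (Nat.le_of_dvd (by omega) hPH) (by omega)
  -- enlarge the boxes
  have hstep : ∀ p ∈ Pr P, ‖∫ ω, F ω * DD S μ f e H d (s.pi p ω) ∂s.ρ‖ ^ (2 ^ d) ≤
      4 ^ (2 * d) * avb (List.replicate d (H / P)) fun c =>
        ‖∫ ω, bxp c (fun t => F ((s.T.symm)^[t.sum] ω)) * conj (E p c (s.pi p ω)) ∂s.ρ‖ *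
          ‖∫ v, bx (S^[p]) c f v * conj (E' p c v) ∂μ‖ := by
    intro p hp
    obtain ⟨h1, h2, h3⟩ := hpr p hp
    have h4 : 1 ≤ H / p := Nat.div_pos (Nat.le_of_dvd (by omega) (hpH p hp)) h3.pos
    refine (k4 p hp).trans ?_
    have h5 : H / p ≤ H / P := Nat.div_le_div_left h1 (by omega)
    refine (avb_le_range h4 h5 d fun c => by positivity).trans ?_
    have hnn : 0 ≤ avb (List.replicate d (H / P)) fun c =>
        ‖∫ ω, bxp c (fun t => F ((s.T.symm)^[t.sum] ω)) * conj (E p c (s.pi p ω)) ∂s.ρ‖ *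
          ‖∫ v, bx (S^[p]) c f v * conj (E' p c v) ∂μ‖ :=
      avb_nonneg _ fun c _ => by positivity
    refine mul_le_mul_of_nonneg_right ?_ hnn
    refine pow_le_pow_left₀ (by positivity) ?_ _
    have h6 : (0 : ℝ) < ((H / p : ℕ) : ℝ) := by exact_mod_cast h4
    rw [div_le_iff₀ h6]
    have h7 : H / P ≤ 4 * (H / p) := by
      obtain ⟨a, ha⟩ := hpH p hp
      obtain ⟨b, hb⟩ := hPH
      have e1 : H / p = a := by rw [ha]; exact Nat.mul_div_cancel_left a h3.pos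
      have e2 : H / P = b := by rw [hb]; exact Nat.mul_div_cancel_left b (by omega)
      rw [e1, e2]
      have h8 : P * b = p * a := by rw [← ha, ← hb]
      have h9 : P * b ≤ P * (4 * a) := by
        rw [h8]
        nlinarith
      exact Nat.le_of_mul_le_mul_left h9 (by omega)
    exact_mod_cast h7
  refine (Finset.sum_le_sum hstep).trans ?_
  rw [← Finset.mul_sum]
  refine mul_le_mul_of_nonneg_left ?_ (by positivity)
  rw [avb_sum]
  -- one box
  have hbox : avb (List.replicate d (H / P)) (fun c => ∑ p ∈ Pr P,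
      ‖∫ ω, bxp c (fun t => F ((s.T.symm)^[t.sum] ω)) * conj (E p c (s.pi p ω)) ∂s.ρ‖ *
          ‖∫ v, bx (S^[p]) c f v * conj (E' p c v) ∂μ‖) ≤
      avb (List.replicate d (H / P)) (fun c => (τ * (Pr P).card + M) +
        ∑ p ∈ Pr P, ‖∫ v, bx (S^[p]) c f v ∂μ‖) := by
    refine avb_mono _ fun c hc => ?_
    have hlen : c.length = d := by
      have := hc.length_eq
      rwa [List.length_replicate] at this
    have hG : Bd (fun ω => bxp c (fun t => F ((s.T.symm)^[t.sum] ω))) :=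
      ⟨bxp_meas c (fun t ω => F ((s.T.symm)^[t.sum] ω)) fun t =>
        hF.meas.comp (s.mTs.iterate _), fun ω => bxp_norm_le c _ fun t => hF.le _⟩
    have hmul : ∀ {a b : ℂ}, ‖a‖ ≤ 1 → ‖b‖ ≤ 1 → ‖a * conj b‖ ≤ 1 := by
      intro a b ha hb
      rw [norm_mul, RCLike.norm_conj]
      exact mul_le_one₀ ha (norm_nonneg _) hb
    refine SSB_box (C := fun p => η p c ≠ 1) hτ (fun p _ => norm_nonneg _) (fun p hp => ?_)
      (fun p _ => norm_nonneg _) (fun p hp => ?_) (fun p _ => norm_nonneg _) (fun p hp hcp => ?_) ?_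
    · exact SSA_int_le fun ω => hmul (hG.le ω) ((k1 p hp c).norm _).le
    · exact SSA_int_le fun v => hmul ((bx_bd (hS.measurable.iterate p) c hf).le v)
        ((k2 p hp c).norm _).le
    · push Not at hcp
      have h1 : η' p c = 1 := by
        rcases k3 p hp c with h | h
        · rw [h, hcp]
        · rw [h, hcp, map_one]
      have h2 := k2 p hp c
      rw [h1] at h2
      obtain ⟨z, hz, hz'⟩ := eig_const hS h2
      have h3 : ∫ v, bx (S^[p]) c f v * conj (E' p c v) ∂μ =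
          ∫ v, bx (S^[p]) c f v * conj z ∂μ := by
        refine integral_congr_ae ?_
        filter_upwards [hz'] with v hv
        rw [hv]
      rw [h3, integral_mul_const, norm_mul, RCLike.norm_conj, hz, mul_one]
    · refine hM c hlen _ hG _ (fun p hp => ?_) (fun p => E p c) (fun p => E' p c)
        (fun p => η p c) (fun p => η' p c) (fun p hp => ?_)
      · have h1 := hpr p (Finset.mem_filter.1 hp).1
        exact ⟨h1.1, h1.2.1⟩
      · obtain ⟨h1, h2, h3, h4⟩ := Finset.mem_filter.1 hp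
        exact ⟨k1 p h1 c, k2 p h1 c, k3 p h1 c, h2, h3, h4⟩
  refine hbox.trans ?_
  rw [avb_add, avb_const _ (fun K hK => by rw [List.eq_of_mem_replicate hK]; exact hHP), avb_sum]

end FHE
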