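import Pool.Agent.FHE.SVN

/-! SVC (~150 lines): counting in boxes. `nd_mul`: Chinese remainder theorem, a bijection
`(Fin D → Fin (d e)) ≃ (Fin D → Fin d) × (Fin D → Fin e)` by residues; the condition splits since `d, e` are
coprime. `nuL_prod`: induction on the prime factors of the squarefree `d`. `nd_period`:
`Nd Λ d (q d) = q^D Nd Λ d d`. `nd_count`: for `M = q d + r`, `r < d`:
`q^D Nd d d ≤ Nd d M ≤ (q+1)^D Nd d d`, `(q d)^D ≥ (M - d)^D ≥ M^D - D d M^(D-1)`,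
`((q+1) d)^D ≤ (M + d)^D ≤ M^D + D d (2M)^(D-1)`, and `nuL ≤ 1`. -/

open MeasureTheory Filter Topology
open scoped ComplexConjugate

namespace FHE

variable {ι : Type*} [Fintype ι] {D : ℕ}

private lemma svc_congr (Λ : ι → Fin D → ℕ) {d : ℕ} {x y : Fin D → ℕ}
    (h : ∀ k, x k ≡ y k [MOD d]) :
    (d ∣ ∏ i, lf Λ i x) ↔ (d ∣ ∏ i, lf Λ i y) := by
  have h1 : ∀ i, lf Λ i x ≡ lf Λ i y [MOD d] := by
    intro i
    unfold lf
    exact Nat.ModEq.sum fun k _ => (h k).mul_left _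
  have h2 : ∏ i, lf Λ i x ≡ ∏ i, lf Λ i y [MOD d] := Nat.ModEq.prod fun i _ => h1 i
  exact h2.dvd_iff (dvd_refl d)

theorem nd_mul (Λ : ι → Fin D → ℕ) {d e : ℕ} (h : Nat.Coprime d e) (hd : 1 ≤ d) (he : 1 ≤ e) :
    Nd Λ (d * e) (d * e) = Nd Λ d d * Nd Λ e e := by
  classical
  let f : (Fin D → Fin (d * e)) → (Fin D → Fin d) × (Fin D → Fin e) := fun x =>
    (fun k => ⟨(x k : ℕ) % d, Nat.mod_lt _ hd⟩, fun k => ⟨(x k : ℕ) % e, Nat.mod_lt _ he⟩)
  have hinj : Function.Injective f := by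
    intro x y hxy
    have h1 := congrArg Prod.fst hxy
    have h2 := congrArg Prod.snd hxy
    funext k
    have h1k : (x k : ℕ) % d = (y k : ℕ) % d := congrArg Fin.val (congrFun h1 k)
    have h2k : (x k : ℕ) % e = (y k : ℕ) % e := congrArg Fin.val (congrFun h2 k)
    have h3 : (x k : ℕ) ≡ (y k : ℕ) [MOD d * e] :=
      (Nat.modEq_and_modEq_iff_modEq_mul h).1 ⟨h1k, h2k⟩
    exact Fin.ext (Nat.ModEq.eq_of_lt_of_lt h3 (x k).2 (y k).2)
  have hbij : Function.Bijective f := by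
    refine (Fintype.bijective_iff_injective_and_card f).2 ⟨hinj, ?_⟩
    simp [mul_pow]
  unfold Nd
  rw [← Finset.card_product]
  refine Finset.card_bij (fun x _ => f x) ?_ ?_ ?_
  · intro x hx
    rw [Finset.mem_filter] at hx
    rw [Finset.mem_product, Finset.mem_filter, Finset.mem_filter]
    refine ⟨⟨Finset.mem_univ _, ?_⟩, ⟨Finset.mem_univ _, ?_⟩⟩
    · exact (svc_congr Λ (fun k => (Nat.mod_modEq _ _))).2 ((Dvd.intro _ rfl).trans hx.2)
    · exact (svc_congr Λ (fun k => (Nat.mod_modEq _ _))).2 ((Dvd.intro_left _ rfl).trans hx.2)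
  · intro x _ y _ hxy
    exact hinj hxy
  · intro z hz
    obtain ⟨x, rfl⟩ := hbij.2 z
    rw [Finset.mem_product, Finset.mem_filter, Finset.mem_filter] at hz
    refine ⟨x, Finset.mem_filter.2 ⟨Finset.mem_univ _, ?_⟩, rfl⟩
    refine Nat.Coprime.mul_dvd_of_dvd_of_dvd h ?_ ?_
    · exact (svc_congr Λ (fun k => (Nat.mod_modEq _ _))).1 hz.1.2
    · exact (svc_congr Λ (fun k => (Nat.mod_modEq _ _))).1 hz.2.2

private lemma nuL_one (Λ : ι → Fin D → ℕ) : nuL Λ 1 = 1 := by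
  unfold nuL Nd
  simp

private lemma nuL_mul (Λ : ι → Fin D → ℕ) {d e : ℕ} (h : Nat.Coprime d e) (hd : 1 ≤ d)
    (he : 1 ≤ e) : nuL Λ (d * e) = nuL Λ d * nuL Λ e := by
  unfold nuL
  rw [nd_mul Λ h hd he]
  have hd0 : (0 : ℝ) < d := by exact_mod_cast hd
  have he0 : (0 : ℝ) < e := by exact_mod_cast he
  push_cast
  rw [mul_pow]
  field_simp

private lemma nuL_prod_aux (Λ : ι → Fin D → ℕ) (s : Finset ℕ) (hs : ∀ p ∈ s, p.Prime) :
    nuL Λ (∏ p ∈ s, p) = ∏ p ∈ s, nuL Λ p := by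
  induction s using Finset.induction_on with
  | empty => simpa using nuL_one Λ
  | insert a s ha ih =>
    have hs' : ∀ p ∈ s, p.Prime := fun p hp => hs p (Finset.mem_insert_of_mem hp)
    have hap : a.Prime := hs a (Finset.mem_insert_self _ _)
    rw [Finset.prod_insert ha, Finset.prod_insert ha, nuL_mul, ih hs']
    · refine Nat.Coprime.prod_right fun p hp => ?_
      refine (Nat.coprime_primes hap (hs' p hp)).2 ?_
      rintro rfl
      exact ha hp
    · exact hap.one_le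
    · exact Nat.one_le_iff_ne_zero.2 (Finset.prod_ne_zero_iff.2 fun p hp => (hs' p hp).ne_zero)

theorem nuL_prod (Λ : ι → Fin D → ℕ) {d : ℕ} (hd : Squarefree d) :
    nuL Λ d = ∏ p ∈ d.primeFactors, nuL Λ p := by
  conv_lhs => rw [← Nat.prod_primeFactors_of_squarefree hd]
  exact nuL_prod_aux Λ _ fun p hp => Nat.prime_of_mem_primeFactors hp

private lemma nd_period (Λ : ι → Fin D → ℕ) (d q : ℕ) :
    Nd Λ d (q * d) = q ^ D * Nd Λ d d := by
  classical
  unfold Nd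
  have h1 : q ^ D = (Finset.univ : Finset (Fin D → Fin q)).card := by simp
  rw [h1, ← Finset.card_product]
  symm
  refine Finset.card_bij (fun z _ => fun k => finProdFinEquiv (z.1 k, z.2 k)) ?_ ?_ ?_
  · intro z hz
    rw [Finset.mem_product, Finset.mem_filter] at hz
    refine Finset.mem_filter.2 ⟨Finset.mem_univ _, ?_⟩
    refine (svc_congr Λ (fun k => ?_)).1 hz.2.2
    simp only [finProdFinEquiv_apply_val]
    exact (Nat.modEq_iff_dvd' (Nat.le_add_right _ _)).2 (by simp)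
  · intro z _ w _ hzw
    have h2 : ∀ k, (z.1 k, z.2 k) = (w.1 k, w.2 k) := fun k =>
      finProdFinEquiv.injective (congrFun hzw k)
    refine Prod.ext (funext fun k => ?_) (funext fun k => ?_)
    · exact congrArg Prod.fst (h2 k)
    · exact congrArg Prod.snd (h2 k)
  · intro x hx
    rw [Finset.mem_filter] at hx
    refine ⟨(fun k => (finProdFinEquiv.symm (x k)).1, fun k => (finProdFinEquiv.symm (x k)).2),
      ?_, ?_⟩
    · rw [Finset.mem_product, Finset.mem_filter]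
      refine ⟨Finset.mem_univ _, Finset.mem_univ _, ?_⟩
      refine (svc_congr Λ (fun k => ?_)).2 hx.2
      have h3 : ((finProdFinEquiv (finProdFinEquiv.symm (x k)) : Fin (q * d)) : ℕ) = (x k : ℕ) := by
        rw [Equiv.apply_symm_apply]
      rw [finProdFinEquiv_apply_val] at h3
      rw [← h3]
      exact (Nat.modEq_iff_dvd' (Nat.le_add_right _ _)).2 (by
        rw [Nat.add_sub_cancel_left]; exact Dvd.intro _ rfl)
    · funext k
      exact finProdFinEquiv.apply_symm_apply (x k)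

private lemma nd_mono (Λ : ι → Fin D → ℕ) (d : ℕ) {M N : ℕ} (h : M ≤ N) :
    Nd Λ d M ≤ Nd Λ d N := by
  classical
  unfold Nd
  refine Finset.card_le_card_of_injOn (fun x k => Fin.castLE h (x k)) ?_ ?_
  · intro x hx
    simp only [Finset.coe_filter, Finset.mem_univ, true_and] at hx ⊢
    simpa using hx
  · intro x _ y _ hxy
    funext k
    exact Fin.castLE_injective h (congrFun hxy k)

private lemma svc_pow_sub (n : ℕ) {a b : ℝ} (hb : 0 ≤ b) (hab : b ≤ a) :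
    a ^ n - b ^ n ≤ n * (a - b) * a ^ (n - 1) := by
  induction n with
  | zero => simp
  | succ n ih =>
    rcases Nat.eq_zero_or_pos n with rfl | hn
    · simp
    have ha : 0 ≤ a := hb.trans hab
    have h1 : b ^ n ≤ a ^ n := pow_le_pow_left₀ hb hab n
    have h2 : a ^ (n + 1 - 1) = a ^ n := by simp
    have h3 : a ^ n = a ^ (n - 1) * a := by rw [← pow_succ]; congr 1; omega
    rw [h2]
    push_cast
    have h4 : a ^ (n + 1) - b ^ (n + 1) = a * (a ^ n - b ^ n) + (a - b) * b ^ n := by ring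
    rw [h4]
    have h5 : a * (a ^ n - b ^ n) ≤ a * (n * (a - b) * a ^ (n - 1)) :=
      mul_le_mul_of_nonneg_left ih ha
    have h6 : (a - b) * b ^ n ≤ (a - b) * a ^ n :=
      mul_le_mul_of_nonneg_left h1 (by linarith)
    have h7 : a * (n * (a - b) * a ^ (n - 1)) = n * (a - b) * a ^ n := by rw [h3]; ring
    linarith

theorem nd_count (Λ : ι → Fin D → ℕ) {d M : ℕ} (hd : 1 ≤ d) (hM : d ≤ M) :
    |(Nd Λ d M : ℝ) - (M : ℝ) ^ D * nuL Λ d| ≤ D * 2 ^ D * d * (M : ℝ) ^ (D - 1) := by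
  have hd0 : (0 : ℝ) < d := by exact_mod_cast hd
  have hM0 : (0 : ℝ) < M := by exact_mod_cast (by omega : 0 < M)
  set q := M / d with hq
  have hqM : q * d ≤ M := Nat.div_mul_le_self M d
  have hMq : M ≤ (q + 1) * d := by
    have := Nat.lt_div_mul_add (a := M) (b := d) hd
    nlinarith
  have h1 : (q : ℝ) ^ D * Nd Λ d d ≤ Nd Λ d M := by
    have := nd_mono Λ d hqM
    rw [nd_period] at this
    exact_mod_cast this
  have h2 : (Nd Λ d M : ℝ) ≤ ((q : ℝ) + 1) ^ D * Nd Λ d d := by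
    have := nd_mono Λ d hMq
    rw [nd_period] at this
    exact_mod_cast this
  have hnd : (Nd Λ d d : ℝ) = (d : ℝ) ^ D * nuL Λ d := by
    unfold nuL
    field_simp
  have hnu0 : 0 ≤ nuL Λ d := by unfold nuL; positivity
  have hnu1 : nuL Λ d ≤ 1 := by
    unfold nuL
    rw [div_le_one (by positivity)]
    have : Nd Λ d d ≤ d ^ D := by
      unfold Nd
      refine (Finset.card_le_univ _).trans ?_
      simp
    exact_mod_cast this
  rw [hnd] at h1 h2
  have hqMr : (q : ℝ) * d ≤ M := by exact_mod_cast hqM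
  have hMqr : (M : ℝ) ≤ ((q : ℝ) + 1) * d := by exact_mod_cast hMq
  have h3 : ((q : ℝ) * d) ^ D ≤ (M : ℝ) ^ D := pow_le_pow_left₀ (by positivity) hqMr D
  have h4 : (M : ℝ) ^ D ≤ (((q : ℝ) + 1) * d) ^ D := pow_le_pow_left₀ (by positivity) hMqr D
  have h5 : (((q : ℝ) + 1) * d) ^ D - ((q : ℝ) * d) ^ D ≤
      D * (((q : ℝ) + 1) * d - q * d) * (((q : ℝ) + 1) * d) ^ (D - 1) :=
    svc_pow_sub D (by positivity) (by nlinarith)
  have h6 : (((q : ℝ) + 1) * d) ^ (D - 1) ≤ (2 * M) ^ (D - 1) := by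
    refine pow_le_pow_left₀ (by positivity) ?_ _
    have : (d : ℝ) ≤ M := by exact_mod_cast hM
    nlinarith
  have h7 : D * (((q : ℝ) + 1) * d - q * d) * (((q : ℝ) + 1) * d) ^ (D - 1) ≤
      D * 2 ^ D * d * (M : ℝ) ^ (D - 1) := by
    calc D * (((q : ℝ) + 1) * d - q * d) * (((q : ℝ) + 1) * d) ^ (D - 1)
        = D * d * (((q : ℝ) + 1) * d) ^ (D - 1) := by ring
      _ ≤ D * d * (2 * M) ^ (D - 1) := by gcongr
      _ = D * d * 2 ^ (D - 1) * (M : ℝ) ^ (D - 1) := by rw [mul_pow]; ring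
      _ ≤ D * d * 2 ^ D * (M : ℝ) ^ (D - 1) := by
        gcongr
        · norm_num
        · omega
      _ = _ := by ring
  have h8 : (((q : ℝ) + 1) * d) ^ D * nuL Λ d - ((q : ℝ) * d) ^ D * nuL Λ d ≤
      D * 2 ^ D * d * (M : ℝ) ^ (D - 1) := by
    have h9 : 0 ≤ (((q : ℝ) + 1) * d) ^ D - ((q : ℝ) * d) ^ D := by linarith
    nlinarith [mul_le_mul_of_nonneg_left hnu1 h9]
  have h10 : ((q : ℝ) * d) ^ D * nuL Λ d ≤ (M : ℝ) ^ D * nuL Λ d :=
    mul_le_mul_of_nonneg_right h3 hnu0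
  have h11 : (M : ℝ) ^ D * nuL Λ d ≤ (((q : ℝ) + 1) * d) ^ D * nuL Λ d :=
    mul_le_mul_of_nonneg_right h4 hnu0
  have h12 : ((q : ℝ) * d) ^ D * nuL Λ d ≤ Nd Λ d M := by
    calc _ = (q : ℝ) ^ D * ((d : ℝ) ^ D * nuL Λ d) := by rw [mul_pow]; ring
      _ ≤ _ := h1
  have h13 : (Nd Λ d M : ℝ) ≤ (((q : ℝ) + 1) * d) ^ D * nuL Λ d := by
    calc _ ≤ ((q : ℝ) + 1) ^ D * ((d : ℝ) ^ D * nuL Λ d) := h2
      _ = _ := by rw [mul_pow]; ring
  rw [abs_le]
  constructor <;> linarith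

end FHE
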