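import Pool.Agent.FHE.SVSA

/-! SVS (~120 lines): Selberg's upper bound sieve. With `Q = ∏_{p ∈ A} p`, `w = wS A ν R`:
`#sifted ≤ ∑_{x ∈ B} (∑_{d ∣ Q, d ∣ F x} w d)²` (the inner sum is `w 1 = 1` for sifted `x`; `F x = 0` is
allowed) `= ∑_{d,e ∣ Q} w d w e #{x ∈ B | lcm d e ∣ F x}`; only `d, e ≤ R` matter, `lcm d e ≤ R²` divides `Q`,
so by `hrem` this is at most `X ∑ w d w e nuM (lcm d e) + E (∑_{d ≤ R} d)²`, then `ws_quad`, `ws_le`,
`∑_{d ≤ R} d ≤ R²`, `0 ≤ E` (`hrem` for `d = 1`). -/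

open MeasureTheory Filter Topology
open scoped ComplexConjugate

namespace FHE

private theorem svs_zero {A : Finset ℕ} {ν : ℕ → ℝ} {R d : ℕ} (h : ¬ d ≤ R) : wS A ν R d = 0 := by
  unfold wS
  rw [if_neg h]

theorem selberg {α : Type*} (B : Finset α) (F : α → ℕ) (A : Finset ℕ) (hA : ∀ p ∈ A, p.Prime)
    (ν : ℕ → ℝ) (hν : ∀ p ∈ A, 1 / (p : ℝ) ≤ ν p ∧ ν p < 1) {X E : ℝ} (hX : 0 ≤ X) {R : ℕ}
    (hR : 1 ≤ R)
    (hrem : ∀ d, d ∣ ∏ p ∈ A, p → d ≤ R ^ 2 →
      |((B.filter fun x => d ∣ F x).card : ℝ) - X * nuM ν d| ≤ E) :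
    ((B.filter fun x => ∀ p ∈ A, ¬ p ∣ F x).card : ℝ) ≤ X / GS A ν R + (R : ℝ) ^ 4 * E := by
  classical
  set Q := ∏ p ∈ A, p with hQ
  have hQ0 : Q ≠ 0 := by
    rw [hQ]
    exact Finset.prod_ne_zero_iff.mpr (fun p hp => (hA p hp).ne_zero)
  set w := wS A ν R with hw
  have hE : 0 ≤ E := (abs_nonneg _).trans (hrem 1 (one_dvd _) (Nat.one_le_pow _ _ hR))
  have h1mem : (1 : ℕ) ∈ Q.divisors := Nat.one_mem_divisors.mpr hQ0
  have hsift : ∀ x ∈ B.filter (fun x => ∀ p ∈ A, ¬ p ∣ F x),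
      (∑ d ∈ Q.divisors, if d ∣ F x then w d else 0) = 1 := by
    intro x hx
    rw [Finset.mem_filter] at hx
    rw [Finset.sum_eq_single_of_mem 1 h1mem]
    · rw [if_pos (one_dvd _), hw, ws_one hA hν hR]
    · intro d hd hd1
      rw [if_neg]
      intro hdF
      obtain ⟨p, hp, hpd⟩ := Nat.exists_prime_and_dvd hd1
      have hpQ : p ∣ ∏ q ∈ A, q := hpd.trans (Nat.dvd_of_mem_divisors hd)
      rw [Prime.dvd_finsetProd_iff hp.prime] at hpQ
      obtain ⟨q, hq, hpq⟩ := hpQ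
      have h3 := (Nat.prime_dvd_prime_iff_eq hp (hA q hq)).mp hpq
      rw [← h3] at hq
      exact hx.2 p hq (hpd.trans hdF)
  have hstep1 : ((B.filter fun x => ∀ p ∈ A, ¬ p ∣ F x).card : ℝ) ≤
      ∑ x ∈ B, (∑ d ∈ Q.divisors, if d ∣ F x then w d else 0) ^ 2 := by
    calc ((B.filter fun x => ∀ p ∈ A, ¬ p ∣ F x).card : ℝ)
        = ∑ x ∈ B.filter (fun x => ∀ p ∈ A, ¬ p ∣ F x),
          (∑ d ∈ Q.divisors, if d ∣ F x then w d else 0) ^ 2 := by
          rw [Finset.sum_congr rfl (fun x hx => by rw [hsift x hx, one_pow]), Finset.sum_const,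
            nsmul_eq_mul, mul_one]
      _ ≤ _ := Finset.sum_le_sum_of_subset_of_nonneg (Finset.filter_subset _ _)
          (fun x _ _ => sq_nonneg _)
  have hstep2 : ∑ x ∈ B, (∑ d ∈ Q.divisors, if d ∣ F x then w d else 0) ^ 2 =
      ∑ d ∈ Q.divisors, ∑ e ∈ Q.divisors, w d * w e *
        ((B.filter fun x => Nat.lcm d e ∣ F x).card : ℝ) := by
    have e1 : ∀ x ∈ B, (∑ d ∈ Q.divisors, if d ∣ F x then w d else 0) ^ 2 =
        ∑ d ∈ Q.divisors, ∑ e ∈ Q.divisors, w d * w e * (if Nat.lcm d e ∣ F x then 1 else 0) := by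
      intro x _
      rw [sq, Finset.sum_mul_sum]
      apply Finset.sum_congr rfl
      intro d _
      apply Finset.sum_congr rfl
      intro e _
      have h3 : Nat.lcm d e ∣ F x ↔ d ∣ F x ∧ e ∣ F x := Nat.lcm_dvd_iff
      by_cases h1 : d ∣ F x <;> by_cases h2 : e ∣ F x <;> simp [h1, h2, h3]
    rw [Finset.sum_congr rfl e1, Finset.sum_comm]
    apply Finset.sum_congr rfl
    intro d _
    rw [Finset.sum_comm]
    apply Finset.sum_congr rfl
    intro e _
    rw [← Finset.mul_sum, Finset.sum_boole]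
  have hstep3 : ∑ d ∈ Q.divisors, ∑ e ∈ Q.divisors, w d * w e *
        ((B.filter fun x => Nat.lcm d e ∣ F x).card : ℝ) ≤
      ∑ d ∈ Q.divisors, ∑ e ∈ Q.divisors, (X * (w d * w e * nuM ν (Nat.lcm d e)) +
        E * (|w d| * |w e|)) := by
    apply Finset.sum_le_sum
    intro d hd
    apply Finset.sum_le_sum
    intro e he
    by_cases hdR : d ≤ R
    · by_cases heR : e ≤ R
      · have hl : Nat.lcm d e ∣ Q := Nat.lcm_dvd (Nat.dvd_of_mem_divisors hd)
          (Nat.dvd_of_mem_divisors he)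
        have hd0 : 0 < d := Nat.pos_of_mem_divisors hd
        have he0 : 0 < e := Nat.pos_of_mem_divisors he
        have hlR : Nat.lcm d e ≤ R ^ 2 := by
          calc Nat.lcm d e ≤ d * e := Nat.le_of_dvd (Nat.mul_pos hd0 he0) (Nat.lcm_dvd_mul d e)
            _ ≤ R * R := Nat.mul_le_mul hdR heR
            _ = R ^ 2 := by ring
        have h1 := hrem _ hl hlR
        set r := ((B.filter fun x => Nat.lcm d e ∣ F x).card : ℝ) - X * nuM ν (Nat.lcm d e) with hr
        have h2 : w d * w e * r ≤ E * (|w d| * |w e|) := by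
          calc w d * w e * r ≤ |w d * w e * r| := le_abs_self _
            _ = (|w d| * |w e|) * |r| := by rw [abs_mul, abs_mul]
            _ ≤ (|w d| * |w e|) * E := mul_le_mul_of_nonneg_left h1 (by positivity)
            _ = E * (|w d| * |w e|) := mul_comm _ _
        have h3 : w d * w e * ((B.filter fun x => Nat.lcm d e ∣ F x).card : ℝ) =
            X * (w d * w e * nuM ν (Nat.lcm d e)) + w d * w e * r := by
          rw [hr]
          ring
        rw [h3]
        linarith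
      · have h0 : w e = 0 := svs_zero heR
        rw [h0]
        simp
    · have h0 : w d = 0 := svs_zero hdR
      rw [h0]
      simp
  have hstep4 : ∑ d ∈ Q.divisors, ∑ e ∈ Q.divisors, (X * (w d * w e * nuM ν (Nat.lcm d e)) +
        E * (|w d| * |w e|)) = X * (1 / GS A ν R) + E * (∑ d ∈ Q.divisors, |w d|) ^ 2 := by
    have hq := ws_quad hA hν hR
    rw [← hQ, ← hw] at hq
    rw [← hq, sq, Finset.sum_mul_sum]
    simp_rw [Finset.sum_add_distrib, Finset.mul_sum]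
  have hW : ∑ d ∈ Q.divisors, |w d| ≤ (R : ℝ) ^ 2 := by
    have h1 : ∑ d ∈ Q.divisors, |w d| = ∑ d ∈ Q.divisors.filter (fun d => d ≤ R), |w d| := by
      rw [Finset.sum_filter]
      apply Finset.sum_congr rfl
      intro d _
      split_ifs with h
      · rfl
      · rw [hw, svs_zero h, abs_zero]
    have h2 : ∑ d ∈ Q.divisors.filter (fun d => d ≤ R), |w d| ≤
        ∑ d ∈ Q.divisors.filter (fun d => d ≤ R), (d : ℝ) := by
      apply Finset.sum_le_sum
      intro d hd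
      exact ws_le hA hν hR (Nat.dvd_of_mem_divisors (Finset.mem_filter.mp hd).1)
    have h3 : ∑ d ∈ Q.divisors.filter (fun d => d ≤ R), (d : ℝ) ≤ ∑ d ∈ Finset.Icc 1 R, (R : ℝ) := by
      calc ∑ d ∈ Q.divisors.filter (fun d => d ≤ R), (d : ℝ)
          ≤ ∑ d ∈ Finset.Icc 1 R, (d : ℝ) := by
            apply Finset.sum_le_sum_of_subset_of_nonneg
            · intro d hd
              rw [Finset.mem_filter] at hd
              rw [Finset.mem_Icc]
              exact ⟨Nat.pos_of_mem_divisors hd.1, hd.2⟩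
            · intro d _ _
              positivity
        _ ≤ _ := by
            apply Finset.sum_le_sum
            intro d hd
            exact_mod_cast (Finset.mem_Icc.mp hd).2
    rw [Finset.sum_const, Nat.card_Icc, nsmul_eq_mul] at h3
    rw [h1]
    refine h2.trans (h3.trans (le_of_eq ?_))
    push_cast [Nat.add_sub_cancel]
    ring
  have hW0 : 0 ≤ ∑ d ∈ Q.divisors, |w d| := Finset.sum_nonneg (fun d _ => abs_nonneg _)
  have h5 : E * (∑ d ∈ Q.divisors, |w d|) ^ 2 ≤ (R : ℝ) ^ 4 * E := by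
    have h6 : (∑ d ∈ Q.divisors, |w d|) ^ 2 ≤ ((R : ℝ) ^ 2) ^ 2 := pow_le_pow_left₀ hW0 hW 2
    calc E * (∑ d ∈ Q.divisors, |w d|) ^ 2 ≤ E * ((R : ℝ) ^ 2) ^ 2 :=
          mul_le_mul_of_nonneg_left h6 hE
      _ = (R : ℝ) ^ 4 * E := by ring
  calc ((B.filter fun x => ∀ p ∈ A, ¬ p ∣ F x).card : ℝ) ≤ _ := hstep1
    _ = _ := hstep2
    _ ≤ _ := hstep3
    _ = X * (1 / GS A ν R) + E * (∑ d ∈ Q.divisors, |w d|) ^ 2 := hstep4
    _ ≤ X / GS A ν R + (R : ℝ) ^ 4 * E := by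
        rw [mul_one_div]
        linarith

end FHE
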