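import Pool.Agent.FHE.SVTB

/-! SVT (~80 lines): induction with `tm_step`, `tm_one`: `Tm j k (R^(2^j)) ≥ c_j (log R)^j` for `j ≤ m`
(`j^4 ≤ k`; `Tm 0 k R ≥ 1`). For general `R`: `R' = ⌊R^(1/2^m)⌋`, `log R' ≥ log R / 2^(m+1)` when
`R^(1/2^m) ≥ 4`, `tm_mono`; for smaller `R` use `Tm ≥ 1` (`tm_one_le`) and a small constant. -/

open MeasureTheory Filter Topology
open scoped ComplexConjugate

namespace FHE

private theorem svt_ind {m k : ℕ} (hk : m ^ 4 ≤ k) (j : ℕ) (hj : j ≤ m) : ∃ c : ℝ, 0 < c ∧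
    ∀ R : ℕ, 1 ≤ R → c * Real.log R ^ j ≤ Tm j k (R ^ (2 ^ j)) := by
  induction j with
  | zero =>
    refine ⟨1, one_pos, fun R hR => ?_⟩
    rw [pow_zero, mul_one, pow_zero, pow_one]
    exact tm_one_le hR
  | succ j ih =>
    obtain ⟨cj, hcj, h1⟩ := ih (by omega)
    obtain ⟨c, hc, h2⟩ := tm_step (m := j) (k := k)
      ((Nat.pow_le_pow_left (show j ≤ m by omega) 4).trans hk)
    obtain ⟨c1, hc1, h3⟩ := tm_one k
    refine ⟨c * (cj * c1), by positivity, fun R hR => ?_⟩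
    have hR' : 1 ≤ R ^ (2 ^ j) := Nat.one_le_pow _ _ hR
    have h4 := h2 (R ^ (2 ^ j)) hR'
    have h5 := h1 R hR
    have h6 := h3 (R ^ (2 ^ j)) hR'
    have hlog : 0 ≤ Real.log R := Real.log_natCast_nonneg R
    have h7 : Real.log R ≤ Real.log ((R ^ (2 ^ j) : ℕ) : ℝ) := by
      push_cast
      rw [Real.log_pow]
      have : (1 : ℝ) ≤ ((2 ^ j : ℕ) : ℝ) := by exact_mod_cast Nat.one_le_two_pow
      nlinarith
    have h8 : c1 * Real.log R ≤ Tm 1 k (R ^ (2 ^ j)) :=
      (mul_le_mul_of_nonneg_left h7 hc1.le).trans h6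
    have h9 : R ^ (2 ^ (j + 1)) = (R ^ (2 ^ j)) ^ 2 := by
      rw [← pow_mul, pow_succ]
    rw [h9]
    calc c * (cj * c1) * Real.log R ^ (j + 1)
        = c * ((cj * Real.log R ^ j) * (c1 * Real.log R)) := by ring
      _ ≤ c * (Tm j k (R ^ (2 ^ j)) * Tm 1 k (R ^ (2 ^ j))) := by
          apply mul_le_mul_of_nonneg_left _ hc.le
          exact mul_le_mul h5 h8 (by positivity) ((by positivity : (0 : ℝ) ≤ _).trans h5)
      _ ≤ _ := h4

private theorem svt_root {M R : ℕ} (hM : 1 ≤ M) (hR : 1 ≤ R) : ∃ r : ℕ, 1 ≤ r ∧ r ^ M ≤ R ∧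
    R < (r + 1) ^ M := by
  have hP : (1 : ℕ) ^ M ≤ R := by rw [one_pow]; exact hR
  refine ⟨Nat.findGreatest (fun r => r ^ M ≤ R) R, ?_, ?_, ?_⟩
  · exact Nat.le_findGreatest hR hP
  · exact Nat.findGreatest_spec (P := fun r => r ^ M ≤ R) hR hP
  · by_contra h
    push Not at h
    have h1 : Nat.findGreatest (fun r => r ^ M ≤ R) R + 1 ≤ R :=
      (Nat.le_self_pow (by omega) _).trans h
    have h2 := Nat.le_findGreatest (P := fun r => r ^ M ≤ R) h1 h
    omega

theorem svt {m k : ℕ} (hk : m ^ 4 ≤ k) : ∃ c : ℝ, 0 < c ∧ ∀ R : ℕ, 1 ≤ R →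
    c * Real.log R ^ m ≤ Tm m k R := by
  obtain ⟨cm, hcm, h1⟩ := svt_ind hk m le_rfl
  set M := 2 ^ m with hM
  have hM1 : 1 ≤ M := Nat.one_le_two_pow
  have hM0 : (0 : ℝ) < M := by exact_mod_cast hM1
  have hM1' : (1 : ℝ) ≤ M := by exact_mod_cast hM1
  set D := (2 * (M : ℝ)) ^ m with hD
  have hD0 : 0 < D := by positivity
  refine ⟨min (cm / D) (1 / D), lt_min (by positivity) (by positivity), fun R hR => ?_⟩
  have hlog : 0 ≤ Real.log R := Real.log_natCast_nonneg R
  have hlp : 0 ≤ Real.log R ^ m := pow_nonneg hlog m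
  by_cases hbig : 2 * (M : ℝ) ≤ Real.log R
  · obtain ⟨r, hr1, hr2, hr3⟩ := svt_root hM1 hR
    have hr0 : (0 : ℝ) < r := by exact_mod_cast hr1
    have hr1' : (1 : ℝ) ≤ r := by exact_mod_cast hr1
    have h2 : Real.log R ≤ M * Real.log ((r : ℝ) + 1) := by
      have h3 : (R : ℝ) ≤ ((r : ℝ) + 1) ^ M := by exact_mod_cast hr3.le
      have h4 := Real.log_le_log (by exact_mod_cast hR) h3
      rwa [Real.log_pow] at h4
    have h5 : Real.log ((r : ℝ) + 1) ≤ Real.log 2 + Real.log r := by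
      rw [← Real.log_mul (by norm_num) hr0.ne']
      apply Real.log_le_log (by positivity)
      linarith
    have h6 : Real.log 2 ≤ 1 := by
      have := Real.log_two_lt_d9
      linarith
    have h7 : Real.log R / (2 * M) ≤ Real.log r := by
      rw [div_le_iff₀ (by positivity)]
      have h8 : Real.log R ≤ M * (1 + Real.log r) :=
        h2.trans (mul_le_mul_of_nonneg_left (by linarith) hM0.le)
      nlinarith
    calc min (cm / D) (1 / D) * Real.log R ^ m ≤ cm / D * Real.log R ^ m :=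
          mul_le_mul_of_nonneg_right (min_le_left _ _) hlp
      _ = cm * (Real.log R / (2 * M)) ^ m := by
          rw [div_pow, hD]
          ring
      _ ≤ cm * Real.log r ^ m := by
          apply mul_le_mul_of_nonneg_left _ hcm.le
          exact pow_le_pow_left₀ (by positivity) h7 m
      _ ≤ Tm m k (r ^ M) := h1 r hr1
      _ ≤ Tm m k R := tm_mono hr2
  · push Not at hbig
    calc min (cm / D) (1 / D) * Real.log R ^ m ≤ 1 / D * Real.log R ^ m :=
          mul_le_mul_of_nonneg_right (min_le_right _ _) hlp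
      _ ≤ 1 / D * D := by
          apply mul_le_mul_of_nonneg_left _ (by positivity)
          exact pow_le_pow_left₀ hlog hbig.le m
      _ = 1 := by field_simp
      _ ≤ Tm m k R := tm_one_le hR

end FHE
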