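import Pool.Agent.FHE.SVC
import Pool.Agent.FHE.SVS
import Pool.Agent.FHE.SVT

/-! SVD (~150 lines): the sieve bound for linear forms. `m = card ι ≥ 1`, `k = m^4`, `R = ⌊M^(1/12)⌋`
(`R^12 ≤ M`), `A` = primes in `(k, R]`, `F x = ∏_i Λ_i x`, `X = M^D`, `ν = nuL Λ`, `E = D 2^D R² M^(D-1)`
(`nd_count`, `nuL_prod`; divisors of `∏ A` are squarefree). For `p ∈ A`: `nuL_ge_inv`, `nuL_le` (`m/p < 1`), and
`ν/(1-ν) ≥ m/p` (`nuL_ge`, `y - y²/2 ≥ y/(1+y)` for `y = m/p ≤ 1`). So `G ≥ Tm m k R ≥ c (log R)^m`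
(`svt`; the squarefree `d ≤ R` with prime factors `> k` are the divisors `≤ R` of `∏ A`). If all
`Λ_i x` are primes `≥ M/4 > R` then no `p ∈ A` divides `F x`. `selberg`:
count `≤ M^D / (c (log R)^m) + D 2^D R^6 M^(D-1)`, `R^6 ≤ √M`. Small `M` are trivial. -/

open MeasureTheory Filter Topology
open scoped ComplexConjugate

namespace FHE

private lemma svd_ratio {m p : ℕ} (hm : 1 ≤ m) (hp : m ^ 4 < p) {ν : ℝ} (hν1 : ν < 1)
    (h : (m : ℝ) / p - (m : ℝ) ^ 2 / (2 * (p : ℝ) ^ 2) ≤ ν) : (m : ℝ) / p ≤ ν / (1 - ν) := by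
  have hmp : m ≤ p := le_trans (Nat.le_self_pow (by norm_num) m) hp.le
  have hp0 : (0 : ℝ) < p := by exact_mod_cast (by omega : 0 < p)
  have hm0 : (0 : ℝ) < m := by exact_mod_cast (by omega : 0 < m)
  set y : ℝ := (m : ℝ) / p with hy
  have hy0 : 0 < y := by positivity
  have hy1 : y ≤ 1 := by
    rw [hy, div_le_one hp0]; exact_mod_cast hmp
  have h2 : (m : ℝ) ^ 2 / (2 * (p : ℝ) ^ 2) = y ^ 2 / 2 := by
    rw [hy]; field_simp
  rw [h2] at h
  rw [le_div_iff₀ (by linarith)]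
  nlinarith [mul_nonneg hy0.le (sub_nonneg.2 hy1)]

private lemma svd_prime_dvd_prod {A : Finset ℕ} (hA : ∀ p ∈ A, p.Prime) {q : ℕ} (hq : q.Prime)
    (h : q ∣ ∏ p ∈ A, p) : q ∈ A := by
  obtain ⟨a, ha, hqa⟩ := (Prime.dvd_finset_prod_iff hq.prime _).1 h
  rwa [(Nat.prime_dvd_prime_iff_eq hq (hA a ha)).1 hqa]

private lemma svd_prod_squarefree (A : Finset ℕ) (hA : ∀ p ∈ A, p.Prime) :
    Squarefree (∏ p ∈ A, p) := by
  induction A using Finset.induction_on with
  | empty => simp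
  | insert a s ha ih =>
    rw [Finset.prod_insert ha]
    have hs : ∀ p ∈ s, p.Prime := fun p hp => hA p (Finset.mem_insert_of_mem hp)
    have hap : a.Prime := hA a (Finset.mem_insert_self _ _)
    refine (Nat.squarefree_mul ?_).2 ⟨hap.prime.squarefree, ih hs⟩
    refine (Nat.Prime.coprime_iff_not_dvd hap).2 fun h => ha (svd_prime_dvd_prod hs hap h)

private lemma svd_log (m : ℕ) (hm : 1 ≤ m) : ∃ K : ℝ, 0 < K ∧ ∀ M : ℕ, 1 ≤ M →
    Real.log M ^ m ≤ K * Real.sqrt M := by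
  refine ⟨(2 * m : ℝ) ^ m, by positivity, fun M hM => ?_⟩
  have hm0 : (0 : ℝ) < m := by exact_mod_cast hm
  have h1 := Real.log_le_rpow_div (x := (M : ℝ)) (ε := 1 / (2 * m)) (by positivity) (by positivity)
  have h0 : 0 ≤ Real.log M := Real.log_natCast_nonneg M
  calc Real.log M ^ m ≤ ((M : ℝ) ^ (1 / (2 * m : ℝ)) / (1 / (2 * m))) ^ m :=
        pow_le_pow_left₀ h0 h1 m
    _ = (2 * m : ℝ) ^ m * Real.sqrt M := by
        rw [div_div_eq_mul_div, div_one, mul_pow, mul_comm, ← Real.rpow_natCast ((M : ℝ) ^ _) m,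
          ← Real.rpow_mul (by positivity), Real.sqrt_eq_rpow]
        congr 2
        field_simp

theorem sv {ι : Type*} [Fintype ι] [Nonempty ι] {D : ℕ} (Λ : ι → Fin D → ℕ)
    (hne : ∀ i, ∃ k, Λ i k = 1)
    (hind : ∀ i j, i ≠ j → ∃ k l, (Λ i k : ℤ) * Λ j l - Λ i l * Λ j k = 1) :
    ∃ C : ℝ, 0 < C ∧ ∀ M : ℕ, 2 ≤ M →
      ((Finset.univ.filter fun x : Fin D → Fin M => ∀ i, (lf Λ i (fun k => (x k : ℕ))).Prime ∧
        M ≤ 4 * lf Λ i (fun k => (x k : ℕ))).card : ℝ) ≤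
      C * (M : ℝ) ^ D / Real.log M ^ (Fintype.card ι) := by
  classical
  set m : ℕ := Fintype.card ι with hmdef
  have hm : 1 ≤ m := Fintype.card_pos
  have hm0 : (0 : ℝ) < m := by exact_mod_cast hm
  obtain ⟨c, hc, hsvt⟩ := svt (m := m) (k := m ^ 4) le_rfl
  obtain ⟨K, hK, hlog⟩ := svd_log m hm
  have hD : 1 ≤ D := by
    obtain ⟨k, -⟩ := hne (Classical.arbitrary ι)
    exact Nat.one_le_iff_ne_zero.2 (by rintro rfl; exact k.elim0)
  refine ⟨24 ^ m / c + D * 2 ^ D * K + (24 * Real.log 2) ^ m, by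
    have := Real.log_pos (by norm_num : (1 : ℝ) < 2); positivity, fun M hM => ?_⟩
  have hM0 : (0 : ℝ) < M := by exact_mod_cast (by omega : 0 < M)
  have hM1 : (1 : ℝ) < M := by exact_mod_cast (by omega : 1 < M)
  have hlM : 0 < Real.log M := Real.log_pos hM1
  have hl2 : 0 < Real.log 2 := Real.log_pos (by norm_num)
  set cnt := (Finset.univ.filter fun x : Fin D → Fin M => ∀ i,
    (lf Λ i (fun k => (x k : ℕ))).Prime ∧ M ≤ 4 * lf Λ i (fun k => (x k : ℕ))) with hcnt
  have htriv : (cnt.card : ℝ) ≤ (M : ℝ) ^ D := by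
    have : cnt.card ≤ M ^ D := by
      refine (Finset.card_le_univ _).trans ?_
      simp
    exact_mod_cast this
  have hpos1 : 0 ≤ (24 : ℝ) ^ m / c + D * 2 ^ D * K := by positivity
  rw [le_div_iff₀ (by positivity)]
  rcases lt_or_ge M (2 ^ 24) with hMs | hMl
  · -- small `M`
    have h1 : Real.log M ≤ 24 * Real.log 2 := by
      have : Real.log M ≤ Real.log ((2 : ℝ) ^ 24) :=
        Real.log_le_log hM0 (by exact_mod_cast hMs.le)
      rw [Real.log_pow] at this
      exact_mod_cast this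
    have h2 : Real.log M ^ m ≤ (24 * Real.log 2) ^ m := pow_le_pow_left₀ hlM.le h1 m
    calc (cnt.card : ℝ) * Real.log M ^ m ≤ (M : ℝ) ^ D * (24 * Real.log 2) ^ m := by gcongr
      _ ≤ (24 ^ m / c + D * 2 ^ D * K + (24 * Real.log 2) ^ m) * (M : ℝ) ^ D := by
        have := mul_nonneg hpos1 (pow_nonneg hM0.le D)
        nlinarith
  · -- large `M`
    set t : ℝ := (M : ℝ) ^ (1 / 24 : ℝ) with ht
    have ht0 : 0 < t := by positivity
    have ht24 : t ^ 24 = M := by
      rw [ht, ← Real.rpow_natCast, ← Real.rpow_mul hM0.le]; norm_num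
    have ht2 : 2 ≤ t := by
      by_contra hlt
      push Not at hlt
      have : t ^ 24 < 2 ^ 24 := pow_lt_pow_left₀ hlt ht0.le (by norm_num)
      rw [ht24] at this
      have h' : ((2 ^ 24 : ℕ) : ℝ) ≤ M := by exact_mod_cast hMl
      push_cast at h'
      linarith
    set R : ℕ := ⌊t ^ 2⌋₊ with hRdef
    have hR1 : (R : ℝ) ≤ t ^ 2 := Nat.floor_le (by positivity)
    have hR2 : t ^ 2 < R + 1 := Nat.lt_floor_add_one _
    have hRt : t ≤ R := by nlinarith
    have hR2' : (2 : ℝ) ≤ R := ht2.trans hRt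
    have hRn : 2 ≤ R := by exact_mod_cast hR2'
    have hR12 : R ^ 12 ≤ M := by
      have : (R : ℝ) ^ 12 ≤ M := by
        calc (R : ℝ) ^ 12 ≤ (t ^ 2) ^ 12 := pow_le_pow_left₀ (by positivity) hR1 12
          _ = M := by rw [← pow_mul, ht24]
      exact_mod_cast this
    have hR6 : (R : ℝ) ^ 6 ≤ Real.sqrt M := by
      apply Real.le_sqrt_of_sq_le
      rw [← pow_mul]
      exact_mod_cast hR12
    have hlogR : Real.log M ≤ 24 * Real.log R := by
      have h1 : Real.log t ≤ Real.log R := Real.log_le_log ht0 hRt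
      have h2 : Real.log M = 24 * Real.log t := by
        rw [← ht24, Real.log_pow]; norm_num
      linarith
    set A : Finset ℕ := (Finset.Icc 1 R).filter (fun p => p.Prime ∧ m ^ 4 < p) with hAdef
    have hA : ∀ p ∈ A, p.Prime := fun p hp => (Finset.mem_filter.1 hp).2.1
    have hAm : ∀ p ∈ A, m ^ 4 < p := fun p hp => (Finset.mem_filter.1 hp).2.2
    have hAR : ∀ p ∈ A, p ≤ R := fun p hp => (Finset.mem_Icc.1 (Finset.mem_filter.1 hp).1).2
    have hν : ∀ p ∈ A, 1 / (p : ℝ) ≤ nuL Λ p ∧ nuL Λ p < 1 := by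
      intro p hp
      refine ⟨nuL_ge_inv Λ hne (hA p hp), (nuL_le Λ hne (hA p hp)).trans_lt ?_⟩
      have hp0 : (0 : ℝ) < p := by exact_mod_cast (hA p hp).pos
      rw [div_lt_one hp0]
      exact_mod_cast lt_of_le_of_lt (Nat.le_self_pow (by norm_num) m) (hAm p hp)
    have hsqf := svd_prod_squarefree A hA
    set E : ℝ := D * 2 ^ D * (R : ℝ) ^ 2 * (M : ℝ) ^ (D - 1) with hE
    have hR2M : R ^ 2 ≤ M := (Nat.pow_le_pow_right (by omega) (by norm_num)).trans hR12
    have hrem : ∀ d, d ∣ ∏ p ∈ A, p → d ≤ R ^ 2 →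
        |(((Finset.univ : Finset (Fin D → Fin M)).filter fun x =>
          d ∣ ∏ i, lf Λ i (fun k => (x k : ℕ))).card : ℝ) - (M : ℝ) ^ D * nuM (nuL Λ) d| ≤ E := by
      intro d hd hdR
      have hd0 : d ≠ 0 := by
        rintro rfl
        exact hsqf.ne_zero (Nat.eq_zero_of_zero_dvd hd)
      have h1 := nd_count Λ (d := d) (M := M) (by omega) (hdR.trans hR2M)
      have h2 : nuM (nuL Λ) d = nuL Λ d := by
        rw [nuL_prod Λ (hsqf.squarefree_of_dvd hd)]; rfl
      rw [h2]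
      refine h1.trans ?_
      rw [hE]
      have : (d : ℝ) ≤ (R : ℝ) ^ 2 := by exact_mod_cast hdR
      gcongr
    have hsel := selberg (Finset.univ : Finset (Fin D → Fin M))
      (fun x => ∏ i, lf Λ i (fun k => (x k : ℕ))) A hA (nuL Λ) hν (X := (M : ℝ) ^ D) (E := E)
      (by positivity) (R := R) (by omega) hrem
    have hsub : cnt ⊆ (Finset.univ : Finset (Fin D → Fin M)).filter fun x =>
        ∀ p ∈ A, ¬ p ∣ ∏ i, lf Λ i (fun k => (x k : ℕ)) := by
      intro x hx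
      rw [hcnt, Finset.mem_filter] at hx
      refine Finset.mem_filter.2 ⟨Finset.mem_univ _, fun p hp hdvd => ?_⟩
      obtain ⟨i, -, hi⟩ := (Prime.dvd_finset_prod_iff (hA p hp).prime _).1 hdvd
      have hpi := (Nat.prime_dvd_prime_iff_eq (hA p hp) (hx.2 i).1).1 hi
      have h3 := (hx.2 i).2
      rw [← hpi] at h3
      have h4 := hAR p hp
      have h5 : R ^ 12 ≤ 4 * R := by omega
      have h6 : R ^ 12 = R ^ 11 * R := by ring
      have h7 : 2 ^ 11 ≤ R ^ 11 := Nat.pow_le_pow_left hRn 11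
      nlinarith
    have hGS : c * Real.log R ^ m ≤ GS A (nuL Λ) R := by
      refine (hsvt R (by omega)).trans ?_
      unfold Tm GS
      have hsub2 : (Finset.Icc 1 R).filter (fun d => Squarefree d ∧ ∀ p ∈ d.primeFactors, m ^ 4 < p)
          ⊆ (∏ p ∈ A, p).divisors.filter (fun d => d ≤ R) := by
        intro d hd
        rw [Finset.mem_filter, Finset.mem_Icc] at hd
        obtain ⟨⟨hd1, hdR⟩, hdsq, hdp⟩ := hd
        refine Finset.mem_filter.2 ⟨Nat.mem_divisors.2 ⟨?_, hsqf.ne_zero⟩, hdR⟩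
        rw [← Nat.prod_primeFactors_of_squarefree hdsq]
        refine Finset.prod_dvd_prod_of_subset _ _ _ fun p hp => ?_
        refine Finset.mem_filter.2 ⟨Finset.mem_Icc.2 ⟨(Nat.prime_of_mem_primeFactors hp).one_le, ?_⟩,
          Nat.prime_of_mem_primeFactors hp, hdp p hp⟩
        exact (Nat.le_of_dvd (by omega) (Nat.dvd_of_mem_primeFactors hp)).trans hdR
      refine (Finset.sum_le_sum fun d hd => ?_).trans
        (Finset.sum_le_sum_of_subset_of_nonneg hsub2 fun d hd _ => ?_)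
      · have hd' := Finset.mem_filter.1 (hsub2 hd)
        rw [Finset.mem_filter, Finset.mem_Icc] at hd
        obtain ⟨⟨hd1, hdR⟩, hdsq, hdp⟩ := hd
        unfold gaM
        have h8 : (m : ℝ) ^ d.primeFactors.card / d = ∏ p ∈ d.primeFactors, (m : ℝ) / p := by
          rw [Finset.prod_div_distrib, Finset.prod_const]
          congr 1
          conv_lhs => rw [← Nat.prod_primeFactors_of_squarefree hdsq]
          push_cast
          rfl
        rw [h8]
        refine Finset.prod_le_prod (fun p _ => by positivity) fun p hp => ?_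
        have hpA : p ∈ A := svd_prime_dvd_prod hA (Nat.prime_of_mem_primeFactors hp)
          ((Nat.dvd_of_mem_primeFactors hp).trans (Nat.dvd_of_mem_divisors hd'.1))
        exact svd_ratio hm (hAm p hpA) (hν p hpA).2 (nuL_ge Λ hne hind (hA p hpA))
      · rw [Finset.mem_filter] at hd
        unfold gaM
        refine Finset.prod_nonneg fun p hp => ?_
        have hpA : p ∈ A := svd_prime_dvd_prod hA (Nat.prime_of_mem_primeFactors hp)
          ((Nat.dvd_of_mem_primeFactors hp).trans (Nat.dvd_of_mem_divisors hd.1))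
        obtain ⟨h9, h10⟩ := hν p hpA
        have : (0 : ℝ) ≤ 1 / (p : ℝ) := by positivity
        exact div_nonneg (this.trans h9) (by linarith)
    have hlR : 0 < Real.log R := by nlinarith
    have hGpos : 0 < GS A (nuL Λ) R := lt_of_lt_of_le (by positivity) hGS
    have hmain : (cnt.card : ℝ) ≤ (M : ℝ) ^ D / (c * Real.log R ^ m) + (R : ℝ) ^ 4 * E := by
      calc (cnt.card : ℝ) ≤ _ := by exact_mod_cast Finset.card_le_card hsub
        _ ≤ _ := hsel
        _ ≤ _ := by gcongr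
    have hlp : Real.log M ^ m ≤ 24 ^ m * Real.log R ^ m := by
      rw [← mul_pow]; exact pow_le_pow_left₀ hlM.le hlogR m
    have hfirst : (M : ℝ) ^ D / (c * Real.log R ^ m) * Real.log M ^ m ≤ 24 ^ m / c * (M : ℝ) ^ D := by
      have hcl : 0 < c * Real.log R ^ m := by positivity
      rw [div_mul_eq_mul_div, div_le_iff₀ hcl]
      calc (M : ℝ) ^ D * Real.log M ^ m ≤ (M : ℝ) ^ D * (24 ^ m * Real.log R ^ m) := by gcongr
        _ = 24 ^ m / c * (M : ℝ) ^ D * (c * Real.log R ^ m) := by field_simp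
    have hsecond : (R : ℝ) ^ 4 * E * Real.log M ^ m ≤ D * 2 ^ D * K * (M : ℝ) ^ D := by
      have h11 : (R : ℝ) ^ 4 * E = D * 2 ^ D * (R : ℝ) ^ 6 * (M : ℝ) ^ (D - 1) := by
        rw [hE]; ring
      have h12 : (M : ℝ) ^ D = (Real.sqrt M * Real.sqrt M) * (M : ℝ) ^ (D - 1) := by
        rw [Real.mul_self_sqrt hM0.le, ← pow_succ']
        congr 1; omega
      rw [h11, h12]
      calc D * 2 ^ D * (R : ℝ) ^ 6 * (M : ℝ) ^ (D - 1) * Real.log M ^ m
          ≤ D * 2 ^ D * Real.sqrt M * (M : ℝ) ^ (D - 1) * (K * Real.sqrt M) := by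
            have := hlog M (by omega)
            gcongr
        _ = _ := by ring
    calc (cnt.card : ℝ) * Real.log M ^ m
        ≤ ((M : ℝ) ^ D / (c * Real.log R ^ m) + (R : ℝ) ^ 4 * E) * Real.log M ^ m := by gcongr
      _ = (M : ℝ) ^ D / (c * Real.log R ^ m) * Real.log M ^ m +
          (R : ℝ) ^ 4 * E * Real.log M ^ m := by ring
      _ ≤ 24 ^ m / c * (M : ℝ) ^ D + D * 2 ^ D * K * (M : ℝ) ^ D := add_le_add hfirst hsecond
      _ ≤ (24 ^ m / c + D * 2 ^ D * K + (24 * Real.log 2) ^ m) * (M : ℝ) ^ D := by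
        have : 0 ≤ (24 * Real.log 2) ^ m * (M : ℝ) ^ D := by positivity
        nlinarith

end FHE
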