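import Pool.Agent.FHE.Defs

/-! SVN (~200 lines): local densities. `nuL Λ d` is the density of the solutions of
`d ∣ ∏_i Λ_i(x)`. For a prime `p`: identify `Fin p` with `ZMod p` (linear algebra over `ZMod p`): each
form is nonzero (`hne`), so it vanishes for `p^(D-1)` points; two different forms are linearly independent
(`hind`, determinant `±1`), so both vanish for `p^(D-2)` points. Union bound, and
`#⋃ ≥ ∑ # - ∑_{i<j} #∩` (Bonferroni; e.g. at each point with `k` vanishing forms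
`1_{k>0} ≥ k - k(k-1)/2`). To count: solve for one (resp. two) of the variables. -/

open MeasureTheory Filter Topology
open scoped ComplexConjugate

namespace FHE

variable {ι : Type*} [Fintype ι] {D : ℕ}

/-- value of the `i`-th form -/
def lf (Λ : ι → Fin D → ℕ) (i : ι) (x : Fin D → ℕ) : ℕ := ∑ k, Λ i k * x k

/-- number of points of the box for which `d` divides the product of the forms -/
def Nd (Λ : ι → Fin D → ℕ) (d M : ℕ) : ℕ :=
  (Finset.univ.filter fun x : Fin D → Fin M => d ∣ ∏ i, lf Λ i (fun k => (x k : ℕ))).card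

/-- the local density -/
noncomputable def nuL (Λ : ι → Fin D → ℕ) (d : ℕ) : ℝ := (Nd Λ d d : ℝ) / (d : ℝ) ^ D

private theorem svn_card_ker {V W : Type*} [AddCommGroup V] [AddCommGroup W] (f : V →+ W)
    (hf : Function.Surjective f) : Nat.card W * Nat.card f.ker = Nat.card V := by
  have h1 := AddSubgroup.card_eq_card_quotient_mul_card_addSubgroup f.ker
  have h2 : Nat.card (V ⧸ f.ker) = Nat.card W :=
    Nat.card_congr (QuotientAddGroup.quotientKerEquivOfSurjective f hf).toEquiv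
  rw [h1, h2]

private theorem svn_bij (p D : ℕ) [Fact p.Prime] :
    Function.Bijective (fun (x : Fin D → Fin p) (k : Fin D) => ((x k : ℕ) : ZMod p)) := by
  rw [Fintype.bijective_iff_injective_and_card]
  constructor
  · intro x y h
    funext k
    have h1 : ((x k : ℕ) : ZMod p) = ((y k : ℕ) : ZMod p) := congrFun h k
    rw [ZMod.natCast_eq_natCast_iff'] at h1
    rw [Nat.mod_eq_of_lt (x k).2, Nat.mod_eq_of_lt (y k).2] at h1
    exact Fin.ext h1
  · simp [ZMod.card]

/-- the forms over `ZMod p` -/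
private def svnF (Λ : ι → Fin D → ℕ) (p : ℕ) (i : ι) : (Fin D → ZMod p) →+ ZMod p where
  toFun x := ∑ k, (Λ i k : ZMod p) * x k
  map_zero' := by simp
  map_add' x y := by simp [mul_add, Finset.sum_add_distrib]

private theorem svnF_apply (Λ : ι → Fin D → ℕ) (p : ℕ) (i : ι) (x : Fin D → ZMod p) :
    svnF Λ p i x = ∑ k, (Λ i k : ZMod p) * x k := rfl

private theorem svnF_single (Λ : ι → Fin D → ℕ) (p : ℕ) (i : ι) (k : Fin D) (t : ZMod p) :
    svnF Λ p i (Pi.single k t) = Λ i k * t := by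
  rw [svnF_apply, Finset.sum_eq_single k]
  · simp
  · intro b _ hb
    simp [hb]
  · intro h
    exact absurd (Finset.mem_univ k) h

private theorem svn_key (Λ : ι → Fin D → ℕ) (p : ℕ) (i : ι) (x : Fin D → Fin p) :
    p ∣ lf Λ i (fun k => (x k : ℕ)) ↔ svnF Λ p i (fun k => ((x k : ℕ) : ZMod p)) = 0 := by
  rw [← ZMod.natCast_eq_zero_iff, svnF_apply]
  unfold lf
  push_cast
  rfl

private theorem svn_one (Λ : ι → Fin D → ℕ) {p : ℕ} (hp : p.Prime) (i : ι)
    (hne : ∃ k, Λ i k = 1) :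
    p * (Finset.univ.filter fun x : Fin D → Fin p =>
      p ∣ lf Λ i (fun k => (x k : ℕ))).card = p ^ D := by
  have : Fact p.Prime := ⟨hp⟩
  obtain ⟨k, hk⟩ := hne
  have hsurj : Function.Surjective (svnF Λ p i) := by
    intro t
    refine ⟨Pi.single k t, ?_⟩
    rw [svnF_single, hk]
    simp
  have h1 := svn_card_ker (svnF Λ p i) hsurj
  have e : {x : Fin D → Fin p // p ∣ lf Λ i (fun k => (x k : ℕ))} ≃ (svnF Λ p i).ker :=
    (Equiv.ofBijective _ (svn_bij p D)).subtypeEquiv fun x => by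
      rw [svn_key, AddMonoidHom.mem_ker]
      rfl
  have h2 : (Finset.univ.filter fun x : Fin D → Fin p =>
      p ∣ lf Λ i (fun k => (x k : ℕ))).card = Nat.card (svnF Λ p i).ker := by
    rw [← Nat.card_congr e, Nat.card_eq_fintype_card, Fintype.card_subtype]
  rw [h2]
  simpa [Nat.card_eq_fintype_card, ZMod.card] using h1

private theorem svn_two (Λ : ι → Fin D → ℕ) {p : ℕ} (hp : p.Prime) (i j : ι)
    (hind : ∃ k l, (Λ i k : ℤ) * Λ j l - Λ i l * Λ j k = 1) :
    p ^ 2 * (Finset.univ.filter fun x : Fin D → Fin p =>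
      p ∣ lf Λ i (fun k => (x k : ℕ)) ∧ p ∣ lf Λ j (fun k => (x k : ℕ))).card = p ^ D := by
  have : Fact p.Prime := ⟨hp⟩
  obtain ⟨k, l, hkl⟩ := hind
  have hdet : (Λ i k : ZMod p) * Λ j l - Λ i l * Λ j k = 1 := by
    have := congrArg (Int.cast : ℤ → ZMod p) hkl
    push_cast at this
    exact this
  have hsurj : Function.Surjective ((svnF Λ p i).prod (svnF Λ p j)) := by
    rintro ⟨s, t⟩
    refine ⟨Pi.single k (s * Λ j l - t * Λ i l) + Pi.single l (t * Λ i k - s * Λ j k), ?_⟩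
    rw [AddMonoidHom.prod_apply, map_add, map_add, svnF_single, svnF_single, svnF_single,
      svnF_single, Prod.mk.injEq]
    constructor
    · linear_combination s * hdet
    · linear_combination t * hdet
  have h1 := svn_card_ker ((svnF Λ p i).prod (svnF Λ p j)) hsurj
  have e : {x : Fin D → Fin p // p ∣ lf Λ i (fun k => (x k : ℕ)) ∧
      p ∣ lf Λ j (fun k => (x k : ℕ))} ≃ ((svnF Λ p i).prod (svnF Λ p j)).ker :=
    (Equiv.ofBijective _ (svn_bij p D)).subtypeEquiv fun x => by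
      rw [svn_key, svn_key, AddMonoidHom.mem_ker, AddMonoidHom.prod_apply, Prod.mk_eq_zero]
      rfl
  have h2 : (Finset.univ.filter fun x : Fin D → Fin p =>
      p ∣ lf Λ i (fun k => (x k : ℕ)) ∧ p ∣ lf Λ j (fun k => (x k : ℕ))).card =
      Nat.card ((svnF Λ p i).prod (svnF Λ p j)).ker := by
    rw [← Nat.card_congr e, Nat.card_eq_fintype_card, Fintype.card_subtype]
  rw [h2]
  have h3 : Nat.card (ZMod p × ZMod p) = p ^ 2 := by
    rw [Nat.card_prod, Nat.card_zmod, sq]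
  rw [h3] at h1
  rw [h1]
  simp [Nat.card_eq_fintype_card, ZMod.card]

private theorem svn_mem (Λ : ι → Fin D → ℕ) {p : ℕ} (hp : p.Prime) (x : Fin D → Fin p) :
    p ∣ ∏ i, lf Λ i (fun k => (x k : ℕ)) ↔ ∃ i, p ∣ lf Λ i (fun k => (x k : ℕ)) := by
  rw [hp.prime.dvd_finsetProd_iff]
  simp

theorem nuL_le (Λ : ι → Fin D → ℕ) (hne : ∀ i, ∃ k, Λ i k = 1) {p : ℕ} (hp : p.Prime) :
    nuL Λ p ≤ (Fintype.card ι : ℝ) / p := by
  classical
  have hp0 : (0 : ℝ) < p := by exact_mod_cast hp.pos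
  unfold nuL
  rw [div_le_div_iff₀ (by positivity) hp0]
  have h1 : Nd Λ p p ≤ ∑ i : ι, (Finset.univ.filter fun x : Fin D → Fin p =>
      p ∣ lf Λ i (fun k => (x k : ℕ))).card := by
    unfold Nd
    refine le_trans (Finset.card_le_card ?_) Finset.card_biUnion_le
    intro x hx
    simp only [Finset.mem_filter, Finset.mem_univ, true_and, Finset.mem_biUnion] at hx ⊢
    exact (svn_mem Λ hp x).1 hx
  have h2 : Nd Λ p p * p ≤ Fintype.card ι * p ^ D := by
    calc Nd Λ p p * p ≤ (∑ i : ι, (Finset.univ.filter fun x : Fin D → Fin p =>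
      p ∣ lf Λ i (fun k => (x k : ℕ))).card) * p := Nat.mul_le_mul_right p h1
      _ = ∑ i : ι, p ^ D := by
        rw [Finset.sum_mul]
        refine Finset.sum_congr rfl fun i _ => ?_
        rw [mul_comm, svn_one Λ hp i (hne i)]
      _ = Fintype.card ι * p ^ D := by simp
  exact_mod_cast h2

theorem nuL_ge_inv [Nonempty ι] (Λ : ι → Fin D → ℕ) (hne : ∀ i, ∃ k, Λ i k = 1) {p : ℕ}
    (hp : p.Prime) : 1 / (p : ℝ) ≤ nuL Λ p := by
  classical
  have hp0 : (0 : ℝ) < p := by exact_mod_cast hp.pos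
  obtain ⟨i⟩ := (inferInstance : Nonempty ι)
  unfold nuL
  rw [div_le_div_iff₀ hp0 (by positivity), one_mul]
  have h1 : (Finset.univ.filter fun x : Fin D → Fin p =>
      p ∣ lf Λ i (fun k => (x k : ℕ))).card ≤ Nd Λ p p := by
    unfold Nd
    refine Finset.card_le_card ?_
    intro x hx
    simp only [Finset.mem_filter, Finset.mem_univ, true_and] at hx ⊢
    exact (svn_mem Λ hp x).2 ⟨i, hx⟩
  have h2 : p ^ D ≤ Nd Λ p p * p := by
    rw [← svn_one Λ hp i (hne i), mul_comm]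
    exact Nat.mul_le_mul_right p h1
  exact_mod_cast h2

theorem nuL_ge (Λ : ι → Fin D → ℕ) (hne : ∀ i, ∃ k, Λ i k = 1)
    (hind : ∀ i j, i ≠ j → ∃ k l, (Λ i k : ℤ) * Λ j l - Λ i l * Λ j k = 1) {p : ℕ}
    (hp : p.Prime) :
    (Fintype.card ι : ℝ) / p - (Fintype.card ι : ℝ) ^ 2 / (2 * (p : ℝ) ^ 2) ≤ nuL Λ p := by
  classical
  have hp0 : (0 : ℝ) < p := by exact_mod_cast hp.pos
  obtain ⟨m, hm⟩ : ∃ m : ℝ, m = Fintype.card ι := ⟨_, rfl⟩
  have hm0 : 0 ≤ m := by
    rw [hm]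
    positivity
  -- indicator functions
  obtain ⟨χ, hχ⟩ : ∃ χ : ι → (Fin D → Fin p) → ℝ, ∀ i x, χ i x =
      if p ∣ lf Λ i (fun k => (x k : ℕ)) then 1 else 0 := ⟨_, fun _ _ => rfl⟩
  have hone : ∀ i, ∑ x, χ i x = (p : ℝ) ^ D / p := by
    intro i
    have h1 := svn_one Λ hp i (hne i)
    have h2 : (p : ℝ) * ((Finset.univ.filter fun x : Fin D → Fin p =>
      p ∣ lf Λ i (fun k => (x k : ℕ))).card : ℝ) = (p : ℝ) ^ D := by exact_mod_cast h1
    simp only [hχ]
    rw [Finset.sum_boole, eq_div_iff hp0.ne', mul_comm]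
    exact h2
  have htwo : ∀ i j, i ≠ j → ∑ x, χ i x * χ j x = (p : ℝ) ^ D / (p : ℝ) ^ 2 := by
    intro i j hij
    have h1 := svn_two Λ hp i j (hind i j hij)
    have h2 : (p : ℝ) ^ 2 * ((Finset.univ.filter fun x : Fin D → Fin p =>
      p ∣ lf Λ i (fun k => (x k : ℕ)) ∧ p ∣ lf Λ j (fun k => (x k : ℕ))).card : ℝ) =
        (p : ℝ) ^ D := by exact_mod_cast h1
    have h3 : ∀ x, χ i x * χ j x = if (p ∣ lf Λ i (fun k => (x k : ℕ)) ∧
        p ∣ lf Λ j (fun k => (x k : ℕ))) then 1 else 0 := by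
      intro x
      rw [hχ, hχ]
      by_cases ha : p ∣ lf Λ i (fun k => (x k : ℕ)) <;>
        by_cases hb : p ∣ lf Λ j (fun k => (x k : ℕ)) <;> simp [ha, hb]
    simp only [h3]
    rw [Finset.sum_boole, eq_div_iff (by positivity), mul_comm]
    exact h2
  have hself : ∀ i, ∑ x, χ i x * χ i x = (p : ℝ) ^ D / p := by
    intro i
    rw [← hone i]
    refine Finset.sum_congr rfl fun x _ => ?_
    rw [hχ]
    split_ifs <;> simp
  -- pointwise Bonferroni
  have hpt : ∀ x : Fin D → Fin p, (3 * (∑ i, χ i x) - (∑ i, χ i x) ^ 2) / 2 ≤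
      if p ∣ ∏ i, lf Λ i (fun k => (x k : ℕ)) then (1 : ℝ) else 0 := by
    intro x
    obtain ⟨c, hc⟩ : ∃ c : ℕ, (∑ i, χ i x) = (c : ℝ) ∧
        (c = 0 ↔ ¬ ∃ i, p ∣ lf Λ i (fun k => (x k : ℕ))) := by
      refine ⟨(Finset.univ.filter fun i => p ∣ lf Λ i (fun k => (x k : ℕ))).card, ?_, ?_⟩
      · simp only [hχ]
        rw [Finset.sum_boole]
      · rw [Finset.card_eq_zero, Finset.filter_eq_empty_iff]
        simp
    rw [hc.1]
    by_cases h : ∃ i, p ∣ lf Λ i (fun k => (x k : ℕ))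
    · rw [if_pos ((svn_mem Λ hp x).2 h)]
      have hc0 : c ≠ 0 := fun h0 => (hc.2.1 h0) h
      rcases Nat.lt_or_ge c 2 with h2 | h2
      · have : c = 1 := by omega
        subst this
        norm_num
      · have h3 : (2 : ℝ) ≤ c := by exact_mod_cast h2
        nlinarith
    · rw [if_neg (fun h0 => h ((svn_mem Λ hp x).1 h0))]
      have hc0 : c = 0 := hc.2.2 h
      subst hc0
      norm_num
  have hN : (Nd Λ p p : ℝ) = ∑ x : Fin D → Fin p,
      if p ∣ ∏ i, lf Λ i (fun k => (x k : ℕ)) then (1 : ℝ) else 0 := by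
    unfold Nd
    rw [Finset.sum_boole]
  have hsum : ∑ x : Fin D → Fin p, (3 * (∑ i, χ i x) - (∑ i, χ i x) ^ 2) / 2 =
      (3 * (m * ((p : ℝ) ^ D / p)) - (m * ((p : ℝ) ^ D / p) +
        m * (m - 1) * ((p : ℝ) ^ D / (p : ℝ) ^ 2))) / 2 := by
    rw [← Finset.sum_div, Finset.sum_sub_distrib, ← Finset.mul_sum]
    congr 2
    · congr 1
      rw [Finset.sum_comm]
      simp only [hone, Finset.sum_const, Finset.card_univ, nsmul_eq_mul, hm]
    · have h1 : ∀ x : Fin D → Fin p, (∑ i, χ i x) ^ 2 = ∑ i, ∑ j, χ i x * χ j x := by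
        intro x
        rw [sq, Finset.sum_mul_sum]
      simp only [h1]
      rw [Finset.sum_comm]
      have h2 : ∀ i, ∑ x, ∑ j, χ i x * χ j x = (p : ℝ) ^ D / p +
          (m - 1) * ((p : ℝ) ^ D / (p : ℝ) ^ 2) := by
        intro i
        rw [Finset.sum_comm, ← Finset.add_sum_erase _ _ (Finset.mem_univ i), hself]
        congr 1
        rw [Finset.sum_congr rfl fun j hj => htwo i j (Finset.ne_of_mem_erase hj).symm,
          Finset.sum_const, nsmul_eq_mul, Finset.card_erase_of_mem (Finset.mem_univ i),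
          Finset.card_univ, hm]
        have hpos : 1 ≤ Fintype.card ι := Fintype.card_pos_iff.2 ⟨i⟩
        push_cast [Nat.cast_sub hpos]
        ring
      simp only [h2, Finset.sum_const, Finset.card_univ, nsmul_eq_mul, ← hm]
      ring
  have hmain : (3 * (m * ((p : ℝ) ^ D / p)) - (m * ((p : ℝ) ^ D / p) +
        m * (m - 1) * ((p : ℝ) ^ D / (p : ℝ) ^ 2))) / 2 ≤ Nd Λ p p := by
    rw [← hsum, hN]
    exact Finset.sum_le_sum fun x _ => hpt x
  unfold nuL
  rw [← hm, le_div_iff₀ (by positivity)]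
  refine le_trans (sub_nonneg.1 ?_) hmain
  · have h1 : (3 * (m * ((p : ℝ) ^ D / p)) - (m * ((p : ℝ) ^ D / p) +
        m * (m - 1) * ((p : ℝ) ^ D / (p : ℝ) ^ 2))) / 2 -
        (m / p - m ^ 2 / (2 * (p : ℝ) ^ 2)) * (p : ℝ) ^ D =
        m * ((p : ℝ) ^ D / (p : ℝ) ^ 2) / 2 := by
      field_simp
      ring
    rw [h1]
    positivity

end FHE
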