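import Pool.Agent.FHE.Defs

/-! SVSA (~200 lines): the weights of Selberg's sieve. With `Q = ∏_{p ∈ A} p` (squarefree),
`ws_one`: `ν 1 = 1`. `ws_le`: the sum over `l` is at most `G`, and `1 / ν d ≤ d` (`ν p ≥ 1/p`).
`ws_quad`: `ν (lcm d e) = ν d ν e / ν (gcd d e)` and `1/ν k = ∑_{l ∣ k} 1/γ l` for `k ∣ Q`
(`1/ν p = 1 + (1 - ν p)/ν p`), so the sum is `∑_{l ∣ Q} (1/γ l) (∑_{l ∣ d ∣ Q} ν d w d)²`, and
`∑_{l ∣ d} ν d w d = G⁻¹ ∑_{k ≤ R} γ k ∑_{l ∣ d ∣ k} μ d = μ l γ l / G` if `l ≤ R`, else `0`. Compare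
the Mathlib file NumberTheory,SelbergSieve (`mainSum_lambdaSquared_eq_sum_mul_sum_sq`). -/

open MeasureTheory Filter Topology
open scoped ComplexConjugate

namespace FHE

/-- multiplicative extension to squarefree numbers -/
noncomputable def nuM (ν : ℕ → ℝ) (d : ℕ) : ℝ := ∏ p ∈ d.primeFactors, ν p

/-- Selberg's terms -/
noncomputable def gaM (ν : ℕ → ℝ) (d : ℕ) : ℝ := ∏ p ∈ d.primeFactors, ν p / (1 - ν p)

/-- Selberg's sum -/
noncomputable def GS (A : Finset ℕ) (ν : ℕ → ℝ) (R : ℕ) : ℝ :=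
  ∑ d ∈ (∏ p ∈ A, p).divisors.filter (fun d => d ≤ R), gaM ν d

/-- Selberg's weights -/
noncomputable def wS (A : Finset ℕ) (ν : ℕ → ℝ) (R d : ℕ) : ℝ :=
  if d ≤ R then (ArithmeticFunction.moebius d : ℝ) / (nuM ν d * GS A ν R) *
    ∑ l ∈ (∏ p ∈ A, p).divisors.filter (fun l => l ≤ R ∧ d ∣ l), gaM ν l else 0

private theorem svsa_sqf {A : Finset ℕ} (hA : ∀ p ∈ A, p.Prime) : Squarefree (∏ p ∈ A, p) := by
  classical
  induction A using Finset.induction_on with
  | empty => simp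
  | insert p s hp ih =>
    rw [Finset.prod_insert hp]
    have h1 : ∀ q ∈ s, q.Prime := fun q hq => hA q (Finset.mem_insert_of_mem hq)
    have hpp : p.Prime := hA p (Finset.mem_insert_self p s)
    have hcop : Nat.Coprime p (∏ q ∈ s, q) := by
      apply Nat.Coprime.prod_right
      intro q hq
      exact (Nat.coprime_primes hpp (h1 q hq)).mpr (fun h => hp (h ▸ hq))
    exact (Nat.squarefree_mul hcop).mpr ⟨hpp.squarefree, ih h1⟩

private theorem svsa_mem {A : Finset ℕ} (hA : ∀ p ∈ A, p.Prime) {p : ℕ} (hp : p.Prime)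
    (h : p ∣ ∏ q ∈ A, q) : p ∈ A := by
  rw [Prime.dvd_finsetProd_iff hp.prime] at h
  obtain ⟨q, hq, hpq⟩ := h
  rw [(Nat.prime_dvd_prime_iff_eq hp (hA q hq)).mp hpq]
  exact hq

private noncomputable def svsaNu (ν : ℕ → ℝ) : ArithmeticFunction ℝ :=
  ⟨fun n => if n = 0 then 0 else nuM ν n, if_pos rfl⟩

private theorem svsaNu_apply (ν : ℕ → ℝ) {n : ℕ} (hn : n ≠ 0) : svsaNu ν n = nuM ν n :=
  if_neg hn

private theorem svsaNu_mult (ν : ℕ → ℝ) : (svsaNu ν).IsMultiplicative := by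
  rw [ArithmeticFunction.IsMultiplicative.iff_ne_zero]
  refine ⟨?_, ?_⟩
  · rw [svsaNu_apply ν one_ne_zero, nuM]
    simp
  · intro m n hm hn hmn
    rw [svsaNu_apply ν hm, svsaNu_apply ν hn, svsaNu_apply ν (mul_ne_zero hm hn), nuM, nuM, nuM,
      hmn.primeFactors_mul, Finset.prod_union hmn.disjoint_primeFactors]

private noncomputable def svsaS {A : Finset ℕ} (hA : ∀ p ∈ A, p.Prime) {ν : ℕ → ℝ}
    (hν : ∀ p ∈ A, 1 / (p : ℝ) ≤ ν p ∧ ν p < 1) : BoundingSieve where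
  support := ∅
  prodPrimes := ∏ p ∈ A, p
  prodPrimes_squarefree := svsa_sqf hA
  weights := fun _ => 0
  weights_nonneg := fun _ => le_refl _
  totalMass := 0
  nu := svsaNu ν
  nu_mult := svsaNu_mult ν
  nu_pos_of_prime := by
    intro p hp h
    have h1 := svsa_mem hA hp h
    rw [svsaNu_apply ν hp.ne_zero, nuM, hp.primeFactors, Finset.prod_singleton]
    refine lt_of_lt_of_le ?_ (hν p h1).1
    have : (0 : ℝ) < p := by exact_mod_cast hp.pos
    positivity
  nu_lt_one_of_prime := by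
    intro p hp h
    have h1 := svsa_mem hA hp h
    rw [svsaNu_apply ν hp.ne_zero, nuM, hp.primeFactors, Finset.prod_singleton]
    exact (hν p h1).2

private theorem svsa_nu {A : Finset ℕ} (hA : ∀ p ∈ A, p.Prime) {ν : ℕ → ℝ}
    (hν : ∀ p ∈ A, 1 / (p : ℝ) ≤ ν p ∧ ν p < 1) {d : ℕ} (hd : d ≠ 0) :
    (svsaS hA hν).nu d = nuM ν d := svsaNu_apply ν hd

private theorem svsa_ga {A : Finset ℕ} (hA : ∀ p ∈ A, p.Prime) {ν : ℕ → ℝ}
    (hν : ∀ p ∈ A, 1 / (p : ℝ) ≤ ν p ∧ ν p < 1) {d : ℕ} (hd : d ≠ 0) :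
    (svsaS hA hν).selbergTerms d = gaM ν d := by
  rw [BoundingSieve.selbergTerms_apply, svsa_nu hA hν hd, nuM, gaM, ← Finset.prod_mul_distrib]
  apply Finset.prod_congr rfl
  intro p hp
  have hpp := Nat.prime_of_mem_primeFactors hp
  rw [svsa_nu hA hν hpp.ne_zero, nuM, hpp.primeFactors, Finset.prod_singleton, div_eq_mul_inv]

private theorem svsa_ga_pos {A : Finset ℕ} (hA : ∀ p ∈ A, p.Prime) {ν : ℕ → ℝ}
    (hν : ∀ p ∈ A, 1 / (p : ℝ) ≤ ν p ∧ ν p < 1) {d : ℕ} (hd : d ∣ ∏ p ∈ A, p) : 0 < gaM ν d := by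
  have hd0 : d ≠ 0 := ne_zero_of_dvd_ne_zero (svsa_sqf hA).ne_zero hd
  rw [← svsa_ga hA hν hd0]
  exact BoundingSieve.selbergTerms_pos hd

theorem GS_pos {A : Finset ℕ} (hA : ∀ p ∈ A, p.Prime) {ν : ℕ → ℝ}
    (hν : ∀ p ∈ A, 1 / (p : ℝ) ≤ ν p ∧ ν p < 1) {R : ℕ} (hR : 1 ≤ R) : 1 ≤ GS A ν R := by
  unfold GS
  have h1 : (1 : ℕ) ∈ (∏ p ∈ A, p).divisors.filter (fun d => d ≤ R) := by
    rw [Finset.mem_filter]
    exact ⟨Nat.one_mem_divisors.mpr (svsa_sqf hA).ne_zero, hR⟩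
  have h2 := Finset.single_le_sum (f := fun d => gaM ν d) (fun d hd =>
    (svsa_ga_pos hA hν (Nat.dvd_of_mem_divisors (Finset.mem_filter.mp hd).1)).le) h1
  calc (1 : ℝ) = gaM ν 1 := by simp [gaM]
    _ ≤ _ := h2

theorem ws_one {A : Finset ℕ} (hA : ∀ p ∈ A, p.Prime) {ν : ℕ → ℝ}
    (hν : ∀ p ∈ A, 1 / (p : ℝ) ≤ ν p ∧ ν p < 1) {R : ℕ} (hR : 1 ≤ R) : wS A ν R 1 = 1 := by
  have hG : 0 < GS A ν R := lt_of_lt_of_le zero_lt_one (GS_pos hA hν hR)
  have h1 : nuM ν 1 = 1 := by simp [nuM]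
  unfold wS
  rw [if_pos hR, h1, one_mul, ArithmeticFunction.moebius_apply_one, Int.cast_one]
  have h2 : (∏ p ∈ A, p).divisors.filter (fun l => l ≤ R ∧ 1 ∣ l) =
      (∏ p ∈ A, p).divisors.filter (fun d => d ≤ R) := by
    apply Finset.filter_congr
    intro l _
    simp
  rw [h2]
  change 1 / GS A ν R * GS A ν R = 1
  rw [one_div, inv_mul_cancel₀ hG.ne']

theorem ws_le {A : Finset ℕ} (hA : ∀ p ∈ A, p.Prime) {ν : ℕ → ℝ}
    (hν : ∀ p ∈ A, 1 / (p : ℝ) ≤ ν p ∧ ν p < 1) {R : ℕ} (hR : 1 ≤ R) {d : ℕ}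
    (hd : d ∣ ∏ p ∈ A, p) : |wS A ν R d| ≤ d := by
  have hG : 0 < GS A ν R := lt_of_lt_of_le zero_lt_one (GS_pos hA hν hR)
  have hQ := svsa_sqf hA
  have hd0 : d ≠ 0 := ne_zero_of_dvd_ne_zero hQ.ne_zero hd
  have hdpos : (0 : ℝ) < d := by exact_mod_cast Nat.pos_of_ne_zero hd0
  have hnu : 0 < nuM ν d := by
    rw [← svsa_nu hA hν hd0]
    exact BoundingSieve.nu_pos_of_dvd_prodPrimes hd
  have hnu2 : 1 / (d : ℝ) ≤ nuM ν d := by
    have h1 : (1 : ℝ) / d = ∏ p ∈ d.primeFactors, 1 / (p : ℝ) := by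
      rw [Finset.prod_div_distrib, Finset.prod_const_one]
      congr 1
      have h2 := Nat.prod_primeFactors_of_squarefree (hQ.squarefree_of_dvd hd)
      rw [← Nat.cast_prod, h2]
    rw [h1, nuM]
    apply Finset.prod_le_prod
    · intro p _
      positivity
    · intro p hp
      exact (hν p (svsa_mem hA (Nat.prime_of_mem_primeFactors hp)
        ((Nat.dvd_of_mem_primeFactors hp).trans hd))).1
  unfold wS
  split_ifs with h
  · have hle : ∑ l ∈ (∏ p ∈ A, p).divisors.filter (fun l => l ≤ R ∧ d ∣ l), gaM ν l ≤ GS A ν R := by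
      unfold GS
      apply Finset.sum_le_sum_of_subset_of_nonneg
      · intro l hl
        rw [Finset.mem_filter] at hl ⊢
        exact ⟨hl.1, hl.2.1⟩
      · intro l hl _
        exact (svsa_ga_pos hA hν (Nat.dvd_of_mem_divisors (Finset.mem_filter.mp hl).1)).le
    have h0 : 0 ≤ ∑ l ∈ (∏ p ∈ A, p).divisors.filter (fun l => l ≤ R ∧ d ∣ l), gaM ν l :=
      Finset.sum_nonneg (fun l hl =>
        (svsa_ga_pos hA hν (Nat.dvd_of_mem_divisors (Finset.mem_filter.mp hl).1)).le)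
    have hmu : |((ArithmeticFunction.moebius d : ℤ) : ℝ)| ≤ 1 := by
      have := ArithmeticFunction.abs_moebius_le_one (n := d)
      exact_mod_cast this
    rw [abs_mul, abs_div, abs_of_nonneg h0, abs_of_pos (mul_pos hnu hG), div_mul_eq_mul_div,
      div_le_iff₀ (mul_pos hnu hG)]
    calc |((ArithmeticFunction.moebius d : ℤ) : ℝ)| * _ ≤ 1 * GS A ν R :=
          mul_le_mul hmu hle h0 zero_le_one
      _ ≤ (d * nuM ν d) * GS A ν R := by
          apply mul_le_mul_of_nonneg_right _ hG.le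
          rw [div_le_iff₀ hdpos] at hnu2
          linarith
      _ = d * (nuM ν d * GS A ν R) := by ring
  · rw [abs_zero]
    exact hdpos.le

private theorem svsa_mu {l k : ℕ} (hk : Squarefree k) (hl : l ∣ k) :
    ∑ d ∈ k.divisors.filter (fun d => l ∣ d), (ArithmeticFunction.moebius d : ℝ) =
      if k = l then (ArithmeticFunction.moebius l : ℝ) else 0 := by
  classical
  obtain ⟨c, rfl⟩ := hl
  have hl0 : l ≠ 0 := by
    rintro rfl
    simp at hk
  have hc0 : c ≠ 0 := by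
    rintro rfl
    simp at hk
  have hcop : Nat.Coprime l c := Nat.coprime_of_squarefree_mul hk
  have h1 : (l * c).divisors.filter (fun d => l ∣ d) = c.divisors.image (fun e => l * e) := by
    ext d
    rw [Finset.mem_filter, Nat.mem_divisors, Finset.mem_image]
    constructor
    · rintro ⟨⟨h1, h2⟩, e, rfl⟩
      exact ⟨e, Nat.mem_divisors.mpr ⟨Nat.dvd_of_mul_dvd_mul_left (Nat.pos_of_ne_zero hl0) h1, hc0⟩,
        rfl⟩
    · rintro ⟨e, he, rfl⟩
      exact ⟨⟨Nat.mul_dvd_mul_left l (Nat.dvd_of_mem_divisors he), mul_ne_zero hl0 hc0⟩,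
        Dvd.intro _ rfl⟩
  rw [h1, Finset.sum_image (fun a _ b _ h => Nat.eq_of_mul_eq_mul_left (Nat.pos_of_ne_zero hl0) h)]
  have h2 : ∑ e ∈ c.divisors, (ArithmeticFunction.moebius (l * e) : ℝ) =
      (ArithmeticFunction.moebius l : ℝ) * ∑ e ∈ c.divisors, (ArithmeticFunction.moebius e : ℝ) := by
    rw [Finset.mul_sum]
    apply Finset.sum_congr rfl
    intro e he
    have h3 : Nat.Coprime l e := hcop.coprime_dvd_right (Nat.dvd_of_mem_divisors he)
    rw [ArithmeticFunction.isMultiplicative_moebius.map_mul_of_coprime h3]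
    push_cast
    rfl
  rw [h2]
  have h4 : ∑ e ∈ c.divisors, (ArithmeticFunction.moebius e : ℝ) = if c = 1 then 1 else 0 := by
    have h5 : ∑ e ∈ c.divisors, ArithmeticFunction.moebius e = if c = 1 then 1 else 0 := by
      rw [← ArithmeticFunction.coe_zeta_mul_apply, ArithmeticFunction.coe_zeta_mul_moebius,
        ArithmeticFunction.one_apply]
    exact_mod_cast h5
  rw [h4]
  by_cases hc : c = 1
  · subst hc
    simp
  · rw [if_neg hc, if_neg, mul_zero]
    intro h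
    apply hc
    have : l * c = l * 1 := by rw [mul_one]; exact h
    exact Nat.eq_of_mul_eq_mul_left (Nat.pos_of_ne_zero hl0) this

theorem ws_quad {A : Finset ℕ} (hA : ∀ p ∈ A, p.Prime) {ν : ℕ → ℝ}
    (hν : ∀ p ∈ A, 1 / (p : ℝ) ≤ ν p ∧ ν p < 1) {R : ℕ} (hR : 1 ≤ R) :
    ∑ d ∈ (∏ p ∈ A, p).divisors, ∑ e ∈ (∏ p ∈ A, p).divisors,
      wS A ν R d * wS A ν R e * nuM ν (Nat.lcm d e) = 1 / GS A ν R := by
  classical
  have hG : 0 < GS A ν R := lt_of_lt_of_le zero_lt_one (GS_pos hA hν hR)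
  set s := svsaS hA hν with hs
  set Q := ∏ p ∈ A, p with hQdef
  have hQs : s.prodPrimes = Q := rfl
  have hQ : Squarefree Q := svsa_sqf hA
  have hdne : ∀ d ∈ Q.divisors, d ≠ 0 := fun d hd =>
    ne_zero_of_dvd_ne_zero hQ.ne_zero (Nat.dvd_of_mem_divisors hd)
  have e1 : ∑ d ∈ Q.divisors, ∑ e ∈ Q.divisors,
      wS A ν R d * wS A ν R e * nuM ν (Nat.lcm d e) =
      ∑ d1 ∈ Q.divisors, ∑ d2 ∈ Q.divisors,
        s.nu d1 * wS A ν R d1 * s.nu d2 * wS A ν R d2 * (s.nu (d1.gcd d2))⁻¹ := by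
    apply Finset.sum_congr rfl
    intro d hd
    apply Finset.sum_congr rfl
    intro e he
    have h1 : d.lcm e ∣ Q := Nat.lcm_dvd_iff.mpr
      ⟨Nat.dvd_of_mem_divisors hd, Nat.dvd_of_mem_divisors he⟩
    have h2 : d.lcm e ≠ 0 := ne_zero_of_dvd_ne_zero hQ.ne_zero h1
    rw [← svsa_nu hA hν h2, s.nu_mult.map_lcm]
    · ring
    · refine (BoundingSieve.nu_pos_of_dvd_prodPrimes ?_).ne'
      exact (Nat.gcd_dvd_left d e).trans (Nat.dvd_of_mem_divisors hd)
  have e2 := BoundingSieve.mainSum_lambdaSquared_eq_sum_sum_mul (s := s) (wS A ν R)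
  have e3 := BoundingSieve.mainSum_lambdaSquared_eq_sum_mul_sum_sq (s := s) (wS A ν R)
  rw [hQs] at e2 e3
  rw [e1, ← e2, e3]
  have hy : ∀ l ∈ Q.divisors, (∑ d ∈ Q.divisors, if l ∣ d then s.nu d * wS A ν R d else 0) =
      if l ≤ R then (ArithmeticFunction.moebius l : ℝ) * gaM ν l / GS A ν R else 0 := by
    intro l hl
    have h1 : ∀ d ∈ Q.divisors, s.nu d * wS A ν R d =
        ∑ k ∈ Q.divisors.filter (fun k => k ≤ R), if d ∣ k then
          (ArithmeticFunction.moebius d : ℝ) * gaM ν k / GS A ν R else 0 := by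
      intro d hd
      have hd0 := hdne d hd
      have hnu : 0 < nuM ν d := by
        rw [← svsa_nu hA hν hd0]
        exact BoundingSieve.nu_pos_of_dvd_prodPrimes (Nat.dvd_of_mem_divisors hd)
      rw [hs, svsa_nu hA hν hd0, ← Finset.sum_filter, Finset.filter_filter]
      unfold wS
      split_ifs with h
      · rw [← Finset.sum_div, ← Finset.mul_sum, ← hQdef]
        field_simp
      · rw [mul_zero, Finset.sum_eq_zero]
        intro k hk
        rw [Finset.mem_filter, Nat.mem_divisors] at hk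
        exfalso
        apply h
        exact (Nat.le_of_dvd (Nat.pos_of_ne_zero (ne_zero_of_dvd_ne_zero hQ.ne_zero hk.1.1))
          hk.2.2).trans hk.2.1
    have h2 : (∑ d ∈ Q.divisors, if l ∣ d then s.nu d * wS A ν R d else 0) =
        ∑ k ∈ Q.divisors.filter (fun k => k ≤ R), gaM ν k / GS A ν R *
          ∑ d ∈ Q.divisors, if l ∣ d ∧ d ∣ k then (ArithmeticFunction.moebius d : ℝ) else 0 := by
      simp_rw [Finset.mul_sum]
      rw [Finset.sum_comm]
      apply Finset.sum_congr rfl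
      intro d hd
      split_ifs with h
      · rw [h1 d hd]
        apply Finset.sum_congr rfl
        intro k _
        by_cases hk : d ∣ k
        · rw [if_pos hk, if_pos ⟨h, hk⟩]
          ring
        · rw [if_neg hk, if_neg (fun h' => hk h'.2), mul_zero]
      · rw [Finset.sum_eq_zero]
        intro k _
        rw [if_neg (fun h' => h h'.1), mul_zero]
    rw [h2]
    have h3 : ∀ k ∈ Q.divisors.filter (fun k => k ≤ R),
        (∑ d ∈ Q.divisors, if l ∣ d ∧ d ∣ k then (ArithmeticFunction.moebius d : ℝ) else 0) =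
        if k = l then (ArithmeticFunction.moebius l : ℝ) else 0 := by
      intro k hk
      rw [Finset.mem_filter, Nat.mem_divisors] at hk
      have hk0 : k ≠ 0 := ne_zero_of_dvd_ne_zero hQ.ne_zero hk.1.1
      have hfil : Q.divisors.filter (fun d => l ∣ d ∧ d ∣ k) = k.divisors.filter (fun d => l ∣ d) := by
        ext d
        simp only [Finset.mem_filter, Nat.mem_divisors]
        constructor
        · rintro ⟨_, h5, h6⟩
          exact ⟨⟨h6, hk0⟩, h5⟩
        · rintro ⟨⟨h6, _⟩, h5⟩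
          exact ⟨⟨h6.trans hk.1.1, hQ.ne_zero⟩, h5, h6⟩
      rw [← Finset.sum_filter, hfil]
      by_cases hlk : l ∣ k
      · exact svsa_mu (hQ.squarefree_of_dvd hk.1.1) hlk
      · rw [if_neg (fun h : k = l => hlk (h ▸ dvd_refl _)), Finset.sum_eq_zero]
        intro d hd
        rw [Finset.mem_filter, Nat.mem_divisors] at hd
        exact absurd (hd.2.trans hd.1.1) hlk
    rw [Finset.sum_congr rfl (fun k hk => by rw [h3 k hk])]
    simp_rw [mul_ite, mul_zero]
    by_cases hlR : l ≤ R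
    · rw [if_pos hlR, Finset.sum_ite_eq' _ l, if_pos (Finset.mem_filter.mpr ⟨hl, hlR⟩)]
      ring
    · rw [if_neg hlR, Finset.sum_ite_eq' _ l, if_neg (fun h : l ∈ Q.divisors.filter (fun k => k ≤ R) =>
        hlR (Finset.mem_filter.mp h).2)]
  rw [Finset.sum_congr rfl (fun l hl => by rw [hy l hl])]
  have h6 : ∀ l ∈ Q.divisors, (s.selbergTerms l)⁻¹ *
      (if l ≤ R then (ArithmeticFunction.moebius l : ℝ) * gaM ν l / GS A ν R else 0) ^ 2 =
      if l ≤ R then gaM ν l / GS A ν R ^ 2 else 0 := by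
    intro l hl
    have hl0 := hdne l hl
    have hga := svsa_ga_pos hA hν (Nat.dvd_of_mem_divisors hl)
    rw [hs, svsa_ga hA hν hl0]
    split_ifs with h
    · have hmu : ((ArithmeticFunction.moebius l : ℤ) : ℝ) ^ 2 = 1 := by
        have := ArithmeticFunction.moebius_sq_eq_one_of_squarefree
          (hQ.squarefree_of_dvd (Nat.dvd_of_mem_divisors hl))
        exact_mod_cast this
      rw [div_pow, mul_pow, hmu, one_mul]
      field_simp
    · simp
  rw [Finset.sum_congr rfl h6, ← Finset.sum_filter, ← Finset.sum_div]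
  change GS A ν R / GS A ν R ^ 2 = 1 / GS A ν R
  field_simp

end FHE
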