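import Pool.Agent.FHE.Defs

/-! SVTA (~150 lines): sums of `m^ω(d) / d` over squarefree `d` with prime factors `> k`.
`tm_one`: every `n ≤ R` is `n = a b c²` with `a` squarefree with prime factors `> k`, `b` a squarefree
number with prime factors `≤ k`, so `log R ≤ ∑_{n ≤ R} 1/n ≤ Tm 1 k R * (∑_b 1/b) * (∑_c 1/c²)`
(`Nat.sq_mul_squarefree`; the `b` are divisors of a fixed number). -/

open MeasureTheory Filter Topology
open scoped ComplexConjugate

namespace FHE

/-- sum of `m^ω(d) / d` over squarefree `d ≤ R` with prime factors `> k` -/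
noncomputable def Tm (m k R : ℕ) : ℝ :=
  ∑ d ∈ (Finset.Icc 1 R).filter (fun d => Squarefree d ∧ ∀ p ∈ d.primeFactors, k < p),
    (m : ℝ) ^ d.primeFactors.card / d

theorem tm_mono {m k R R' : ℕ} (h : R ≤ R') : Tm m k R ≤ Tm m k R' := by
  unfold Tm
  apply Finset.sum_le_sum_of_subset_of_nonneg
  · intro d hd
    rw [Finset.mem_filter, Finset.mem_Icc] at hd ⊢
    exact ⟨⟨hd.1.1, hd.1.2.trans h⟩, hd.2⟩
  · intro d _ _
    positivity

theorem tm_one_le {m k R : ℕ} (hR : 1 ≤ R) : 1 ≤ Tm m k R := by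
  unfold Tm
  have h1 : (1 : ℕ) ∈ (Finset.Icc 1 R).filter
      (fun d => Squarefree d ∧ ∀ p ∈ d.primeFactors, k < p) := by
    rw [Finset.mem_filter, Finset.mem_Icc]
    refine ⟨⟨le_refl _, hR⟩, squarefree_one, ?_⟩
    intro p hp
    simp at hp
  have h2 := Finset.single_le_sum (f := fun d : ℕ => (m : ℝ) ^ d.primeFactors.card / d)
    (fun d _ => by positivity) h1
  simpa using h2

private theorem svta_split (k n : ℕ) (hn : 1 ≤ n) : ∃ x : ℕ × ℕ × ℕ,
    x.1 * (x.2.1 * x.2.2 ^ 2) = n ∧ Squarefree x.1 ∧ (∀ p ∈ x.1.primeFactors, k < p) ∧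
    x.2.1 ∣ ∏ p ∈ Finset.range (k + 1) with p.Prime, p := by
  obtain ⟨t, s, hst, hsq⟩ := Nat.sq_mul_squarefree n
  have ht0 : t ≠ 0 := hsq.ne_zero
  have hprod : ∏ p ∈ t.primeFactors, p = t := Nat.prod_primeFactors_of_squarefree hsq
  set a := ∏ p ∈ t.primeFactors with k < p, p with ha
  set b := ∏ p ∈ t.primeFactors with ¬ k < p, p with hb
  have hab : a * b = t := by
    rw [ha, hb, Finset.prod_filter_mul_prod_filter_not, hprod]
  have hat : a ∣ t := Dvd.intro _ hab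
  have hpr : ∀ p ∈ t.primeFactors.filter (fun p => k < p), Prime p := by
    intro p hp
    exact (Nat.prime_of_mem_primeFactors (Finset.mem_filter.mp hp).1).prime
  refine ⟨(a, b, s), ?_, hsq.squarefree_of_dvd hat, ?_, ?_⟩
  · simp only
    rw [← hst, ← hab]
    ring
  · intro p hp
    have hpp := Nat.prime_of_mem_primeFactors hp
    have hpa : p ∣ ∏ q ∈ t.primeFactors with k < q, q := Nat.dvd_of_mem_primeFactors hp
    rw [Prime.dvd_finsetProd_iff hpp.prime] at hpa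
    obtain ⟨q, hq, hpq⟩ := hpa
    rw [Finset.mem_filter] at hq
    have h3 := (Nat.prime_dvd_prime_iff_eq hpp (Nat.prime_of_mem_primeFactors hq.1)).mp hpq
    rw [h3]
    exact hq.2
  · change b ∣ _
    rw [hb]
    refine Finset.prod_dvd_prod_of_subset _ _ _ ?_
    intro p hp
    rw [Finset.mem_filter] at hp ⊢
    refine ⟨?_, Nat.prime_of_mem_primeFactors hp.1⟩
    rw [Finset.mem_range]
    have := hp.2
    omega

theorem tm_one (k : ℕ) : ∃ c : ℝ, 0 < c ∧ ∀ R : ℕ, 1 ≤ R → c * Real.log R ≤ Tm 1 k R := by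
  classical
  choose! g hg1 hg2 hg3 hg4 using svta_split k
  set Q := ∏ p ∈ Finset.range (k + 1) with p.Prime, p with hQ
  have hQ0 : Q ≠ 0 := by
    rw [hQ]
    apply Finset.prod_ne_zero_iff.mpr
    intro p hp
    exact (Finset.mem_filter.mp hp).2.ne_zero
  set B := ∑ b ∈ Q.divisors, (1 : ℝ) / b with hB
  have hsum : Summable (fun c : ℕ => (1 : ℝ) / (c : ℝ) ^ 2) :=
    Real.summable_one_div_nat_pow.mpr (by norm_num)
  obtain ⟨Z, hZ⟩ : ∃ Z : ℝ, Z = ∑' c : ℕ, (1 : ℝ) / (c : ℝ) ^ 2 := ⟨_, rfl⟩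
  have hZle : ∀ s : Finset ℕ, ∑ c ∈ s, (1 : ℝ) / (c : ℝ) ^ 2 ≤ Z := by
    intro s
    rw [hZ]
    exact hsum.sum_le_tsum s (fun c _ => by positivity)
  have hB1 : 1 ≤ B := by
    have h1 : (1 : ℕ) ∈ Q.divisors := Nat.one_mem_divisors.mpr hQ0
    have h2 := Finset.single_le_sum (f := fun b : ℕ => (1 : ℝ) / b) (fun d _ => by positivity) h1
    calc (1 : ℝ) = 1 / ((1 : ℕ) : ℝ) := by norm_num
      _ ≤ B := h2
  have hZ1 : 1 ≤ Z := by
    have h2 := hsum.le_tsum 1 (fun c _ => by positivity)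
    calc (1 : ℝ) = 1 / ((1 : ℕ) : ℝ) ^ 2 := by norm_num
      _ ≤ Z := by rw [hZ]; exact h2
  have hBZ : 0 < B * Z := by positivity
  refine ⟨1 / (B * Z), by positivity, ?_⟩
  intro R hR
  set S := (Finset.Icc 1 R).filter (fun d => Squarefree d ∧ ∀ p ∈ d.primeFactors, k < p) with hS
  have hTm : Tm 1 k R = ∑ d ∈ S, (1 : ℝ) / d := by
    unfold Tm
    apply Finset.sum_congr rfl
    intro d _
    simp
  have hlog : Real.log R ≤ ∑ n ∈ Finset.Icc 1 R, (1 : ℝ) / n := by
    have h1 := log_add_one_le_harmonic R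
    have h2 : Real.log R ≤ Real.log ((R : ℕ) + 1 : ℕ) := by
      apply Real.log_le_log
      · exact_mod_cast hR
      · push_cast
        linarith
    have h3 : ((harmonic R : ℚ) : ℝ) = ∑ n ∈ Finset.Icc 1 R, (1 : ℝ) / n := by
      rw [harmonic_eq_sum_Icc]
      push_cast
      apply Finset.sum_congr rfl
      intro n _
      rw [one_div]
    rw [← h3]
    push_cast at h1 h2
    exact h2.trans h1
  have hmain : ∑ n ∈ Finset.Icc 1 R, (1 : ℝ) / n ≤ Tm 1 k R * (B * Z) := by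
    set f : ℕ × ℕ × ℕ → ℝ := fun x => (1 : ℝ) / x.1 * ((1 : ℝ) / x.2.1 * ((1 : ℝ) / (x.2.2 : ℝ) ^ 2))
      with hf
    have e1 : ∑ n ∈ Finset.Icc 1 R, (1 : ℝ) / n = ∑ n ∈ Finset.Icc 1 R, f (g n) := by
      apply Finset.sum_congr rfl
      intro n hn
      have hn1 := (Finset.mem_Icc.mp hn).1
      have h2 := hg1 n hn1
      have h3 : (n : ℝ) = ((g n).1 : ℝ) * (((g n).2.1 : ℝ) * ((g n).2.2 : ℝ) ^ 2) := by
        exact_mod_cast h2.symm
      simp only [hf]
      rw [h3, one_div_mul_one_div, one_div_mul_one_div]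
    have hinj : Set.InjOn g (Finset.Icc 1 R) := by
      intro n hn n' hn' h
      have h1 := hg1 n (Finset.mem_Icc.mp (Finset.mem_coe.mp hn)).1
      have h2 := hg1 n' (Finset.mem_Icc.mp (Finset.mem_coe.mp hn')).1
      rw [← h1, ← h2, h]
    have e2 : ∑ n ∈ Finset.Icc 1 R, f (g n) = ∑ x ∈ (Finset.Icc 1 R).image g, f x :=
      (Finset.sum_image hinj).symm
    have e3 : ∑ x ∈ (Finset.Icc 1 R).image g, f x ≤
        ∑ x ∈ S ×ˢ (Q.divisors ×ˢ Finset.range (R + 1)), f x := by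
      apply Finset.sum_le_sum_of_subset_of_nonneg
      · intro x hx
        obtain ⟨n, hn, rfl⟩ := Finset.mem_image.mp hx
        have hn1 := (Finset.mem_Icc.mp hn).1
        have hn2 := (Finset.mem_Icc.mp hn).2
        have h2 := hg1 n hn1
        have hd1 : (g n).1 ∣ n := Dvd.intro _ h2
        have hd2 : (g n).2.2 ∣ n := by
          exact ((dvd_pow_self (g n).2.2 two_ne_zero).trans (Dvd.intro_left _ rfl)).trans
            (Dvd.intro_left _ h2)
        rw [Finset.mem_product, Finset.mem_product, Finset.mem_range, hS, Finset.mem_filter,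
          Finset.mem_Icc, Nat.mem_divisors]
        refine ⟨⟨⟨Nat.pos_of_dvd_of_pos hd1 hn1, (Nat.le_of_dvd hn1 hd1).trans hn2⟩, hg2 n hn1,
          hg3 n hn1⟩, ⟨hg4 n hn1, hQ0⟩, ?_⟩
        exact Nat.lt_succ_of_le ((Nat.le_of_dvd hn1 hd2).trans hn2)
      · intro x _ _
        simp only [hf]
        positivity
    have e4 : ∑ x ∈ S ×ˢ (Q.divisors ×ˢ Finset.range (R + 1)), f x =
        (∑ d ∈ S, (1 : ℝ) / d) * (B * ∑ c ∈ Finset.range (R + 1), (1 : ℝ) / (c : ℝ) ^ 2) := by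
      rw [hB, Finset.sum_mul_sum, ← Finset.sum_product', Finset.sum_mul_sum, ← Finset.sum_product']
    rw [e1, e2]
    refine e3.trans ?_
    rw [e4, hTm]
    apply mul_le_mul_of_nonneg_left _ (Finset.sum_nonneg (fun d _ => by positivity))
    apply mul_le_mul_of_nonneg_left _ (by positivity)
    exact hZle _
  rw [div_mul_eq_mul_div, one_mul, div_le_iff₀ hBZ]
  exact hlog.trans hmain

end FHE
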