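import Pool.Agent.FHE.SVTA

/-! SVTB (~180 lines): for squarefree `l`, `(m+1)^ω(l) = ∑_{d ∣ l} m^ω(d)`, so
`Tm (m+1) k (R²) ≥ ∑_{d,e ≤ R, (d,e)=1} m^ω(d)/(d e)` (all `d, e` squarefree with prime factors `> k`); and,
with `c = (d, e)`, `d = c d'`, `e = c e'` (`c, d', e'` pairwise coprime),
`Tm m k R * Tm 1 k R ≤ ∑_c m^ω(c)/c² * ∑_{(d',e')=1} m^ω(d')/(d' e')`, where `m^ω(c) ≤ c^(1/4)` because all
prime factors of `c` are `> m^4`, so the sum over `c` is bounded (by `∑ c^(-7/4)`). -/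

open MeasureTheory Filter Topology
open scoped ComplexConjugate

namespace FHE

private theorem svtb_sum_pow (m : ℕ) {l : ℕ} (hl : Squarefree l) :
    ((m : ℝ) + 1) ^ l.primeFactors.card = ∑ d ∈ l.divisors, (m : ℝ) ^ d.primeFactors.card := by
  have h1 : ∑ d ∈ l.divisors, (m : ℝ) ^ d.primeFactors.card =
      ∑ s ∈ l.primeFactors.powerset, (m : ℝ) ^ s.card := by
    have h2 := Nat.sum_divisors_filter_squarefree hl.ne_zero
      (f := fun d : ℕ => (m : ℝ) ^ d.primeFactors.card)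
    rw [Finset.filter_true_of_mem (fun d hd =>
      hl.squarefree_of_dvd (Nat.dvd_of_mem_divisors hd))] at h2
    rw [h2, Nat.factors_eq]
    apply Finset.sum_congr rfl
    intro s hs
    have h3 : s.val.prod = ∏ p ∈ s, p := Finset.prod_val s
    rw [h3, Nat.primeFactors_prod]
    intro p hp
    exact Nat.prime_of_mem_primeFactors (Finset.mem_powerset.mp hs hp)
  rw [h1, Finset.sum_powerset_apply_card (fun j => (m : ℝ) ^ j), add_pow]
  apply Finset.sum_congr rfl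
  intro j _
  rw [one_pow, mul_one, nsmul_eq_mul, mul_comm]

private theorem svtb_pow_le {m k c : ℕ} (hk : m ^ 4 ≤ k) (hc : Squarefree c)
    (hp : ∀ p ∈ c.primeFactors, k < p) : (m ^ c.primeFactors.card) ^ 2 ≤ c := by
  rcases Nat.eq_zero_or_pos m with h0 | h0
  · subst h0
    rcases Nat.eq_zero_or_pos c.primeFactors.card with h1 | h1
    · rw [h1]
      rw [pow_zero, one_pow]
      exact Nat.pos_of_ne_zero hc.ne_zero
    · rw [zero_pow h1.ne']
      simp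
  · have h1 : (m ^ c.primeFactors.card) ^ 2 ≤ (m ^ c.primeFactors.card) ^ 4 :=
      Nat.pow_le_pow_right (Nat.pow_pos h0) (by norm_num)
    refine h1.trans ?_
    rw [← pow_mul, mul_comm, pow_mul]
    calc (m ^ 4) ^ c.primeFactors.card = ∏ _p ∈ c.primeFactors, m ^ 4 := by
          rw [Finset.prod_const]
      _ ≤ ∏ p ∈ c.primeFactors, p := by
          apply Finset.prod_le_prod'
          intro p hp'
          exact hk.trans (hp p hp').le
      _ = c := Nat.prod_primeFactors_of_squarefree hc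

/-- the set of squarefree numbers up to `R` with large prime factors -/
private noncomputable def svtbS (k R : ℕ) : Finset ℕ :=
  (Finset.Icc 1 R).filter (fun d => Squarefree d ∧ ∀ p ∈ d.primeFactors, k < p)

private theorem svtb_mem {k R d : ℕ} : d ∈ svtbS k R ↔
    (1 ≤ d ∧ d ≤ R) ∧ Squarefree d ∧ ∀ p ∈ d.primeFactors, k < p := by
  unfold svtbS
  rw [Finset.mem_filter, Finset.mem_Icc]

private theorem svtb_dvd {k R d d' : ℕ} (hd : d ∈ svtbS k R) (h : d' ∣ d) : d' ∈ svtbS k R := by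
  rw [svtb_mem] at hd ⊢
  have hpos : 0 < d := hd.1.1
  refine ⟨⟨Nat.pos_of_dvd_of_pos h hpos, (Nat.le_of_dvd hpos h).trans hd.1.2⟩,
    hd.2.1.squarefree_of_dvd h, ?_⟩
  intro p hp
  exact hd.2.2 p (Nat.primeFactors_mono h hpos.ne' hp)

/-- coprime pairs -/
private noncomputable def svtbP (k R : ℕ) : Finset (ℕ × ℕ) :=
  (svtbS k R ×ˢ svtbS k R).filter (fun x => Nat.Coprime x.1 x.2)

private theorem svtb_lower (m k R : ℕ) :
    ∑ x ∈ svtbP k R, (m : ℝ) ^ x.1.primeFactors.card / ((x.1 : ℝ) * x.2) ≤ Tm (m + 1) k (R ^ 2) := by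
  classical
  have e1 : Tm (m + 1) k (R ^ 2) = ∑ l ∈ svtbS k (R ^ 2), ∑ d ∈ l.divisors,
      (m : ℝ) ^ d.primeFactors.card / l := by
    unfold Tm svtbS
    apply Finset.sum_congr rfl
    intro l hl
    rw [Finset.mem_filter] at hl
    push_cast
    rw [svtb_sum_pow m hl.2.1, Finset.sum_div]
  rw [e1, Finset.sum_sigma']
  set g : ℕ × ℕ → (Σ _ : ℕ, ℕ) := fun x => ⟨x.1 * x.2, x.1⟩ with hg
  have hinj : Set.InjOn g (svtbP k R) := by
    intro x hx y hy h
    simp only [hg, Sigma.mk.injEq, heq_eq_eq] at h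
    have hx1 : x ∈ svtbP k R := hx
    unfold svtbP at hx1
    rw [Finset.mem_filter, Finset.mem_product] at hx1
    have hpos : 0 < x.1 := (svtb_mem.mp hx1.1.1).1.1
    have h2 : x.1 = y.1 := h.2
    have h3 : x.1 * x.2 = x.1 * y.2 := by rw [h.1, h2]
    exact Prod.ext h2 (Nat.eq_of_mul_eq_mul_left hpos h3)
  have e2 : ∑ x ∈ svtbP k R, (m : ℝ) ^ x.1.primeFactors.card / ((x.1 : ℝ) * x.2) =
      ∑ y ∈ (svtbP k R).image g, (m : ℝ) ^ y.2.primeFactors.card / (y.1 : ℝ) := by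
    rw [Finset.sum_image hinj]
    apply Finset.sum_congr rfl
    intro x _
    simp only [hg]
    push_cast
    rfl
  rw [e2]
  apply Finset.sum_le_sum_of_subset_of_nonneg
  · intro y hy
    obtain ⟨x, hx, rfl⟩ := Finset.mem_image.mp hy
    unfold svtbP at hx
    rw [Finset.mem_filter, Finset.mem_product] at hx
    have h1 := svtb_mem.mp hx.1.1
    have h2 := svtb_mem.mp hx.1.2
    rw [Finset.mem_sigma, svtb_mem, Nat.mem_divisors]
    simp only [hg]
    refine ⟨⟨⟨Nat.mul_pos h1.1.1 h2.1.1, ?_⟩, ?_, ?_⟩, Dvd.intro _ rfl,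
      (Nat.mul_pos h1.1.1 h2.1.1).ne'⟩
    · rw [sq]
      exact Nat.mul_le_mul h1.1.2 h2.1.2
    · exact (Nat.squarefree_mul hx.2).mpr ⟨h1.2.1, h2.2.1⟩
    · intro p hp
      rw [Nat.primeFactors_mul (by omega) (by omega), Finset.mem_union] at hp
      rcases hp with hp | hp
      · exact h1.2.2 p hp
      · exact h2.2.2 p hp
  · intro y _ _
    positivity

private theorem svtb_upper (m k R : ℕ) :
    Tm m k R * Tm 1 k R ≤ (∑ c ∈ svtbS k R, (m : ℝ) ^ c.primeFactors.card / (c : ℝ) ^ 2) *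
      ∑ x ∈ svtbP k R, (m : ℝ) ^ x.1.primeFactors.card / ((x.1 : ℝ) * x.2) := by
  classical
  have e1 : Tm m k R * Tm 1 k R = ∑ x ∈ svtbS k R ×ˢ svtbS k R,
      (m : ℝ) ^ x.1.primeFactors.card / ((x.1 : ℝ) * x.2) := by
    unfold Tm
    rw [Finset.sum_mul_sum, ← Finset.sum_product']
    apply Finset.sum_congr rfl
    intro x _
    rw [Nat.cast_one, one_pow, div_mul_div_comm, mul_one]
  rw [e1, Finset.sum_mul_sum, ← Finset.sum_product']
  set g : ℕ × ℕ → ℕ × (ℕ × ℕ) := fun x =>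
    (Nat.gcd x.1 x.2, (x.1 / Nat.gcd x.1 x.2, x.2 / Nat.gcd x.1 x.2)) with hg
  have hrec : ∀ x : ℕ × ℕ, (g x).1 * (g x).2.1 = x.1 ∧ (g x).1 * (g x).2.2 = x.2 := by
    intro x
    exact ⟨Nat.mul_div_cancel' (Nat.gcd_dvd_left _ _), Nat.mul_div_cancel' (Nat.gcd_dvd_right _ _)⟩
  have hinj : Set.InjOn g (svtbS k R ×ˢ svtbS k R : Finset (ℕ × ℕ)) := by
    intro x _ y _ h
    have h1 := hrec x
    have h2 := hrec y
    rw [h] at h1
    exact Prod.ext (h1.1.symm.trans h2.1) (h1.2.symm.trans h2.2)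
  have e2 : ∑ x ∈ svtbS k R ×ˢ svtbS k R, (m : ℝ) ^ x.1.primeFactors.card / ((x.1 : ℝ) * x.2) =
      ∑ y ∈ (svtbS k R ×ˢ svtbS k R).image g, (m : ℝ) ^ y.1.primeFactors.card / (y.1 : ℝ) ^ 2 *
        ((m : ℝ) ^ y.2.1.primeFactors.card / ((y.2.1 : ℝ) * y.2.2)) := by
    rw [Finset.sum_image hinj]
    apply Finset.sum_congr rfl
    intro x hx
    rw [Finset.mem_product] at hx
    have h1 := svtb_mem.mp hx.1
    have h3 := (hrec x).1
    have h4 := (hrec x).2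
    have hsq : Squarefree ((g x).1 * (g x).2.1) := by rw [h3]; exact h1.2.1
    have hcop : Nat.Coprime (g x).1 (g x).2.1 := Nat.coprime_of_squarefree_mul hsq
    have h5 : x.1.primeFactors.card = (g x).1.primeFactors.card + (g x).2.1.primeFactors.card := by
      rw [← h3, hcop.primeFactors_mul, Finset.card_union_of_disjoint hcop.disjoint_primeFactors]
    have h6 : (x.1 : ℝ) = ((g x).1 : ℝ) * (g x).2.1 := by exact_mod_cast h3.symm
    have h7 : (x.2 : ℝ) = ((g x).1 : ℝ) * (g x).2.2 := by exact_mod_cast h4.symm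
    rw [h5, h6, h7, pow_add, div_mul_div_comm]
    congr 1
    ring
  rw [e2]
  apply Finset.sum_le_sum_of_subset_of_nonneg
  · intro y hy
    obtain ⟨x, hx, rfl⟩ := Finset.mem_image.mp hy
    rw [Finset.mem_product] at hx
    have h1 := svtb_mem.mp hx.1
    have h3 := (hrec x).1
    have h4 := (hrec x).2
    rw [Finset.mem_product]
    refine ⟨svtb_dvd hx.1 (Dvd.intro _ h3), ?_⟩
    unfold svtbP
    rw [Finset.mem_filter, Finset.mem_product]
    refine ⟨⟨svtb_dvd hx.1 (Dvd.intro_left _ h3), svtb_dvd hx.2 (Dvd.intro_left _ h4)⟩, ?_⟩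
    exact Nat.coprime_div_gcd_div_gcd (Nat.gcd_pos_of_pos_left _ h1.1.1)
  · intro y _ _
    positivity

theorem tm_step {m k : ℕ} (hk : m ^ 4 ≤ k) : ∃ c : ℝ, 0 < c ∧ ∀ R : ℕ, 1 ≤ R →
    c * (Tm m k R * Tm 1 k R) ≤ Tm (m + 1) k (R ^ 2) := by
  have hsum : Summable (fun c : ℕ => 1 / (c : ℝ) ^ (3 / 2 : ℝ)) :=
    Real.summable_one_div_nat_rpow.mpr (by norm_num)
  obtain ⟨Z, hZ⟩ : ∃ Z : ℝ, Z = ∑' c : ℕ, 1 / (c : ℝ) ^ (3 / 2 : ℝ) := ⟨_, rfl⟩
  have hZle : ∀ s : Finset ℕ, ∑ c ∈ s, 1 / (c : ℝ) ^ (3 / 2 : ℝ) ≤ Z := by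
    intro s
    rw [hZ]
    exact hsum.sum_le_tsum s (fun c _ => by positivity)
  have hZ1 : 1 ≤ Z := by
    have h2 := hZle {1}
    simpa using h2
  have hZ0 : 0 < Z := by linarith
  refine ⟨1 / Z, by positivity, ?_⟩
  intro R _
  have h1 := svtb_upper m k R
  have h2 := svtb_lower m k R
  have h3 : ∑ c ∈ svtbS k R, (m : ℝ) ^ c.primeFactors.card / (c : ℝ) ^ 2 ≤ Z := by
    refine le_trans (Finset.sum_le_sum ?_) (hZle (svtbS k R))
    intro c hc
    have hc' := svtb_mem.mp hc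
    have hc0 : (0 : ℝ) < c := by exact_mod_cast hc'.1.1
    have h4 : ((m : ℝ) ^ c.primeFactors.card) ^ 2 ≤ c := by
      exact_mod_cast svtb_pow_le hk hc'.2.1 hc'.2.2
    have h5 : (m : ℝ) ^ c.primeFactors.card ≤ (c : ℝ) ^ (1 / 2 : ℝ) := by
      rw [← Real.sqrt_eq_rpow]
      exact Real.le_sqrt_of_sq_le h4
    have h6 : (c : ℝ) ^ (2 : ℕ) = (c : ℝ) ^ (1 / 2 : ℝ) * (c : ℝ) ^ (3 / 2 : ℝ) := by
      rw [← Real.rpow_add hc0]
      norm_num
    rw [h6, div_le_div_iff₀ (by positivity) (by positivity), one_mul]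
    exact mul_le_mul_of_nonneg_right h5 (by positivity)
  have h7 : 0 ≤ ∑ x ∈ svtbP k R, (m : ℝ) ^ x.1.primeFactors.card / ((x.1 : ℝ) * x.2) :=
    Finset.sum_nonneg (fun x _ => by positivity)
  rw [div_mul_eq_mul_div, one_mul, div_le_iff₀ hZ0]
  calc Tm m k R * Tm 1 k R ≤ Z *
        ∑ x ∈ svtbP k R, (m : ℝ) ^ x.1.primeFactors.card / ((x.1 : ℝ) * x.2) :=
        h1.trans (mul_le_mul_of_nonneg_right h3 h7)
    _ ≤ Z * Tm (m + 1) k (R ^ 2) := mul_le_mul_of_nonneg_left h2 hZ0.le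
    _ = Tm (m + 1) k (R ^ 2) * Z := mul_comm _ _

end FHE
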