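import Pool.Agent.FHE.ENC
import Pool.Agent.FHE.DVB
import Pool.Agent.FHE.PRC
import Pool.Agent.FHE.QZT
import Pool.Agent.FHE.CHN

/-! TAB (~200 lines). `tab`: let `a` have support in `[-K, K]`, `q, c` a quantisation (`qzt`), `N = (8K+4)P`
and `X = Xb (q ∘ x) T N`. For `p ∈ Pr P` let
`z p b r = (4P)⁻¹ ∑_{i ∈ [4PK, 4PK+4P)} ((if r + i = 0 then p else 0) - 1) ∏_j c (b (i + p j))^(a j)`
(`0 ≤ i + p j < N` for `|j| ≤ K`; `∏_j` over the support of `a`). Then `‖z‖ ≤ 3` (at most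
`4P/p + 1` of the `i` satisfy `r + i = 0`, `p ≤ 4P`), `∑_r z = 0`, and by invariance
`‖∫ z p X R_p - ∫ ((if R_p = 0 then p else 0) - 1) mon p a‖ ≤ 2 (∑ |a j|) ε` (`mon_close`,
`R p (T^i ω) = R p ω + i`, `∫ |p 1_{R_p = 0} - 1| ≤ 2`). Apply `dvb`. -/

open MeasureTheory Filter Topology
open scoped ComplexConjugate

namespace FHE

variable {Y : Type} [MeasurableSpace Y] {S : Y → Y} {μ : Measure Y} {g : ℕ → ℂ}

private noncomputable def tabw (p : ℕ) (r : ZMod p) : ℂ := (if r = 0 then (p : ℂ) else 0) - 1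

private theorem tabw_norm (p : ℕ) (r : ZMod p) :
    ‖tabw p r‖ ≤ (if r = 0 then (p : ℝ) else 0) + 1 := by
  unfold tabw
  refine (norm_sub_le _ _).trans ?_
  split_ifs <;> simp

private theorem tab_sum_range {p : ℕ} [NeZero p] (f : ZMod p → ℂ) :
    ∑ r ∈ Finset.range p, f (r : ZMod p) = ∑ r : ZMod p, f r := by
  refine Finset.sum_nbij' (fun r => (r : ZMod p)) (fun r => r.val) ?_ ?_ ?_ ?_ ?_
  · intro a _; exact Finset.mem_univ _
  · intro a _; exact Finset.mem_range.2 (ZMod.val_lt a)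
  · intro a ha; exact ZMod.val_cast_of_lt (Finset.mem_range.1 ha)
  · intro a _; exact ZMod.natCast_zmod_val a
  · intro a _; rfl

private theorem tabw_sum {p : ℕ} (hp : 1 ≤ p) (u : ZMod p) :
    ∑ r ∈ Finset.range p, tabw p ((r : ZMod p) + u) = 0 := by
  have : NeZero p := ⟨by omega⟩
  rw [tab_sum_range (fun r => tabw p (r + u))]
  rw [Fintype.sum_equiv (Equiv.addRight u) (fun r => tabw p (r + u)) (fun r => tabw p r)
    (fun _ => rfl)]
  unfold tabw
  rw [Finset.sum_sub_distrib]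
  simp

private theorem tab_count {p : ℕ} (hp : 1 ≤ p) (n : ℕ) (u : ZMod p) :
    ∑ i ∈ Finset.range n, (if u + (i : ZMod p) = 0 then (p : ℝ) else 0) ≤ n + p := by
  have : NeZero p := ⟨by omega⟩
  have h0 : ∀ i : ℕ, (u + (i : ZMod p) = 0) ↔ i ≡ (-u).val [MOD p] := by
    intro i
    rw [← ZMod.natCast_eq_natCast_iff, ZMod.natCast_zmod_val]
    constructor
    · intro h; exact eq_neg_of_add_eq_zero_right h
    · intro h; rw [h]; ring
  have h1 : ∑ i ∈ Finset.range n, (if u + (i : ZMod p) = 0 then (p : ℝ) else 0) =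
      p * (n.count (fun i => i ≡ (-u).val [MOD p]) : ℝ) := by
    rw [Nat.count_eq_card_filter_range]
    simp only [h0]
    rw [← Finset.sum_filter, Finset.sum_const, nsmul_eq_mul, mul_comm]
  rw [h1, Nat.count_modEq_card _ (by omega)]
  have h2 : (p : ℝ) * ((n / p : ℕ) : ℝ) ≤ n := by
    exact_mod_cast Nat.mul_div_le n p
  have h3 : (((if (-u).val % p < n % p then 1 else 0) : ℕ) : ℝ) ≤ 1 := by
    split_ifs <;> simp
  push_cast at h3 ⊢
  have h4 : (0 : ℝ) ≤ p := by positivity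
  nlinarith [mul_le_mul_of_nonneg_left h3 h4]

/-- the letter with an integer index -/
private noncomputable def tabc {m N : ℕ} (c : Fin (m + 1) → ℂ) (b : Fin N → Fin (m + 1)) (n : ℤ) : ℂ :=
  if h : 0 ≤ n ∧ n.toNat < N then c (b ⟨n.toNat, h.2⟩) else 1

private theorem tabc_norm {m N : ℕ} {c : Fin (m + 1) → ℂ} (hc : ∀ i, ‖c i‖ = 1)
    (b : Fin N → Fin (m + 1)) (n : ℤ) : ‖tabc c b n‖ = 1 := by
  unfold tabc
  split_ifs
  · exact hc _
  · simp

private theorem tab_prod_norm (a : ℤ →₀ ℤ) {z : ℤ → ℂ} (hz : ∀ j, ‖z j‖ = 1) :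
    ‖a.prod fun j k => z j ^ k‖ = 1 := by
  unfold Finsupp.prod
  rw [norm_prod]
  refine Finset.prod_eq_one fun j _ => ?_
  rw [norm_zpow, hz, one_zpow]

private noncomputable def tabz {m : ℕ} (c : Fin (m + 1) → ℂ) (a : ℤ →₀ ℤ) (K P N : ℕ) (p : ℕ)
    (b : Fin N → Fin (m + 1)) (r : ZMod p) : ℂ :=
  ((4 * P : ℕ) : ℂ)⁻¹ * ∑ i ∈ Finset.range (4 * P),
    tabw p (r + ((4 * P * K + i : ℕ) : ZMod p)) *
      a.prod fun j k => tabc c b (((4 * P * K + i : ℕ) : ℤ) + (p : ℤ) * j) ^ k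

private theorem tabz_norm {m : ℕ} {c : Fin (m + 1) → ℂ} (hc : ∀ i, ‖c i‖ = 1) (a : ℤ →₀ ℤ)
    (K : ℕ) {P : ℕ} (hP : 1 ≤ P) (N : ℕ) {p : ℕ} (hp1 : 1 ≤ p) (hp : p ≤ 4 * P)
    (b : Fin N → Fin (m + 1)) (r : ZMod p) : ‖tabz c a K P N p b r‖ ≤ 3 := by
  unfold tabz
  rw [norm_mul, norm_inv, Complex.norm_natCast]
  have hP' : (0 : ℝ) < ((4 * P : ℕ) : ℝ) := by positivity
  rw [inv_mul_le_iff₀ hP']
  refine (norm_sum_le _ _).trans ?_
  have h1 : ∀ i ∈ Finset.range (4 * P), ‖tabw p (r + ((4 * P * K + i : ℕ) : ZMod p)) *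
      a.prod fun j k => tabc c b (((4 * P * K + i : ℕ) : ℤ) + (p : ℤ) * j) ^ k‖ ≤
      (if (r + ((4 * P * K : ℕ) : ZMod p)) + (i : ZMod p) = 0 then (p : ℝ) else 0) + 1 := by
    intro i _
    rw [norm_mul, tab_prod_norm a (fun j => tabc_norm hc b _), mul_one]
    have := tabw_norm p (r + ((4 * P * K + i : ℕ) : ZMod p))
    have e : r + ((4 * P * K + i : ℕ) : ZMod p) =
        (r + ((4 * P * K : ℕ) : ZMod p)) + (i : ZMod p) := by
      push_cast; ring
    rw [e] at this ⊢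
    exact this
  refine (Finset.sum_le_sum h1).trans ?_
  rw [Finset.sum_add_distrib]
  have h2 := tab_count hp1 (4 * P) (r + ((4 * P * K : ℕ) : ZMod p))
  have h3 : (p : ℝ) ≤ ((4 * P : ℕ) : ℝ) := by exact_mod_cast hp
  simp only [Finset.sum_const, Finset.card_range, nsmul_eq_mul, mul_one]
  linarith

private theorem tabz_sum {m : ℕ} (c : Fin (m + 1) → ℂ) (a : ℤ →₀ ℤ) (K P N : ℕ) {p : ℕ}
    (hp1 : 1 ≤ p) (b : Fin N → Fin (m + 1)) :
    ∑ r ∈ Finset.range p, tabz c a K P N p b (r : ZMod p) = 0 := by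
  unfold tabz
  rw [← Finset.mul_sum, Finset.sum_comm]
  have : ∀ i ∈ Finset.range (4 * P), ∑ r ∈ Finset.range p,
      tabw p ((r : ZMod p) + ((4 * P * K + i : ℕ) : ZMod p)) *
      (a.prod fun j k => tabc c b (((4 * P * K + i : ℕ) : ℤ) + (p : ℤ) * j) ^ k) = 0 := by
    intro i _
    rw [← Finset.sum_mul, tabw_sum hp1, zero_mul]
  rw [Finset.sum_eq_zero this, mul_zero]

private theorem tab_zpow_meas {X : Type*} [MeasurableSpace X] {T : Equiv.Perm X}
    (hT : Measurable T) (hT' : Measurable T.symm) (n : ℤ) : Measurable ((T ^ n : Equiv.Perm X)) := by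
  rcases n with n | n
  · have : ((T ^ (Int.ofNat n) : Equiv.Perm X) : X → X) = T^[n] := by
      rw [Int.ofNat_eq_natCast, zpow_natCast]
      exact (Equiv.Perm.iterate_eq_pow T n).symm
    rw [this]
    exact hT.iterate n
  · have : ((T ^ (Int.negSucc n) : Equiv.Perm X) : X → X) = T.symm^[n + 1] := by
      rw [zpow_negSucc, ← inv_pow]
      exact (Equiv.Perm.iterate_eq_pow T⁻¹ (n + 1)).symm
    rw [this]
    exact hT'.iterate _

private theorem tab_R_iter (s : Sys S μ g) {p : ℕ} (hp : p ≠ 0) (n : ℕ) (ω : s.Ω) :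
    s.R p (s.T^[n] ω) = s.R p ω + (n : ZMod p) := by
  induction n with
  | zero => simp
  | succ n ih =>
    rw [Function.iterate_succ_apply', s.RT p hp, ih]
    push_cast; ring

private theorem tab_int (s : Sys S μ g) {f : s.Ω → ℂ} (hf : Measurable f) {C : ℝ}
    (hC : ∀ ω, ‖f ω‖ ≤ C) : Integrable f s.ρ :=
  Integrable.of_bound hf.aestronglyMeasurable C (ae_of_all _ hC)

private theorem tabw_meas (s : Sys S μ g) (p : ℕ) : Measurable fun ω => tabw p (s.R p ω) :=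
  (measurable_from_top (f := fun r : ZMod p => tabw p r)).comp (s.mR p)

private theorem tabw_le (p : ℕ) (r : ZMod p) : ‖tabw p r‖ ≤ p + 1 := by
  refine (tabw_norm p r).trans ?_
  have : (0 : ℝ) ≤ p := by positivity
  split_ifs <;> linarith

private theorem tab_step (s : Sys S μ g) {m : ℕ} {q : ℂ → Fin (m + 1)} {c : Fin (m + 1) → ℂ}
    (hq : ∀ i, MeasurableSet (q ⁻¹' {i})) (hc : ∀ i, ‖c i‖ = 1) {ε : ℝ} (hε : 0 ≤ ε)
    (hqc : ∀ z : ℂ, ‖z‖ = 1 → ‖c (q z) - z‖ ≤ ε) (K : ℕ) (a : ℤ →₀ ℤ)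
    (ha : ∀ j ∈ a.support, |j| ≤ K) {P : ℕ} (hP : 1 ≤ P) {p : ℕ} (hp : p.Prime)
    (hp4 : p < 4 * P) :
    ‖∫ ω, ((if s.R p ω = 0 then (p : ℂ) else 0) - 1) * s.mon p a ω ∂s.ρ‖ ≤
      ‖∫ ω, tabz c a K P ((8 * K + 4) * P) p
        (Xb (fun ω => q (s.x ω)) s.T ((8 * K + 4) * P) ω) (s.R p ω) ∂s.ρ‖ +
        2 * (a.sum fun _ k => |(k : ℝ)|) * ε := by
  set N := (8 * K + 4) * P with hN
  -- the function after quantisation
  set Φ : s.Ω → ℂ := fun ω => tabw p (s.R p ω) *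
    a.prod fun j k => c (q (s.x ((s.T ^ ((p : ℤ) * j)) ω))) ^ k with hΦ
  have hqm : Measurable q := by
    refine measurable_to_countable' ?_
    exact hq
  have hΦm : Measurable Φ := by
    refine (tabw_meas s p).mul ?_
    unfold Finsupp.prod
    refine Finset.measurable_prod _ fun j _ => ?_
    exact (measurable_from_top (f := fun i : Fin (m + 1) => c i ^ (a j))).comp
      (hqm.comp (s.mx.comp (tab_zpow_meas s.mT s.mTs _)))
  have hΦb : ∀ ω, ‖Φ ω‖ ≤ p + 1 := by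
    intro ω
    rw [hΦ]
    simp only
    rw [norm_mul, tab_prod_norm a (z := fun j => c (q (s.x ((s.T ^ ((p : ℤ) * j)) ω))))
      (fun j => hc _), mul_one]
    exact tabw_le _ _
  have hmonm : Measurable fun ω => s.mon p a ω := by
    unfold Sys.mon Finsupp.prod
    refine Finset.measurable_prod _ fun j _ => ?_
    exact (s.mx.comp (tab_zpow_meas s.mT s.mTs _)).pow_const _
  have hmonb : ∀ ω, ‖s.mon p a ω‖ = 1 := fun ω => by
    unfold Sys.mon
    exact tab_prod_norm a (z := fun j => s.x ((s.T ^ ((p : ℤ) * j)) ω)) fun j => s.nx _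
  -- the average equals the integral of `Φ`
  have h1 : ∫ ω, tabz c a K P N p (Xb (fun ω => q (s.x ω)) s.T N ω) (s.R p ω) ∂s.ρ =
      ∫ ω, Φ ω ∂s.ρ := by
    have e1 : ∀ ω, tabz c a K P N p (Xb (fun ω => q (s.x ω)) s.T N ω) (s.R p ω) =
        ((4 * P : ℕ) : ℂ)⁻¹ * ∑ i ∈ Finset.range (4 * P), Φ (s.T^[4 * P * K + i] ω) := by
      intro ω
      unfold tabz
      congr 1
      refine Finset.sum_congr rfl fun i hi => ?_
      rw [hΦ]
      simp only
      rw [tab_R_iter s hp.ne_zero]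
      congr 1
      unfold Finsupp.prod
      refine Finset.prod_congr rfl fun j hj => ?_
      have hi' := Finset.mem_range.1 hi
      have hj' := abs_le.1 (ha j hj)
      set n : ℕ := 4 * P * K + i with hn
      have b1 : 0 ≤ (n : ℤ) + (p : ℤ) * j := by
        have : -((4 * P * K : ℕ) : ℤ) ≤ (p : ℤ) * j := by
          have t1 : (p : ℤ) * (-(K : ℤ)) ≤ (p : ℤ) * j :=
            mul_le_mul_of_nonneg_left hj'.1 (by positivity)
          have t2 : (p : ℤ) * K ≤ (4 * P : ℤ) * K :=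
            mul_le_mul_of_nonneg_right (by exact_mod_cast hp4.le) (by positivity)
          push_cast
          linarith
        rw [hn]; push_cast at this ⊢; linarith
      have b2 : (n : ℤ) + (p : ℤ) * j < (N : ℤ) := by
        have t1 : (p : ℤ) * j ≤ (p : ℤ) * K :=
          mul_le_mul_of_nonneg_left hj'.2 (by positivity)
        have t2 : (p : ℤ) * K ≤ (4 * P : ℤ) * K :=
          mul_le_mul_of_nonneg_right (by exact_mod_cast hp4.le) (by positivity)
        have t3 : (i : ℤ) < 4 * P := by exact_mod_cast hi'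
        rw [hn, hN]; push_cast; nlinarith
      have b3 : ((n : ℤ) + (p : ℤ) * j).toNat < N := by omega
      have e4 : tabc c (Xb (fun ω => q (s.x ω)) s.T N ω) ((n : ℤ) + (p : ℤ) * j) =
          c (q (s.x (s.T^[((n : ℤ) + (p : ℤ) * j).toNat] ω))) := by
        unfold tabc
        rw [dif_pos ⟨b1, b3⟩]
        rfl
      beta_reduce
      rw [e4]
      congr 4
      have e2 : (s.T^[((n : ℤ) + (p : ℤ) * j).toNat] ω) =
          (s.T ^ ((((n : ℤ) + (p : ℤ) * j).toNat : ℕ) : ℤ)) ω := by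
        rw [zpow_natCast, ← Equiv.Perm.iterate_eq_pow]
      have e3 : (s.T^[n] ω) = (s.T ^ ((n : ℕ) : ℤ)) ω := by
        rw [zpow_natCast, ← Equiv.Perm.iterate_eq_pow]
      rw [e2, e3, Int.toNat_of_nonneg b1, ← Equiv.Perm.mul_apply, ← zpow_add]
      congr 2
      ring
    simp only [e1]
    rw [integral_const_mul, integral_finsetSum]
    · have e2 : ∀ i ∈ Finset.range (4 * P), ∫ ω, Φ (s.T^[4 * P * K + i] ω) ∂s.ρ =
          ∫ ω, Φ ω ∂s.ρ := by
        intro i _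
        have hmp := s.mp.iterate (4 * P * K + i)
        have := integral_map (μ := s.ρ) hmp.measurable.aemeasurable (f := Φ)
          hΦm.aestronglyMeasurable
        rw [hmp.map_eq] at this
        exact this.symm
      rw [Finset.sum_congr rfl e2, Finset.sum_const, Finset.card_range, nsmul_eq_mul,
        ← mul_assoc, inv_mul_cancel₀, one_mul]
      have : (4 * P : ℕ) ≠ 0 := by omega
      exact_mod_cast this
    · intro i _
      exact tab_int s (hΦm.comp (s.mT.iterate _)) (fun ω => hΦb _)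
  -- comparison
  have h2 : ‖(∫ ω, tabw p (s.R p ω) * s.mon p a ω ∂s.ρ) - ∫ ω, Φ ω ∂s.ρ‖ ≤
      2 * (a.sum fun _ k => |(k : ℝ)|) * ε := by
    have i1 : Integrable (fun ω => tabw p (s.R p ω) * s.mon p a ω) s.ρ :=
      tab_int s ((tabw_meas s p).mul hmonm) (C := p + 1) (fun ω => by
        rw [norm_mul, hmonb, mul_one]; exact tabw_le _ _)
    have i2 : Integrable Φ s.ρ := tab_int s hΦm hΦb
    rw [← integral_sub i1 i2]
    set A : ℝ := a.sum fun _ k => |(k : ℝ)| with hA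
    have hA0 : 0 ≤ A := by
      rw [hA]; unfold Finsupp.sum
      exact Finset.sum_nonneg fun _ _ => abs_nonneg _
    have i3 : Integrable (fun ω => (if s.R p ω = 0 then (p : ℝ) else 0)) s.ρ := by
      have : (fun ω => (if s.R p ω = 0 then (p : ℝ) else 0)) =
          Set.indicator {ω | s.R p ω = 0} (fun _ => (p : ℝ)) := by
        funext ω
        simp only [Set.indicator, Set.mem_ofPred_eq]
      rw [this]
      refine (integrable_const _).indicator ?_
      exact s.mR p (MeasurableSet.of_discrete (s := {(0 : ZMod p)}))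
    have b : ∀ ω, ‖tabw p (s.R p ω) * s.mon p a ω - Φ ω‖ ≤
        ((if s.R p ω = 0 then (p : ℝ) else 0) + 1) * (A * ε) := by
      intro ω
      rw [hΦ]
      simp only
      rw [← mul_sub, norm_mul]
      refine mul_le_mul (tabw_norm _ _) ?_ (norm_nonneg _) ?_
      · unfold Sys.mon
        exact mon_close a (z := fun j => s.x ((s.T ^ ((p : ℤ) * j)) ω))
          (w := fun j => c (q (s.x ((s.T ^ ((p : ℤ) * j)) ω)))) (fun j => s.nx _)
          (fun j => hc _) (fun j => by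
            rw [norm_sub_rev]; exact hqc _ (s.nx _))
      · split_ifs <;> positivity
    have i4 : Integrable (fun ω => ((if s.R p ω = 0 then (p : ℝ) else 0) + 1) * (A * ε)) s.ρ :=
      (i3.add (integrable_const 1)).mul_const _
    refine (norm_integral_le_of_norm_le i4 (ae_of_all _ b)).trans ?_
    rw [integral_mul_const, integral_add i3 (integrable_const 1)]
    have e5 : ∫ ω, (if s.R p ω = 0 then (p : ℝ) else 0) ∂s.ρ = 1 := by
      have : (fun ω => (if s.R p ω = 0 then (p : ℝ) else 0)) =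
          Set.indicator {ω | s.R p ω = 0} (fun _ => (p : ℝ)) := by
        funext ω
        simp only [Set.indicator, Set.mem_ofPred_eq]
      rw [this, integral_indicator_const, r_zero s hp, smul_eq_mul, inv_mul_cancel₀]
      · exact_mod_cast hp.ne_zero
      · exact s.mR p (MeasurableSet.of_discrete (s := {(0 : ZMod p)}))
    rw [e5]
    simp
    linarith
  have h3 : (∫ ω, ((if s.R p ω = 0 then (p : ℂ) else 0) - 1) * s.mon p a ω ∂s.ρ) =
      ∫ ω, tabw p (s.R p ω) * s.mon p a ω ∂s.ρ := rfl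
  rw [h3, h1]
  calc ‖∫ ω, tabw p (s.R p ω) * s.mon p a ω ∂s.ρ‖
      = ‖(∫ ω, Φ ω ∂s.ρ) + ((∫ ω, tabw p (s.R p ω) * s.mon p a ω ∂s.ρ) - ∫ ω, Φ ω ∂s.ρ)‖ := by
        congr 1; ring
    _ ≤ _ := (norm_add_le _ _).trans (by linarith)

theorem tab (s : Sys S μ g) {m : ℕ} {q : ℂ → Fin (m + 1)} {c : Fin (m + 1) → ℂ}
    (hq : ∀ i, MeasurableSet (q ⁻¹' {i})) (hc : ∀ i, ‖c i‖ = 1) {ε : ℝ} (hε : 0 ≤ ε)
    (hqc : ∀ z : ℂ, ‖z‖ = 1 → ‖c (q z) - z‖ ≤ ε) (K : ℕ) (a : ℤ →₀ ℤ)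
    (ha : ∀ j ∈ a.support, |j| ≤ K) {P : ℕ} (hP : 1 ≤ P) [Fintype ((p : Pr P) → ZMod p)]
    {l : ℝ} (hl : 0 < l) :
    ∑ p ∈ Pr P, ‖∫ ω, ((if s.R p ω = 0 then (p : ℂ) else 0) - 1) * s.mon p a ω ∂s.ρ‖ ≤
      (En s.ρ (Xb (fun ω => q (s.x ω)) s.T ((8 * K + 4) * P)) + En s.ρ (s.Rv (Pr P)) -
        En s.ρ (fun ω => (Xb (fun ω => q (s.x ω)) s.T ((8 * K + 4) * P) ω, s.Rv (Pr P) ω))) / l +
      9 * l / 2 * (Pr P).card + 2 * (a.sum fun _ k => |(k : ℝ)|) * ε * (Pr P).card := by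
  have hpr : ∀ p ∈ Pr P, p.Prime := fun p hp => (Finset.mem_filter.1 hp).2
  have hlt : ∀ p ∈ Pr P, p < 4 * P := fun p hp =>
    (Finset.mem_Ico.1 (Finset.mem_filter.1 hp).1).2
  have hX : FM (Xb (fun ω => q (s.x ω)) s.T ((8 * K + 4) * P)) := by
    refine Xb_fm (q := fun ω => q (s.x ω)) ?_ s.mT _
    intro i
    exact s.mx (hq i)
  have h1 := dvb s (Pr P) hpr hX (fun p b r => tabz c a K P ((8 * K + 4) * P) p b r)
    (fun p hp b r => tabz_norm hc a K hP _ (hpr p hp).one_lt.le (hlt p hp).le b r)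
    (fun p hp b => tabz_sum c a K P _ (hpr p hp).one_lt.le b) hl
  have h2 : ∑ p ∈ Pr P, ‖∫ ω, ((if s.R p ω = 0 then (p : ℂ) else 0) - 1) * s.mon p a ω ∂s.ρ‖ ≤
      ∑ p ∈ Pr P, (‖∫ ω, tabz c a K P ((8 * K + 4) * P) p
        (Xb (fun ω => q (s.x ω)) s.T ((8 * K + 4) * P) ω) (s.R p ω) ∂s.ρ‖ +
        2 * (a.sum fun _ k => |(k : ℝ)|) * ε) :=
    Finset.sum_le_sum fun p hp => tab_step s hq hc hε hqc K a ha hP (hpr p hp) (hlt p hp)
  rw [Finset.sum_add_distrib, Finset.sum_const, nsmul_eq_mul] at h2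
  linarith

end FHE
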