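import Pool.Agent.FHE.TAB

/-! TAC (~150 lines): good scales. `tac`: for a quantisation and `K`, there are arbitrarily large `P` for
which the mutual information is `≤ δ card (Pr P)`: `chain` with `H N = En (Xb .. N)`,
`I P = En X + En R - En (X, R)` (`N = (8K+4) P`), `R P = En (Rv (Pr P)) ≤ card * log (4P)` (`En_le_log`,
`card (∏ ZMod p) = ∏ p ≤ (4P)^card`, `Pr_upper`), `w P = card (Pr P)` (`Pr_lower`); `h1` from `En_mono` and
`enc` (`R p (T ω) = R p ω + 1` is a bijection of `∏ ZMod p`). To avoid instance problems use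
`Fintype` instances obtained from `Fact p.Prime`/`NeZero`; `En` does not depend on the instance. -/

open MeasureTheory Filter Topology
open scoped ComplexConjugate

namespace FHE

variable {Y : Type} [MeasurableSpace Y] {S : Y → Y} {μ : Measure Y} {g : ℕ → ℂ}

private theorem tac_prime {P : ℕ} (p : Pr P) : (p : ℕ).Prime := (Finset.mem_filter.mp p.2).2

private theorem tac_lt {P : ℕ} (p : Pr P) : (p : ℕ) < 4 * P :=
  (Finset.mem_Ico.mp (Finset.mem_filter.mp p.2).1).2

/-- the finiteness of the product of the residue rings -/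
@[reducible] noncomputable def tacInst (P : ℕ) : Fintype ((p : Pr P) → ZMod p) := by
  classical
  haveI : ∀ p : Pr P, NeZero (p : ℕ) := fun p => ⟨(tac_prime p).ne_zero⟩
  exact inferInstance

private theorem tac_log (P : ℕ) (hP : 1 ≤ P) :
    Real.log ((@Fintype.card ((p : Pr P) → ZMod p) (tacInst P) : ℕ) : ℝ) ≤
      (Pr P).card * Real.log (4 * P) := by
  classical
  haveI : ∀ p : Pr P, NeZero (p : ℕ) := fun p => ⟨(tac_prime p).ne_zero⟩
  have hcard : @Fintype.card ((p : Pr P) → ZMod p) (tacInst P) = ∏ p : Pr P, (p : ℕ) := by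
    rw [Fintype.card_pi]
    exact Finset.prod_congr rfl fun p _ => ZMod.card _
  rw [hcard, Nat.cast_prod, Real.log_prod]
  · refine (Finset.sum_le_card_nsmul _ _ (Real.log (4 * P)) fun p _ => ?_).trans ?_
    · refine Real.log_le_log (by exact_mod_cast (tac_prime p).pos) ?_
      exact_mod_cast (tac_lt p).le
    · rw [Finset.card_univ, Fintype.card_coe, nsmul_eq_mul]
  · intro p _
    exact_mod_cast (tac_prime p).ne_zero

theorem tac (s : Sys S μ g) {m : ℕ} {q : ℂ → Fin (m + 1)}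
    (hq : ∀ i, MeasurableSet (q ⁻¹' {i})) (K : ℕ) {δ : ℝ} (hδ : 0 < δ) (P₀ : ℕ) :
    ∃ P : ℕ, P₀ ≤ P ∧ ∃ _ : Fintype ((p : Pr P) → ZMod p),
      En s.ρ (Xb (fun ω => q (s.x ω)) s.T ((8 * K + 4) * P)) + En s.ρ (s.Rv (Pr P)) -
        En s.ρ (fun ω => (Xb (fun ω => q (s.x ω)) s.T ((8 * K + 4) * P) ω, s.Rv (Pr P) ω)) ≤
      δ * (Pr P).card := by
  have hqx : FM (fun ω => q (s.x ω)) := by
    intro i
    exact s.mx (hq i)
  have hX : ∀ N, FM (Xb (fun ω => q (s.x ω)) s.T N) := fun N => Xb_fm hqx s.mT N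
  have hR := fun P => Rv_fm s (Pr P)
  obtain ⟨c, hc, hlow⟩ := Pr_lower
  obtain ⟨C, hC, hup⟩ := Pr_upper
  set H : ℕ → ℝ := fun N => En s.ρ (Xb (fun ω => q (s.x ω)) s.T N) with hH
  set R : ℕ → ℝ := fun P => @En _ _ _ (tacInst P) s.ρ (s.Rv (Pr P)) with hRdef
  set J : ℕ → ℝ := fun P => @En _ _ _ (@instFintypeProd _ _ _ (tacInst P)) s.ρ
    (fun ω => (Xb (fun ω => q (s.x ω)) s.T ((8 * K + 4) * P) ω, s.Rv (Pr P) ω)) with hJ
  obtain ⟨P, hP, hI⟩ := chain (H := H) (I := fun P => H ((8 * K + 4) * P) + R P - J P) (R := R)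
    (w := fun P => ((Pr P).card : ℝ)) (K := 8 * K + 4) (by omega) hc hC
    (fun n => En_nonneg _) (by
      intro n P hP1
      letI := tacInst P
      have h1 := En_mono (ρ := s.ρ) (hX (n * ((8 * K + 4) * P))) (hR P)
      have h2 := enc (ρ := s.ρ) hqx s.mp (hR P) (Equiv.addRight (1 : (p : Pr P) → ZMod p))
        (by
          intro ω
          funext p
          exact s.RT p (tac_prime p).ne_zero ω) ((8 * K + 4) * P) n
      calc H (n * ((8 * K + 4) * P)) ≤ _ := h1
        _ ≤ _ := h2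
        _ = R P + n * (H ((8 * K + 4) * P) - (H ((8 * K + 4) * P) + R P - J P)) := by
          simp only [hRdef, hJ]
          ring)
    (by
      intro P hP1
      letI := tacInst P
      haveI : Nonempty ((p : Pr P) → ZMod p) := ⟨fun _ => 0⟩
      exact (En_le_log (hR P)).trans ((tac_log P hP1).trans (hup P hP1)))
    hlow hδ P₀
  exact ⟨P, hP, tacInst P, hI⟩

end FHE
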