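import Pool.Agent.FHE.Defs

/-! WOA (~200 lines): a compact operator attached to an isometry `U` and a vector `f`.
`A_M := M⁻¹ ∑_{m<M} ⟪U^m f, ·⟫ • U^m f` (finite rank, symmetric).
For real coefficients `c_m`: `B := ∑ c_m ⟪U^m f, ·⟫ • U^m f` satisfies
`⟪ψ, B φ⟫ = ∑ c_m ⟪ψ, U^m f⟫ ⟪U^m f, φ⟫ = ⟪tens ψ φ, ∑ c_m V^m (tens f f)⟫`, hence
`‖B‖ ≤ ‖∑ c_m V^m (tens f f)‖` (`‖tens ψ φ‖ = ‖ψ‖ ‖φ‖`). The averages `M⁻¹ ∑_{m<M} V^m (tens f f)`
converge by the mean ergodic theorem (`ContinuousLinearMap.tendsto_birkhoffAverage_orthogonalProjection`,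
Mathlib/Analysis/InnerProductSpace/MeanErgodic), so `A_M` is a Cauchy sequence of operators; `A` is
its limit. `A` is compact (`isClosed_setOf_isCompactOperator`, finite rank), symmetric, and
`A_M U - U A_M = O(1/M)` because `⟪U^m f, U φ⟫ = ⟪U^(m-1) f, φ⟫`. `hbd`: for every `m'`,
`M⁻¹ ∑_{m<M} ‖⟪U^m f, U^m' f⟫‖² = ⟪U^m' f, A_M U^m' f⟫ ≤ ‖A_M‖ ‖f‖²`; average over `m'`.
`hev`: if `U e = β e` then `‖⟪U^m f, e⟫‖ = ‖⟪f, e⟫‖` for all `m`. -/

open MeasureTheory Filter Topology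
open scoped ComplexConjugate

namespace FHE

section WOAaux

variable {H : Type*} [NormedAddCommGroup H] [InnerProductSpace ℂ H]

/-- rank one operators of WOA -/
noncomputable def WOA_R (u : H) : H →L[ℂ] H := (innerSL ℂ u).smulRight u

private lemma WOA_R_apply (u φ : H) : WOA_R u φ = inner ℂ u φ • u := rfl

private lemma WOA_R_compact (u : H) : IsCompactOperator (WOA_R u) := by
  have h1 : IsCompactOperator (ContinuousLinearMap.toSpanSingleton ℂ u) :=
    isCompactOperator_of_locallyCompactSpace_rng _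
  have h2 := h1.comp_clm (innerSL ℂ u)
  exact h2

/-- averages of WOA -/
noncomputable def WOA_A (u : ℕ → H) (M : ℕ) : H →L[ℂ] H :=
  ((M : ℂ)⁻¹) • ∑ m ∈ Finset.range M, WOA_R (u m)

private lemma WOA_A_apply (u : ℕ → H) (M : ℕ) (φ : H) :
    WOA_A u M φ = ((M : ℂ)⁻¹) • ∑ m ∈ Finset.range M, inner ℂ (u m) φ • u m := by
  unfold WOA_A
  rw [smul_apply, sum_apply]
  rfl

private lemma WOA_A_compact (u : ℕ → H) (M : ℕ) : IsCompactOperator (WOA_A u M) := by
  have h1 : WOA_A u M ∈ compactOperator (RingHom.id ℂ) H H := by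
    unfold WOA_A
    refine Submodule.smul_mem _ _ (Submodule.sum_mem _ fun m _ => ?_)
    exact WOA_R_compact (u m)
  exact h1

private lemma WOA_inner (u : ℕ → H) (M : ℕ) (ψ φ : H) :
    inner ℂ ψ (WOA_A u M φ) = ((M : ℂ)⁻¹) * ∑ m ∈ Finset.range M,
      inner ℂ ψ (u m) * inner ℂ (u m) φ := by
  rw [WOA_A_apply, inner_smul_right, inner_sum]
  congr 1
  refine Finset.sum_congr rfl fun m _ => ?_
  rw [inner_smul_right]
  ring

private lemma WOA_symm (u : ℕ → H) (M : ℕ) (ψ φ : H) :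
    inner ℂ (WOA_A u M ψ) φ = inner ℂ ψ (WOA_A u M φ) := by
  rw [← inner_conj_symm, WOA_inner, WOA_inner, map_mul, map_inv₀, Complex.conj_natCast, map_sum]
  congr 1
  refine Finset.sum_congr rfl fun m _ => ?_
  rw [map_mul, inner_conj_symm, inner_conj_symm]
  ring

private lemma WOA_diag (u : ℕ → H) (M : ℕ) (φ : H) :
    inner ℂ φ (WOA_A u M φ) = (((M : ℝ)⁻¹ * ∑ m ∈ Finset.range M,
      ‖inner ℂ (u m) φ‖ ^ 2 : ℝ) : ℂ) := by
  rw [WOA_inner]
  push_cast
  congr 1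
  refine Finset.sum_congr rfl fun m _ => ?_
  rw [← inner_conj_symm φ (u m), mul_comm, Complex.mul_conj, Complex.normSq_eq_norm_sq]
  push_cast
  rfl

end WOAaux

theorem WOA {H K : Type*} [NormedAddCommGroup H] [InnerProductSpace ℂ H] [CompleteSpace H]
    [NormedAddCommGroup K] [InnerProductSpace ℂ K] [CompleteSpace K]
    (U : H →ₗᵢ[ℂ] H) (V : K →ₗᵢ[ℂ] K) (tens : H → H → K)
    (ht : ∀ a b c d : H, inner ℂ (tens a b) (tens c d) = inner ℂ a c * inner ℂ d b)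
    (hV : ∀ a b, V (tens a b) = tens (U a) (U b)) (f : H) :
    ∃ A : H →L[ℂ] H, IsCompactOperator A ∧ A.IsSymmetric ∧ (∀ φ, A (U φ) = U (A φ)) ∧
      (∀ ε > 0, ∃ M₀ : ℕ, ∀ M ≥ M₀, ((M : ℝ)⁻¹) ^ 2 * ∑ m ∈ Finset.range M,
        ∑ m' ∈ Finset.range M, ‖inner ℂ ((U : H → H)^[m] f) ((U : H → H)^[m'] f)‖ ^ 2 ≤
          ‖A‖ * ‖f‖ ^ 2 + ε) ∧
      ∀ (e : H) (β : ℂ), U e = β • e → ‖e‖ = 1 → inner ℂ e (A e) = ((‖inner ℂ f e‖ ^ 2 : ℝ) : ℂ) := by
  classical
  set u : ℕ → H := fun m => (U : H → H)^[m] f with hu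
  have hus : ∀ m, u (m + 1) = U (u m) := by
    intro m
    simp only [hu]
    rw [Function.iterate_succ_apply']
  have hun : ∀ m, ‖u m‖ = ‖f‖ := by
    intro m
    induction m with
    | zero => rfl
    | succ m ih => rw [hus, LinearIsometry.norm_map, ih]
  -- the vectors in K
  set w : K := tens f f with hw
  have hVm : ∀ m, tens (u m) (u m) = (V : K → K)^[m] w := by
    intro m
    induction m with
    | zero => rfl
    | succ m ih => rw [hus, ← hV, ih, Function.iterate_succ_apply']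
  have htn : ∀ a b, ‖tens a b‖ = ‖a‖ * ‖b‖ := by
    intro a b
    have h1 : (‖tens a b‖ : ℂ) ^ 2 = ((‖a‖ * ‖b‖ : ℝ) : ℂ) ^ 2 := by
      have h2 := ht a b a b
      rw [inner_self_eq_norm_sq_to_K, inner_self_eq_norm_sq_to_K,
        inner_self_eq_norm_sq_to_K] at h2
      push_cast
      rw [mul_pow]
      exact h2
    have h3 : ‖tens a b‖ ^ 2 = (‖a‖ * ‖b‖) ^ 2 := by exact_mod_cast h1
    exact (pow_left_inj₀ (norm_nonneg _) (by positivity) two_ne_zero).1 h3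
  set W : ℕ → K := fun M => ((M : ℂ)⁻¹) • ∑ m ∈ Finset.range M, tens (u m) (u m) with hW
  have hWc : CauchySeq W := by
    have h1 := ContinuousLinearMap.tendsto_birkhoffAverage_orthogonalProjection (𝕜 := ℂ)
      (V.toContinuousLinearMap) (V.norm_toContinuousLinearMap_le) w
    have h2 : (fun n => birkhoffAverage ℂ (V.toContinuousLinearMap) _root_.id n w) = W := by
      funext n
      simp only [hW, birkhoffAverage, birkhoffSum, id]
      congr 1
      refine Finset.sum_congr rfl fun m _ => ?_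
      rw [hVm]
      rfl
    rw [h2] at h1
    exact h1.cauchySeq
  have hAW : ∀ M ψ φ, inner ℂ ψ (WOA_A u M φ) = inner ℂ (tens ψ φ) (W M) := by
    intro M ψ φ
    rw [WOA_inner]
    simp only [hW]
    rw [inner_smul_right, inner_sum]
    congr 1
    refine Finset.sum_congr rfl fun m _ => ?_
    rw [ht]
  have hdiff : ∀ M N, ‖WOA_A u M - WOA_A u N‖ ≤ ‖W M - W N‖ := by
    intro M N
    refine ContinuousLinearMap.opNorm_le_bound _ (norm_nonneg _) fun φ => ?_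
    set x := (WOA_A u M - WOA_A u N) φ with hx
    have h1 : inner ℂ x x = inner ℂ (tens x φ) (W M - W N) := by
      rw [inner_sub_right, ← hAW, ← hAW, ← inner_sub_right]
      rfl
    have h2 : ‖x‖ * ‖x‖ ≤ ‖x‖ * (‖W M - W N‖ * ‖φ‖) := by
      calc ‖x‖ * ‖x‖ = ‖inner ℂ x x‖ := by
            rw [inner_self_eq_norm_sq_to_K, norm_pow, pow_two]
            simp
        _ = ‖inner ℂ (tens x φ) (W M - W N)‖ := by rw [h1]
        _ ≤ ‖tens x φ‖ * ‖W M - W N‖ := norm_inner_le_norm _ _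
        _ = ‖x‖ * (‖W M - W N‖ * ‖φ‖) := by rw [htn]; ring
    rcases eq_or_lt_of_le (norm_nonneg x) with h | h
    · rw [← h]
      positivity
    · exact le_of_mul_le_mul_left h2 h
  have hAc : CauchySeq (WOA_A u) := by
    rw [Metric.cauchySeq_iff] at hWc ⊢
    intro ε hε
    obtain ⟨N, hN⟩ := hWc ε hε
    refine ⟨N, fun m hm n hn => ?_⟩
    rw [dist_eq_norm]
    refine lt_of_le_of_lt (hdiff m n) ?_
    rw [← dist_eq_norm]
    exact hN m hm n hn
  obtain ⟨A, hA⟩ := cauchySeq_tendsto_of_complete hAc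
  have hAφ : ∀ φ, Tendsto (fun M => WOA_A u M φ) atTop (𝓝 (A φ)) := by
    intro φ
    exact ((ContinuousLinearMap.apply ℂ H φ).continuous.tendsto A).comp hA
  have hAi : ∀ ψ φ, Tendsto (fun M => inner ℂ ψ (WOA_A u M φ)) atTop (𝓝 (inner ℂ ψ (A φ))) :=
    fun ψ φ => tendsto_const_nhds.inner (hAφ φ)
  refine ⟨A, isCompactOperator_of_tendsto hA (Eventually.of_forall fun M => WOA_A_compact u M),
    ?_, ?_, ?_, ?_⟩
  · intro x y
    have h1 := hAi x y
    have h2 : Tendsto (fun M => inner ℂ (WOA_A u M x) y) atTop (𝓝 (inner ℂ (A x) y)) :=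
      (hAφ x).inner tendsto_const_nhds
    simp only [WOA_symm] at h2
    exact tendsto_nhds_unique h2 h1
  · intro φ
    have h1 : Tendsto (fun M => WOA_A u M (U φ) - U (WOA_A u M φ)) atTop
        (𝓝 (A (U φ) - U (A φ))) := by
      refine (hAφ (U φ)).sub ?_
      exact (U.continuous.tendsto _).comp (hAφ φ)
    set g : ℕ → H := fun m => inner ℂ (u m) (U φ) • u m with hg
    have hgn : ∀ m, ‖g m‖ ≤ ‖f‖ ^ 2 * ‖φ‖ := by
      intro m
      simp only [hg]
      rw [norm_smul]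
      calc ‖inner ℂ (u m) (U φ)‖ * ‖u m‖ ≤ (‖u m‖ * ‖U φ‖) * ‖u m‖ :=
            mul_le_mul_of_nonneg_right (norm_inner_le_norm _ _) (norm_nonneg _)
        _ = ‖f‖ ^ 2 * ‖φ‖ := by rw [hun, LinearIsometry.norm_map]; ring
    have h2 : ∀ M, WOA_A u M (U φ) - U (WOA_A u M φ) = ((M : ℂ)⁻¹) • (g 0 - g M) := by
      intro M
      rw [WOA_A_apply, WOA_A_apply, map_smul, map_sum, ← smul_sub, ← Finset.sum_sub_distrib]
      congr 1
      rw [← Finset.sum_range_sub']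
      refine Finset.sum_congr rfl fun m _ => ?_
      simp only [hg]
      rw [map_smul, ← hus, hus m, LinearIsometry.inner_map_map]
    have h3 : Tendsto (fun M : ℕ => ((M : ℂ)⁻¹) • (g 0 - g M)) atTop (𝓝 0) := by
      rw [tendsto_zero_iff_norm_tendsto_zero]
      have h4 : Tendsto (fun M : ℕ => ((M : ℝ)⁻¹) * (2 * (‖f‖ ^ 2 * ‖φ‖))) atTop (𝓝 0) := by
        have := (tendsto_inv_atTop_nhds_zero_nat (𝕜 := ℝ)).mul_const (2 * (‖f‖ ^ 2 * ‖φ‖))
        simpa using this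
      refine squeeze_zero (fun M => norm_nonneg _) (fun M => ?_) h4
      rw [norm_smul, norm_inv, Complex.norm_natCast]
      refine mul_le_mul_of_nonneg_left ?_ (by positivity)
      calc ‖g 0 - g M‖ ≤ ‖g 0‖ + ‖g M‖ := norm_sub_le _ _
        _ ≤ 2 * (‖f‖ ^ 2 * ‖φ‖) := by linarith [hgn 0, hgn M]
    simp only [h2] at h1
    exact sub_eq_zero.1 (tendsto_nhds_unique h1 h3)
  · intro ε hε
    have h1 : Tendsto (fun M => ‖WOA_A u M‖ * ‖f‖ ^ 2) atTop (𝓝 (‖A‖ * ‖f‖ ^ 2)) :=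
      (hA.norm).mul_const _
    have h2 := h1.eventually (gt_mem_nhds (lt_add_of_pos_right (‖A‖ * ‖f‖ ^ 2) hε))
    obtain ⟨M₀, hM₀⟩ := eventually_atTop.1 h2
    refine ⟨M₀, fun M hM => ?_⟩
    refine le_trans ?_ (hM₀ M hM).le
    have h3 : ∀ m', (M : ℝ)⁻¹ * ∑ m ∈ Finset.range M, ‖inner ℂ (u m) (u m')‖ ^ 2 ≤
        ‖WOA_A u M‖ * ‖f‖ ^ 2 := by
      intro m'
      have h4 := WOA_diag u M (u m')
      have h5 : ‖(((M : ℝ)⁻¹ * ∑ m ∈ Finset.range M, ‖inner ℂ (u m) (u m')‖ ^ 2 : ℝ) : ℂ)‖ ≤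
          ‖WOA_A u M‖ * ‖f‖ ^ 2 := by
        rw [← h4]
        calc ‖inner ℂ (u m') (WOA_A u M (u m'))‖ ≤ ‖u m'‖ * ‖WOA_A u M (u m')‖ :=
              norm_inner_le_norm _ _
          _ ≤ ‖u m'‖ * (‖WOA_A u M‖ * ‖u m'‖) :=
              mul_le_mul_of_nonneg_left (ContinuousLinearMap.le_opNorm _ _) (norm_nonneg _)
          _ = _ := by rw [hun]; ring
      rw [Complex.norm_real, Real.norm_eq_abs] at h5
      exact (le_abs_self _).trans h5
    rcases Nat.eq_zero_or_pos M with h0 | hpos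
    · subst h0
      simp
      positivity
    · have hMp : (0 : ℝ) < M := by exact_mod_cast hpos
      have h6 : ((M : ℝ)⁻¹) ^ 2 * ∑ m ∈ Finset.range M, ∑ m' ∈ Finset.range M,
          ‖inner ℂ (u m) (u m')‖ ^ 2 = (M : ℝ)⁻¹ * ∑ m' ∈ Finset.range M,
            ((M : ℝ)⁻¹ * ∑ m ∈ Finset.range M, ‖inner ℂ (u m) (u m')‖ ^ 2) := by
        rw [Finset.sum_comm, pow_two, mul_assoc, Finset.mul_sum]
      rw [h6]
      calc (M : ℝ)⁻¹ * ∑ m' ∈ Finset.range M,
            ((M : ℝ)⁻¹ * ∑ m ∈ Finset.range M, ‖inner ℂ (u m) (u m')‖ ^ 2) ≤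
          (M : ℝ)⁻¹ * ∑ m' ∈ Finset.range M, (‖WOA_A u M‖ * ‖f‖ ^ 2) :=
            mul_le_mul_of_nonneg_left (Finset.sum_le_sum fun m' _ => h3 m') (by positivity)
        _ = ‖WOA_A u M‖ * ‖f‖ ^ 2 := by
            rw [Finset.sum_const, Finset.card_range, nsmul_eq_mul, ← mul_assoc,
              inv_mul_cancel₀ hMp.ne', one_mul]
  · intro e β he hen
    have hβ : ‖β‖ = 1 := by
      have h1 := congrArg norm he
      rw [LinearIsometry.norm_map, norm_smul, hen, mul_one] at h1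
      exact h1.symm
    have h1 : ∀ m, ‖inner ℂ (u m) e‖ = ‖inner ℂ f e‖ := by
      intro m
      induction m with
      | zero => rfl
      | succ m ih =>
        rw [← ih, ← LinearIsometry.inner_map_map U (u m) e, ← hus, he, inner_smul_right,
          norm_mul, hβ, one_mul]
    have h2 := hAi e e
    have h3 : Tendsto (fun M => inner ℂ e (WOA_A u M e)) atTop
        (𝓝 ((‖inner ℂ f e‖ ^ 2 : ℝ) : ℂ)) := by
      refine tendsto_const_nhds.congr' ?_
      filter_upwards [eventually_gt_atTop 0] with M hM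
      rw [WOA_diag]
      simp only [h1]
      have hMp : (M : ℝ) ≠ 0 := by exact_mod_cast hM.ne'
      rw [Finset.sum_const, Finset.card_range, nsmul_eq_mul, ← mul_assoc, inv_mul_cancel₀ hMp,
        one_mul]
    exact tendsto_nhds_unique h2 h3

end FHE
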