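import Pool.Agent.FHE.WOA

/-! WOB (~80 lines): `‖A‖` is attained at an eigenvector of `U`. If `A ≠ 0`: there is `μ` in the
spectrum with `‖μ‖ = ‖A‖` (`spectrum.exists_nnnorm_eq_spectralRadius`,
`ContinuousLinearMap.spectralRadius_eq_nnnorm`-style lemma for self-adjoint operators, as in
Mathlib/Analysis/InnerProductSpace/Spectrum `eq_zero_of_forall_hasEigenvalue_eq_zero`), it is an
eigenvalue (`IsCompactOperator.hasEigenvalue_iff_mem_spectrum`), the eigenspace is finite dimensional
(`finite_dimensional_eigenspace`) and invariant under `U`, so `U` has an eigenvector in it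
(`Module.End.exists_eigenvalue` for the restriction). -/

open MeasureTheory Filter Topology
open scoped ComplexConjugate

namespace FHE

theorem WOB {H : Type*} [NormedAddCommGroup H] [InnerProductSpace ℂ H] [CompleteSpace H]
    (U : H →ₗᵢ[ℂ] H) (A : H →L[ℂ] H) (hc : IsCompactOperator A) (hs : A.IsSymmetric)
    (hU : ∀ φ, A (U φ) = U (A φ)) :
    A = 0 ∨ ∃ (e : H) (β : ℂ), ‖e‖ = 1 ∧ U e = β • e ∧ ‖inner ℂ e (A e)‖ = ‖A‖ := by
  by_cases hA : A = 0
  · exact Or.inl hA
  right
  have hnt : Nontrivial H := by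
    by_contra hn
    rw [not_nontrivial_iff_subsingleton] at hn
    exact hA (ContinuousLinearMap.ext fun x => Subsingleton.elim _ _)
  obtain ⟨z, hz, hz1⟩ := spectrum.exists_nnnorm_eq_spectralRadius A
  rw [A.spectralRadius_eq_nnnorm hs.isSelfAdjoint] at hz1
  have hz2 : ‖z‖ = ‖A‖ := by
    have := ENNReal.coe_inj.1 hz1
    exact congrArg NNReal.toReal this
  have hz0 : z ≠ 0 := by
    intro h
    rw [h, norm_zero] at hz2
    exact hA (norm_eq_zero.1 hz2.symm)
  have hev := (hc.hasEigenvalue_iff_mem_spectrum hz0).2 hz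
  have hfd := ContinuousLinearMap.finite_dimensional_eigenspace hc z hz0
  let E := Module.End.eigenspace (A : Module.End ℂ H) z
  have hinv : ∀ x ∈ E, U.toLinearMap x ∈ E := by
    intro x hx
    have hx' : A x = z • x := Module.End.mem_eigenspace_iff.1 hx
    refine Module.End.mem_eigenspace_iff.2 ?_
    change A (U x) = z • U x
    rw [hU, hx', map_smul]
  have hE : Nontrivial E := by
    obtain ⟨v, hv⟩ := hev.exists_hasEigenvector
    refine ⟨⟨v, hv.1⟩, 0, ?_⟩
    intro h
    exact hv.2 (congrArg Subtype.val h)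
  obtain ⟨β, hβ⟩ := Module.End.exists_eigenvalue (U.toLinearMap.restrict hinv)
  obtain ⟨v, hv⟩ := hβ.exists_hasEigenvector
  have hv0 : (v : H) ≠ 0 := fun h => hv.2 (Subtype.ext h)
  have hUv : U (v : H) = β • (v : H) := by
    have h1 := hv.apply_eq_smul
    exact congrArg Subtype.val h1
  have hAv : A (v : H) = z • (v : H) := Module.End.mem_eigenspace_iff.1 v.2
  have hn : ‖(v : H)‖ ≠ 0 := norm_ne_zero_iff.2 hv0
  refine ⟨((‖(v : H)‖⁻¹ : ℝ) : ℂ) • (v : H), β, ?_, ?_, ?_⟩
  · rw [norm_smul, Complex.norm_real, norm_inv, norm_norm, inv_mul_cancel₀ hn]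
  · rw [map_smul, hUv, smul_comm]
  · rw [map_smul, hAv, smul_comm, inner_smul_right, inner_self_eq_norm_sq_to_K]
    have : ‖((‖(v : H)‖⁻¹ : ℝ) : ℂ) • (v : H)‖ = 1 := by
      rw [norm_smul, Complex.norm_real, norm_inv, norm_norm, inv_mul_cancel₀ hn]
    rw [this]
    simp [hz2]

end FHE
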